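import Pool.Agent.MP_9207e0_ag.hg.Spec
import Pool.Agent.MP_9207e0_ag.Gamma

-- ======== part 0: formerly Pool.Agent.MP_9207e0_ag.hg.QB
section MrgPart0

/-! Module QB: the classical forms of level one and the ring of modular functions. -/

set_option linter.unusedSectionVars false
set_option linter.unusedVariables false

namespace Pool.Agent.MP_9207e0_ag.hg

open UpperHalfPlane Complex Filter Asymptotics Matrix
open scoped Real MatrixGroups Manifold Classical Kronecker

namespace QBaux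

/-! ### Leading terms of Laurent series -/

/-- The series starts with `a p ^ m`. -/
def Ld (m : ℤ) (a : ℂ) (x : LS) : Prop := (∀ n < m, x.coeff n = 0) ∧ x.coeff m = a

lemma Ld.mul {m m' : ℤ} {a a' : ℂ} {x y : LS} (hx : Ld m a x) (hy : Ld m' a' y) :
    Ld (m + m') (a * a') (x * y) := by
  have key : ∀ n, ∀ p ∈ Finset.antidiagonal x.isPWO_support y.isPWO_support n,
      m ≤ p.1 ∧ m' ≤ p.2 ∧ p.1 + p.2 = n := by
    intro n p hp
    rw [Finset.mem_antidiagonal] at hp
    exact ⟨not_lt.mp fun h => hp.1 (hx.1 _ h), not_lt.mp fun h => hp.2.1 (hy.1 _ h), hp.2.2⟩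
  constructor
  · intro n hn
    rw [HahnSeries.coeff_mul]
    refine Finset.sum_eq_zero fun p hp => ?_
    obtain ⟨h1, h2, h3⟩ := key n p hp
    omega
  · rw [HahnSeries.coeff_mul, Finset.sum_eq_single (m, m'), hx.2, hy.2]
    · intro p hp hne
      obtain ⟨h1, h2, h3⟩ := key _ p hp
      exact absurd (Prod.ext (by simp only; omega) (by simp only; omega)) hne
    · intro hp
      rw [Finset.mem_antidiagonal] at hp
      by_contra h0
      exact hp ⟨left_ne_zero_of_mul h0, right_ne_zero_of_mul h0, rfl⟩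

lemma ld_single (m : ℤ) (a : ℂ) : Ld m a (HahnSeries.single m a) :=
  ⟨fun n hn => HahnSeries.coeff_single_of_ne hn.ne, HahnSeries.coeff_single_same _ _⟩

lemma Ld.pow {m : ℤ} {a : ℂ} {x : LS} (hx : Ld m a x) (k : ℕ) : Ld (k * m) (a ^ k) (x ^ k) := by
  induction k with
  | zero => simpa using ld_single 0 1
  | succ k ih =>
    have := ih.mul hx
    rwa [← pow_succ, ← pow_succ, show (k : ℤ) * m + m = ((k + 1 : ℕ) : ℤ) * m by
      push_cast; ring] at this

lemma Ld.sum {m : ℤ} {ι : Type} (s : Finset ι) (a : ι → ℂ) (x : ι → LS)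
    (h : ∀ i ∈ s, Ld m (a i) (x i)) : Ld m (∑ i ∈ s, a i) (∑ i ∈ s, x i) := by
  constructor
  · intro n hn
    rw [HahnSeries.coeff_sum]
    exact Finset.sum_eq_zero fun i hi => (h i hi).1 n hn
  · rw [HahnSeries.coeff_sum]
    exact Finset.sum_congr rfl fun i hi => (h i hi).2

lemma Ld.unique {m m' : ℤ} {a a' : ℂ} {x : LS} (h : Ld m a x) (h' : Ld m' a' x) (ha : a ≠ 0)
    (ha' : a' ≠ 0) : m = m' ∧ a = a' := by
  have e : m = m' := by
    rcases lt_trichotomy m m' with hl | hl | hl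
    · exact absurd (h.2.symm.trans (h'.1 m hl)) ha
    · exact hl
    · exact absurd (h'.2.symm.trans (h.1 m' hl)) ha'
  subst e
  exact ⟨rfl, h.2.symm.trans h'.2⟩

lemma ld_order (x : LS) : Ld x.order (x.coeff x.order) x :=
  ⟨fun n hn => HahnSeries.coeff_eq_zero_of_lt_order hn, rfl⟩

lemma ratL_single (m : ℤ) (q : ℚ) : RatL (HahnSeries.single m (q : ℂ)) := by
  intro n
  by_cases h : n = m
  · exact ⟨q, by rw [h, HahnSeries.coeff_single_same]⟩
  · exact ⟨0, by rw [HahnSeries.coeff_single_of_ne h]; simp⟩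

/-- A root with leading coefficient one of a rational series is rational. -/
lemma ratL_of_pow (K : Subfield LS) (hK : ∀ c, c ∈ K ↔ RatL c) {c : LS} {m : ℤ} {k : ℕ}
    (hc : Ld m 1 c) (hk : RatL (c ^ (k + 1))) : RatL c := by
  have main : ∀ r : ℕ, ∃ q : ℚ, c.coeff (m + r) = q := by
    intro r
    induction r using Nat.strong_induction_on with
    | _ r ih =>
    rcases Nat.eq_zero_or_pos r with rfl | hr
    · exact ⟨1, by simpa using hc.2⟩
    set v : LS := ∑ i ∈ Finset.range r, HahnSeries.single (m + i) (c.coeff (m + i)) with hv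
    have hvK : v ∈ K := by
      refine sum_mem fun i hi => ?_
      obtain ⟨q, hq⟩ := ih i (Finset.mem_range.mp hi)
      rw [hq, hK]
      exact ratL_single _ _
    have hvc : ∀ n, v.coeff n = if n < m + r then c.coeff n else 0 := by
      intro n
      rw [hv, HahnSeries.coeff_sum]
      by_cases h1 : m ≤ n ∧ n < m + r
      · obtain ⟨i, rfl⟩ := Int.le.dest h1.1
        rw [if_pos h1.2, Finset.sum_eq_single i, HahnSeries.coeff_single_same]
        · intro b _ hb
          exact HahnSeries.coeff_single_of_ne (by omega)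
        · intro hi
          rw [Finset.mem_range] at hi
          omega
      · rw [Finset.sum_eq_zero fun i hi => HahnSeries.coeff_single_of_ne (by
          have := Finset.mem_range.mp hi
          omega)]
        split_ifs with h2
        · exact (hc.1 n (by omega)).symm
        · rfl
    have hv1 : Ld m 1 v := by
      refine ⟨fun n hn => ?_, ?_⟩
      · rw [hvc, if_pos (by omega), hc.1 n hn]
      · rw [hvc, if_pos (by omega), hc.2]
    have hd : Ld (m + r) (c.coeff (m + r)) (c - v) := by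
      refine ⟨fun n hn => ?_, ?_⟩
      · rw [HahnSeries.coeff_sub, hvc, if_pos hn, sub_self]
      · rw [HahnSeries.coeff_sub, hvc, if_neg (lt_irrefl _), sub_zero]
    have hS : Ld (k * m) (∑ i ∈ Finset.range (k + 1), (1 : ℂ))
        (∑ i ∈ Finset.range (k + 1), c ^ i * v ^ (k + 1 - 1 - i)) := by
      refine Ld.sum _ _ _ fun i hi => ?_
      have h1 := (hc.pow i).mul (hv1.pow (k + 1 - 1 - i))
      have h2 : i ≤ k := Nat.lt_succ_iff.mp (Finset.mem_range.mp hi)
      rwa [one_pow, one_pow, one_mul, ← add_mul, ← Nat.cast_add,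
        show i + (k + 1 - 1 - i) = k by omega] at h1
    have h3 := (hS.mul hd).2
    rw [geom_sum₂_mul, HahnSeries.coeff_sub] at h3
    obtain ⟨q1, hq1⟩ := hk (k * m + (m + r))
    obtain ⟨q2, hq2⟩ := (hK _).mp (pow_mem hvK (k + 1)) (k * m + (m + r))
    refine ⟨(q1 - q2) / (k + 1), ?_⟩
    rw [hq1, hq2] at h3
    simp only [Finset.sum_const, Finset.card_range, nsmul_eq_mul, mul_one] at h3
    have h4 : ((k : ℂ) + 1) ≠ 0 := by exact_mod_cast Nat.succ_ne_zero k
    push_cast at h3 ⊢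
    rw [eq_div_iff h4, h3]
    ring
  intro n
  rcases lt_or_ge n m with h | h
  · exact ⟨0, by rw [hc.1 n h]; simp⟩
  · obtain ⟨r, rfl⟩ := Int.le.dest h
    exact main r

/-! ### The eta function -/

lemma et_hol : Hol et := by
  rw [Hol, UpperHalfPlane.mdifferentiable_iff]
  refine .congr (fun z hz => (ModularForm.differentiableAt_eta_of_mem_upperHalfPlaneSet
    hz).differentiableWithinAt) fun z hz => ?_
  simp [et, ofComplex_apply_of_im_pos hz]

lemma et_ne (τ : ℍ) : et τ ≠ 0 := ModularForm.eta_ne_zero τ.2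

lemma et_T (τ : ℍ) : et (ModularGroup.T • τ) = ee (1 / 24) * et τ := by
  have h1 : ((ModularGroup.T • τ : ℍ) : ℂ) = τ + 1 := by
    rw [modular_T_smul]
    simp [add_comm]
  have h2 : Function.Periodic.qParam 1 ((τ : ℂ) + 1) = Function.Periodic.qParam 1 τ := by
    simp only [Function.Periodic.qParam]
    rw [← exp_periodic (2 * π * Complex.I * τ / ((1 : ℝ) : ℂ))]
    congr 1
    simp [mul_add]
  have h3 : Function.Periodic.qParam 24 ((τ : ℂ) + 1) =
      ee (1 / 24) * Function.Periodic.qParam 24 τ := by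
    simp only [Function.Periodic.qParam, ee]
    rw [← Complex.exp_add]
    congr 1
    push_cast
    ring
  simp only [et, ModularForm.eta, ModularForm.eta_q, h1, h2, h3, mul_assoc]

lemma sqr_sq (τ : ℍ) : sqr τ ^ 2 = -Complex.I * τ := by
  rw [sqr, one_div]
  exact_mod_cast cpow_ofNat_inv_pow (-Complex.I * τ) 2

lemma sqr_eq (τ : ℍ) : sqr τ = (sqrt Complex.I)⁻¹ * sqrt τ := by
  have h0 : -Complex.I * τ ≠ 0 := mul_ne_zero (neg_ne_zero.mpr I_ne_zero) τ.ne_zero
  have h1 : |arg (-Complex.I * τ)| < π / 2 := by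
    rw [abs_arg_lt_pi_div_two_iff]
    left
    simpa using τ.im_pos
  have h2 : log (τ : ℂ) = log Complex.I + log (-Complex.I * τ) := by
    rw [← Complex.log_mul I_ne_zero h0]
    · congr 1
      rw [← mul_assoc, mul_neg, I_mul_I]
      simp
    · rw [arg_I]
      have := abs_lt.mp h1
      constructor <;> linarith [Real.pi_pos]
  rw [sqrt_eq_exp I_ne_zero, sqrt_eq_exp τ.ne_zero, h2, sqr, cpow_def_of_ne_zero h0,
    ← Complex.exp_neg, ← Complex.exp_add]
  congr 1
  ring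

lemma et_S (τ : ℍ) : et (ModularGroup.S • τ) = sqr τ * et τ := by
  have h1 := ModularForm.eta_comp_eq_csqrt_I_inv τ.2
  have h2 : ((ModularGroup.S • τ : ℍ) : ℂ) = -1 / τ := by
    rw [modular_S_smul]
    simp [neg_div]
  rw [et, h2, sqr_eq, mul_assoc]
  simpa [et] using h1

/-- The transformation law of a form of level one. -/
lemma law {F : Type} [FunLike F ℍ ℂ] {k : ℤ} [SlashInvariantFormClass F 𝒮ℒ k] (f : F) (γ : SL2)
    (τ : ℍ) : f (γ • τ) = (((γ : M2) 1 0 : ℂ) * τ + (γ : M2) 1 1) ^ k * f τ := by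
  have : SlashInvariantFormClass F (CongruenceSubgroup.Gamma 1) k :=
    CongruenceSubgroup.Gamma_one_coe_eq_SL ▸ ‹_›
  have h := SlashInvariantForm.slash_action_eqn_SL'' f (CongruenceSubgroup.mem_Gamma_one γ) τ
  rw [h]
  simp [denom]

lemma delta_law (γ : SL2) (τ : ℍ) : ModularForm.discriminant (γ • τ) =
    (((γ : M2) 1 0 : ℂ) * τ + (γ : M2) 1 1) ^ 12 * ModularForm.discriminant τ := by
  exact_mod_cast law CuspForm.discriminant γ τ

lemma et_norm (γ : SL2) (τ : ℍ) :
    ‖et (γ • τ)‖ ^ 2 = ‖((γ : M2) 1 0 : ℂ) * τ + (γ : M2) 1 1‖ * ‖et τ‖ ^ 2 := by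
  have h := congrArg norm (delta_law γ τ)
  simp only [ModularForm.discriminant, norm_mul, norm_pow] at h
  refine (pow_left_inj₀ (by positivity) (by positivity) (by norm_num : 12 ≠ 0)).mp ?_
  rw [mul_pow, ← pow_mul, ← pow_mul]
  exact h

/-! ### Expansions of the forms of level one -/

lemma isQ_form {F : Type} [FunLike F ℍ ℂ] {k : ℤ} [ModularFormClass F 𝒮ℒ k] (f : F) :
    IsQ 1 f (HahnSeries.ofPowerSeries ℤ ℂ (qExpansion 1 f)) := by
  intro τ
  have h := ModularForm.hasSum_qExpansion f one_pos one_mem_strictPeriods_SL τ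
  rw [← (Nat.cast_injective (R := ℤ)).hasSum_iff]
  · refine (congrArg (fun u => HasSum u (f τ)) (funext fun m => ?_)).mp h
    simp only [Function.comp, HahnSeries.ofPowerSeries_apply_coeff, Function.Periodic.qParam, ee]
    rw [← Complex.exp_nat_mul]
    congr 2
    push_cast
    ring
  · intro n hn
    have h1 : n < 0 := by
      by_contra h2
      exact hn ⟨n.toNat, by simpa using h2⟩
    rw [PowerSeries.coeff_coe, if_pos h1, zero_mul]

lemma coeff_neg_ofPS (p : PowerSeries ℂ) {n : ℤ} (hn : n < 0) :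
    (HahnSeries.ofPowerSeries ℤ ℂ p).coeff n = 0 := by
  rw [PowerSeries.coeff_coe, if_pos hn]

lemma ratL_E {k : ℕ} (hk : 3 ≤ k) (hk2 : Even k) :
    RatL (HahnSeries.ofPowerSeries ℤ ℂ (qExpansion 1 (ModularForm.E hk))) := by
  intro n
  rw [PowerSeries.coeff_coe, EisensteinSeries.E_qExpansion_coeff hk hk2]
  split_ifs
  · exact ⟨0, by simp⟩
  · exact ⟨1, by simp⟩
  · exact ⟨-(2 * k / bernoulli k) * (ArithmeticFunction.sigma (k - 1) n.natAbs), by push_cast; rfl⟩

lemma ld_E {k : ℕ} (hk : 3 ≤ k) (hk2 : Even k) :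
    Ld 0 1 (HahnSeries.ofPowerSeries ℤ ℂ (qExpansion 1 (ModularForm.E hk))) := by
  refine ⟨fun n hn => coeff_neg_ofPS _ hn, ?_⟩
  rw [← EisensteinSeries.E_qExpansion_coeff_zero hk hk2]
  exact HahnSeries.ofPowerSeries_apply_coeff _ 0

lemma e4_q : ∃ c, IsQ 1 ModularForm.E₄ c ∧ RatL c ∧ Ld 0 1 c :=
  ⟨_, isQ_form _, ratL_E _ ⟨2, rfl⟩, ld_E _ ⟨2, rfl⟩⟩

lemma e6_q : ∃ c, IsQ 1 ModularForm.E₆ c ∧ RatL c ∧ Ld 0 1 c :=
  ⟨_, isQ_form _, ratL_E _ ⟨3, rfl⟩, ld_E _ ⟨3, rfl⟩⟩

lemma delta_q (hA : QA) : ∃ c, IsQ 1 ModularForm.discriminant c ∧ RatL c ∧ Ld 1 1 c := by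
  have h0 : IsQ 1 ModularForm.discriminant _ := isQ_form CuspForm.discriminant
  refine ⟨_, h0, ?_, fun n hn => ?_, ?_⟩
  · obtain ⟨K, hK⟩ := hA.ratL
    obtain ⟨c, hc, hc', -⟩ := e4_q
    obtain ⟨d, hd, hd', -⟩ := e6_q
    have h1 := hA.mul one_pos (hA.const 1 ((1 / 1728 : ℚ) : ℂ))
      (hA.add (hA.pow 3 one_pos hc) (hA.neg (hA.pow 2 one_pos hd)))
    have h2 : ModularForm.discriminant = (fun _ => ((1 / 1728 : ℚ) : ℂ)) *
        ((ModularForm.E₄ : ℍ → ℂ) ^ 3 + -(ModularForm.E₆ : ℍ → ℂ) ^ 2) := by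
      ext τ
      simp only [Pi.mul_apply, Pi.add_apply, Pi.neg_apply, Pi.pow_apply,
        ModularForm.discriminant_eq_E₄_cube_sub_E₆_sq]
      push_cast
      ring
    rw [← h2] at h1
    rw [hA.unique one_pos h0 h1, ← hK]
    exact mul_mem ((hK _).mpr (ratL_single 0 _))
      (add_mem (pow_mem ((hK _).mpr hc') 3) (neg_mem (pow_mem ((hK _).mpr hd') 2)))
  · rcases lt_or_eq_of_le (Int.lt_add_one_iff.mp (show n < 0 + 1 by simpa using hn)) with h | rfl
    · exact coeff_neg_ofPS _ h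
    · rw [← CuspFormClass.qExpansion_coeff_zero CuspForm.discriminant one_pos
        one_mem_strictPeriods_SL]
      exact HahnSeries.ofPowerSeries_apply_coeff _ 0
  · rw [← ModularForm.discriminant_qExpansion_coeff_one]
    exact HahnSeries.ofPowerSeries_apply_coeff _ 1

lemma delta_hol : Hol ModularForm.discriminant := CuspForm.discriminant.holo'

lemma j_hol : Hol jf :=
  (ModularForm.E₄.holo'.pow 3).div delta_hol ModularForm.discriminant_ne_zero

lemma j_q (hA : QA) : ∃ c, IsQ 1 jf c ∧ RatL c ∧ Ld (-1) 1 c := by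
  obtain ⟨K, hK⟩ := hA.ratL
  obtain ⟨c, hc, hc', hc1⟩ := e4_q
  obtain ⟨d, hd, hd', hd1⟩ := delta_q hA
  have hd0 : d ≠ 0 := by
    rintro rfl
    exact zero_ne_one hd1.2
  have h1 : jf * ModularForm.discriminant = (ModularForm.E₄ : ℍ → ℂ) ^ 3 := by
    ext τ
    exact div_mul_cancel₀ _ (ModularForm.discriminant_ne_zero τ)
  refine ⟨_, hA.quot one_pos (hA.pow 3 one_pos hc) hd
    (fun h => ModularForm.discriminant_ne_zero UpperHalfPlane.I (congrFun h _)) j_hol h1,
    (hK _).mp (div_mem (pow_mem ((hK _).mpr hc') 3) ((hK _).mpr hd')), ?_⟩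
  have h2 := hc1.pow 3
  have h3 := (ld_order (c ^ 3 / d)).mul hd1
  rw [div_mul_cancel₀ _ hd0] at h3
  have h4 : c ^ 3 / d ≠ 0 := by
    refine div_ne_zero ?_ hd0
    intro h
    rw [h] at h2
    exact zero_ne_one (h2.2.trans (one_pow 3))
  obtain ⟨e1, e2⟩ := h3.unique h2
    (mul_ne_zero (mt HahnSeries.coeff_order_eq_zero.mp h4) one_ne_zero) (by simp)
  have h5 := ld_order (c ^ 3 / d)
  rw [mul_one, one_pow] at e2
  rwa [e2, show (c ^ 3 / d).order = -1 by omega] at h5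

lemma j_inv (γ : SL2) (τ : ℍ) : jf (γ • τ) = jf τ := by
  have h1 := law ModularForm.E₄ γ τ
  have h0 := den_ne (det_SL_pos γ) τ
  have h2 := ModularForm.discriminant_ne_zero τ
  rw [jf, jf, h1, delta_law, zpow_ofNat]
  field_simp

lemma j_mod (hA : QA) : jf ∈ Mod 1 := by
  obtain ⟨c, hc, -⟩ := j_q hA
  exact ⟨j_hol, fun γ _ => j_inv γ, fun γ => by
    simpa only [j_inv] using hA.expG one_pos hc⟩

lemma ratL_sub {k : ℕ} {c c' : LS} (h : IsSub k 1 c c') (hc : RatL c) : RatL c' := by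
  intro m
  by_cases hm : (k : ℤ) ∣ m
  · obtain ⟨n, rfl⟩ := hm
    rw [h.1, _root_.one_zpow, one_mul]
    exact hc n
  · exact ⟨0, by rw [h.2 m hm]; simp⟩

lemma level_up (hA : QA) {h h' : ℕ} {w : ℍ → ℂ} {c : LS} (h0 : 0 < h') (hd : h ∣ h')
    (hc : IsQ h w c) : ∃ c', IsQ h' w c' ∧ (RatL c → RatL c') := by
  obtain ⟨k, rfl⟩ := hd
  have h1 : 0 < h := Nat.pos_of_mul_pos_right h0
  have h2 : 0 < k := Nat.pos_of_mul_pos_left h0
  obtain ⟨c', hc'⟩ := hA.exists_sub k 1 c h2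
  exact ⟨c', mul_comm k h ▸ (hA.level h1 h2 hc').mpr hc, ratL_sub hc'⟩

/-- The Euler product. -/
noncomputable def eul (τ : ℍ) : ℂ := ∏' n, (1 - ModularForm.eta_q n τ)

lemma et_eq (τ : ℍ) : et τ = ee ((1 : ℤ) * τ / (24 : ℕ)) * eul τ := by
  rw [et, ModularForm.eta, eul, Function.Periodic.qParam, ee]
  congr 2
  push_cast
  ring

lemma eul_hol : Hol eul := by
  rw [Hol, UpperHalfPlane.mdifferentiable_iff]
  refine .congr (fun z hz => (ModularForm.differentiableAt_eta_tprod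
    hz).differentiableWithinAt) fun z hz => ?_
  simp [eul, ofComplex_apply_of_im_pos hz]

lemma eul_tendsto : Tendsto eul atImInfty (nhds 1) := by
  have h1 := (ModularForm.differentiableOn_tprod_one_sub_pow.differentiableAt
    (Metric.ball_mem_nhds (0 : ℂ) one_pos)).continuousAt.tendsto
  have h2 := h1.comp (UpperHalfPlane.qParam_tendsto_atImInfty one_pos)
  simp only [ne_eq, Nat.add_eq_zero_iff, one_ne_zero, and_false, not_false_eq_true, zero_pow,
    sub_zero, tprod_one] at h2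
  exact h2

lemma eul_T (n : ℤ) (τ : ℍ) : eul (ModularGroup.T ^ n • τ) = eul τ := by
  have h1 : ((ModularGroup.T ^ n • τ : ℍ) : ℂ) = τ + n := ModularGroup.coe_T_zpow_smul_eq τ
  have h2 : Function.Periodic.qParam 1 ((τ : ℂ) + n) = Function.Periodic.qParam 1 τ := by
    simp only [Function.Periodic.qParam]
    rw [← (exp_periodic.int_mul n) (2 * π * Complex.I * τ / ((1 : ℝ) : ℂ))]
    congr 1
    push_cast
    ring
  simp only [eul, ModularForm.eta_q, h1, h2]

lemma et_q (hA : QA) : ∃ c, IsQ 24 et c ∧ RatL c ∧ Ld 1 1 c := by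
  have h24 : 0 < 24 := by norm_num
  have hg : Gr 0 eul := by
    unfold Gr
    simpa using eul_tendsto.isBigO_one ℝ
  obtain ⟨c, hc⟩ := hA.exists_q h24 eul_hol (eul_T _) ⟨0, hg⟩
  have h1 : ∀ n < 0, c.coeff n = 0 := fun n hn =>
    hA.coeff_of_gr 0 h24 hc hg n (by simpa using hn)
  have h2 : Ld 0 1 c := ⟨h1, tendsto_nhds_unique (hA.tendsto h24 hc h1) eul_tendsto⟩
  have h3 : IsQ 24 et (HahnSeries.single 1 1 * c) := by
    have := hA.mul h24 (hA.single 24 1) hc
    rwa [show (fun τ : ℍ => ee ((1 : ℤ) * τ / (24 : ℕ))) * eul = et from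
      funext fun τ => (et_eq τ).symm] at this
  have h4 : Ld 1 1 (HahnSeries.single 1 1 * c) := by simpa using (ld_single 1 1).mul h2
  refine ⟨_, h3, ?_, h4⟩
  obtain ⟨K, hK⟩ := hA.ratL
  obtain ⟨d, hd, hd', -⟩ := delta_q hA
  obtain ⟨d', hd1, hd2⟩ := level_up hA h24 (one_dvd 24) hd
  refine ratL_of_pow K hK (k := 23) h4 ?_
  rw [hA.unique h24 (hA.pow 24 h24 h3) hd1]
  exact hd2 hd'

/-! ### The ring of modular functions -/

lemma gr_upper {κ : ℝ} {w : ℍ → ℂ} {a b d : ℤ} (ha : 0 < a) (hd : 0 < d) (hw : Gr κ w) :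
    Gr (κ * a / d) fun τ => w (mob !![a, b; 0, d] τ) := by
  have h0 : 0 < (!![a, b; 0, d] : M2).det := by simpa [Matrix.det_fin_two] using mul_pos ha hd
  have hd' : (0 : ℝ) < d := by exact_mod_cast hd
  have ha' : (0 : ℝ) < a := by exact_mod_cast ha
  have h1 : ∀ τ : ℍ, (mob !![a, b; 0, d] τ).im = a / d * τ.im := by
    intro τ
    rw [im_mob h0]
    simp [Matrix.det_fin_two]
    field_simp
  have h2 : Tendsto (mob !![a, b; 0, d]) atImInfty atImInfty := by
    rw [atImInfty, tendsto_comap_iff]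
    have : Tendsto (fun τ : ℍ => a / d * τ.im) (comap UpperHalfPlane.im atTop) atTop :=
      tendsto_comap.const_mul_atTop (div_pos ha' hd')
    exact this.congr fun τ => (h1 τ).symm
  refine (IsBigO.comp_tendsto hw h2).congr_right fun τ => ?_
  simp only [Function.comp, h1]
  congr 1
  ring

lemma mod_q (hA : QA) {N : ℕ} {w : ℍ → ℂ} (hN : 0 < N) (hw : w ∈ Mod N) : HasQ N w := by
  refine hA.exists_q hN hw.1 (hw.2.1 _ ?_) (by simpa using hw.2.2 1)
  simpa using CongruenceSubgroup.ModularGroup_T_pow_mem_Gamma N N dvd_rfl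

lemma mem_Gam {N : ℕ} {g : SL2} : g ∈ Gam N ↔ ∃ Y : M2, (g : M2) = 1 + (N : ℤ) • Y := by
  rw [CongruenceSubgroup.Gamma_mem]
  constructor
  · rintro ⟨h1, h2, h3, h4⟩
    rw [ZMod.intCast_zmod_eq_zero_iff_dvd] at h2 h3
    have h5 : (N : ℤ) ∣ g 0 0 - 1 := by
      rw [← ZMod.intCast_zmod_eq_zero_iff_dvd]; push_cast; rw [h1, sub_self]
    have h6 : (N : ℤ) ∣ g 1 1 - 1 := by
      rw [← ZMod.intCast_zmod_eq_zero_iff_dvd]; push_cast; rw [h4, sub_self]
    obtain ⟨a, ha⟩ := h5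
    obtain ⟨b, hb⟩ := h2
    obtain ⟨c, hc⟩ := h3
    obtain ⟨d, hd⟩ := h6
    refine ⟨!![a, b; c, d], ?_⟩
    ext i k
    fin_cases i <;> fin_cases k <;> simp <;> linarith
  · rintro ⟨Y, hY⟩
    have h : ∀ i k, g i k = (1 : M2) i k + N * Y i k := fun i k => congrFun (congrFun hY i) k
    simp [h]

lemma mod_level {N N' : ℕ} {w : ℍ → ℂ} (h : N ∣ N') (hw : w ∈ Mod N) : w ∈ Mod N' := by
  refine ⟨hw.1, fun γ hγ => hw.2.1 γ ?_, hw.2.2⟩
  obtain ⟨k, rfl⟩ := h
  obtain ⟨Y, hY⟩ := mem_Gam.mp hγ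
  exact mem_Gam.mpr ⟨(k : ℤ) • Y, by rw [hY, smul_smul]; push_cast; rfl⟩

lemma mod_mob (hO : ORB) {N : ℕ} {w : ℍ → ℂ} {A : M2} (hA : 0 < A.det) (hw : w ∈ Mod N) :
    (fun τ => w (mob A τ)) ∈ Mod (N * A.det.toNat) := by
  have hD : ((A.det.toNat : ℕ) : ℤ) = A.det := Int.toNat_of_nonneg hA.le
  refine ⟨hw.1.comp_mob hA, fun g hg τ => ?_, fun γ => ?_⟩
  · obtain ⟨Y, hY⟩ := mem_Gam.mp hg
    rw [Nat.cast_mul, hD] at hY
    have h1 : A * (g : M2) = (1 + (N : ℤ) • (A * Y * A.adjugate)) * A := by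
      rw [hY, mul_add, add_mul, mul_one, one_mul, smul_mul_assoc, mul_assoc (A * Y),
        Matrix.adjugate_mul, mul_smul_comm, mul_smul_comm, mul_one, smul_smul]
    have h2 : (1 + (N : ℤ) • (A * Y * A.adjugate)).det = 1 := by
      have := congrArg Matrix.det h1
      rw [Matrix.det_mul, Matrix.det_mul, det_SL, mul_one] at this
      exact mul_right_cancel₀ hA.ne' (by rw [one_mul]; exact this.symm)
    obtain ⟨g', hg'⟩ : ∃ g' : SL2, (g' : M2) = 1 + (N : ℤ) • (A * Y * A.adjugate) := ⟨⟨_, h2⟩, rfl⟩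
    have h3 := hw.2.1 g' (mem_Gam.mpr ⟨_, hg'⟩) (mob A τ)
    show w (mob A (g • τ)) = w (mob A τ)
    rw [← h3, ← mob_SL, ← mob_SL, ← mob_mul hA (det_SL_pos g), h1, ← hg',
      mob_mul (det_SL_pos g') hA]
  · have h1 : (A * (γ : M2)).det = (A.det.toNat : ℕ) := by
      rw [Matrix.det_mul, det_SL, mul_one, hD]
    obtain ⟨B, ⟨hB, γ', hγ'⟩, -⟩ := hO.herm _ _ (by omega) h1
    obtain ⟨e1, e2, e3, e4, e5⟩ := (hO.mem_herm _ _).mp hB
    have h2 : B = !![B 0 0, B 0 1; 0, B 1 1] := by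
      rw [← e1]
      exact Matrix.eta_fin_two B
    have h3 : 0 < B.det := by
      rw [Matrix.det_fin_two, e1, mul_zero, sub_zero, e5, hD]
      exact hA
    obtain ⟨κ, hκ⟩ := hw.2.2 γ'
    refine ⟨_, (gr_upper (b := B 0 1) e2 (e3.trans_lt e4) hκ).congr_left fun τ => ?_⟩
    rw [← h2, ← mob_SL, ← mob_SL, ← mob_mul (det_SL_pos γ') h3, ← hγ', mob_mul hA (det_SL_pos γ)]

lemma mod_one {w : ℍ → ℂ} (h1 : Hol w) (h2 : ExpG w) (hS : ∀ τ, w (ModularGroup.S • τ) = w τ)
    (hT : ∀ τ, w (ModularGroup.T • τ) = w τ) : w ∈ Mod 1 := by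
  have key : ∀ γ : SL2, ∀ τ, w (γ • τ) = w τ := by
    intro γ
    have hγ : γ ∈ Subgroup.closure {ModularGroup.S, ModularGroup.T} := by
      simp [SpecialLinearGroup.SL2Z_generators]
    induction hγ using Subgroup.closure_induction with
    | mem x hx =>
      rcases hx with rfl | rfl
      · exact hS
      · exact hT
    | one => simp
    | mul x y _ _ hx hy => intro τ; rw [mul_smul, hx, hy]
    | inv x _ hx => intro τ; rw [← hx, smul_inv_smul]
  exact ⟨h1, fun γ _ => key γ, fun γ => by simpa only [key] using h2⟩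

lemma mod_quot (hA : QA) {N : ℕ} {a b g : ℍ → ℂ} (hN : 0 < N) (ha : a ∈ Mod N) (hb : b ∈ Mod N)
    (h0 : b ≠ 0) (hg : Hol g) (h : g * b = a) : g ∈ Mod N := by
  refine ⟨hg, fun γ hγ => ?_, fun γ => ?_⟩
  · by_contra hne
    refine Hol.mul_ne_zero ((hg.comp_SL γ).sub hg) hb.1 (fun h1 => hne fun τ => ?_) h0 ?_
    · exact sub_eq_zero.mp (congrFun h1 τ)
    · ext τ
      have e1 := congrFun h τ
      have e2 := congrFun h (γ • τ)
      simp only [Pi.mul_apply, ha.2.1 γ hγ, hb.2.1 γ hγ] at e1 e2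
      simp only [Pi.mul_apply, Pi.sub_apply, Pi.zero_apply]
      rw [sub_mul, e1, e2, sub_self]
  · obtain ⟨c, hc⟩ := mod_q hA hN (comp_SL_mem_Mod ha γ)
    obtain ⟨d, hd⟩ := mod_q hA hN (comp_SL_mem_Mod hb γ)
    refine hA.expG hN (hA.quot hN hc hd (fun h1 => h0 ?_) (hg.comp_SL γ) ?_)
    · ext τ
      simpa using congrFun h1 (γ⁻¹ • τ)
    · ext τ
      exact congrFun h (γ • τ)

lemma generic {ι : Type} (s : Finset ι) (w : ι → ℍ → ℂ) (h : ∀ i ∈ s, Hol (w i) ∧ w i ≠ 0) :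
    ∃ τ, ∀ i ∈ s, w i τ ≠ 0 := by
  have key : Hol (∏ i ∈ s, w i) ∧ ∏ i ∈ s, w i ≠ 0 :=
    Finset.prod_induction w (fun f => Hol f ∧ f ≠ 0)
      (fun a b ha hb => ⟨ha.1.mul hb.1, ha.1.mul_ne_zero hb.1 ha.2 hb.2⟩)
      ⟨mdifferentiable_const, one_ne_zero⟩ h
  obtain ⟨τ, hτ⟩ := Function.ne_iff.mp key.2
  rw [Finset.prod_apply] at hτ
  exact ⟨τ, Finset.prod_ne_zero_iff.mp hτ⟩

end QBaux

open QBaux in
theorem qb (hA : QA) (hO : ORB) : QB where
  et_hol := et_hol
  et_ne := et_ne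
  et_T := et_T
  et_S := et_S
  sqr_sq := sqr_sq
  et_norm := et_norm
  et_q := let ⟨c, h1, h2, h3⟩ := et_q hA; ⟨c, h1, h2, h3.2, h3.1⟩
  rq_level := fun h0 hd ⟨_, hc, hr⟩ => let ⟨c', h1, h2⟩ := level_up hA h0 hd hc; ⟨c', h1, h2 hr⟩
  hasQ_level := fun h0 hd ⟨_, hc⟩ => let ⟨c', h1, _⟩ := level_up hA h0 hd hc; ⟨c', h1⟩
  e4_q := let ⟨c, h1, h2, _⟩ := e4_q; ⟨c, h1, h2⟩
  e6_q := let ⟨c, h1, h2, _⟩ := e6_q; ⟨c, h1, h2⟩
  delta_q := let ⟨c, h1, h2, h3⟩ := delta_q hA; ⟨c, h1, h2, h3.2, h3.1⟩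
  j_q := let ⟨c, h1, h2, h3⟩ := j_q hA; ⟨c, h1, h2, h3.2, h3.1⟩
  j_mod := j_mod hA
  j_inv := j_inv
  gr_upper := gr_upper
  mod_q := mod_q hA
  mod_level := mod_level
  mod_mob := mod_mob hO
  mod_one := mod_one
  mod_quot := mod_quot hA
  generic := generic

end Pool.Agent.MP_9207e0_ag.hg

end MrgPart0

-- ======== part 1: formerly Pool.Agent.MP_9207e0_ag.hg.Kum
section MrgPart1

/-! The symbol attached to the Kummer surface and its reciprocity law. -/

set_option linter.unusedSectionVars false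
set_option linter.unusedVariables false

namespace Pool.Agent.MP_9207e0_ag.hg

open UpperHalfPlane Complex Filter Asymptotics Matrix
open scoped Real MatrixGroups Manifold Classical Kronecker

namespace Kum

section Field

open Polynomial IsDedekindDomain
open scoped IntermediateField IntermediateField.algebraAdjoinAdjoin

variable {F : Type} [Field F] [Algebra Qbar F]

lemma mem_of_isIntegral {A : Type} [CommRing A] [Algebra A F] (O : ValuationSubring F)
    (hA : ∀ a : A, algebraMap A F a ∈ O) {x : F} (hx : IsIntegral A x) : x ∈ O := by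
  obtain ⟨p, hp, hpx⟩ := hx
  let φ : A →+* O := (algebraMap A F).codRestrict O.toSubring hA
  have : IsIntegral O x := ⟨p.map φ, hp.map _, by rw [eval₂_map]; exact hpx⟩
  obtain ⟨y, rfl⟩ := IsIntegrallyClosed.algebraMap_eq_of_integral this
  exact y.2

lemma exists_hos {B : Type} [CommRing B] [IsDedekindDomain B] [Algebra B F]
    [IsFractionRing B F] (O : ValuationSubring F) (hO : O ≠ ⊤)
    (hB : ∀ b : B, algebraMap B F b ∈ O) :
    ∃ p : HeightOneSpectrum B, (p.valuation F).valuationSubring = O ∧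
      ∀ b : B, b ∉ p.asIdeal → O.valuation (algebraMap B F b) = 1 := by
  let φ : B →+* O := (algebraMap B F).codRestrict O.toSubring hB
  let J : Ideal B := (IsLocalRing.maximalIdeal O).comap φ
  have hI : ∀ b, b ∈ J ↔ O.valuation (algebraMap B F b) < 1 := fun b => by
    rw [Ideal.mem_comap, O.valuation_lt_one_iff]; rfl
  have hI' : ∀ b, b ∉ J → O.valuation (algebraMap B F b) = 1 := fun b hb =>
    le_antisymm (O.valuation_le_one_iff _ |>.2 (hB b)) (not_lt.1 fun h => hb ((hI b).2 h))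
  have hne : J ≠ ⊥ := by
    intro h
    apply hO
    rw [eq_top_iff]
    intro x _
    obtain ⟨n, d, hd, rfl⟩ := IsFractionRing.div_surjective (A := B) x
    rw [← O.valuation_le_one_iff, map_div₀, hI' d (by
      rw [h]; exact nonZeroDivisors.ne_zero hd), div_one, O.valuation_le_one_iff]
    exact hB n
  refine ⟨⟨J, Ideal.comap_isPrime _ _, hne⟩, ?_, hI'⟩
  rw [← HeightOneSpectrum.valuationSubringAtPrime_eq_valuationSubring]
  apply ValuationSubring.eq_of_le_of_ne_top _ _ hO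
  rintro z ⟨a, s, hs, rfl⟩
  rw [← O.valuation_le_one_iff, map_mul, map_inv₀, hI' s hs, inv_one, mul_one,
    O.valuation_le_one_iff]
  exact hB a

lemma trdeg_one {K F : Type} [Field K] [Field F] [Algebra K F] (hF : IsCurveFieldOver K F) :
    Algebra.trdeg K F = 1 := by
  obtain ⟨t, ht, hfin⟩ := hF
  have h1 := trdeg_add_eq K (Algebra.adjoin K {t}) (A := K⟮t⟯)
  rw [trdeg_eq_zero (R := Algebra.adjoin K {t}), add_zero,
    ← (Polynomial.algEquivOfTranscendental K t ht).trdeg_eq] at h1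
  have h2 := trdeg_add_eq K K⟮t⟯ (A := F)
  rw [trdeg_eq_zero (R := K⟮t⟯), add_zero, ← h1] at h2
  rw [← h2]
  simp

lemma exists_sp (hF : IsCurveField F) {W : ValuationSubring F} (hW : IsPlace W) {g : F}
    (hg : g ∈ W) : ∃ c, Sp W g c := by
  by_contra hc
  have hg1 := (W.valuation_le_one_iff g).2 hg
  have h1 : ∀ c : Qbar, W.valuation (g - algebraMap Qbar F c) = 1 := fun c =>
    le_antisymm (W.valuation.map_sub_le hg1 (hW.val_le c)) (not_lt.1 fun h => hc ⟨c, h⟩)
  have h2 : ∀ f : Qbar[X], f ≠ 0 → W.valuation (aeval g f) = 1 := by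
    intro f hf
    rw [(IsAlgClosed.splits f).eq_prod_roots, map_mul, aeval_C, map_mul,
      hW.val_eq (leadingCoeff_ne_zero.2 hf), one_mul, map_multiset_prod, map_multiset_prod,
      Multiset.map_map, Multiset.map_map]
    refine Multiset.prod_eq_one fun y hy => ?_
    obtain ⟨c, -, rfl⟩ := Multiset.mem_map.1 hy
    simpa using h1 c
  have ht : Transcendental Qbar g := by
    rintro ⟨p, hp, h0⟩
    have := h2 p hp
    rw [h0, map_zero] at this
    exact zero_ne_one this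
  have hb : IsTranscendenceBasis Qbar (fun _ : Unit => g) :=
    (algebraicIndependent_unique_type_iff.2 ht).isTranscendenceBasis_of_trdeg_le_of_finite
      (by rw [trdeg_one hF]; simp)
  have halg := hb.isAlgebraic_field
  rw [Set.range_const] at halg
  apply hW.1
  rw [eq_top_iff]
  intro z _
  refine mem_of_isIntegral (A := Qbar⟮g⟯) W ?_ (halg.isAlgebraic z).isIntegral
  rintro ⟨a, ha⟩
  obtain ⟨r, s, rfl⟩ := (IntermediateField.mem_adjoin_simple_iff Qbar a).1 ha
  change aeval g r / aeval g s ∈ W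
  by_cases hr : r = 0
  · rw [hr, map_zero, zero_div]; exact W.zero_mem
  by_cases hs : s = 0
  · rw [hs, map_zero, div_zero]; exact W.zero_mem
  rw [← W.valuation_le_one_iff, map_div₀, h2 r hr, h2 s hs, div_one]

lemma fin_aux {t : F} (ht : Transcendental Qbar t) (hfin : FiniteDimensional Qbar⟮t⟯ F) {h : F}
    (hh : h ≠ 0) : {W : ValuationSubring F | IsPlace W ∧ t ∈ W ∧ W.valuation h ≠ 1}.Finite := by
  let A := Algebra.adjoin Qbar {t}
  have : IsPrincipalIdealRing A := IsPrincipalIdealRing.of_surjective _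
    (Polynomial.algEquivOfTranscendental Qbar t ht).surjective
  have : CharZero Qbar⟮t⟯ := algebraRat.charZero _
  have := integralClosure.isDedekindDomain A Qbar⟮t⟯ F
  have := integralClosure.isFractionRing_of_finite_extension Qbar⟮t⟯ F (A := A)
  obtain ⟨a, b, hb, rfl⟩ := IsFractionRing.div_surjective (A := integralClosure A F) h
  have hb0 := nonZeroDivisors.ne_zero hb
  have ha0 : a ≠ 0 := by
    rintro rfl
    simp at hh
  have hab : Ideal.span {a * b} ≠ ⊥ := by simpa using ⟨ha0, hb0⟩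
  refine ((Ideal.finite_factors hab).image
    fun p => (p.valuation F).valuationSubring).subset ?_
  rintro W ⟨hW, htW, hne⟩
  have hA : ∀ a : A, algebraMap A F a ∈ W := by
    rintro ⟨a, ha⟩
    change a ∈ W
    induction ha using Algebra.adjoin_induction with
    | mem x hx => rw [hx]; exact htW
    | algebraMap r => exact hW.2 r
    | add x y _ _ hx hy => exact W.add_mem _ _ hx hy
    | mul x y _ _ hx hy => exact W.mul_mem _ _ hx hy
  obtain ⟨p, hp, hp'⟩ := exists_hos (B := integralClosure A F) W hW.1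
    fun b => mem_of_isIntegral W hA (x := b.1) b.2
  refine ⟨p, ?_, hp⟩
  rw [Set.mem_ofPred_eq, Ideal.dvd_span_singleton]
  by_contra hn
  apply hne
  rw [map_div₀, hp' a fun h => hn (Ideal.mul_mem_right _ _ h),
    hp' b fun h => hn (Ideal.mul_mem_left _ _ h), div_one]

lemma fin_supp (hF : IsCurveField F) {h : F} (hh : h ≠ 0) :
    {W : ValuationSubring F | IsPlace W ∧ ordAt W h ≠ 0}.Finite := by
  obtain ⟨t, ht, hfin⟩ := hF
  have ht' : Transcendental Qbar t⁻¹ := fun h => ht (IsAlgebraic.inv_iff.1 h)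
  have hfin' : FiniteDimensional Qbar⟮t⁻¹⟯ F := by
    have : Qbar⟮t⁻¹⟯ = Qbar⟮t⟯ := by
      apply le_antisymm
      · rw [IntermediateField.adjoin_simple_le_iff]
        exact inv_mem (IntermediateField.mem_adjoin_simple_self _ _)
      · rw [IntermediateField.adjoin_simple_le_iff]
        simpa using inv_mem (IntermediateField.mem_adjoin_simple_self Qbar t⁻¹)
    rw [this]
    exact hfin
  refine ((fin_aux ht hfin hh).union (fin_aux ht' hfin' hh)).subset ?_
  rintro W ⟨hW, hne⟩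
  have h1 : W.valuation h ≠ 1 := fun h1 => hne (ordAt_of_val_eq_one h1)
  rcases W.mem_or_inv_mem t with h2 | h2
  · exact Or.inl ⟨hW, h2, h1⟩
  · exact Or.inr ⟨hW, h2, h1⟩

end Field

section Points

open WeierstrassCurve.Affine

lemma m0 : (-1 : Qbar) ≠ 0 := by norm_num

lemma m1 : (-1 : Qbar) ≠ 1 := by norm_num

lemma fl_neg {F : Type} [Field F] (x : F) : fl (-1) x = x ^ 3 - x := by
  unfold fl; ring

lemma fl_map {F : Type} [Field F] [Algebra Qbar F] (x : F) :
    fl (algebraMap Qbar F (-1)) x = x ^ 3 - x := by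
  rw [map_neg, map_one, fl_neg]

lemma ns_iff {x y : Qbar} : (legendre (-1 : Qbar)).Nonsingular x y ↔ y ^ 2 = x ^ 3 - x :=
  ⟨fun h => by rw [← fl_neg]; exact (leg_eq _ _).mp h.1,
    fun h => leg_ns m0 m1 (by rw [fl_neg]; exact h)⟩

lemma ptq_some {x y : Qbar} (h : (legendre (-1 : Qbar)).Nonsingular x y) :
    ptq x y = .some x y h := dif_pos h

lemma exists_tors_pt {B : Set EQ} (hB : B.Finite) : ∃ (t : EQ) (k : ℕ), t ∉ B ∧ 2 ^ k • t = 0 := by
  obtain ⟨τ, t1, -, -, t4⟩ := leg_tors m0 m1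
  obtain ⟨k, hk⟩ := (hB.preimage t1.injOn).exists_notMem
  exact ⟨τ k, k + 1, hk, t4 k⟩

lemma exists_good (Z : Finset EQ) : ∃ (p q : Qbar) (h : (legendre (-1 : Qbar)).Nonsingular p q)
    (k : ℕ), 2 ^ k • (Point.some p q h : EQ) = 0 ∧
      ∀ P ∈ Z, 2 • (P + Point.some p q h) ≠ 0 ∧ P ≠ Point.some p q h := by
  have h1 : (⋃ P ∈ (Z : Set EQ), {u : EQ | 2 • (u + P) = 0}).Finite :=
    Z.finite_toSet.biUnion fun P _ => (leg_nice m0 m1).fin_shift P
  obtain ⟨t, k, ht, hk⟩ := exists_tors_pt ((h1.union Z.finite_toSet).insert 0)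
  simp only [Set.mem_insert_iff, Set.mem_union, Set.mem_iUnion, Set.mem_ofPred_eq, not_or,
    not_exists] at ht
  rcases t with _ | ⟨p, q, h⟩
  · exact absurd rfl ht.1
  refine ⟨p, q, h, k, hk, fun P hP => ⟨?_, ?_⟩⟩
  · rw [add_comm]; exact ht.2.1 P hP
  · rintro rfl
    exact ht.2.2 hP

variable {F : Type} [Field F] [Algebra Qbar F] {W : ValuationSubring F}

/-- The point `(x, y)` with coordinates in `F` has the value `P` at `W`. -/
def Red (W : ValuationSubring F) (x y : F) (P : EQ) : Prop :=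
  (x ∉ W ∧ P = 0) ∨ ∃ a b h, P = Point.some a b h ∧ Sp W x a ∧ Sp W y b

lemma sp_curve (hW : IsPlace W) {x y : F} (e : y ^ 2 = x ^ 3 - x) {a b : Qbar} (ha : Sp W x a)
    (hb : Sp W y b) : (legendre (-1 : Qbar)).Nonsingular a b := by
  have h1 := hb.pow hW 2
  rw [e] at h1
  exact ns_iff.2 (h1.unique hW ((ha.pow hW 3).sub ha))

lemma exists_red (hF : IsCurveField F) (hW : IsPlace W) {x y : F} (e : y ^ 2 = x ^ 3 - x) :
    ∃ P, Red W x y P := by
  by_cases hx : x ∈ W
  · obtain ⟨a, ha⟩ := exists_sp hF hW hx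
    have h1 := ((ha.pow hW 3).sub ha).val_le hW
    rw [← e, map_pow, pow_le_one_iff two_ne_zero, W.valuation_le_one_iff] at h1
    obtain ⟨b, hb⟩ := exists_sp hF hW h1
    exact ⟨_, Or.inr ⟨a, b, sp_curve hW e ha hb, rfl, ha, hb⟩⟩
  · exact ⟨0, Or.inl ⟨hx, rfl⟩⟩

lemma Red.eq (hW : IsPlace W) {x y : F} {P : EQ} (h : Red W x y P) {a b : Qbar} (ha : Sp W x a)
    (hb : Sp W y b) : P = ptq a b := by
  rcases h with ⟨h, -⟩ | ⟨a', b', h, rfl, ha', hb'⟩
  · exact absurd (ha.mem hW) h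
  · obtain rfl := ha.unique hW ha'
    obtain rfl := hb.unique hW hb'
    exact (ptq_some h).symm

lemma Red.two (hW : IsPlace W) {x y : F} {P : EQ} (h : Red W x y P) (h0 : x ∉ W ∨ Sp W y 0) :
    2 • P = 0 := by
  rcases h with ⟨-, rfl⟩ | ⟨a', b', h, rfl, ha', hb'⟩
  · exact nsmul_zero 2
  · rcases h0 with h0 | h0
    · exact absurd (ha'.mem hW) h0
    · exact (two_smul_some h).2 (hb'.unique hW h0)

/-- First coordinate of the translate. -/
noncomputable def tX (x y : F) (p q : Qbar) : F :=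
  sX (algebraMap Qbar F (-1)) x (algebraMap Qbar F p)
    ((y - algebraMap Qbar F q) / (x - algebraMap Qbar F p))

/-- Second coordinate of the translate. -/
noncomputable def tY (x y : F) (p q : Qbar) : F :=
  sY (algebraMap Qbar F (-1)) x (algebraMap Qbar F p) y
    ((y - algebraMap Qbar F q) / (x - algebraMap Qbar F p))

lemma pole_id {K : Type} [Field K] {s m p q : K} (hs : s ≠ 0) (hd : 1 - p * s ≠ 0)
    (e : m ^ 2 = s - s ^ 3) (e' : q ^ 2 = p ^ 3 - p) :
    sX (-1) s⁻¹ p ((m / s ^ 2 - q) / (s⁻¹ - p)) =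
      p + ((3 * p ^ 2 - 1) * s - 2 * q * m - (p + p ^ 3) * s ^ 2) / (1 - p * s) ^ 2 ∧
    sY (-1) s⁻¹ p (m / s ^ 2) ((m / s ^ 2 - q) / (s⁻¹ - p)) =
      -q - ((3 * p ^ 2 - 1) * (m - q * s ^ 2) - 2 * q * (1 - s ^ 2) + 2 * q ^ 2 * m * s -
        (p + p ^ 3) * (m * s - q * s ^ 3)) / (1 - p * s) ^ 3 := by
  have hd' : 1 - s * p ≠ 0 := by rwa [mul_comm]
  have hL : (m / s ^ 2 - q) / (s⁻¹ - p) = (m - q * s ^ 2) / (s * (1 - p * s)) := by
    have : s⁻¹ - p = (1 - p * s) / s := by field_simp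
    rw [this]
    field_simp
  have hX : sX (-1) s⁻¹ p ((m / s ^ 2 - q) / (s⁻¹ - p)) =
      p + ((3 * p ^ 2 - 1) * s - 2 * q * m - (p + p ^ 3) * s ^ 2) / (1 - p * s) ^ 2 := by
    rw [hL, sX]
    field_simp
    linear_combination e + s ^ 4 * e'
  refine ⟨hX, ?_⟩
  rw [sY, hX, hL]
  field_simp
  linear_combination (2 * q * s) * e

lemma red_add (hW : IsPlace W) {x y : F} (e : y ^ 2 = x ^ 3 - x) {P : EQ} (h : Red W x y P)
    {p q : Qbar} (hpq : (legendre (-1 : Qbar)).Nonsingular p q)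
    (h1 : 2 • (P + Point.some p q hpq) ≠ 0) (h2 : P ≠ Point.some p q hpq) :
    x ≠ algebraMap Qbar F p ∧ ∃ A B hAB, P + Point.some p q hpq = Point.some A B hAB ∧ B ≠ 0 ∧
      Sp W (tX x y p q) A ∧ Sp W (tY x y p q) B := by
  rcases h with ⟨h, rfl⟩ | ⟨a, b, h, rfl, ha, hb⟩
  · refine ⟨fun hx => h (hx ▸ hW.2 p), p, q, hpq, zero_add _, fun h0 => h1 (by
      rw [zero_add]; exact (two_smul_some hpq).2 h0), ?_⟩
    have hx0 : x ≠ 0 := fun h0 => h (h0 ▸ W.zero_mem)
    have hs : Sp W x⁻¹ 0 := by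
      rw [Sp.zero_iff, map_inv₀]
      exact inv_lt_one_of_one_lt₀ (not_le.1 fun h' => h ((W.valuation_le_one_iff x).1 h'))
    have em : (y / x ^ 2) ^ 2 = x⁻¹ - x⁻¹ ^ 3 := by
      rw [div_pow, e]; field_simp
    have hm : Sp W (y / x ^ 2) 0 := by
      have h3 := hs.sub (hs.pow hW 3)
      rw [← em, zero_pow three_ne_zero, sub_zero, Sp.zero_iff, map_pow,
        pow_lt_one_iff two_ne_zero] at h3
      exact Sp.zero_iff.2 h3
    have hp := Sp.const W p
    have hq := Sp.const W q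
    have hd := (Sp.one W).sub (hp.mul hW hs)
    have hd0 : (1 : Qbar) - p * 0 ≠ 0 := by simp
    have e' : algebraMap Qbar F q ^ 2 = algebraMap Qbar F p ^ 3 - algebraMap Qbar F p := by
      rw [← map_pow, ns_iff.1 hpq, map_sub, map_pow]
    obtain ⟨k1, k2⟩ := pole_id (inv_ne_zero hx0) (hd.ne_zero hW hd0) em e'
    have ey : y / x ^ 2 / x⁻¹ ^ 2 = y := by field_simp
    rw [inv_inv, ey] at k1 k2
    have c2 := Sp.ofNat W 2
    have c3 := (((Sp.ofNat W 3).mul hW (hp.pow hW 2)).sub (Sp.one W))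
    have c4 := hp.add (hp.pow hW 3)
    rw [tX, tY, map_neg, map_one, k1, k2]
    constructor
    · have := hp.add ((((c3.mul hW hs).sub ((c2.mul hW hq).mul hW hm)).sub
        (c4.mul hW (hs.pow hW 2))).div hW (hd.pow hW 2) (pow_ne_zero 2 hd0))
      convert this using 1
      simp
    · have := hq.neg.sub (((((c3.mul hW (hm.sub (hq.mul hW (hs.pow hW 2)))).sub
        ((c2.mul hW hq).mul hW ((Sp.one W).sub (hs.pow hW 2)))).add
        (((c2.mul hW (hq.pow hW 2)).mul hW hm).mul hW hs)).sub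
        (c4.mul hW ((hm.mul hW hs).sub (hq.mul hW (hs.pow hW 3))))).div hW (hd.pow hW 3)
        (pow_ne_zero 3 hd0))
      convert this using 1
      simp
      ring
  · have hap : a ≠ p := by
      intro hap
      rcases (Point.X_eq_iff (h₁ := h) (h₂ := hpq)).mp hap with h3 | h3
      · exact h2 h3
      · exact h1 (by rw [h3, neg_add_cancel, nsmul_zero])
    have hd := ha.sub (Sp.const W p)
    have hL := (hb.sub (Sp.const W q)).div hW hd (sub_ne_zero.2 hap)
    obtain ⟨h3, e3⟩ := add_X_ne h hpq hap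
    refine ⟨sub_ne_zero.1 (hd.ne_zero hW (sub_ne_zero.2 hap)), _, _, h3, e3, fun h0 => h1 (by
      rw [e3]; exact (two_smul_some h3).2 h0), ?_, ?_⟩
    · exact Sp.sX hW (Sp.const W _) ha (Sp.const W p) hL
    · exact Sp.sY hW (Sp.const W _) ha (Sp.const W p) hb hL

lemma t_eq {x y : F} (e : y ^ 2 = x ^ 3 - x) {p q : Qbar}
    (hpq : (legendre (-1 : Qbar)).Nonsingular p q) (hx : x ≠ algebraMap Qbar F p) :
    tY x y p q ^ 2 = fl (algebraMap Qbar F (-1)) (tX x y p q) :=
  chord_eq (by rw [fl_map, e]) (by rw [fl_map, ← map_pow, ns_iff.1 hpq, map_sub, map_pow]) hx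

end Points

section Symbol

open WeierstrassCurve.Affine

variable {G : Type} [AddCommGroup G] {γ : Qbar → Qbar → Qbar → G} {κ : G} {β : EQ →+ EQ →+ G}

lemma rel_finset (hγ : CurveRel (-1) (-1) γ) {F : Type} [Field F] [Algebra Qbar F]
    (hF : IsCurveField F) {x u r h : F}
    (e : r ^ 2 = fl (algebraMap Qbar F (-1)) x * fl (algebraMap Qbar F (-1)) u) (hr : r ≠ 0)
    (hh : h ≠ 0) (S : Finset (ValuationSubring F)) (hS : ∀ W ∈ S, IsPlace W)
    (hW : ∀ W, IsPlace W → W ∉ S → ordAt W h = 0) (a b c : ValuationSubring F → Qbar)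
    (hs : ∀ W ∈ S, Sp W x (a W) ∧ Sp W u (b W) ∧ Sp W r (c W) ∧ c W ≠ 0) :
    ∑ W ∈ S, ordAt W h • γ (a W) (b W) (c W) = 0 := by
  let V : Fin S.card → ValuationSubring F := fun i => (S.equivFin.symm i).1
  have hV : ∀ i, V i ∈ S := fun i => (S.equivFin.symm i).2
  have key := hγ F hF x u r h e hr hh S.card V
    (Subtype.val_injective.comp S.equivFin.symm.injective) (fun i => hS _ (hV i))
    (fun W h1 h2 => hW W h1 fun h3 => h2 ⟨S.equivFin ⟨W, h3⟩, by simp [V]⟩)
    (fun i => a (V i)) (fun i => b (V i)) (fun i => c (V i)) (fun i => (hs _ (hV i)).1)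
    (fun i => (hs _ (hV i)).2.1) (fun i => (hs _ (hV i)).2.2.1) (fun i => (hs _ (hV i)).2.2.2)
  rw [← key, ← Finset.sum_coe_sort S]
  exact (Equiv.sum_comp S.equivFin.symm
    fun W : S => ordAt W.1 h • γ (a W.1) (b W.1) (c W.1)).symm

lemma tors_left (tf : ∀ (k : ℤ) (v : G), k ≠ 0 → k • v = 0 → v = 0) {P : EQ} {k : ℕ}
    (h : 2 ^ k • P = 0) (Q : EQ) : β P Q = 0 := by
  refine tf ((2 ^ k : ℕ) : ℤ) _ (by positivity) ?_
  rw [natCast_zsmul, ← AddMonoidHom.nsmul_apply, ← map_nsmul, h, map_zero,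
    AddMonoidHom.zero_apply]

lemma tors_right (tf : ∀ (k : ℤ) (v : G), k ≠ 0 → k • v = 0 → v = 0) {Q : EQ} {k : ℕ}
    (h : 2 ^ k • Q = 0) (P : EQ) : β P Q = 0 := by
  refine tf ((2 ^ k : ℕ) : ℤ) _ (by positivity) ?_
  rw [natCast_zsmul, ← map_nsmul, h, map_zero]

lemma line_const (hγ : CurveRel (-1) (-1) γ) {ε c : Qbar} (hε : ε ^ 2 = 1) (hc : c ^ 2 = ε)
    {t t' : Qbar} (ht : t ^ 3 - t ≠ 0) (ht' : t' ^ 3 - t' ≠ 0) :
    γ t (ε * t) (c * (t ^ 3 - t)) = γ t' (ε * t') (c * (t' ^ 3 - t')) := by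
  obtain ⟨V, hV, hrel⟩ := line_rel hγ
  have hc0 : c ≠ 0 := by
    rintro rfl
    rw [← hc] at hε
    simp at hε
  have k : ∀ s, Sp (V s) (algebraMap Qbar (RatFunc Qbar) ε * RatFunc.X) (ε * s) ∧
      Sp (V s) (algebraMap Qbar (RatFunc Qbar) c * (RatFunc.X ^ 3 - RatFunc.X))
        (c * (s ^ 3 - s)) := fun s =>
    ⟨(Sp.const _ ε).mul (hV s).1 (hV s).2,
      (Sp.const _ c).mul (hV s).1 (((hV s).2.pow (hV s).1 3).sub (hV s).2)⟩
  refine hrel t t' RatFunc.X _ _ _ _ _ _ _ _ ?_ (hV t).2 (k t).1 (k t).2 (mul_ne_zero hc0 ht)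
    (hV t').2 (k t').1 (k t').2 (mul_ne_zero hc0 ht')
  have h1 := congrArg (algebraMap Qbar (RatFunc Qbar)) hε
  have h2 := congrArg (algebraMap Qbar (RatFunc Qbar)) hc
  rw [map_pow] at h1 h2
  rw [map_one] at h1
  rw [fl_map, fl_map]
  generalize algebraMap Qbar (RatFunc Qbar) ε = E at h1 h2
  generalize algebraMap Qbar (RatFunc Qbar) c = C at h2
  generalize (RatFunc.X : RatFunc Qbar) = Z
  linear_combination (Z ^ 3 - Z) ^ 2 * h2 - (Z ^ 3 - Z) * E * Z ^ 3 * h1

lemma graph_zero (tf : ∀ (k : ℤ) (v : G), k ≠ 0 → k • v = 0 → v = 0)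
    (hγ : CurveRel (-1) (-1) γ)
    (hβ : ∀ (x y u v : Qbar) (h : (legendre (-1 : Qbar)).Nonsingular x y)
      (h' : (legendre (-1 : Qbar)).Nonsingular u v), y ≠ 0 → v ≠ 0 →
      γ x u (y * v) = κ + β (Point.some x y h) (Point.some u v h'))
    {ε c : Qbar} (hε : ε ^ 2 = 1) (hc : c ^ 2 = ε) (x y y' : Qbar) :
    β (ptq x y) (ptq (ε * x) y') = 0 := by
  have hc0 : c ≠ 0 := by
    rintro rfl
    rw [← hc] at hε
    simp at hε
  have hn : ∀ {a b : Qbar}, (legendre (-1 : Qbar)).Nonsingular a b →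
      (legendre (-1 : Qbar)).Nonsingular (ε * a) (c * b) := by
    intro a b h
    rw [ns_iff] at h ⊢
    linear_combination b ^ 2 * hc + ε * h - ε * a ^ 3 * hε
  have hv : ∀ {a b : Qbar} (h : (legendre (-1 : Qbar)).Nonsingular a b), b ≠ 0 →
      γ a (ε * a) (c * (a ^ 3 - a)) = κ + β (Point.some a b h) (Point.some _ _ (hn h)) := by
    intro a b h hb
    rw [← hβ _ _ _ _ h (hn h) hb (mul_ne_zero hc0 hb), ← ns_iff.1 h]
    congr 1
    ring
  by_cases h : (legendre (-1 : Qbar)).Nonsingular x y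
  swap
  · rw [ptq, dif_neg h, map_zero, AddMonoidHom.zero_apply]
  by_cases h' : (legendre (-1 : Qbar)).Nonsingular (ε * x) y'
  swap
  · rw [ptq, ptq, dif_neg h', map_zero]
  rw [ptq_some h, ptq_some h']
  by_cases hy : y = 0
  · exact tors_left tf (k := 1) ((two_smul_some h).2 hy) _
  obtain ⟨p, q, hpq, k, hk, hg⟩ := exists_good {0}
  have hq : q ≠ 0 := fun h0 => (hg 0 (by simp)).1 (by
    rw [zero_add]; exact (two_smul_some hpq).2 h0)
  have h1 := line_const hγ hε hc (t := x) (t' := p) (by rw [← ns_iff.1 h]; exact pow_ne_zero 2 hy)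
    (by rw [← ns_iff.1 hpq]; exact pow_ne_zero 2 hq)
  rw [hv h hy, hv hpq hq, tors_left tf hk, add_right_inj] at h1
  rcases (Point.X_eq_iff (h₁ := h') (h₂ := hn h)).mp rfl with h2 | h2
  · rw [h2, h1]
  · rw [h2, map_neg, h1, neg_zero]

lemma diag_const (hβ : ∀ (x y u v : Qbar) (h : (legendre (-1 : Qbar)).Nonsingular x y)
      (h' : (legendre (-1 : Qbar)).Nonsingular u v), y ≠ 0 → v ≠ 0 →
      γ x u (y * v) = κ + β (Point.some x y h) (Point.some u v h'))
    (hs : ∀ x y y', β (ptq x y) (ptq x y') = 0) (t r : Qbar)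
    (e : r ^ 2 = fl (-1) t * fl (-1) t) (hr : r ≠ 0) : γ t t r = κ := by
  rw [fl_neg] at e
  obtain ⟨y, hy⟩ := exists_sq (t ^ 3 - t)
  have hy0 : y ≠ 0 := by
    rintro rfl
    rw [← hy] at e
    exact hr (by simpa using e)
  have h1 : (r / y) ^ 2 = t ^ 3 - t := by
    rw [div_pow, e, ← hy]
    field_simp
  have h2 := hβ t y t (r / y) (ns_iff.2 hy) (ns_iff.2 h1) hy0 (div_ne_zero hr hy0)
  rw [← ptq_some, ← ptq_some, hs, add_zero, mul_div_cancel₀ _ hy0] at h2
  exact h2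

lemma recip (tf : ∀ (k : ℤ) (v : G), k ≠ 0 → k • v = 0 → v = 0) (hγ : CurveRel (-1) (-1) γ)
    (hβ : ∀ (x y u v : Qbar) (h : (legendre (-1 : Qbar)).Nonsingular x y)
      (h' : (legendre (-1 : Qbar)).Nonsingular u v), y ≠ 0 → v ≠ 0 →
      γ x u (y * v) = κ + β (Point.some x y h) (Point.some u v h'))
    (hκ : ∀ t r : Qbar, r ^ 2 = fl (-1) t * fl (-1) t → r ≠ 0 → γ t t r = κ) : RecAbs β := by
  intro F _ _ hF x1 y1 x2 y2 h e1 e2 hh S a b a' b' hS hout
  rcases S.eq_empty_or_nonempty with rfl | ⟨W0, hW0⟩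
  · simp
  let T : Finset (ValuationSubring F) := S ∪ (fin_supp hF hh).toFinset
  have hST : S ⊆ T := Finset.subset_union_left
  have hT : ∀ W ∈ T, IsPlace W := by
    intro W hW
    rcases Finset.mem_union.1 hW with h1 | h1
    · exact (hS W h1).1
    · exact ((Set.Finite.mem_toFinset _).1 h1).1
  have hT0 : ∀ W, IsPlace W → W ∉ T → ordAt W h = 0 := by
    intro W h1 h2
    by_contra h3
    exact h2 (Finset.mem_union_right _ ((Set.Finite.mem_toFinset _).2 ⟨h1, h3⟩))
  have ex : ∀ {x y : F}, y ^ 2 = x ^ 3 - x → ∃ P : ValuationSubring F → EQ,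
      ∀ W ∈ T, Red W x y (P W) := by
    intro x y e
    have : ∀ W : ValuationSubring F, ∃ P, W ∈ T → Red W x y P := fun W => by
      by_cases hW : W ∈ T
      · obtain ⟨P, hP⟩ := exists_red hF (hT W hW) e
        exact ⟨P, fun _ => hP⟩
      · exact ⟨0, fun h => absurd h hW⟩
    choose P hP using this
    exact ⟨P, hP⟩
  have tr : ∀ {x y : F}, y ^ 2 = x ^ 3 - x → ∀ P : ValuationSubring F → EQ,
      (∀ W ∈ T, Red W x y (P W)) → ∃ (X Y : F) (t : EQ) (k : ℕ)
        (A B : ValuationSubring F → Qbar), Y ^ 2 = fl (algebraMap Qbar F (-1)) X ∧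
        2 ^ k • t = 0 ∧ ∀ W ∈ T, (∃ hAB, P W + t = Point.some (A W) (B W) hAB) ∧ B W ≠ 0 ∧
          Sp W X (A W) ∧ Sp W Y (B W) := by
    intro x y e P hP
    obtain ⟨p, q, hpq, k, hk, hg⟩ := exists_good (T.image P)
    have h1 := fun W (hW : W ∈ T) => red_add (hT W hW) e (hP W hW) hpq
      (hg _ (Finset.mem_image_of_mem P hW)).1 (hg _ (Finset.mem_image_of_mem P hW)).2
    have : ∀ W : ValuationSubring F, ∃ A B : Qbar, W ∈ T →
        (∃ hAB, P W + Point.some p q hpq = Point.some A B hAB) ∧ B ≠ 0 ∧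
          Sp W (tX x y p q) A ∧ Sp W (tY x y p q) B := fun W => by
      by_cases hW : W ∈ T
      · obtain ⟨-, A, B, hAB, k1, k2⟩ := h1 W hW
        exact ⟨A, B, fun _ => ⟨⟨hAB, k1⟩, k2⟩⟩
      · exact ⟨0, 0, fun h => absurd h hW⟩
    choose A B hAB using this
    exact ⟨_, _, _, k, A, B, t_eq e hpq (h1 W0 (hST hW0)).1, hk, hAB⟩
  obtain ⟨P, hP⟩ := ex e1
  obtain ⟨Q, hQ⟩ := ex e2
  obtain ⟨X1, Y1, t1, k1, A1, B1, f1, z1, g1⟩ := tr e1 P hP
  obtain ⟨X2, Y2, t2, k2, A2, B2, f2, z2, g2⟩ := tr e2 Q hQ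
  have hsp : ∀ W ∈ T, Sp W X1 (A1 W) ∧ Sp W X2 (A2 W) ∧ Sp W (Y1 * Y2) (B1 W * B2 W) ∧
      B1 W * B2 W ≠ 0 := fun W hW =>
    ⟨(g1 W hW).2.2.1, (g2 W hW).2.2.1, (g1 W hW).2.2.2.mul (hT W hW) (g2 W hW).2.2.2,
      mul_ne_zero (g1 W hW).2.1 (g2 W hW).2.1⟩
  have r1 := rel_finset hγ hF (by rw [mul_pow, f1, f2])
    ((hsp W0 (hST hW0)).2.2.1.ne_zero (hT W0 (hST hW0)) (hsp W0 (hST hW0)).2.2.2) hh T hT hT0
    A1 A2 (fun W => B1 W * B2 W) hsp
  have r2 := rel_finset hγ hF (x := algebraMap Qbar F 2) (u := algebraMap Qbar F 2)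
    (r := algebraMap Qbar F 6) (by rw [fl_map, map_ofNat, map_ofNat]; norm_num)
    (by rw [map_ne_zero]; norm_num) hh T hT hT0 (fun _ => 2) (fun _ => 2) (fun _ => 6)
    fun W _ => ⟨Sp.const W _, Sp.const W _, Sp.const W _, by norm_num⟩
  rw [hκ 2 6 (by rw [fl_neg]; norm_num) (by norm_num)] at r2
  have r3 : ∑ W ∈ T, ordAt W h • β (P W) (Q W) = 0 := by
    rw [← sub_eq_zero.2 (r1.trans r2.symm), ← Finset.sum_sub_distrib]
    refine Finset.sum_congr rfl fun W hW => ?_
    obtain ⟨⟨n1, p1⟩, q1, -⟩ := g1 W hW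
    obtain ⟨⟨n2, p2⟩, q2, -⟩ := g2 W hW
    rw [hβ _ _ _ _ n1 n2 q1 q2, ← p1, ← p2, map_add (β (P W + t1)), tors_right tf z2, add_zero,
      map_add, AddMonoidHom.add_apply, tors_left tf z1, add_zero, smul_add, add_sub_cancel_left]
  rw [← r3]
  refine Finset.sum_subset_zero_on_sdiff hST (fun W hW => ?_) fun W hW => ?_
  · rw [Finset.mem_sdiff] at hW
    by_cases h0 : ordAt W h = 0
    · rw [h0, zero_smul]
    · rw [tors_left tf (k := 1) ((hP W hW.1).two (hT W hW.1) (hout W (hT W hW.1) hW.2 h0)),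
        smul_zero]
  · obtain ⟨c0, c1, c2, c3, c4⟩ := hS W hW
    rw [(hP W (hST hW)).eq c0 c1 c2, (hQ W (hST hW)).eq c0 c3 c4]

end Symbol

end Kum

theorem kum : KumStmt := by
  intro G _ γ tf hγ
  obtain ⟨κ, β, hβ⟩ := gam_bilinear Kum.m0 Kum.m1 Kum.m0 Kum.m1 hγ
  have hs : ∀ x y y', β (ptq x y) (ptq x y') = 0 := fun x y y' => by
    have := Kum.graph_zero tf hγ hβ (ε := 1) (c := 1) (by norm_num) (by norm_num) x y y'
    rwa [one_mul] at this
  have hκ := Kum.diag_const hβ hs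
  refine ⟨κ, β, ⟨tf, hs, fun x y y' => ?_, Kum.recip tf hγ hβ hκ⟩, fun x y u w h h' h0 =>
    hβ x y u w h h' (left_ne_zero_of_mul h0) (right_ne_zero_of_mul h0), hκ⟩
  obtain ⟨c, hc⟩ := exists_sq (-1)
  have := Kum.graph_zero tf hγ hβ (ε := -1) (c := c) (by norm_num) hc x y y'
  rwa [neg_one_mul] at this

end Pool.Agent.MP_9207e0_ag.hg

end MrgPart1

-- ======== part 2: formerly Pool.Agent.MP_9207e0_ag.hg.Form
section MrgPart2

/-! Module FORM: formal power series. -/

set_option linter.unusedSectionVars false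
set_option linter.unusedVariables false

namespace Pool.Agent.MP_9207e0_ag.hg

open UpperHalfPlane Complex Filter Asymptotics Matrix
open scoped Real MatrixGroups Manifold Classical Kronecker

namespace Form

/-! ### Exponent vectors -/

@[simp] lemma ex2_zero (m ν : ℕ) : ex2 m ν 0 = m := by simp [ex2]

@[simp] lemma ex2_one (m ν : ℕ) : ex2 m ν 1 = ν := by simp [ex2]

lemma ex2_ext {s t : Fin 2 →₀ ℕ} (h0 : s 0 = t 0) (h1 : s 1 = t 1) : s = t := by
  ext i
  fin_cases i
  · exact h0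
  · exact h1

lemma ex2_eta (s : Fin 2 →₀ ℕ) : ex2 (s 0) (s 1) = s := ex2_ext (by simp) (by simp)

lemma ex2_add0 (m ν : ℕ) : ex2 m ν + Finsupp.single 0 1 = ex2 (m + 1) ν :=
  ex2_ext (by simp) (by simp)

lemma ex2_add1 (m ν : ℕ) : ex2 m ν + Finsupp.single 1 1 = ex2 m (ν + 1) :=
  ex2_ext (by simp) (by simp)

lemma ex2_00 : ex2 0 0 = 0 := ex2_ext (by simp) (by simp)

lemma mm_ext {P Q : MM}
    (h : ∀ m ν, MvPowerSeries.coeff (ex2 m ν) P = MvPowerSeries.coeff (ex2 m ν) Q) : P = Q := by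
  ext s
  rw [← ex2_eta s]
  exact h _ _

/-! ### The iterated expansion -/

/-- One variable series from series indexed by `Fin 1`. -/
noncomputable def one : MvPowerSeries (Fin 1) ℂ →+* PowerSeries ℂ :=
  (MvPowerSeries.renameEquiv ℂ (Equiv.ofUnique (Fin 1) Unit)).toRingEquiv.toRingHom

lemma coeff_one' (P : MvPowerSeries (Fin 1) ℂ) (ν : ℕ) :
    PowerSeries.coeff ν (one P) = MvPowerSeries.coeff (Finsupp.single 0 ν) P := by
  have := MvPowerSeries.coeff_embDomain_rename (Equiv.ofUnique (Fin 1) Unit).toEmbedding P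
    (Finsupp.single 0 ν)
  rw [Finsupp.embDomain_single] at this
  exact this

/-- The ring map `iot`. -/
noncomputable def II : MM →+* PowerSeries LS :=
  (PowerSeries.map ((HahnSeries.ofPowerSeries ℤ ℂ).comp one)).comp
    (MvPowerSeries.finSuccEquiv ℂ 1).toRingEquiv.toRingHom

lemma coeff_II (P : MM) (m : ℕ) : PowerSeries.coeff m (II P) = row P m := by
  have e : PowerSeries.coeff m (II P) = HahnSeries.ofPowerSeries ℤ ℂ
      (one (PowerSeries.coeff m (MvPowerSeries.finSuccEquiv ℂ 1 P))) :=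
    PowerSeries.coeff_map ((HahnSeries.ofPowerSeries ℤ ℂ).comp one) m _
  rw [e, row]
  congr 1
  ext ν
  rw [coeff_one', MvPowerSeries.coeff_coeff_finSuccEquiv, PowerSeries.coeff_mk]
  congr 2
  refine ex2_ext (by simp) ?_
  rw [ex2_one]
  exact (Finsupp.cons_succ 0 m _).trans (by simp)

lemma II_eq (P : MM) : II P = iot P := by
  ext1 m
  rw [coeff_II, iot, PowerSeries.coeff_mk]

lemma row_nat (P : MM) (m ν : ℕ) : (row P m).coeff ν = MvPowerSeries.coeff (ex2 m ν) P := by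
  rw [row, HahnSeries.ofPowerSeries_apply_coeff, PowerSeries.coeff_mk]

lemma row_neg (P : MM) (m : ℕ) {n : ℤ} (h : n < 0) : (row P m).coeff n = 0 := by
  rw [row, PowerSeries.coeff_coe, if_pos h]

lemma II_X0 : II (MvPowerSeries.X 0) = PowerSeries.X := by
  have e : II (MvPowerSeries.X 0) = PowerSeries.map ((HahnSeries.ofPowerSeries ℤ ℂ).comp one)
      (MvPowerSeries.finSuccEquiv ℂ 1 (MvPowerSeries.X 0)) := rfl
  rw [e, MvPowerSeries.finSuccEquiv_X_zero, PowerSeries.map_X]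

lemma II_X1 : II (MvPowerSeries.X 1) = PowerSeries.C (HahnSeries.single 1 1) := by
  have e : II (MvPowerSeries.X 1) = PowerSeries.map ((HahnSeries.ofPowerSeries ℤ ℂ).comp one)
      (MvPowerSeries.finSuccEquiv ℂ 1 (MvPowerSeries.X (Fin.succ 0))) := rfl
  have e1 : one (MvPowerSeries.X 0) = PowerSeries.X := MvPowerSeries.rename_X _ _
  rw [e, MvPowerSeries.finSuccEquiv_X_succ, PowerSeries.map_C, RingHom.comp_apply, e1,
    HahnSeries.ofPowerSeries_X]

lemma II_C (z : ℂ) : II (MvPowerSeries.C z) = PowerSeries.C (HahnSeries.single 0 z) := by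
  have e : II (MvPowerSeries.C z) = PowerSeries.map ((HahnSeries.ofPowerSeries ℤ ℂ).comp one)
      (MvPowerSeries.finSuccEquiv ℂ 1 (MvPowerSeries.C z)) := rfl
  have e1 : one (MvPowerSeries.C z) = PowerSeries.C z := MvPowerSeries.rename_C _ _
  rw [e, MvPowerSeries.finSuccEquiv_C, PowerSeries.map_C, RingHom.comp_apply, e1,
    HahnSeries.ofPowerSeries_C, HahnSeries.C_apply]

lemma ls_ext {c d : LS} (h0 : ∀ ν : ℕ, c.coeff ν = d.coeff ν)
    (h1 : ∀ ν : ℕ, 0 < ν → c.coeff (-ν) = d.coeff (-ν)) : c = d := by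
  ext n
  rcases le_or_gt 0 n with h | h
  · lift n to ℕ using h
    exact h0 n
  · have := h1 (-n).toNat (by omega)
    rwa [Int.toNat_of_nonneg (by omega), neg_neg] at this

lemma coeff_mul_nat (c : LS) (k : ℕ) (n : ℤ) : (c * (k : LS)).coeff n = c.coeff n * k := by
  rw [← nsmul_eq_mul', HahnSeries.coeff_nsmul, Pi.smul_apply, nsmul_eq_mul']

lemma II_pderiv (P : MM) :
    II (MvPowerSeries.pderiv ℂ 0 P) = PowerSeries.derivative LS (II P) := by
  ext1 m
  rw [PowerSeries.coeff_derivative, coeff_II, coeff_II, ← Nat.cast_succ]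
  refine ls_ext (fun ν => ?_) fun ν hν => ?_
  · rw [coeff_mul_nat, row_nat, row_nat, MvPowerSeries.coeff_pderiv, ex2_add0, ex2_zero,
      Nat.cast_succ]
  · rw [coeff_mul_nat, row_neg _ _ (by omega), row_neg _ _ (by omega), zero_mul]

/-! ### Exchange of the variables -/

lemma coeff_sw (P : MM) (m ν : ℕ) :
    MvPowerSeries.coeff (ex2 m ν) (sw P) = MvPowerSeries.coeff (ex2 ν m) P := by
  have := MvPowerSeries.coeff_embDomain_rename (Equiv.swap (0 : Fin 2) 1).toEmbedding P (ex2 ν m)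
  have e : Finsupp.embDomain (Equiv.swap (0 : Fin 2) 1).toEmbedding (ex2 ν m) = ex2 m ν := by
    rw [ex2, Finsupp.embDomain_add, Finsupp.embDomain_single, Finsupp.embDomain_single, add_comm]
    simp [ex2]
  rw [e] at this
  exact this

lemma pderiv_sw0 (P : MM) :
    MvPowerSeries.pderiv ℂ 0 (sw P) = sw (MvPowerSeries.pderiv ℂ 1 P) := mm_ext fun m ν => by
  rw [coeff_sw, MvPowerSeries.coeff_pderiv, MvPowerSeries.coeff_pderiv, ex2_add0, ex2_add1,
    coeff_sw, ex2_zero, ex2_one]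

lemma pderiv_sw1 (P : MM) :
    MvPowerSeries.pderiv ℂ 1 (sw P) = sw (MvPowerSeries.pderiv ℂ 0 P) := mm_ext fun m ν => by
  rw [coeff_sw, MvPowerSeries.coeff_pderiv, MvPowerSeries.coeff_pderiv, ex2_add0, ex2_add1,
    coeff_sw, ex2_zero, ex2_one]

lemma ups_sw {Λ υ : MM} (h : IsUps Λ υ) : IsUps (sw Λ) (sw υ) := by
  refine ⟨?_, fun i => ?_⟩
  · rw [← MvPowerSeries.coeff_zero_eq_constantCoeff_apply, ← ex2_00, coeff_sw, ex2_00,
      MvPowerSeries.coeff_zero_eq_constantCoeff_apply, h.1]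
  · fin_cases i
    · simp only [Fin.zero_eta]
      rw [pderiv_sw0, pderiv_sw0, h.2, map_mul, map_neg]
    · simp only [Fin.mk_one]
      rw [pderiv_sw1, pderiv_sw1, h.2, map_mul, map_neg]

/-! ### The exponential -/

lemma exists_exp {σ R : Type} [CommRing R] [Algebra ℚ R] (g : MvPowerSeries σ R)
    (hg : MvPowerSeries.constantCoeff g = 0) :
    ∃ υ : MvPowerSeries σ R, MvPowerSeries.constantCoeff υ = 1 ∧
      ∀ i, MvPowerSeries.pderiv R i υ = MvPowerSeries.pderiv R i g * υ := by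
  let e : ℕ → MvPowerSeries σ R := fun n =>
    ∑ k ∈ Finset.range n, algebraMap ℚ R (1 / k.factorial) • g ^ k
  let υ : MvPowerSeries σ R := fun s => MvPowerSeries.coeff s (e (s.degree + 1))
  have hυ : ∀ s n, s.degree < n → MvPowerSeries.coeff s υ = MvPowerSeries.coeff s (e n) := by
    intro s n hn
    induction n, hn using Nat.le_induction with
    | base => rfl
    | succ n hn ih =>
      have : MvPowerSeries.coeff s (g ^ n) = 0 :=
        MvPowerSeries.coeff_of_lt_order (lt_of_lt_of_le (by exact_mod_cast hn)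
          (MvPowerSeries.le_order_pow_of_constantCoeff_eq_zero n hg))
      simp only [e] at ih ⊢
      rw [Finset.sum_range_succ, map_add, ← ih, MvPowerSeries.coeff_smul, this, mul_zero, add_zero]
  have he : ∀ i n, MvPowerSeries.pderiv R i (e (n + 1)) = MvPowerSeries.pderiv R i g * e n := by
    intro i n
    simp only [e]
    rw [Finset.sum_range_succ', map_add, map_sum, Finset.mul_sum, pow_zero, Derivation.map_smul,
      MvPowerSeries.pderiv_one, smul_zero, add_zero]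
    refine Finset.sum_congr rfl fun k _ => ?_
    have e1 : algebraMap ℚ R (1 / (k + 1).factorial) * ((k + 1 : ℕ) : R) =
        algebraMap ℚ R (1 / k.factorial) := by
      rw [← map_natCast (algebraMap ℚ R), ← map_mul, Nat.factorial_succ]
      congr 1
      have : (k.factorial : ℚ) ≠ 0 := by exact_mod_cast k.factorial_ne_zero
      push_cast
      field_simp
    rw [Derivation.map_smul, MvPowerSeries.pderiv_pow, Nat.add_sub_cancel, ← e1,
      MvPowerSeries.smul_eq_C_mul, MvPowerSeries.smul_eq_C_mul, map_mul, map_natCast]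
    ring
  refine ⟨υ, ?_, fun i => ?_⟩
  · rw [← MvPowerSeries.coeff_zero_eq_constantCoeff_apply, hυ 0 1 (by simp)]
    simp [e]
  · ext s
    rw [MvPowerSeries.coeff_pderiv, hυ _ (s.degree + 1 + 1) (by simp),
      ← MvPowerSeries.coeff_pderiv, he, MvPowerSeries.coeff_mul, MvPowerSeries.coeff_mul]
    refine Finset.sum_congr rfl fun p hp => ?_
    have := congrArg Finsupp.degree (Finset.HasAntidiagonal.mem_antidiagonal.mp hp)
    rw [map_add] at this
    rw [hυ p.2 (s.degree + 1) (by omega)]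

lemma ups_ex (Λ : MM) : ∃ υ, IsUps Λ υ := by
  obtain ⟨υ, h1, h2⟩ := exists_exp (MvPowerSeries.C (MvPowerSeries.constantCoeff Λ) - Λ) (by simp)
  refine ⟨υ, h1, fun i => ?_⟩
  rw [h2, map_sub, MvPowerSeries.pderiv_C, zero_sub]

lemma coeff_euler {R : Type} [CommRing R] (F : PowerSeries R) (n : ℕ) :
    PowerSeries.coeff n (PowerSeries.X * PowerSeries.derivative R F) =
      PowerSeries.coeff n F * n := by
  cases n with
  | zero => simp
  | succ n => rw [PowerSeries.coeff_succ_X_mul, PowerSeries.coeff_derivative, Nat.cast_succ]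

lemma inv_nat {R : Type} [CommRing R] [Algebra ℚ R] {n : ℕ} (h : n ≠ 0) :
    (n : R) * algebraMap ℚ R (1 / n) = 1 := by
  rw [← map_natCast (algebraMap ℚ R), ← map_mul, mul_one_div_cancel (by exact_mod_cast h), map_one]

lemma exp_ex {R : Type} [CommRing R] [Algebra ℚ R] (H : PowerSeries R)
    (h : PowerSeries.constantCoeff H = 0) : ∃ E, IsExp H E := by
  let G : PowerSeries R := PowerSeries.mk fun n => PowerSeries.coeff n H * algebraMap ℚ R (1 / n)
  have hG : PowerSeries.X * PowerSeries.derivative R G = H := by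
    ext n
    rw [coeff_euler, PowerSeries.coeff_mk]
    rcases eq_or_ne n 0 with rfl | hn
    · simp [h]
    · rw [mul_assoc, mul_comm _ (n : R), inv_nat hn, mul_one]
  have h0 : PowerSeries.constantCoeff (-G) = 0 := by
    rw [map_neg, ← PowerSeries.coeff_zero_eq_constantCoeff_apply, PowerSeries.coeff_mk]
    simp [h]
  obtain ⟨E, h1, h2⟩ := exists_exp (σ := Unit) (-G) h0
  have h3 : PowerSeries.derivative R E = PowerSeries.derivative R (-G) * (E : PowerSeries R) :=
    h2 ()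
  refine ⟨E, h1, ?_⟩
  rw [h3, map_neg, ← hG]
  ring

lemma exp_unique {R : Type} [CommRing R] [Algebra ℚ R] {H E E' : PowerSeries R}
    (h : PowerSeries.constantCoeff H = 0) (h1 : IsExp H E) (h2 : IsExp H E') : E = E' := by
  have hD : PowerSeries.X * PowerSeries.derivative R (E - E') = -H * (E - E') := by
    rw [map_sub, mul_sub, h1.2, h2.2, mul_sub]
  rw [← sub_eq_zero]
  ext n
  induction n using Nat.strong_induction_on with
  | _ n ih =>
    rcases eq_or_ne n 0 with rfl | hn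
    · simp [h1.1, h2.1]
    · have := congrArg (PowerSeries.coeff n) hD
      rw [coeff_euler, PowerSeries.coeff_mul, Finset.sum_eq_zero] at this
      · rw [map_zero, ← mul_one (PowerSeries.coeff n (E - E')), ← inv_nat (R := R) hn, ← mul_assoc,
          this, zero_mul]
      · intro p hp
        have hp := Finset.HasAntidiagonal.mem_antidiagonal.mp hp
        rcases eq_or_ne p.1 0 with h0 | h0
        · rw [h0]
          simp [h]
        · rw [ih p.2 (by omega), map_zero, mul_zero]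

lemma exp_map {R R' : Type} [CommRing R] [CommRing R'] (φ : R →+* R') {H E : PowerSeries R}
    (h : IsExp H E) : IsExp (H.map φ) (E.map φ) := by
  refine ⟨?_, ?_⟩
  · rw [← PowerSeries.coeff_zero_eq_constantCoeff_apply, PowerSeries.coeff_map,
      PowerSeries.coeff_zero_eq_constantCoeff_apply, h.1, map_one]
  · rw [← map_neg, ← map_mul, ← h.2]
    ext n
    rw [coeff_euler, PowerSeries.coeff_map, PowerSeries.coeff_map, coeff_euler, map_mul,
      map_natCast]

lemma exp_mul {R : Type} [CommRing R] {H H' E E' : PowerSeries R} (h : IsExp H E)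
    (h' : IsExp H' E') : IsExp (H + H') (E * E') := by
  refine ⟨by rw [map_mul, h.1, h'.1, one_mul], ?_⟩
  rw [Derivation.leibniz, smul_eq_mul, smul_eq_mul]
  linear_combination E * h'.2 + E' * h.2

lemma exp_one {R : Type} [CommRing R] : IsExp (0 : PowerSeries R) 1 :=
  ⟨map_one _, by rw [PowerSeries.derivative_one, mul_zero, neg_zero, zero_mul]⟩

lemma exp_pow {R : Type} [CommRing R] {H E : PowerSeries R} (h : IsExp H E) (n : ℕ) :
    IsExp (n • H) (E ^ n) := by
  induction n with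
  | zero => simpa using exp_one
  | succ n ih =>
    rw [succ_nsmul, pow_succ]
    exact exp_mul ih h

lemma exp_prod {R ι : Type} [CommRing R] (s : Finset ι) {H E : ι → PowerSeries R}
    (h : ∀ i ∈ s, IsExp (H i) (E i)) : IsExp (∑ i ∈ s, H i) (∏ i ∈ s, E i) := by
  induction s using Finset.induction_on with
  | empty => simpa using exp_one
  | insert a s ha ih =>
    rw [Finset.sum_insert ha, Finset.prod_insert ha]
    exact exp_mul (h a (Finset.mem_insert_self _ _))
      (ih fun i hi => h i (Finset.mem_insert_of_mem hi))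

/-! ### Algebraic coefficients -/

/-- The field of algebraic numbers. -/
noncomputable abbrev K0 : IntermediateField ℚ ℂ := algebraicClosure ℚ ℂ

lemma mem_K0 {z : ℂ} : z ∈ K0 ↔ IsAlgebraic ℚ z := mem_algebraicClosure_iff

lemma algM_iff {P : MM} : AlgM P ↔ ∀ s, MvPowerSeries.coeff s P ∈ K0 :=
  forall_congr' fun _ => mem_K0.symm

lemma algM : ∃ K : Subring MM, ∀ P, P ∈ K ↔ AlgM P := by
  refine ⟨{ carrier := {P | ∀ s, MvPowerSeries.coeff s P ∈ K0}
            mul_mem' := fun {a b} ha hb s => ?_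
            one_mem' := fun s => ?_
            add_mem' := fun {a b} ha hb s => ?_
            zero_mem' := fun s => ?_
            neg_mem' := fun {a} ha s => ?_ }, fun P => algM_iff.symm⟩
  · rw [MvPowerSeries.coeff_mul]
    exact sum_mem fun p _ => mul_mem (ha _) (hb _)
  · rw [MvPowerSeries.coeff_one]
    split_ifs
    exacts [one_mem _, zero_mem _]
  · rw [map_add]
    exact add_mem (ha _) (hb _)
  · rw [map_zero]
    exact zero_mem _
  · rw [map_neg]
    exact neg_mem (ha _)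

lemma ups_alg {Λ υ : MM} (h : IsUps Λ υ) (hΛ : AlgM Λ) : AlgM υ := by
  rw [algM_iff] at hΛ ⊢
  suffices ∀ n, ∀ s : Fin 2 →₀ ℕ, s.degree = n → MvPowerSeries.coeff s υ ∈ K0 from
    fun s => this _ s rfl
  intro n
  induction n using Nat.strong_induction_on with
  | _ n ih =>
    intro s hs
    rcases eq_or_ne s 0 with rfl | h0
    · rw [MvPowerSeries.coeff_zero_eq_constantCoeff_apply, h.1]
      exact one_mem _
    obtain ⟨i, hi⟩ : ∃ i, s i ≠ 0 := by
      by_contra hc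
      exact h0 (Finsupp.ext fun i => by_contra fun hi => hc ⟨i, hi⟩)
    obtain ⟨t, rfl⟩ : ∃ t, s = t + Finsupp.single i 1 :=
      ⟨s - Finsupp.single i 1, (tsub_add_cancel_of_le
        (Finsupp.single_le_iff.mpr (Nat.one_le_iff_ne_zero.mpr hi))).symm⟩
    have e := congrArg (MvPowerSeries.coeff t) (h.2 i)
    have hne : ((t i : ℂ) + 1) ≠ 0 := Nat.cast_add_one_ne_zero _
    rw [MvPowerSeries.coeff_pderiv, ← eq_div_iff hne, MvPowerSeries.coeff_mul] at e
    rw [e]
    have hn : ∀ k : ℕ, ((k : ℂ) + 1) ∈ K0 := fun k => add_mem (natCast_mem _ _) (one_mem _)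
    refine div_mem (sum_mem fun p hp => mul_mem ?_ (ih _ ?_ _ rfl)) (hn _)
    · rw [map_neg, MvPowerSeries.coeff_pderiv]
      exact neg_mem (mul_mem (hΛ _) (hn _))
    · have := congrArg Finsupp.degree (Finset.HasAntidiagonal.mem_antidiagonal.mp hp)
      rw [map_add] at this hs
      rw [Finsupp.degree_single] at hs
      omega

lemma alg_div {P Q : MM} (h0 : P ≠ 0) (hP : AlgM P) (hQ : AlgM (P * Q)) : AlgM Q := by
  rw [algM_iff] at hP hQ ⊢
  obtain ⟨t, ht⟩ := LinearMap.exists_leftInverse_of_injective (Algebra.linearMap K0 ℂ)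
    (LinearMap.ker_eq_bot.mpr (algebraMap K0 ℂ).injective)
  have ht' : ∀ z : K0, t (z : ℂ) = z := fun z => LinearMap.congr_fun ht z
  let Q' : MM := fun s => (t (MvPowerSeries.coeff s Q) : ℂ)
  have hQ' : ∀ s, MvPowerSeries.coeff s Q' = (t (MvPowerSeries.coeff s Q) : ℂ) := fun _ => rfl
  have e : P * Q' = P * Q := by
    ext s
    have e1 := congrArg Subtype.val (ht' ⟨_, hQ s⟩)
    simp only at e1
    rw [← e1, MvPowerSeries.coeff_mul, MvPowerSeries.coeff_mul, map_sum,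
      AddSubmonoidClass.coe_finsetSum]
    refine Finset.sum_congr rfl fun p _ => ?_
    have e2 := congrArg Subtype.val (t.map_smul ⟨_, hP p.1⟩ (MvPowerSeries.coeff p.2 Q))
    rw [hQ']
    exact e2.symm
  intro s
  rw [← mul_left_cancel₀ h0 e, hQ']
  exact SetLike.coe_mem _

/-! ### The factors -/

/-- The logarithmic derivative of `1 - w X ^ p`. -/
noncomputable def lg {R : Type} [CommRing R] (p : ℕ) (w : R) : PowerSeries R :=
  PowerSeries.mk fun m => ∑ k ∈ Finset.Icc 1 m, if p * k = m then w ^ k * p else 0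

lemma coeff_lg {R : Type} [CommRing R] {p : ℕ} (hp : 0 < p) (w : R) (m : ℕ) :
    PowerSeries.coeff m (lg p w) = if p ∣ m ∧ 0 < m then w ^ (m / p) * p else 0 := by
  rw [lg, PowerSeries.coeff_mk]
  split_ifs with h
  · obtain ⟨⟨k, rfl⟩, h⟩ := h
    rw [Nat.mul_div_cancel_left _ hp, Finset.sum_eq_single k, if_pos rfl]
    · exact fun j _ hj => if_neg fun e => hj (Nat.eq_of_mul_eq_mul_left hp e)
    · exact fun hk => absurd (Finset.mem_Icc.mpr
        ⟨Nat.pos_of_mul_pos_left h, Nat.le_mul_of_pos_left _ hp⟩) hk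
  · refine Finset.sum_eq_zero fun k hk => if_neg fun e => h ⟨⟨k, e.symm⟩, ?_⟩
    have := Finset.mem_Icc.mp hk
    omega

lemma exp_lg {R : Type} [CommRing R] {p : ℕ} (hp : 0 < p) (w : R) :
    IsExp (lg p w) (1 - PowerSeries.C w * PowerSeries.X ^ p) := by
  refine ⟨by simp [hp.ne'], ?_⟩
  have e1 := congrArg (fun F => PowerSeries.expand p hp.ne' (PowerSeries.rescale w F))
    (PowerSeries.mk_one_mul_one_sub_eq_one R)
  simp only [map_mul, map_sub, map_one, PowerSeries.rescale_X, PowerSeries.expand_C,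
    PowerSeries.expand_X] at e1
  have e2 : lg p w =
      (PowerSeries.expand p hp.ne' (PowerSeries.rescale w (PowerSeries.mk 1)) - 1) * p := by
    ext m
    rw [coeff_lg hp, ← map_natCast (PowerSeries.C (R := R)), PowerSeries.coeff_mul_C, map_sub,
      PowerSeries.coeff_expand, PowerSeries.coeff_rescale, PowerSeries.coeff_mk,
      PowerSeries.coeff_one]
    rcases Nat.eq_zero_or_pos m with rfl | hm
    · simp
    · by_cases h : p ∣ m <;> simp [h, hm, hm.ne']
  obtain ⟨q, rfl⟩ : ∃ q, p = q + 1 := ⟨p - 1, by omega⟩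
  rw [map_sub, PowerSeries.derivative_one, Derivation.leibniz, PowerSeries.derivative_C,
    PowerSeries.derivative_pow, PowerSeries.derivative_X, e2, Nat.add_sub_cancel, smul_eq_mul,
    smul_zero]
  linear_combination ((q + 1 : ℕ) : PowerSeries R) * e1

lemma prod_single {ι : Type} (s : Finset ι) (e : ι → ℤ) :
    ∏ i ∈ s, (HahnSeries.single (e i) 1 : LS) = HahnSeries.single (∑ i ∈ s, e i) 1 := by
  induction s using Finset.induction_on with
  | empty => simp
  | insert a s ha ih =>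
    rw [Finset.sum_insert ha, Finset.prod_insert ha, ih, HahnSeries.single_mul_single, one_mul]

/-- The ratio of the two monomials of a factor. -/
noncomputable def ww (N L : ℕ) (i : ℕ × ℕ × ℕ) : LS :=
  HahnSeries.single (-((L * i.2.2 : ℕ) : ℤ)) (ee (i.2.1 / N))

lemma II_ell (N L : ℕ) (i : ℕ × ℕ × ℕ) : II (ell N L i) =
    PowerSeries.C (HahnSeries.single ((L * i.2.2 : ℕ) : ℤ) 1) *
      (1 - PowerSeries.C (ww N L i) * PowerSeries.X ^ (L * i.1)) := by
  rw [ell, map_sub, map_mul, map_pow, map_pow, II_X0, II_X1, II_C, mul_sub, mul_one, ← mul_assoc,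
    ← map_mul, ← map_pow, ww, HahnSeries.single_mul_single, HahnSeries.single_pow]
  simp

lemma II_prod (N L : ℕ) (s : Finset (ℕ × ℕ × ℕ)) (n : ℕ × ℕ × ℕ → ℕ) :
    II (∏ i ∈ s, ell N L i ^ n i) =
      PowerSeries.C (HahnSeries.single (∑ i ∈ s, ((L * i.2.2 : ℕ) : ℤ) * n i) 1) *
        ∏ i ∈ s, (1 - PowerSeries.C (ww N L i) * PowerSeries.X ^ (L * i.1)) ^ n i := by
  rw [map_prod, ← prod_single, map_prod, ← Finset.prod_mul_distrib]
  refine Finset.prod_congr rfl fun i _ => ?_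
  rw [map_pow, II_ell, mul_pow, ← map_pow, HahnSeries.single_pow, one_pow, nsmul_eq_mul,
    mul_comm (n i : ℤ)]

lemma ee_pow (z : ℂ) (k : ℕ) : ee z ^ k = ee (z * k) := by
  rw [ee, ee, ← Complex.exp_nat_mul]
  congr 1
  ring

lemma coeff_lg_ww (N L : ℕ) (i : ℕ × ℕ × ℕ) (m : ℕ) (n : ℤ) :
    (PowerSeries.coeff m (lg (L * i.1) (ww N L i))).coeff n = ∑ k ∈ Finset.Icc 1 m,
      if L * i.1 * k = m ∧ ((L * i.2.2 * k : ℕ) : ℤ) = -n then
        (L * i.1) * ee (i.2.1 * k / N) else 0 := by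
  rw [lg, PowerSeries.coeff_mk, HahnSeries.coeff_sum]
  refine Finset.sum_congr rfl fun k _ => ?_
  by_cases h : L * i.1 * k = m
  · rw [if_pos h, coeff_mul_nat, ww, HahnSeries.single_pow, HahnSeries.coeff_single, ee_pow]
    have e : n = k • -((L * i.2.2 : ℕ) : ℤ) ↔ ((L * i.2.2 * k : ℕ) : ℤ) = -n := by
      rw [nsmul_eq_mul, Nat.cast_mul (L * i.2.2) k]
      constructor <;> intro e <;> linarith
    by_cases h' : ((L * i.2.2 * k : ℕ) : ℤ) = -n
    · rw [if_pos (e.mpr h'), if_pos ⟨h, h'⟩, div_mul_eq_mul_div]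
      push_cast
      ring
    · rw [if_neg (mt e.mp h'), if_neg fun c => h' c.2, zero_mul]
  · rw [if_neg h, if_neg fun c => h c.1, HahnSeries.coeff_zero]

lemma exp_ups {Λ υ : MM} (h : IsUps Λ υ) (h0 : ∀ ν, MvPowerSeries.coeff (ex2 0 ν) Λ = 0) :
    IsExp (PowerSeries.X * PowerSeries.derivative LS (II Λ)) (II υ) := by
  refine ⟨?_, ?_⟩
  · rw [← PowerSeries.coeff_zero_eq_constantCoeff_apply, coeff_II, row, ← map_one
      (HahnSeries.ofPowerSeries ℤ ℂ)]
    congr 1
    ext ν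
    rw [PowerSeries.coeff_mk, PowerSeries.coeff_one]
    cases ν with
    | zero => rw [ex2_00, MvPowerSeries.coeff_zero_eq_constantCoeff_apply, h.1, if_pos rfl]
    | succ ν =>
      have e := congrArg (MvPowerSeries.coeff (ex2 0 ν)) (h.2 1)
      rw [MvPowerSeries.coeff_pderiv, ex2_add1, MvPowerSeries.coeff_mul, Finset.sum_eq_zero] at e
      · rw [if_neg ν.succ_ne_zero]
        exact (mul_eq_zero.mp e).resolve_right (Nat.cast_add_one_ne_zero _)
      · intro p hp
        have e1 := congrArg (fun s => s 0) (Finset.HasAntidiagonal.mem_antidiagonal.mp hp)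
        simp only [Finsupp.add_apply, ex2_zero] at e1
        rw [map_neg, MvPowerSeries.coeff_pderiv, ← ex2_eta p.1, ex2_add1,
          show p.1 0 = 0 by omega, h0, zero_mul, neg_zero, zero_mul]
  · rw [← II_pderiv, h.2, map_mul, map_neg, II_pderiv]
    ring

lemma main (N L M K : ℕ) (cf : ℕ × ℕ × ℕ → ℤ) (Λ υ : MM) (H E : PowerSeries LS) (hL : 0 < L)
    (hK : ∀ i, |cf i| ≤ K) (h0 : ∀ ν, MvPowerSeries.coeff (ex2 0 ν) Λ = 0) (hυ : IsUps Λ υ)
    (hE : IsExp H E)
    (hp : ∀ m ν : ℕ, (PowerSeries.coeff m H).coeff ν = m * MvPowerSeries.coeff (ex2 m ν) Λ)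
    (hn : ∀ m ν : ℕ, 0 < ν → (PowerSeries.coeff m H).coeff (-ν) =
      ∑ i ∈ Ix N M, ∑ k ∈ Finset.Icc 1 m,
        if L * i.1 * k = m ∧ L * i.2.2 * k = ν then
          (cf i : ℂ) * (L * i.1) * ee (i.2.1 * k / N) else 0) :
    iot (υ * ∏ i ∈ Ix N M, ell N L i ^ (K + cf i).toNat) =
      E * iot (∏ i ∈ Ix N M, ell N L i ^ K) *
        PowerSeries.C (HahnSeries.single (∑ i ∈ Ix N M, (L * i.2.2 : ℕ) * cf i) 1) := by
  have hi : ∀ i ∈ Ix N M, 0 < L * i.1 ∧ 0 < L * i.2.2 := fun i hi => by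
    simp only [Ix, Finset.mem_filter, Finset.mem_product, Finset.mem_Icc] at hi
    exact ⟨Nat.mul_pos hL hi.1.1.1, Nat.mul_pos hL hi.1.2.2.1⟩
  have hc : ∀ i, (((K + cf i).toNat : ℕ) : ℤ) = K + cf i := fun i =>
    Int.toNat_of_nonneg (by have := abs_le.mp (hK i); omega)
  have hc' : ∀ i, (((K + cf i).toNat : ℕ) : ℂ) = K + cf i := fun i => by exact_mod_cast hc i
  have e1 := exp_mul (exp_ups hυ h0) (exp_prod (Ix N M) fun i h =>
    exp_pow (exp_lg (hi i h).1 (ww N L i)) (K + cf i).toNat)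
  have e2 := exp_mul hE (exp_prod (Ix N M) fun i h => exp_pow (exp_lg (hi i h).1 (ww N L i)) K)
  have e3 : H + ∑ i ∈ Ix N M, K • lg (L * i.1) (ww N L i) =
      PowerSeries.X * PowerSeries.derivative LS (II Λ) +
        ∑ i ∈ Ix N M, (K + cf i).toNat • lg (L * i.1) (ww N L i) := by
    ext1 m
    simp only [map_add, map_sum, map_nsmul, coeff_euler, coeff_II]
    refine ls_ext (fun ν => ?_) fun ν hν => ?_
    · simp only [HahnSeries.coeff_add, HahnSeries.coeff_sum, HahnSeries.coeff_nsmul,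
        Pi.smul_apply, coeff_mul_nat, row_nat, hp]
      have z : ∀ i ∈ Ix N M, (PowerSeries.coeff m (lg (L * i.1) (ww N L i))).coeff ν = 0 := by
        intro i h
        rw [coeff_lg_ww]
        refine Finset.sum_eq_zero fun k hk => if_neg fun c => ?_
        have := Nat.mul_pos (hi i h).2 (Finset.mem_Icc.mp hk).1
        omega
      rw [Finset.sum_eq_zero fun i h => by rw [z i h, smul_zero],
        Finset.sum_eq_zero fun i h => by rw [z i h, smul_zero], mul_comm]
    · simp only [HahnSeries.coeff_add, HahnSeries.coeff_sum, HahnSeries.coeff_nsmul,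
        Pi.smul_apply, coeff_mul_nat, hn m ν hν, coeff_lg_ww, neg_neg, Nat.cast_inj]
      simp only [nsmul_eq_mul, hc']
      rw [row_neg _ _ (by omega), zero_mul, zero_add, ← Finset.sum_add_distrib]
      refine Finset.sum_congr rfl fun i _ => ?_
      rw [add_mul, add_comm, Finset.mul_sum _ _ (cf i : ℂ)]
      congr 1
      refine Finset.sum_congr rfl fun k _ => ?_
      split_ifs
      · ring
      · rw [mul_zero]
  rw [e3] at e2
  have e4 := exp_unique ?_ e1 e2
  · rw [← II_eq, ← II_eq, map_mul, II_prod, II_prod, mul_left_comm, e4]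
    have e5 : (HahnSeries.single (∑ i ∈ Ix N M, ((L * i.2.2 : ℕ) : ℤ) * (K + cf i).toNat) 1 : LS) =
        HahnSeries.single (∑ i ∈ Ix N M, ((L * i.2.2 : ℕ) : ℤ) * K) 1 *
          HahnSeries.single (∑ i ∈ Ix N M, ((L * i.2.2 : ℕ) : ℤ) * cf i) 1 := by
      rw [HahnSeries.single_mul_single, one_mul, ← Finset.sum_add_distrib]
      simp only [hc, mul_add]
    rw [e5, map_mul]
    ring
  · rw [map_add, map_mul, PowerSeries.constantCoeff_X, zero_mul, zero_add, map_sum]
    refine Finset.sum_eq_zero fun i _ => ?_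
    rw [map_nsmul, ← PowerSeries.coeff_zero_eq_constantCoeff_apply, lg, PowerSeries.coeff_mk]
    simp

end Form

theorem form : FORM where
  iot_hom := ⟨Form.II, Form.II_eq⟩
  coeff_sw := Form.coeff_sw
  exp_ex := Form.exp_ex
  exp_unique := Form.exp_unique
  exp_map := Form.exp_map
  exp_mul := Form.exp_mul
  ups_ex := Form.ups_ex
  ups_sw := Form.ups_sw
  ups_alg := Form.ups_alg
  algM := Form.algM
  alg_div := Form.alg_div
  main := fun N L M K cf Λ υ H E _ hL hK _ h0 hυ hE hp hn =>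
    Form.main N L M K cf Λ υ H E hL hK h0 hυ hE hp hn

end Pool.Agent.MP_9207e0_ag.hg

end MrgPart2

-- marker of a merged file
example : 731051 + 238026 = 731051 + 238026 := rfl
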