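import Mathlib
import Pool.Agent.MP_9207e0_ag.Defs

/-! Theta constants, the modular parametrisation of `y^2 = x^3 - x`, and Heegner points. -/

namespace Pool.Agent.MP_9207e0_ag.hg

open UpperHalfPlane Complex
open scoped Real MatrixGroups

/-- The theta constant `θ₀₀`. -/
noncomputable def th00 (τ : ℍ) : ℂ := ∑' n : ℤ, cexp (π * Complex.I * n ^ 2 * τ)

/-- The theta constant `θ₀₁`. -/
noncomputable def th01 (τ : ℍ) : ℂ := ∑' n : ℤ, (-1) ^ n * cexp (π * Complex.I * n ^ 2 * τ)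

/-- The theta constant `θ₁₀`. -/
noncomputable def th10 (τ : ℍ) : ℂ := ∑' n : ℤ, cexp (π * Complex.I * (n + 1 / 2) ^ 2 * τ)

/-- The first coordinate of the modular parametrisation `X(8) → E`. -/
noncomputable def uX (τ : ℍ) : ℂ := th00 τ ^ 2 / th10 τ ^ 2

/-- The second coordinate of the modular parametrisation `X(8) → E`. -/
noncomputable def uY (τ : ℍ) : ℂ := th00 τ * th01 τ ^ 2 / th10 τ ^ 3

/-- `τ` is the root of a positive definite form `[A, B, C]` of discriminant `-n` with `8 ∣ A`,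
`8 ∣ C`. -/
def IsHeegner (n : ℕ) (B : ℤ) (τ : ℍ) : Prop :=
  ∃ A C : ℤ, 0 < A ∧ 8 ∣ A ∧ 8 ∣ C ∧ B ^ 2 - 4 * A * C = -n ∧
    (A : ℂ) * (τ : ℂ) ^ 2 + B * τ + C = 0

/-- `R` is a set of representatives of these forms modulo `Γ(8)`. -/
def IsHeegnerReps (n : ℕ) (R : Finset (ℤ × ℍ)) : Prop :=
  (∀ p ∈ R, IsHeegner n p.1 p.2) ∧
    ∀ B τ, IsHeegner n B τ → ∃! p, p ∈ R ∧ ∃ γ ∈ CongruenceSubgroup.Gamma 8, γ • τ = p.2

end Pool.Agent.MP_9207e0_ag.hg
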