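import Mathlib
import Pool.Agent.MP_9207e0_ag.hg.Defs
import Pool.Agent.MP_9207e0_ag.Center

/-! Common definitions of the project, and the action of integral matrices. -/

set_option linter.unusedSectionVars false
set_option linter.unusedVariables false

namespace Pool.Agent.MP_9207e0_ag.hg

open UpperHalfPlane Complex Filter Asymptotics Matrix
open scoped Real MatrixGroups Manifold Classical

/-- Integral matrices. -/
abbrev M2 : Type := Matrix (Fin 2) (Fin 2) ℤ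

/-- Matrices modulo `N`. -/
abbrev MN (N : ℕ) : Type := Matrix (Fin 2) (Fin 2) (ZMod N)

/-- The modular group. -/
abbrev SL2 : Type := SL(2, ℤ)

/-- Laurent series. -/
abbrev LS : Type := LaurentSeries ℂ

/-- Power series in two variables. -/
abbrev MM : Type := MvPowerSeries (Fin 2) ℂ

/-- Principal congruence subgroups. -/
abbrev Gam (N : ℕ) : Subgroup SL2 := CongruenceSubgroup.Gamma N

/-- Holomorphic functions on the upper half plane. -/
abbrev Hol (w : ℍ → ℂ) : Prop := MDifferentiable 𝓘(ℂ) 𝓘(ℂ) w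

/-- `e(z)`. -/
noncomputable def ee (z : ℂ) : ℂ := cexp (2 * π * Complex.I * z)

/-- Reduction of matrices. -/
def red (N : ℕ) (x : M2) : MN N := x.map (Int.cast : ℤ → ZMod N)

/-- The diagonal matrix. -/
def dg (a d : ℤ) : M2 := !![a, 0; 0, d]

/-- Primitive matrices. -/
def Prim (x : M2) : Prop := ∀ d : ℤ, (∀ i k, d ∣ x i k) → IsUnit d

lemma den_ne {A : M2} (h : 0 < A.det) (τ : ℍ) : (A 1 0 : ℂ) * τ + A 1 1 ≠ 0 := by
  intro h0
  have h1 := congrArg Complex.im h0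
  have h2 := congrArg Complex.re h0
  simp only [add_im, mul_im, intCast_re, intCast_im, coe_im, coe_re, zero_mul, add_zero, zero_im,
    add_re, mul_re, sub_zero, zero_re] at h1 h2
  have h3 : (A 1 0 : ℝ) = 0 := (mul_eq_zero.mp h1).resolve_right τ.im_pos.ne'
  rw [h3, zero_mul, zero_add] at h2
  have h4 : A 1 0 = 0 := by exact_mod_cast h3
  have h5 : A 1 1 = 0 := by exact_mod_cast h2
  rw [Matrix.det_fin_two, h4, h5] at h
  simp at h

lemma im_quot {A : M2} (h : 0 < A.det) (τ : ℍ) :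
    (((A 0 0 : ℂ) * τ + A 0 1) / ((A 1 0 : ℂ) * τ + A 1 1)).im =
      A.det * τ.im / normSq ((A 1 0 : ℂ) * τ + A 1 1) := by
  rw [div_im, Matrix.det_fin_two]
  simp only [add_im, mul_im, intCast_re, intCast_im, coe_im, coe_re, zero_mul, add_zero,
    add_re, mul_re, sub_zero]
  push_cast
  ring

/-- The action of an integral matrix of positive determinant. -/
noncomputable def mob (A : M2) (τ : ℍ) : ℍ :=
  if h : 0 < A.det then
    ⟨((A 0 0 : ℂ) * τ + A 0 1) / ((A 1 0 : ℂ) * τ + A 1 1), by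
      rw [im_quot h]
      exact div_pos (mul_pos (by exact_mod_cast h) τ.im_pos) (normSq_pos.mpr (den_ne h τ))⟩
  else τ

lemma coe_mob {A : M2} (h : 0 < A.det) (τ : ℍ) :
    (mob A τ : ℂ) = ((A 0 0 : ℂ) * τ + A 0 1) / ((A 1 0 : ℂ) * τ + A 1 1) := by
  rw [mob, dif_pos h]

lemma im_mob {A : M2} (h : 0 < A.det) (τ : ℍ) :
    (mob A τ).im = A.det * τ.im / normSq ((A 1 0 : ℂ) * τ + A 1 1) := by
  rw [← im_quot h, ← coe_mob h, coe_im]

lemma mob_mul {A B : M2} (hA : 0 < A.det) (hB : 0 < B.det) (τ : ℍ) :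
    mob (A * B) τ = mob A (mob B τ) := by
  have hAB : 0 < (A * B).det := by rw [Matrix.det_mul]; exact mul_pos hA hB
  apply UpperHalfPlane.ext
  have h1 := den_ne hAB τ
  have h2 := den_ne hB τ
  have h3 := den_ne hA (mob B τ)
  rw [coe_mob hB] at h3
  rw [coe_mob hAB, coe_mob hA, coe_mob hB, div_eq_div_iff h1 h3]
  simp only [Matrix.mul_apply, Fin.sum_univ_two]
  push_cast
  field_simp
  ring

lemma det_SL (g : SL2) : (g : M2).det = 1 := g.2

lemma det_SL_pos (g : SL2) : 0 < (g : M2).det := by rw [det_SL]; exact one_pos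

lemma mob_SL (g : SL2) (τ : ℍ) : mob (g : M2) τ = g • τ := by
  apply UpperHalfPlane.ext
  rw [coe_mob (det_SL_pos g), UpperHalfPlane.specialLinearGroup_apply]
  simp

lemma mob_one (τ : ℍ) : mob 1 τ = τ := by
  have := mob_SL 1 τ
  simpa using this

lemma mob_smul {A : M2} (h : 0 < A.det) {k : ℤ} (hk : k ≠ 0) (τ : ℍ) :
    mob (k • A) τ = mob A τ := by
  have h' : 0 < (k • A).det := by
    rw [Matrix.det_smul]
    exact mul_pos (by simpa using pow_pos (abs_pos.mpr hk) 2) h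
  apply UpperHalfPlane.ext
  rw [coe_mob h, coe_mob h', div_eq_div_iff (den_ne h' τ) (den_ne h τ)]
  simp only [Matrix.smul_apply, smul_eq_mul]
  push_cast
  ring

lemma mob_neg {A : M2} (h : 0 < A.det) (τ : ℍ) : mob (-A) τ = mob A τ := by
  have := mob_smul h (k := -1) (by norm_num) τ
  simpa using this

lemma det_adj_pos {A : M2} (h : 0 < A.det) : 0 < A.adjugate.det := by
  rw [Matrix.det_adjugate]; simpa using h

lemma mob_adj_mob {A : M2} (h : 0 < A.det) (τ : ℍ) : mob A.adjugate (mob A τ) = τ := by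
  rw [← mob_mul (det_adj_pos h) h, Matrix.adjugate_mul, mob_smul (by simp) h.ne', mob_one]

lemma mob_mob_adj {A : M2} (h : 0 < A.det) (τ : ℍ) : mob A (mob A.adjugate τ) = τ := by
  rw [← mob_mul h (det_adj_pos h), Matrix.mul_adjugate, mob_smul (by simp) h.ne', mob_one]

lemma mob_injective {A : M2} (h : 0 < A.det) : Function.Injective (mob A) :=
  Function.LeftInverse.injective (mob_adj_mob h)

lemma mob_eq_iff {A : M2} (h : 0 < A.det) (τ σ : ℍ) :
    mob A τ = σ ↔ (A 0 0 : ℂ) * τ + A 0 1 = σ * ((A 1 0 : ℂ) * τ + A 1 1) := by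
  rw [UpperHalfPlane.ext_iff, coe_mob h, div_eq_iff (den_ne h τ)]

lemma mob_fix_iff {A : M2} (h : 0 < A.det) (τ : ℍ) :
    mob A τ = τ ↔ (A 1 0 : ℂ) * (τ : ℂ) ^ 2 + ((A 1 1 : ℂ) - A 0 0) * τ - A 0 1 = 0 := by
  rw [mob_eq_iff h]
  constructor <;> intro e <;> linear_combination -e

lemma det_dg (a d : ℤ) : (dg a d).det = a * d := by simp [dg, Matrix.det_fin_two]

lemma coe_mob_dg {a d : ℤ} (h : 0 < a * d) (τ : ℍ) : (mob (dg a d) τ : ℂ) = a * τ / d := by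
  rw [coe_mob (by rwa [det_dg])]
  simp [dg]

/-- A real quadratic relation that is not trivial has negative discriminant and one root. -/
lemma quad_disc {a b c : ℝ} {τ : ℍ} (h : (a : ℂ) * (τ : ℂ) ^ 2 + b * τ + c = 0) :
    b = -2 * a * τ.re ∧ c = a * (τ.re ^ 2 + τ.im ^ 2) := by
  have h1 := congrArg Complex.im h
  have h2 := congrArg Complex.re h
  simp only [sq, add_im, mul_im, ofReal_re, ofReal_im, coe_im, coe_re, zero_mul, add_zero, zero_im,
    add_re, mul_re, sub_zero, zero_re] at h1 h2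
  have h3 : b = -2 * a * τ.re := by
    apply mul_right_cancel₀ τ.im_pos.ne'
    linear_combination h1
  refine ⟨h3, ?_⟩
  rw [h3] at h2
  linear_combination h2

lemma quad_root_unique {a b c : ℝ} {τ σ : ℍ} (ha : a ≠ 0)
    (h : (a : ℂ) * (τ : ℂ) ^ 2 + b * τ + c = 0) (h' : (a : ℂ) * (σ : ℂ) ^ 2 + b * σ + c = 0) :
    τ = σ := by
  obtain ⟨e1, e2⟩ := quad_disc h
  obtain ⟨e3, e4⟩ := quad_disc h'
  have hre : τ.re = σ.re := by
    apply mul_left_cancel₀ (mul_ne_zero (by norm_num : (-2 : ℝ) ≠ 0) ha)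
    rw [← e1, ← e3]
  have him : τ.im ^ 2 = σ.im ^ 2 := by
    have := mul_left_cancel₀ ha (e2.symm.trans e4)
    rw [hre] at this
    linarith
  exact UpperHalfPlane.ext_re_im hre ((pow_left_inj₀ τ.im_pos.le σ.im_pos.le two_ne_zero).mp him)

lemma hasDerivAt_mob {A : M2} (h : 0 < A.det) (τ : ℍ) :
    HasDerivAt (fun z : ℂ => (mob A (ofComplex z) : ℂ))
      (A.det / ((A 1 0 : ℂ) * τ + A 1 1) ^ 2) τ := by
  have h1 : HasDerivAt (fun z : ℂ => ((A 0 0 : ℂ) * z + A 0 1) / ((A 1 0 : ℂ) * z + A 1 1))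
      (A.det / ((A 1 0 : ℂ) * τ + A 1 1) ^ 2) τ := by
    have := (((hasDerivAt_id (τ : ℂ)).const_mul (A 0 0 : ℂ)).add_const (A 0 1 : ℂ)).div
      (((hasDerivAt_id (τ : ℂ)).const_mul (A 1 0 : ℂ)).add_const (A 1 1 : ℂ)) (den_ne h τ)
    refine this.congr_deriv ?_
    rw [Matrix.det_fin_two]
    simp only [id]
    push_cast
    ring
  refine h1.congr_of_eventuallyEq ?_
  filter_upwards [isOpen_upperHalfPlaneSet.mem_nhds τ.im_pos] with z hz
  rw [ofComplex_apply_of_im_pos hz, coe_mob h]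

lemma hol_iff {w : ℍ → ℂ} : Hol w ↔ ∀ τ : ℍ, AnalyticAt ℂ (w ∘ ofComplex) τ := by
  rw [Hol, UpperHalfPlane.mdifferentiable_iff]
  constructor
  · intro h τ
    exact (h.analyticOnNhd isOpen_upperHalfPlaneSet) τ τ.im_pos
  · intro h z hz
    exact (h ⟨z, hz⟩).differentiableAt.differentiableWithinAt

lemma comp_mob_eq (w : ℍ → ℂ) (A : M2) :
    (fun τ => w (mob A τ)) ∘ ofComplex =
      (w ∘ ofComplex) ∘ fun z : ℂ => (mob A (ofComplex z) : ℂ) := by
  ext z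
  simp

lemma analyticAt_mob {A : M2} (h : 0 < A.det) (τ : ℍ) :
    AnalyticAt ℂ (fun z : ℂ => (mob A (ofComplex z) : ℂ)) τ := by
  refine DifferentiableOn.analyticAt (s := upperHalfPlaneSet) (fun z hz => ?_)
    (isOpen_upperHalfPlaneSet.mem_nhds τ.im_pos)
  exact (hasDerivAt_mob h ⟨z, hz⟩).differentiableAt.differentiableWithinAt

lemma Hol.comp_mob {w : ℍ → ℂ} (hw : Hol w) {A : M2} (h : 0 < A.det) :
    Hol fun τ => w (mob A τ) := by
  rw [hol_iff] at hw ⊢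
  intro τ
  rw [comp_mob_eq]
  exact AnalyticAt.comp (by simpa using hw (mob A τ)) (analyticAt_mob h τ)

lemma Hol.comp_SL {w : ℍ → ℂ} (hw : Hol w) (g : SL2) : Hol fun τ => w (g • τ) := by
  simpa only [mob_SL] using hw.comp_mob (det_SL_pos g)

/-- The order of vanishing. -/
noncomputable def ordE (w : ℍ → ℂ) (τ : ℍ) : ℕ∞ := analyticOrderAt (w ∘ ofComplex) τ

/-- The order of vanishing as a natural number. -/
noncomputable def ord (w : ℍ → ℂ) (τ : ℍ) : ℕ := (ordE w τ).toNat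

lemma ordE_comp_mob (w : ℍ → ℂ) {A : M2} (h : 0 < A.det) (τ : ℍ) :
    ordE (fun σ => w (mob A σ)) τ = ordE w (mob A τ) := by
  rw [ordE, comp_mob_eq, analyticOrderAt_comp_of_deriv_ne_zero (analyticAt_mob h τ), ordE]
  · simp
  · rw [(hasDerivAt_mob h τ).deriv]
    exact div_ne_zero (by exact_mod_cast h.ne') (pow_ne_zero 2 (den_ne h τ))

lemma ordE_mul {a b : ℍ → ℂ} (ha : Hol a) (hb : Hol b) (τ : ℍ) :
    ordE (a * b) τ = ordE a τ + ordE b τ :=
  analyticOrderAt_mul (hol_iff.mp ha τ) (hol_iff.mp hb τ)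

lemma ordE_eq_zero {a : ℍ → ℂ} (ha : Hol a) (τ : ℍ) : ordE a τ = 0 ↔ a τ ≠ 0 := by
  rw [ordE, (hol_iff.mp ha τ).analyticOrderAt_eq_zero]
  simp

lemma Hol.eq_zero_of_eventually {a : ℍ → ℂ} (ha : Hol a) {τ : ℍ}
    (h : ∀ᶠ z in nhds (τ : ℂ), (a ∘ ofComplex) z = 0) : a = 0 := by
  have h1 : AnalyticOnNhd ℂ (a ∘ ofComplex) upperHalfPlaneSet :=
    fun z hz => hol_iff.mp ha ⟨z, hz⟩
  have h2 := h1.eqOn_zero_of_preconnected_of_eventuallyEq_zero
    (convex_halfSpace_im_gt 0).isPreconnected τ.im_pos h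
  ext σ
  simpa using h2 σ.im_pos

lemma ordE_ne_top {a : ℍ → ℂ} (ha : Hol a) (h0 : a ≠ 0) (τ : ℍ) : ordE a τ ≠ ⊤ := fun h =>
  h0 (ha.eq_zero_of_eventually (analyticOrderAt_eq_top.mp h))

lemma Hol.mul_ne_zero {a b : ℍ → ℂ} (ha : Hol a) (hb : Hol b) (h1 : a ≠ 0) (h2 : b ≠ 0) :
    a * b ≠ 0 := by
  intro h
  have e := ordE_mul ha hb UpperHalfPlane.I
  have e2 : ordE (a * b) UpperHalfPlane.I = ⊤ := by
    rw [h, ordE, analyticOrderAt_eq_top]
    exact Eventually.of_forall fun _ => rfl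
  rw [e2] at e
  exact WithTop.add_ne_top.mpr ⟨ordE_ne_top ha h1 _, ordE_ne_top hb h2 _⟩ e.symm

/-- `c` is the expansion of `w` in powers of `e(τ / h)`. -/
def IsQ (h : ℕ) (w : ℍ → ℂ) (c : LS) : Prop :=
  ∀ τ : ℍ, HasSum (fun n : ℤ => c.coeff n * ee (n * τ / h)) (w τ)

/-- Growth at most `exp (2 π κ Im τ)`. -/
def Gr (κ : ℝ) (w : ℍ → ℂ) : Prop := w =O[atImInfty] fun τ => Real.exp (2 * π * κ * τ.im)

/-- At most exponential growth. -/
def ExpG (w : ℍ → ℂ) : Prop := ∃ κ : ℝ, Gr κ w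

lemma Gr.mono {κ κ' : ℝ} {w : ℍ → ℂ} (h : Gr κ w) (hk : κ ≤ κ') : Gr κ' w := by
  refine IsBigO.trans h (IsBigO.of_bound 1 (Eventually.of_forall fun τ => ?_))
  rw [one_mul, Real.norm_of_nonneg (Real.exp_pos _).le, Real.norm_of_nonneg (Real.exp_pos _).le]
  have := τ.im_pos
  have := Real.pi_pos
  gcongr

lemma Gr.add {κ : ℝ} {a b : ℍ → ℂ} (ha : Gr κ a) (hb : Gr κ b) : Gr κ (a + b) := IsBigO.add ha hb

lemma Gr.mul {κ κ' : ℝ} {a b : ℍ → ℂ} (ha : Gr κ a) (hb : Gr κ' b) : Gr (κ + κ') (a * b) := by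
  refine (IsBigO.mul ha hb).congr_right fun τ => ?_
  rw [← Real.exp_add]
  ring_nf

lemma gr_const (c : ℂ) : Gr 0 fun _ => c := by
  unfold Gr
  simpa using isBigO_const_const c (one_ne_zero (α := ℝ)) atImInfty

lemma ExpG.add {a b : ℍ → ℂ} (ha : ExpG a) (hb : ExpG b) : ExpG (a + b) := by
  obtain ⟨k, hk⟩ := ha
  obtain ⟨l, hl⟩ := hb
  exact ⟨max k l, (hk.mono (le_max_left _ _)).add (hl.mono (le_max_right _ _))⟩

lemma ExpG.mul {a b : ℍ → ℂ} (ha : ExpG a) (hb : ExpG b) : ExpG (a * b) := by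
  obtain ⟨k, hk⟩ := ha
  obtain ⟨l, hl⟩ := hb
  exact ⟨k + l, hk.mul hl⟩

/-- Weakly holomorphic modular functions of level `N`. -/
def Mod (N : ℕ) : Subalgebra ℂ (ℍ → ℂ) where
  carrier := {w | Hol w ∧ (∀ γ ∈ Gam N, ∀ τ, w (γ • τ) = w τ) ∧
    ∀ γ : SL2, ExpG fun τ => w (γ • τ)}
  mul_mem' := fun ha hb => ⟨ha.1.mul hb.1, fun γ h τ => by
    simp only [Pi.mul_apply, ha.2.1 γ h, hb.2.1 γ h], fun γ => (ha.2.2 γ).mul (hb.2.2 γ)⟩
  add_mem' := fun ha hb => ⟨ha.1.add hb.1, fun γ h τ => by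
    simp only [Pi.add_apply, ha.2.1 γ h, hb.2.1 γ h], fun γ => (ha.2.2 γ).add (hb.2.2 γ)⟩
  algebraMap_mem' := fun c => ⟨mdifferentiable_const, fun _ _ _ => rfl, fun _ => ⟨0, gr_const c⟩⟩

lemma mem_Mod {N : ℕ} {w : ℍ → ℂ} : w ∈ Mod N ↔ Hol w ∧ (∀ γ ∈ Gam N, ∀ τ, w (γ • τ) = w τ) ∧
    ∀ γ : SL2, ExpG fun τ => w (γ • τ) := Iff.rfl

lemma comp_SL_mem_Mod {N : ℕ} {w : ℍ → ℂ} (hw : w ∈ Mod N) (g : SL2) :
    (fun τ => w (g • τ)) ∈ Mod N := by
  refine ⟨hw.1.comp_SL g, fun γ hγ τ => ?_, fun γ => ?_⟩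
  · have := hw.2.1 _ ((CongruenceSubgroup.Gamma_normal N).conj_mem γ hγ g) (g • τ)
    simpa only [mul_smul, inv_smul_smul] using this
  · simpa only [mul_smul] using hw.2.2 (g * γ)

/-- The modular invariant. -/
noncomputable def jf (τ : ℍ) : ℂ := ModularForm.E₄ τ ^ 3 / ModularForm.discriminant τ

/-- The Dedekind eta function. -/
noncomputable def et (τ : ℍ) : ℂ := ModularForm.eta τ

/-- The square root of `-i τ`. -/
noncomputable def sqr (τ : ℍ) : ℂ := (-Complex.I * τ) ^ (1 / 2 : ℂ)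

/-- The normalised derivative. -/
noncomputable def dd (w : ℍ → ℂ) (τ : ℍ) : ℂ := (2 * π * Complex.I)⁻¹ * deriv (w ∘ ofComplex) τ

/-- Functions that are integral over `ℚ[j]`. -/
def IntJ (w : ℍ → ℂ) : Prop := IsIntegral (Algebra.adjoin ℚ {(jf : ℍ → ℂ)}) w

end Pool.Agent.MP_9207e0_ag.hg
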