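import Mathlib
import Pool.Agent.MP_9207e0_ag.hg.Core

/-! Statements of the modules of the project. -/

set_option linter.unusedSectionVars false
set_option linter.unusedVariables false

namespace Pool.Agent.MP_9207e0_ag.hg

open UpperHalfPlane Complex Filter Asymptotics Matrix
open scoped Real MatrixGroups Manifold Classical Kronecker

/-! ### Expansions -/

/-- Functions with an expansion. -/
def HasQ (h : ℕ) (w : ℍ → ℂ) : Prop := ∃ c, IsQ h w c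

/-- Series with rational coefficients. -/
def RatL (c : LS) : Prop := ∀ n, ∃ q : ℚ, c.coeff n = q

/-- Functions with a rational expansion. -/
def RQ (h : ℕ) (w : ℍ → ℂ) : Prop := ∃ c, IsQ h w c ∧ RatL c

/-- Series with algebraic coefficients. -/
def AlgL (c : LS) : Prop := ∀ n, IsAlgebraic ℚ (c.coeff n)

/-- `c'` is obtained from `c` by the substitution `p ↦ ω p ^ k`. -/
def IsSub (k : ℕ) (ω : ℂ) (c c' : LS) : Prop :=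
  (∀ n : ℤ, c'.coeff (k * n) = ω ^ n * c.coeff n) ∧ ∀ m : ℤ, ¬ (k : ℤ) ∣ m → c'.coeff m = 0

/-- Module QA. -/
structure QA : Prop where
  add : ∀ {h a b c d}, IsQ h a c → IsQ h b d → IsQ h (a + b) (c + d)
  neg : ∀ {h a c}, IsQ h a c → IsQ h (-a) (-c)
  smul : ∀ {h a c} (z : ℂ), IsQ h a c → IsQ h (z • a) (z • c)
  const : ∀ h (z : ℂ), IsQ h (fun _ => z) (HahnSeries.C z)
  single : ∀ h (k : ℤ), IsQ h (fun τ => ee (k * τ / h)) (HahnSeries.single k 1)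
  mul : ∀ {h a b c d}, 0 < h → IsQ h a c → IsQ h b d → IsQ h (a * b) (c * d)
  pow : ∀ {h a c} (k : ℕ), 0 < h → IsQ h a c → IsQ h (a ^ k) (c ^ k)
  sum : ∀ {h} {ι : Type} (s : Finset ι) (a : ι → ℍ → ℂ) (c : ι → LS),
    (∀ i ∈ s, IsQ h (a i) (c i)) → IsQ h (∑ i ∈ s, a i) (∑ i ∈ s, c i)
  prod : ∀ {h} {ι : Type} (s : Finset ι) (a : ι → ℍ → ℂ) (c : ι → LS), 0 < h →
    (∀ i ∈ s, IsQ h (a i) (c i)) → IsQ h (∏ i ∈ s, a i) (∏ i ∈ s, c i)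
  unique : ∀ {h a c d}, 0 < h → IsQ h a c → IsQ h a d → c = d
  hol : ∀ {h a c}, 0 < h → IsQ h a c → Hol a
  gr_of_coeff : ∀ {h a c} (κ : ℝ), 0 < h → IsQ h a c →
    (∀ n : ℤ, (n : ℝ) < -κ * h → c.coeff n = 0) → Gr κ a
  coeff_of_gr : ∀ {h a c} (κ : ℝ), 0 < h → IsQ h a c → Gr κ a →
    ∀ n : ℤ, (n : ℝ) < -κ * h → c.coeff n = 0
  expG : ∀ {h a c}, 0 < h → IsQ h a c → ExpG a
  tendsto : ∀ {h a c}, 0 < h → IsQ h a c → (∀ n < 0, c.coeff n = 0) →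
    Tendsto a atImInfty (nhds (c.coeff 0))
  exists_q : ∀ {h : ℕ} {a}, 0 < h → Hol a → (∀ τ, a (ModularGroup.T ^ (h : ℤ) • τ) = a τ) →
    ExpG a → HasQ h a
  deriv : ∀ {h a c}, 0 < h → IsQ h a c →
    ∃ c', IsQ h (dd a) c' ∧ ∀ n : ℤ, c'.coeff n = n / h * c.coeff n
  exists_sub : ∀ (k : ℕ) (ω : ℂ) (c : LS), 0 < k → ∃ c', IsSub k ω c c'
  comp : ∀ {h h' k : ℕ} {w c c'} {a b d : ℤ}, 0 < h → 0 < h' → 0 < a → 0 < d →
    a * h' = k * (h * d) → IsQ h w c → IsSub k (ee (b / (h * d))) c c' →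
    IsQ h' (fun τ => w (mob !![a, b; 0, d] τ)) c'
  level : ∀ {h k : ℕ} {w c c'}, 0 < h → 0 < k → IsSub k 1 c c' → (IsQ (k * h) w c' ↔ IsQ h w c)
  quot : ∀ {h a b c d g}, 0 < h → IsQ h a c → IsQ h b d → b ≠ 0 → Hol g → g * b = a →
    IsQ h g (c / d)
  ratL : ∃ K : Subfield LS, ∀ c, c ∈ K ↔ RatL c
  algL : ∃ K : Subfield LS, ∀ c, c ∈ K ↔ AlgL c
  proj : ∀ (t : ℂ →ₗ[ℚ] ℚ) (c : LS), ∃ c' : LS, ∀ n, c'.coeff n = t (c.coeff n)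

/-- Module QB: the classical forms of level one and the ring of modular functions. -/
structure QB : Prop where
  et_hol : Hol et
  et_ne : ∀ τ, et τ ≠ 0
  et_T : ∀ τ, et (ModularGroup.T • τ) = ee (1 / 24) * et τ
  et_S : ∀ τ, et (ModularGroup.S • τ) = sqr τ * et τ
  sqr_sq : ∀ τ, sqr τ ^ 2 = -Complex.I * τ
  et_norm : ∀ (γ : SL2) (τ : ℍ),
    ‖et (γ • τ)‖ ^ 2 = ‖((γ : M2) 1 0 : ℂ) * τ + (γ : M2) 1 1‖ * ‖et τ‖ ^ 2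
  et_q : ∃ c, IsQ 24 et c ∧ RatL c ∧ c.coeff 1 = 1 ∧ ∀ n < 1, c.coeff n = 0
  rq_level : ∀ {h h' : ℕ} {w}, 0 < h' → h ∣ h' → RQ h w → RQ h' w
  hasQ_level : ∀ {h h' : ℕ} {w}, 0 < h' → h ∣ h' → HasQ h w → HasQ h' w
  e4_q : RQ 1 ModularForm.E₄
  e6_q : RQ 1 ModularForm.E₆
  delta_q : ∃ c, IsQ 1 ModularForm.discriminant c ∧ RatL c ∧ c.coeff 1 = 1 ∧
    ∀ n < 1, c.coeff n = 0
  j_q : ∃ c, IsQ 1 jf c ∧ RatL c ∧ c.coeff (-1) = 1 ∧ ∀ n < -1, c.coeff n = 0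
  j_mod : jf ∈ Mod 1
  j_inv : ∀ (γ : SL2) τ, jf (γ • τ) = jf τ
  gr_upper : ∀ {κ : ℝ} {w} {a b d : ℤ}, 0 < a → 0 < d → Gr κ w →
    Gr (κ * a / d) fun τ => w (mob !![a, b; 0, d] τ)
  mod_q : ∀ {N w}, 0 < N → w ∈ Mod N → HasQ N w
  mod_level : ∀ {N N' w}, N ∣ N' → w ∈ Mod N → w ∈ Mod N'
  mod_mob : ∀ {N : ℕ} {w} {A : M2}, 0 < A.det → w ∈ Mod N →
    (fun τ => w (mob A τ)) ∈ Mod (N * A.det.toNat)
  mod_one : ∀ {w}, Hol w → ExpG w → (∀ τ, w (ModularGroup.S • τ) = w τ) →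
    (∀ τ, w (ModularGroup.T • τ) = w τ) → w ∈ Mod 1
  mod_quot : ∀ {N a b g}, 0 < N → a ∈ Mod N → b ∈ Mod N → b ≠ 0 → Hol g → g * b = a → g ∈ Mod N
  generic : ∀ {ι : Type} (s : Finset ι) (w : ι → ℍ → ℂ), (∀ i ∈ s, Hol (w i) ∧ w i ≠ 0) →
    ∃ τ, ∀ i ∈ s, w i τ ≠ 0

/-- Module JA: level one. -/
structure JA : Prop where
  poly : ∀ w ∈ Mod 1, ∃ p : Polynomial ℂ, ∀ τ, w τ = p.eval (jf τ)
  surj : Function.Surjective jf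
  char : ∀ {g : ℍ → ℂ} {σ ε : ℂ}, g ≠ 0 → (∀ τ, g (ModularGroup.S • τ) = σ * g τ) →
    (∀ τ, g (ModularGroup.T • τ) = ε * g τ) → σ ^ 2 = 1 ∧ ε ^ 6 = 1
  scal : ∀ {h : ℕ} {g : ℍ → ℂ} {σ ε : ℂ}, 0 < h → 24 ∣ h → HasQ h g →
    (∀ τ, g (ModularGroup.S • τ) = σ * g τ) → (∀ τ, g (ModularGroup.T • τ) = ε * g τ) →
    g ∈ Submodule.span ℂ {g' : ℍ → ℂ | RQ h g' ∧ (∀ τ, g' (ModularGroup.S • τ) = σ * g' τ) ∧
      ∀ τ, g' (ModularGroup.T • τ) = ε * g' τ}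

/-- Module JC: integrality over `ℚ[j]`. -/
structure JC : Prop where
  charpoly : ∀ {N w}, 0 < N → w ∈ Mod N → ∃ Φ : Polynomial (Polynomial ℂ), Φ.Monic ∧
    ∀ τ, (Φ.map (Polynomial.evalRingHom (jf τ))).eval (w τ) = 0
  intJ : ∀ {N w c}, 0 < N → w ∈ Mod N → IsQ N w c → AlgL c → IntJ w
  intJ_mob : ∀ {w} {A : M2}, 0 < A.det → IntJ w → IntJ fun τ => w (mob A τ)
  alg_zero : ∀ {w τ}, Hol w → IntJ w → w ≠ 0 → w τ = 0 → IsAlgebraic ℚ (jf τ)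
  alg_val : ∀ {w τ}, IntJ w → IsAlgebraic ℚ (jf τ) → IsAlgebraic ℚ (w τ)
  alg_cm : ∀ (A B C : ℤ) (τ : ℍ), A ≠ 0 → (A : ℂ) * (τ : ℂ) ^ 2 + B * τ + C = 0 →
    IsAlgebraic ℚ (jf τ)

/-- Module JB: `j` separates orbits, and its order of vanishing. -/
structure JB : Prop where
  inj : ∀ τ σ : ℍ, jf τ = jf σ → ∃ γ : SL2, γ • τ = σ
  stab_fin : ∀ τ : ℍ, Finite (MulAction.stabilizer SL2 τ)
  ord_j : ∀ τ : ℍ, 2 * ordE (fun σ => jf σ - jf τ) τ = Nat.card (MulAction.stabilizer SL2 τ)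
  ord_diag : ∀ (x : M2) (τ : ℍ), 0 < x.det → mob x τ = τ →
    (∀ (γ : SL2) (k : ℤ), x ≠ k • (γ : M2)) →
    ordE (fun σ => jf σ - jf (mob x σ)) τ = ordE (fun σ => jf σ - jf τ) τ
  e6_zero : ∀ (γ : SL2) (τ : ℍ), γ • τ = τ → (γ : M2).trace = 0 → ModularForm.E₆ τ = 0
  e4_zero : ∀ (γ : SL2) (τ : ℍ), γ • τ = τ → (γ : M2).trace = 1 → ModularForm.E₄ τ = 0

/-! ### Theta constants -/

/-- Module THA. -/
structure THA : Prop where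
  hol : Hol th00 ∧ Hol th01 ∧ Hol th10
  hasQ : HasQ 8 th00 ∧ HasQ 8 th01 ∧ HasQ 8 th10
  lawT : ∀ τ, th00 (ModularGroup.T • τ) = th01 τ ∧ th01 (ModularGroup.T • τ) = th00 τ ∧
    th10 (ModularGroup.T • τ) = ee (1 / 8) * th10 τ
  lawS : ∀ τ, th00 (ModularGroup.S • τ) = sqr τ * th00 τ ∧
    th01 (ModularGroup.S • τ) = sqr τ * th10 τ ∧ th10 (ModularGroup.S • τ) = sqr τ * th01 τ
  jacobi : ∀ τ, th00 τ ^ 4 = th01 τ ^ 4 + th10 τ ^ 4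
  ne : ∀ τ, th00 τ ≠ 0 ∧ th01 τ ≠ 0 ∧ th10 τ ≠ 0
  curve : ∀ τ, uY τ ^ 2 = uX τ ^ 3 - uX τ
  jrel : ∀ τ, jf τ * (uX τ ^ 4 * (uX τ ^ 2 - 1) ^ 2) = 256 * (uX τ ^ 4 - uX τ ^ 2 + 1) ^ 3
  e4 : ∀ τ, ModularForm.E₄ τ = 0 → uX τ ^ 4 - uX τ ^ 2 + 1 = 0
  e6 : ∀ τ, ModularForm.E₆ τ = 0 → (uX τ ^ 2 + 1) * (2 * uX τ ^ 2 - 1) * (uX τ ^ 2 - 2) = 0

/-- Module THB. -/
structure THB : Prop where
  modX : uX ∈ Mod 8
  modY : uY ∈ Mod 8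
  intX : IntJ uX
  intY : IntJ uY

/-! ### Representatives of orbits -/

/-- `R` is a set of representatives of the classes of `S`. -/
def IsRep {X : Type} (r : X → X → Prop) (S : Set X) (R : Finset X) : Prop :=
  (∀ x ∈ R, x ∈ S) ∧ ∀ x ∈ S, ∃! y, y ∈ R ∧ r x y

/-- The sum of `f` over the classes of `S` vanishes. -/
def Van {X V : Type} [AddCommGroup V] (r : X → X → Prop) (S : Set X) (f : X → V) : Prop :=
  ∀ R, IsRep r S R → ∑ x ∈ R, f x = 0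

/-- Hermite normal forms of determinant `m`. -/
def Herm (m : ℕ) : Finset M2 :=
  m.divisorsAntidiagonal.biUnion fun p =>
    (Finset.range p.2).image fun l : ℕ => !![(p.1 : ℤ), (l : ℤ); 0, (p.2 : ℤ)]

/-- Non scalar integral matrices that fix `t`. -/
def Fix (t : ℍ) : Set M2 :=
  {x | x 1 0 ≠ 0 ∧ (x 1 0 : ℂ) * (t : ℂ) ^ 2 + ((x 1 1 : ℂ) - x 0 0) * t - x 0 1 = 0}

/-- Module OS. -/
structure OS : Prop where
  sum_eq : ∀ {X V : Type} [AddCommGroup V] {r : X → X → Prop} {S R R'} {f : X → V},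
    Equivalence r → IsRep r S R → IsRep r S R' → (∀ x ∈ S, ∀ y ∈ S, r x y → f x = f y) →
    ∑ x ∈ R, f x = ∑ x ∈ R', f x
  exists_rep : ∀ {X : Type} {r : X → X → Prop} {S : Set X} {T : Set X}, Equivalence r →
    T.Finite → (∀ x ∈ S, ∃ y ∈ T, y ∈ S ∧ r x y) → ∃ R, IsRep r S R
  transport : ∀ {X Y : Type} {r : X → X → Prop} {r' : Y → Y → Prop} {S S' R} (φ : X → Y),
    Equivalence r → Equivalence r' → (∀ x ∈ S, φ x ∈ S') → (∀ y ∈ S', ∃ x ∈ S, r' y (φ x)) →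
    (∀ x ∈ S, ∀ x' ∈ S, r x x' ↔ r' (φ x) (φ x')) → IsRep r S R →
    IsRep r' S' (R.image φ) ∧ Set.InjOn φ R
  van_transport : ∀ {X Y V : Type} [AddCommGroup V] {r : X → X → Prop} {r' : Y → Y → Prop} {S S'}
    (φ : X → Y) (f : Y → V), Equivalence r → Equivalence r' → (∀ x ∈ S, φ x ∈ S') →
    (∀ y ∈ S', ∃ x ∈ S, r' y (φ x)) → (∀ x ∈ S, ∀ x' ∈ S, r x x' ↔ r' (φ x) (φ x')) →
    (∀ x ∈ S', ∀ y ∈ S', r' x y → f x = f y) → (Van r S (fun x => f (φ x)) ↔ Van r' S' f)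
  filter : ∀ {X : Type} {r : X → X → Prop} {S S' : Set X} {R}, S' ⊆ S →
    (∀ x ∈ S', ∀ y ∈ S, r x y → y ∈ S') → IsRep r S R → IsRep r S' (R.filter (· ∈ S'))
  van_of_parts : ∀ {X V I : Type} [AddCommGroup V] {r : X → X → Prop} {S : Set X} (f : X → V)
    (k : X → I), (∀ x ∈ S, ∀ y ∈ S, r x y → k x = k y) →
    (∀ i, Van r {x | x ∈ S ∧ k x = i} f) → Van r S f
  van_diff : ∀ {X V : Type} [AddCommGroup V] {r : X → X → Prop} {S S' : Set X} (f : X → V),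
    Equivalence r → S' ⊆ S → (∀ x ∈ S', ∀ y ∈ S, r x y → y ∈ S') → (∃ R, IsRep r S R) →
    Van r S f → Van r S' f → Van r (S \ S') f
  index : ∀ {H X : Type} [Group H] (act : H → X → X) {K L : Subgroup H} {S : Set X} {R},
    (∀ x, act 1 x = x) → (∀ g g' x, act (g * g') x = act g (act g' x)) → K ≤ L →
    K.relIndex L ≠ 0 → (∀ g ∈ L, ∀ x ∈ S, act g x ∈ S) → (∀ g ∈ L, ∀ x ∈ S, act g x = x → g = 1) →
    IsRep (fun x y => ∃ g ∈ L, act g x = y) S R →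
    ∃ R', IsRep (fun x y => ∃ g ∈ K, act g x = y) S R' ∧
      ∀ {V : Type} [AddCommGroup V] (f : X → V), (∀ g ∈ L, ∀ x ∈ S, f (act g x) = f x) →
        ∑ x ∈ R', f x = K.relIndex L • ∑ x ∈ R, f x

/-- Module ORB. -/
structure ORB : Prop where
  mem_herm : ∀ (m : ℕ) (A : M2), A ∈ Herm m ↔
    A 1 0 = 0 ∧ 0 < A 0 0 ∧ 0 ≤ A 0 1 ∧ A 0 1 < A 1 1 ∧ A 0 0 * A 1 1 = m
  herm : ∀ (m : ℕ) (A : M2), 0 < m → A.det = m → ∃! B, B ∈ Herm m ∧ ∃ γ : SL2, A = γ * B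
  herm_prod : ∀ {M : Type} [CommMonoid M] (m : ℕ) (Φ : M2 → M) (g : SL2),
    (∀ (γ : SL2) (A : M2), A.det = m → Φ (γ * A) = Φ A) →
    ∏ A ∈ Herm m, Φ (A * g) = ∏ A ∈ Herm m, Φ A
  herm_sum : ∀ {M : Type} [AddCommMonoid M] (m : ℕ) (Φ : M2 → M) (g : SL2),
    (∀ (γ : SL2) (A : M2), A.det = m → Φ (γ * A) = Φ A) →
    ∑ A ∈ Herm m, Φ (A * g) = ∑ A ∈ Herm m, Φ A
  sum_herm : ∀ {M : Type} [AddCommMonoid M] (m : ℕ) (Φ : M2 → M), ∑ A ∈ Herm m, Φ A =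
    ∑ p ∈ m.divisorsAntidiagonal, ∑ l ∈ Finset.range p.2, Φ !![(p.1 : ℤ), (l : ℤ); 0, (p.2 : ℤ)]
  prod_herm : ∀ {M : Type} [CommMonoid M] (m : ℕ) (Φ : M2 → M), ∏ A ∈ Herm m, Φ A =
    ∏ p ∈ m.divisorsAntidiagonal, ∏ l ∈ Finset.range p.2, Φ !![(p.1 : ℤ), (l : ℤ); 0, (p.2 : ℤ)]
  content : ∀ x : M2, x ≠ 0 → ∃! p : ℕ × M2, 0 < p.1 ∧ Prim p.2 ∧ x = (p.1 : ℤ) • p.2
  prim_mul : ∀ (x : M2) (g g' : SL2), Prim x → Prim (g * x * g')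
  smith : ∀ (j : ℕ) (α : M2), 0 < j → α.det = j → Prim α →
    ∃ g1 g2 : SL2, α * g1 = g2 * dg j 1
  one_orbit : ∀ (j : ℕ) (α : M2), 0 < j → α.det = j → Prim α → red 8 α = red 8 (dg j 1) →
    ∃ g1 ∈ Gam 8, ∃ g2 ∈ Gam 8, α * g1 = g2 * dg j 1
  fin_cm : ∀ (N : ℕ) (D : ℤ), 0 < N → D < 0 → ∃ T : Finset ℍ, ∀ (τ : ℍ) (A B C : ℤ),
    B ^ 2 - 4 * A * C = D → (A : ℂ) * (τ : ℂ) ^ 2 + B * τ + C = 0 → ∃ g ∈ Gam N, g • τ ∈ T
  fin_form : ∀ (D : ℤ) (τ : ℍ), {q : ℤ × ℤ × ℤ | q.2.1 ^ 2 - 4 * q.1 * q.2.2 = D ∧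
    (q.1 : ℂ) * (τ : ℂ) ^ 2 + q.2.1 * τ + q.2.2 = 0}.Finite
  fin_hom : ∀ (j : ℤ) (τ σ : ℍ), 0 < j → {α : M2 | α.det = j ∧ mob α τ = σ}.Finite
  fix_det : ∀ (t : ℍ) (x : M2), x ∈ Fix t → 0 < x.det
  fin_fix : ∀ (t : ℍ) (M : ℤ), {x | x ∈ Fix t ∧ x.det ≤ M}.Finite
  free : ∀ (N : ℕ) (g : SL2) (τ : ℍ), 3 ≤ N → g ∈ Gam N → g • τ = τ → g = 1

/-! ### The symbol and the reciprocity law -/

/-- Points of `y^2 = x^3 - x` over the algebraic numbers. -/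
abbrev EQ : Type := (legendre (-1 : Qbar)).Point

/-- The point with given coordinates. -/
noncomputable def ptq (x y : Qbar) : EQ :=
  if h : (legendre (-1 : Qbar)).Nonsingular x y then .some x y h else 0

/-- The algebraic number with given complex value. -/
noncomputable def qv (ι : Qbar →+* ℂ) (z : ℂ) : Qbar := if h : ∃ x, ι x = z then h.choose else 0

/-- The point with given complex coordinates. -/
noncomputable def ptc (ι : Qbar →+* ℂ) (x y : ℂ) : EQ := ptq (qv ι x) (qv ι y)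

/-- The modular parametrisation at algebraic points. -/
noncomputable def uQ (ι : Qbar →+* ℂ) (τ : ℍ) : EQ := ptc ι (uX τ) (uY τ)

/-- Equivalence modulo `Γ(N)`. -/
def relG (N : ℕ) (τ σ : ℍ) : Prop := ∃ γ ∈ Gam N, γ • τ = σ

section Sym

variable {V : Type} [AddCommGroup V]

/-- Reciprocity on an abstract curve. -/
def RecAbs (β : EQ →+ EQ →+ V) : Prop :=
  ∀ (F : Type) [Field F] [Algebra Qbar F], IsCurveField F → ∀ x1 y1 x2 y2 h : F,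
    y1 ^ 2 = x1 ^ 3 - x1 → y2 ^ 2 = x2 ^ 3 - x2 → h ≠ 0 →
    ∀ (S : Finset (ValuationSubring F)) (a b a' b' : ValuationSubring F → Qbar),
      (∀ W ∈ S, IsPlace W ∧ Sp W x1 (a W) ∧ Sp W y1 (b W) ∧ Sp W x2 (a' W) ∧ Sp W y2 (b' W)) →
      (∀ W, IsPlace W → W ∉ S → ordAt W h ≠ 0 → x1 ∉ W ∨ Sp W y1 0) →
      ∑ W ∈ S, ordAt W h • β (ptq (a W) (b W)) (ptq (a' W) (b' W)) = 0

/-- The properties of the symbol. -/
structure Sym (β : EQ →+ EQ →+ V) : Prop where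
  tf : ∀ (k : ℤ) (v : V), k ≠ 0 → k • v = 0 → v = 0
  same : ∀ x y y', β (ptq x y) (ptq x y') = 0
  opp : ∀ x y y', β (ptq x y) (ptq (-x) y') = 0
  recip : RecAbs β

/-- Reciprocity on a modular curve. -/
def RecAn (ι : Qbar →+* ℂ) (β : EQ →+ EQ →+ V) : Prop :=
  ∀ (N : ℕ) (a x1 y1 x2 y2 : ℍ → ℂ), 3 ≤ N → (∀ w ∈ [a, x1, y1, x2, y2], w ∈ Mod N ∧ IntJ w) →
    a ≠ 0 → (∀ τ, y1 τ ^ 2 = x1 τ ^ 3 - x1 τ) → (∀ τ, y2 τ ^ 2 = x2 τ ^ 3 - x2 τ) →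
    (∀ τ, jf τ * (x1 τ ^ 4 * (x1 τ ^ 2 - 1) ^ 2) = 256 * (x1 τ ^ 4 - x1 τ ^ 2 + 1) ^ 3) →
    Van (relG N) {τ | a τ = 0}
      fun τ => (ord a τ : ℤ) • β (ptc ι (x1 τ) (y1 τ)) (ptc ι (x2 τ) (y2 τ))

end Sym

/-- Module KUM. -/
def KumStmt : Prop :=
  ∀ (G : Type) [AddCommGroup G] (γ : Qbar → Qbar → Qbar → G),
    (∀ (k : ℤ) (v : G), k ≠ 0 → k • v = 0 → v = 0) → CurveRel (-1) (-1) γ →
    ∃ (κ : G) (β : EQ →+ EQ →+ G), Sym β ∧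
      (∀ (x y u w : Qbar) (h : (legendre (-1 : Qbar)).Nonsingular x y)
        (h' : (legendre (-1 : Qbar)).Nonsingular u w), y * w ≠ 0 →
        γ x u (y * w) = κ + β (.some x y h) (.some u w h')) ∧
      ∀ t r : Qbar, r ^ 2 = fl (-1) t * fl (-1) t → r ≠ 0 → γ t t r = κ

/-- Module MODF: the function field of the modular curve over the algebraic numbers. -/
def ModfStmt : Prop :=
  ∀ (ι : Qbar →+* ℂ) (N : ℕ), 3 ≤ N →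
    ∃ (F : Type) (_ : Field F) (_ : Algebra Qbar F) (A : Subring (ℍ → ℂ)) (φ : A →+* F)
      (V : ℍ → ValuationSubring F) (κ : ℕ),
      IsCurveField F ∧ (∀ w, w ∈ A ↔ w ∈ Mod N ∧ IntJ w) ∧ Function.Injective φ ∧ 0 < κ ∧
      (∀ τ, IsAlgebraic ℚ (jf τ) → IsPlace (V τ) ∧ ∀ w : A, Sp (V τ) (φ w) (qv ι (w.1 τ))) ∧
      (∀ W : ValuationSubring F, IsPlace W → (∀ w : A, w.1 = jf → φ w ∈ W) →
        ∃ τ, IsAlgebraic ℚ (jf τ) ∧ W = V τ) ∧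
      ∀ (a : A) (R : Finset ℍ) (τ₀ : ℍ), a ≠ 0 → IsRep (relG N) {τ | a.1 τ = 0} R →
        IsAlgebraic ℚ (jf τ₀) →
        (κ : ℤ) * ordAt (V τ₀) (φ a) = 2 * ∑ τ ∈ R with V τ = V τ₀, (ord a.1 τ : ℤ)

/-- Module REC. -/
structure REC : Prop where
  recAn : ∀ (ι : Qbar →+* ℂ) {V : Type} [AddCommGroup V] (β : EQ →+ EQ →+ V), Sym β → RecAn ι β
  finz : ∀ (N : ℕ) (a : ℍ → ℂ), 0 < N → a ∈ Mod N → a ≠ 0 →
    ∃ R, IsRep (relG N) {τ | a τ = 0} R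
  qv_spec : ∀ (ι : Qbar →+* ℂ) (z : ℂ), IsAlgebraic ℚ z → ι (qv ι z) = z
  uQ_spec : ∀ (ι : Qbar →+* ℂ) (τ : ℍ), IsAlgebraic ℚ (jf τ) →
    ∃ x y h, uQ ι τ = .some x y h ∧ ι x = uX τ ∧ ι y = uY τ
  base : ∀ (ι : Qbar →+* ℂ) {V : Type} [AddCommGroup V] (β : EQ →+ EQ →+ V), Sym β →
    ∀ (τ : ℍ) (g γ1 γ2 : SL2), g • τ = τ → ((g : M2).trace = 0 ∨ (g : M2).trace = 1) →
    β (uQ ι (γ1 • τ)) (uQ ι (γ2 • τ)) = 0

/-! ### Special cycles -/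

/-- The matrix of the form `[j c, ρ, -b]`. -/
def ymat (j : ℕ) (b c ρ : ℤ) : M2 := !![-ρ, 2 * b; 2 * j * c, ρ]

/-- Classes of forms. -/
abbrev Cls (j : ℕ) : Type := ZMod 8 × ZMod 8 × ZMod (16 * j)

/-- The class of a form. -/
def cls (j : ℕ) (b c ρ : ℤ) : Cls j := ((b : ZMod 8), (c : ZMod 8), (ρ : ZMod (16 * j)))

/-- Forms of discriminant `D` in the class `v`, with their root. -/
def FSet (j : ℕ) (D : ℤ) (v : Cls j) : Set (M2 × ℍ) :=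
  {p | ∃ b c ρ : ℤ, p.1 = ymat j b c ρ ∧ ρ ^ 2 + 4 * j * b * c = D ∧ cls j b c ρ = v ∧
    ((j : ℂ) * c) * (p.2 : ℂ) ^ 2 + ρ * p.2 - b = 0}

/-- The action on forms. -/
noncomputable def cact (g : SL2) (p : M2 × ℍ) : M2 × ℍ :=
  ((g : M2) * p.1 * ((g⁻¹ : SL2) : M2), g • p.2)

/-- The level group of the curve of determinant `j`. -/
def Gj (j : ℕ) : Subgroup SL2 := Gam 8 ⊓ CongruenceSubgroup.Gamma0 (8 * j)

/-- Equivalence of forms. -/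
def relC (L : Subgroup SL2) (p q : M2 × ℍ) : Prop := ∃ g ∈ L, cact g p = q

/-- Pairs of matrices with given Gram matrix and residues, with their common point. -/
def ZSet (n r j : ℤ) (a b : MN 8) : Set (M2 × M2 × ℍ) :=
  {p | p.1.det = j ∧ p.2.1.det = n ∧ (p.1.adjugate * p.2.1).trace = r ∧ red 8 p.1 = a ∧
    red 8 p.2.1 = b ∧ mob p.1 p.2.2 = mob p.2.1 p.2.2}

/-- Equivalence of pairs. -/
def relZ (p q : M2 × M2 × ℍ) : Prop :=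
  ∃ g1 ∈ Gam 8, ∃ g2 ∈ Gam 8, q.1 * (g1 : M2) = g2 * p.1 ∧ q.2.1 * (g1 : M2) = g2 * p.2.1 ∧
    q.2.2 = g1 • p.2.2

section Cyc

variable {V : Type} [AddCommGroup V]

/-- Invariance under `Γ(8) × Γ(8)`. -/
def Inv8 (s : ℍ → ℍ → V) : Prop :=
  ∀ g1 ∈ Gam 8, ∀ g2 ∈ Gam 8, ∀ τ σ, s (g1 • τ) (g2 • σ) = s τ σ

/-- The Heegner divisor of discriminant `D` and class `v` on the curve of determinant `j` dies. -/
def AVan (s : ℍ → ℍ → V) (j : ℕ) (γ1 γ2 : SL2) (D : ℤ) (v : Cls j) : Prop :=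
  Van (relC (Gj j)) (FSet j D v) fun p => s (γ1 • p.2) (γ2 • mob (dg j 1) p.2)

/-- The relations between Heegner divisors. -/
def Rel (s : ℍ → ℍ → V) : Prop :=
  ∀ (j : ℕ) (γ1 γ2 : SL2) (D₀ : ℤ) (v₀ : Cls j), 0 < j → 3 * D₀ < -16 * j →
    (∀ D v, D₀ < D → D < 0 → AVan s j γ1 γ2 D v) → AVan s j γ1 γ2 D₀ v₀

/-- The symbol vanishes at elliptic points. -/
def Base (s : ℍ → ℍ → V) : Prop :=
  ∀ (τ : ℍ) (g γ1 γ2 : SL2), g • τ = τ → ((g : M2).trace = 0 ∨ (g : M2).trace = 1) →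
    s (γ1 • τ) (γ2 • τ) = 0

/-- All special zero-cycles die. -/
def ZVan (s : ℍ → ℍ → V) : Prop :=
  ∀ (n r j : ℤ) (a b : MN 8) (γ1 γ2 : SL2), 0 < j → r ^ 2 < 4 * n * j →
    Van relZ (ZSet n r j a b) fun p => s (γ1 • p.2.2) (γ2 • mob p.1 p.2.2)

end Cyc

/-- Module FS: elementary facts on the sets of forms and pairs. -/
structure FS : Prop where
  cact_one : ∀ p, cact 1 p = p
  cact_mul : ∀ g g' p, cact (g * g') p = cact g (cact g' p)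
  relC_equiv : ∀ L, Equivalence (relC L)
  relG_equiv : ∀ N, Equivalence (relG N)
  relZ_equiv : Equivalence relZ
  fset_inv : ∀ (j : ℕ) D v, 0 < j → ∀ g ∈ Gj j, ∀ p ∈ FSet j D v, cact g p ∈ FSet j D v
  fset_fin : ∀ (j : ℕ) D v, 0 < j → D < 0 → ∃ R, IsRep (relC (Gj j)) (FSet j D v) R
  gj_conj : ∀ (j : ℕ), 0 < j → ∀ g ∈ Gj j, ∃ g' ∈ Gam 8, dg j 1 * (g : M2) = g' * dg j 1
  gj_of_conj : ∀ (j : ℕ), 0 < j → ∀ g ∈ Gam 8, ∀ g' ∈ Gam 8,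
    dg j 1 * (g : M2) = g' * dg j 1 → g ∈ Gj j
  zset_inv : ∀ n r j a b, 0 < j → 0 < n → ∀ p ∈ ZSet n r j a b, ∀ q, relZ p q → q ∈ ZSet n r j a b
  zset_fin : ∀ n r j a b, 0 < j → r ^ 2 < 4 * n * j → ∃ R, IsRep relZ (ZSet n r j a b) R
  fset_neg : ∀ (j : ℕ) D (v : Cls j) R, IsRep (relC (Gj j)) (FSet j D v) R →
    IsRep (relC (Gj j)) (FSet j D (-v)) (R.image fun p => (-p.1, p.2))

/-- Module ZIND. -/
def ZindStmt : Prop :=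
  ∀ {V : Type} [AddCommGroup V] (s : ℍ → ℍ → V), Inv8 s → Rel s → Base s → ZVan s

/-- Module HEEG. -/
def HeegStmt : Prop :=
  ∀ {E V : Type} [AddCommGroup E] [AddCommGroup V] (β : E →+ E →+ V) (U : ℍ → E),
    (∀ (k : ℤ) (v : V), k ≠ 0 → k • v = 0 → v = 0) → (∀ g ∈ Gam 8, ∀ τ, U (g • τ) = U τ) →
    ZVan (fun τ σ => β (U τ) (U σ)) →
    ∀ (n : ℕ) (R : Finset (ℤ × ℍ)), Squarefree n → n % 8 = 7 → IsHeegnerReps n R →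
    ∀ γ1 γ2 : SL2, β (∑ p ∈ R, (ZMod.χ₄ (p.1 : ZMod 4) : ℤ) • U (γ1 • p.2))
      (∑ p ∈ R, (ZMod.χ₄ (p.1 : ZMod 4) : ℤ) • U (γ2 • p.2)) = 0

/-! ### Vector valued functions -/

/-- Vector valued modular functions with given `S` and `T` laws. -/
structure VV {ι : Type} [Fintype ι] (h : ℕ) (S T : Matrix ι ι ℂ) (ψ : ι → ℍ → ℂ) : Prop where
  q : ∀ i, HasQ h (ψ i)
  s : ∀ τ, (fun i => ψ i (ModularGroup.S • τ)) = S *ᵥ fun i => ψ i τ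
  t : ∀ τ, (fun i => ψ i (ModularGroup.T • τ)) = T *ᵥ fun i => ψ i τ

/-- Twisted rational functions span the space at every point. -/
def Good {ι : Type} [Fintype ι] (h : ℕ) (S T : Matrix ι ι ℂ) : Prop :=
  ∀ (τ : ℍ) (l : ι → ℂ), (∀ (σ ε : ℂ) (ψ : ι → ℍ → ℂ), σ ≠ 0 → ε ≠ 0 → VV h (σ • S) (ε • T) ψ →
    (∀ i, RQ h (ψ i)) → l ⬝ᵥ (fun i => ψ i τ) = 0) → l = 0

/-- Module GEN. -/
structure GEN : Prop where
  rat : ∀ {ι : Type} [Fintype ι] {h : ℕ} {S T : Matrix ι ι ℂ} {φ : ι → ℍ → ℂ}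
    (t : ℂ →ₗ[ℚ] ℚ), 0 < h → 24 ∣ h → Good h S T → VV h S T φ →
    ∃ φ', VV h S T φ' ∧ ∀ i (c c' : LS), IsQ h (φ i) c → (∀ n, c'.coeff n = t (c.coeff n)) →
      IsQ h (φ' i) c'
  dual : ∀ {ι : Type} [Fintype ι] {h : ℕ} {S T S' T' : Matrix ι ι ℂ}, 0 < h →
    S'ᵀ * S = 1 → T'ᵀ * T = 1 → Good h S T → Good h S' T'
  tensor : ∀ {ι ι' : Type} [Fintype ι] [Fintype ι'] {h : ℕ} {S T : Matrix ι ι ℂ}
    {S' T' : Matrix ι' ι' ℂ}, 0 < h → Good h S T → Good h S' T' → Good h (S ⊗ₖ S') (T ⊗ₖ T')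
  map : ∀ {ι ι' : Type} [Fintype ι] [Fintype ι'] {h : ℕ} {S T : Matrix ι ι ℂ}
    {S' T' : Matrix ι' ι' ℂ} (P : Matrix ι' ι ℂ), 0 < h → (∀ i k, ∃ q : ℚ, P i k = q) →
    (∀ l : ι' → ℂ, l ᵥ* P = 0 → l = 0) → P * S = S' * P → P * T = T' * P →
    Good h S T → Good h S' T'
  xi : ∀ {ι : Type} [Fintype ι] {h : ℕ} {S T S' T' : Matrix ι ι ℂ} {ϑ : ι → ℍ → ℂ}, 0 < h →
    S'ᵀ * S = 1 → T'ᵀ * T = 1 → Good h S' T' → VV h S T ϑ → (∀ τ, ∃ i, ϑ i τ ≠ 0) →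
    ∃ ξ, VV h S' T' ξ ∧ ∀ τ, ∑ i, ξ i τ * ϑ i τ = 1

/-- The unary theta series of index `k / 2`. -/
noncomputable def thm (k : ℕ) (r : ZMod k) (τ : ℍ) : ℂ :=
  ∑' n : ℤ, if (n : ZMod k) = r then ee (n ^ 2 * τ / (2 * k)) else 0

/-- The `S` matrix of the unary theta series; `e = -1` gives the dual. -/
noncomputable def Sm (k : ℕ) (e : ℤ) : Matrix (ZMod k) (ZMod k) ℂ :=
  fun r r' => (Real.sqrt k : ℂ)⁻¹ * ee (-e * (r.val * r'.val) / k)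

/-- The `T` matrix of the unary theta series divided by eta; `e = -1` gives the dual. -/
noncomputable def Tm (k : ℕ) (e : ℤ) : Matrix (ZMod k) (ZMod k) ℂ :=
  Matrix.diagonal fun r => ee (e * (r.val ^ 2 / (2 * k) - 1 / 24))

/-- Module THM. -/
structure THM : Prop where
  vv : ∀ (k h : ℕ) [NeZero k], Even k → 0 < h → 24 ∣ h → 2 * k ∣ h →
    VV h (Sm k 1) (Tm k 1) fun r τ => thm k r τ / et τ
  good : ∀ (k h : ℕ) [NeZero k], Even k → 0 < h → 24 ∣ h → 2 * k ∣ h → Good h (Sm k 1) (Tm k 1)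
  dualS : ∀ (k : ℕ) [NeZero k], (Sm k (-1))ᵀ * Sm k 1 = 1
  dualT : ∀ (k : ℕ) [NeZero k], (Tm k (-1))ᵀ * Tm k 1 = 1
  ne : ∀ (k : ℕ) [NeZero k] (τ : ℍ), thm k 0 τ ≠ 0
  q : ∀ (k : ℕ) [NeZero k] (r : ZMod k), ∃ c, IsQ (2 * k) (thm k r) c ∧ (∀ n < 0, c.coeff n = 0) ∧
    ∀ n : ℤ, c.coeff n = Set.ncard {a : ℤ | (a : ZMod k) = r ∧ a ^ 2 = n}

/-- The bilinear form of the determinant. -/
def bil {R : Type} [CommRing R] (x y : Matrix (Fin 2) (Fin 2) R) : R :=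
  x 0 0 * y 1 1 + x 1 1 * y 0 0 - x 0 1 * y 1 0 - x 1 0 * y 0 1

/-- The `S` matrix of the Weil representation on matrices modulo `N`. -/
noncomputable def SX (N : ℕ) [NeZero N] : Matrix (MN N) (MN N) ℂ :=
  fun x y => ((N : ℂ) ^ 2)⁻¹ * ZMod.stdAddChar (bil x y)

/-- The `T` matrix of the Weil representation on matrices modulo `N`. -/
noncomputable def TX (N : ℕ) [NeZero N] : Matrix (MN N) (MN N) ℂ :=
  Matrix.diagonal fun x => ZMod.stdAddChar (-x.det)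

/-- The Fourier transform in the second column. -/
noncomputable def hatV {N : ℕ} [NeZero N] (φ : MN N → ℂ) (W : MN N) : ℂ :=
  ∑ b : ZMod N, ∑ d : ZMod N,
    ZMod.stdAddChar (W 0 0 * b + W 0 1 * d) * φ !![W 1 1, b; -W 1 0, d]

/-- Inputs of the Borcherds product. -/
structure WH (N : ℕ) [NeZero N] (f : MN N → ℍ → ℂ) (c : MN N → LS) : Prop where
  q : ∀ x, IsQ N (f x) (c x)
  vv : VV N (SX N) (TX N) f

/-- Module HAT. -/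
structure HAT : Prop where
  rep : ∀ (N : ℕ) [NeZero N], ∃ ρ : SL2 →* Matrix (MN N) (MN N) ℂ,
    ρ ModularGroup.S = SX N ∧ ρ ModularGroup.T = TX N
  law : ∀ {N : ℕ} [NeZero N] {f c}, WH N f c → ∀ (γ : SL2) (W : MN N) (τ : ℍ),
    hatV (fun x => f x (γ • τ)) (red N γ * W) = hatV (fun x => f x τ) W
  hat_left : ∀ {N : ℕ} [NeZero N] (φ : MN N → ℂ) (γ : SL2) (W : MN N),
    hatV (fun x => φ (red N γ * x)) (W * red N γ) = hatV φ W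
  par : ∀ {N : ℕ} [NeZero N] {f c}, WH N f c → ∀ x, c (-x) = c x
  supp : ∀ {N : ℕ} [NeZero N] {f c}, WH N f c → ∀ x (n : ℤ), (n : ZMod N) ≠ -x.det →
    (c x).coeff n = 0
  left : ∀ {N : ℕ} [NeZero N] {f c}, WH N f c → ∀ γ : SL2,
    WH N (fun x => f (red N γ * x)) fun x => c (red N γ * x)
  adj : ∀ {N : ℕ} [NeZero N] {f c}, WH N f c →
    WH N (fun x => f x.adjugate) fun x => c x.adjugate
  neg : ∀ {N : ℕ} [NeZero N] {f c}, WH N f c → WH N (fun x => -f x) fun x => -c x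

/-- The matrix with trace part `r` and form part `[c, 2 ρ, -4 j b]`. -/
def xmat (j : ℕ) (b c ρ r : ℤ) : M2 := !![r - ρ, 4 * j * b; c, r + ρ]

/-- The squared norm of a vector. -/
noncomputable def nsq {ι : Type} [Fintype ι] (v : ι → ℂ) : ℝ := ∑ i, ‖v i‖ ^ 2

/-- Module EMB. -/
structure EMB : Prop where
  good : ∀ (N : ℕ) [NeZero N], Good (96 * N) (SX N) (TX N)
  emb : ∀ (j : ℕ) [NeZero (16 * j)] [NeZero (32 * j)],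
    ∃ (E : (Cls j → ℂ) →ₗ[ℂ] (ZMod (16 * j) → ℂ) →ₗ[ℂ] MN (32 * j) → ℂ)
      (S₀ T₀ : Matrix (Cls j) (Cls j) ℂ),
      (∀ v ξ b c ρ r, E v ξ (red _ (xmat j b c ρ r)) = v (cls j b c ρ) * ξ (r : ZMod (16 * j))) ∧
      (∀ v ξ (x : MN (32 * j)), (∀ b c ρ r, x ≠ red _ (xmat j b c ρ r)) → E v ξ x = 0) ∧
      (∀ v ξ, SX (32 * j) *ᵥ E v ξ = E (S₀ *ᵥ v) (Sm (16 * j) (-1) *ᵥ ξ)) ∧
      (∀ v ξ, TX (32 * j) *ᵥ E v ξ = E (T₀ *ᵥ v) (Tm (16 * j) (-1) *ᵥ ξ)) ∧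
      (∀ v, nsq (S₀ *ᵥ v) = nsq v) ∧ (∀ v a, (S₀ *ᵥ (S₀ *ᵥ v)) a = v (-a)) ∧
      ∀ v b c ρ, (T₀ *ᵥ v) (cls j b c ρ) =
        ee (((ρ ^ 2 + 4 * j * b * c : ℤ) : ℂ) / (32 * j) - 1 / 24) * v (cls j b c ρ)

/-- Module POIN: Poincaré series of weight `5 / 2`. -/
def PoinStmt : Prop :=
  ∀ {A : Type} [Fintype A] (ρ : SL2 →* Matrix A A ℂ) (v : A → ℂ) (μ : ℝ),
    (∀ γ w, nsq (ρ γ *ᵥ w) = nsq w) → μ ≤ 0 → ρ (-1) *ᵥ v = v →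
    ρ ModularGroup.T *ᵥ v = ee (μ - 5 / 24) • v →
    ∃ F : A → ℍ → ℂ, (∀ a, Hol (F a)) ∧
      (∀ (γ : SL2) τ, (fun a => F a (γ • τ)) = ρ γ *ᵥ fun a => F a τ) ∧
      ∀ a, Gr 0 fun τ => F a τ * et τ ^ 5 - 2 * v a * ee (μ * τ)

/-- Module INP: the input with prescribed leading terms. -/
def InpStmt : Prop :=
  ∀ (j : ℕ) [NeZero (32 * j)] (b₀ c₀ ρ₀ D₀ : ℤ), ρ₀ ^ 2 + 4 * j * b₀ * c₀ = D₀ →
    3 * D₀ < -16 * j →
    ∃ (f : MN (32 * j) → ℍ → ℂ) (c : MN (32 * j) → LS) (C : ℤ → Cls j → ℤ) (κ : ℤ),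
      WH (32 * j) f c ∧ (∀ x, RatL (c x)) ∧ (∀ x, ∀ n < 0, ∃ k : ℤ, (c x).coeff n = k) ∧
      (∀ x, (∀ b c' ρ r, x ≠ red _ (xmat j b c' ρ r)) → c x = 0) ∧
      (∀ b c' ρ D : ℤ, ρ ^ 2 + 4 * j * b * c' = D → D < 0 →
        ∑ᶠ r : ℤ, (c (red _ (xmat j b c' ρ r))).coeff (D - r ^ 2) = C D (cls j b c' ρ)) ∧
      (∀ D < D₀, ∀ v, C D v = 0) ∧ κ ≠ 0 ∧
      ∀ v, C D₀ v = κ * ((if v = cls j b₀ c₀ ρ₀ then 1 else 0) +
        if v = -cls j b₀ c₀ ρ₀ then 1 else 0)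

/-! ### The Borcherds product -/

/-- The Hecke operator on the Fourier transform. -/
noncomputable def Hm {N : ℕ} [NeZero N] (f : MN N → ℍ → ℂ) (m : ℕ) (τ : ℍ) : ℂ :=
  ∑ A ∈ Herm m, hatV (fun x => f x (mob A τ)) (red N A)

/-- The twisted coefficients. -/
noncomputable def Gc {N : ℕ} [NeZero N] (c : MN N → LS) (a d k : ℤ) : ℂ :=
  ∑ b : ZMod N, ZMod.stdAddChar (b * (k : ZMod N)) *
    (c !![(a : ZMod N), b; 0, -(d : ZMod N)]).coeff (a * d)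

/-- The coefficients of the logarithm of the product. -/
noncomputable def lam {N : ℕ} [NeZero N] (c : MN N → LS) (m : ℕ) (ν : ℤ) : ℂ :=
  ∑ k ∈ m.divisors, if (k : ℤ) ∣ ν then Gc c (m / k : ℕ) (ν / k) k / k else 0

/-- Module HECKE. -/
structure HECKE : Prop where
  md : ∀ {N : ℕ} [NeZero N] {f c}, WH N f c → ∀ m, Hm f m ∈ Mod N
  q : ∀ {N : ℕ} [NeZero N] {f c}, WH N f c → ∀ m, ∃ s, IsQ N (Hm f m) s ∧
    ∀ ν, s.coeff ν = m * lam c m ν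
  act : ∀ {N : ℕ} [NeZero N] {f c}, WH N f c → ∀ m (γ : SL2) τ,
    Hm f m (γ • τ) = Hm (fun x => f (red N γ * x)) m τ
  symm : ∀ {N : ℕ} [NeZero N] {f c}, WH N f c → ∀ m ν : ℕ, 0 < m → 0 < ν →
    lam (fun x => c x.adjugate) m ν = lam c ν m

/-- The exponent vector. -/
noncomputable def ex2 (m ν : ℕ) : Fin 2 →₀ ℕ := Finsupp.single 0 m + Finsupp.single 1 ν

/-- The coefficient of the `m`-th power of the first variable. -/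
noncomputable def row (P : MM) (m : ℕ) : LS :=
  HahnSeries.ofPowerSeries ℤ ℂ (PowerSeries.mk fun ν => MvPowerSeries.coeff (ex2 m ν) P)

/-- A series in two variables as a power series over Laurent series. -/
noncomputable def iot (P : MM) : PowerSeries LS := PowerSeries.mk (row P)

/-- Exchange of the variables. -/
noncomputable def sw : MM ≃ₐ[ℂ] MM := MvPowerSeries.renameEquiv ℂ (Equiv.swap 0 1)

/-- `E = exp (- ∫ H dX / X)`. -/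
def IsExp {R : Type} [CommRing R] (H E : PowerSeries R) : Prop :=
  PowerSeries.constantCoeff E = 1 ∧ PowerSeries.X * PowerSeries.derivative R E = -H * E

/-- `υ = exp (- Λ)` in two variables. -/
def IsUps (Λ υ : MM) : Prop :=
  MvPowerSeries.constantCoeff υ = 1 ∧
    ∀ i, MvPowerSeries.pderiv ℂ i υ = -MvPowerSeries.pderiv ℂ i Λ * υ

/-- The index set of the factors with a zero. -/
def Ix (N M : ℕ) : Finset (ℕ × ℕ × ℕ) :=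
  (Finset.Icc 1 M ×ˢ Finset.range N ×ˢ Finset.Icc 1 M).filter fun i => i.1 * i.2.2 ≤ M

/-- The factors with a zero. -/
noncomputable def ell (N L : ℕ) (i : ℕ × ℕ × ℕ) : MM :=
  MvPowerSeries.X 1 ^ (L * i.2.2) -
    MvPowerSeries.C (ee (i.2.1 / N)) * MvPowerSeries.X 0 ^ (L * i.1)

/-- Series in two variables with algebraic coefficients. -/
def AlgM (P : MM) : Prop := ∀ s, IsAlgebraic ℚ (MvPowerSeries.coeff s P)

/-- Module FORM. -/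
structure FORM : Prop where
  iot_hom : ∃ I : MM →+* PowerSeries LS, ∀ P, I P = iot P
  coeff_sw : ∀ P m ν, MvPowerSeries.coeff (ex2 m ν) (sw P) = MvPowerSeries.coeff (ex2 ν m) P
  exp_ex : ∀ {R : Type} [CommRing R] [Algebra ℚ R] (H : PowerSeries R),
    PowerSeries.constantCoeff H = 0 → ∃ E, IsExp H E
  exp_unique : ∀ {R : Type} [CommRing R] [Algebra ℚ R] {H E E' : PowerSeries R},
    PowerSeries.constantCoeff H = 0 → IsExp H E → IsExp H E' → E = E'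
  exp_map : ∀ {R R' : Type} [CommRing R] [CommRing R'] (φ : R →+* R') {H E : PowerSeries R},
    IsExp H E → IsExp (H.map φ) (E.map φ)
  exp_mul : ∀ {R : Type} [CommRing R] {H H' E E' : PowerSeries R},
    IsExp H E → IsExp H' E' → IsExp (H + H') (E * E')
  ups_ex : ∀ Λ : MM, ∃ υ, IsUps Λ υ
  ups_sw : ∀ {Λ υ}, IsUps Λ υ → IsUps (sw Λ) (sw υ)
  ups_alg : ∀ {Λ υ}, IsUps Λ υ → AlgM Λ → AlgM υ
  algM : ∃ K : Subring MM, ∀ P, P ∈ K ↔ AlgM P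
  alg_div : ∀ {P Q : MM}, P ≠ 0 → AlgM P → AlgM (P * Q) → AlgM Q
  main : ∀ (N L M K : ℕ) (cf : ℕ × ℕ × ℕ → ℤ) (Λ υ : MM) (H E : PowerSeries LS), 0 < N → 0 < L →
    (∀ i, |cf i| ≤ K) → (∀ m, MvPowerSeries.coeff (ex2 m 0) Λ = 0) →
    (∀ ν, MvPowerSeries.coeff (ex2 0 ν) Λ = 0) → IsUps Λ υ → IsExp H E →
    (∀ m ν : ℕ, (PowerSeries.coeff m H).coeff ν = m * MvPowerSeries.coeff (ex2 m ν) Λ) →
    (∀ m ν : ℕ, 0 < ν → (PowerSeries.coeff m H).coeff (-ν) =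
      ∑ i ∈ Ix N M, ∑ k ∈ Finset.Icc 1 m,
        if L * i.1 * k = m ∧ L * i.2.2 * k = ν then
          (cf i : ℂ) * (L * i.1) * ee (i.2.1 * k / N) else 0) →
    iot (υ * ∏ i ∈ Ix N M, ell N L i ^ (K + cf i).toNat) =
      E * iot (∏ i ∈ Ix N M, ell N L i ^ K) *
        PowerSeries.C (HahnSeries.single (∑ i ∈ Ix N M, (L * i.2.2 : ℕ) * cf i) 1)

/-- Finite sums of products of modular functions. -/
def Ten (N : ℕ) (P : ℍ → ℍ → ℂ) : Prop :=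
  ∃ (n : ℕ) (w w' : Fin n → ℍ → ℂ), (∀ i, w i ∈ Mod N ∧ w' i ∈ Mod N) ∧
    P = fun t s => ∑ i, w i t * w' i s

/-- `P'` is the expansion of `p₁ ^ α p₂ ^ β P`. -/
def Exp2 (N : ℕ) (P : ℍ → ℍ → ℂ) (α β : ℤ) (P' : MM) : Prop :=
  ∃ (n : ℕ) (w w' : Fin n → ℍ → ℂ) (F G : Fin n → PowerSeries ℂ),
    (∀ i, w i ∈ Mod N ∧ w' i ∈ Mod N ∧
      IsQ N (w i) (HahnSeries.single (-α) 1 * HahnSeries.ofPowerSeries ℤ ℂ (F i)) ∧
      IsQ N (w' i) (HahnSeries.single (-β) 1 * HahnSeries.ofPowerSeries ℤ ℂ (G i))) ∧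
    (P = fun t s => ∑ i, w i t * w' i s) ∧
    P' = ∑ i, (F i).toMvPowerSeries 0 * (G i).toMvPowerSeries 1

/-- The rows of `P'` are the expansions of the functions `e m`. -/
def Rows (N : ℕ) (β : ℤ) (P' : MM) (e : ℕ → ℍ → ℂ) : Prop :=
  ∀ m, e m ∈ Mod N ∧ IsQ N (e m) (HahnSeries.single (-β) 1 * row P' m)

/-- Module E2A. -/
structure E2A : Prop where
  mul : ∀ {N P Q α β α' β' P' Q'}, 0 < N → Exp2 N P α β P' → Exp2 N Q α' β' Q' →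
    Exp2 N (P * Q) (α + α') (β + β') (P' * Q')
  prod : ∀ {N} {ι : Type} (s : Finset ι) (P : ι → ℍ → ℍ → ℂ) (α β : ι → ℤ) (P' : ι → MM), 0 < N →
    (∀ i ∈ s, Exp2 N (P i) (α i) (β i) (P' i)) →
    Exp2 N (∏ i ∈ s, P i) (∑ i ∈ s, α i) (∑ i ∈ s, β i) (∏ i ∈ s, P' i)
  swap : ∀ {N P α β P'}, Exp2 N P α β P' → Exp2 N (fun t s => P s t) β α (sw P')
  rows : ∀ {N P α β P'}, 0 < N → Exp2 N P α β P' → ∃ e, Rows N β P' e
  slice : ∀ {N P α β P' e}, 0 < N → Exp2 N P α β P' → Rows N β P' e → ∀ s,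
    IsQ N (fun t => P t s) (HahnSeries.single (-α) 1 *
      HahnSeries.ofPowerSeries ℤ ℂ (PowerSeries.mk fun m => e m s))
  of_rows : ∀ {N : ℕ} {α β : ℤ} {P' : MM} {e e' : ℕ → ℍ → ℂ} (κ : ℝ), 0 < N → Rows N β P' e →
    Rows N α (sw P') e' → (∀ m (γ : SL2), Gr κ fun τ => e m (γ • τ)) →
    (∀ m (γ : SL2), Gr κ fun τ => e' m (γ • τ)) → ∃ P, Exp2 N P α β P'
  diag : ∀ {N P α β P'} (k : ℕ), 0 < N → Exp2 N P α β P' → AlgM P' →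
    ∃ c, IsQ N (fun t => dd^[k] (P t) t) c ∧ AlgL c

/-- The order of vanishing along the graph of `x`. -/
noncomputable def ordC (x : M2) (P : ℍ → ℍ → ℂ) : ℕ∞ := ⨅ t, ordE (P t) (mob x t)

/-- The leading coefficient along the diagonal. -/
noncomputable def lead (P : ℍ → ℍ → ℂ) (t : ℍ) : ℂ := dd^[(ordC 1 P).toNat] (P t) t

/-- Module LEAD. -/
structure LEAD : Prop where
  ten_mul : ∀ {N P Q}, Ten N P → Ten N Q → Ten N (P * Q)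
  generic : ∀ {N P} (x : M2), 0 < x.det → Ten N P → P ≠ 0 →
    ∃ g : ℍ → ℂ, Hol g ∧ g ≠ 0 ∧ ∀ t, g t ≠ 0 → ordE (P t) (mob x t) = ordC x P
  ne_top : ∀ {N P} (x : M2), 0 < x.det → Ten N P → P ≠ 0 → ordC x P ≠ ⊤
  ordC_mul : ∀ {N P Q} (x : M2), 0 < x.det → Ten N P → Ten N Q →
    ordC x (P * Q) = ordC x P + ordC x Q
  hol : ∀ {N P}, Ten N P → Hol (lead P)
  ne : ∀ {N P}, Ten N P → P ≠ 0 → lead P ≠ 0
  ord_mul : ∀ {N P Q} (t : ℍ), Ten N P → Ten N Q → P ≠ 0 → Q ≠ 0 →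
    ordE (lead (P * Q)) t = ordE (lead P) t + ordE (lead Q) t
  ineq : ∀ {N P} (t : ℍ) (X : Finset M2), Ten N P → P ≠ 0 → (∀ x ∈ X, x ∈ Fix t) →
    (∀ x ∈ X, ∀ y ∈ X, mob x = mob y → x = y) → ∑ x ∈ X, ordC x P ≤ ordE (lead P) t
  md : ∀ {N P}, 0 < N → Ten N P → P ≠ 0 →
    (fun t => lead P t ^ 6 / ModularForm.discriminant t ^ (ordC 1 P).toNat) ∈ Mod N

/-- Module ORDF. -/
def OrdfStmt : Prop :=
  ∀ (N L M : ℕ) (P Q : ℍ → ℍ → ℂ) (α β α' β' : ℤ) (P' Q' υ : MM) (u v : ℕ × ℕ × ℕ → ℕ)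
    (a b d : ℤ), 0 < N → 0 < L → Exp2 (N * L) P α β P' → Exp2 (N * L) Q α' β' Q' →
    MvPowerSeries.constantCoeff υ = 1 →
    P' * ∏ i ∈ Ix N M, ell N L i ^ u i = υ * Q' * ∏ i ∈ Ix N M, ell N L i ^ v i →
    0 < a → 0 < d → Prim !![a, b; 0, d] →
    ordC !![a, b; 0, d] P + ((∑ i ∈ Ix N M, if ∃ k : ℤ, (i.1 : ℤ) = k * a ∧ (i.2.2 : ℤ) = k * d ∧
        ((i.2.1 : ℤ) : ZMod N) = (k * b : ℤ) then u i else 0 : ℕ) : ℕ∞) =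
      ordC !![a, b; 0, d] Q + ((∑ i ∈ Ix N M, if ∃ k : ℤ, (i.1 : ℤ) = k * a ∧ (i.2.2 : ℤ) = k * d ∧
        ((i.2.1 : ℤ) : ZMod N) = (k * b : ℤ) then v i else 0 : ℕ) : ℕ∞)

/-- The common denominator. -/
noncomputable def Den (M K : ℕ) (t s : ℍ) : ℂ :=
  ∏ m ∈ Finset.Icc 1 M, ∏ A ∈ Herm m, (jf s - jf (mob A t)) ^ K

/-- Primitive matrices up to sign that fix `t`. -/
def PFix (t : ℍ) (M : ℕ) : Set M2 := {x | x ∈ Fix t ∧ Prim x ∧ 0 < x 1 0 ∧ x.det ≤ M}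

/-- Module DEN. -/
structure DEN : Prop where
  inv1 : ∀ M K (γ : SL2) t s, Den M K (γ • t) s = Den M K t s
  inv2 : ∀ M K (γ : SL2) t s, Den M K t (γ • s) = Den M K t s
  ne : ∀ M K, Den M K ≠ 0
  exp : ∀ N L M K : ℕ, 0 < N → 0 < L → (∀ d, 0 < d → d ≤ M → d ∣ L) →
    ∃ (α β : ℤ) (D' C' : MM), Exp2 (N * L) (Den M K) α β D' ∧ AlgM D' ∧
      D' = C' * ∏ i ∈ Ix N M, ell N L i ^ K

/-- Module DENU. -/
def DenuStmt : Prop :=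
  ∀ (M K : ℕ) (t : ℍ) (X : Finset M2), (∀ x, x ∈ X ↔ x ∈ PFix t M) →
    ordE (lead (Den M K)) t ≤ ∑ x ∈ X, ordC x (Den M K)

/-- The data attached to an input. -/
structure Adm (N L M K : ℕ) [NeZero N] (f : MN N → ℍ → ℂ) (c : MN N → LS)
    (z : MN N → ℤ → ℤ) : Prop where
  wh : WH N f c
  rat : ∀ x, RatL (c x)
  int : ∀ x, ∀ n < 0, (c x).coeff n = z x n
  bd : ∀ x n, |z x n| ≤ K
  pole : ∀ x, ∀ n < -(M : ℤ), (c x).coeff n = 0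
  pos : 0 < L
  dvd : ∀ d, 0 < d → d ≤ M → d ∣ L

/-- The exponents of the factors with a zero. -/
def cfz {N : ℕ} (z : MN N → ℤ → ℤ) (i : ℕ × ℕ × ℕ) : ℤ :=
  z !![(i.1 : ZMod N), (i.2.1 : ZMod N); 0, (i.2.2 : ZMod N)] (-(i.1 * i.2.2 : ℕ))

/-- The logarithmic derivative of the product in the first variable. -/
noncomputable def Lam {N : ℕ} [NeZero N] (L : ℕ) (f : MN N → ℍ → ℂ) (c : MN N → LS) (s : ℍ) :
    PowerSeries ℂ :=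
  PowerSeries.mk fun m =>
    if L ∣ m then (L : ℂ) * (Hm f (m / L) s - (m / L : ℕ) * lam c (m / L) 0) else 0

/-- `P` is the product of the input times the denominator. -/
structure IsProd (N L M K : ℕ) [NeZero N] (f : MN N → ℍ → ℂ) (c : MN N → LS)
    (z : MN N → ℤ → ℤ) (P : ℍ → ℍ → ℂ) : Prop where
  exp : ∃ (α β α' β' : ℤ) (P' D' υ : MM), Exp2 (N * L) P α β P' ∧ AlgM P' ∧
    Exp2 (N * L) (Den M K) α' β' D' ∧ MvPowerSeries.constantCoeff υ = 1 ∧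
    P' * ∏ i ∈ Ix N M, ell N L i ^ (-cfz z i).toNat =
      υ * D' * ∏ i ∈ Ix N M, ell N L i ^ (cfz z i).toNat
  slice : ∀ s, ∃ (E : PowerSeries ℂ) (d : LS), IsExp (Lam L f c s) E ∧
    IsQ (N * L) (fun t => Den M K t s) d ∧
    IsQ (N * L) (fun t => P t s)
      (HahnSeries.single (-∑ i ∈ Ix N M, (L * i.1 : ℕ) * cfz z i) 1 *
        HahnSeries.ofPowerSeries ℤ ℂ E * d)

/-- Module PRODA. -/
def ProdaStmt : Prop :=
  ∀ (N L M K : ℕ) [NeZero N] f c z, Adm N L M K f c z → ∃ P, IsProd N L M K f c z P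

/-- Module PRODB. -/
def ProdbStmt : Prop :=
  ∀ (N L M K : ℕ) [NeZero N] f c z, Adm N L M K f c z →
    ∃ P Q : ℍ → ℍ → ℂ, Ten (N * L) P ∧ Ten (N * L) Q ∧ P * Q = Den M K * Den M K ∧
      (∃ α β P', Exp2 (N * L) P α β P' ∧ AlgM P') ∧
      ∀ x : M2, 0 < x.det → Prim x →
        (((ordC x P).toNat : ℤ) : ℂ) = (ordC x (Den M K)).toNat +
          ∑ k ∈ Finset.Icc (1 : ℤ) M, (c (red N (k • x))).coeff (-(k • x).det)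

/-- Module BOR. -/
def BorStmt : Prop :=
  ∀ (N : ℕ) [NeZero N] f c, WH N f c → (∀ x, RatL (c x)) →
    (∀ x, ∀ n < 0, ∃ k : ℤ, (c x).coeff n = k) →
    ∃ (N' : ℕ) (a b : ℍ → ℂ), 0 < N' ∧ a ∈ Mod N' ∧ b ∈ Mod N' ∧ IntJ a ∧ IntJ b ∧ a ≠ 0 ∧ b ≠ 0 ∧
      ∀ t, (ord a t : ℂ) - ord b t = 3 * ∑ᶠ x ∈ Fix t, (c (red N x)).coeff (-x.det)

/-- Module APP. -/
def AppStmt : Prop :=
  ∀ (ι : Qbar →+* ℂ) {V : Type} [AddCommGroup V] (β : EQ →+ EQ →+ V), Sym β →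
    Rel fun τ σ => β (uQ ι τ) (uQ ι σ)

end Pool.Agent.MP_9207e0_ag.hg
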