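import Mathlib
import Pool.Agent.MP_9207e0_ag.hg.Spec

-- ======== part 0: formerly Pool.Agent.MP_9207e0_ag.hg.Emb
section MrgPart0

/-! Module EMB: isotropic reduction and embedding for the Weil representation. -/

set_option linter.unusedSectionVars false
set_option linter.unusedVariables false

namespace Pool.Agent.MP_9207e0_ag.hg

open UpperHalfPlane Complex Filter Asymptotics Matrix
open scoped Real MatrixGroups Manifold Classical Kronecker

namespace Emb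

/-! ### Characters -/

lemma ee_add (x y : ℂ) : ee (x + y) = ee x * ee y := by
  unfold ee
  rw [mul_add, Complex.exp_add]

lemma ee_congr {x y : ℂ} (n : ℤ) (h : x = y + n) : ee x = ee y := by
  rw [h, ee_add, ee.eq_1 n, mul_comm _ (n : ℂ), Complex.exp_int_mul_two_pi_mul_I, mul_one]

lemma psi_int (N : ℕ) [NeZero N] (a : ℤ) : ZMod.stdAddChar (a : ZMod N) = ee (a / N) := by
  rw [ZMod.stdAddChar_coe, ee, mul_div_assoc]

lemma psi_eq_one {N : ℕ} [NeZero N] {a : ZMod N} : ZMod.stdAddChar a = 1 ↔ a = 0 := by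
  rw [← (ZMod.stdAddChar (N := N)).map_zero_eq_one, ZMod.injective_stdAddChar.eq_iff]

lemma psi_cast {N m n : ℕ} [NeZero N] [NeZero n] (h : N = m * n) (hd : n ∣ N) (a : ZMod N) :
    ZMod.stdAddChar ((m : ZMod N) * a) = ZMod.stdAddChar (ZMod.castHom hd (ZMod n) a) := by
  obtain ⟨a, rfl⟩ := ZMod.intCast_surjective a
  have e : (m : ZMod N) * (a : ZMod N) = ((m * a : ℤ) : ZMod N) := by push_cast; rfl
  have hm : (m : ℂ) ≠ 0 := by
    rintro h0
    exact NeZero.ne N (by rw [h, Nat.cast_eq_zero.1 h0, zero_mul])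
  rw [e, map_intCast (ZMod.castHom hd (ZMod n)) a, psi_int, psi_int, h]
  push_cast
  rw [mul_div_mul_left _ _ hm]

lemma zero_iff {N m n : ℕ} [NeZero N] [NeZero n] (h : N = m * n) (hd : n ∣ N) (a : ZMod N) :
    (m : ZMod N) * a = 0 ↔ ZMod.castHom hd (ZMod n) a = 0 := by
  rw [← psi_eq_one, psi_cast h hd, psi_eq_one]

lemma exists_mul {N m n : ℕ} [NeZero N] [NeZero n] (h : N = m * n) {a : ZMod N}
    (ha : (m : ZMod N) * a = 0) : ∃ b, a = (n : ZMod N) * b := by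
  obtain ⟨a, rfl⟩ := ZMod.intCast_surjective a
  rw [zero_iff h (Dvd.intro_left m h.symm), map_intCast, ZMod.intCast_zmod_eq_zero_iff_dvd] at ha
  obtain ⟨b, rfl⟩ := ha
  exact ⟨b, by push_cast; rfl⟩

lemma Sm_eq (k : ℕ) [NeZero k] (e : ℤ) (r r' : ZMod k) :
    Sm k e r r' = (Real.sqrt k : ℂ)⁻¹ * ZMod.stdAddChar (-(e : ZMod k) * (r * r')) := by
  have h : -(e : ZMod k) * (r * r') = ((-e * (r.val * r'.val) : ℤ) : ZMod k) := by
    push_cast
    rw [ZMod.natCast_zmod_val, ZMod.natCast_zmod_val]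
  rw [h, psi_int, Sm]
  push_cast
  rfl

/-- The diagonal of the matrix `Tm`. -/
noncomputable def tv (k : ℕ) (e : ℤ) (r : ZMod k) : ℂ := ee (e * (r.val ^ 2 / (2 * k) - 1 / 24))

lemma tv_int {k : ℕ} [NeZero k] (hk : Even k) (e a : ℤ) :
    tv k e (a : ZMod k) = ee (e * (a ^ 2 / (2 * k) - 1 / 24)) := by
  obtain ⟨m, hm⟩ : (k : ℤ) ∣ ((a : ZMod k).val : ℤ) - a := by
    rw [← ZMod.intCast_zmod_eq_zero_iff_dvd]
    push_cast
    rw [ZMod.natCast_zmod_val, sub_self]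
  obtain ⟨l, hl⟩ := hk
  have h1 : (((a : ZMod k).val : ℕ) : ℂ) = a + k * m := by
    have := congrArg (Int.cast : ℤ → ℂ) hm
    push_cast at this
    linear_combination this
  have h2 : (k : ℂ) = l + l := by exact_mod_cast hl
  have h3 : (k : ℂ) ≠ 0 := Nat.cast_ne_zero.2 (NeZero.ne k)
  refine ee_congr (e * (a * m + l * m ^ 2)) ?_
  rw [h1]
  push_cast
  field_simp
  linear_combination (24 * e * k * m ^ 2) * h2

lemma sqrt_sq (k : ℕ) : (Real.sqrt k : ℂ)⁻¹ * (Real.sqrt k : ℂ)⁻¹ = (k : ℂ)⁻¹ := by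
  rw [← mul_inv, ← ofReal_mul, Real.mul_self_sqrt (Nat.cast_nonneg k), ofReal_natCast]

/-! ### Correspondences between finite groups -/

section gen

variable {Z A B : Type} [AddCommGroup Z] [AddCommGroup A] [AddCommGroup B] [Fintype Z]

/-- The matrix of a correspondence. -/
noncomputable def Pm (i : Z →+ A) (q : Z →+ B) : Matrix B A ℂ :=
  fun u w => ∑ z, if q z = u ∧ i z = w then 1 else 0

/-- The order of the kernel. -/
noncomputable def kk (f : Z →+ A) : ℕ := (Finset.univ.filter fun z => f z = 0).card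

lemma kk_ne (f : Z →+ A) : (kk f : ℂ) ≠ 0 :=
  Nat.cast_ne_zero.2 (Finset.card_pos.2 ⟨0, by simp⟩).ne'

lemma sum_fib (f : Z →+ A) (z0 : Z) (c : ℂ) :
    ∑ z, (if f z = f z0 then c else 0) = kk f * c := by
  rw [← Equiv.sum_comp (Equiv.addRight z0)]
  simp only [Equiv.coe_addRight, map_add, add_eq_right]
  rw [← Finset.sum_filter, Finset.sum_const, nsmul_eq_mul, kk]

lemma card_eq [Fintype B] (q : Z →+ B) (hq : Function.Surjective q) :
    (Fintype.card Z : ℂ) = Fintype.card B * kk q := by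
  have h : ∀ u, ∑ z, (if q z = u then (1 : ℂ) else 0) = kk q := fun u => by
    obtain ⟨z0, rfl⟩ := hq u
    rw [sum_fib, mul_one]
  have h2 : ∑ u, ∑ z, (if q z = u then (1 : ℂ) else 0) = Fintype.card Z := by
    rw [Finset.sum_comm]
    simp
  rw [← h2]
  simp only [h]
  rw [Finset.sum_const, nsmul_eq_mul, Finset.card_univ]

lemma kk_eq {Y : Type} (f : Z →+ A) (s : Finset Y) (g : Y → Z) (h : Z → Y)
    (h1 : ∀ y ∈ s, f (g y) = 0) (h2 : ∀ z, f z = 0 → h z ∈ s ∧ g (h z) = z)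
    (h3 : ∀ y, h (g y) = y) : kk f = s.card :=
  Finset.card_nbij' h g (fun z hz => (h2 z (by simpa using hz)).1)
    (fun y hy => by simpa using h1 y hy) (fun z hz => (h2 z (by simpa using hz)).2)
    fun y _ => h3 y

lemma Pm_mul {C : Type} [Fintype A] (i : Z →+ A) (q : Z →+ B) (S : Matrix A C ℂ) (u : B) (w : C) :
    (Pm i q * S) u w = ∑ z, if q z = u then S (i z) w else 0 := by
  simp only [Matrix.mul_apply, Pm, Finset.sum_mul]
  rw [Finset.sum_comm]
  refine Finset.sum_congr rfl fun z _ => ?_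
  by_cases h : q z = u <;> simp [h]

lemma vec_Pm [Fintype B] (i : Z →+ A) (q : Z →+ B) (l : B → ℂ) (w : A) :
    (l ᵥ* Pm i q) w = ∑ z, if i z = w then l (q z) else 0 := by
  simp only [Matrix.vecMul, dotProduct, Pm, Finset.mul_sum]
  rw [Finset.sum_comm]
  refine Finset.sum_congr rfl fun z _ => ?_
  by_cases h : i z = w <;> simp [h]

lemma mul_Pm {C : Type} [Fintype B] (i : Z →+ A) (q : Z →+ B) (S : Matrix C B ℂ) (u : C) (w : A) :
    (S * Pm i q) u w = ∑ z, if i z = w then S u (q z) else 0 :=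
  vec_Pm i q (S u) w

lemma vec_val [Fintype B] {i : Z →+ A} {q : Z →+ B} (hk : ∀ z, i z = 0 → q z = 0) (l : B → ℂ)
    (z0 : Z) : (l ᵥ* Pm i q) (i z0) = kk i * l (q z0) := by
  rw [vec_Pm, ← sum_fib i z0]
  refine Finset.sum_congr rfl fun z _ => ?_
  by_cases h : i z = i z0
  · have := hk (z - z0) (by rw [map_sub, h, sub_self])
    rw [map_sub, sub_eq_zero] at this
    rw [this]
  · rw [if_neg h, if_neg h]

lemma Pm_inj [Fintype B] {i : Z →+ A} {q : Z →+ B} (hq : Function.Surjective q)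
    (hk : ∀ z, i z = 0 → q z = 0) (l : B → ℂ) (h : l ᵥ* Pm i q = 0) : l = 0 := by
  funext u
  obtain ⟨z, rfl⟩ := hq u
  have := vec_val hk l z
  rw [h] at this
  exact (mul_eq_zero.1 this.symm).resolve_left (kk_ne i)

lemma Pm_rat (i : Z →+ A) (q : Z →+ B) (u : B) (w : A) : ∃ r : ℚ, Pm i q u w = r :=
  ⟨∑ z, if q z = u ∧ i z = w then 1 else 0, by
    simp only [Pm, Rat.cast_sum, apply_ite (Rat.cast : ℚ → ℂ), Rat.cast_one, Rat.cast_zero]⟩

lemma lawT [Fintype A] [Fintype B] [dA : DecidableEq A] [dB : DecidableEq B] (i : Z →+ A)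
    (q : Z →+ B) {s : A → ℂ} {t : B → ℂ} (h : ∀ z, s (i z) = t (q z)) :
    Pm i q * Matrix.diagonal s = Matrix.diagonal t * Pm i q := by
  ext u w
  rw [Matrix.mul_diagonal, Matrix.diagonal_mul, Pm, Finset.sum_mul, Finset.mul_sum]
  refine Finset.sum_congr rfl fun z _ => ?_
  split_ifs with hz
  · rw [← hz.1, ← hz.2, h, mul_comm]
  · simp

lemma lawS [Fintype A] [Fintype B] {i : Z →+ A} {q : Z →+ B} {S : Matrix A A ℂ}
    {S' : Matrix B B ℂ} (σ : A → A → ℂ) (c c' : ℂ) (hq : Function.Surjective q)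
    (hadd : ∀ x y w, σ (x + y) w = σ x w * σ y w) (hS : ∀ x w, S x w = c * σ x w)
    (hS' : ∀ z z', S' (q z) (q z') = c' * σ (i z) (i z'))
    (hp : ∀ w, (∀ z, q z = 0 → σ (i z) w = 1) → ∃ z, i z = w) (hc : kk q * c = kk i * c')
    (hc' : c' ≠ 0) : Pm i q * S = S' * Pm i q := by
  ext u w
  obtain ⟨z0, rfl⟩ := hq u
  rw [Pm_mul, mul_Pm]
  by_cases hw : ∃ z, i z = w
  · obtain ⟨z1, rfl⟩ := hw
    have h1 : ∀ z, (if q z = q z0 then S (i z) (i z1) else 0) =
        if q z = q z0 then c * σ (i z0) (i z1) else 0 := fun z => by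
      split_ifs with h
      · rw [hS, mul_left_cancel₀ hc' ((hS' z z1).symm.trans (h ▸ hS' z0 z1))]
      · rfl
    have h2 : ∀ z, (if i z = i z1 then S' (q z0) (q z) else 0) =
        if i z = i z1 then c' * σ (i z0) (i z1) else 0 := fun z => by
      split_ifs with h
      · rw [hS', h]
      · rfl
    simp only [h1, h2]
    rw [sum_fib, sum_fib, ← mul_assoc, hc, mul_assoc]
  · rw [Finset.sum_eq_zero (s := Finset.univ) (f := fun z => if i z = w then S' (q z0) (q z) else 0)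
      fun z _ => if_neg fun h => hw ⟨z, h⟩]
    obtain ⟨h, h0, h1⟩ : ∃ h, q h = 0 ∧ σ (i h) w ≠ 1 := by
      by_contra hn
      exact hw (hp w fun z hz => by_contra fun hz' => hn ⟨z, hz, hz'⟩)
    have e : ∑ z, (if q z = q z0 then S (i z) w else 0) =
        σ (i h) w * ∑ z, if q z = q z0 then S (i z) w else 0 := by
      rw [Finset.mul_sum, ← Equiv.sum_comp (Equiv.addRight h)]
      refine Finset.sum_congr rfl fun z _ => ?_
      simp only [Equiv.coe_addRight, map_add, h0, add_zero, hS, hadd]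
      split_ifs
      · ring
      · simp
    refine (mul_eq_zero.1 (?_ : (σ (i h) w - 1) * _ = 0)).resolve_left (sub_ne_zero.2 h1)
    linear_combination -e

lemma sum_char (σ : Z → Z → ℂ) (hadd : ∀ x y w, σ (x + y) w = σ x w * σ y w)
    (h0 : ∀ x, σ x 0 = 1) (hn : ∀ y, (∀ x, σ x y = 1) → y = 0) (y : Z) :
    ∑ x, σ x y = if y = 0 then (Fintype.card Z : ℂ) else 0 := by
  split_ifs with hy
  · simp [hy, h0]
  · obtain ⟨h, h1⟩ : ∃ h, σ h y ≠ 1 := by
      by_contra hc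
      exact hy (hn y fun x => by_contra fun hx => hc ⟨x, hx⟩)
    have e : ∑ x, σ x y = σ h y * ∑ x, σ x y := by
      rw [Finset.mul_sum, ← Equiv.sum_comp (Equiv.addRight h)]
      refine Finset.sum_congr rfl fun z _ => ?_
      simp only [Equiv.coe_addRight, hadd, mul_comm]
    refine (mul_eq_zero.1 (?_ : (σ h y - 1) * _ = 0)).resolve_left (sub_ne_zero.2 h1)
    linear_combination -e

lemma nsq_eq {ι : Type} [Fintype ι] (v : ι → ℂ) : (nsq v : ℂ) = star v ⬝ᵥ v := by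
  simp only [nsq, dotProduct, Pi.star_apply, ofReal_sum, ofReal_pow]
  exact Finset.sum_congr rfl fun i _ => (Complex.conj_mul' (v i)).symm

/-- The Fourier matrix of a symmetric non degenerate bicharacter. -/
lemma four (σ : Z → Z → ℂ) (c : ℂ) (hadd : ∀ x y w, σ (x + y) w = σ x w * σ y w)
    (hs : ∀ x y, σ x y = σ y x) (h0 : ∀ x, σ x 0 = 1) (hn : ∀ y, (∀ x, σ x y = 1) → y = 0)
    (hst : ∀ x y, star (σ x y) = σ x (-y)) (hc : star c = c) (hc2 : c * c * Fintype.card Z = 1)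
    (v : Z → ℂ) : nsq ((Matrix.of fun x y => c * σ x y) *ᵥ v) = nsq v ∧
      ∀ a, ((Matrix.of fun x y => c * σ x y) *ᵥ ((Matrix.of fun x y => c * σ x y) *ᵥ v)) a =
        v (-a) := by
  have key : ∀ a y, ∑ x, c * σ x a * (c * σ x y) = if y = -a then 1 else 0 := fun a y => by
    have h1 : ∀ x, c * σ x a * (c * σ x y) = c * c * σ x (a + y) := fun x => by
      rw [hs x (a + y), hadd, hs a, hs y]
      ring
    simp only [h1]
    rw [← Finset.mul_sum, sum_char σ hadd h0 hn]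
    by_cases h : y = -a
    · rw [if_pos h, if_pos (by rw [h, add_neg_cancel]), hc2]
    · rw [if_neg h, if_neg fun e => h (eq_neg_of_add_eq_zero_right e), mul_zero]
  constructor
  · have h1 : (Matrix.of fun x y => c * σ x y)ᴴ * (Matrix.of fun x y => c * σ x y) = 1 := by
      ext a y
      simp only [Matrix.mul_apply, Matrix.conjTranspose_apply, Matrix.of_apply, star_mul', hc, hst]
      rw [key, neg_neg, Matrix.one_apply]
      simp only [eq_comm]
    apply Complex.ofReal_injective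
    rw [nsq_eq, nsq_eq, Matrix.star_mulVec, Matrix.dotProduct_mulVec, Matrix.vecMul_vecMul, h1,
      Matrix.vecMul_one]
  · intro a
    rw [Matrix.mulVec_mulVec]
    simp only [Matrix.mulVec, dotProduct, Matrix.mul_apply, Matrix.of_apply, hs a, key]
    simp

end gen

/-- The elements killed by `m`. -/
noncomputable def Km (N m : ℕ) [NeZero N] : Finset (ZMod N) :=
  Finset.univ.filter fun a => (m : ZMod N) * a = 0

lemma mem_Km {N m : ℕ} [NeZero N] {a : ZMod N} : a ∈ Km N m ↔ (m : ZMod N) * a = 0 := by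
  simp [Km]

lemma card_Km {N m n : ℕ} [NeZero N] [NeZero n] (h : N = m * n) : ((Km N m).card : ℂ) = m := by
  have hd : n ∣ N := Dvd.intro_left m h.symm
  have h1 := card_eq (ZMod.castHom hd (ZMod n)).toAddMonoidHom (ZMod.castHom_surjective hd)
  rw [kk_eq _ (Km N m) id id (fun y hy => (zero_iff h hd y).1 (mem_Km.1 hy))
    (fun z hz => ⟨mem_Km.2 ((zero_iff h hd z).2 hz), rfl⟩) fun _ => rfl, ZMod.card,
    ZMod.card] at h1
  have h2 : (N : ℂ) = m * n := by exact_mod_cast h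
  exact mul_left_cancel₀ (Nat.cast_ne_zero.2 (NeZero.ne n)) (by linear_combination h2 - h1)

/-- Four residues. -/
abbrev Z4 (N : ℕ) : Type := ZMod N × ZMod N × ZMod N × ZMod N

lemma int4 {N : ℕ} (z : Z4 N) :
    ∃ a b c d : ℤ, z = ((a : ZMod N), (b : ZMod N), (c : ZMod N), (d : ZMod N)) := by
  obtain ⟨a, b, c, d⟩ := z
  obtain ⟨a, rfl⟩ := ZMod.intCast_surjective a
  obtain ⟨b, rfl⟩ := ZMod.intCast_surjective b
  obtain ⟨c, rfl⟩ := ZMod.intCast_surjective c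
  obtain ⟨d, rfl⟩ := ZMod.intCast_surjective d
  exact ⟨a, b, c, d, rfl⟩

lemma mat_eq {R : Type} {a b c d a' b' c' d' : R} :
    !![a, b; c, d] = !![a', b'; c', d'] ↔ a = a' ∧ b = b' ∧ c = c' ∧ d = d' :=
  ⟨fun h => ⟨congrFun (congrFun h 0) 0, congrFun (congrFun h 0) 1, congrFun (congrFun h 1) 0,
    congrFun (congrFun h 1) 1⟩, fun ⟨h1, h2, h3, h4⟩ => by rw [h1, h2, h3, h4]⟩

lemma mat_zero {R : Type} [Zero R] {a b c d : R} :
    !![a, b; c, d] = 0 ↔ a = 0 ∧ b = 0 ∧ c = 0 ∧ d = 0 := by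
  rw [Matrix.eta_fin_two (0 : Matrix (Fin 2) (Fin 2) R), mat_eq]
  rfl

lemma card_MN (N : ℕ) [NeZero N] : (Fintype.card (MN N) : ℂ) = N ^ 4 := by
  rw [Fintype.card_congr (Matrix.of (m := Fin 2) (n := Fin 2) (α := ZMod N)).symm]
  simp [← pow_mul]

/-! ### The Weil representation as a reduction of unary theta series -/

section good

variable (N : ℕ) [NeZero N] [NeZero (2 * N)]

/-- The reduction modulo `N`. -/
def cN : ZMod (2 * N) →+* ZMod N := ZMod.castHom (Dvd.intro_left 2 rfl) (ZMod N)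

/-- The map to the sum of four cyclic modules. -/
def i1 : Z4 (2 * N) →+ (ZMod (2 * N) × ZMod (2 * N)) × ZMod (2 * N) × ZMod (2 * N) :=
  AddMonoidHom.mk' (fun z => ((z.1 - z.2.2.2, z.1 + z.2.2.2), z.2.1 + z.2.2.1, z.2.1 - z.2.2.1))
    fun x y => by
      simp only [Prod.fst_add, Prod.snd_add, Prod.mk_add_mk, Prod.mk.injEq]
      refine ⟨⟨?_, ?_⟩, ?_, ?_⟩ <;> ring

/-- The map to matrices. -/
def q1 : Z4 (2 * N) →+ MN N :=
  AddMonoidHom.mk' (fun z => !![cN N z.1, cN N z.2.1; cN N z.2.2.1, cN N z.2.2.2]) fun x y => by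
    ext a b
    fin_cases a <;> fin_cases b <;> simp

lemma i1_apply (a b c d : ZMod (2 * N)) :
    i1 N (a, b, c, d) = ((a - d, a + d), b + c, b - c) := rfl

lemma q1_apply (a b c d : ZMod (2 * N)) :
    q1 N (a, b, c, d) = !![cN N a, cN N b; cN N c, cN N d] := rfl

lemma q1_surj : Function.Surjective (q1 N) := fun x => by
  have h : Function.Surjective (cN N) := ZMod.castHom_surjective _
  obtain ⟨a, ha⟩ := h (x 0 0)
  obtain ⟨b, hb⟩ := h (x 0 1)
  obtain ⟨c, hc⟩ := h (x 1 0)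
  obtain ⟨d, hd⟩ := h (x 1 1)
  exact ⟨(a, b, c, d), by rw [q1_apply, ha, hb, hc, hd, ← Matrix.eta_fin_two]⟩

lemma two_iff (a : ZMod (2 * N)) : ((2 : ℕ) : ZMod (2 * N)) * a = 0 ↔ cN N a = 0 :=
  zero_iff rfl _ a

lemma ker1 {a b c d : ZMod (2 * N)} (h : i1 N (a, b, c, d) = 0) :
    d = a ∧ c = b ∧ ((2 : ℕ) : ZMod (2 * N)) * a = 0 ∧ ((2 : ℕ) : ZMod (2 * N)) * b = 0 := by
  simp only [i1_apply, Prod.mk_eq_zero] at h
  obtain ⟨⟨h1, h2⟩, h3, h4⟩ := h
  push_cast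
  exact ⟨by linear_combination -h1, by linear_combination -h4, by linear_combination h1 + h2,
    by linear_combination h3 + h4⟩

lemma kk_i1 : (kk (i1 N) : ℂ) = 4 := by
  rw [kk_eq (i1 N) (Km (2 * N) 2 ×ˢ Km (2 * N) 2) (fun y => (y.1, y.2, y.2, y.1))
    (fun z => (z.1, z.2.1)) (fun y hy => ?_) (fun ⟨a, b, c, d⟩ hz => ?_) fun _ => rfl,
    Finset.card_product, Nat.cast_mul, card_Km (n := N) rfl]
  · norm_num
  · obtain ⟨h1, h2⟩ := Finset.mem_product.1 hy
    rw [mem_Km] at h1 h2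
    push_cast at h1 h2
    simp only [i1_apply, Prod.mk_eq_zero]
    exact ⟨⟨sub_self _, by linear_combination h1⟩, by linear_combination h2, sub_self _⟩
  · obtain ⟨rfl, rfl, h1, h2⟩ := ker1 N hz
    exact ⟨Finset.mem_product.2 ⟨mem_Km.2 h1, mem_Km.2 h2⟩, rfl⟩

lemma kk_q1 : (kk (q1 N) : ℂ) = 16 := by
  have h := card_eq (q1 N) (q1_surj N)
  rw [card_MN] at h
  simp only [Fintype.card_prod, ZMod.card] at h
  push_cast at h
  have h0 : (N : ℂ) ^ 4 ≠ 0 := pow_ne_zero _ (Nat.cast_ne_zero.2 (NeZero.ne N))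
  exact mul_left_cancel₀ h0 (by linear_combination -h)

lemma good (hG : GEN) (hM : THM) : Good (96 * N) (SX N) (TX N) := by
  have hN : 0 < N := Nat.pos_of_ne_zero (NeZero.ne N)
  have hN' : (N : ℂ) ≠ 0 := Nat.cast_ne_zero.2 hN.ne'
  have hh : 0 < 96 * N := by omega
  have hk : Even (2 * N) := even_two_mul N
  have g1 := hM.good (2 * N) (96 * N) hk hh ⟨4 * N, by ring⟩ ⟨24, by ring⟩
  have g2 := hG.tensor hh g1 (hG.dual hh
    ((hM.dualS _).trans (by ext; simp [Matrix.one_apply]))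
    ((hM.dualT _).trans (by ext; simp [Matrix.one_apply])) g1)
  refine hG.map (Pm (i1 N) (q1 N)) hh (Pm_rat _ _) (Pm_inj (q1_surj N) fun ⟨a, b, c, d⟩ hz => ?_)
    (lawS (fun x w => ZMod.stdAddChar (-(x.1.1 * w.1.1) + x.1.2 * w.1.2 - x.2.1 * w.2.1 +
      x.2.2 * w.2.2)) (((2 * N : ℕ) : ℂ)⁻¹ * ((2 * N : ℕ) : ℂ)⁻¹) ((N : ℂ) ^ 2)⁻¹ (q1_surj N)
      (fun x y w => ?_) (fun x w => ?_) (fun ⟨a, b, c, d⟩ ⟨a', b', c', d'⟩ => ?_)
      (fun ⟨⟨s, s'⟩, t, t'⟩ h => ?_) ?_ (inv_ne_zero (pow_ne_zero 2 hN'))) ?_ (hG.tensor hh g2 g2)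
  · obtain ⟨rfl, rfl, h1, h2⟩ := ker1 N hz
    rw [two_iff] at h1 h2
    rw [q1_apply, mat_zero]
    exact ⟨h1, h2, h2, h1⟩
  · rw [← AddChar.map_add_eq_mul]
    congr 1
    simp only [Prod.fst_add, Prod.snd_add]
    ring
  · simp only [Matrix.kroneckerMap_apply, Sm_eq, ← sqrt_sq, sub_eq_add_neg,
      AddChar.map_add_eq_mul]
    push_cast
    simp only [neg_neg, one_mul, neg_mul]
    ring
  · rw [SX, q1_apply, q1_apply, i1_apply, i1_apply]
    congr 1
    have e : bil !![cN N a, cN N b; cN N c, cN N d] !![cN N a', cN N b'; cN N c', cN N d'] =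
        cN N (a * d' + d * a' - b * c' - c * b') := by simp [bil]
    rw [e, cN, ← psi_cast (m := 2) rfl]
    congr 1
    push_cast
    ring
  · have hc : cN N (N : ZMod (2 * N)) = 0 := by rw [map_natCast, ZMod.natCast_self]
    have h1 := h (N, 0, 0, 0) (by rw [q1_apply, mat_zero]; simp [hc])
    have h2 := h (0, N, 0, 0) (by rw [q1_apply, mat_zero]; simp [hc])
    simp only [i1_apply, psi_eq_one] at h1 h2
    obtain ⟨d, hd⟩ := exists_mul (m := N) (n := 2) (mul_comm 2 N) (a := s' - s)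
      (by linear_combination h1)
    obtain ⟨c, hc⟩ := exists_mul (m := N) (n := 2) (mul_comm 2 N) (a := t - t')
      (by linear_combination -h2)
    push_cast at hd hc
    refine ⟨(s + d, t - c, c, d), ?_⟩
    simp only [i1_apply, Prod.mk.injEq]
    exact ⟨⟨by ring, by linear_combination -hd⟩, by ring, by linear_combination hc⟩
  · rw [kk_q1, kk_i1]
    push_cast
    field_simp
    norm_num
  · rw [TX, Tm, Tm, Matrix.diagonal_kronecker_diagonal, Matrix.diagonal_kronecker_diagonal]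
    refine lawT _ _ fun z => ?_
    obtain ⟨a, b, c, d, rfl⟩ := int4 z
    have e : -(q1 N ((a : ZMod (2 * N)), (b : ZMod (2 * N)), (c : ZMod (2 * N)),
        (d : ZMod (2 * N)))).det = ((b * c - a * d : ℤ) : ZMod N) := by
      rw [q1_apply, Matrix.det_fin_two_of]
      simp only [map_intCast]
      push_cast
      ring
    rw [e, psi_int, i1_apply, ← Int.cast_sub, ← Int.cast_add, ← Int.cast_add, ← Int.cast_sub]
    change tv _ 1 _ * tv _ (-1) _ * (tv _ 1 _ * tv _ (-1) _) = _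
    simp only [tv_int hk, ← ee_add]
    congr 1
    push_cast
    field_simp
    ring

end good

/-! ### The embedding -/

section emb

variable (j : ℕ) [NeZero (16 * j)] [NeZero (32 * j)]

/-- Reduction modulo eight. -/
def c8 : ZMod (32 * j) →+* ZMod 8 := ZMod.castHom ⟨4 * j, by ring⟩ (ZMod 8)

/-- Reduction modulo `16 j`. -/
def ck : ZMod (32 * j) →+* ZMod (16 * j) := ZMod.castHom ⟨2, by ring⟩ (ZMod (16 * j))

/-- The map to matrices. -/
def i2 : Z4 (32 * j) →+ MN (32 * j) :=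
  AddMonoidHom.mk' (fun z => !![z.2.2.2 - z.2.2.1, ((4 * j : ℕ) : ZMod (32 * j)) * z.1;
    z.2.1, z.2.2.2 + z.2.2.1]) fun x y => by
    ext a b
    fin_cases a <;> fin_cases b <;> simp <;> ring

/-- The map to classes. -/
def q2 : Z4 (32 * j) →+ Cls j × ZMod (16 * j) :=
  AddMonoidHom.mk' (fun z => ((c8 j z.1, c8 j z.2.1, ck j z.2.2.1), ck j z.2.2.2)) fun x y => by
    simp

lemma i2_apply (b c ρ r : ZMod (32 * j)) :
    i2 j (b, c, ρ, r) = !![r - ρ, ((4 * j : ℕ) : ZMod (32 * j)) * b; c, r + ρ] := rfl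

lemma q2_apply (b c ρ r : ZMod (32 * j)) :
    q2 j (b, c, ρ, r) = ((c8 j b, c8 j c, ck j ρ), ck j r) := rfl

lemma i2_int (b c ρ r : ℤ) : i2 j (b, c, ρ, r) = red _ (xmat j b c ρ r) := by
  rw [i2_apply]
  ext a b
  fin_cases a <;> fin_cases b <;> simp [red, xmat]

lemma q2_int (b c ρ r : ℤ) : q2 j (b, c, ρ, r) = (cls j b c ρ, (r : ZMod (16 * j))) := by
  simp only [q2_apply, map_intCast, cls]

lemma cls_surj (v : Cls j) : ∃ b c ρ : ℤ, v = cls j b c ρ := by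
  obtain ⟨b, c, ρ⟩ := v
  obtain ⟨b, rfl⟩ := ZMod.intCast_surjective b
  obtain ⟨c, rfl⟩ := ZMod.intCast_surjective c
  obtain ⟨ρ, rfl⟩ := ZMod.intCast_surjective ρ
  exact ⟨b, c, ρ, rfl⟩

lemma q2_surj : Function.Surjective (q2 j) := fun ⟨v, r⟩ => by
  obtain ⟨b, c, ρ, rfl⟩ := cls_surj j v
  obtain ⟨r, rfl⟩ := ZMod.intCast_surjective r
  exact ⟨_, q2_int j b c ρ r⟩

lemma ker2 {b c ρ r : ZMod (32 * j)} (h : i2 j (b, c, ρ, r) = 0) :
    c = 0 ∧ ρ = r ∧ ((4 * j : ℕ) : ZMod (32 * j)) * b = 0 ∧ ((2 : ℕ) : ZMod (32 * j)) * r = 0 := by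
  rw [i2_apply, mat_zero] at h
  obtain ⟨h1, h2, h3, h4⟩ := h
  exact ⟨h3, by linear_combination -h1, h2, by push_cast; linear_combination h1 + h4⟩

lemma ker2' (z : Z4 (32 * j)) (h : i2 j z = 0) : q2 j z = 0 := by
  obtain ⟨b, c, ρ, r⟩ := z
  obtain ⟨rfl, rfl, h1, h2⟩ := ker2 j h
  have e1 : c8 j b = 0 := (zero_iff (n := 8) (by ring) _ _).1 h1
  have e2 : ck j ρ = 0 := (zero_iff (n := 16 * j) (by ring) _ _).1 h2
  rw [q2_apply, e1, e2, map_zero]
  rfl

lemma kk_i2 : (kk (i2 j) : ℂ) = 8 * j := by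
  rw [kk_eq (i2 j) (Km (32 * j) (4 * j) ×ˢ Km (32 * j) 2) (fun y => (y.1, 0, y.2, y.2))
    (fun z => (z.1, z.2.2.2)) (fun y hy => ?_) (fun ⟨b, c, ρ, r⟩ hz => ?_) fun _ => rfl,
    Finset.card_product, Nat.cast_mul, card_Km (n := 8) (by ring),
    card_Km (n := 16 * j) (by ring)]
  · push_cast
    ring
  · obtain ⟨h1, h2⟩ := Finset.mem_product.1 hy
    rw [mem_Km] at h1 h2
    rw [i2_apply, mat_zero]
    exact ⟨sub_self _, h1, rfl, by push_cast at h2; linear_combination h2⟩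
  · obtain ⟨rfl, rfl, h1, h2⟩ := ker2 j hz
    exact ⟨Finset.mem_product.2 ⟨mem_Km.2 h1, mem_Km.2 h2⟩, rfl⟩

lemma j_ne : (j : ℂ) ≠ 0 := fun h =>
  NeZero.ne (16 * j) (by rw [Nat.cast_eq_zero.1 h, mul_zero])

lemma kk_q2 : (kk (q2 j) : ℂ) = 64 * j ^ 2 := by
  have h := card_eq (q2 j) (q2_surj j)
  simp only [Fintype.card_prod, ZMod.card] at h
  push_cast at h
  have h0 : (16384 : ℂ) * j ^ 2 ≠ 0 := mul_ne_zero (by norm_num) (pow_ne_zero _ (j_ne j))
  exact mul_left_cancel₀ h0 (by linear_combination -h)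

/-- The bicharacter on classes. -/
noncomputable def s0 (x y : Cls j) : ℂ :=
  ZMod.stdAddChar (-(x.1 * y.2.1 + x.2.1 * y.1)) * ZMod.stdAddChar (-(x.2.2 * y.2.2))

/-- The matrix `S` on classes. -/
noncomputable def S0 : Matrix (Cls j) (Cls j) ℂ :=
  Matrix.of fun x y => (8⁻¹ * (Real.sqrt (16 * j : ℕ) : ℂ)⁻¹) * s0 j x y

/-- The diagonal of the matrix `T` on classes. -/
noncomputable def t0 (x : Cls j) : ℂ := ZMod.stdAddChar (x.1 * x.2.1) * tv (16 * j) 1 x.2.2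

lemma even16 : Even (16 * j) := ⟨8 * j, by ring⟩

lemma t0_int (b c ρ : ℤ) : t0 j (cls j b c ρ) =
    ee (((ρ ^ 2 + 4 * j * b * c : ℤ) : ℂ) / (32 * j) - 1 / 24) := by
  have := j_ne j
  simp only [t0, cls]
  rw [← Int.cast_mul, psi_int, tv_int (even16 j), ← ee_add]
  congr 1
  push_cast
  field_simp
  ring

lemma S0_four (v : Cls j → ℂ) :
    nsq (S0 j *ᵥ v) = nsq v ∧ ∀ a, (S0 j *ᵥ (S0 j *ᵥ v)) a = v (-a) := by
  refine four (s0 j) _ (fun x y w => ?_) (fun x y => ?_) (fun x => by simp [s0])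
    (fun ⟨b, c, ρ⟩ h => ?_) (fun x y => ?_) (by simp) ?_ v
  · simp only [s0, Prod.fst_add, Prod.snd_add]
    rw [mul_mul_mul_comm, ← AddChar.map_add_eq_mul, ← AddChar.map_add_eq_mul]
    congr 2 <;> ring
  · simp only [s0]
    congr 2 <;> ring
  · have h1 := h (0, 1, 0)
    have h2 := h (1, 0, 0)
    have h3 := h (0, 0, 1)
    simp only [s0, zero_mul, one_mul, zero_add, add_zero, neg_zero, AddChar.map_zero_eq_one,
      mul_one, psi_eq_one, neg_eq_zero] at h1 h2 h3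
    rw [h1, h2, h3]
    rfl
  · simp only [s0, star_mul', Complex.star_def, ← AddChar.map_neg_eq_conj, Prod.fst_neg,
      Prod.snd_neg]
    congr 2 <;> ring
  · have := j_ne j
    rw [mul_mul_mul_comm, sqrt_sq]
    simp only [Fintype.card_prod, ZMod.card]
    push_cast
    field_simp

lemma law2S : Pm (i2 j) (q2 j) * (SX (32 * j))ᵀ =
    (S0 j ⊗ₖ Sm (16 * j) (-1))ᵀ * Pm (i2 j) (q2 j) := by
  have hj := j_ne j
  refine lawS (fun x w => ZMod.stdAddChar (bil w x)) (((32 * j : ℕ) : ℂ) ^ 2)⁻¹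
    (8⁻¹ * ((16 * j : ℕ) : ℂ)⁻¹) (q2_surj j) (fun x y w => ?_) (fun x w => rfl)
    (fun ⟨b, c, ρ, r⟩ ⟨b', c', ρ', r'⟩ => ?_) (fun w h => ?_) ?_
    (mul_ne_zero (by norm_num) (inv_ne_zero (Nat.cast_ne_zero.2 (NeZero.ne _))))
  · rw [← AddChar.map_add_eq_mul]
    congr 1
    simp only [bil, Matrix.add_apply]
    ring
  · have e : bil (i2 j (b', c', ρ', r')) (i2 j (b, c, ρ, r)) =
        ((4 * j : ℕ) : ZMod (32 * j)) * (-(b' * c + c' * b)) +
          ((2 : ℕ) : ZMod (32 * j)) * (-(ρ' * ρ)) + ((2 : ℕ) : ZMod (32 * j)) * (r' * r) := by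
      simp only [i2_apply, bil, Matrix.of_apply, Matrix.cons_val', Matrix.cons_val_zero,
        Matrix.cons_val_one, Matrix.cons_val_fin_one]
      push_cast
      ring
    rw [e, AddChar.map_add_eq_mul, AddChar.map_add_eq_mul,
      psi_cast (n := 8) (by ring) ⟨4 * j, by ring⟩, psi_cast (n := 16 * j) (by ring) ⟨2, by ring⟩,
      psi_cast (n := 16 * j) (by ring) ⟨2, by ring⟩]
    simp only [Matrix.transpose_apply, Matrix.kroneckerMap_apply, q2_apply, S0, s0,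
      Matrix.of_apply, Sm_eq, ← sqrt_sq, c8, ck, map_neg, map_add, map_mul, Int.cast_neg,
      Int.cast_one, neg_neg, one_mul]
    ring
  · have h8 : c8 j ((8 : ℕ) : ZMod (32 * j)) = 0 := by rw [map_natCast, ZMod.natCast_self]
    have hk : ck j ((16 * j : ℕ) : ZMod (32 * j)) = 0 := by rw [map_natCast, ZMod.natCast_self]
    have h1 := h (0, (8 : ℕ), 0, 0) (by rw [q2_apply, h8, map_zero, map_zero]; rfl)
    have h2 := h (0, 0, 0, (16 * j : ℕ)) (by rw [q2_apply, hk, map_zero, map_zero]; rfl)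
    simp only [i2_apply, psi_eq_one, bil, Matrix.of_apply, Matrix.cons_val', Matrix.cons_val_zero,
      Matrix.cons_val_one, Matrix.cons_val_fin_one] at h1 h2
    have : NeZero (4 * j) := ⟨fun e => NeZero.ne (16 * j) (by omega)⟩
    obtain ⟨b, hb⟩ := exists_mul (m := 8) (n := 4 * j) (by ring) (a := w 0 1)
      (by linear_combination -h1)
    obtain ⟨r, hr⟩ := exists_mul (m := 16 * j) (n := 2) (by ring) (a := w 0 0 + w 1 1)
      (by linear_combination h2)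
    refine ⟨(b, w 1 0, r - w 0 0, r), ?_⟩
    rw [i2_apply, Matrix.eta_fin_two w, mat_eq]
    exact ⟨by simp, by simpa using hb.symm, by simp, by
      push_cast at hr
      simp only [Matrix.of_apply, Matrix.cons_val', Matrix.cons_val_zero]
      linear_combination -hr⟩
  · rw [kk_q2, kk_i2]
    push_cast
    field_simp
    norm_num

lemma law2T : Pm (i2 j) (q2 j) * (TX (32 * j))ᵀ =
    (Matrix.diagonal (t0 j) ⊗ₖ Tm (16 * j) (-1))ᵀ * Pm (i2 j) (q2 j) := by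
  have hj := j_ne j
  rw [TX, Tm, Matrix.diagonal_kronecker_diagonal, Matrix.diagonal_transpose,
    Matrix.diagonal_transpose]
  refine lawT _ _ fun z => ?_
  obtain ⟨b, c, ρ, r, rfl⟩ := int4 z
  have e : -(i2 j ((b : ZMod (32 * j)), (c : ZMod (32 * j)), (ρ : ZMod (32 * j)),
      (r : ZMod (32 * j)))).det = ((ρ ^ 2 + 4 * j * b * c - r ^ 2 : ℤ) : ZMod (32 * j)) := by
    rw [i2_apply, Matrix.det_fin_two_of]
    push_cast
    ring
  rw [e, psi_int, q2_int]
  change _ = t0 j _ * tv _ (-1) _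
  rw [t0_int, tv_int (even16 j), ← ee_add]
  congr 1
  push_cast
  field_simp
  ring

/-- The embedding. -/
noncomputable def EE : (Cls j → ℂ) →ₗ[ℂ] (ZMod (16 * j) → ℂ) →ₗ[ℂ] MN (32 * j) → ℂ :=
  LinearMap.mk₂ ℂ (fun v ξ => (kk (i2 j) : ℂ)⁻¹ • ((fun u => v u.1 * ξ u.2) ᵥ* Pm (i2 j) (q2 j)))
    (fun v v' ξ => by
      rw [← smul_add, ← Matrix.add_vecMul]
      congr 2
      funext u
      simp [add_mul])
    (fun c v ξ => by
      have e : (fun u : Cls j × ZMod (16 * j) => (c • v) u.1 * ξ u.2) =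
          c • fun u => v u.1 * ξ u.2 := by
        funext u
        simp [mul_assoc]
      rw [e, Matrix.smul_vecMul, smul_comm])
    (fun v ξ ξ' => by
      rw [← smul_add, ← Matrix.add_vecMul]
      congr 2
      funext u
      simp [mul_add])
    (fun c v ξ => by
      have e : (fun u : Cls j × ZMod (16 * j) => v u.1 * (c • ξ) u.2) =
          c • fun u => v u.1 * ξ u.2 := by
        funext u
        simp [mul_left_comm]
      rw [e, Matrix.smul_vecMul, smul_comm])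

lemma EE_apply (v : Cls j → ℂ) (ξ : ZMod (16 * j) → ℂ) : EE j v ξ =
    (kk (i2 j) : ℂ)⁻¹ • ((fun u => v u.1 * ξ u.2) ᵥ* Pm (i2 j) (q2 j)) := rfl

lemma EE_law {X : Matrix (MN (32 * j)) (MN (32 * j)) ℂ} {Y : Matrix (Cls j) (Cls j) ℂ}
    {W : Matrix (ZMod (16 * j)) (ZMod (16 * j)) ℂ}
    (h : Pm (i2 j) (q2 j) * Xᵀ = (Y ⊗ₖ W)ᵀ * Pm (i2 j) (q2 j)) (v : Cls j → ℂ)
    (ξ : ZMod (16 * j) → ℂ) : X *ᵥ EE j v ξ = EE j (Y *ᵥ v) (W *ᵥ ξ) := by
  rw [EE_apply, EE_apply, Matrix.mulVec_smul, ← Matrix.vecMul_transpose, Matrix.vecMul_vecMul, h,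
    ← Matrix.vecMul_vecMul, Matrix.vecMul_transpose]
  congr 2
  funext u
  simp only [Matrix.mulVec, dotProduct, Matrix.kroneckerMap_apply]
  rw [Fintype.sum_prod_type, Finset.sum_mul_sum]
  exact Finset.sum_congr rfl fun a _ => Finset.sum_congr rfl fun b _ => by ring

end emb

end Emb

theorem emb (hG : GEN) (hM : THM) : EMB where
  good N _ := by
    have : NeZero (2 * N) := ⟨mul_ne_zero two_ne_zero (NeZero.ne N)⟩
    exact Emb.good N hG hM
  emb j _ _ := by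
    refine ⟨Emb.EE j, Emb.S0 j, Matrix.diagonal (Emb.t0 j), fun v ξ b c ρ r => ?_,
      fun v ξ x hx => ?_, Emb.EE_law j (Emb.law2S j), Emb.EE_law j (Emb.law2T j),
      fun v => (Emb.S0_four j v).1, fun v => (Emb.S0_four j v).2, fun v b c ρ => ?_⟩
    · rw [Emb.EE_apply, ← Emb.i2_int, Pi.smul_apply, Emb.vec_val (Emb.ker2' j), Emb.q2_int,
        smul_eq_mul, inv_mul_cancel_left₀ (Emb.kk_ne _)]
    · rw [Emb.EE_apply, Pi.smul_apply, Emb.vec_Pm, Finset.sum_eq_zero, smul_zero]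
      intro z _
      obtain ⟨b, c, ρ, r, rfl⟩ := Emb.int4 z
      exact if_neg fun h => hx b c ρ r (h.symm.trans (Emb.i2_int j b c ρ r))
    · rw [Matrix.mulVec_diagonal, Emb.t0_int]

end Pool.Agent.MP_9207e0_ag.hg

end MrgPart0

-- ======== part 1: formerly Pool.Agent.MP_9207e0_ag.hg.Lead
section MrgPart1

/-! Module LEAD: orders along graphs and the leading coefficient along the diagonal. -/

set_option linter.unusedSectionVars false
set_option linter.unusedVariables false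

namespace Pool.Agent.MP_9207e0_ag.hg

open UpperHalfPlane Complex Filter Asymptotics Matrix Topology Metric
open scoped Real MatrixGroups Manifold Classical

namespace Ld

/-! ### One variable -/

/-- The normalising constant of the derivative. -/
noncomputable def cc : ℂ := (2 * π * Complex.I)⁻¹

lemma cc_ne : cc ≠ 0 := inv_ne_zero Complex.two_pi_I_ne_zero

lemma ev_up (τ : ℍ) : ∀ᶠ z in 𝓝 (τ : ℂ), 0 < z.im := isOpen_upperHalfPlaneSet.mem_nhds τ.im_pos

lemma coe_of {z : ℂ} (hz : 0 < z.im) : ((ofComplex z : ℍ) : ℂ) = z := by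
  rw [ofComplex_apply_of_im_pos hz]

lemma dd_iter (k : ℕ) (w : ℍ → ℂ) (τ : ℍ) :
    dd^[k] w τ = cc ^ k * iteratedDeriv k (w ∘ ofComplex) τ := by
  induction k generalizing τ with
  | zero => simp
  | succ k ih =>
    have e : (dd^[k] w) ∘ ofComplex =ᶠ[𝓝 (τ : ℂ)]
        fun z => cc ^ k * iteratedDeriv k (w ∘ ofComplex) z := by
      filter_upwards [ev_up τ] with z hz
      rw [Function.comp_apply, ih, coe_of hz]
    rw [Function.iterate_succ_apply', dd, e.deriv_eq, deriv_const_mul_field, iteratedDeriv_succ,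
      pow_succ', mul_assoc cc, cc]

lemma hol_dd {w : ℍ → ℂ} (hw : Hol w) : Hol (dd w) := by
  rw [hol_iff] at hw ⊢
  intro τ
  refine (analyticAt_const (v := cc).mul (hw τ).deriv).congr ?_
  filter_upwards [ev_up τ] with z hz
  rw [Function.comp_apply, dd, coe_of hz, cc, Pi.mul_apply]

lemma hol_iter (k : ℕ) {w : ℍ → ℂ} (hw : Hol w) : Hol (dd^[k] w) := by
  induction k with
  | zero => exact hw
  | succ k ih => rw [Function.iterate_succ_apply']; exact hol_dd ih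

lemma top (n : ℕ) {f g : ℂ → ℂ} {z₀ : ℂ} (hg : AnalyticAt ℂ g z₀)
    (h : ∀ᶠ z in 𝓝 z₀, f z = (z - z₀) ^ n * g z) :
    iteratedDeriv n f z₀ = n.factorial * g z₀ := by
  induction n generalizing f g with
  | zero => simpa using h.self_of_nhds
  | succ n ih =>
    have e : f =ᶠ[𝓝 z₀] fun z => (z - z₀) ^ (n + 1) * g z := h
    have a : AnalyticAt ℂ (fun z => ((n : ℂ) + 1) * g z + (z - z₀) * deriv g z) z₀ := by
      have := hg.deriv
      fun_prop
    rw [iteratedDeriv_succ', ih a ?_]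
    · rw [Nat.factorial_succ]
      push_cast
      ring
    filter_upwards [e.deriv, hg.eventually_analyticAt] with z h1 h2
    have d := (((hasDerivAt_id z).sub_const z₀).pow (n + 1)).mul h2.differentiableAt.hasDerivAt
    rw [h1]
    refine d.deriv.trans ?_
    simp only [id, Nat.add_sub_cancel, Pi.pow_apply]
    push_cast
    ring

lemma dd_top {n : ℕ} {w g : ℍ → ℂ} {a : ℍ} (hg : Hol g)
    (h : ∀ s, w s = ((s : ℂ) - a) ^ n * g s) : dd^[n] w a = cc ^ n * (n.factorial * g a) := by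
  rw [dd_iter, top n (hol_iff.mp hg a) ?_]
  · simp
  filter_upwards [ev_up a] with z hz
  rw [Function.comp_apply, h, coe_of hz, Function.comp_apply]

lemma le_ord_iff {w : ℍ → ℂ} (hw : Hol w) (a : ℍ) (n : ℕ) :
    (n : ℕ∞) ≤ ordE w a ↔ ∀ k < n, dd^[k] w a = 0 := by
  rw [ordE, natCast_le_analyticOrderAt_iff_iteratedDeriv_eq_zero (hol_iff.mp hw a)]
  simp only [dd_iter, mul_eq_zero, pow_ne_zero _ cc_ne, false_or]

lemma hol_coe : Hol fun s : ℍ => (s : ℂ) := UpperHalfPlane.mdifferentiable_coe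

lemma hol_const (c : ℂ) : Hol fun _ => c := mdifferentiable_const

lemma hol_sub (a : ℂ) : Hol fun s : ℍ => (s : ℂ) - a := hol_coe.sub (hol_const a)

lemma hol_pow {w : ℍ → ℂ} (hw : Hol w) (n : ℕ) : Hol fun s => w s ^ n := hw.pow n

lemma hol_mul {a b : ℍ → ℂ} (ha : Hol a) (hb : Hol b) : Hol fun s => a s * b s := ha.mul hb

lemma hol_sum {ι : Type} (S : Finset ι) {a : ι → ℍ → ℂ} (h : ∀ i ∈ S, Hol (a i)) :
    Hol fun s => ∑ i ∈ S, a i s := by
  rw [hol_iff]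
  intro τ
  exact Finset.analyticAt_fun_sum S fun i hi => hol_iff.mp (h i hi) τ

lemma hol_prod {ι : Type} (S : Finset ι) {a : ι → ℍ → ℂ} (h : ∀ i ∈ S, Hol (a i)) :
    Hol fun s => ∏ i ∈ S, a i s := by
  rw [hol_iff]
  intro τ
  exact Finset.analyticAt_fun_prod S fun i hi => hol_iff.mp (h i hi) τ

lemma hol_div {a b : ℍ → ℂ} (ha : Hol a) (hb : Hol b) (h : ∀ s, b s ≠ 0) :
    Hol fun s => a s / b s := by
  rw [hol_iff] at ha hb ⊢
  intro τ
  exact (ha τ).fun_div (hb τ) (h _)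

lemma div_zero {w : ℍ → ℂ} (hw : Hol w) {a : ℍ} (h : w a = 0) :
    ∃ g, Hol g ∧ ∀ s, w s = ((s : ℂ) - a) * g s := by
  refine ⟨fun s => dslope (w ∘ ofComplex) a s, ?_, fun s => ?_⟩
  · rw [Hol, UpperHalfPlane.mdifferentiable_iff] at hw ⊢
    refine ((Complex.differentiableOn_dslope
      (isOpen_upperHalfPlaneSet.mem_nhds a.im_pos)).mpr hw).congr fun z hz => ?_
    rw [Function.comp_apply, coe_of hz]
  · have := sub_smul_dslope (w ∘ ofComplex) (a : ℂ) (s : ℂ)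
    simpa [h] using this.symm

lemma div_one {w : ℍ → ℂ} (hw : Hol w) {a : ℍ} {n : ℕ} (h : (n : ℕ∞) ≤ ordE w a) :
    ∃ g, Hol g ∧ ∀ s, w s = ((s : ℂ) - a) ^ n * g s := by
  induction n with
  | zero => exact ⟨w, hw, by simp⟩
  | succ n ih =>
    obtain ⟨g, hg, e⟩ := ih (le_trans (by exact_mod_cast n.le_succ) h)
    have k := (le_ord_iff hw a _).mp h n n.lt_succ_self
    rw [dd_top hg e] at k
    have k2 : g a = 0 := by
      simpa [cc_ne, Nat.factorial_ne_zero] using k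
    obtain ⟨g', hg', e'⟩ := div_zero hg k2
    exact ⟨g', hg', fun s => by rw [e, e', pow_succ, mul_assoc]⟩

lemma ord_of_mul {w u g : ℍ → ℂ} (hu : Hol u) (hg : Hol g) (e : ∀ s, w s = u s * g s) {b : ℍ}
    (hb : u b ≠ 0) : ordE w b = ordE g b := by
  have : w = u * g := funext e
  rw [this, ordE_mul hu hg, (ordE_eq_zero hu b).mpr hb, zero_add]

lemma div_many {ι : Type} (S : Finset ι) (a : ι → ℍ) (n : ι → ℕ) (ha : Set.InjOn a S) {w : ℍ → ℂ}
    (hw : Hol w) (h : ∀ i ∈ S, (n i : ℕ∞) ≤ ordE w (a i)) :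
    ∃ g, Hol g ∧ ∀ s, w s = (∏ i ∈ S, ((s : ℂ) - a i) ^ n i) * g s := by
  induction S using Finset.induction_on generalizing w with
  | empty => exact ⟨w, hw, by simp⟩
  | insert j S hj ih =>
    obtain ⟨g, hg, e⟩ := div_one hw (h j (Finset.mem_insert_self _ _))
    obtain ⟨g', hg', e'⟩ := ih (ha.mono (by simp)) hg fun i hi => by
      rw [← ord_of_mul (hol_pow (hol_sub _) _) hg e]
      · exact h i (Finset.mem_insert_of_mem hi)
      · refine pow_ne_zero _ (sub_ne_zero.mpr fun k => hj ?_)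
        have := ha (by simp [hi]) (by simp) (UpperHalfPlane.ext k)
        rwa [← this]
    exact ⟨g', hg', fun s => by rw [e, e', Finset.prod_insert hj, mul_assoc]⟩

lemma le_ord_of_bound {f H : ℂ → ℂ} {z₀ : ℂ} (hf : AnalyticAt ℂ f z₀) (hH : ContinuousAt H z₀)
    {m : ℕ} {C : ℝ} (h : ∀ᶠ z in 𝓝[≠] z₀, ‖f z‖ ≤ C * ‖(z - z₀) ^ m * H z‖) :
    (m : ℕ∞) ≤ analyticOrderAt f z₀ := by
  by_contra hc
  obtain ⟨k, hk⟩ := ENat.ne_top_iff_exists.mp (ne_top_of_lt (not_le.mp hc))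
  obtain ⟨u, hu, h0, e⟩ := hf.analyticOrderAt_eq_natCast.mp hk.symm
  rw [← hk, Nat.cast_le, not_le] at hc
  obtain ⟨j, rfl⟩ := Nat.exists_eq_add_of_lt hc
  have t1 : Tendsto (fun z => ‖u z‖) (𝓝[≠] z₀) (𝓝 ‖u z₀‖) :=
    hu.continuousAt.norm.tendsto.mono_left nhdsWithin_le_nhds
  have t2 : Tendsto (fun z => C * ‖(z - z₀) ^ (j + 1) * H z‖) (𝓝[≠] z₀) (𝓝 0) := by
    have : ContinuousAt (fun z => C * ‖(z - z₀) ^ (j + 1) * H z‖) z₀ := by fun_prop
    simpa using this.tendsto.mono_left nhdsWithin_le_nhds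
  refine h0 (norm_le_zero_iff.mp (le_of_tendsto_of_tendsto t1 t2 ?_))
  filter_upwards [h, e.filter_mono nhdsWithin_le_nhds, self_mem_nhdsWithin] with z h1 h2 h3
  have p : 0 < ‖(z - z₀) ^ k‖ := norm_pos_iff.mpr (pow_ne_zero _ (sub_ne_zero.mpr h3))
  rw [h2, smul_eq_mul, add_assoc, pow_add, mul_assoc, norm_mul, norm_mul] at h1
  refine le_of_mul_le_mul_left ?_ p
  linarith

lemma max_bound {ι : Type} (S : Finset ι) (a : ι → ℍ) (n : ι → ℕ) {w g : ℍ → ℂ} (hg : Hol g)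
    (e : ∀ s, w s = (∏ i ∈ S, ((s : ℂ) - a i) ^ n i) * g s) (t₀ : ℍ) {R M : ℝ} (hR : 0 < R)
    (hR' : 2 * R < t₀.im) (ha : ∀ i ∈ S, ‖(a i : ℂ) - t₀‖ ≤ R)
    (hM : ∀ s : ℍ, ‖(s : ℂ) - t₀‖ ≤ 2 * R → ‖w s‖ ≤ M) (t : ℍ) (ht : ‖(t : ℂ) - t₀‖ ≤ R) :
    ‖g t‖ ≤ M / ∏ i ∈ S, R ^ n i := by
  have sub : closedBall (t₀ : ℂ) (2 * R) ⊆ upperHalfPlaneSet := fun z hz => by
    rw [mem_closedBall, dist_eq_norm] at hz
    have k := (abs_le.mp ((Complex.abs_im_le_norm _).trans hz)).1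
    simp only [sub_im, coe_im] at k
    show 0 < z.im
    linarith
  have d : DiffContOnCl ℂ (g ∘ ofComplex) (ball (t₀ : ℂ) (2 * R)) :=
    DifferentiableOn.diffContOnCl ((UpperHalfPlane.mdifferentiable_iff.mp hg).mono
      (closure_ball_subset_closedBall.trans sub))
  have p : 0 < ∏ i ∈ S, R ^ n i := Finset.prod_pos fun i _ => pow_pos hR _
  have k := Complex.norm_le_of_forall_mem_frontier_norm_le isBounded_ball d
    (C := M / ∏ i ∈ S, R ^ n i) (z := t) (fun z hz => ?_)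
    (subset_closure (by rw [mem_ball, dist_eq_norm]; linarith))
  · simpa using k
  rw [frontier_ball _ (by linarith), mem_sphere, dist_eq_norm] at hz
  have hz' : 0 < z.im := sub (by rw [mem_closedBall, dist_eq_norm]; exact hz.le)
  have k1 := hM (ofComplex z) (by rw [coe_of hz']; exact hz.le)
  rw [e, norm_mul, coe_of hz', norm_prod] at k1
  rw [le_div_iff₀' p]
  refine le_trans (mul_le_mul_of_nonneg_right (Finset.prod_le_prod
    (fun i _ => (pow_pos hR _).le) fun i hi => ?_) (norm_nonneg _)) k1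
  rw [norm_pow]
  refine pow_le_pow_left₀ hR.le ?_ _
  have k2 := norm_add_le (z - a i) ((a i : ℂ) - t₀)
  rw [sub_add_sub_cancel] at k2
  linarith [ha i hi]

/-! ### Two variables -/

/-- Finite sums of products of holomorphic functions. -/
def TH (P : ℍ → ℍ → ℂ) : Prop :=
  ∃ (n : ℕ) (w w' : Fin n → ℍ → ℂ), (∀ i, Hol (w i) ∧ Hol (w' i)) ∧
    P = fun t s => ∑ i, w i t * w' i s

lemma th_of {N : ℕ} {P : ℍ → ℍ → ℂ} (h : Ten N P) : TH P := by
  obtain ⟨n, w, w', h1, h2⟩ := h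
  exact ⟨n, w, w', fun i => ⟨(h1 i).1.1, (h1 i).2.1⟩, h2⟩

lemma ten_mul {N : ℕ} {P Q : ℍ → ℍ → ℂ} (hP : Ten N P) (hQ : Ten N Q) : Ten N (P * Q) := by
  obtain ⟨n, w, w', h1, rfl⟩ := hP
  obtain ⟨m, v, v', h2, rfl⟩ := hQ
  refine ⟨n * m, fun k => w (finProdFinEquiv.symm k).1 * v (finProdFinEquiv.symm k).2,
    fun k => w' (finProdFinEquiv.symm k).1 * v' (finProdFinEquiv.symm k).2,
    fun k => ⟨mul_mem (h1 _).1 (h2 _).1, mul_mem (h1 _).2 (h2 _).2⟩, ?_⟩
  ext t s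
  rw [← finProdFinEquiv.sum_comp]
  simp only [Pi.mul_apply, Equiv.symm_apply_apply, Fintype.sum_prod_type, Finset.sum_mul_sum]
  exact Finset.sum_congr rfl fun i _ => Finset.sum_congr rfl fun j _ => by ring

lemma TH.slice {P : ℍ → ℍ → ℂ} (h : TH P) (t : ℍ) : Hol (P t) := by
  obtain ⟨n, w, w', h1, rfl⟩ := h
  exact hol_sum _ fun i _ => hol_mul (hol_const _) (h1 i).2

lemma iter_sum {n : ℕ} (c : Fin n → ℂ) {w' : Fin n → ℍ → ℂ} (h : ∀ i, Hol (w' i)) (k : ℕ)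
    (s : ℍ) : dd^[k] (fun s => ∑ i, c i * w' i s) s = ∑ i, c i * dd^[k] (w' i) s := by
  have e : (fun s => ∑ i, c i * w' i s) ∘ ofComplex =
      fun z => ∑ i, c i * (w' i ∘ ofComplex) z := rfl
  rw [dd_iter, e, iteratedDeriv_fun_sum (f := fun i z => c i * (w' i ∘ ofComplex) z) fun i _ =>
    (analyticAt_const.mul (hol_iff.mp (h i) s)).contDiffAt, Finset.mul_sum]
  refine Finset.sum_congr rfl fun i _ => ?_
  rw [iteratedDeriv_const_mul_field, dd_iter, mul_left_comm]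

lemma TH.graph {P : ℍ → ℍ → ℂ} (h : TH P) {x : M2} (hx : 0 < x.det) (k : ℕ) :
    Hol fun t => dd^[k] (P t) (mob x t) := by
  obtain ⟨n, w, w', h1, rfl⟩ := h
  simp only [iter_sum _ fun i => (h1 i).2]
  exact hol_sum _ fun i _ => hol_mul (h1 i).1 ((hol_iter k (h1 i).2).comp_mob hx)

lemma ordC_le (x : M2) (P : ℍ → ℍ → ℂ) (t : ℍ) : ordC x P ≤ ordE (P t) (mob x t) :=
  iInf_le (fun t => ordE (P t) (mob x t)) t

lemma TH.gen {P : ℍ → ℍ → ℂ} (h : TH P) (h0 : P ≠ 0) {x : M2} (hx : 0 < x.det) :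
    ∃ e : ℕ, ordC x P = e ∧ (fun t => dd^[e] (P t) (mob x t)) ≠ 0 ∧
      ∀ t, dd^[e] (P t) (mob x t) ≠ 0 → ordE (P t) (mob x t) = e := by
  have ex : ∃ k : ℕ, (fun t => dd^[k] (P t) (mob x t)) ≠ 0 := by
    by_contra hc
    push Not at hc
    refine h0 (funext fun t => ?_)
    by_contra ht
    refine ordE_ne_top (h.slice t) ht (mob x t) (ENat.eq_top_iff_forall_ge.mpr fun m => ?_)
    exact (le_ord_iff (h.slice t) _ m).mpr fun k _ => congrFun (hc k) t
  have lo : ∀ t, (Nat.find ex : ℕ∞) ≤ ordE (P t) (mob x t) := fun t =>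
    (le_ord_iff (h.slice t) _ _).mpr fun k hk => congrFun (not_not.mp (Nat.find_min ex hk)) t
  have up : ∀ t, dd^[Nat.find ex] (P t) (mob x t) ≠ 0 → ordE (P t) (mob x t) = Nat.find ex :=
    fun t ht => by
      refine le_antisymm (not_lt.mp fun hc => ht ?_) (lo t)
      have : ((Nat.find ex + 1 : ℕ) : ℕ∞) ≤ ordE (P t) (mob x t) := by
        rw [Nat.cast_add_one]
        exact Order.add_one_le_of_lt hc
      exact (le_ord_iff (h.slice t) _ _).mp this _ (Nat.lt_succ_self _)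
  obtain ⟨t, ht⟩ := Function.ne_iff.mp (Nat.find_spec ex)
  exact ⟨Nat.find ex, le_antisymm ((ordC_le x P t).trans (up t ht).le) (le_iInf lo),
    Nat.find_spec ex, up⟩

lemma ordC_zero (x : M2) : ordC x 0 = ⊤ := by
  refine iInf_eq_top.mpr fun t => ?_
  rw [ordE, analyticOrderAt_eq_top]
  exact Eventually.of_forall fun _ => rfl

lemma ordC_mul {P Q : ℍ → ℍ → ℂ} {x : M2} (hx : 0 < x.det) (hP : TH P) (hQ : TH Q) :
    ordC x (P * Q) = ordC x P + ordC x Q := by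
  by_cases p0 : P = 0
  · rw [p0, zero_mul, ordC_zero, top_add]
  by_cases q0 : Q = 0
  · rw [q0, mul_zero, ordC_zero, add_top]
  have m : ∀ t, ordE ((P * Q) t) (mob x t) = ordE (P t) (mob x t) + ordE (Q t) (mob x t) :=
    fun t => ordE_mul (hP.slice t) (hQ.slice t) _
  refine le_antisymm ?_ (le_iInf fun t => ?_)
  · obtain ⟨e, h1, h2, h3⟩ := hP.gen p0 hx
    obtain ⟨e', h1', h2', h3'⟩ := hQ.gen q0 hx
    obtain ⟨t, ht⟩ := Function.ne_iff.mp ((hP.graph hx e).mul_ne_zero (hQ.graph hx e') h2 h2')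
    have ht' := mul_ne_zero_iff.mp ht
    refine (ordC_le x _ t).trans_eq ?_
    rw [m, h3 t ht'.1, h3' t ht'.2, h1, h1']
  · rw [m]
    exact add_le_add (ordC_le x P t) (ordC_le x Q t)

lemma det_one_pos : 0 < (1 : M2).det := by simp

lemma hol_lead {P : ℍ → ℍ → ℂ} (h : TH P) : Hol (lead P) := by
  have k := h.graph det_one_pos (ordC 1 P).toNat
  simp only [mob_one] at k
  exact k

lemma lead_ne {P : ℍ → ℍ → ℂ} (h : TH P) (h0 : P ≠ 0) : lead P ≠ 0 := by
  obtain ⟨e, h1, h2, -⟩ := h.gen h0 det_one_pos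
  simp only [mob_one] at h2
  unfold lead
  rw [h1, ENat.toNat_natCast]
  exact h2

lemma toNat_le (x : M2) (P : ℍ → ℍ → ℂ) (t : ℍ) :
    ((ordC x P).toNat : ℕ∞) ≤ ordE (P t) (mob x t) :=
  (ENat.natCast_toNat_le_self _).trans (ordC_le x P t)

lemma toNat_le_one (P : ℍ → ℍ → ℂ) (t : ℍ) : ((ordC 1 P).toNat : ℕ∞) ≤ ordE (P t) t := by
  simpa only [mob_one] using toNat_le 1 P t

lemma ord_const_mul {c : ℂ} (hc : c ≠ 0) {a : ℍ → ℂ} (ha : Hol a) (t : ℍ) :
    ordE (fun s => c * a s) t = ordE a t :=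
  ord_of_mul (hol_const c) ha (fun _ => rfl) hc

lemma ord_mul {P Q : ℍ → ℍ → ℂ} (t : ℍ) (hP : TH P) (hQ : TH Q) (hPQ : TH (P * Q)) (p0 : P ≠ 0)
    (q0 : Q ≠ 0) : ordE (lead (P * Q)) t = ordE (lead P) t + ordE (lead Q) t := by
  obtain ⟨e, h1, -⟩ := hP.gen p0 det_one_pos
  obtain ⟨e', h1', -⟩ := hQ.gen q0 det_one_pos
  have h2 : ordC 1 (P * Q) = (e + e' : ℕ) := by
    rw [ordC_mul det_one_pos hP hQ, h1, h1', Nat.cast_add]
  have k : (fun s => ((e.factorial : ℂ) * e'.factorial) * lead (P * Q) s) =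
      fun s => ((e + e').factorial : ℂ) * (lead P * lead Q) s := by
    ext s
    have a1 := toNat_le_one P s
    have a2 := toNat_le_one Q s
    rw [h1, ENat.toNat_natCast] at a1
    rw [h1', ENat.toNat_natCast] at a2
    obtain ⟨u, hu, eu⟩ := div_one (hP.slice s) a1
    obtain ⟨v, hv, ev⟩ := div_one (hQ.slice s) a2
    have euv : ∀ z, (P * Q) s z = ((z : ℂ) - s) ^ (e + e') * (u z * v z) := fun z => by
      rw [Pi.mul_apply, Pi.mul_apply, eu, ev]
      ring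
    rw [Pi.mul_apply, lead, lead, lead, h1, h1', h2, ENat.toNat_natCast, ENat.toNat_natCast,
      ENat.toNat_natCast, dd_top hu eu, dd_top hv ev, dd_top (hol_mul hu hv) euv]
    ring
  have f1 : ((e.factorial : ℂ) * e'.factorial) ≠ 0 := by
    exact_mod_cast (mul_pos e.factorial_pos e'.factorial_pos).ne'
  have f2 : ((e + e').factorial : ℂ) ≠ 0 := by exact_mod_cast (e + e').factorial_ne_zero
  rw [← ord_const_mul f1 (hol_lead hPQ), k, ord_const_mul f2 ((hol_lead hP).mul (hol_lead hQ)),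
    ordE_mul (hol_lead hP) (hol_lead hQ)]

/-! ### The inequality -/

lemma hol_bdd {w : ℍ → ℂ} (hw : Hol w) (t₀ : ℍ) {R : ℝ} (hR : R < t₀.im) :
    ∃ B, 0 ≤ B ∧ ∀ s : ℍ, ‖(s : ℂ) - t₀‖ ≤ R → ‖w s‖ ≤ B := by
  have sub : closedBall (t₀ : ℂ) R ⊆ upperHalfPlaneSet := fun z hz => by
    rw [mem_closedBall, dist_eq_norm] at hz
    have k := (abs_le.mp ((Complex.abs_im_le_norm _).trans hz)).1
    simp only [sub_im, coe_im] at k
    show 0 < z.im
    linarith
  obtain ⟨B, hB⟩ := (isCompact_closedBall (t₀ : ℂ) R).exists_bound_of_continuousOn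
    ((UpperHalfPlane.mdifferentiable_iff.mp hw).continuousOn.mono sub)
  refine ⟨max B 0, le_max_right _ _, fun s hs => le_trans ?_ (le_max_left _ _)⟩
  simpa using hB s (by rwa [mem_closedBall, dist_eq_norm])

lemma TH.bdd {P : ℍ → ℍ → ℂ} (h : TH P) (t₀ : ℍ) {R : ℝ} (hR : R < t₀.im) :
    ∃ M, ∀ t s : ℍ, ‖(t : ℂ) - t₀‖ ≤ R → ‖(s : ℂ) - t₀‖ ≤ R → ‖P t s‖ ≤ M := by
  obtain ⟨n, w, w', h1, rfl⟩ := h
  choose B hB0 hB using fun i => hol_bdd (h1 i).1 t₀ hR
  choose B' hB0' hB' using fun i => hol_bdd (h1 i).2 t₀ hR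
  refine ⟨∑ i, B i * B' i, fun t s ht hs => (norm_sum_le _ _).trans
    (Finset.sum_le_sum fun i _ => ?_)⟩
  rw [norm_mul]
  exact mul_le_mul (hB i t ht) (hB' i s hs) (norm_nonneg _) (hB0 i)

lemma ev_ne {a : ℍ → ℂ} (ha : Hol a) (h0 : a ≠ 0) (t : ℍ) :
    ∀ᶠ z in 𝓝[≠] (t : ℂ), a (ofComplex z) ≠ 0 :=
  (hol_iff.mp ha t).eventually_eq_zero_or_eventually_ne_zero.resolve_left
    fun h => h0 (ha.eq_zero_of_eventually h)

lemma hol_mob {x : M2} (hx : 0 < x.det) : Hol fun s => (mob x s : ℂ) := hol_coe.comp_mob hx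

lemma ev_mob_ne {x y : M2} (hx : 0 < x.det) (hy : 0 < y.det) (h : mob x ≠ mob y) (t : ℍ) :
    ∀ᶠ z in 𝓝[≠] (t : ℂ), mob x (ofComplex z) ≠ mob y (ofComplex z) := by
  have k := ev_ne (a := fun s => (mob x s : ℂ) - mob y s) ((hol_mob hx).sub (hol_mob hy))
    (fun e => h (funext fun s => UpperHalfPlane.ext (sub_eq_zero.mp (congrFun e s)))) t
  filter_upwards [k] with z hz e
  exact hz (by rw [e, sub_self])

lemma fix_ne {x : M2} (hx : 0 < x.det) {t₀ t : ℍ} (h : x ∈ Fix t₀) (ht : t ≠ t₀) :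
    mob x t ≠ t := by
  intro e
  have k := (mob_fix_iff hx t).mp e
  refine ht (quad_root_unique (a := (x 1 0 : ℝ)) (b := (x 1 1 : ℝ) - x 0 0) (c := -(x 0 1 : ℝ))
    (by exact_mod_cast h.1) ?_ ?_)
  · push_cast
    linear_combination k
  · push_cast
    linear_combination h.2

lemma ineq (hO : ORB) {P : ℍ → ℍ → ℂ} (t₀ : ℍ) (X : Finset M2) (hP : TH P) (p0 : P ≠ 0)
    (hX : ∀ x ∈ X, x ∈ Fix t₀) (hI : ∀ x ∈ X, ∀ y ∈ X, mob x = mob y → x = y) :
    ∑ x ∈ X, ordC x P ≤ ordE (lead P) t₀ := by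
  have hd : ∀ x ∈ X, 0 < x.det := fun x hx => hO.fix_det t₀ x (hX x hx)
  have hf : ∀ x ∈ X, mob x t₀ = t₀ := fun x hx => (mob_fix_iff (hd x hx) t₀).mpr (hX x hx).2
  have h1 : (1 : M2) ∉ X := fun h => (hX 1 h).1 (by simp)
  obtain ⟨n, hn⟩ : ∃ n : M2 → ℕ, n = fun x => (ordC x P).toNat := ⟨_, rfl⟩
  have e1 : ∑ x ∈ X, ordC x P = ((∑ x ∈ X, n x : ℕ) : ℕ∞) := by
    rw [Nat.cast_sum]
    refine Finset.sum_congr rfl fun x hx => ?_
    obtain ⟨e, he, -⟩ := hP.gen p0 (hd x hx)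
    simp only [hn, he, ENat.toNat_natCast]
  have ex : ∀ x ∈ X, ∃ g, Hol g ∧ ∀ s : ℍ, (s : ℂ) - mob x s = ((s : ℂ) - t₀) * g s :=
    fun x hx => div_zero (w := fun s => (s : ℂ) - mob x s) (hol_coe.sub (hol_mob (hd x hx)))
      (by simp only [hf x hx, sub_self])
  choose! h hh eh using ex
  have hH : Hol fun s => ∏ x ∈ X, h x s ^ n x := hol_prod X fun x hx => hol_pow (hh x hx) _
  obtain ⟨R, hR⟩ : ∃ R, R = t₀.im / 4 := ⟨_, rfl⟩
  have i0 := t₀.im_pos
  have R0 : 0 < R := by linarith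
  have R2 : 2 * R < t₀.im := by linarith
  obtain ⟨M, hM⟩ := hP.bdd t₀ R2
  rw [e1, ordE]
  refine le_ord_of_bound (hol_iff.mp (hol_lead hP) t₀) (hol_iff.mp hH t₀).continuousAt
    (C := ‖cc ^ n 1 * (n 1).factorial‖ * (M / ∏ x ∈ insert 1 X, R ^ n x)) ?_
  have v1 : ∀ᶠ z in 𝓝 (t₀ : ℂ), ‖z - (t₀ : ℂ)‖ ≤ R := by
    filter_upwards [closedBall_mem_nhds (t₀ : ℂ) R0] with z hz
    rwa [mem_closedBall, dist_eq_norm] at hz
  have v2 : ∀ᶠ z in 𝓝 (t₀ : ℂ), ∀ x ∈ X, ‖(mob x (ofComplex z) : ℂ) - t₀‖ ≤ R := by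
    refine (eventually_all_finset X).mpr fun x hx => ?_
    have c := (analyticAt_mob (hd x hx) t₀).continuousAt.tendsto
    rw [ofComplex_apply, hf x hx] at c
    exact c.eventually v1
  have v3 : ∀ᶠ z in 𝓝[≠] (t₀ : ℂ), ∀ x ∈ X, ∀ y ∈ X,
      mob x (ofComplex z) = mob y (ofComplex z) → x = y := by
    refine (eventually_all_finset X).mpr fun x hx => (eventually_all_finset X).mpr fun y hy => ?_
    by_cases hxy : x = y
    · exact Eventually.of_forall fun _ _ => hxy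
    · filter_upwards [ev_mob_ne (hd x hx) (hd y hy) (fun e => hxy (hI x hx y hy e)) t₀] with z hz e
      exact absurd e hz
  filter_upwards [(ev_up t₀).filter_mono nhdsWithin_le_nhds, v1.filter_mono nhdsWithin_le_nhds,
    v2.filter_mono nhdsWithin_le_nhds, v3, self_mem_nhdsWithin] with z z0 z1 z2 z3 z4
  obtain ⟨t, rfl⟩ : ∃ t : ℍ, (t : ℂ) = z := ⟨⟨z, z0⟩, rfl⟩
  simp only [ofComplex_apply, Function.comp_apply] at z2 z3 ⊢
  have ht : t ≠ t₀ := fun e => z4 (by rw [e]; rfl)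
  have inj : Set.InjOn (fun x => mob x t) ↑(insert 1 X) := by
    intro x hx y hy e
    simp only [Finset.coe_insert, Set.mem_insert_iff, Finset.mem_coe] at hx hy e
    rcases hx with rfl | hx <;> rcases hy with rfl | hy
    · rfl
    · rw [mob_one] at e
      exact absurd e.symm (fix_ne (hd y hy) (hX y hy) ht)
    · rw [mob_one] at e
      exact absurd e (fix_ne (hd x hx) (hX x hx) ht)
    · exact z3 x hx y hy e
  obtain ⟨g, hg, eg⟩ := div_many (insert 1 X) (fun x => mob x t) n inj (hP.slice t)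
    fun x _ => by rw [hn]; exact toNat_le x P t
  have b := max_bound (insert 1 X) (fun x => mob x t) n hg eg t₀ R0 R2 (fun x hx => by
    rcases Finset.mem_insert.mp hx with rfl | hx
    · rwa [mob_one]
    · exact z2 x hx) (fun s hs => hM t s (by linarith) hs) t z1
  have eg' : ∀ s : ℍ, P t s = ((s : ℂ) - t) ^ n 1 *
      ((∏ x ∈ X, ((s : ℂ) - mob x t) ^ n x) * g s) := fun s => by
    rw [eg, Finset.prod_insert h1, mob_one, mul_assoc]
  have el := dd_top (hol_mul (hol_prod X fun x _ => hol_pow (hol_sub _) _) hg) eg'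
  have ep : ∏ x ∈ X, ((t : ℂ) - mob x t) ^ n x =
      ((t : ℂ) - t₀) ^ (∑ x ∈ X, n x) * ∏ x ∈ X, h x t ^ n x := by
    rw [← Finset.prod_pow_eq_pow_sum, ← Finset.prod_mul_distrib]
    exact Finset.prod_congr rfl fun x hx => by rw [eh x hx, mul_pow]
  have e2 : lead P t = dd^[n 1] (P t) t := by rw [hn]; rfl
  rw [e2, el, ep, ← mul_assoc, norm_mul, norm_mul _ (g t), mul_assoc, mul_comm (M / _)]
  gcongr

/-! ### Modularity -/

lemma chain {w : ℍ → ℂ} (hw : Hol w) {A : M2} (hA : 0 < A.det) {t : ℍ} {n : ℕ}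
    (h : (n : ℕ∞) ≤ ordE w (mob A t)) :
    dd^[n] (fun s => w (mob A s)) t =
      (A.det / ((A 1 0 : ℂ) * t + A 1 1) ^ 2) ^ n * dd^[n] w (mob A t) := by
  obtain ⟨g, hg, e⟩ := div_one hw h
  have hu : Hol fun s : ℍ => (A.det : ℂ) / (((A 1 0 : ℂ) * s + A 1 1) * ((A 1 0 : ℂ) * t + A 1 1)) :=
    hol_div (hol_const _) (hol_mul ((hol_mul (hol_const _) hol_coe).add (hol_const _))
      (hol_const _)) fun s => mul_ne_zero (den_ne hA s) (den_ne hA t)
  have e' : ∀ s : ℍ, w (mob A s) = ((s : ℂ) - t) ^ n *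
      (((A.det : ℂ) / (((A 1 0 : ℂ) * s + A 1 1) * ((A 1 0 : ℂ) * t + A 1 1))) ^ n *
        g (mob A s)) := fun s => by
    rw [e, ← mul_assoc, ← mul_pow]
    congr 2
    have d1 := den_ne hA s
    have d2 := den_ne hA t
    rw [coe_mob hA, coe_mob hA, Matrix.det_fin_two, div_sub_div _ _ d1 d2, ← mul_div_assoc]
    push_cast
    ring
  rw [dd_top (hol_mul (hol_pow hu n) (hg.comp_mob hA)) e', dd_top hg e, sq]
  ring

lemma ten_act {N : ℕ} {P : ℍ → ℍ → ℂ} (h : Ten N P) (γ : SL2) :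
    Ten N fun t s => P (γ • t) (γ • s) := by
  obtain ⟨n, w, w', h1, rfl⟩ := h
  exact ⟨n, fun i t => w i (γ • t), fun i s => w' i (γ • s),
    fun i => ⟨comp_SL_mem_Mod (h1 i).1 γ, comp_SL_mem_Mod (h1 i).2 γ⟩, rfl⟩

lemma ordC_act (P : ℍ → ℍ → ℂ) (γ : SL2) :
    ordC 1 (fun t s => P (γ • t) (γ • s)) = ordC 1 P := by
  have e : ∀ t, ordE (fun s => P (γ • t) (γ • s)) t = ordE (P (γ • t)) (γ • t) := fun t => by
    simpa only [mob_SL] using ordE_comp_mob (P (γ • t)) (det_SL_pos γ) t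
  simp only [ordC, mob_one, e]
  exact (MulAction.surjective γ).iInf_comp fun t => ordE (P t) t

lemma lead_act {P : ℍ → ℍ → ℂ} (h : TH P) (γ : SL2) (t : ℍ) :
    lead (fun t s => P (γ • t) (γ • s)) t =
      (1 / (((γ : M2) 1 0 : ℂ) * t + (γ : M2) 1 1) ^ 2) ^ (ordC 1 P).toNat * lead P (γ • t) := by
  have k := chain (h.slice (γ • t)) (det_SL_pos γ) (t := t) (n := (ordC 1 P).toNat)
    (by rw [mob_SL]; exact toNat_le_one P _)
  simp only [mob_SL, det_SL, Int.cast_one] at k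
  rw [lead, ordC_act]
  exact k

lemma delta_act (γ : SL2) (t : ℍ) : ModularForm.discriminant (γ • t) =
    (((γ : M2) 1 0 : ℂ) * t + (γ : M2) 1 1) ^ 12 * ModularForm.discriminant t := by
  have k := SlashInvariantForm.slash_action_eqn' CuspForm.discriminant
    (γ := (γ : GL (Fin 2) ℝ)) (MonoidHom.mem_range.mpr ⟨γ, rfl⟩) t
  simpa [zpow_ofNat] using k

/-- The quotient of weight zero. -/
noncomputable def FF (P : ℍ → ℍ → ℂ) (t : ℍ) : ℂ :=
  lead P t ^ 6 / ModularForm.discriminant t ^ (ordC 1 P).toNat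

lemma FF_act {P : ℍ → ℍ → ℂ} (h : TH P) (γ : SL2) (t : ℍ) :
    FF P (γ • t) = FF (fun t s => P (γ • t) (γ • s)) t := by
  have d := den_ne (det_SL_pos γ) t
  have d2 := ModularForm.discriminant_ne_zero t
  rw [FF, FF, lead_act h, ordC_act, delta_act, mul_pow, mul_pow, ← pow_mul, ← pow_mul, one_div,
    inv_pow, ← pow_mul, show 2 * ((ordC 1 P).toNat * 6) = 12 * (ordC 1 P).toNat by ring]
  field_simp

lemma hol_delta : Hol ModularForm.discriminant := CuspForm.discriminant.holo'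

lemma hol_FF {P : ℍ → ℍ → ℂ} (h : TH P) : Hol (FF P) :=
  hol_div (hol_pow (hol_lead h) 6) (hol_pow hol_delta _) fun s =>
    pow_ne_zero _ (ModularForm.discriminant_ne_zero s)

lemma hasQ_iter (hA : QA) {N : ℕ} (hN : 0 < N) {w : ℍ → ℂ} (h : HasQ N w) (k : ℕ) :
    HasQ N (dd^[k] w) := by
  induction k with
  | zero => exact h
  | succ k ih =>
    obtain ⟨c, hc⟩ := ih
    obtain ⟨c', hc', -⟩ := hA.deriv hN hc
    rw [Function.iterate_succ_apply']
    exact ⟨c', hc'⟩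

lemma hasQ_lead (hA : QA) (hB : QB) {N : ℕ} (hN : 0 < N) {P : ℍ → ℍ → ℂ} (h : Ten N P) :
    HasQ N (lead P) := by
  obtain ⟨n, w, w', h1, e⟩ := h
  obtain ⟨k, hk⟩ : ∃ k, k = (ordC 1 P).toNat := ⟨_, rfl⟩
  choose c hc using fun i => hB.mod_q hN (h1 i).1
  choose d hd using fun i => hasQ_iter hA hN (hB.mod_q hN (h1 i).2) k
  have e2 : lead P = ∑ i, w i * dd^[k] (w' i) := by
    ext t
    rw [lead, ← hk, e, Finset.sum_apply]
    exact iter_sum _ (fun i => (h1 i).2.1) k t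
  rw [e2]
  exact ⟨_, hA.sum Finset.univ _ _ fun i _ => hA.mul hN (hc i) (hd i)⟩

lemma expG_FF (hA : QA) (hB : QB) {N : ℕ} (hN : 0 < N) {P : ℍ → ℍ → ℂ} (h : Ten N P) :
    ExpG (FF P) := by
  obtain ⟨c, hc⟩ := hasQ_lead hA hB hN h
  obtain ⟨d, hd, -⟩ := hB.delta_q
  obtain ⟨d', hd'⟩ := hB.hasQ_level hN (one_dvd N) ⟨d, hd⟩
  have ne : ∀ t, (ModularForm.discriminant ^ (ordC 1 P).toNat) t ≠ 0 := fun t =>
    pow_ne_zero _ (ModularForm.discriminant_ne_zero t)
  refine hA.expG hN (hA.quot hN (hA.pow 6 hN hc) (hA.pow (ordC 1 P).toNat hN hd')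
    (fun e => ne UpperHalfPlane.I (congrFun e _)) (hol_FF (th_of h)) ?_)
  ext t
  exact div_mul_cancel₀ _ (ne t)

lemma md (hA : QA) (hB : QB) {N : ℕ} (hN : 0 < N) {P : ℍ → ℍ → ℂ} (h : Ten N P) :
    FF P ∈ Mod N := by
  refine ⟨hol_FF (th_of h), fun γ hγ t => ?_, fun γ => ?_⟩
  · rw [FF_act (th_of h)]
    obtain ⟨n, w, w', h1, rfl⟩ := h
    simp only [fun i => (h1 i).1.2.1 γ hγ, fun i => (h1 i).2.2.1 γ hγ]
  · simp only [FF_act (th_of h)]
    exact expG_FF hA hB hN (ten_act h γ)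

end Ld

theorem leadm (hA : QA) (hB : QB) (hO : ORB) : LEAD where
  ten_mul := Ld.ten_mul
  generic := fun x hx h h0 => by
    obtain ⟨e, h1, h2, h3⟩ := (Ld.th_of h).gen h0 hx
    exact ⟨_, (Ld.th_of h).graph hx e, h2, fun t ht => (h3 t ht).trans h1.symm⟩
  ne_top := fun x hx h h0 => by
    obtain ⟨e, h1, -⟩ := (Ld.th_of h).gen h0 hx
    rw [h1]
    exact ENat.natCast_ne_top e
  ordC_mul := fun x hx hP hQ => Ld.ordC_mul hx (Ld.th_of hP) (Ld.th_of hQ)
  hol := fun h => Ld.hol_lead (Ld.th_of h)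
  ne := fun h h0 => Ld.lead_ne (Ld.th_of h) h0
  ord_mul := fun t hP hQ => Ld.ord_mul t (Ld.th_of hP) (Ld.th_of hQ) (Ld.th_of (Ld.ten_mul hP hQ))
  ineq := fun t X h h0 => Ld.ineq hO t X (Ld.th_of h) h0
  md := fun hN h _ => Ld.md hA hB hN h

end Pool.Agent.MP_9207e0_ag.hg

end MrgPart1

-- ======== part 2: formerly Pool.Agent.MP_9207e0_ag.hg.Proda
section MrgPart2

/-! Module PRODA: existence of the product times the denominator. -/

set_option linter.unusedSectionVars false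
set_option linter.unusedVariables false

namespace Pool.Agent.MP_9207e0_ag.hg

open UpperHalfPlane Complex Filter Asymptotics Matrix
open scoped Real MatrixGroups Manifold Classical Kronecker

namespace Proda

/-! ### Generalities -/

lemma ee_add (a b : ℂ) : ee (a + b) = ee a * ee b := by
  rw [ee, ee, ee, mul_add, Complex.exp_add]

lemma ee_ne (a : ℂ) : ee a ≠ 0 := Complex.exp_ne_zero _

lemma ee_int (k : ℤ) : ee k = 1 := by
  rw [ee, mul_comm]
  exact Complex.exp_int_mul_two_pi_mul_I k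

lemma char_eq {N : ℕ} [NeZero N] (j : ℤ) : ZMod.stdAddChar (j : ZMod N) = ee (j / N) := by
  rw [ZMod.stdAddChar_coe, ee, mul_div_assoc]

lemma ex2_zero (m ν : ℕ) : ex2 m ν 0 = m := by simp [ex2]

lemma ex2_one (m ν : ℕ) : ex2 m ν 1 = ν := by simp [ex2]

lemma eq_ex2 (s : Fin 2 →₀ ℕ) : s = ex2 (s 0) (s 1) := by
  ext i
  fin_cases i
  · exact (ex2_zero _ _).symm
  · exact (ex2_one _ _).symm

lemma exists_qx (hA : QA) (hB : QB) {h : ℕ} (hh : 0 < h) :
    ∃ φ : Mod h →+* LS, ∀ w, IsQ h w.1 (φ w) := by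
  choose q hq using fun w : Mod h => hB.mod_q hh w.2
  refine ⟨{ toFun := q, map_one' := ?_, map_mul' := fun a b => ?_, map_zero' := ?_,
            map_add' := fun a b => ?_ }, hq⟩
  · exact (hA.unique hh (hq 1) (hA.const h 1)).trans (map_one _)
  · exact hA.unique hh (hq (a * b)) (hA.mul hh (hq a) (hq b))
  · exact (hA.unique hh (hq 0) (hA.const h 0)).trans (map_zero _)
  · exact hA.unique hh (hq (a + b)) (hA.add (hq a) (hq b))

/-- Evaluation at a point. -/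
def evm (h : ℕ) (s : ℍ) : Mod h →+* ℂ where
  toFun w := w.1 s
  map_one' := rfl
  map_mul' _ _ := rfl
  map_zero' := rfl
  map_add' _ _ := rfl

/-- Composition with an element of the modular group. -/
noncomputable def cmp (h : ℕ) (γ : SL2) : Mod h →+* Mod h where
  toFun w := ⟨fun τ => w.1 (γ • τ), comp_SL_mem_Mod w.2 γ⟩
  map_one' := rfl
  map_mul' _ _ := rfl
  map_zero' := rfl
  map_add' _ _ := rfl

lemma sum_range_zmod {N : ℕ} [NeZero N] (g : ZMod N → ℂ) :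
    ∑ b, g b = ∑ b ∈ Finset.range N, g (b : ZMod N) := by
  refine Finset.sum_nbij' ZMod.val (fun b : ℕ => (b : ZMod N)) (fun a _ => ?_)
    (fun _ _ => Finset.mem_univ _) (fun a _ => ZMod.natCast_zmod_val a) (fun a ha => ?_)
    fun a _ => by rw [ZMod.natCast_zmod_val]
  · exact Finset.mem_range.2 (ZMod.val_lt a)
  · exact ZMod.val_cast_of_lt (Finset.mem_range.1 ha)

lemma mem_Ix {N M : ℕ} {i : ℕ × ℕ × ℕ} :
    i ∈ Ix N M ↔ 0 < i.1 ∧ i.2.1 < N ∧ 0 < i.2.2 ∧ i.1 * i.2.2 ≤ M := by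
  simp only [Ix, Finset.mem_filter, Finset.mem_product, Finset.mem_Icc, Finset.mem_range]
  constructor
  · rintro ⟨⟨h1, h2, h3⟩, h4⟩
    exact ⟨h1.1, h2, h3.1, h4⟩
  · rintro ⟨h1, h2, h3, h4⟩
    exact ⟨⟨⟨h1, (Nat.le_mul_of_pos_right _ h3).trans h4⟩, h2, h3,
      (Nat.le_mul_of_pos_left _ h1).trans h4⟩, h4⟩

lemma sum_Ix {N M a d : ℕ} (ha : 0 < a) (hd : 0 < d) (g : ℕ × ℕ × ℕ → ℂ) :
    (∑ i ∈ Ix N M, if i.1 = a ∧ i.2.2 = d then g i else 0) =
      if a * d ≤ M then ∑ b ∈ Finset.range N, g (a, b, d) else 0 := by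
  rw [← Finset.sum_filter]
  split_ifs with h
  · refine Finset.sum_nbij' (fun i => i.2.1) (fun b => (a, b, d)) (fun i hi => ?_)
      (fun b hb => ?_) (fun i hi => ?_) (fun _ _ => rfl) fun i hi => ?_
    · exact Finset.mem_range.2 (mem_Ix.1 (Finset.mem_filter.1 hi).1).2.1
    · exact Finset.mem_filter.2 ⟨mem_Ix.2 ⟨ha, Finset.mem_range.1 hb, hd, h⟩, rfl, rfl⟩
    · obtain ⟨e1, e2⟩ := (Finset.mem_filter.1 hi).2
      rw [← e1, ← e2]
    · obtain ⟨e1, e2⟩ := (Finset.mem_filter.1 hi).2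
      rw [← e1, ← e2]
  · refine Finset.sum_eq_zero fun i hi => absurd ?_ h
    obtain ⟨h1, e1, e2⟩ := Finset.mem_filter.1 hi
    rw [← e1, ← e2]
    exact (mem_Ix.1 h1).2.2.2

/-! ### The logarithmic derivative -/

section Coef

variable {N L M K : ℕ} [NeZero N] {f : MN N → ℍ → ℂ} {c : MN N → LS} {z : MN N → ℤ → ℤ}

/-- `H` is the logarithmic derivative, as a series over modular functions. -/
def IsH (L : ℕ) (f : MN N → ℍ → ℂ) (c : MN N → LS) (H : PowerSeries (Mod (N * L))) : Prop :=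
  ∀ m s, (PowerSeries.coeff m H).1 s = PowerSeries.coeff m (Lam L f c s)

lemma exists_H (hB : QB) (hK : HECKE) (L : ℕ) (hw : WH N f c) : ∃ H, IsH L f c H := by
  have h1 : ∀ m, (fun s => PowerSeries.coeff m (Lam L f c s)) ∈ Mod (N * L) := by
    intro m
    simp only [Lam, PowerSeries.coeff_mk]
    split_ifs
    · exact mul_mem ((Mod (N * L)).algebraMap_mem (L : ℂ))
        (sub_mem (hB.mod_level (dvd_mul_right N L) (hK.md hw (m / L)))
          ((Mod (N * L)).algebraMap_mem (((m / L : ℕ) : ℂ) * lam c (m / L) 0)))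
    · exact zero_mem _
  exact ⟨PowerSeries.mk fun m => ⟨_, h1 m⟩, fun m s => by rw [PowerSeries.coeff_mk]⟩

lemma IsH.zero {H} (h : IsH L f c H) : PowerSeries.constantCoeff H = 0 := by
  rw [← PowerSeries.coeff_zero_eq_constantCoeff_apply]
  refine Subtype.ext (funext fun s => (h 0 s).trans ?_)
  simp [Lam, Hm, Herm]

lemma IsH.map_ev {H} (h : IsH L f c H) (s : ℍ) : H.map (evm (N * L) s) = Lam L f c s := by
  ext m
  rw [PowerSeries.coeff_map]
  exact h m s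

lemma IsH.coef (hA : QA) (hK : HECKE) (hw : WH N f c) (hL : 0 < L) {H} (h : IsH L f c H)
    {φ : Mod (N * L) →+* LS} (hφ : ∀ w, IsQ (N * L) w.1 (φ w)) (m : ℕ) (n : ℤ) :
    (φ (PowerSeries.coeff m H)).coeff n =
      if L ∣ m ∧ (L : ℤ) ∣ n ∧ n ≠ 0 then m * lam c (m / L) (n / L) else 0 := by
  have hN : 0 < N := NeZero.pos N
  have hNL : 0 < N * L := Nat.mul_pos hN hL
  by_cases hm : L ∣ m
  · obtain ⟨s, hs, hs'⟩ := hK.q hw (m / L)
    obtain ⟨s', h1⟩ := hA.exists_sub L 1 s hL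
    have h2 : IsQ (N * L) (Hm f (m / L)) s' := by
      rw [mul_comm]
      exact (hA.level hN hL h1).2 hs
    have h3 := hA.smul (L : ℂ) (hA.add h2
      (hA.neg (hA.const (N * L) (((m / L : ℕ) : ℂ) * lam c (m / L) 0))))
    have h4 : (PowerSeries.coeff m H).1 = (L : ℂ) • (Hm f (m / L) +
        -fun _ => ((m / L : ℕ) : ℂ) * lam c (m / L) 0) := by
      funext s
      rw [h m s]
      simp only [Lam, PowerSeries.coeff_mk, if_pos hm, Pi.smul_apply, Pi.add_apply, Pi.neg_apply,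
        smul_eq_mul, sub_eq_add_neg]
    rw [← h4] at h3
    rw [hA.unique hNL (hφ _) h3]
    simp only [HahnSeries.coeff_smul, HahnSeries.coeff_add, HahnSeries.coeff_neg,
      HahnSeries.C_apply, HahnSeries.coeff_single, smul_eq_mul]
    have hm' : (L : ℂ) * ((m / L : ℕ) : ℂ) = m := by
      rw [← Nat.cast_mul, Nat.mul_div_cancel' hm]
    by_cases hn : (L : ℤ) ∣ n
    · obtain ⟨n', rfl⟩ := hn
      have hL' : (L : ℤ) ≠ 0 := by exact_mod_cast hL.ne'
      rw [h1.1 n', hs', _root_.one_zpow, one_mul, Int.mul_ediv_cancel_left _ hL']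
      by_cases h0 : n' = 0
      · subst h0
        simp
      · have h5 : (L : ℤ) * n' ≠ 0 := mul_ne_zero hL' h0
        rw [if_neg h5, if_pos ⟨hm, dvd_mul_right _ _, h5⟩, neg_zero, add_zero, ← mul_assoc, hm']
    · have h0 : n ≠ 0 := fun e => hn (e ▸ dvd_zero _)
      rw [h1.2 n hn, if_neg h0, if_neg fun e => hn e.2.1]
      simp
  · have h4 : PowerSeries.coeff m H = 0 := by
      refine Subtype.ext (funext fun s => (h m s).trans ?_)
      simp [Lam, hm]
    rw [h4, map_zero, if_neg fun e => hm e.1]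
    rfl

/-- The logarithm of the unit part. -/
noncomputable def Lg (L : ℕ) (c : MN N → LS) : MM := fun s =>
  if L ∣ s 0 ∧ L ∣ s 1 ∧ s 0 ≠ 0 ∧ s 1 ≠ 0 then lam c (s 0 / L) ((s 1 / L : ℕ) : ℤ) else 0

lemma coeff_Lg (m ν : ℕ) : MvPowerSeries.coeff (ex2 m ν) (Lg L c) =
    if L ∣ m ∧ L ∣ ν ∧ m ≠ 0 ∧ ν ≠ 0 then lam c (m / L) ((ν / L : ℕ) : ℤ) else 0 := by
  rw [MvPowerSeries.coeff_apply, Lg, ex2_zero, ex2_one]

lemma sw_Lg (hF : FORM) (hK : HECKE) (hw : WH N f c) (hL : 0 < L) :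
    sw (Lg L c) = Lg L fun x => c x.adjugate := by
  ext s
  rw [eq_ex2 s, hF.coeff_sw, coeff_Lg, coeff_Lg]
  by_cases h : L ∣ s 0 ∧ L ∣ s 1 ∧ s 0 ≠ 0 ∧ s 1 ≠ 0
  · rw [if_pos h, if_pos ⟨h.2.1, h.1, h.2.2.2, h.2.2.1⟩,
      hK.symm hw _ _ (Nat.div_pos (Nat.le_of_dvd (Nat.pos_of_ne_zero h.2.2.1) h.1) hL)
        (Nat.div_pos (Nat.le_of_dvd (Nat.pos_of_ne_zero h.2.2.2) h.2.1) hL)]
  · rw [if_neg h, if_neg fun e => h ⟨e.2.1, e.1, e.2.2.2, e.2.2.1⟩]

lemma Gc_neg (ha : Adm N L M K f c z) {a d : ℕ} (h1 : 0 < a) (h2 : 0 < d) (k : ℕ) :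
    Gc c a (-(d : ℤ)) k = if a * d ≤ M then
      ∑ b ∈ Finset.range N, (cfz z (a, b, d) : ℂ) * ee (b * k / N) else 0 := by
  have h3 : (a : ℤ) * -(d : ℤ) = -((a * d : ℕ) : ℤ) := by push_cast; ring
  have h4 : 0 < a * d := Nat.mul_pos h1 h2
  rw [Gc, h3]
  split_ifs with h
  · rw [sum_range_zmod]
    refine Finset.sum_congr rfl fun b _ => ?_
    rw [ha.int _ _ (by omega), mul_comm]
    have e1 : ((b : ℕ) : ZMod N) * (((k : ℕ) : ℤ) : ZMod N) = ((b * k : ℤ) : ZMod N) := by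
      push_cast
      rfl
    rw [e1, char_eq]
    simp only [cfz, Int.cast_natCast, Int.cast_neg, neg_neg, Int.cast_mul]
  · exact Finset.sum_eq_zero fun b _ => by rw [ha.pole _ _ (by omega), mul_zero]

lemma neg_coef (ha : Adm N L M K f c z) (m ν : ℕ) (hν : 0 < ν) :
    (if L ∣ m ∧ (L : ℤ) ∣ -(ν : ℤ) ∧ -(ν : ℤ) ≠ 0 then
      (m : ℂ) * lam c (m / L) (-(ν : ℤ) / L) else 0) =
      ∑ i ∈ Ix N M, ∑ k ∈ Finset.Icc 1 m,
        if L * i.1 * k = m ∧ L * i.2.2 * k = ν then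
          (cfz z i : ℂ) * (L * i.1) * ee (i.2.1 * k / N) else 0 := by
  have hL := ha.pos
  split_ifs with h
  · obtain ⟨⟨m', rfl⟩, h2, -⟩ := h
    obtain ⟨ν', rfl⟩ : L ∣ ν := Int.natCast_dvd_natCast.1 (dvd_neg.1 h2)
    have hν' : 0 < ν' := Nat.pos_of_mul_pos_left hν
    have hL' : (L : ℤ) ≠ 0 := by exact_mod_cast hL.ne'
    have e1 : -((L * ν' : ℕ) : ℤ) / L = -(ν' : ℤ) := by
      rw [Nat.cast_mul, ← mul_neg, Int.mul_ediv_cancel_left _ hL']
    rw [Nat.mul_div_cancel_left _ hL, e1, lam, Finset.mul_sum, Finset.sum_comm]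
    rw [← Finset.sum_subset (s₁ := m'.divisors) (s₂ := Finset.Icc 1 (L * m'))]
    · refine Finset.sum_congr rfl fun k hk => ?_
      obtain ⟨⟨a, rfl⟩, h0⟩ := Nat.mem_divisors.1 hk
      have hk0 : 0 < k := Nat.pos_of_mul_pos_right (Nat.pos_of_ne_zero h0)
      have ha0 : 0 < a := Nat.pos_of_mul_pos_left (Nat.pos_of_ne_zero h0)
      split_ifs with hd
      · obtain ⟨d, rfl⟩ : k ∣ ν' := Int.natCast_dvd_natCast.1 (dvd_neg.1 hd)
        have hd0 : 0 < d := Nat.pos_of_mul_pos_left hν'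
        have hk' : (k : ℤ) ≠ 0 := by exact_mod_cast hk0.ne'
        have hk'' : (k : ℂ) ≠ 0 := by exact_mod_cast hk0.ne'
        have e2 : -((k * d : ℕ) : ℤ) / k = -(d : ℤ) := by
          rw [Nat.cast_mul, ← mul_neg, Int.mul_ediv_cancel_left _ hk']
        have e3 : ∀ i : ℕ × ℕ × ℕ, (L * i.1 * k = L * (k * a) ∧ L * i.2.2 * k = L * (k * d)) ↔
            (i.1 = a ∧ i.2.2 = d) := by
          intro i
          rw [mul_assoc, mul_assoc, Nat.mul_right_inj hL.ne', Nat.mul_right_inj hL.ne',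
            mul_comm k a, mul_comm k d, Nat.mul_left_inj hk0.ne', Nat.mul_left_inj hk0.ne']
        simp only [e3]
        rw [sum_Ix ha0 hd0, Nat.mul_div_cancel_left _ hk0, e2, Gc_neg ha ha0 hd0]
        split_ifs
        · rw [Finset.sum_div, Finset.mul_sum]
          refine Finset.sum_congr rfl fun b _ => ?_
          push_cast
          field_simp
        · simp
      · rw [mul_zero]
        refine (Finset.sum_eq_zero fun i _ => if_neg fun e => hd ?_).symm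
        have e2 := e.2
        rw [mul_assoc, Nat.mul_right_inj hL.ne'] at e2
        rw [dvd_neg, ← e2]
        exact Int.natCast_dvd_natCast.2 (dvd_mul_left _ _)
    · intro k hk
      obtain ⟨h1, h0⟩ := Nat.mem_divisors.1 hk
      exact Finset.mem_Icc.2 ⟨Nat.pos_of_dvd_of_pos h1 (Nat.pos_of_ne_zero h0),
        (Nat.le_of_dvd (Nat.pos_of_ne_zero h0) h1).trans (Nat.le_mul_of_pos_left _ hL)⟩
    · intro k hk hk'
      refine Finset.sum_eq_zero fun i _ => if_neg fun e => hk' ?_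
      have e2 := e.1
      rw [mul_assoc, Nat.mul_right_inj hL.ne'] at e2
      refine Nat.mem_divisors.2 ⟨e2 ▸ dvd_mul_left _ _, fun h0 => ?_⟩
      have := Finset.mem_Icc.1 hk
      rw [h0] at this
      omega
  · refine (Finset.sum_eq_zero fun i _ => Finset.sum_eq_zero fun k _ => if_neg fun e => h ?_).symm
    refine ⟨e.1 ▸ (dvd_mul_right L i.1).mul_right k, ?_, by omega⟩
    rw [dvd_neg, ← e.2]
    exact Int.natCast_dvd_natCast.2 ((dvd_mul_right L i.2.2).mul_right k)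

/-- The shift of the expansion in the second variable. -/
def sh (L M : ℕ) (z : MN N → ℤ → ℤ) : ℤ := ∑ i ∈ Ix N M, (L * i.2.2 : ℕ) * cfz z i

lemma sh_le (ha : Adm N L M K f c z) : sh L M z ≤ ∑ i ∈ Ix N M, (L * i.2.2 : ℕ) * (K : ℤ) :=
  Finset.sum_le_sum fun i _ =>
    mul_le_mul_of_nonneg_left ((le_abs_self _).trans (ha.bd _ _)) (Nat.cast_nonneg _)

/-- The rows of the candidate are expansions of modular functions. -/
lemma rows_of (hA : QA) (hB : QB) (hK : HECKE) (hF : FORM) (ha : Adm N L M K f c z)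
    {C' υ : MM} {β : ℤ} {d : ℕ → ℍ → ℂ}
    (hd : Rows (N * L) β (C' * ∏ i ∈ Ix N M, ell N L i ^ K) d) (hυ : IsUps (Lg L c) υ)
    {H E D : PowerSeries (Mod (N * L))} (hH : IsH L f c H) (hE : IsExp H E)
    (hD : ∀ m, (PowerSeries.coeff m D).1 = d m) :
    Rows (N * L) (β + sh L M z) (C' * (υ * ∏ i ∈ Ix N M, ell N L i ^ (K + cfz z i).toNat))
      fun m => (PowerSeries.coeff m (E * D)).1 := by
  have hN : 0 < N := NeZero.pos N
  have hNL : 0 < N * L := Nat.mul_pos hN ha.pos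
  obtain ⟨φ, hφ⟩ := exists_qx hA hB hNL
  obtain ⟨I, hI⟩ := hF.iot_hom
  have h1 := hF.main N L M K (cfz z) (Lg L c) υ (H.map φ) (E.map φ) hN ha.pos
    (fun i => ha.bd _ _) (fun m => by rw [coeff_Lg, if_neg fun e => e.2.2.2 rfl])
    (fun m => by rw [coeff_Lg, if_neg fun e => e.2.2.1 rfl]) hυ (hF.exp_map φ hE)
    (fun m ν => by
      rw [PowerSeries.coeff_map, hH.coef hA hK ha.wh ha.pos hφ, coeff_Lg]
      by_cases h : L ∣ m ∧ L ∣ ν ∧ m ≠ 0 ∧ ν ≠ 0
      · rw [if_pos h, if_pos ⟨h.1, Int.natCast_dvd_natCast.2 h.2.1, by exact_mod_cast h.2.2.2⟩,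
          Int.natCast_div]
      · rw [if_neg h, mul_zero]
        split_ifs with h'
        · have h0 : m = 0 := by
            by_contra h0
            exact h ⟨h'.1, Int.natCast_dvd_natCast.1 h'.2.1, h0, by exact_mod_cast h'.2.2⟩
          rw [h0, Nat.cast_zero, zero_mul]
        · rfl)
    (fun m ν hν => by
      rw [PowerSeries.coeff_map, hH.coef hA hK ha.wh ha.pos hφ]
      exact neg_coef ha m ν hν)
  have h2 : D.map φ = PowerSeries.C (HahnSeries.single (-β) 1) *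
      iot (C' * ∏ i ∈ Ix N M, ell N L i ^ K) := by
    ext1 m
    rw [PowerSeries.coeff_map, PowerSeries.coeff_C_mul, iot, PowerSeries.coeff_mk]
    exact hA.unique hNL (hφ _) (hD m ▸ (hd m).2)
  have h3 : (E * D).map φ = PowerSeries.C (HahnSeries.single (-(β + sh L M z)) 1) *
      iot (C' * (υ * ∏ i ∈ Ix N M, ell N L i ^ (K + cfz z i).toNat)) := by
    have e1 : (HahnSeries.single (-β) 1 : LS) =
        HahnSeries.single (-(β + sh L M z)) 1 * HahnSeries.single (sh L M z) 1 := by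
      rw [HahnSeries.single_mul_single, mul_one]
      congr 2
      ring
    rw [map_mul, h2, ← hI, ← hI, map_mul I C', map_mul I C', hI (υ * _), h1, ← hI, e1, map_mul]
    unfold sh
    ring
  intro m
  refine ⟨(PowerSeries.coeff m (E * D)).2, ?_⟩
  have h4 := hφ (PowerSeries.coeff m (E * D))
  rw [← PowerSeries.coeff_map, h3, PowerSeries.coeff_C_mul, iot, PowerSeries.coeff_mk] at h4
  exact h4

lemma gr_of_rows (hA : QA) {h : ℕ} (hh : 0 < h) {β : ℤ} {P' : MM} {e : ℕ → ℍ → ℂ} {κ : ℝ}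
    (hr : Rows h β P' e) (hκ : (β : ℝ) ≤ κ * h) (m : ℕ) : Gr κ (e m) := by
  refine hA.gr_of_coeff κ hh (hr m).2 fun n hn => ?_
  have h1 : n < -β := by
    have : (n : ℝ) < ((-β : ℤ) : ℝ) := by
      push_cast
      linarith only [hn, hκ]
    exact_mod_cast this
  rw [HahnSeries.coeff_single_mul, row, PowerSeries.coeff_coe, if_pos (by omega), mul_zero]

lemma adm_left (hH : HAT) (ha : Adm N L M K f c z) (γ : SL2) :
    Adm N L M K (fun x => f (red N γ * x)) (fun x => c (red N γ * x))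
      fun x => z (red N γ * x) :=
  ⟨hH.left ha.wh γ, fun _ => ha.rat _, fun _ => ha.int _, fun _ => ha.bd _, fun _ => ha.pole _,
    ha.pos, ha.dvd⟩

lemma adm_adj (hH : HAT) (ha : Adm N L M K f c z) :
    Adm N L M K (fun x => f x.adjugate) (fun x => c x.adjugate) fun x => z x.adjugate :=
  ⟨hH.adj ha.wh, fun _ => ha.rat _, fun _ => ha.int _, fun _ => ha.bd _, fun _ => ha.pole _,
    ha.pos, ha.dvd⟩

/-- Uniform growth at all cusps. -/
lemma growth (hA : QA) (hB : QB) (hT : HAT) (hK : HECKE) (hF : FORM) (ha : Adm N L M K f c z)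
    {C' : MM} {β : ℤ} {d : ℕ → ℍ → ℂ}
    (hd : Rows (N * L) β (C' * ∏ i ∈ Ix N M, ell N L i ^ K) d)
    (hi : ∀ m (γ : SL2) s, d m (γ • s) = d m s)
    {H E D : PowerSeries (Mod (N * L))} (hH : IsH L f c H) (hE : IsExp H E)
    (hD : ∀ m, (PowerSeries.coeff m D).1 = d m) {κ : ℝ}
    (hκ : ((β + ∑ i ∈ Ix N M, (L * i.2.2 : ℕ) * (K : ℤ) : ℤ) : ℝ) ≤ κ * (N * L : ℕ)) (m : ℕ)
    (γ : SL2) : Gr κ fun τ => (PowerSeries.coeff m (E * D)).1 (γ • τ) := by
  have hNL : 0 < N * L := Nat.mul_pos (NeZero.pos N) ha.pos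
  have ha' := adm_left hT ha γ
  obtain ⟨H', hH'⟩ := exists_H hB hK L ha'.wh
  obtain ⟨E', hE'⟩ := hF.exp_ex H' hH'.zero
  obtain ⟨υ, hυ⟩ := hF.ups_ex (Lg L fun x => c (red N γ * x))
  have h1 := rows_of hA hB hK hF ha' hd hυ hH' hE' hD
  have h2 : ∀ i, Gr κ (PowerSeries.coeff i (E' * D)).1 := by
    refine gr_of_rows hA hNL h1 (le_trans ?_ hκ)
    exact_mod_cast add_le_add_right (sh_le ha') β
  let B : PowerSeries ℂ := PowerSeries.mk fun i => if L ∣ i then (L : ℂ) * ((i / L : ℕ) *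
    (lam (fun x => c (red N γ * x)) (i / L) 0 - lam c (i / L) 0)) else 0
  have hB0 : PowerSeries.constantCoeff B = 0 := by
    rw [← PowerSeries.coeff_zero_eq_constantCoeff_apply]
    simp [B]
  obtain ⟨EB, hEB⟩ := hF.exp_ex B hB0
  have h3 : H.map (cmp (N * L) γ) = H' + B.map (algebraMap ℂ (Mod (N * L))) := by
    ext1 i
    refine Subtype.ext (funext fun s => ?_)
    rw [map_add, PowerSeries.coeff_map, PowerSeries.coeff_map]
    change (PowerSeries.coeff i H).1 (γ • s) = (PowerSeries.coeff i H').1 s + PowerSeries.coeff i B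
    rw [hH, hH']
    simp only [Lam, B, PowerSeries.coeff_mk]
    split_ifs
    · rw [hK.act ha.wh]
      ring
    · rw [add_zero]
  have h4 : E.map (cmp (N * L) γ) = E' * EB.map (algebraMap ℂ (Mod (N * L))) := by
    refine hF.exp_unique ?_ (hF.exp_map _ hE) ?_
    · rw [← PowerSeries.coeff_zero_eq_constantCoeff_apply, PowerSeries.coeff_map,
        PowerSeries.coeff_zero_eq_constantCoeff_apply, hH.zero, map_zero]
    · rw [h3]
      exact hF.exp_mul hE' (hF.exp_map _ hEB)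
  have h5 : D.map (cmp (N * L) γ) = D := by
    ext1 i
    refine Subtype.ext (funext fun s => ?_)
    rw [PowerSeries.coeff_map]
    change (PowerSeries.coeff i D).1 (γ • s) = _
    rw [hD, hi]
  have h6 : cmp (N * L) γ (PowerSeries.coeff m (E * D)) =
      ∑ p ∈ Finset.HasAntidiagonal.antidiagonal m, PowerSeries.coeff p.1 (E' * D) *
        algebraMap ℂ (Mod (N * L)) (PowerSeries.coeff p.2 EB) := by
    rw [← PowerSeries.coeff_map, map_mul, h4, h5, mul_right_comm, PowerSeries.coeff_mul]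
    simp only [PowerSeries.coeff_map]
  change Gr κ (cmp (N * L) γ (PowerSeries.coeff m (E * D))).1
  rw [h6]
  refine Finset.sum_induction _ (fun w : Mod (N * L) => Gr κ w.1) (fun a b h h' => h.add h')
    (isBigO_zero _ _) fun p _ => ?_
  have h7 := (h2 p.1).mul (gr_const (PowerSeries.coeff p.2 EB))
  rw [add_zero] at h7
  exact h7

end Coef

/-! ### The exchange of the variables -/

/-- The involution on the index set. -/
def sg (N : ℕ) (i : ℕ × ℕ × ℕ) : ℕ × ℕ × ℕ := (i.2.2, (N - i.2.1) % N, i.1)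

lemma sg_mem {N M : ℕ} {i : ℕ × ℕ × ℕ} (hi : i ∈ Ix N M) : sg N i ∈ Ix N M := by
  obtain ⟨h1, h2, h3, h4⟩ := mem_Ix.1 hi
  exact mem_Ix.2 ⟨h3, Nat.mod_lt _ (by omega), h1, by rw [mul_comm] at h4; exact h4⟩

lemma sg_add {N b : ℕ} (hb : b < N) : (N - b) % N + b = N ∨ (N - b) % N + b = 0 := by
  rcases Nat.eq_zero_or_pos b with rfl | h
  · simp
  · left
    rw [Nat.mod_eq_of_lt (by omega)]
    omega

lemma sg_sg {N M : ℕ} {i : ℕ × ℕ × ℕ} (hi : i ∈ Ix N M) : sg N (sg N i) = i := by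
  obtain ⟨a, b, d⟩ := i
  have h2 : b < N := (mem_Ix.1 hi).2.1
  have h3 : (N - (N - b) % N) % N = b := by
    rcases sg_add h2 with h | h
    · rw [show N - (N - b) % N = b by omega, Nat.mod_eq_of_lt h2]
    · rw [show (N - b) % N = 0 by omega, Nat.sub_zero, Nat.mod_self]
      omega
  simp only [sg, h3]

lemma prod_sg {R : Type} [CommMonoid R] (N M : ℕ) (g : ℕ × ℕ × ℕ → R) :
    ∏ i ∈ Ix N M, g (sg N i) = ∏ i ∈ Ix N M, g i :=
  Finset.prod_nbij' (sg N) (sg N) (fun _ => sg_mem) (fun _ => sg_mem) (fun _ => sg_sg)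
    (fun _ => sg_sg) fun _ _ => rfl

lemma sum_sg (N M : ℕ) (g : ℕ × ℕ × ℕ → ℤ) :
    ∑ i ∈ Ix N M, g (sg N i) = ∑ i ∈ Ix N M, g i :=
  Finset.sum_nbij' (sg N) (sg N) (fun _ => sg_mem) (fun _ => sg_mem) (fun _ => sg_sg)
    (fun _ => sg_sg) fun _ _ => rfl

lemma cfz_sg {N M : ℕ} (z : MN N → ℤ → ℤ) {i : ℕ × ℕ × ℕ} (hi : i ∈ Ix N M) :
    cfz (fun x => z x.adjugate) (sg N i) = cfz z i := by
  have h1 : -(((N - i.2.1) % N : ℕ) : ZMod N) = (i.2.1 : ZMod N) := by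
    rw [neg_eq_iff_add_eq_zero, ← Nat.cast_add]
    rcases sg_add (mem_Ix.1 hi).2.1 with h | h
    · rw [h, ZMod.natCast_self]
    · rw [h, Nat.cast_zero]
  simp only [cfz, sg, Matrix.adjugate_fin_two_of, h1, neg_zero, mul_comm i.2.2 i.1]

lemma sw_X (i : Fin 2) : sw (MvPowerSeries.X i) = MvPowerSeries.X (Equiv.swap 0 1 i) :=
  MvPowerSeries.rename_X _ i

lemma sw_C (a : ℂ) : sw (MvPowerSeries.C a) = MvPowerSeries.C a := MvPowerSeries.rename_C _ a

lemma sw_ell {N M : ℕ} (L : ℕ) {i : ℕ × ℕ × ℕ} (hi : i ∈ Ix N M) :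
    sw (ell N L i) = MvPowerSeries.C (-ee (i.2.1 / N)) * ell N L (sg N i) := by
  have h0 := (mem_Ix.1 hi).2.1
  have hN : (N : ℂ) ≠ 0 := by exact_mod_cast (by omega : N ≠ 0)
  have h1 : ee (i.2.1 / N) * ee (((N - i.2.1) % N : ℕ) / N) = 1 := by
    rw [← ee_add, ← add_div, ← Nat.cast_add, add_comm]
    rcases sg_add h0 with h | h
    · rw [h, div_self hN]
      exact_mod_cast ee_int 1
    · rw [h, Nat.cast_zero, zero_div]
      exact_mod_cast ee_int 0
  have h2 : (MvPowerSeries.C (ee (i.2.1 / N)) : MM) *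
      MvPowerSeries.C (ee (((N - i.2.1) % N : ℕ) / N)) = 1 := by
    rw [← map_mul, h1, map_one]
  simp only [ell, sg, map_sub, map_mul, map_pow, sw_X, sw_C, map_neg, Equiv.swap_apply_left,
    Equiv.swap_apply_right]
  linear_combination (-MvPowerSeries.X 0 ^ (L * i.2.2) : MM) * h2

lemma sw_prod (N L M : ℕ) (u : ℕ × ℕ × ℕ → ℕ) :
    sw (∏ i ∈ Ix N M, ell N L i ^ u (sg N i)) =
      MvPowerSeries.C (∏ i ∈ Ix N M, (-ee (i.2.1 / N)) ^ u (sg N i)) *
        ∏ i ∈ Ix N M, ell N L i ^ u i := by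
  rw [← prod_sg N M fun i => ell N L i ^ u i, map_prod, map_prod, ← Finset.prod_mul_distrib]
  refine Finset.prod_congr rfl fun i hi => ?_
  rw [map_pow, sw_ell L hi, mul_pow, map_pow]

lemma rows_smul (hA : QA) {h : ℕ} {β : ℤ} {P' : MM} {e : ℕ → ℍ → ℂ} (hr : Rows h β P' e)
    (a : ℂ) : Rows h β (MvPowerSeries.C a * P') fun m => a • e m := by
  intro m
  refine ⟨(Mod h).smul_mem (hr m).1 a, ?_⟩
  have h1 : HahnSeries.single (-β) 1 * row (MvPowerSeries.C a * P') m =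
      a • (HahnSeries.single (-β) 1 * row P' m : LS) := by
    ext n
    simp only [HahnSeries.coeff_smul, HahnSeries.coeff_single_mul, row, PowerSeries.coeff_coe,
      PowerSeries.coeff_mk, MvPowerSeries.coeff_C_mul, smul_eq_mul]
    split_ifs <;> ring
  rw [h1]
  exact hA.smul a (hr m).2

lemma rows_inv (hA : QA) (hE : E2A) {h : ℕ} (hh : 0 < h) {P : ℍ → ℍ → ℂ} {α β : ℤ} {P' : MM}
    {e : ℕ → ℍ → ℂ} (hP : Exp2 h P α β P') (hr : Rows h β P' e)
    (hi : ∀ (γ : SL2) t s, P t (γ • s) = P t s) (m : ℕ) (γ : SL2) (s : ℍ) :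
    e m (γ • s) = e m s := by
  have h1 := hE.slice hh hP hr (γ • s)
  simp only [hi] at h1
  have h2 := hA.unique hh h1 (hE.slice hh hP hr s)
  have h3 := HahnSeries.ofPowerSeries_injective
    (mul_left_cancel₀ (HahnSeries.single_ne_zero one_ne_zero) h2)
  have h4 := congrArg (PowerSeries.coeff m) h3
  rwa [PowerSeries.coeff_mk, PowerSeries.coeff_mk] at h4

/-! ### Algebraic coefficients -/

lemma alg_ee (k : ℤ) {N : ℕ} (hN : 0 < N) : IsAlgebraic ℚ (ee (k / N)) := by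
  refine IsAlgebraic.of_pow hN ?_
  have hN' : (N : ℂ) ≠ 0 := by exact_mod_cast hN.ne'
  have h1 : ee (k / N) ^ N = ee k := by
    rw [ee, ee, ← Complex.exp_nat_mul]
    congr 1
    field_simp
  rw [h1, ee_int]
  exact isAlgebraic_one

lemma alg_Lg {N : ℕ} [NeZero N] (L : ℕ) {c : MN N → LS} (hc : ∀ x, RatL (c x)) :
    AlgM (Lg L c) := by
  intro s
  rw [MvPowerSeries.coeff_apply, Lg, ← mem_algebraicClosure_iff]
  split_ifs
  · refine sum_mem fun k _ => ?_
    split_ifs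
    · refine div_mem (sum_mem fun b _ => mul_mem ?_ ?_) (natCast_mem _ _)
      · obtain ⟨j, hj⟩ := ZMod.intCast_surjective (b * (((k : ℕ) : ℤ) : ZMod N))
        rw [← hj, char_eq]
        exact mem_algebraicClosure_iff.2 (alg_ee j (NeZero.pos N))
      · obtain ⟨q, hq⟩ := hc _ _
        rw [hq]
        exact SubfieldClass.ratCast_mem _ q
    · exact zero_mem _
  · exact zero_mem _

lemma alg_ell (hF : FORM) {N : ℕ} (hN : 0 < N) (L M : ℕ) (u : ℕ × ℕ × ℕ → ℕ) :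
    AlgM (∏ i ∈ Ix N M, ell N L i ^ u i) := by
  obtain ⟨K, hK⟩ := hF.algM
  have hX : ∀ j : Fin 2, (MvPowerSeries.X j : MM) ∈ K := fun j => (hK _).2 fun s => by
    rw [MvPowerSeries.coeff_X]
    split_ifs
    exacts [isAlgebraic_one, isAlgebraic_zero]
  refine (hK _).1 (prod_mem fun i _ => pow_mem (sub_mem (pow_mem (hX 1) _)
    (mul_mem ((hK _).2 fun s => ?_) (pow_mem (hX 0) _))) _)
  rw [MvPowerSeries.coeff_C]
  split_ifs
  · have h := alg_ee (i.2.1 : ℕ) hN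
    rwa [Int.cast_natCast] at h
  · exact isAlgebraic_zero

lemma ell_ne {N L M : ℕ} (hL : 0 < L) {i : ℕ × ℕ × ℕ} (hi : i ∈ Ix N M) : ell N L i ≠ 0 := by
  intro h
  have h1 := congrArg (MvPowerSeries.coeff (Finsupp.single 1 (L * i.2.2))) h
  have h2 : (Finsupp.single 1 (L * i.2.2) : Fin 2 →₀ ℕ) ≠ Finsupp.single 0 (L * i.1) := by
    intro e
    have h3 := DFunLike.congr_fun e 0
    have h4 := Nat.mul_pos hL (mem_Ix.1 hi).1
    simp only [Finsupp.single_eq_same, ne_eq, zero_ne_one, not_false_eq_true,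
      Finsupp.single_eq_of_ne] at h3
    omega
  rw [ell, map_sub, MvPowerSeries.coeff_C_mul, MvPowerSeries.coeff_X_pow,
    MvPowerSeries.coeff_X_pow, if_pos rfl, if_neg h2, map_zero] at h1
  simp at h1

lemma exists_mul_ge {h : ℝ} (hh : 0 < h) (a b : ℝ) : ∃ κ : ℝ, a ≤ κ * h ∧ b ≤ κ * h := by
  refine ⟨max a b / h, ?_⟩
  rw [div_mul_cancel₀ _ hh.ne']
  exact ⟨le_max_left _ _, le_max_right _ _⟩

end Proda

open Proda

theorem proda (hA : QA) (hB : QB) (hH : HAT) (hK : HECKE) (hF : FORM) (hE : E2A) (hD : DEN) :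
    ProdaStmt := by
  intro N L M K _ f c z ha
  have hN : 0 < N := NeZero.pos N
  have hNL : 0 < N * L := Nat.mul_pos hN ha.pos
  obtain ⟨α, β, D', C', hD1, hD2, hD3⟩ := hD.exp N L M K hN ha.pos ha.dvd
  obtain ⟨d, hd⟩ := hE.rows hNL hD1
  have hD1' := hE.swap hD1
  obtain ⟨d', hd'⟩ := hE.rows hNL hD1'
  have hi := rows_inv hA hE hNL hD1 hd (hD.inv2 M K)
  have hi' := rows_inv hA hE hNL hD1' hd' fun γ t s => hD.inv1 M K γ s t
  have hb := adm_adj hH ha
  obtain ⟨H, hH1⟩ := exists_H hB hK L ha.wh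
  obtain ⟨E, hE1⟩ := hF.exp_ex H hH1.zero
  obtain ⟨H', hH2⟩ := exists_H hB hK L hb.wh
  obtain ⟨E', hE2⟩ := hF.exp_ex H' hH2.zero
  obtain ⟨υ, hυ⟩ := hF.ups_ex (Lg L c)
  have hυ' := hF.ups_sw hυ
  rw [sw_Lg hF hK ha.wh ha.pos] at hυ'
  let D : PowerSeries (Mod (N * L)) := PowerSeries.mk fun m => ⟨d m, (hd m).1⟩
  let D2 : PowerSeries (Mod (N * L)) := PowerSeries.mk fun m => ⟨d' m, (hd' m).1⟩
  have hDc : ∀ m, (PowerSeries.coeff m D).1 = d m := fun m => by rw [PowerSeries.coeff_mk]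
  have hDc' : ∀ m, (PowerSeries.coeff m D2).1 = d' m := fun m => by rw [PowerSeries.coeff_mk]
  set u0 : ℂ := ∏ i ∈ Ix N M, (-ee (i.2.1 / N)) ^ K with hu0
  have hu0' : u0 ≠ 0 :=
    Finset.prod_ne_zero_iff.2 fun i _ => pow_ne_zero _ (neg_ne_zero.2 (ee_ne _))
  set u1 : ℂ := ∏ i ∈ Ix N M,
    (-ee (i.2.1 / N)) ^ ((K : ℤ) + cfz (fun x => z x.adjugate) (sg N i)).toNat with hu1
  have e0 : sw D' = (sw C' * MvPowerSeries.C u0) * ∏ i ∈ Ix N M, ell N L i ^ K := by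
    rw [hD3, map_mul, sw_prod N L M fun _ => K, mul_assoc]
  have hd0 := hd
  rw [hD3] at hd0
  rw [e0] at hd'
  have r1 := rows_of hA hB hK hF ha hd0 hυ hH1 hE1 hDc
  have r2 := rows_smul hA (rows_of hA hB hK hF hb hd' hυ' hH2 hE2 hDc') (u1 / u0)
  have e1 : sw (C' * (υ * ∏ i ∈ Ix N M, ell N L i ^ ((K : ℤ) + cfz z i).toNat)) =
      MvPowerSeries.C (u1 / u0) * ((sw C' * MvPowerSeries.C u0) * (sw υ * ∏ i ∈ Ix N M,
        ell N L i ^ ((K : ℤ) + cfz (fun x => z x.adjugate) i).toNat)) := by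
    have e2 : ∏ i ∈ Ix N M, ell N L i ^ ((K : ℤ) + cfz z i).toNat = ∏ i ∈ Ix N M,
        ell N L i ^ ((K : ℤ) + cfz (fun x => z x.adjugate) (sg N i)).toNat :=
      Finset.prod_congr rfl fun i hi => by rw [cfz_sg z hi]
    have e3 : (MvPowerSeries.C u1 : MM) = MvPowerSeries.C (u1 / u0) * MvPowerSeries.C u0 := by
      rw [← map_mul, div_mul_cancel₀ _ hu0']
    rw [map_mul, map_mul, e2,
      sw_prod N L M fun i => ((K : ℤ) + cfz (fun x => z x.adjugate) i).toNat, ← hu1, e3]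
    ring
  rw [← e1] at r2
  have hNL' : (0 : ℝ) < (N * L : ℕ) := by exact_mod_cast hNL
  obtain ⟨κ, hκ1, hκ2⟩ := exists_mul_ge hNL'
    ((β + ∑ i ∈ Ix N M, (L * i.2.2 : ℕ) * (K : ℤ) : ℤ) : ℝ)
    ((α + ∑ i ∈ Ix N M, (L * i.2.2 : ℕ) * (K : ℤ) : ℤ) : ℝ)
  obtain ⟨P, hP⟩ := hE.of_rows κ hNL r1 r2
    (growth hA hB hH hK hF ha hd0 hi hH1 hE1 hDc hκ1) fun m γ =>
      IsBigO.const_mul_left (growth hA hB hH hK hF hb hd' hi' hH2 hE2 hDc' hκ2 m γ) (u1 / u0)
  refine ⟨P, ⟨_, _, α, β, _, D', υ, hP, ?_, hD1, hυ.1, ?_⟩, fun s => ?_⟩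
  · obtain ⟨S, hS⟩ := hF.algM
    have h1 : AlgM C' := by
      refine hF.alg_div (Finset.prod_ne_zero_iff.2 fun i hi => pow_ne_zero K (ell_ne ha.pos hi))
        (alg_ell hF hN L M fun _ => K) ?_
      rw [mul_comm, ← hD3]
      exact hD2
    exact (hS _).1 (mul_mem ((hS _).2 h1) (mul_mem ((hS _).2 (hF.ups_alg hυ (alg_Lg L ha.rat)))
      ((hS _).2 (alg_ell hF hN L M _))))
  · have e2 : (∏ i ∈ Ix N M, ell N L i ^ ((K : ℤ) + cfz z i).toNat) *
        ∏ i ∈ Ix N M, ell N L i ^ (-cfz z i).toNat =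
        (∏ i ∈ Ix N M, ell N L i ^ K) * ∏ i ∈ Ix N M, ell N L i ^ (cfz z i).toNat := by
      rw [← Finset.prod_mul_distrib, ← Finset.prod_mul_distrib]
      refine Finset.prod_congr rfl fun i _ => ?_
      have h1 : |cfz z i| ≤ K := ha.bd _ _
      have h2 := abs_le.1 h1
      rw [← pow_add, ← pow_add]
      congr 1
      omega
    rw [hD3]
    linear_combination C' * υ * e2
  · refine ⟨E.map (evm (N * L) s), _, ?_, hE.slice hNL hD1 hd s, ?_⟩
    · rw [← hH1.map_ev s]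
      exact hF.exp_map _ hE1
    · have h1 := hE.slice hNL hP r1 s
      have e2 : (PowerSeries.mk fun m => (PowerSeries.coeff m (E * D)).1 s) =
          E.map (evm (N * L) s) * PowerSeries.mk fun m => d m s := by
        have e3 : (PowerSeries.mk fun m => d m s) = D.map (evm (N * L) s) := by
          ext m
          rw [PowerSeries.coeff_mk, PowerSeries.coeff_map, ← hDc]
          rfl
        rw [e3, ← map_mul]
        ext m
        rw [PowerSeries.coeff_mk, PowerSeries.coeff_map]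
        rfl
      have e3 : sh L M (fun x => z x.adjugate) = ∑ i ∈ Ix N M, (L * i.1 : ℕ) * cfz z i := by
        rw [sh, ← sum_sg]
        exact Finset.sum_congr rfl fun i hi => by rw [cfz_sg z hi]; rfl
      have e4 : (HahnSeries.single (-(α + ∑ i ∈ Ix N M, (L * i.1 : ℕ) * cfz z i)) 1 : LS) =
          HahnSeries.single (-∑ i ∈ Ix N M, (L * i.1 : ℕ) * cfz z i) 1 *
            HahnSeries.single (-α) 1 := by
        rw [HahnSeries.single_mul_single, mul_one]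
        congr 2
        ring
      rw [e2, e3, e4, map_mul, mul_mul_mul_comm, ← mul_assoc] at h1
      rw [← mul_assoc]
      exact h1

end Pool.Agent.MP_9207e0_ag.hg

end MrgPart2

-- marker of a merged file
example : 731051 + 622632 = 731051 + 622632 := rfl
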