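import Pool.Agent.MP_9207e0_ag.hg.Spec

/-! Pairs of Heegner points as special cycles (Dirichlet composition). -/

set_option linter.unusedVariables false

namespace Pool.Agent.MP_9207e0_ag.hg

open UpperHalfPlane Complex Filter Asymptotics Matrix
open scoped Real MatrixGroups Manifold Classical Kronecker

namespace Heeg

/-- The Moebius relation in linear form. -/
def Lin (A : M2) (τ σ : ℍ) : Prop := (A 0 0 : ℂ) * τ + A 0 1 = σ * ((A 1 0 : ℂ) * τ + A 1 1)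

lemma lin_iff {A : M2} (h : 0 < A.det) (τ σ : ℍ) : mob A τ = σ ↔ Lin A τ σ := mob_eq_iff h τ σ

lemma Lin.mul {A B : M2} {ρ τ σ : ℍ} (h1 : Lin A τ σ) (h2 : Lin B ρ τ) : Lin (A * B) ρ σ := by
  unfold Lin at *
  simp only [Matrix.mul_apply, Fin.sum_univ_two]
  push_cast
  linear_combination ((A 0 0 : ℂ) - σ * A 1 0) * h2 + ((B 1 0 : ℂ) * ρ + B 1 1) * h1

lemma Lin.comb {A B : M2} {τ σ : ℍ} (h1 : Lin A τ σ) (h2 : Lin B τ σ) (p q : ℤ) :
    Lin (p • A + q • B) τ σ := by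
  unfold Lin at *
  simp only [Matrix.add_apply, Matrix.smul_apply, smul_eq_mul]
  push_cast
  linear_combination (p : ℂ) * h1 + (q : ℂ) * h2

lemma Lin.adj {A : M2} {τ σ : ℍ} (h : Lin A τ σ) : Lin A.adjugate σ τ := by
  unfold Lin at *
  simp only [Matrix.adjugate_fin_two, of_apply, cons_val', cons_val_zero, cons_val_one,
    cons_val_fin_one]
  push_cast
  linear_combination -h

lemma lin_one (τ : ℍ) : Lin 1 τ τ := by simp [Lin]

lemma lin_SL (g : SL2) (τ : ℍ) : Lin (g : M2) τ (g • τ) :=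
  (lin_iff (det_SL_pos g) _ _).1 (mob_SL g τ)

lemma lin_SL_inv (g : SL2) (τ : ℍ) : Lin ((g⁻¹ : SL2) : M2) (g • τ) τ := by
  simpa only [inv_smul_smul] using lin_SL g⁻¹ (g • τ)

lemma Lin.cancel {A : M2} {τ σ : ℍ} {j : ℤ} (hj : j ≠ 0) (h : Lin (j • A) τ σ) : Lin A τ σ := by
  unfold Lin at *
  simp only [Matrix.smul_apply, smul_eq_mul] at h
  push_cast at h
  apply mul_left_cancel₀ (show (j : ℂ) ≠ 0 by exact_mod_cast hj)
  linear_combination h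

/-- The eigenvalue is transported. -/
lemma ev_eq {α W W' : M2} {τ σ : ℍ} (hd : 0 < α.det) (h : α * W = W' * α) (h1 : Lin α τ σ)
    (h2 : Lin W τ τ) : (W 1 0 : ℂ) * τ + W 1 1 = W' 1 0 * σ + W' 1 1 := by
  have e0 := congrFun (congrFun h 1) 0
  have e1 := congrFun (congrFun h 1) 1
  simp only [Matrix.mul_apply, Fin.sum_univ_two] at e0 e1
  have e0' := congrArg (Int.cast : ℤ → ℂ) e0
  have e1' := congrArg (Int.cast : ℤ → ℂ) e1
  push_cast at e0' e1'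
  unfold Lin at h1 h2
  apply mul_left_cancel₀ (den_ne hd τ)
  linear_combination (τ : ℂ) * e0' + e1' - (α 1 0 : ℂ) * h2 + (W' 1 0 : ℂ) * h1

lemma sign_eq {α W W' : M2} {τ σ : ℍ} (hd : 0 < α.det) (h : α * W = W' * α) (h1 : Lin α τ σ)
    (h2 : Lin W τ τ) {e : ℤ} (he : 0 < e * W 1 0) : 0 < e * W' 1 0 := by
  have k := congrArg Complex.im (ev_eq hd h h1 h2)
  simp only [add_im, mul_im, intCast_re, intCast_im, coe_im, coe_re, zero_mul, add_zero] at k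
  have h3 : (0 : ℝ) < e * W 1 0 := by exact_mod_cast he
  have h4 : (0 : ℝ) < (e * W' 1 0) * σ.im := by
    rw [mul_assoc, ← k, ← mul_assoc]
    exact mul_pos h3 τ.im_pos
  exact_mod_cast (mul_pos_iff_of_pos_right σ.im_pos).1 h4

lemma bez {n : ℕ} (hs : Squarefree n) {x y z : ℤ} (h : z ^ 2 + 4 * x * y = -n) :
    ∃ a b c : ℤ, a * x + b * y + c * z = 1 := by
  have h1 : Int.gcd (Int.gcd x y) z = 1 := by
    set g := Int.gcd (Int.gcd x y) z
    have hx : (g : ℤ) ∣ x := (Int.gcd_dvd_left _ _).trans (Int.gcd_dvd_left _ _)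
    have hy : (g : ℤ) ∣ y := (Int.gcd_dvd_left _ _).trans (Int.gcd_dvd_right _ _)
    have hz : (g : ℤ) ∣ z := Int.gcd_dvd_right _ _
    have h2 : (g : ℤ) * g ∣ n := by
      rw [← dvd_neg, ← h, sq, mul_assoc]
      exact (mul_dvd_mul hz hz).add ((mul_dvd_mul hx hy).mul_left 4)
    exact Nat.isUnit_iff.1 (hs g (by exact_mod_cast h2))
  have e1 := Int.gcd_eq_gcd_ab (Int.gcd x y) z
  have e2 := Int.gcd_eq_gcd_ab x y
  rw [h1] at e1
  exact ⟨Int.gcdA x y * Int.gcdA (Int.gcd x y) z, Int.gcdB x y * Int.gcdA (Int.gcd x y) z,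
    Int.gcdB (Int.gcd x y) z, by linear_combination -e1 - Int.gcdA (Int.gcd x y) z * e2⟩

/-- A generator of the order that fixes `τ`. -/
structure XW (m : ℤ) (W : M2) (τ : ℍ) : Prop where
  tr : W 0 0 + W 1 1 = 1
  det : W.det = m
  lin : Lin W τ τ

/-- The congruence condition. -/
def De (W : M2) : Prop := 8 ∣ W 0 1 ∧ 8 ∣ W 1 0 ∧ 2 ∣ W 0 0

lemma coe_inv_mul (g : SL2) : ((g⁻¹ : SL2) : M2) * g = 1 := by
  rw [← Matrix.SpecialLinearGroup.coe_mul, inv_mul_cancel, Matrix.SpecialLinearGroup.coe_one]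

lemma coe_mul_inv (g : SL2) : (g : M2) * (g⁻¹ : SL2) = 1 := by
  rw [← Matrix.SpecialLinearGroup.coe_mul, mul_inv_cancel, Matrix.SpecialLinearGroup.coe_one]

lemma XW.conj {m : ℤ} {W : M2} {τ : ℍ} (h : XW m W τ) (g : SL2) :
    XW m (g * W * (g⁻¹ : SL2)) (g • τ) := by
  refine ⟨?_, ?_, ((lin_SL g τ).mul h.lin).mul (lin_SL_inv g τ)⟩
  · rw [← Matrix.trace_fin_two, Matrix.trace_mul_comm, ← Matrix.mul_assoc, coe_inv_mul,
      Matrix.one_mul, Matrix.trace_fin_two, h.tr]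
  · rw [Matrix.det_mul, Matrix.det_mul, det_SL, det_SL, h.det, one_mul, mul_one]

lemma XW.disc {n : ℕ} {m : ℤ} (hm : 4 * m = n + 1) {W : M2} {τ : ℍ} (h : XW m W τ) :
    (W 0 0 - W 1 1) ^ 2 + 4 * W 0 1 * W 1 0 = -n := by
  have h1 := h.det
  rw [Matrix.det_fin_two] at h1
  linear_combination (W 0 0 + W 1 1 + 1) * h.tr - 4 * h1 - hm

lemma XW.ne {n : ℕ} {m : ℤ} (hm : 4 * m = n + 1) (hn : 0 < n) {W : M2} {τ : ℍ} (h : XW m W τ) :
    W 1 0 ≠ 0 := by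
  intro h0
  have h1 := h.disc hm
  rw [h0] at h1
  have : (0 : ℤ) < n := by exact_mod_cast hn
  nlinarith [sq_nonneg (W 0 0 - W 1 1)]

lemma XW.ev {m : ℤ} {W : M2} {τ : ℍ} (h : XW m W τ) :
    ((W 1 0 : ℂ) * τ + W 1 1) ^ 2 - ((W 1 0 : ℂ) * τ + W 1 1) + m = 0 := by
  have h1 := congrArg (Int.cast : ℤ → ℂ) h.det
  have h2 := congrArg (Int.cast : ℤ → ℂ) h.tr
  have h3 := h.lin
  rw [Matrix.det_fin_two] at h1
  push_cast at h1 h2
  unfold Lin at h3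
  linear_combination ((W 1 0 : ℂ) * τ + W 1 1) * h2 - h1 - (W 1 0 : ℂ) * h3

lemma ev_same {m : ℤ} {W W' : M2} {τ σ : ℍ} (h : XW m W τ) (h' : XW m W' σ)
    (hs : 0 < W 1 0 * W' 1 0) : (W 1 0 : ℂ) * τ + W 1 1 = W' 1 0 * σ + W' 1 1 := by
  have k : ((W 1 0 : ℂ) * τ + W 1 1 - (W' 1 0 * σ + W' 1 1)) *
      ((W 1 0 : ℂ) * τ + W 1 1 + (W' 1 0 * σ + W' 1 1) - 1) = 0 := by
    linear_combination h.ev - h'.ev
  rcases mul_eq_zero.1 k with k | k
  · exact sub_eq_zero.1 k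
  · exfalso
    have k1 := congrArg Complex.im k
    simp only [add_im, sub_im, mul_im, intCast_re, intCast_im, coe_im, coe_re, zero_mul, add_zero,
      one_im, sub_zero, zero_im] at k1
    have h3 : (0 : ℝ) < W 1 0 * W' 1 0 := by exact_mod_cast hs
    have h4 := mul_pos h3 σ.im_pos
    have h5 := mul_nonneg (sq_nonneg (W 1 0 : ℝ)) τ.im_pos.le
    have h6 : (W 1 0 : ℝ) ^ 2 * τ.im + W 1 0 * W' 1 0 * σ.im = 0 := by
      linear_combination (W 1 0 : ℝ) * k1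
    linarith

lemma int_comb {a b c d : ℤ} {τ : ℍ} (h : (a : ℂ) * τ + b = c * τ + d) : a = c ∧ b = d := by
  have k1 := congrArg Complex.im h
  simp only [add_im, mul_im, intCast_re, intCast_im, coe_im, coe_re, zero_mul, add_zero] at k1
  have h1 : a = c := by exact_mod_cast mul_right_cancel₀ τ.im_pos.ne' k1
  rw [h1] at h
  exact ⟨h1, by exact_mod_cast add_left_cancel h⟩

lemma XW.flip {m : ℤ} {W : M2} {τ : ℍ} (h : XW m W τ) : XW m W.adjugate τ :=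
  ⟨by simpa [Matrix.adjugate_fin_two, add_comm] using h.tr,
    by rw [Matrix.det_adjugate, h.det]; simp, h.lin.adj⟩

lemma eq_of_same {n : ℕ} {m : ℤ} (hm : 4 * m = n + 1) (hn : 0 < n) {W W' : M2} {τ : ℍ}
    (h : XW m W τ) (h' : XW m W' τ) (hs : 0 < W 1 0 * W' 1 0) : W = W' := by
  obtain ⟨e1, e2⟩ := int_comb (ev_same h h' hs)
  have e3 : W 0 0 = W' 0 0 := by linarith [h.tr, h'.tr]
  have e4 : W 0 1 = W' 0 1 := by
    have d1 := h.disc hm
    have d2 := h'.disc hm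
    rw [← e1, ← e2, ← e3] at d2
    apply mul_right_cancel₀ (h.ne hm hn)
    linarith
  ext i k
  fin_cases i <;> fin_cases k <;> assumption

lemma uniq {n : ℕ} {m : ℤ} (hm : 4 * m = n + 1) (hn : 0 < n) {W W' : M2} {τ : ℍ}
    (h : XW m W τ) (h' : XW m W' τ) (d : De W) (d' : De W') : W = W' := by
  rcases lt_or_gt_of_ne (mul_ne_zero (h.ne hm hn) (h'.ne hm hn)) with hs | hs
  · exfalso
    have e := eq_of_same hm hn h h'.flip (by simpa [Matrix.adjugate_fin_two] using hs)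
    have e1 : W 0 0 = W' 1 1 := by simpa [Matrix.adjugate_fin_two] using congrFun (congrFun e 0) 0
    have := h'.tr
    have := d.2.2
    have := d'.2.2
    omega
  · exact eq_of_same hm hn h h' hs

lemma red_mul (A B : M2) : red 8 (A * B) = red 8 A * red 8 B :=
  (Int.castRingHom (ZMod 8)).mapMatrix.map_mul A B

lemma red_neg (A : M2) : red 8 (-A) = -red 8 A := (Int.castRingHom (ZMod 8)).mapMatrix.map_neg A

lemma red_sub (A B : M2) : red 8 (A - B) = red 8 A - red 8 B :=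
  (Int.castRingHom (ZMod 8)).mapMatrix.map_sub A B

lemma red_adj (A : M2) : red 8 A.adjugate = (red 8 A).adjugate :=
  (Int.castRingHom (ZMod 8)).map_adjugate A

lemma red_gam {g : SL2} (h : g ∈ Gam 8) : red 8 (g : M2) = 1 := by
  obtain ⟨h1, h2, h3, h4⟩ := CongruenceSubgroup.Gamma_mem.1 h
  ext i k
  fin_cases i <;> fin_cases k <;> simpa [red]

lemma red_conj {g g' : SL2} (h : g ∈ Gam 8) (h' : g' ∈ Gam 8) (A : M2) :
    red 8 (g * A * (g'⁻¹ : SL2)) = red 8 A := by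
  rw [red_mul, red_mul, red_gam h, red_gam (inv_mem h'), one_mul, mul_one]

lemma dvd_of_red {A B : M2} (h : red 8 A = red 8 B) (i k : Fin 2) : 8 ∣ B i k - A i k :=
  (ZMod.intCast_eq_intCast_iff_dvd_sub _ _ 8).1 (congrFun (congrFun h i) k)

lemma De.congr {A B : M2} (d : De A) (h : red 8 A = red 8 B) : De B := by
  have h1 := dvd_of_red h 0 1
  have h2 := dvd_of_red h 1 0
  have h3 := dvd_of_red h 0 0
  obtain ⟨d1, d2, d3⟩ := d
  refine ⟨?_, ?_, ?_⟩ <;> omega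

lemma adj_comb (A B : M2) (p q : ℤ) :
    (p • A + q • B).adjugate = p • A.adjugate + q • B.adjugate := by
  ext i k
  fin_cases i <;> fin_cases k <;> simp [Matrix.adjugate_fin_two, -zsmul_eq_mul, -zsmul_one] <;> ring

lemma adj_adj (A : M2) : A.adjugate.adjugate = A := by
  ext i k
  fin_cases i <;> fin_cases k <;> simp [Matrix.adjugate_fin_two]

lemma adj_tr {W : M2} (h : W 0 0 + W 1 1 = 1) (k : ℤ) :
    (W + k • (1 : M2)).adjugate = (1 + k) • (1 : M2) - W := by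
  ext i l
  fin_cases i <;> fin_cases l <;> simp [Matrix.adjugate_fin_two, -zsmul_eq_mul, -zsmul_one] <;> linarith

lemma adj_SL (g : SL2) : (g : M2).adjugate = (g⁻¹ : SL2) :=
  (Matrix.SpecialLinearGroup.coe_inv g).symm

/-- An oriented basis of the lattice of homomorphisms, with Gram data `f`. -/
structure RB (W1 : M2) (τ1 : ℍ) (W2 : M2) (τ2 : ℍ) (f : ℤ × ℤ × ℤ) (α β : M2) : Prop where
  pos : 0 < f.1
  da : α.det = f.1
  db : β.det = f.2.2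
  l : α.adjugate * β = W1 + f.2.1 • (1 : M2)
  r : β * α.adjugate = W2 + f.2.1 • (1 : M2)
  la : Lin α τ1 τ2
  lb : Lin β τ1 τ2

/-- The change of the Gram data. -/
def act (f : ℤ × ℤ × ℤ) (p q u v : ℤ) : ℤ × ℤ × ℤ :=
  (p ^ 2 * f.1 + p * q * (2 * f.2.1 + 1) + q ^ 2 * f.2.2,
    p * u * f.1 + q * v * f.2.2 + p * v * f.2.1 + q * u * (1 + f.2.1),
    u ^ 2 * f.1 + u * v * (2 * f.2.1 + 1) + v ^ 2 * f.2.2)

variable {n : ℕ} {m : ℤ} {W1 W2 α β α' β' : M2} {τ1 τ2 : ℍ} {f f' : ℤ × ℤ × ℤ}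

lemma RB.conj (h : RB W1 τ1 W2 τ2 f α β) (g1 g2 : SL2) :
    RB (g1 * W1 * (g1⁻¹ : SL2)) (g1 • τ1) (g2 * W2 * (g2⁻¹ : SL2)) (g2 • τ2) f
      (g2 * α * (g1⁻¹ : SL2)) (g2 * β * (g1⁻¹ : SL2)) := by
  have e : ((g2 : M2) * α * (g1⁻¹ : SL2)).adjugate = g1 * α.adjugate * (g2⁻¹ : SL2) := by
    rw [Matrix.adjugate_mul_distrib, Matrix.adjugate_mul_distrib, adj_SL, adj_SL, inv_inv,
      Matrix.mul_assoc]
  refine ⟨h.pos, ?_, ?_, ?_, ?_, ((lin_SL g2 τ2).mul h.la).mul (lin_SL_inv g1 τ1),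
    ((lin_SL g2 τ2).mul h.lb).mul (lin_SL_inv g1 τ1)⟩
  · rw [Matrix.det_mul, Matrix.det_mul, det_SL, det_SL, h.da, one_mul, mul_one]
  · rw [Matrix.det_mul, Matrix.det_mul, det_SL, det_SL, h.db, one_mul, mul_one]
  · calc _ = (g1 : M2) * (α.adjugate * (((g2⁻¹ : SL2) : M2) * g2) * β) * (g1⁻¹ : SL2) := by
          rw [e]; simp only [Matrix.mul_assoc]
      _ = _ := by
          rw [coe_inv_mul, Matrix.mul_one, h.l, Matrix.mul_add, Matrix.add_mul, Matrix.mul_smul,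
            Matrix.mul_one, Matrix.smul_mul, coe_mul_inv]
  · calc _ = (g2 : M2) * (β * (((g1⁻¹ : SL2) : M2) * g1) * α.adjugate) * (g2⁻¹ : SL2) := by
          rw [e]; simp only [Matrix.mul_assoc]
      _ = _ := by
          rw [coe_inv_mul, Matrix.mul_one, h.r, Matrix.mul_add, Matrix.add_mul, Matrix.mul_smul,
            Matrix.mul_one, Matrix.smul_mul, coe_mul_inv]

lemma RB.prod (h : RB W1 τ1 W2 τ2 f α β) (h1 : W1 0 0 + W1 1 1 = 1) (p q u v : ℤ) :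
    (p • α + q • β).adjugate * (u • α + v • β) =
      (p * v - q * u) • W1 + (act f p q u v).2.1 • (1 : M2) := by
  have e3 : β.adjugate * α = (1 + f.2.1) • (1 : M2) - W1 := by
    rw [← adj_tr h1, ← h.l, Matrix.adjugate_mul_distrib, adj_adj]
  rw [adj_comb]
  simp only [Matrix.add_mul, Matrix.mul_add, Matrix.smul_mul, Matrix.mul_smul, Matrix.adjugate_mul,
    h.l, e3, h.da, h.db, act]
  module

lemma RB.prod' (h : RB W1 τ1 W2 τ2 f α β) (h2 : W2 0 0 + W2 1 1 = 1) (p q u v : ℤ) :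
    (u • α + v • β) * (p • α + q • β).adjugate =
      (p * v - q * u) • W2 + (act f p q u v).2.1 • (1 : M2) := by
  have e3 : α * β.adjugate = (1 + f.2.1) • (1 : M2) - W2 := by
    rw [← adj_tr h2, ← h.r, Matrix.adjugate_mul_distrib, adj_adj]
  rw [adj_comb]
  simp only [Matrix.add_mul, Matrix.mul_add, Matrix.smul_mul, Matrix.mul_smul, Matrix.mul_adjugate,
    h.r, e3, h.da, h.db, act]
  module

lemma RB.det_comb (h : RB W1 τ1 W2 τ2 f α β) (h1 : W1 0 0 + W1 1 1 = 1) (p q : ℤ) :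
    (p • α + q • β).det = p ^ 2 * f.1 + p * q * (2 * f.2.1 + 1) + q ^ 2 * f.2.2 := by
  have e := congrFun (congrFun (h.prod h1 p q p q) 0) 0
  rw [Matrix.adjugate_mul] at e
  simp only [act, Matrix.smul_apply, Matrix.add_apply, Matrix.one_apply_eq, smul_eq_mul] at e
  linear_combination e

lemma RB.comb (h : RB W1 τ1 W2 τ2 f α β) (h1 : W1 0 0 + W1 1 1 = 1) (h2 : W2 0 0 + W2 1 1 = 1)
    {p q u v : ℤ} (e : p * v - q * u = 1) (hp : 0 < (act f p q u v).1) :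
    RB W1 τ1 W2 τ2 (act f p q u v) (p • α + q • β) (u • α + v • β) :=
  ⟨hp, h.det_comb h1 p q, h.det_comb h1 u v, by rw [h.prod h1, e, one_smul],
    by rw [h.prod' h2, e, one_smul], h.la.comb h.lb p q, h.la.comb h.lb u v⟩

lemma RB.mul_a (h : RB W1 τ1 W2 τ2 f α β) : α * W1 = f.1 • β - f.2.1 • α := by
  have e : α * (α.adjugate * β) = f.1 • β := by
    rw [← Matrix.mul_assoc, Matrix.mul_adjugate, h.da, Matrix.smul_mul, Matrix.one_mul]
  rw [h.l, Matrix.mul_add, Matrix.mul_smul, Matrix.mul_one] at e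
  exact eq_sub_of_add_eq e

lemma RB.hom_a (h : RB W1 τ1 W2 τ2 f α β) : α * W1 = W2 * α := by
  have e : β * α.adjugate * α = f.1 • β := by
    rw [Matrix.mul_assoc, Matrix.adjugate_mul, h.da, Matrix.mul_smul, Matrix.mul_one]
  rw [h.r, Matrix.add_mul, Matrix.smul_mul, Matrix.one_mul] at e
  rw [h.mul_a, eq_sub_of_add_eq e]

lemma RB.hom_b (h : RB W1 τ1 W2 τ2 f α β) : β * W1 = W2 * β := by
  have e := Matrix.mul_assoc β α.adjugate β
  rw [h.l, h.r, Matrix.add_mul, Matrix.mul_add, Matrix.smul_mul, Matrix.mul_smul, Matrix.one_mul,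
    Matrix.mul_one] at e
  exact (add_right_cancel e).symm

lemma RB.hom_adj (h : RB W1 τ1 W2 τ2 f α β) : α.adjugate * W2 = W1 * α.adjugate := by
  have e := Matrix.mul_assoc α.adjugate β α.adjugate
  rw [h.l, h.r, Matrix.add_mul, Matrix.mul_add, Matrix.smul_mul, Matrix.mul_smul, Matrix.one_mul,
    Matrix.mul_one] at e
  exact (add_right_cancel e).symm

lemma RB.gram (h : RB W1 τ1 W2 τ2 f α β) (h1 : XW m W1 τ1) :
    f.1 * f.2.2 = m + f.2.1 + f.2.1 ^ 2 := by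
  have e := congrArg Matrix.det h.l
  have d := h1.det
  rw [Matrix.det_mul, Matrix.det_adjugate, h.da, h.db, Matrix.det_fin_two] at e
  rw [Matrix.det_fin_two] at d
  simp [-zsmul_eq_mul, -zsmul_one] at e
  linear_combination e + d + f.2.1 * h1.tr

lemma commutant {Z W : M2} {a b c : ℤ} (hb : a * W 0 1 + b * W 1 0 + c * (W 0 0 - W 1 1) = 1)
    (h : Z * W = W * Z) : ∃ s t : ℤ, Z = s • (1 : M2) + t • W := by
  have e0 := congrFun (congrFun h 0) 0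
  have e1 := congrFun (congrFun h 0) 1
  have e2 := congrFun (congrFun h 1) 0
  simp only [Matrix.mul_apply, Fin.sum_univ_two] at e0 e1 e2
  refine ⟨Z 0 0 - (a * Z 0 1 + b * Z 1 0 + c * (Z 0 0 - Z 1 1)) * W 0 0,
    a * Z 0 1 + b * Z 1 0 + c * (Z 0 0 - Z 1 1), ?_⟩
  ext i k
  fin_cases i <;> fin_cases k <;> simp [-zsmul_eq_mul, -zsmul_one]
  · linear_combination -Z 0 1 * hb + b * e0 - c * e1
  · linear_combination -Z 1 0 * hb - a * e0 + c * e2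
  · linear_combination (Z 0 0 - Z 1 1) * hb - a * e1 + b * e2

lemma RB.span (hs : Squarefree n) (hm : 4 * m = n + 1) (h : RB W1 τ1 W2 τ2 f α β)
    (h1 : XW m W1 τ1) {y : M2} (hy : y * W1 = W2 * y) : ∃ p q : ℤ, y = p • α + q • β := by
  obtain ⟨a, b, c, hb⟩ := bez hs (h1.disc hm)
  obtain ⟨s, t, e⟩ := commutant (Z := α.adjugate * y) hb (by
    rw [Matrix.mul_assoc, hy, ← Matrix.mul_assoc, h.hom_adj, Matrix.mul_assoc])
  have e1 : f.1 • y + (-(f.1 * t)) • β = (s - t * f.2.1) • α + (0 : ℤ) • β := by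
    have e2 : α * (α.adjugate * y) = f.1 • y := by
      rw [← Matrix.mul_assoc, Matrix.mul_adjugate, h.da, Matrix.smul_mul, Matrix.one_mul]
    rw [← e2, e, Matrix.mul_add, Matrix.mul_smul, Matrix.mul_smul, Matrix.mul_one, h.mul_a]
    module
  have e2 := congrArg (fun x : M2 => x.adjugate * β) e1
  simp only [adj_comb, Matrix.add_mul, Matrix.smul_mul, h.l, Matrix.adjugate_mul] at e2
  have k0 := congrFun (congrFun e2 0) 0
  have k1 := congrFun (congrFun e2 0) 1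
  have k2 := congrFun (congrFun e2 1) 0
  have k3 := congrFun (congrFun e2 1) 1
  simp [-zsmul_eq_mul, -zsmul_one] at k0 k1 k2 k3
  obtain ⟨p, hp⟩ : f.1 ∣ s - t * f.2.1 :=
    ⟨a * (y.adjugate * β) 0 1 + b * (y.adjugate * β) 1 0 +
      c * ((y.adjugate * β) 0 0 - (y.adjugate * β) 1 1), by
      linear_combination -(s - t * f.2.1) * hb - a * k1 - b * k2 - c * (k0 - k3)⟩
  refine ⟨p, t, smul_right_injective M2 h.pos.ne' ?_⟩
  rw [hp] at e1
  dsimp only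
  rw [eq_sub_of_add_eq e1]
  module

lemma RB.two (hs : Squarefree n) (hm : 4 * m = n + 1) (h : RB W1 τ1 W2 τ2 f α β)
    (h' : RB W1 τ1 W2 τ2 f' α' β') (h1 : XW m W1 τ1) : ∃ p q u v : ℤ, p * v - q * u = 1 ∧
      α' = p • α + q • β ∧ β' = u • α + v • β ∧ act f p q u v = f' := by
  obtain ⟨p, q, ea⟩ := h.span hs hm h1 h'.hom_a
  obtain ⟨u, v, eb⟩ := h.span hs hm h1 h'.hom_b
  have e := h.prod h1.tr p q u v
  rw [← ea, ← eb, h'.l] at e
  have k0 := congrFun (congrFun e 0) 0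
  have k2 := congrFun (congrFun e 1) 0
  simp only [Matrix.add_apply, Matrix.smul_apply, Matrix.one_apply_eq, smul_eq_mul, mul_one,
    ne_eq, one_ne_zero, not_false_eq_true, Matrix.one_apply_ne, mul_zero, add_zero] at k0 k2
  have e1 : p * v - q * u = 1 := by
    apply mul_right_cancel₀ (h1.ne hm (Nat.pos_of_ne_zero hs.ne_zero))
    linear_combination -k2
  refine ⟨p, q, u, v, e1, ea, eb, Prod.ext ?_ (Prod.ext ?_ ?_)⟩
  · rw [← h'.da, ea, h.det_comb h1.tr, act]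
  · rw [e1] at k0
    linear_combination -k0
  · rw [← h'.db, eb, h.det_comb h1.tr, act]

lemma aut (hs : Squarefree n) (hn : 7 ≤ n) (hj : 0 < f.1)
    (hd : (2 * f.2.1 + 1) ^ 2 + 4 * f.1 * (-f.2.2) = -n) {p q u v : ℤ} (e : p * v - q * u = 1)
    (h : act f p q u v = f) : q = 0 ∧ u = 0 ∧ (p = 1 ∧ v = 1 ∨ p = -1 ∧ v = -1) := by
  obtain ⟨j, k, l⟩ := f
  simp only [act, Prod.mk.injEq] at h hj hd
  obtain ⟨e1, e2, -⟩ := h
  obtain ⟨a, b, c, hb⟩ := bez hs hd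
  have r1 : 2 * (j * (v - p)) = 2 * ((2 * k + 1) * q) := by
    linear_combination (-2 * v) * e1 + 2 * q * e2 + (q + 2 * p * j + q * (2 * k + 1)) * e
  have r2 : 2 * (q * l) = 2 * (-(u * j)) := by
    linear_combination (-2 * u) * e1 + 2 * p * e2 + (p - p * (2 * k + 1) - 2 * q * l) * e
  have r3 : j * (v - p) = (2 * k + 1) * q := by linarith
  have r4 : q * l = -(u * j) := by linarith
  obtain ⟨t, ht⟩ : j ∣ q := ⟨a * q + b * u + c * (v - p), by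
    linear_combination -q * hb - b * r4 - c * r3⟩
  have r5 : v - p = (2 * k + 1) * t := by
    apply mul_left_cancel₀ hj.ne'
    rw [r3, ht]
    ring
  have r6 : u = -(l * t) := by
    apply mul_left_cancel₀ hj.ne'
    rw [ht] at r4
    linear_combination r4
  have r7 : (p + v) ^ 2 = 4 - n * t ^ 2 := by
    rw [ht, r6] at e
    linear_combination (v - p + (2 * k + 1) * t) * r5 + 4 * e + t ^ 2 * hd
  have t0 : t = 0 := by
    by_contra h0
    have h1 : 1 ≤ t ^ 2 := by have := sq_pos_of_ne_zero h0; omega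
    have h2 : (7 : ℤ) ≤ n := by exact_mod_cast hn
    nlinarith [sq_nonneg (p + v)]
  subst t0
  rw [mul_zero] at ht
  rw [mul_zero, neg_zero] at r6
  rw [ht, zero_mul, sub_zero] at e
  exact ⟨ht, r6, Int.eq_one_or_neg_one_of_mul_eq_one' e⟩

lemma cop {a b : ℤ} (h : ∀ p : ℕ, p.Prime → (p : ℤ) ∣ a → (p : ℤ) ∣ b → False) : IsCoprime a b := by
  rw [Int.isCoprime_iff_gcd_eq_one, Nat.eq_one_iff_not_exists_prime_dvd]
  intro p hp hd
  have h1 : (p : ℤ) ∣ (Int.gcd a b : ℕ) := Int.natCast_dvd_natCast.2 hd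
  exact h p hp (h1.trans (Int.gcd_dvd_left _ _)) (h1.trans (Int.gcd_dvd_right _ _))

lemma exists_prod {N : ℤ} (hN : N ≠ 0) (P : ℕ → Prop) :
    ∃ x : ℤ, ∀ p : ℕ, p.Prime → ((p : ℤ) ∣ x ↔ (p : ℤ) ∣ N ∧ P p) := by
  refine ⟨(∏ q ∈ N.natAbs.primeFactors.filter P, q : ℕ), fun p hp => ?_⟩
  rw [Int.natCast_dvd_natCast, Prime.dvd_finsetProd_iff hp.prime, Int.natCast_dvd]
  simp only [Finset.mem_filter, Nat.mem_primeFactors]
  exact ⟨fun ⟨q, hq, h⟩ => (Nat.prime_dvd_prime_iff_eq hp hq.1.1).1 h ▸ ⟨hq.1.2.1, hq.2⟩,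
    fun h => ⟨p, ⟨⟨hp, h.1, by simpa using hN⟩, h.2⟩, dvd_rfl⟩⟩

lemma rep_cop {A B C a b c N : ℤ} (hb : a * C + b * A + c * B = 1) (hN : N ≠ 0) :
    ∃ x y : ℤ, IsCoprime y x ∧ IsCoprime N (A * x ^ 2 + B * x * y - C * y ^ 2) := by
  obtain ⟨x, hx⟩ := exists_prod hN fun q : ℕ => (q : ℤ) ∣ A ∧ ¬(q : ℤ) ∣ C
  obtain ⟨y, hy⟩ := exists_prod hN fun q : ℕ => ¬(q : ℤ) ∣ A
  refine ⟨x, y, cop fun p hp h1 h2 => ((hy p hp).1 h1).2 ((hx p hp).1 h2).2.1,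
    cop fun p hp h1 h2 => ?_⟩
  · have hp' := Nat.prime_iff_prime_int.1 hp
    replace hx := hx p hp
    replace hy := hy p hp
    rw [and_iff_right h1] at hx hy
    by_cases hA : (p : ℤ) ∣ A
    · have ny : ¬(p : ℤ) ∣ y := fun h => hy.1 h hA
      by_cases hC : (p : ℤ) ∣ C
      · have h3 : (p : ℤ) ∣ B * x * y := by
          have := (h2.sub (hA.mul_right (x ^ 2))).add (hC.mul_right (y ^ 2))
          rwa [show A * x ^ 2 + B * x * y - C * y ^ 2 - A * x ^ 2 + C * y ^ 2 = B * x * y by ring]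
            at this
        rcases hp'.dvd_or_dvd h3 with h3 | h3
        · rcases hp'.dvd_or_dvd h3 with h3 | h3
          · exact hp'.not_dvd_one (hb ▸ ((hC.mul_left a).add (hA.mul_left b)).add (h3.mul_left c))
          · exact (hx.1 h3).2 hC
        · exact ny h3
      · have h4 := hx.2 ⟨hA, hC⟩
        have h3 : (p : ℤ) ∣ C * y ^ 2 := by
          have := (h4.mul_right (A * x + B * y)).sub h2
          rwa [show x * (A * x + B * y) - (A * x ^ 2 + B * x * y - C * y ^ 2) = C * y ^ 2 by ring]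
            at this
        exact (hp'.dvd_or_dvd h3).elim hC fun h => ny (hp'.dvd_of_dvd_pow h)
    · have h4 := hy.2 hA
      have h3 : (p : ℤ) ∣ A * x ^ 2 := by
        have := h2.sub (h4.mul_right (B * x - C * y))
        rwa [show A * x ^ 2 + B * x * y - C * y ^ 2 - y * (B * x - C * y) = A * x ^ 2 by ring]
          at this
      exact (hp'.dvd_or_dvd h3).elim hA fun h => hA (hx.1 (hp'.dvd_of_dvd_pow h)).1

lemma dirichlet (h1 : XW m W1 τ1) (h2 : XW m W2 τ2) (hs : 0 < W1 1 0 * W2 1 0)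
    (hc : IsCoprime (W1 1 0) (W2 1 0)) : ∃ f α β, RB W1 τ1 W2 τ2 f α β := by
  obtain ⟨a, b, hb⟩ := hc
  have d1 := h1.det
  have d2 := h2.det
  have t1 := h1.tr
  have t2 := h2.tr
  rw [Matrix.det_fin_two] at d1 d2
  obtain ⟨s, es⟩ : ∃ s, s = b * (W1 0 0 + W2 0 0 - 1) := ⟨_, rfl⟩
  obtain ⟨t, et⟩ : ∃ t, t = a * (1 - W1 0 0 - W2 0 0) := ⟨_, rfl⟩
  obtain ⟨k, ek⟩ : ∃ k, k = W2 1 0 * s - W2 0 0 := ⟨_, rfl⟩
  have k1 : W1 1 0 * t = 1 - W1 0 0 + k := by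
    rw [ek, es, et]
    linear_combination (1 - W1 0 0 - W2 0 0) * hb
  have k2 : W1 1 0 * (W1 0 1 + (W2 0 0 - W1 0 0) * t) =
      W2 1 0 * (W2 0 1 + (W2 0 0 - W1 0 0) * s) := by
    linear_combination (W2 0 0 - W1 0 0) * k1 + (W2 0 0 - W1 0 0) * ek - d1 + d2 +
      W1 0 0 * t1 - W2 0 0 * t2
  obtain ⟨z, ez⟩ : ∃ z, z = a * (W2 0 1 + (W2 0 0 - W1 0 0) * s) +
    b * (W1 0 1 + (W2 0 0 - W1 0 0) * t) := ⟨_, rfl⟩
  have z1 : W2 1 0 * z = W1 0 1 + (W2 0 0 - W1 0 0) * t := by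
    rw [ez]
    linear_combination (W1 0 1 + (W2 0 0 - W1 0 0) * t) * hb - a * k2
  have z2 : W1 1 0 * z = W2 0 1 + (W2 0 0 - W1 0 0) * s := by
    rw [ez]
    linear_combination (W2 0 1 + (W2 0 0 - W1 0 0) * s) * hb + b * k2
  have da : (!![W1 1 0, W2 0 0 - W1 0 0; 0, W2 1 0] : M2).det = W1 1 0 * W2 1 0 := by
    simp [Matrix.det_fin_two]
  have la : Lin !![W1 1 0, W2 0 0 - W1 0 0; 0, W2 1 0] τ1 τ2 := by
    have e := ev_same h1 h2 hs
    have c1 := congrArg (Int.cast : ℤ → ℂ) t1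
    have c2 := congrArg (Int.cast : ℤ → ℂ) t2
    push_cast at c1 c2
    simp only [Lin, of_apply, cons_val', cons_val_zero, cons_val_one, cons_val_fin_one]
    push_cast
    linear_combination e - c1 + c2
  have l : (!![W1 1 0, W2 0 0 - W1 0 0; 0, W2 1 0] : M2).adjugate * !![s, z; 1, t] =
      W1 + k • (1 : M2) := by
    ext i j
    fin_cases i <;> fin_cases j <;> simp [Matrix.adjugate_fin_two, -zsmul_eq_mul, -zsmul_one] <;> linarith
  refine ⟨(W1 1 0 * W2 1 0, k, (!![s, z; 1, t] : M2).det), _, _, hs, da, rfl, l, ?_, la, ?_⟩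
  · ext i j
    fin_cases i <;> fin_cases j <;> simp [Matrix.adjugate_fin_two, -zsmul_eq_mul, -zsmul_one] <;> linarith
  · refine Lin.cancel hs.ne' ?_
    have := la.mul (h1.lin.comb (lin_one τ1) 1 k)
    rwa [one_smul, ← l, ← Matrix.mul_assoc, Matrix.mul_adjugate, da, Matrix.smul_mul,
      Matrix.one_mul] at this

lemma conj_hom (g : SL2) (W : M2) : (g : M2) * W = g * W * (g⁻¹ : SL2) * g := by
  rw [Matrix.mul_assoc ((g : M2) * W), coe_inv_mul, Matrix.mul_one]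

lemma exists_RB (hs : Squarefree n) (hm : 4 * m = n + 1) (h1 : XW m W1 τ1) (h2 : XW m W2 τ2)
    (hp : 0 < W1 1 0 * W2 1 0) : ∃ f α β, RB W1 τ1 W2 τ2 f α β := by
  obtain ⟨a, b, c, hb⟩ := bez hs (h2.disc hm)
  obtain ⟨x, y, hxy, hc⟩ := rep_cop hb (h1.ne hm (Nat.pos_of_ne_zero hs.ne_zero))
  obtain ⟨g, g0, g1⟩ := hxy.exists_SL2_row 1
  have e : ((g : M2) * W2 * (g⁻¹ : SL2)) 1 0 =
      W2 1 0 * x ^ 2 + (W2 0 0 - W2 1 1) * x * y - W2 0 1 * y ^ 2 := by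
    rw [← adj_SL]
    simp [Matrix.mul_apply, Fin.sum_univ_two, Matrix.adjugate_fin_two, g0, g1]
    ring
  obtain ⟨f, α, β, h⟩ := dirichlet h1 (h2.conj g)
    (sign_eq (det_SL_pos g) (conj_hom g W2) (lin_SL g τ2) h2.lin hp) (e ▸ hc)
  have k := h.conj 1 g⁻¹
  have e2 : ((g⁻¹ : SL2) : M2) * ((g : M2) * W2 * (g⁻¹ : SL2)) * (g⁻¹⁻¹ : SL2) = W2 := by
    rw [inv_inv, Matrix.mul_assoc, ← conj_hom, ← Matrix.mul_assoc, coe_inv_mul, Matrix.one_mul]
  rw [e2, one_smul, inv_smul_smul, inv_one, Matrix.SpecialLinearGroup.coe_one, Matrix.one_mul,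
    Matrix.mul_one] at k
  exact ⟨f, _, _, k⟩

/-- Bases for a pair of Heegner points. -/
def Bas (m : ℤ) (x : ℍ × ℍ) (f : ℤ × ℤ × ℤ) (α β : M2) : Prop :=
  ∃ W1 W2, XW m W1 x.1 ∧ De W1 ∧ XW m W2 x.2 ∧ De W2 ∧ RB W1 x.1 W2 x.2 f α β

/-- Heegner points with a sign. -/
def Sg (m e : ℤ) (τ : ℍ) : Prop := ∃ W, XW m W τ ∧ De W ∧ 0 < e * W 1 0

/-- Pairs of Heegner points of the same sign. -/
def PS (m : ℤ) : Set (ℍ × ℍ) := {x | ∃ e, Sg m e x.1 ∧ Sg m e x.2}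

/-- Equivalence of pairs of points. -/
def relP (x y : ℍ × ℍ) : Prop := relG 8 x.1 y.1 ∧ relG 8 x.2 y.2

/-- A choice of sign for matrices modulo eight. -/
def Pos (a : MN 8) : Prop := Fintype.equivFin (MN 8) a ≤ Fintype.equivFin (MN 8) (-a)

lemma pos_or (a : MN 8) : Pos a ∨ Pos (-a) := by
  unfold Pos
  rw [neg_neg]
  exact le_total _ _

lemma Pos.eq {a : MN 8} (h : Pos a) (h' : Pos (-a)) : a = -a := by
  unfold Pos at h h'
  rw [neg_neg] at h'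
  exact (Fintype.equivFin (MN 8)).injective (le_antisymm h h')

lemma relP_equiv (hF : FS) : Equivalence relP :=
  ⟨fun _ => ⟨(hF.relG_equiv 8).refl _, (hF.relG_equiv 8).refl _⟩,
    fun h => ⟨(hF.relG_equiv 8).symm h.1, (hF.relG_equiv 8).symm h.2⟩,
    fun h h' => ⟨(hF.relG_equiv 8).trans h.1 h'.1, (hF.relG_equiv 8).trans h.2 h'.2⟩⟩

variable {x y : ℍ × ℍ}

lemma Bas.conj (h : Bas m x f α β) {g1 g2 : SL2} (h1 : g1 ∈ Gam 8) (h2 : g2 ∈ Gam 8) :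
    Bas m (g1 • x.1, g2 • x.2) f (g2 * α * (g1⁻¹ : SL2)) (g2 * β * (g1⁻¹ : SL2)) := by
  obtain ⟨W1, W2, a1, d1, a2, d2, h⟩ := h
  exact ⟨_, _, a1.conj g1, d1.congr (red_conj h1 h1 W1).symm, a2.conj g2,
    d2.congr (red_conj h2 h2 W2).symm, h.conj g1 g2⟩

lemma Bas.rel (h : Bas m x f α β) (hr : relP x y) : ∃ α' β', Bas m y f α' β' := by
  obtain ⟨⟨g1, h1, e1⟩, g2, h2, e2⟩ := hr
  have k := h.conj h1 h2
  rw [e1, e2] at k
  exact ⟨_, _, k⟩

lemma Bas.ps (hm : 4 * m = n + 1) (hn : 0 < n) (h : Bas m x f α β) : x ∈ PS m := by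
  obtain ⟨W1, W2, a1, d1, a2, d2, h⟩ := h
  have k := mul_self_pos.2 (a1.ne hm hn)
  exact ⟨W1 1 0, ⟨W1, a1, d1, k⟩, W2, a2, d2, sign_eq (h.da ▸ h.pos) h.hom_a h.la a1.lin k⟩

lemma Bas.neg (h : Bas m x f α β) : Bas m x f (-α) (-β) := by
  obtain ⟨W1, W2, a1, d1, a2, d2, h⟩ := h
  have e : act f (-1) 0 0 (-1) = f := by simp [act]
  have k := h.comb a1.tr a2.tr (p := -1) (q := 0) (u := 0) (v := -1) (by norm_num)
    (by rw [e]; exact h.pos)
  rw [e] at k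
  exact ⟨W1, W2, a1, d1, a2, d2, by simpa using k⟩

lemma Bas.two (hs : Squarefree n) (hm : 4 * m = n + 1) (h : Bas m x f α β)
    (h' : Bas m x f' α' β') : ∃ p q u v : ℤ, p * v - q * u = 1 ∧
      α' = p • α + q • β ∧ β' = u • α + v • β ∧ act f p q u v = f' := by
  obtain ⟨W1, W2, a1, d1, a2, d2, h⟩ := h
  obtain ⟨W1', W2', a1', d1', a2', d2', h'⟩ := h'
  have hn := Nat.pos_of_ne_zero hs.ne_zero
  obtain rfl := uniq hm hn a1 a1' d1 d1'
  obtain rfl := uniq hm hn a2 a2' d2 d2'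
  exact h.two hs hm h' a1

lemma Bas.pos (h : Bas m x f α β) : 0 < f.1 := by
  obtain ⟨W1, W2, -, -, -, -, h⟩ := h
  exact h.pos

lemma Bas.disc (hm : 4 * m = n + 1) (h : Bas m x f α β) :
    (2 * f.2.1 + 1) ^ 2 + 4 * f.1 * (-f.2.2) = -n := by
  obtain ⟨W1, W2, a1, -, -, -, h⟩ := h
  linear_combination -4 * h.gram a1 - hm

lemma Bas.trans (hs : Squarefree n) (hm : 4 * m = n + 1) (h : Bas m x f α β)
    (h' : Bas m x f' α' β') {a b : M2} (k : Bas m y f a b) : ∃ a' b', Bas m y f' a' b' := by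
  obtain ⟨p, q, u, v, e, -, -, ef⟩ := h.two hs hm h'
  obtain ⟨W1, W2, a1, d1, a2, d2, k⟩ := k
  exact ⟨_, _, W1, W2, a1, d1, a2, d2, ef ▸ k.comb a1.tr a2.tr e (ef ▸ h'.pos)⟩

lemma Bas.ne_neg (h : Bas m x f α β) : red 8 α ≠ -red 8 α := by
  obtain ⟨W1, W2, a1, -, -, -, h⟩ := h
  intro e
  rw [← red_neg] at e
  have k : ∀ i j, 2 ∣ α i j := fun i j => by
    have := dvd_of_red e i j
    rw [Matrix.neg_apply] at this
    omega
  have k0 := congrFun (congrFun h.l 0) 0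
  have k1 := congrFun (congrFun h.l 1) 1
  simp [Matrix.adjugate_fin_two, Matrix.mul_apply, -zsmul_eq_mul, -zsmul_one] at k0 k1
  obtain ⟨a, ha⟩ := k 0 0
  obtain ⟨b, hb⟩ := k 0 1
  obtain ⟨c, hc⟩ := k 1 0
  obtain ⟨d, hd⟩ := k 1 1
  rw [hb, hd] at k0
  rw [ha, hc] at k1
  have : 2 * (d * β 0 0 - b * β 1 0 - c * β 0 1 + a * β 1 1 - f.2.1) = 1 := by
    linear_combination k0 + k1 + a1.tr
  omega

lemma Bas.eq (hs : Squarefree n) (hm : 4 * m = n + 1) (hn : 7 ≤ n) (h : Bas m x f α β)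
    (h' : Bas m x f α' β') (p1 : Pos (red 8 α)) (p2 : Pos (red 8 α')) : α' = α ∧ β' = β := by
  obtain ⟨p, q, u, v, e, ea, eb, ef⟩ := h.two hs hm h'
  obtain ⟨rfl, rfl, ⟨rfl, rfl⟩ | ⟨rfl, rfl⟩⟩ := aut hs hn h.pos (h.disc hm) e ef
  · exact ⟨by simpa using ea, by simpa using eb⟩
  · have e1 : α' = -α := by simpa using ea
    rw [e1, red_neg] at p2
    exact absurd (p1.eq p2) h.ne_neg

lemma xw_of {X : M2} {τ : ℍ} {k : ℤ} (h1 : X.trace = 2 * k + 1) (h2 : X.det = m + k + k ^ 2)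
    (h3 : Lin X τ τ) : XW m (X - k • (1 : M2)) τ := by
  rw [Matrix.trace_fin_two] at h1
  rw [Matrix.det_fin_two] at h2
  refine ⟨?_, ?_, ?_⟩
  · simp [-zsmul_eq_mul, -zsmul_one]
    linear_combination h1
  · rw [Matrix.det_fin_two]
    simp [-zsmul_eq_mul, -zsmul_one]
    linear_combination h2 - k * h1
  · have := h3.comb (lin_one τ) 1 (-k)
    rwa [one_smul, _root_.neg_smul, ← sub_eq_add_neg] at this

lemma Bas.pos' (hm : 4 * m = n + 1) (hn : 0 < n) (h : Bas m x f α β) : 0 < f.2.2 := by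
  have h1 := h.disc hm
  have h2 : (0 : ℤ) < n := by exact_mod_cast hn
  have h3 : 0 < f.1 * f.2.2 := by nlinarith [sq_nonneg (2 * f.2.1 + 1)]
  exact (mul_pos_iff_of_pos_left h.pos).1 h3

lemma Bas.ofZ (hm : 4 * m = n + 1) (hn : 0 < n) (h : Bas m x f α β) {z : M2 × M2 × ℍ}
    (hz : z ∈ ZSet f.2.2 (2 * f.2.1 + 1) f.1 (red 8 α) (red 8 β)) :
    Bas m (z.2.2, mob z.1 z.2.2) f z.1 z.2.1 := by
  have p2 := h.pos' hm hn
  obtain ⟨W1, W2, a1, d1, a2, d2, h⟩ := h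
  obtain ⟨z1, z2, z3, z4, z5, z6⟩ := hz
  have la := (lin_iff (z1 ▸ h.pos) _ _).1 (rfl : mob z.1 z.2.2 = _)
  have lb := (lin_iff (z2 ▸ p2) _ _).1 z6.symm
  have g := h.gram a1
  refine ⟨_, _, xw_of z3 ?_ (la.adj.mul lb), d1.congr ?_,
    xw_of ((Matrix.trace_mul_comm _ _).trans z3) ?_ (lb.mul la.adj), d2.congr ?_,
    h.pos, z1, z2, (sub_add_cancel _ _).symm, (sub_add_cancel _ _).symm, la, lb⟩
  · rw [Matrix.det_mul, Matrix.det_adjugate, z1, z2, ← g]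
    simp
  · rw [← sub_eq_iff_eq_add.2 h.l, red_sub, red_sub, red_mul, red_mul, red_adj, red_adj, z4, z5]
  · rw [Matrix.det_mul, Matrix.det_adjugate, z1, z2, ← g, mul_comm]
    simp
  · rw [← sub_eq_iff_eq_add.2 h.r, red_sub, red_sub, red_mul, red_mul, red_adj, red_adj, z4, z5]

lemma Bas.mob_eq (hm : 4 * m = n + 1) (hn : 0 < n) (h : Bas m x f α β) :
    mob α x.1 = x.2 ∧ mob β x.1 = x.2 := by
  have p2 := h.pos' hm hn
  obtain ⟨W1, W2, -, -, -, -, h⟩ := h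
  exact ⟨(lin_iff (h.da ▸ h.pos) _ _).2 h.la, (lin_iff (h.db ▸ p2) _ _).2 h.lb⟩

lemma Bas.toZ (hm : 4 * m = n + 1) (hn : 0 < n) (h : Bas m x f α β) :
    (α, β, x.1) ∈ ZSet f.2.2 (2 * f.2.1 + 1) f.1 (red 8 α) (red 8 β) := by
  obtain ⟨e1, e2⟩ := h.mob_eq hm hn
  obtain ⟨W1, W2, a1, -, -, -, h⟩ := h
  refine ⟨h.da, h.db, ?_, rfl, rfl, e1.trans e2.symm⟩
  rw [h.l, Matrix.trace_fin_two]
  simp [-zsmul_eq_mul, -zsmul_one]
  linear_combination a1.tr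

lemma Bas.det_pos (h : Bas m x f α β) : 0 < α.det := by
  obtain ⟨W1, W2, -, -, -, -, h⟩ := h
  exact h.da ▸ h.pos

variable {V : Type} [AddCommGroup V] {s : ℍ → ℍ → V}

lemma conj_smul {g : SL2} (hg : g ∈ Gam 8) (γ : SL2) (τ : ℍ) :
    ∃ g' ∈ Gam 8, γ • g • τ = g' • γ • τ :=
  ⟨γ * g * γ⁻¹, (CongruenceSubgroup.Gamma_normal 8).conj_mem g hg γ, by
    simp only [mul_smul, inv_smul_smul]⟩

lemma van_f (hS : OS) (hF : FS) (hI : Inv8 s) (hZ : ZVan s) (hs : Squarefree n)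
    (hm : 4 * m = n + 1) (hn : 7 ≤ n) (γ1 γ2 : SL2) (f : ℤ × ℤ × ℤ) :
    Van relP {x | ∃ α β, Bas m x f α β} fun x => s (γ1 • x.1) (γ2 • x.2) := by
  have n0 : 0 < n := by omega
  refine (hS.van_transport (r := relZ)
    (S := {z | Bas m (z.2.2, mob z.1 z.2.2) f z.1 z.2.1 ∧ Pos (red 8 z.1)})
    (fun z => (z.2.2, mob z.1 z.2.2)) _ hF.relZ_equiv (relP_equiv hF) ?_ ?_ ?_ ?_).1 ?_
  · exact fun z hz => ⟨_, _, hz.1⟩
  · rintro y ⟨α, β, h⟩
    rcases pos_or (red 8 α) with p | p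
    · have e : (y.1, mob α y.1) = y := Prod.ext rfl (h.mob_eq hm n0).1
      exact ⟨(α, β, y.1), ⟨e.symm ▸ h, p⟩, e.symm ▸ (relP_equiv hF).refl y⟩
    · have e : (y.1, mob (-α) y.1) = y := Prod.ext rfl (h.neg.mob_eq hm n0).1
      exact ⟨(-α, -β, y.1), ⟨e.symm ▸ h.neg, (red_neg α).symm ▸ p⟩, e.symm ▸ (relP_equiv hF).refl y⟩
  · rintro z ⟨h, p⟩ z' ⟨h', p'⟩
    constructor
    · rintro ⟨g1, h1, g2, h2, e1, -, e3⟩
      refine ⟨⟨g1, h1, e3.symm⟩, g2, h2, ?_⟩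
      dsimp only
      rw [e3, ← mob_SL, ← mob_SL, ← mob_mul (det_SL_pos g2) h.det_pos,
        ← mob_mul h'.det_pos (det_SL_pos g1), e1]
    · rintro ⟨⟨g1, h1, e1⟩, g2, h2, e2⟩
      have k := h.conj h1 h2
      rw [e1, e2] at k
      obtain ⟨k1, k2⟩ := k.eq hs hm hn h' ((red_conj h2 h1 _).symm ▸ p) p'
      refine ⟨g1, h1, g2, h2, ?_, ?_, e1.symm⟩
      · rw [k1, Matrix.mul_assoc, coe_inv_mul, Matrix.mul_one]
      · rw [k2, Matrix.mul_assoc, coe_inv_mul, Matrix.mul_one]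
  · rintro x - y - ⟨⟨g1, h1, e1⟩, g2, h2, e2⟩
    obtain ⟨g1', k1, e1'⟩ := conj_smul h1 γ1 x.1
    obtain ⟨g2', k2, e2'⟩ := conj_smul h2 γ2 x.2
    rw [← e1, ← e2, e1', e2', hI _ k1 _ k2]
  · refine hS.van_of_parts _ (fun z => (red 8 z.1, red 8 z.2.1)) ?_ fun i => ?_
    · rintro z - z' - ⟨g1, h1, g2, h2, e1, e2, -⟩
      have k1 := congrArg (red 8) e1
      have k2 := congrArg (red 8) e2
      rw [red_mul, red_mul, red_gam h1, red_gam h2, one_mul, mul_one] at k1 k2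
      rw [k1, k2]
    · by_cases h : ∃ z : M2 × M2 × ℍ, (Bas m (z.2.2, mob z.1 z.2.2) f z.1 z.2.1 ∧
          Pos (red 8 z.1)) ∧ (red 8 z.1, red 8 z.2.1) = i
      · obtain ⟨z0, ⟨h0, p0⟩, rfl⟩ := h
        have k := hZ f.2.2 (2 * f.2.1 + 1) f.1 (red 8 z0.1) (red 8 z0.2.1) γ1 γ2 h0.pos (by
          have h1 := h0.disc hm
          have h2 : (0 : ℤ) < n := by exact_mod_cast n0
          linarith)
        convert k using 1
        ext z
        constructor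
        · rintro ⟨⟨h1, -⟩, e⟩
          obtain ⟨e1, e2⟩ := Prod.mk.inj e
          exact e1 ▸ e2 ▸ h1.toZ hm n0
        · intro hz
          exact ⟨⟨h0.ofZ hm n0 hz, hz.2.2.2.1.symm ▸ p0⟩, Prod.ext hz.2.2.2.1 hz.2.2.2.2.1⟩
      · exact fun R hR => Finset.sum_eq_zero fun z hz => absurd ⟨z, hR.1 z hz⟩ h

lemma same_sign {e a b : ℤ} (h1 : 0 < e * a) (h2 : 0 < e * b) : 0 < a * b := by
  have k := mul_pos h1 h2
  rw [show e * a * (e * b) = e ^ 2 * (a * b) by ring] at k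
  exact lt_of_not_ge fun h => absurd k (mul_nonpos_of_nonneg_of_nonpos (sq_nonneg e) h).not_gt

lemma van_ps (hS : OS) (hF : FS) (hI : Inv8 s) (hZ : ZVan s) (hs : Squarefree n)
    (hm : 4 * m = n + 1) (hn : 7 ≤ n) (γ1 γ2 : SL2) :
    Van relP (PS m) fun x => s (γ1 • x.1) (γ2 • x.2) := by
  refine hS.van_of_parts _ (fun x => {f | ∃ α β, Bas m x f α β}) ?_ fun i => ?_
  · intro x _ y _ hr
    ext f
    exact ⟨fun ⟨_, _, h⟩ => h.rel hr, fun ⟨_, _, h⟩ => h.rel ((relP_equiv hF).symm hr)⟩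
  · by_cases h : ∃ x, x ∈ PS m ∧ {f | ∃ α β, Bas m x f α β} = i
    · obtain ⟨x0, ⟨e, ⟨W1, a1, d1, s1⟩, W2, a2, d2, s2⟩, rfl⟩ := h
      obtain ⟨f, α, β, h⟩ := exists_RB hs hm a1 a2 (same_sign s1 s2)
      have h0 : Bas m x0 f α β := ⟨W1, W2, a1, d1, a2, d2, h⟩
      convert van_f hS hF hI hZ hs hm hn γ1 γ2 f using 1
      ext x
      constructor
      · rintro ⟨-, e⟩
        exact (Set.ext_iff.1 e f).2 ⟨_, _, h0⟩
      · rintro ⟨a, b, k⟩
        refine ⟨k.ps hm (by omega), Set.ext fun f' => ⟨fun ⟨_, _, k'⟩ => k.trans hs hm k' h0,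
          fun ⟨_, _, k'⟩ => h0.trans hs hm k' k⟩⟩
    · exact fun R hR => Finset.sum_eq_zero fun z hz => absurd ⟨z, hR.1 z hz⟩ h

/-- The sign of a form. -/
abbrev ch (p : ℤ × ℍ) : ℤ := ZMod.χ₄ (p.1 : ZMod 4)

lemma sg_of (hm : 4 * m = n + 1) (h8 : n % 8 = 7) {p : ℤ × ℍ} (h : IsHeegner n p.1 p.2) :
    (ch p = 1 ∨ ch p = -1) ∧ Sg m (ch p) p.2 := by
  obtain ⟨B, τ⟩ := p
  obtain ⟨A, C, hA, dA, dC, hd, hτ⟩ := h
  obtain ⟨w, rfl⟩ : ∃ w, B = 1 - 2 * w := by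
    rcases Int.even_or_odd' B with ⟨w, rfl | rfl⟩
    · exfalso
      have : 4 * (w ^ 2 - A * C) = -n := by linear_combination hd
      omega
    · exact ⟨-w, by ring⟩
  have k : XW m !![w, -C; A, 1 - w] τ := by
    refine ⟨by simp, ?_, ?_⟩
    · rw [Matrix.det_fin_two_of]
      linarith
    · simp only [Lin, of_apply, cons_val', cons_val_zero, cons_val_one, cons_val_fin_one]
      push_cast at hτ ⊢
      linear_combination -hτ
  rcases Int.emod_two_eq_zero_or_one w with hw | hw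
  · have e : ch (1 - 2 * w, τ) = 1 := ZMod.χ₄_int_one_mod_four (by omega)
    exact ⟨.inl e, _, k, ⟨by simpa using dC, by simpa using dA, by simp; omega⟩,
      by simpa [e] using hA⟩
  · have e : ch (1 - 2 * w, τ) = -1 := ZMod.χ₄_int_three_mod_four (by omega)
    exact ⟨.inr e, _, k.flip, ⟨by simpa using dC, by simpa using dA, by simp; omega⟩,
      by simpa [e] using hA⟩

lemma Sg.heeg (hm : 4 * m = n + 1) {e : ℤ} {τ : ℍ} (h : Sg m e τ) : ∃ B, IsHeegner n B τ := by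
  obtain ⟨W, a, d, h⟩ := h
  have h1 := a.disc hm
  have h2 := a.lin
  unfold Lin at h2
  rcases lt_or_gt_of_ne (right_ne_zero_of_mul h.ne') with k | k
  · exact ⟨W 0 0 - W 1 1, -W 1 0, W 0 1, neg_pos.2 k, d.2.1.neg_right, d.1,
      by linear_combination h1, by push_cast; linear_combination h2⟩
  · exact ⟨W 1 1 - W 0 0, W 1 0, -W 0 1, k, d.2.1, d.1.neg_right,
      by linear_combination h1, by push_cast; linear_combination -h2⟩

lemma Sg.same (hm : 4 * m = n + 1) (hn : 0 < n) {e e' : ℤ} {τ : ℍ} (h : Sg m e τ)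
    (h' : Sg m e' τ) : 0 < e * e' := by
  obtain ⟨W, a, d, h⟩ := h
  obtain ⟨W', a', d', h'⟩ := h'
  obtain rfl := uniq hm hn a a' d d'
  exact same_sign (mul_comm e _ ▸ h) (mul_comm e' _ ▸ h')

lemma Sg.rel {e : ℤ} {τ σ : ℍ} (h : Sg m e τ) (hr : relG 8 τ σ) : Sg m e σ := by
  obtain ⟨W, a, d, h⟩ := h
  obtain ⟨g, hg, rfl⟩ := hr
  exact ⟨_, a.conj g, d.congr (red_conj hg hg W).symm,
    sign_eq (det_SL_pos g) (conj_hom g W) (lin_SL g τ) a.lin h⟩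

lemma Sg.flip {e : ℤ} {τ : ℍ} (h : Sg m e τ) : Sg m (-1 * e) (ModularGroup.S • τ) := by
  obtain ⟨W, a, d, h⟩ := h
  refine ⟨_, a.flip.conj ModularGroup.S, ?_,
    sign_eq (det_SL_pos _) (conj_hom _ _) (lin_SL _ τ) a.flip.lin (by
      simpa [Matrix.adjugate_fin_two] using h)⟩
  rw [← adj_SL, ModularGroup.coe_S]
  simpa [De, Matrix.adjugate_fin_two] using And.intro d.2.1 (And.intro d.1 d.2.2)

lemma relG_smul (δ : SL2) {τ σ : ℍ} (h : relG 8 τ σ) : relG 8 (δ • τ) (δ • σ) := by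
  obtain ⟨g, hg, rfl⟩ := h
  obtain ⟨g', k, e⟩ := conj_smul hg δ τ
  exact ⟨g', k, e.symm⟩

lemma half (hS : OS) (hF : FS) (hI : Inv8 s) (hZ : ZVan s) (hs : Squarefree n) (h8 : n % 8 = 7)
    {R : Finset (ℤ × ℍ)} (hR : IsHeegnerReps n R) (γ1 γ2 δ : SL2) (e : ℤ) (he : e = 1 ∨ e = -1)
    (h1 : ∀ m c τ, Sg m c τ → Sg m (e * c) (δ • τ)) (h2 : ∀ τ : ℍ, δ • δ • τ = τ) :
    ∑ x ∈ R ×ˢ R with ch x.1 * ch x.2 = e, s (γ1 • x.1.2) (γ2 • x.2.2) = 0 := by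
  obtain ⟨m, hm⟩ : ∃ m : ℤ, 4 * m = n + 1 := ⟨(n + 1) / 4, by omega⟩
  have n0 : 0 < n := by omega
  have E := relP_equiv hF
  have i1 : ∀ p ∈ R, ∀ q ∈ R, relG 8 p.2 q.2 → p = q := fun p hp q hq h =>
    (hR.2 _ _ (hR.1 p hp)).unique ⟨hp, (hF.relG_equiv 8).refl _⟩ ⟨hq, h⟩
  have inj : ∀ x ∈ R ×ˢ R, ∀ y ∈ R ×ˢ R, relP (x.1.2, δ • x.2.2) (y.1.2, δ • y.2.2) → x = y := by
    intro x hx y hy h
    rw [Finset.mem_product] at hx hy
    exact Prod.ext (i1 _ hx.1 _ hy.1 h.1) (i1 _ hx.2 _ hy.2 (by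
      simpa only [h2] using relG_smul δ h.2))
  have k := van_ps hS hF hI hZ hs hm (by omega) γ1 (γ2 * δ⁻¹)
    (((R ×ˢ R).filter fun x => ch x.1 * ch x.2 = e).image fun x => (x.1.2, δ • x.2.2)) ⟨?_, ?_⟩
  · rw [Finset.sum_image fun x hx y hy h => inj x (Finset.mem_filter.1 hx).1 y
      (Finset.mem_filter.1 hy).1 (by rw [h]; exact E.refl _)] at k
    simpa only [mul_smul, inv_smul_smul] using k
  · simp only [Finset.mem_image, Finset.mem_filter, Finset.mem_product]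
    rintro _ ⟨x, ⟨hx, c⟩, rfl⟩
    obtain ⟨c1, s1⟩ := sg_of hm h8 (hR.1 _ hx.1)
    obtain ⟨c2, s2⟩ := sg_of hm h8 (hR.1 _ hx.2)
    refine ⟨_, s1, ?_⟩
    convert h1 _ _ _ s2 using 1
    rw [← c]
    rcases c2 with c2 | c2 <;> simp [c2]
  · rintro y ⟨c, s1, s2⟩
    obtain ⟨B1, b1⟩ := s1.heeg hm
    obtain ⟨B2, b2⟩ := (h1 _ _ _ s2).heeg hm
    obtain ⟨p, hp, r1⟩ := (hR.2 _ _ b1).exists
    obtain ⟨q, hq, r2⟩ := (hR.2 _ _ b2).exists
    obtain ⟨c1, t1⟩ := sg_of hm h8 (hR.1 _ hp)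
    obtain ⟨c2, t2⟩ := sg_of hm h8 (hR.1 _ hq)
    have u1 := t1.same hm n0 (s1.rel r1)
    have u2 := t2.same hm n0 ((h1 _ _ _ s2).rel r2)
    have r : relP y (p.2, δ • q.2) := ⟨r1, by simpa only [h2] using relG_smul δ r2⟩
    refine ⟨(p.2, δ • q.2), ⟨Finset.mem_image.2 ⟨(p, q), Finset.mem_filter.2
      ⟨Finset.mem_product.2 ⟨hp, hq⟩, ?_⟩, rfl⟩, r⟩, ?_⟩
    · dsimp only
      rcases c1 with c1 | c1 <;> rcases c2 with c2 | c2 <;> rcases he with rfl | rfl <;>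
        rw [c1] at u1 ⊢ <;> rw [c2] at u2 ⊢ <;> omega
    · rintro _ ⟨hz, r'⟩
      obtain ⟨x, hx, rfl⟩ := Finset.mem_image.1 hz
      rw [inj x (Finset.mem_filter.1 hx).1 (p, q) (Finset.mem_product.2 ⟨hp, hq⟩)
        (E.trans (E.symm r') r)]

end Heeg

open Heeg in
theorem heeg (hS : OS) (hO : ORB) (hF : FS) : HeegStmt := by
  intro E V _ _ β U _ hU hZ n R hs h8 hR γ1 γ2
  obtain ⟨m, hm⟩ : ∃ m : ℤ, 4 * m = n + 1 := ⟨(n + 1) / 4, by omega⟩
  have hI : Inv8 fun τ σ => β (U τ) (U σ) := fun g1 h1 g2 h2 τ σ => by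
    simp only [hU _ h1, hU _ h2]
  have k1 := half hS hF hI hZ hs h8 hR γ1 γ2 1 1 (.inl rfl) (fun m c τ h => by simpa using h)
    (by simp)
  have k2 := half hS hF hI hZ hs h8 hR γ1 γ2 ModularGroup.S (-1) (.inr rfl) (fun m c τ h => h.flip)
    fun τ => by
      rw [← ModularGroup.SL_neg_smul, ← ModularGroup.S_inv, inv_smul_smul]
  have k := sub_eq_zero.2 (k1.trans k2.symm)
  rw [Finset.sum_filter, Finset.sum_filter, ← Finset.sum_sub_distrib, Finset.sum_product] at k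
  rw [map_sum β, AddMonoidHom.finsetSum_apply, ← k]
  simp only [map_sum, map_zsmul, AddMonoidHom.zsmul_apply]
  refine Finset.sum_congr rfl fun p hp => Finset.sum_congr rfl fun q hq => ?_
  rcases (sg_of hm h8 (hR.1 _ hp)).1 with c1 | c1 <;>
    rcases (sg_of hm h8 (hR.1 _ hq)).1 with c2 | c2 <;> simp [c1, c2]

end Pool.Agent.MP_9207e0_ag.hg
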