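import Mathlib
import Pool.Agent.MP_9207e0_ag.hg.Spec

-- ======== part 0: formerly Pool.Agent.MP_9207e0_ag.hg.QA
section MrgPart0

/-! Module QA: the calculus of expansions at the cusp. -/

namespace Pool.Agent.MP_9207e0_ag.hg

open UpperHalfPlane Complex Filter Asymptotics Matrix
open scoped Real MatrixGroups Manifold Classical Kronecker Topology

namespace QAx

variable {h : ℕ} {a b g w : ℍ → ℂ} {c d : LS}

lemma ee_add (x y : ℂ) : ee (x + y) = ee x * ee y := by rw [ee, mul_add, exp_add]; rfl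

lemma ee_zero : ee 0 = 1 := by simp [ee]

lemma ee_ne (x : ℂ) : ee x ≠ 0 := exp_ne_zero _

lemma ee_int (n : ℤ) : ee n = 1 := by
  rw [ee, mul_comm]; exact exp_int_mul_two_pi_mul_I n

lemma ee_zpow (x : ℂ) (n : ℤ) : ee x ^ n = ee (n * x) := by
  rw [ee, ee, ← exp_int_mul]; ring_nf

lemma norm_ee (h : ℕ) (n : ℤ) (z : ℂ) :
    ‖ee (n * z / h)‖ = Real.exp (2 * π * (-n / h) * z.im) := by
  rw [ee, norm_exp]
  congr 1
  rw [show (2 * π * Complex.I * (n * z / h) : ℂ) = ((2 * π * n / h : ℝ) : ℂ) * (Complex.I * z) by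
    push_cast; ring, re_ofReal_mul]
  simp only [mul_re, Complex.I_re, Complex.I_im]
  ring

lemma hasDerivAt_ee (h : ℕ) (n : ℤ) (z : ℂ) : HasDerivAt (fun z : ℂ => ee (n * z / h))
    (ee (n * z / h) * (2 * π * Complex.I * (n / h))) z := by
  simpa only [ee, mul_one, id] using
    ((((hasDerivAt_id z).const_mul (n : ℂ)).div_const (h : ℂ)).const_mul
      (2 * π * Complex.I : ℂ)).cexp

lemma exists_ls (f : ℤ → ℂ) (N : ℤ) (hf : ∀ m < N, f m = 0) : ∃ c : LS, ∀ n, c.coeff n = f n :=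
  ⟨HahnSeries.ofSuppBddBelow f ⟨N, fun m hm => not_lt.1 fun e => hm (hf m e)⟩, fun _ => rfl⟩

lemma hs_congr {ι : Type} {f g : ι → ℂ} {s : ℂ} (H : HasSum f s) (e : ∀ n, g n = f n) :
    HasSum g s := funext e ▸ H

lemma add (ha : IsQ h a c) (hb : IsQ h b d) : IsQ h (a + b) (c + d) := fun τ => by
  simpa only [HahnSeries.coeff_add, add_mul, Pi.add_apply] using (ha τ).add (hb τ)

lemma neg (ha : IsQ h a c) : IsQ h (-a) (-c) := fun τ => by
  simpa only [HahnSeries.coeff_neg, neg_mul, Pi.neg_apply] using (ha τ).neg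

lemma smul (z : ℂ) (ha : IsQ h a c) : IsQ h (z • a) (z • c) := fun τ => by
  simpa only [HahnSeries.coeff_smul, smul_eq_mul, mul_assoc, Pi.smul_apply] using
    (ha τ).mul_left z

lemma sgl (h : ℕ) (k : ℤ) (z : ℂ) :
    IsQ h (fun τ => z * ee (k * τ / h)) (HahnSeries.single k z) := fun τ => by
  have := hasSum_single (f := fun n : ℤ => (HahnSeries.single k z : LS).coeff n * ee (n * τ / h)) k
    fun n hn => by rw [HahnSeries.coeff_single_of_ne hn, zero_mul]
  rwa [HahnSeries.coeff_single_same] at this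

lemma const (h : ℕ) (z : ℂ) : IsQ h (fun _ => z) (HahnSeries.C z) := by
  simpa [ee_zero, HahnSeries.C_apply] using sgl h 0 z

lemma one (h : ℕ) : IsQ h 1 1 := by
  have := const h 1
  rwa [map_one] at this

lemma mul (ha : IsQ h a c) (hb : IsQ h b d) : IsQ h (a * b) (c * d) := fun τ => by
  have h0 := summable_mul_of_summable_norm (f := fun n : ℤ => c.coeff n * ee (n * τ / h))
    (g := fun n : ℤ => d.coeff n * ee (n * τ / h)) (ha τ).summable.norm (hb τ).summable.norm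
  have h1 := HasSum.mul (f := fun n : ℤ => c.coeff n * ee (n * τ / h))
    (g := fun n : ℤ => d.coeff n * ee (n * τ / h)) (ha τ) (hb τ) h0
  refine hs_congr (h1.tsum_fiberwise fun p : ℤ × ℤ => p.1 + p.2) fun n => ?_
  rw [tsum_subtype (_ ⁻¹' {n}) fun p : ℤ × ℤ =>
    c.coeff p.1 * ee (p.1 * τ / h) * (d.coeff p.2 * ee (p.2 * τ / h)), HahnSeries.coeff_mul,
    Finset.sum_mul, tsum_eq_sum (s := Finset.antidiagonal c.isPWO_support d.isPWO_support n)]
  · refine Finset.sum_congr rfl fun p hp => ?_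
    have e := (Finset.mem_antidiagonal.1 hp).2.2
    rw [Set.indicator_of_mem (show p ∈ (fun p : ℤ × ℤ => p.1 + p.2) ⁻¹' {n} from e), ← e,
      Int.cast_add, add_mul, add_div, ee_add]
    ring
  · intro p hp
    rw [Set.indicator_apply_eq_zero]
    intro e
    by_contra h0
    exact hp (Finset.mem_antidiagonal.2 ⟨fun e' => h0 (by simp [e']), fun e' => h0 (by simp [e']),
      e⟩)

lemma tendsto_im : Tendsto (fun τ : ℍ => τ.im) atImInfty atTop := tendsto_comap

lemma tendsto_exp {κ : ℝ} (hκ : κ < 0) :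
    Tendsto (fun τ : ℍ => Real.exp (2 * π * κ * τ.im)) atImInfty (𝓝 0) :=
  Real.tendsto_exp_atBot.comp (tendsto_im.const_mul_atTop_of_neg
    (mul_neg_of_pos_of_neg Real.two_pi_pos hκ))

/-- The leading term. -/
lemma ldt (hh : 0 < h) (ha : IsQ h a c) {m : ℤ} (hm : ∀ n < m, c.coeff n = 0) :
    Tendsto (fun τ => a τ * ee ((-m : ℤ) * τ / h)) atImInfty (𝓝 (c.coeff m)) := by
  have hR : (0 : ℝ) < h := by exact_mod_cast hh
  have e : ∀ (τ : ℍ) (n : ℤ), c.coeff n * ee (n * τ / h) * ee ((-m : ℤ) * τ / h) =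
      c.coeff n * ee ((n - m : ℤ) * τ / h) := fun τ n => by
    rw [mul_assoc, ← ee_add]; push_cast; ring_nf
  have h1 : ∀ τ : ℍ, HasSum (fun n : ℤ => c.coeff n * ee ((n - m : ℤ) * τ / h))
      (a τ * ee ((-m : ℤ) * τ / h)) := fun τ => by
    simpa only [e] using (ha τ).mul_right (ee ((-m : ℤ) * τ / h))
  have h2 := tendsto_tsum_of_dominated_convergence (𝓕 := atImInfty)
    (f := fun (τ : ℍ) (n : ℤ) => c.coeff n * ee ((n - m : ℤ) * τ / h))
    (g := fun n => if n = m then c.coeff m else 0) (h1 UpperHalfPlane.I).summable.norm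
    (fun n => ?_) ?_
  · simpa only [(h1 _).tsum_eq, tsum_ite_eq] using h2
  · rcases lt_trichotomy n m with e' | rfl | e'
    · simp [hm n e', e'.ne]
    · simp [ee_zero]
    · rw [if_neg e'.ne', ← mul_zero (c.coeff n)]
      refine Tendsto.const_mul _ (tendsto_zero_iff_norm_tendsto_zero.2 ?_)
      simp only [norm_ee]
      refine tendsto_exp (div_neg_of_neg_of_pos (neg_neg_of_pos ?_) hR)
      exact_mod_cast sub_pos.2 e'
  · filter_upwards [tendsto_im.eventually_ge_atTop 1] with τ hτ n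
    rcases lt_or_ge n m with e' | e'
    · simp [hm n e']
    rw [norm_mul, norm_mul, norm_ee, norm_ee]
    refine mul_le_mul_of_nonneg_left (Real.exp_le_exp.2 (mul_le_mul_of_nonpos_left hτ ?_))
      (norm_nonneg _)
    refine mul_nonpos_of_nonneg_of_nonpos Real.two_pi_pos.le
      (div_nonpos_of_nonpos_of_nonneg (neg_nonpos.2 ?_) hR.le)
    exact_mod_cast sub_nonneg.2 e'

lemma lead_order (hh : 0 < h) (ha : IsQ h a c) :
    Tendsto (fun τ => a τ * ee ((-c.order : ℤ) * τ / h)) atImInfty (𝓝 (c.coeff c.order)) :=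
  ldt hh ha fun _ => HahnSeries.coeff_eq_zero_of_lt_order

lemma unique (hh : 0 < h) (ha : IsQ h a c) (hb : IsQ h a d) : c = d := by
  have h1 := lead_order hh (add ha (neg hb))
  simp only [add_neg_cancel, Pi.zero_apply, zero_mul] at h1
  exact add_neg_eq_zero.1
    (HahnSeries.coeff_order_eq_zero.1 (tendsto_nhds_unique h1 tendsto_const_nhds))

lemma gr_ee (h : ℕ) (n : ℤ) : Gr (-n / h) fun τ => ee (n * τ / h) :=
  IsBigO.of_bound 1 (Eventually.of_forall fun τ => by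
    rw [norm_ee, one_mul, Real.norm_of_nonneg (Real.exp_pos _).le]; rfl)

lemma gr_zero {z : ℂ} (ha : Tendsto a atImInfty (𝓝 z)) : Gr 0 a := by
  simpa [Gr] using ha.isBigO_one ℝ

lemma ee_cancel (h : ℕ) (m : ℤ) (z : ℂ) : ee ((-m : ℤ) * z / h) * ee (m * z / h) = 1 := by
  rw [← ee_add, ← ee_zero]; push_cast; ring_nf

lemma gr_of_coeff (κ : ℝ) (hh : 0 < h) (ha : IsQ h a c)
    (hc : ∀ n : ℤ, (n : ℝ) < -κ * h → c.coeff n = 0) : Gr κ a := by
  have hR : (0 : ℝ) < h := by exact_mod_cast hh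
  have h1 := (gr_zero (ldt hh ha fun n hn => hc n (Int.lt_ceil.1 hn))).mul (gr_ee h ⌈-κ * h⌉)
  have h2 : Gr (0 + -(⌈-κ * h⌉ : ℤ) / h) a := by
    convert h1 using 1
    funext τ
    rw [Pi.mul_apply, mul_assoc, ee_cancel, mul_one]
  refine h2.mono ?_
  rw [zero_add, div_le_iff₀ hR]
  linarith [Int.le_ceil (-κ * h)]

lemma coeff_of_gr (κ : ℝ) (hh : 0 < h) (ha : IsQ h a c) (hg : Gr κ a) (n : ℤ)
    (hn : (n : ℝ) < -κ * h) : c.coeff n = 0 := by
  have hR : (0 : ℝ) < h := by exact_mod_cast hh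
  by_contra h0
  have h1 : (c.order : ℝ) ≤ n := by exact_mod_cast HahnSeries.order_le_of_coeff_ne_zero h0
  have h2 := (hg.mul (gr_ee h (-c.order))).trans_tendsto (tendsto_exp (by
    push_cast
    rw [neg_neg, add_comm, ← lt_neg_iff_add_neg, div_lt_iff₀ hR]
    linarith))
  exact HahnSeries.ne_zero_of_coeff_ne_zero h0
    (HahnSeries.coeff_order_eq_zero.1 (tendsto_nhds_unique (lead_order hh ha) h2))

lemma expG (hh : 0 < h) (ha : IsQ h a c) : ExpG a :=
  ⟨-c.order / h, gr_of_coeff _ hh ha fun n hn => HahnSeries.coeff_eq_zero_of_lt_order (by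
    have hR : (h : ℝ) ≠ 0 := by exact_mod_cast hh.ne'
    rw [neg_div, neg_neg, div_mul_cancel₀ _ hR] at hn
    exact_mod_cast hn)⟩

/-- Termwise differentiation. -/
lemma diff (ha : IsQ h a c) (τ : ℍ) : DifferentiableAt ℂ (a ∘ ofComplex) τ ∧
    HasSum (fun n : ℤ => c.coeff n * (ee (n * τ / h) * (2 * π * Complex.I * (n / h))))
      (deriv (a ∘ ofComplex) τ) := by
  have h0 := τ.im_pos
  let U : Set ℂ := Complex.im ⁻¹' Set.Ioo (τ.im / 2) (2 * τ.im)
  have hU : IsOpen U := isOpen_Ioo.preimage Complex.continuous_im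
  have hτ : (τ : ℂ) ∈ U := ⟨half_lt_self h0, by change τ.im < _; linarith⟩
  let σ₁ : ℍ := ⟨⟨0, τ.im / 2⟩, half_pos h0⟩
  let σ₂ : ℍ := ⟨⟨0, 2 * τ.im⟩, by change 0 < 2 * τ.im; linarith⟩
  have hu := (ha σ₁).summable.norm.add (ha σ₂).summable.norm
  have hf : ∀ n : ℤ, DifferentiableOn ℂ (fun z : ℂ => c.coeff n * ee (n * z / h)) U :=
    fun n z _ => ((hasDerivAt_ee h n z).const_mul _).differentiableAt.differentiableWithinAt
  have hb : ∀ (n : ℤ) (z : ℂ), z ∈ U → ‖c.coeff n * ee (n * z / h)‖ ≤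
      ‖c.coeff n * ee (n * σ₁ / h)‖ + ‖c.coeff n * ee (n * σ₂ / h)‖ := fun n z hz => by
    rw [norm_mul, norm_mul, norm_mul, ← mul_add, norm_ee, norm_ee, norm_ee]
    refine mul_le_mul_of_nonneg_left ?_ (norm_nonneg _)
    rcases le_total (2 * π * (-n / h) : ℝ) 0 with e | e
    · exact le_add_of_le_of_nonneg (Real.exp_le_exp.2 (mul_le_mul_of_nonpos_left hz.1.le e))
        (Real.exp_pos _).le
    · exact le_add_of_nonneg_of_le (Real.exp_pos _).le
        (Real.exp_le_exp.2 (mul_le_mul_of_nonneg_left hz.2.le e))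
  have he : a ∘ ofComplex =ᶠ[𝓝 (τ : ℂ)] fun z => ∑' n : ℤ, c.coeff n * ee (n * z / h) := by
    filter_upwards [isOpen_upperHalfPlaneSet.mem_nhds τ.im_pos] with z hz
    rw [Function.comp_apply, ofComplex_apply_of_im_pos hz]
    exact (ha ⟨z, hz⟩).tsum_eq.symm
  refine ⟨((differentiableOn_tsum_of_summable_norm hu hf hU hb).differentiableAt
    (hU.mem_nhds hτ)).congr_of_eventuallyEq he, ?_⟩
  rw [he.deriv_eq]
  simpa only [((hasDerivAt_ee h _ _).const_mul _).deriv] using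
    hasSum_deriv_of_summable_norm hu hf hU hb hτ

lemma hol (ha : IsQ h a c) : Hol a :=
  UpperHalfPlane.mdifferentiable_iff.2 fun z hz => (diff ha ⟨z, hz⟩).1.differentiableWithinAt

lemma der (ha : IsQ h a c) : ∃ c', IsQ h (dd a) c' ∧ ∀ n : ℤ, c'.coeff n = n / h * c.coeff n := by
  obtain ⟨c', hc⟩ := exists_ls (fun n => n / h * c.coeff n) c.order fun m hm => by
    rw [HahnSeries.coeff_eq_zero_of_lt_order hm, mul_zero]
  refine ⟨c', fun τ => ?_, hc⟩
  refine hs_congr ((diff ha τ).2.mul_left (2 * π * Complex.I)⁻¹) fun n => ?_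
  have := two_pi_I_ne_zero
  rw [hc]
  field_simp

lemma ee_T (hh : 0 < h) (n : ℤ) (τ : ℍ) :
    ee (n * (ModularGroup.T ^ (h : ℤ) • τ : ℍ) / h) = ee (n * τ / h) := by
  have : (h : ℂ) ≠ 0 := by exact_mod_cast hh.ne'
  rw [ModularGroup.coe_T_zpow_smul_eq, mul_add, add_div, ee_add, Int.cast_natCast,
    mul_div_cancel_right₀ _ this, ee_int, mul_one]

lemma per (hh : 0 < h) (ha : IsQ h a c) (τ : ℍ) : a (ModularGroup.T ^ (h : ℤ) • τ) = a τ :=
  (ha _).unique (by simpa only [ee_T hh] using ha τ)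

lemma exists_q (hh : 0 < h) (h1 : Hol a) (h2 : ∀ τ, a (ModularGroup.T ^ (h : ℤ) • τ) = a τ)
    (h3 : ExpG a) : HasQ h a := by
  have hR : (0 : ℝ) < h := by exact_mod_cast hh
  obtain ⟨κ, hκ⟩ := h3
  obtain ⟨k, hk⟩ : ∃ k : ℤ, κ * h ≤ k := ⟨_, Int.le_ceil _⟩
  let g : ℍ → ℂ := a * fun τ : ℍ => ee (k * τ / h)
  have g1 : Hol g := h1.mul (by simpa only [one_mul] using hol (sgl h k 1))
  have g2 : Function.Periodic (g ∘ ofComplex) (h : ℝ) := fun z => by
    by_cases hz : 0 < z.im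
    · have hz' : 0 < (z + (h : ℝ)).im := by simpa using hz
      have e : (⟨_, hz'⟩ : ℍ) = ModularGroup.T ^ (h : ℤ) • (⟨z, hz⟩ : ℍ) :=
        UpperHalfPlane.ext (by rw [ModularGroup.coe_T_zpow_smul_eq]; simp)
      simp only [Function.comp_apply, ofComplex_apply_of_im_pos hz, ofComplex_apply_of_im_pos hz',
        e, g, Pi.mul_apply, h2, ee_T hh]
    · exact congrArg g (ofComplex_apply_eq_of_im_nonpos (by simpa using hz) (not_lt.1 hz))
  have g3 : IsBoundedAtImInfty g := by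
    have := (hκ.mul (gr_ee h k)).mono (κ' := 0) (by
      rw [neg_div, add_neg_le_iff_le_add, zero_add, le_div_iff₀ hR]; exact hk)
    simp only [Gr, mul_zero, zero_mul, Real.exp_zero] at this
    exact this
  obtain ⟨e, he⟩ := exists_ls (fun n => if n < 0 then 0 else (qExpansion h g).coeff n.toNat) 0
    fun m hm => if_pos hm
  have g4 : IsQ h g e := fun τ => by
    rw [← Nat.cast_injective.hasSum_iff (g := (Nat.cast : ℕ → ℤ)) fun n hn => ?_]
    · refine hs_congr (hasSum_qExpansion hR g2 g1 g3 τ) fun m => ?_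
      rw [Function.comp_apply, he, if_neg (Int.natCast_nonneg m).not_gt, Int.toNat_natCast,
        smul_eq_mul, Function.Periodic.qParam, ← exp_nat_mul, ee]
      push_cast
      ring_nf
    · rw [he, if_pos, zero_mul]
      by_contra h0
      exact hn ⟨n.toNat, Int.toNat_of_nonneg (not_lt.1 h0)⟩
  refine ⟨e * HahnSeries.single (-k) 1, ?_⟩
  convert mul g4 (sgl h (-k) 1) using 1
  funext τ
  simp only [g, Pi.mul_apply]
  rw [one_mul, mul_assoc, mul_comm (ee _), ee_cancel, mul_one]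

lemma exists_sub (k : ℕ) (ω : ℂ) (c : LS) (hk : 0 < k) : ∃ c', IsSub k ω c c' := by
  have hk' : (0 : ℤ) < k := by exact_mod_cast hk
  obtain ⟨c', hc⟩ := exists_ls
    (fun m => if (k : ℤ) ∣ m then ω ^ (m / k) * c.coeff (m / k) else 0) (k * c.order)
    fun m hm => by
      split_ifs
      · rw [HahnSeries.coeff_eq_zero_of_lt_order
          (Int.ediv_lt_of_lt_mul hk' (mul_comm (k : ℤ) _ ▸ hm)), mul_zero]
      · rfl
  exact ⟨c', fun n => by rw [hc, if_pos (dvd_mul_right _ _), Int.mul_ediv_cancel_left _ hk'.ne'],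
    fun m hm => by rw [hc, if_neg hm]⟩

lemma sub_iff {k : ℕ} {ω : ℂ} {c' : LS} (hk : 0 < k) (hs : IsSub k ω c c') (f : ℤ → ℂ) (s : ℂ) :
    HasSum (fun m => c'.coeff m * f m) s ↔
      HasSum (fun n => c.coeff n * (ω ^ n * f (k * n))) s := by
  have hk' : (k : ℤ) ≠ 0 := by exact_mod_cast hk.ne'
  rw [← (mul_right_injective₀ hk').hasSum_iff fun m hm => by
    rw [hs.2 m fun ⟨n, e⟩ => hm ⟨n, e.symm⟩, zero_mul]]
  refine iff_of_eq (congrArg (HasSum · s) (funext fun n => ?_))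
  rw [Function.comp_apply, hs.1]
  ring

lemma comp {h' k : ℕ} {c' : LS} {a b d : ℤ} (hh : 0 < h) (hh' : 0 < h') (ha : 0 < a) (hd : 0 < d)
    (e : a * h' = k * (h * d)) (hw : IsQ h w c) (hs : IsSub k (ee (b / (h * d))) c c') :
    IsQ h' (fun τ => w (mob !![a, b; 0, d] τ)) c' := fun τ => by
  have hk : 0 < k := Nat.pos_of_ne_zero fun h0 => by
    rw [h0, Nat.cast_zero, zero_mul] at e
    exact (mul_pos ha (by exact_mod_cast hh')).ne' e
  have h1 : (h : ℂ) ≠ 0 := by exact_mod_cast hh.ne'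
  have h2 : (h' : ℂ) ≠ 0 := by exact_mod_cast hh'.ne'
  have h3 : (d : ℂ) ≠ 0 := by exact_mod_cast hd.ne'
  have h4 : (a : ℂ) * h' = k * (h * d) := by exact_mod_cast e
  rw [sub_iff hk hs]
  refine hs_congr (hw (mob !![a, b; 0, d] τ)) fun n => congrArg _ ?_
  rw [ee_zpow, ← ee_add, coe_mob (by simpa [Matrix.det_fin_two] using mul_pos ha hd)]
  congr 1
  simp only [of_apply, cons_val', cons_val_zero, cons_val_fin_one, cons_val_one, Int.cast_zero,
    zero_mul, zero_add, Int.cast_mul, Int.cast_natCast]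
  field_simp
  linear_combination (-n * τ : ℂ) * h4

lemma level {k : ℕ} {c' : LS} (hk : 0 < k) (hs : IsSub k 1 c c') :
    IsQ (k * h) w c' ↔ IsQ h w c := by
  have h1 : (k : ℂ) ≠ 0 := by exact_mod_cast hk.ne'
  refine forall_congr' fun τ => (sub_iff hk hs _ _).trans
    (iff_of_eq (congrArg (HasSum · _) (funext fun n => ?_)))
  rw [_root_.one_zpow, one_mul, Int.cast_mul, Int.cast_natCast, Nat.cast_mul, mul_assoc,
    mul_div_mul_left _ _ h1]

lemma quot (hh : 0 < h) (ha : IsQ h a c) (hb : IsQ h b d) (h0 : b ≠ 0) (hg : Hol g)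
    (e : g * b = a) : IsQ h g (c / d) := by
  have hd : d ≠ 0 := by
    rintro rfl
    exact h0 (funext fun τ => (hb τ).unique (by simp [hasSum_zero]))
  have h1 : ∀ τ, g (ModularGroup.T ^ (h : ℤ) • τ) = g τ := by
    have : (fun τ => g (ModularGroup.T ^ (h : ℤ) • τ)) - g = 0 := by
      by_contra h2
      refine Hol.mul_ne_zero ((hg.comp_SL _).sub hg) (hol hb) h2 h0 (funext fun τ => ?_)
      have e1 := congrFun e (ModularGroup.T ^ (h : ℤ) • τ)
      rw [Pi.mul_apply, per hh hb, per hh ha, ← e] at e1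
      rw [Pi.mul_apply, Pi.sub_apply, sub_mul, e1, Pi.mul_apply, sub_self, Pi.zero_apply]
    exact fun τ => sub_eq_zero.1 (congrFun this τ)
  have h2 := HahnSeries.coeff_order_eq_zero.not.2 hd
  have h3 := lead_order hh hb
  obtain ⟨κ, hκ⟩ := expG hh ha
  have h4 : Gr _ g := ((hκ.mul (gr_ee h (-d.order))).mul (gr_zero (h3.inv₀ h2))).congr'
    (by
      filter_upwards [h3.eventually_ne h2] with τ hτ
      rw [← e]
      simp only [Pi.mul_apply]
      rw [mul_assoc (g τ), mul_inv_cancel_right₀ hτ]) EventuallyEq.rfl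
  obtain ⟨f, hf⟩ := exists_q hh hg h1 ⟨_, h4⟩
  rwa [unique hh ha (e ▸ mul hf hb), mul_div_cancel_right₀ _ hd]

/-- Series with coefficients in a subfield. -/
lemma exists_field {K : Type} [Field K] (f : K →+* ℂ) :
    ∃ S : Subfield LS, ∀ c, c ∈ S ↔ ∀ n, ∃ q, c.coeff n = f q := by
  let φ : LaurentSeries K →+* LS :=
    { toFun := fun x => x.map f
      map_one' := HahnSeries.map_one f.toMonoidWithZeroHom
      map_mul' := fun _ _ => HahnSeries.map_mul f.toNonUnitalRingHom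
      map_zero' := HahnSeries.map_zero f.toAddMonoidHom.toZeroHom
      map_add' := fun _ _ => HahnSeries.map_add f.toAddMonoidHom }
  refine ⟨φ.fieldRange, fun c => ⟨fun ⟨x, hx⟩ n => ⟨x.coeff n, hx ▸ rfl⟩, fun H => ?_⟩⟩
  choose q hq using H
  refine ⟨⟨q, c.isPWO_support.mono fun n hn e => hn (f.injective ?_)⟩, ?_⟩
  · rw [← hq, e, map_zero]
  · ext n
    exact (hq n).symm

end QAx

open QAx in
theorem qa : QA where
  add := add
  neg := neg
  smul := smul
  const := const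
  single h k := by simpa only [one_mul] using sgl h k 1
  mul _ := mul
  pow k _ ha := by
    induction k with
    | zero => simpa only [pow_zero] using one _
    | succ k ih => simpa only [pow_succ] using mul ih ha
  sum s a c H := by
    induction s using Finset.induction_on with
    | empty => exact fun τ => by simp [hasSum_zero]
    | insert i s hi ih =>
      rw [Finset.sum_insert hi, Finset.sum_insert hi]
      exact add (H i (Finset.mem_insert_self _ _)) (ih fun j hj => H j (Finset.mem_insert_of_mem hj))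
  prod s a c _ H := by
    induction s using Finset.induction_on with
    | empty => exact one _
    | insert i s hi ih =>
      rw [Finset.prod_insert hi, Finset.prod_insert hi]
      exact mul (H i (Finset.mem_insert_self _ _)) (ih fun j hj => H j (Finset.mem_insert_of_mem hj))
  unique := unique
  hol _ := hol
  gr_of_coeff := gr_of_coeff
  coeff_of_gr := coeff_of_gr
  expG := expG
  tendsto hh ha hc := by simpa [ee_zero] using ldt hh ha hc
  exists_q := exists_q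
  deriv _ := der
  exists_sub := exists_sub
  comp := comp
  level _ := level
  quot := quot
  ratL := exists_field (Rat.castHom ℂ)
  algL := (exists_field (algebraMap (algebraicClosure ℚ ℂ) ℂ)).imp fun _ hS c =>
    (hS c).trans (forall_congr' fun n => ⟨fun ⟨q, e⟩ => e ▸ mem_algebraicClosure_iff.1 q.2,
      fun H => ⟨⟨_, mem_algebraicClosure_iff.2 H⟩, rfl⟩⟩)
  proj t c := exists_ls _ c.order fun m hm => by
    simp [HahnSeries.coeff_eq_zero_of_lt_order hm]

end Pool.Agent.MP_9207e0_ag.hg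

end MrgPart0

-- ======== part 1: formerly Pool.Agent.MP_9207e0_ag.hg.ThA
section MrgPart1

/-! Theta constants: transformation laws, the Jacobi identity and the Eisenstein series. -/

set_option linter.unusedSectionVars false
set_option linter.unusedVariables false

namespace Pool.Agent.MP_9207e0_ag.hg

open UpperHalfPlane Complex Filter Asymptotics Matrix
open scoped Real MatrixGroups Manifold Classical Topology

namespace ThA

lemma th00_eq (τ : ℍ) : th00 τ = jacobiTheta₂ 0 τ := jacobiTheta_eq_jacobiTheta₂ τ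

lemma neg_one_zpow_eq (n : ℤ) : (-1 : ℂ) ^ n = cexp (π * Complex.I * n) := by
  rw [mul_comm, Complex.exp_int_mul, Complex.exp_pi_mul_I]

lemma th01_eq (τ : ℍ) : th01 τ = jacobiTheta₂ (1 / 2) τ := by
  refine tsum_congr fun n => ?_
  rw [jacobiTheta₂_term, neg_one_zpow_eq, ← Complex.exp_add]
  congr 1
  ring

lemma term10 (n : ℤ) (τ : ℂ) : cexp (π * Complex.I * (n + 1 / 2) ^ 2 * τ) =
    cexp (π * Complex.I * τ / 4) * jacobiTheta₂_term n (τ / 2) τ := by
  rw [jacobiTheta₂_term, ← Complex.exp_add]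
  congr 1
  ring

lemma th10_eq (τ : ℍ) : th10 τ = cexp (π * Complex.I * τ / 4) * jacobiTheta₂ (τ / 2) τ := by
  rw [jacobiTheta₂, ← tsum_mul_left]
  exact tsum_congr fun n => term10 n τ

lemma hol_of {F : ℂ → ℂ} {w : ℍ → ℂ} (hF : ∀ z : ℂ, 0 < z.im → DifferentiableAt ℂ F z)
    (h : ∀ τ : ℍ, w τ = F τ) : Hol w := by
  have e : w = F ∘ (↑) := funext h
  rw [e]
  exact fun τ => (hF τ τ.2).mdifferentiableAt.comp τ τ.mdifferentiable_coe

lemma hol00 : Hol th00 := hol_of (fun z hz => differentiableAt_jacobiTheta₂_snd 0 hz) th00_eq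

lemma hol01 : Hol th01 :=
  hol_of (fun z hz => differentiableAt_jacobiTheta₂_snd (1 / 2) hz) th01_eq

lemma hol10 : Hol th10 := by
  refine hol_of (F := fun z => cexp (π * Complex.I * z / 4) * jacobiTheta₂ (z / 2) z)
    (fun z hz => ?_) th10_eq
  refine DifferentiableAt.mul (by fun_prop) ?_
  have h1 := (hasFDerivAt_jacobiTheta₂ (z / 2) hz).differentiableAt
  have h2 : DifferentiableAt ℂ (fun z : ℂ => (z / 2, z)) z := by fun_prop
  exact DifferentiableAt.comp (f := fun z : ℂ => (z / 2, z)) z h1 h2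

lemma coe_T (τ : ℍ) : ((ModularGroup.T • τ : ℍ) : ℂ) = τ + 1 := by
  rw [UpperHalfPlane.modular_T_smul, UpperHalfPlane.coe_vadd]
  push_cast
  ring

lemma coe_S (τ : ℍ) : ((ModularGroup.S • τ : ℍ) : ℂ) = -1 / τ := by
  rw [UpperHalfPlane.modular_S_smul]
  simp [neg_div, inv_neg]

lemma exp_sq (n : ℤ) : cexp (π * Complex.I * n ^ 2) = (-1 : ℂ) ^ n := by
  obtain ⟨m, hm⟩ : Even (n ^ 2 - n) := by
    have := Int.even_mul_pred_self n
    convert this using 1
    ring
  have h1 : (n : ℂ) ^ 2 = n + 2 * m := by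
    have : n ^ 2 = n + 2 * m := by omega
    exact_mod_cast this
  rw [h1, neg_one_zpow_eq, show π * Complex.I * (n + 2 * m) =
    π * Complex.I * n + m * (2 * π * Complex.I) by ring, Complex.exp_add,
    Complex.exp_int_mul_two_pi_mul_I, mul_one]

lemma T00 (τ : ℍ) : th00 (ModularGroup.T • τ) = th01 τ := by
  refine tsum_congr fun n => ?_
  rw [coe_T, ← exp_sq, ← Complex.exp_add]
  congr 1
  ring

lemma T01 (τ : ℍ) : th01 (ModularGroup.T • τ) = th00 τ := by
  refine tsum_congr fun n => ?_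
  rw [coe_T, mul_add, Complex.exp_add, mul_one, exp_sq, mul_comm (cexp _), ← mul_assoc,
    ← mul_zpow]
  simp

lemma T10 (τ : ℍ) : th10 (ModularGroup.T • τ) = ee (1 / 8) * th10 τ := by
  rw [th10, th10, ← tsum_mul_left]
  refine tsum_congr fun n => ?_
  obtain ⟨m, hm⟩ : Even (n * (n + 1)) := Int.even_mul_succ_self n
  have h1 : (n : ℂ) * (n + 1) = 2 * m := by
    have : n * (n + 1) = 2 * m := by omega
    exact_mod_cast this
  rw [coe_T, ee, ← Complex.exp_add, show π * Complex.I * (n + 1 / 2) ^ 2 * (τ + 1) =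
    (2 * π * Complex.I * (1 / 8) + π * Complex.I * (n + 1 / 2) ^ 2 * τ) +
      m * (2 * π * Complex.I) by linear_combination (π * Complex.I) * h1, Complex.exp_add,
    Complex.exp_int_mul_two_pi_mul_I, mul_one]

lemma sqr_ne (τ : ℍ) : sqr τ ≠ 0 := by
  rw [sqr, Ne, cpow_eq_zero_iff, not_and_or]
  exact Or.inl <| mul_ne_zero (neg_ne_zero.mpr I_ne_zero) τ.ne_zero

lemma S00 (τ : ℍ) : th00 (ModularGroup.S • τ) = sqr τ * th00 τ := jacobiTheta_S_smul τ

lemma S01 (τ : ℍ) : th01 (ModularGroup.S • τ) = sqr τ * th10 τ := by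
  have h0 := τ.ne_zero
  have h1 := sqr_ne τ
  have h := jacobiTheta₂_functional_equation (τ / 2) τ
  rw [show (τ : ℂ) / 2 / τ = 1 / 2 by field_simp] at h
  rw [th01_eq, th10_eq, coe_S, h]
  have e : cexp (π * Complex.I * τ / 4) * cexp (-π * Complex.I * (τ / 2) ^ 2 / τ) = 1 := by
    rw [← Complex.exp_add, ← Complex.exp_zero]
    congr 1
    field_simp
    ring
  have e' : sqr τ * (1 / sqr τ) = 1 := by field_simp
  change _ = sqr τ * (_ * (1 / sqr τ * _ * _))
  generalize jacobiTheta₂ (1 / 2) (-1 / τ) = J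
  generalize cexp (π * Complex.I * τ / 4) = u at e ⊢
  generalize cexp (-π * Complex.I * (τ / 2) ^ 2 / τ) = v at e ⊢
  linear_combination (-J) * e - J * u * v * e'

lemma S10 (τ : ℍ) : th10 (ModularGroup.S • τ) = sqr τ * th01 τ := by
  have h0 := τ.ne_zero
  have h1 := sqr_ne τ
  have h := jacobiTheta₂_functional_equation (1 / 2) τ
  rw [show (1 : ℂ) / 2 / τ = -(-1 / τ / 2) by field_simp, jacobiTheta₂_neg_left] at h
  rw [th01_eq, th10_eq, coe_S, h]
  have e : cexp (π * Complex.I * (-1 / τ) / 4) = cexp (-π * Complex.I * (1 / 2) ^ 2 / τ) := by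
    congr 1
    field_simp
    ring
  change _ = sqr τ * (1 / sqr τ * _ * _)
  rw [e]
  field_simp

lemma lim_theta {f : ℍ → ℂ} (hf : ∀ τ : ℍ, (f τ).im = τ.im) :
    Tendsto (fun τ => jacobiTheta (f τ)) atImInfty (𝓝 1) := by
  have h1 : Tendsto f atImInfty (comap Complex.im atTop) := by
    rw [tendsto_comap_iff]
    have : Complex.im ∘ f = UpperHalfPlane.im := funext hf
    rw [this]
    exact tendsto_comap
  have h2 : Tendsto (fun τ : ℂ => Real.exp (-π * τ.im)) (comap Complex.im atTop) (𝓝 0) :=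
    Real.tendsto_exp_atBot.comp
      (Tendsto.const_mul_atTop_of_neg (neg_lt_zero.mpr Real.pi_pos) tendsto_comap)
  have h3 := (isBigO_at_im_infty_jacobiTheta_sub_one.trans_tendsto h2).comp h1
  simpa using h3.add_const 1

lemma lim00 : Tendsto th00 atImInfty (𝓝 1) := lim_theta (f := fun τ => τ) fun _ => rfl

lemma lim01 : Tendsto th01 atImInfty (𝓝 1) := by
  have := lim_theta (f := fun τ => ((ModularGroup.T • τ : ℍ) : ℂ)) fun τ => by
    rw [coe_T]; simp
  exact this.congr T00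

lemma norm10 (n : ℤ) (τ : ℂ) : ‖cexp (π * Complex.I * (n + 1 / 2) ^ 2 * τ)‖ =
    Real.exp (-(π * (n + 1 / 2) ^ 2) * τ.im) := by
  rw [Complex.norm_exp, show π * Complex.I * (n + 1 / 2) ^ 2 * τ =
    ((π * (n + 1 / 2) ^ 2 : ℝ) : ℂ) * (τ * Complex.I) by push_cast; ring, re_ofReal_mul, mul_I_re]
  congr 1
  ring

lemma lim10 : Tendsto th10 atImInfty (𝓝 0) := by
  have hp : ∀ n : ℤ, 0 < π * ((n : ℝ) + 1 / 2) ^ 2 := fun n => by
    refine mul_pos Real.pi_pos (sq_pos_of_ne_zero fun h => ?_)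
    have h1 : ((2 * n + 1 : ℤ) : ℝ) = 0 := by push_cast; linarith
    have h2 : 2 * n + 1 = 0 := by exact_mod_cast h1
    omega
  have hs : Summable fun n : ℤ => ‖cexp (π * Complex.I * (n + 1 / 2) ^ 2 * Complex.I)‖ := by
    simp_rw [term10]
    exact (((summable_jacobiTheta₂_term_iff (Complex.I / 2) Complex.I).mpr
      (by simp)).mul_left _).norm
  have := tendsto_tsum_of_dominated_convergence (𝓕 := atImInfty) (g := fun _ : ℤ => (0 : ℂ))
    (f := fun (τ : ℍ) (n : ℤ) => cexp (π * Complex.I * (n + 1 / 2) ^ 2 * τ)) hs (fun n => ?_) ?_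
  · rw [tsum_zero] at this
    exact this
  · rw [tendsto_zero_iff_norm_tendsto_zero]
    simp_rw [norm10]
    exact Real.tendsto_exp_atBot.comp
      (Tendsto.const_mul_atTop_of_neg (neg_lt_zero.mpr (hp n)) tendsto_comap)
  · have : ∀ᶠ τ : ℍ in atImInfty, 1 ≤ τ.im := tendsto_comap.eventually (eventually_ge_atTop 1)
    filter_upwards [this] with τ hτ n
    rw [norm10, norm10]
    have := hp n
    apply Real.exp_le_exp.mpr
    rw [Complex.I_im, coe_im]
    nlinarith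

lemma vanish {k : ℕ} (hk : k < 12) {f : ℍ → ℂ} (hf : Hol f)
    (hS : ∀ τ, f (ModularGroup.S • τ) = (τ : ℂ) ^ k * f τ)
    (hT : ∀ τ, f (ModularGroup.T • τ) = f τ) (h0 : Tendsto f atImInfty (𝓝 0)) (τ : ℍ) :
    f τ = 0 := by
  have hS' : SlashAction.map (k : ℤ) ModularGroup.S f = f := by
    ext z
    have := z.ne_zero
    rw [ModularForm.SL_slash_apply, hS, ModularGroup.denom_S, _root_.zpow_neg,
      _root_.zpow_natCast]
    field_simp
  have hT' : SlashAction.map (k : ℤ) ModularGroup.T f = f := by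
    ext z
    rw [ModularForm.SL_slash_apply, hT]
    simp [denom, ModularGroup.T]
  let F : CuspForm 𝒮ℒ (k : ℤ) :=
    { toFun := f
      slash_action_eq' := fun A hA => by
        obtain ⟨A, rfl⟩ := hA
        exact SlashInvariantForm.slash_action_generators_SL2Z hS' hT' A
      holo' := hf
      zero_at_cusps' := fun hc => by
        rw [Subgroup.IsArithmetic.isCusp_iff_isCusp_SL2Z] at hc
        rw [OnePoint.isZeroAt_iff_forall_SL2Z hc]
        intro γ _
        rw [SlashInvariantForm.slash_action_generators_SL2Z hS' hT']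
        exact h0 }
  have hF : F = 0 := rank_zero_iff_forall_zero.mp
    (CuspForm.rank_eq_zero_of_weight_lt_twelve (by exact_mod_cast hk)) F
  exact congrFun (congrArg DFunLike.coe hF) τ

lemma mf_law {k : ℤ} (f : ModularForm 𝒮ℒ k) (g : SL2) (τ : ℍ) :
    f (g • τ) = denom g τ ^ k * f τ :=
  SlashInvariantForm.slash_action_eqn'' (Γ := 𝒮ℒ) f (γ := (g : GL (Fin 2) ℝ)) ⟨g, rfl⟩ τ

lemma mf_S {k : ℕ} (f : ModularForm 𝒮ℒ (k : ℤ)) (τ : ℍ) :
    f (ModularGroup.S • τ) = (τ : ℂ) ^ k * f τ := by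
  rw [mf_law, ModularGroup.denom_S, zpow_natCast]

lemma mf_T {k : ℤ} (f : ModularForm 𝒮ℒ k) (τ : ℍ) : f (ModularGroup.T • τ) = f τ := by
  rw [mf_law]
  simp [denom, ModularGroup.T]

lemma mf_lim {k : ℤ} (f : ModularForm 𝒮ℒ k) :
    Tendsto f atImInfty (𝓝 ((qExpansion 1 f).coeff 0)) := by
  have hanal := ModularFormClass.analyticAt_cuspFunction_zero f one_pos one_mem_strictPeriods_SL
  have hper := SlashInvariantFormClass.periodic_comp_ofComplex f one_mem_strictPeriods_SL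
  rw [qExpansion_coeff_zero one_pos hanal hper, ← cuspFunction_apply_zero one_pos hanal hper]
  exact (hanal.continuousAt.tendsto.comp (qParam_tendsto_atImInfty one_pos)).congr
    (fun τ ↦ SlashInvariantFormClass.eq_cuspFunction f τ one_mem_strictPeriods_SL one_ne_zero)

lemma lim4 : Tendsto ModularForm.E₄ atImInfty (𝓝 1) :=
  EisensteinSeries.E_qExpansion_coeff_zero _ ⟨2, rfl⟩ ▸ mf_lim ModularForm.E₄

lemma lim6 : Tendsto ModularForm.E₆ atImInfty (𝓝 1) :=
  EisensteinSeries.E_qExpansion_coeff_zero _ ⟨3, rfl⟩ ▸ mf_lim ModularForm.E₆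

lemma sqr_four (τ : ℍ) : sqr τ ^ 4 = -(τ : ℂ) ^ 2 := by
  have h : sqr τ ^ 2 = -Complex.I * τ := by
    rw [sqr, ← Complex.cpow_nat_mul]
    norm_num
  rw [show sqr τ ^ 4 = (sqr τ ^ 2) ^ 2 by ring, h]
  linear_combination (τ : ℂ) ^ 2 * Complex.I_sq

lemma ee_four : ee (1 / 8) ^ 4 = -1 := by
  rw [ee, ← Complex.exp_nat_mul, ← Complex.exp_pi_mul_I]
  congr 1
  push_cast
  ring

lemma Sa (τ : ℍ) : th00 (ModularGroup.S • τ) ^ 4 = -(τ : ℂ) ^ 2 * th00 τ ^ 4 := by
  rw [S00, mul_pow, sqr_four]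

lemma Sb (τ : ℍ) : th01 (ModularGroup.S • τ) ^ 4 = -(τ : ℂ) ^ 2 * th10 τ ^ 4 := by
  rw [S01, mul_pow, sqr_four]

lemma Sc (τ : ℍ) : th10 (ModularGroup.S • τ) ^ 4 = -(τ : ℂ) ^ 2 * th01 τ ^ 4 := by
  rw [S10, mul_pow, sqr_four]

lemma Tc (τ : ℍ) : th10 (ModularGroup.T • τ) ^ 4 = -th10 τ ^ 4 := by
  rw [T10, mul_pow, ee_four, neg_one_mul]

lemma jac (τ : ℍ) : th00 τ ^ 4 = th01 τ ^ 4 + th10 τ ^ 4 := by
  have h := vanish (k := 4) (by norm_num)
    (f := fun τ => (th00 τ ^ 4 - th01 τ ^ 4 - th10 τ ^ 4) ^ 2)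
    ((((hol00.pow 4).sub (hol01.pow 4)).sub (hol10.pow 4)).pow 2)
    (fun τ => by rw [Sa, Sb, Sc]; ring) (fun τ => by rw [T00, T01, Tc]; ring)
    (by simpa using (((lim00.pow 4).sub (lim01.pow 4)).sub (lim10.pow 4)).pow 2) τ
  linear_combination pow_eq_zero_iff (two_ne_zero) |>.mp h

lemma e4_eq (τ : ℍ) : 2 * ModularForm.E₄ τ =
    (th00 τ ^ 4) ^ 2 + (th01 τ ^ 4) ^ 2 + (th10 τ ^ 4) ^ 2 := by
  have h := vanish (k := 4) (by norm_num)
    (f := fun τ => 2 * ModularForm.E₄ τ -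
      ((th00 τ ^ 4) ^ 2 + (th01 τ ^ 4) ^ 2 + (th10 τ ^ 4) ^ 2))
    ((mdifferentiable_const.mul ModularForm.E₄.holo').sub
      ((((hol00.pow 4).pow 2).add ((hol01.pow 4).pow 2)).add ((hol10.pow 4).pow 2)))
    (fun τ => by rw [Sa, Sb, Sc, mf_S (k := 4)]; ring)
    (fun τ => by rw [T00, T01, Tc, mf_T]; ring)
    (by
      have := (lim4.const_mul 2).sub
        ((((lim00.pow 4).pow 2).add ((lim01.pow 4).pow 2)).add ((lim10.pow 4).pow 2))
      norm_num at this ⊢
      exact this) τ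
  linear_combination h

lemma e6_eq (τ : ℍ) : 2 * ModularForm.E₆ τ =
    (th00 τ ^ 4 + th10 τ ^ 4) * (th00 τ ^ 4 + th01 τ ^ 4) * (th01 τ ^ 4 - th10 τ ^ 4) := by
  have h := vanish (k := 6) (by norm_num)
    (f := fun τ => 2 * ModularForm.E₆ τ -
      (th00 τ ^ 4 + th10 τ ^ 4) * (th00 τ ^ 4 + th01 τ ^ 4) * (th01 τ ^ 4 - th10 τ ^ 4))
    ((mdifferentiable_const.mul ModularForm.E₆.holo').sub
      ((((hol00.pow 4).add (hol10.pow 4)).mul ((hol00.pow 4).add (hol01.pow 4))).mul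
        ((hol01.pow 4).sub (hol10.pow 4))))
    (fun τ => by rw [Sa, Sb, Sc, mf_S (k := 6)]; ring)
    (fun τ => by rw [T00, T01, Tc, mf_T]; ring)
    (by
      have := (lim6.const_mul 2).sub
        ((((lim00.pow 4).add (lim10.pow 4)).mul ((lim00.pow 4).add (lim01.pow 4))).mul
          ((lim01.pow 4).sub (lim10.pow 4)))
      norm_num at this ⊢
      exact this) τ
  linear_combination h

lemma delta_eq (τ : ℍ) : 256 * ModularForm.discriminant τ =
    (th00 τ ^ 4 * th01 τ ^ 4 * th10 τ ^ 4) ^ 2 := by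
  have h4 : ModularForm.E₄ τ = _ := eq_div_of_mul_eq two_ne_zero ((mul_comm _ _).trans (e4_eq τ))
  have h6 : ModularForm.E₆ τ = _ := eq_div_of_mul_eq two_ne_zero ((mul_comm _ _).trans (e6_eq τ))
  rw [ModularForm.discriminant_eq_E₄_cube_sub_E₆_sq, h4, h6, jac]
  ring

lemma ne (τ : ℍ) : th00 τ ≠ 0 ∧ th01 τ ≠ 0 ∧ th10 τ ≠ 0 := by
  have h := delta_eq τ
  have h0 := ModularForm.discriminant_ne_zero τ
  refine ⟨fun e => h0 ?_, fun e => h0 ?_, fun e => h0 ?_⟩ <;>
  · rw [e] at h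
    linear_combination h / 256

lemma T8 {w : ℍ → ℂ} {c : ℂ} (hc : c ^ 4 = 1)
    (h : ∀ τ, w (ModularGroup.T • ModularGroup.T • τ) = c * w τ) (τ : ℍ) :
    w (ModularGroup.T ^ ((8 : ℕ) : ℤ) • τ) = w τ := by
  rw [_root_.zpow_natCast]
  simp only [pow_succ, pow_zero, one_mul, mul_smul, h]
  linear_combination (w τ) * hc

lemma expG {w : ℍ → ℂ} {c : ℂ} (h : Tendsto w atImInfty (𝓝 c)) : ExpG w := by
  refine ⟨0, ?_⟩
  unfold Gr
  simpa using h.isBigO_one ℝ

lemma uX_sq (τ : ℍ) : uX τ ^ 2 = (th01 τ ^ 4 + th10 τ ^ 4) / th10 τ ^ 4 := by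
  rw [uX, ← jac]
  ring

end ThA

open ThA in
theorem tha (hA : QA) (hB : QB) : THA where
  hol := ⟨hol00, hol01, hol10⟩
  hasQ := by
    refine ⟨hA.exists_q (by norm_num) hol00 (T8 (c := 1) (by simp) fun τ => ?_) (expG lim00),
      hA.exists_q (by norm_num) hol01 (T8 (c := 1) (by simp) fun τ => ?_) (expG lim01),
      hA.exists_q (by norm_num) hol10 (T8 (c := ee (1 / 8) ^ 2) ?_ fun τ => ?_) (expG lim10)⟩
    · rw [T00, T01, one_mul]
    · rw [T01, T00, one_mul]
    · linear_combination (ee (1 / 8) ^ 4 - 1) * ee_four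
    · rw [T10, T10]
      ring
  lawT τ := ⟨T00 τ, T01 τ, T10 τ⟩
  lawS τ := ⟨S00 τ, S01 τ, S10 τ⟩
  jacobi := jac
  ne := ThA.ne
  curve τ := by
    have h := (ThA.ne τ).2.2
    rw [uX, uY]
    field_simp
    linear_combination (-th00 τ ^ 2) * jac τ
  jrel τ := by
    obtain ⟨h0, h1, h2⟩ := ThA.ne τ
    have h4 : ModularForm.E₄ τ = _ :=
      eq_div_of_mul_eq two_ne_zero ((mul_comm _ _).trans (e4_eq τ))
    have hd : ModularForm.discriminant τ = _ :=
      eq_div_of_mul_eq (by norm_num) ((mul_comm _ _).trans (delta_eq τ))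
    have ha : th01 τ ^ 4 + th10 τ ^ 4 ≠ 0 := by rw [← jac]; exact pow_ne_zero _ h0
    have hb := pow_ne_zero 4 h1
    have hc := pow_ne_zero 4 h2
    rw [jf, h4, hd, show uX τ ^ 4 = (uX τ ^ 2) ^ 2 by ring, uX_sq, jac]
    generalize th01 τ ^ 4 = b at ha hb ⊢
    generalize th10 τ ^ 4 = c at ha hc ⊢
    field_simp
    ring
  e4 τ h := by
    have hc := pow_ne_zero 4 (ThA.ne τ).2.2
    have h4 := e4_eq τ
    rw [h, jac] at h4
    rw [show uX τ ^ 4 = (uX τ ^ 2) ^ 2 by ring, uX_sq]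
    generalize th01 τ ^ 4 = b at h4 ⊢
    generalize th10 τ ^ 4 = c at h4 hc ⊢
    field_simp
    linear_combination (-1 / 2 : ℂ) * h4
  e6 τ h := by
    have hc := pow_ne_zero 4 (ThA.ne τ).2.2
    have h6 := e6_eq τ
    rw [h, jac] at h6
    rw [uX_sq]
    generalize th01 τ ^ 4 = b at h6 ⊢
    generalize th10 τ ^ 4 = c at h6 hc ⊢
    field_simp
    linear_combination -h6

end Pool.Agent.MP_9207e0_ag.hg

end MrgPart1

-- ======== part 2: formerly Pool.Agent.MP_9207e0_ag.hg.Hat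
section MrgPart2

/-! Module HAT: the Fourier transform in the second column and the Weil representation on
matrices modulo `N`. -/

set_option linter.unusedSectionVars false
set_option linter.unusedVariables false

namespace Pool.Agent.MP_9207e0_ag.hg

open UpperHalfPlane Complex Filter Asymptotics Matrix
open scoped Real MatrixGroups Manifold Classical

namespace HatM

variable {N : ℕ} [NeZero N]

lemma red_mul (x y : M2) : red N (x * y) = red N x * red N y :=
  Matrix.map_mul (f := Int.castRingHom (ZMod N))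

lemma red_one : red N 1 = 1 := by
  ext i k
  fin_cases i <;> fin_cases k <;> simp [red]

lemma red_neg_one : red N (-1) = -1 := by
  ext i k
  fin_cases i <;> fin_cases k <;> simp [red]

lemma red_SL_mul (g g' : SL2) : red N ((g * g' : SL2) : M2) = red N g * red N g' := by
  rw [← red_mul]; rfl

lemma red_SL_one : red N ((1 : SL2) : M2) = 1 := red_one

lemma red_mul_inv (g : SL2) : red N g * red N ((g⁻¹ : SL2) : M2) = 1 := by
  rw [← red_SL_mul, mul_inv_cancel, red_SL_one]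

lemma red_inv_mul (g : SL2) : red N ((g⁻¹ : SL2) : M2) * red N g = 1 := by
  rw [← red_SL_mul, inv_mul_cancel, red_SL_one]

lemma det_red (g : SL2) : (red N g).det = 1 := by
  have h := RingHom.map_det (Int.castRingHom (ZMod N)) (g : M2)
  rw [det_SL, map_one] at h
  exact h.symm

lemma red_S : red N (ModularGroup.S : SL2) = !![0, -1; 1, 0] := by
  ext i k
  fin_cases i <;> fin_cases k <;> simp [red, ModularGroup.coe_S]

lemma red_T : red N (ModularGroup.T : SL2) = !![1, 1; 0, 1] := by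
  ext i k
  fin_cases i <;> fin_cases k <;> simp [red, ModularGroup.coe_T]

/-- Matrices as quadruples. -/
def quad (N : ℕ) : ZMod N × ZMod N × ZMod N × ZMod N ≃ MN N where
  toFun p := !![p.1, p.2.2.1; p.2.1, p.2.2.2]
  invFun x := (x 0 0, x 1 0, x 0 1, x 1 1)
  left_inv p := by simp
  right_inv x := by
    ext i k
    fin_cases i <;> fin_cases k <;> simp

lemma sum_MN (F : MN N → ℂ) :
    ∑ y, F y = ∑ a : ZMod N, ∑ c : ZMod N, ∑ b : ZMod N, ∑ d : ZMod N, F !![a, b; c, d] := by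
  rw [← (quad N).sum_comp]
  simp only [Fintype.sum_prod_type]
  rfl

lemma orth (u : ZMod N) :
    ∑ b : ZMod N, ZMod.stdAddChar (b * u) = if u = 0 then (N : ℂ) else 0 := by
  rw [AddChar.sum_mulShift u (ZMod.isPrimitive_stdAddChar N), ZMod.card]
  split_ifs <;> simp

lemma orth2 (u v : ZMod N) :
    ∑ b : ZMod N, ∑ d : ZMod N, ZMod.stdAddChar (b * u + d * v) =
      if u = 0 ∧ v = 0 then (N : ℂ) ^ 2 else 0 := by
  simp only [AddChar.map_add_eq_mul]
  rw [← Finset.sum_mul_sum, orth, orth]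
  by_cases hu : u = 0 <;> by_cases hv : v = 0 <;> simp [hu, hv, sq]

lemma hat_T (φ : MN N → ℂ) (W : MN N) :
    hatV (TX N *ᵥ φ) (red N (ModularGroup.T : SL2) * W) = hatV φ W := by
  rw [red_T]
  unfold hatV
  refine Finset.sum_congr rfl fun b _ => Finset.sum_congr rfl fun d _ => ?_
  rw [TX, Matrix.mulVec_diagonal, ← mul_assoc, ← AddChar.map_add_eq_mul]
  simp only [Matrix.mul_apply, Fin.sum_univ_two, Matrix.det_fin_two, Matrix.of_apply,
    Matrix.cons_val', Matrix.cons_val_zero, Matrix.cons_val_one, Matrix.cons_val_fin_one,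
    one_mul, zero_mul, zero_add]
  congr 2
  ring

lemma hat_S (φ : MN N → ℂ) (W : MN N) :
    hatV (SX N *ᵥ φ) (red N (ModularGroup.S : SL2) * W) = hatV φ W := by
  have hN : ((N : ℂ) ^ 2) ≠ 0 := pow_ne_zero 2 (by exact_mod_cast NeZero.ne N)
  have h1 : hatV (SX N *ᵥ φ) (red N (ModularGroup.S : SL2) * W) =
      ∑ y : MN N, (((N : ℂ) ^ 2)⁻¹ * ZMod.stdAddChar (W 0 0 * y 0 1 + W 0 1 * y 1 1) * φ y) *
        ∑ b : ZMod N, ∑ d : ZMod N,
          ZMod.stdAddChar (b * (-W 1 0 - y 1 0) + d * (y 0 0 - W 1 1)) := by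
    rw [red_S]
    unfold hatV
    simp only [Matrix.mulVec, dotProduct, Finset.mul_sum]
    rw [Finset.sum_congr rfl fun b _ => Finset.sum_comm, Finset.sum_comm]
    refine Finset.sum_congr rfl fun y _ => Finset.sum_congr rfl fun b _ =>
      Finset.sum_congr rfl fun d _ => ?_
    have e : ∀ p q r s : ZMod N, p + q = r + s →
        ZMod.stdAddChar p * (((N : ℂ) ^ 2)⁻¹ * ZMod.stdAddChar q * φ y) =
          ((N : ℂ) ^ 2)⁻¹ * ZMod.stdAddChar r * φ y * ZMod.stdAddChar s := by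
      intro p q r s h
      have := congrArg (ZMod.stdAddChar (N := N)) h
      rw [AddChar.map_add_eq_mul, AddChar.map_add_eq_mul] at this
      linear_combination (((N : ℂ) ^ 2)⁻¹ * φ y) * this
    apply e
    simp only [bil, Matrix.mul_apply, Fin.sum_univ_two, Matrix.of_apply,
      Matrix.cons_val', Matrix.cons_val_zero, Matrix.cons_val_one, Matrix.cons_val_fin_one]
    ring
  rw [h1, sum_MN, Finset.sum_eq_single (W 1 1), Finset.sum_eq_single (-W 1 0)]
  · unfold hatV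
    refine Finset.sum_congr rfl fun b _ => Finset.sum_congr rfl fun d _ => ?_
    rw [orth2, if_pos (by simp)]
    simp only [Matrix.of_apply, Matrix.cons_val', Matrix.cons_val_zero, Matrix.cons_val_one,
      Matrix.cons_val_fin_one]
    linear_combination (ZMod.stdAddChar (W 0 0 * b + W 0 1 * d) * φ !![W 1 1, b; -W 1 0, d]) *
      inv_mul_cancel₀ hN
  · intro c _ hc
    refine Finset.sum_eq_zero fun b _ => Finset.sum_eq_zero fun d _ => ?_
    rw [orth2, if_neg, mul_zero]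
    rintro ⟨h, -⟩
    apply hc
    simp only [Matrix.of_apply, Matrix.cons_val', Matrix.cons_val_zero, Matrix.cons_val_one,
      Matrix.cons_val_fin_one] at h
    linear_combination -h
  · simp
  · intro a _ ha
    refine Finset.sum_eq_zero fun c _ => Finset.sum_eq_zero fun b _ =>
      Finset.sum_eq_zero fun d _ => ?_
    rw [orth2, if_neg, mul_zero]
    rintro ⟨-, h⟩
    apply ha
    simp only [Matrix.of_apply, Matrix.cons_val', Matrix.cons_val_zero,
      Matrix.cons_val_fin_one] at h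
    linear_combination h
  · simp

/-- The transform as a linear map. -/
noncomputable def hatL (N : ℕ) [NeZero N] : (MN N → ℂ) →ₗ[ℂ] MN N → ℂ where
  toFun := hatV
  map_add' φ φ' := by
    ext W
    simp only [hatV, Pi.add_apply, mul_add, Finset.sum_add_distrib]
  map_smul' z φ := by
    ext W
    simp only [hatV, Pi.smul_apply, smul_eq_mul, RingHom.id_apply, Finset.mul_sum]
    exact Finset.sum_congr rfl fun b _ => Finset.sum_congr rfl fun d _ => by ring

lemma hat_dft (φ : MN N → ℂ) (a c u v : ZMod N) :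
    hatV φ !![-u, -v; -c, a] =
      ZMod.dft (fun b => ZMod.dft (fun d => φ !![a, b; c, d]) v) u := by
  simp only [hatV, ZMod.dft_apply, smul_eq_mul, Finset.mul_sum]
  refine Finset.sum_congr rfl fun b _ => Finset.sum_congr rfl fun d _ => ?_
  rw [← mul_assoc, ← AddChar.map_add_eq_mul]
  simp only [Matrix.of_apply, Matrix.cons_val', Matrix.cons_val_zero, Matrix.cons_val_one,
    Matrix.cons_val_fin_one, neg_neg]
  congr 2
  ring

lemma hatL_injective : Function.Injective (hatL N) := by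
  rw [injective_iff_map_eq_zero]
  intro φ h
  have h1 : ∀ a c v : ZMod N, (fun b => ZMod.dft (fun d => φ !![a, b; c, d]) v) = 0 := by
    intro a c v
    apply (ZMod.dft (N := N) (E := ℂ)).injective
    rw [map_zero]
    ext u
    rw [← hat_dft]
    exact congrFun h _
  have h2 : ∀ a b c : ZMod N, (fun d => φ !![a, b; c, d]) = 0 := by
    intro a b c
    apply (ZMod.dft (N := N) (E := ℂ)).injective
    rw [map_zero]
    ext v
    exact congrFun (h1 a c v) b
  ext x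
  rw [Matrix.eta_fin_two x]
  exact congrFun (h2 _ _ _) _

lemma hat_inj {φ φ' : MN N → ℂ} (h : ∀ W, hatV φ W = hatV φ' W) : φ = φ' :=
  hatL_injective (funext h)

/-- The transform as a linear equivalence. -/
noncomputable def hatE (N : ℕ) [NeZero N] : (MN N → ℂ) ≃ₗ[ℂ] MN N → ℂ :=
  LinearEquiv.ofInjectiveEndo (hatL N) hatL_injective

lemma hatE_apply (φ : MN N → ℂ) : hatE N φ = hatV φ := rfl

/-- The permutation representation. -/
noncomputable def perm (N : ℕ) [NeZero N] : SL2 →* Module.End ℂ (MN N → ℂ) where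
  toFun g := LinearMap.funLeft ℂ ℂ fun W => red N ((g⁻¹ : SL2) : M2) * W
  map_one' := by
    ext φ W
    simp only [inv_one, red_SL_one, one_mul]
    rfl
  map_mul' g g' := by
    refine LinearMap.ext fun φ => funext fun W => ?_
    simp only [_root_.mul_inv_rev, red_SL_mul, Module.End.mul_apply, LinearMap.funLeft_apply,
      mul_assoc]

lemma perm_apply (g : SL2) (φ : MN N → ℂ) (W : MN N) :
    perm N g φ W = φ (red N ((g⁻¹ : SL2) : M2) * W) := rfl

/-- The Weil representation. -/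
noncomputable def weil (N : ℕ) [NeZero N] : SL2 →* Matrix (MN N) (MN N) ℂ where
  toFun g := LinearMap.toMatrix' ((hatE N).symm.toLinearMap ∘ₗ perm N g ∘ₗ (hatE N).toLinearMap)
  map_one' := by
    rw [map_one, ← LinearMap.toMatrix'_id]
    congr 1
    refine LinearMap.ext fun φ => ?_
    simp
  map_mul' g g' := by
    rw [map_mul, ← LinearMap.toMatrix'_comp]
    congr 1
    refine LinearMap.ext fun φ => ?_
    simp

lemma weil_eq (g : SL2) (A : Matrix (MN N) (MN N) ℂ)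
    (h : ∀ φ W, hatV (A *ᵥ φ) (red N g * W) = hatV φ W) : weil N g = A := by
  have e : (hatE N).symm.toLinearMap ∘ₗ perm N g ∘ₗ (hatE N).toLinearMap = Matrix.toLin' A := by
    refine LinearMap.ext fun φ => ?_
    simp only [LinearMap.comp_apply, LinearEquiv.coe_coe, Matrix.toLin'_apply]
    rw [LinearEquiv.symm_apply_eq]
    ext W
    rw [perm_apply, hatE_apply, hatE_apply, ← h φ, ← mul_assoc, red_mul_inv, one_mul]
  change LinearMap.toMatrix' _ = A
  rw [e, LinearMap.toMatrix'_toLin']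

lemma law {f : MN N → ℍ → ℂ} {c : MN N → LS} (h : WH N f c) (γ : SL2) :
    ∀ (W : MN N) (τ : ℍ),
      hatV (fun x => f x (γ • τ)) (red N γ * W) = hatV (fun x => f x τ) W := by
  have hγ : γ ∈ Subgroup.closure ({ModularGroup.S, ModularGroup.T} : Set SL2) := by
    rw [SpecialLinearGroup.SL2Z_generators]; trivial
  induction hγ using Subgroup.closure_induction with
  | mem g hg =>
    intro W τ
    rcases hg with rfl | rfl
    · rw [h.vv.s, hat_S]
    · rw [h.vv.t, hat_T]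
  | one => intro W τ; simp only [one_smul, red_SL_one, one_mul]
  | mul g g' _ _ ih ih' =>
    intro W τ
    simp only [mul_smul]
    rw [red_SL_mul, mul_assoc, ih, ih']
  | inv g _ ih =>
    intro W τ
    rw [← ih (red N ((g⁻¹ : SL2) : M2) * W) (g⁻¹ • τ), ← mul_assoc, red_mul_inv, one_mul]
    simp only [smul_inv_smul]

lemma hat_left' (φ : MN N → ℂ) (g : MN N) (hg : g.det = 1) (W : MN N) :
    hatV (fun x => φ (g * x)) (W * g) = hatV φ W := by
  rw [Matrix.det_fin_two] at hg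
  have hb : Function.Bijective fun p : ZMod N × ZMod N =>
      ((g 0 0 * p.1 + g 0 1 * p.2, g 1 0 * p.1 + g 1 1 * p.2) : ZMod N × ZMod N) := by
    rw [← Finite.injective_iff_bijective]
    intro p q h
    obtain ⟨h1, h2⟩ := Prod.mk.inj h
    refine Prod.ext ?_ ?_
    · linear_combination g 1 1 * h1 - g 0 1 * h2 - (p.1 - q.1) * hg
    · linear_combination g 0 0 * h2 - g 1 0 * h1 - (p.2 - q.2) * hg
  unfold hatV
  rw [← Fintype.sum_prod_type', ← Fintype.sum_prod_type']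
  refine Fintype.sum_bijective _ hb _ _ fun p => ?_
  refine congrArg₂ (· * ·) (congrArg _ ?_) (congrArg φ ?_)
  · simp only [Matrix.mul_apply, Fin.sum_univ_two]
    ring
  · ext i k
    fin_cases i <;> fin_cases k
    · simp [Matrix.mul_apply, Fin.sum_univ_two]
      linear_combination W 1 1 * hg
    · simp [Matrix.mul_apply, Fin.sum_univ_two]
    · simp [Matrix.mul_apply, Fin.sum_univ_two]
      linear_combination -W 1 0 * hg
    · simp [Matrix.mul_apply, Fin.sum_univ_two]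

lemma even {f : MN N → ℍ → ℂ} {c : MN N → LS} (h : WH N f c) (x : MN N) : f (-x) = f x := by
  ext τ
  have e : (fun y => f (-y) τ) = fun y => f y τ := by
    refine hat_inj fun W => ?_
    have h1 := law h (-1) (-W) τ
    have h2 := hat_left' (fun y => f y τ) (-1) (by simp [Matrix.det_fin_two]) (-W)
    have h3 : red N ((-1 : SL2) : M2) = -1 := red_neg_one
    simp only [h3, ModularGroup.SL_neg_smul, one_smul, neg_mul, one_mul, neg_neg] at h1
    simp only [neg_mul, one_mul, mul_neg, mul_one, neg_neg] at h2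
    rw [h2, h1]
  exact congrFun e x

lemma supp (hA : QA) {f : MN N → ℍ → ℂ} {c : MN N → LS} (h : WH N f c) (x : MN N) (n : ℤ)
    (hn : (n : ZMod N) ≠ -x.det) : (c x).coeff n = 0 := by
  have hN : 0 < N := Nat.pos_of_ne_zero (NeZero.ne N)
  obtain ⟨c', hc'⟩ := hA.exists_sub 1 (ee (((1 : ℤ) : ℂ) / ((N : ℂ) * ((1 : ℤ) : ℂ)))) (c x) one_pos
  have h1 := hA.comp (h := N) (h' := N) (k := 1) (a := 1) (b := 1) (d := 1) hN hN one_pos one_pos
    (by simp) (h.q x) hc'
  have h2 : (fun τ => f x (mob !![1, 1; 0, 1] τ)) = ZMod.stdAddChar (-x.det) • f x := by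
    ext τ
    have := congrFun (h.vv.t τ) x
    rw [TX, Matrix.mulVec_diagonal] at this
    rw [← ModularGroup.coe_T, mob_SL, this]
    rfl
  rw [h2] at h1
  have h3 := hA.unique hN h1 (hA.smul (ZMod.stdAddChar (-x.det)) (h.q x))
  have h4 := hc'.1 n
  have h5 : ee (((1 : ℤ) : ℂ) / ((N : ℂ) * ((1 : ℤ) : ℂ))) ^ n = ZMod.stdAddChar (n : ZMod N) := by
    rw [ZMod.stdAddChar_coe, ee, ← Complex.exp_int_mul]
    congr 1
    push_cast
    ring
  rw [h3, h5, Nat.cast_one, one_mul, HahnSeries.coeff_smul, smul_eq_mul] at h4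
  by_contra h0
  exact hn (ZMod.injective_stdAddChar (mul_right_cancel₀ h0 h4)).symm

lemma wh_comp {f : MN N → ℍ → ℂ} {c : MN N → LS} (h : WH N f c) (e : MN N → MN N)
    (he : Function.Injective e) (hb : ∀ x y, bil (e x) (e y) = bil x y)
    (hd : ∀ x, (e x).det = x.det) : WH N (fun x => f (e x)) fun x => c (e x) := by
  refine ⟨fun x => h.q _, fun x => h.vv.q _, fun τ => ?_, fun τ => ?_⟩
  · ext x
    rw [congrFun (h.vv.s τ) (e x)]
    simp only [Matrix.mulVec, dotProduct]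
    rw [← (Finite.injective_iff_bijective.mp he).sum_comp]
    simp only [SX, hb]
  · ext x
    rw [congrFun (h.vv.t τ) (e x)]
    simp only [TX, Matrix.mulVec_diagonal, hd]

lemma wh_left {f : MN N → ℍ → ℂ} {c : MN N → LS} (h : WH N f c) (γ : SL2) :
    WH N (fun x => f (red N γ * x)) fun x => c (red N γ * x) := by
  refine wh_comp h (fun x => red N γ * x) (fun x y e => ?_) (fun x y => ?_) fun x => ?_
  · have := congrArg (fun z => red N ((γ⁻¹ : SL2) : M2) * z) e
    simpa only [← mul_assoc, red_inv_mul, one_mul] using this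
  · have hg := det_red (N := N) γ
    rw [Matrix.det_fin_two] at hg
    simp only [bil, Matrix.mul_apply, Fin.sum_univ_two]
    linear_combination (x 0 0 * y 1 1 + x 1 1 * y 0 0 - x 0 1 * y 1 0 - x 1 0 * y 0 1) * hg
  · rw [Matrix.det_mul, det_red, one_mul]

lemma wh_adj {f : MN N → ℍ → ℂ} {c : MN N → LS} (h : WH N f c) :
    WH N (fun x => f x.adjugate) fun x => c x.adjugate := by
  refine wh_comp h Matrix.adjugate (Function.Involutive.injective fun x => ?_) (fun x y => ?_)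
    fun x => ?_
  · ext i k
    fin_cases i <;> fin_cases k <;> simp [Matrix.adjugate_fin_two]
  · simp only [bil, Matrix.adjugate_fin_two, Matrix.of_apply, Matrix.cons_val',
      Matrix.cons_val_zero, Matrix.cons_val_one, Matrix.cons_val_fin_one]
    ring
  · rw [Matrix.det_adjugate]
    simp

lemma wh_neg (hA : QA) {f : MN N → ℍ → ℂ} {c : MN N → LS} (h : WH N f c) :
    WH N (fun x => -f x) fun x => -c x := by
  refine ⟨fun x => hA.neg (h.q x), fun x => ⟨_, hA.neg (h.q x)⟩, fun τ => ?_, fun τ => ?_⟩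
  · have := congrArg Neg.neg (h.vv.s τ)
    rw [← Matrix.mulVec_neg] at this
    exact this
  · have := congrArg Neg.neg (h.vv.t τ)
    rw [← Matrix.mulVec_neg] at this
    exact this

end HatM

/-- Module HAT. -/
theorem hat (hA : QA) : HAT where
  rep := fun N _ => ⟨HatM.weil N, HatM.weil_eq _ _ HatM.hat_S, HatM.weil_eq _ _ HatM.hat_T⟩
  law := fun h γ => HatM.law h γ
  hat_left := fun φ γ W => HatM.hat_left' φ _ (HatM.det_red γ) W
  par := fun {N} _ {f c} h x =>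
    hA.unique (Nat.pos_of_ne_zero (NeZero.ne N)) (h.q (-x)) (HatM.even h x ▸ h.q x)
  supp := fun h x n hn => HatM.supp hA h x n hn
  left := fun h γ => HatM.wh_left h γ
  adj := fun h => HatM.wh_adj h
  neg := fun h => HatM.wh_neg hA h

end Pool.Agent.MP_9207e0_ag.hg

end MrgPart2

-- ======== part 3: formerly Pool.Agent.MP_9207e0_ag.hg.Poin
section MrgPart3

/-! Poincaré series of weight `5 / 2`. -/

set_option linter.unusedSectionVars false
set_option linter.unusedVariables false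

namespace Pool.Agent.MP_9207e0_ag.hg

open UpperHalfPlane Complex Filter Asymptotics Matrix
open scoped Real MatrixGroups Manifold Classical Kronecker

namespace Poin

lemma ee_add (a b : ℂ) : ee (a + b) = ee a * ee b := by
  rw [ee, ee, ee, ← Complex.exp_add, mul_add]

lemma ee_zero : ee 0 = 1 := by simp [ee]

lemma norm_ee (z : ℂ) : ‖ee z‖ = Real.exp (-(2 * π * z.im)) := by
  rw [ee, Complex.norm_exp]
  simp

lemma ee_pow (z : ℂ) (n : ℕ) : ee z ^ n = ee (n * z) := by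
  rw [ee, ee, ← Complex.exp_nat_mul]
  ring_nf

lemma zpow_inv {X : Type} (f : SL2 → X) (h : ∀ γ, f (ModularGroup.T * γ) = f γ) (n : ℤ) (γ : SL2) :
    f (ModularGroup.T ^ n * γ) = f γ := by
  induction n using Int.induction_on with
  | zero => simp
  | succ n ih => rw [add_comm, _root_.zpow_add, zpow_one, mul_assoc, h, ih]
  | pred n ih =>
    rw [← ih, ← h (ModularGroup.T ^ (-(n : ℤ) - 1) * γ), ← mul_assoc, ← _root_.zpow_one_add]
    congr 3
    ring

/-- The bottom row. -/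
def row (γ : SL2) : Fin 2 → ℤ := (γ : M2) 1

lemma row_mul (γ g : SL2) : row (γ * g) = row γ ᵥ* (g : M2) := by
  funext j
  simp [row, Matrix.mul_apply, Matrix.vecMul, dotProduct]

lemma exists_T {γ γ' : SL2} (h : row γ' = row γ) : ∃ n : ℤ, γ' = ModularGroup.T ^ n * γ := by
  have h1 : row (γ' * γ⁻¹) = row 1 := by
    rw [row_mul, h, ← row_mul, mul_inv_cancel]
  set g := γ' * γ⁻¹ with hg
  have h2 : (g : M2) 1 0 = 0 := by simpa [row] using congrFun h1 0
  have h3 : (g : M2) 1 1 = 1 := by simpa [row] using congrFun h1 1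
  have h4 := det_SL g
  rw [Matrix.det_fin_two, h2, h3] at h4
  refine ⟨(g : M2) 0 1, ?_⟩
  rw [← mul_inv_eq_iff_eq_mul, ← hg]
  apply Subtype.ext
  rw [ModularGroup.coe_T_zpow]
  ext i j
  fin_cases i <;> fin_cases j <;> simp [h2, h3]
  simpa using h4

/-- The index set. -/
abbrev Ix : Type := Set.range row

/-- A matrix with the given bottom row. -/
noncomputable def rep (x : Ix) : SL2 := x.2.choose

lemma row_rep (x : Ix) : row (rep x) = x.1 := x.2.choose_spec

/-- Right multiplication on the index set. -/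
noncomputable def sh (g : SL2) : Ix ≃ Ix where
  toFun x := ⟨row (rep x * g), _, rfl⟩
  invFun x := ⟨row (rep x * g⁻¹), _, rfl⟩
  left_inv x := by
    apply Subtype.ext
    simp only
    rw [row_mul, row_rep, ← row_mul, mul_inv_cancel_right, row_rep]
  right_inv x := by
    apply Subtype.ext
    simp only
    rw [row_mul, row_rep, ← row_mul, inv_mul_cancel_right, row_rep]

lemma row_sh (g : SL2) (x : Ix) : row (rep (sh g x)) = row (rep x * g) := row_rep _

lemma im_smul (γ : SL2) (τ : ℍ) :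
    (γ • τ).im = τ.im / normSq ((row γ 0 : ℂ) * τ + row γ 1) := by
  rw [← mob_SL, im_mob (det_SL_pos γ), det_SL]
  simp [row]

lemma im_le_inv {γ : SL2} (h : row γ 0 ≠ 0) (τ : ℍ) : (γ • τ).im ≤ τ.im⁻¹ := by
  have h0 := τ.im_pos
  have h1 : (1 : ℝ) ≤ (row γ 0 : ℝ) ^ 2 := by
    have : 1 ≤ (row γ 0) ^ 2 := by
      have := sq_pos_of_ne_zero h
      omega
    exact_mod_cast this
  have h2 : τ.im ^ 2 ≤ normSq ((row γ 0 : ℂ) * τ + row γ 1) := by
    rw [normSq_apply]
    simp only [add_re, mul_re, intCast_re, intCast_im, coe_re, coe_im, zero_mul, sub_zero, add_im,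
      mul_im, add_zero]
    nlinarith [mul_self_nonneg ((row γ 0 : ℝ) * τ.re + row γ 1), sq_nonneg τ.im]
  rw [im_smul, div_le_iff₀ (lt_of_lt_of_le (by positivity) h2), inv_mul_eq_div,
    le_div_iff₀ h0]
  nlinarith

lemma row_cases {γ : SL2} (h : row γ 0 = 0) : row γ = row 1 ∨ row γ = row (-1) := by
  have h4 := det_SL γ
  have h2 : (γ : M2) 1 0 = 0 := h
  rw [Matrix.det_fin_two, h2, mul_zero, sub_zero] at h4
  rcases Int.eq_one_or_neg_one_of_mul_eq_one' h4 with ⟨-, h5⟩ | ⟨-, h5⟩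
  · left
    funext j
    fin_cases j <;> simp [row, h2, h5]
  · right
    funext j
    fin_cases j <;> simp [row, h2, h5]

lemma im_le_max (γ : SL2) (τ : ℍ) : (γ • τ).im ≤ max τ.im τ.im⁻¹ := by
  by_cases h : row γ 0 = 0
  · refine le_trans (le_of_eq ?_) (le_max_left _ _)
    rw [im_smul]
    rcases row_cases h with e | e <;> rw [e] <;> simp [row]
  · exact (im_le_inv h τ).trans (le_max_right _ _)

lemma et_ratio (hB : QB) (γ : SL2) (τ : ℍ) :
    ‖et τ ^ 5 / et (γ • τ) ^ 5‖ = ‖(row γ 0 : ℂ) * τ + row γ 1‖ ^ (-(5 / 2 : ℝ)) := by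
  have h1 : ‖et (γ • τ)‖ ^ 2 = ‖(row γ 0 : ℂ) * τ + row γ 1‖ * ‖et τ‖ ^ 2 := hB.et_norm γ τ
  have h2 : 0 < ‖et τ‖ := norm_pos_iff.2 (hB.et_ne τ)
  generalize hp : ‖(row γ 0 : ℂ) * τ + row γ 1‖ = p at h1
  have hp0 : 0 ≤ p := hp ▸ norm_nonneg _
  have h3 : ‖et (γ • τ)‖ = √p * ‖et τ‖ := by
    rw [← pow_left_inj₀ (norm_nonneg _) (by positivity) two_ne_zero, h1, mul_pow, Real.sq_sqrt hp0]
  rw [norm_div, norm_pow, norm_pow, h3, mul_pow, Real.rpow_neg hp0, Real.sqrt_eq_rpow,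
    ← Real.rpow_natCast (p ^ (1 / 2 : ℝ)), ← Real.rpow_mul hp0]
  norm_num
  field_simp

variable {A : Type} [Fintype A]

lemma nsq_smul (c : ℂ) (w : A → ℂ) : nsq (c • w) = ‖c‖ ^ 2 * nsq w := by
  simp [nsq, Finset.mul_sum, mul_pow]

lemma sq_le_nsq (w : A → ℂ) (a : A) : ‖w a‖ ^ 2 ≤ nsq w :=
  Finset.single_le_sum (f := fun i => ‖w i‖ ^ 2) (fun _ _ => by positivity) (Finset.mem_univ a)

lemma norm_le_sqrt (w : A → ℂ) (a : A) : ‖w a‖ ≤ √(nsq w) :=
  Real.le_sqrt_of_sq_le (sq_le_nsq w a)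

/-- The seed function. -/
noncomputable def sd (μ : ℝ) (τ : ℍ) : ℂ := ee (μ * τ) / et τ ^ 5

/-- One term of the series. -/
noncomputable def tm (ρ : SL2 →* Matrix A A ℂ) (v : A → ℂ) (μ : ℝ) (γ : SL2) (τ : ℍ) : A → ℂ :=
  sd μ (γ • τ) • (ρ γ⁻¹ *ᵥ v)

lemma coe_T_smul (τ : ℍ) : ((ModularGroup.T • τ : ℍ) : ℂ) = τ + 1 := by
  simpa using ModularGroup.coe_T_zpow_smul_eq (z := τ) (n := 1)

lemma ee_T (μ : ℝ) (τ : ℍ) : ee (μ * (ModularGroup.T • τ : ℍ)) = ee μ * ee (μ * τ) := by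
  rw [coe_T_smul, ← ee_add]
  ring_nf

lemma et_T5 (hB : QB) (τ : ℍ) : et (ModularGroup.T • τ) ^ 5 = ee (5 / 24) * et τ ^ 5 := by
  rw [hB.et_T, mul_pow, ee_pow]
  norm_num

lemma ee_sub (μ : ℝ) : ee (5 / 24) * ee (μ - 5 / 24) = ee μ := by
  rw [← ee_add]
  ring_nf

lemma ee_ne (z : ℂ) : ee z ≠ 0 := Complex.exp_ne_zero _

lemma sd_T (hB : QB) (μ : ℝ) (τ : ℍ) : sd μ (ModularGroup.T • τ) = ee (μ - 5 / 24) * sd μ τ := by
  rw [sd, sd, ee_T, et_T5 hB, ← ee_sub μ]
  have := ee_ne (5 / 24)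
  have := hB.et_ne τ
  field_simp

lemma hol_ee (μ : ℝ) : Hol fun τ => ee (μ * τ) := by
  rw [Hol, UpperHalfPlane.mdifferentiable_iff]
  refine DifferentiableOn.congr (f := fun z : ℂ => ee (μ * z)) ?_ fun z hz => ?_
  · unfold ee
    fun_prop
  · simp [ofComplex_apply_of_im_pos hz]

lemma hol_div {a b : ℍ → ℂ} (ha : Hol a) (hb : Hol b) (h : ∀ τ, b τ ≠ 0) :
    Hol fun τ => a τ / b τ := by
  rw [Hol, UpperHalfPlane.mdifferentiable_iff] at *
  exact ha.div hb fun z _ => h _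

lemma hol_et5 (hB : QB) : Hol fun τ => et τ ^ 5 := by
  have := hB.et_hol
  rw [Hol, UpperHalfPlane.mdifferentiable_iff] at *
  exact this.pow 5

lemma hol_sd (hB : QB) (μ : ℝ) : Hol (sd μ) :=
  hol_div (hol_ee μ) (hol_et5 hB) fun τ => pow_ne_zero 5 (hB.et_ne τ)

variable {ρ : SL2 →* Matrix A A ℂ} {v : A → ℂ} {μ : ℝ}

lemma tm_T (hB : QB) (hT : ρ ModularGroup.T *ᵥ v = ee (μ - 5 / 24) • v) (γ : SL2) (τ : ℍ) :
    tm ρ v μ (ModularGroup.T * γ) τ = tm ρ v μ γ τ := by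
  have h : ee (μ - 5 / 24) • (ρ ModularGroup.T⁻¹ *ᵥ v) = v := by
    rw [← Matrix.mulVec_smul, ← hT, Matrix.mulVec_mulVec, ← map_mul, inv_mul_cancel, map_one,
      Matrix.one_mulVec]
  rw [tm, tm, mul_smul, sd_T hB, _root_.mul_inv_rev, map_mul, ← Matrix.mulVec_mulVec, mul_comm,
    mul_smul, ← Matrix.mulVec_smul, h]

lemma tm_row (hB : QB) (hT : ρ ModularGroup.T *ᵥ v = ee (μ - 5 / 24) • v) {γ γ' : SL2}
    (h : row γ' = row γ) (τ : ℍ) : tm ρ v μ γ' τ = tm ρ v μ γ τ := by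
  obtain ⟨n, rfl⟩ := exists_T h
  exact zpow_inv (fun γ => tm ρ v μ γ τ) (fun γ => tm_T hB hT γ τ) n γ

lemma tm_smul (γ g : SL2) (τ : ℍ) : tm ρ v μ γ (g • τ) = ρ g *ᵥ tm ρ v μ (γ * g) τ := by
  rw [tm, tm, Matrix.mulVec_smul, Matrix.mulVec_mulVec, ← map_mul, mul_smul, _root_.mul_inv_rev,
    mul_inv_cancel_left]

lemma tm_bound (hB : QB) (hu : ∀ γ w, nsq (ρ γ *ᵥ w) = nsq w) (hμ : μ ≤ 0) {γ : SL2} {τ : ℍ}
    {M R B : ℝ} (h0 : 0 < B) (hτ : τ ∈ verticalStrip R B) (hM : (γ • τ).im ≤ M) (a : A) :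
    ‖tm ρ v μ γ τ a * et τ ^ 5‖ ≤ (√(nsq v) * Real.exp (-(2 * π * μ) * M) *
      EisensteinSeries.r ⟨⟨R, B⟩, h0⟩ ^ (-(5 / 2 : ℝ))) * ‖row γ‖ ^ (-(5 / 2 : ℝ)) := by
  have e : tm ρ v μ γ τ a * et τ ^ 5 =
      (ρ γ⁻¹ *ᵥ v) a * ee (μ * (γ • τ : ℍ)) * (et τ ^ 5 / et (γ • τ) ^ 5) := by
    simp only [tm, sd, Pi.smul_apply, smul_eq_mul]
    ring
  have h1 : ‖(ρ γ⁻¹ *ᵥ v) a‖ ≤ √(nsq v) := by
    rw [← hu γ⁻¹ v]
    exact norm_le_sqrt _ a
  have h2 : ‖ee (μ * (γ • τ : ℍ))‖ ≤ Real.exp (-(2 * π * μ) * M) := by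
    rw [norm_ee, Real.exp_le_exp]
    simp only [mul_im, ofReal_re, ofReal_im, coe_im, zero_mul, add_zero]
    have : 0 ≤ -(2 * π * μ) := by nlinarith [Real.pi_pos]
    nlinarith
  have h3 := EisensteinSeries.summand_bound_of_mem_verticalStrip (k := 5 / 2) (by norm_num)
    (row γ) h0 hτ
  rw [e, norm_mul, norm_mul, et_ratio hB, mul_assoc (√(nsq v) * _)]
  gcongr

lemma sum_row (C : ℝ) : Summable fun x : Ix => C * ‖row (rep x)‖ ^ (-(5 / 2 : ℝ)) := by
  simp only [row_rep]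
  exact ((EisensteinSeries.summable_one_div_norm_rpow (k := 5 / 2) (by norm_num)).subtype
    _).mul_left C

lemma summable_tm (hB : QB) (hu : ∀ γ w, nsq (ρ γ *ᵥ w) = nsq w) (hμ : μ ≤ 0) (τ : ℍ) (a : A) :
    Summable fun x : Ix => tm ρ v μ (rep x) τ a * et τ ^ 5 :=
  Summable.of_norm_bounded (sum_row _) fun x =>
    tm_bound hB hu hμ (R := |τ.re|) τ.im_pos ⟨le_rfl, le_rfl⟩ (im_le_max _ τ) a

/-- The series. -/
noncomputable def ser (ρ : SL2 →* Matrix A A ℂ) (v : A → ℂ) (μ : ℝ) (a : A) (τ : ℍ) : ℂ :=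
  (∑' x : Ix, tm ρ v μ (rep x) τ a * et τ ^ 5) / et τ ^ 5

lemma ser_mul (hB : QB) (a : A) (τ : ℍ) :
    ser ρ v μ a τ * et τ ^ 5 = ∑' x : Ix, tm ρ v μ (rep x) τ a * et τ ^ 5 :=
  div_mul_cancel₀ _ (pow_ne_zero 5 (hB.et_ne τ))

lemma hasSum_ser (hB : QB) (hu : ∀ γ w, nsq (ρ γ *ᵥ w) = nsq w) (hμ : μ ≤ 0) (τ : ℍ) (a : A) :
    HasSum (fun x : Ix => tm ρ v μ (rep x) τ a) (ser ρ v μ a τ) := by
  have := (summable_tm (v := v) hB hu hμ τ a).hasSum.div_const (et τ ^ 5)
  simp only [mul_div_cancel_right₀ _ (pow_ne_zero 5 (hB.et_ne τ))] at this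
  exact this

lemma hol_tm (hB : QB) (γ : SL2) (a : A) : Hol fun τ => tm ρ v μ γ τ a * et τ ^ 5 := by
  have h1 := (hol_sd hB μ).comp_SL γ
  have h2 := hol_et5 hB
  rw [Hol, UpperHalfPlane.mdifferentiable_iff] at *
  exact (h1.mul_const ((ρ γ⁻¹ *ᵥ v) a)).mul h2

lemma hol_ser (hB : QB) (hu : ∀ γ w, nsq (ρ γ *ᵥ w) = nsq w) (hμ : μ ≤ 0) (a : A) :
    Hol (ser ρ v μ a) := by
  refine hol_div ?_ (hol_et5 hB) fun τ => pow_ne_zero 5 (hB.et_ne τ)
  rw [Hol, UpperHalfPlane.mdifferentiable_iff]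
  intro z hz
  have hz0 : 0 < z.im := hz
  have h0 : 0 < z.im / 2 := by positivity
  set U : Set ℂ := {w | |w.re| < |z.re| + 1 ∧ z.im / 2 < w.im ∧ w.im < 2 * z.im} with hU
  have hUo : IsOpen U :=
    IsOpen.and (isOpen_lt continuous_re.abs continuous_const)
      (IsOpen.and (isOpen_lt continuous_const continuous_im)
        (isOpen_lt continuous_im continuous_const))
  have hzU : z ∈ U := ⟨by linarith, by linarith, by linarith⟩
  have hsub : U ⊆ upperHalfPlaneSet := fun w hw => lt_trans h0 hw.2.1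
  have key := differentiableOn_tsum_of_summable_norm
    (F := fun (x : Ix) => (fun τ => tm ρ v μ (rep x) τ a * et τ ^ 5) ∘ ofComplex)
    (sum_row (√(nsq v) * Real.exp (-(2 * π * μ) * max (2 * z.im) (z.im / 2)⁻¹) *
      EisensteinSeries.r ⟨⟨|z.re| + 1, z.im / 2⟩, h0⟩ ^ (-(5 / 2 : ℝ))))
    (fun x => (UpperHalfPlane.mdifferentiable_iff.1 (hol_tm hB (rep x) a)).mono hsub) hUo
    (fun x w hw => by
      have hw0 : 0 < w.im := hsub hw
      simp only [Function.comp, ofComplex_apply_of_im_pos hw0]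
      refine tm_bound hB hu hμ (τ := ⟨w, hw0⟩) h0 ⟨hw.1.le, hw.2.1.le⟩
        ((im_le_max _ _).trans ?_) a
      exact max_le_max hw.2.2.le (inv_anti₀ h0 hw.2.1.le))
  exact (key.differentiableAt (hUo.mem_nhds hzU)).differentiableWithinAt

lemma ser_law (hB : QB) (hu : ∀ γ w, nsq (ρ γ *ᵥ w) = nsq w) (hμ : μ ≤ 0)
    (hT : ρ ModularGroup.T *ᵥ v = ee (μ - 5 / 24) • v) (g : SL2) (τ : ℍ) :
    (fun a => ser ρ v μ a (g • τ)) = ρ g *ᵥ fun a => ser ρ v μ a τ := by
  funext a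
  have h1 := hasSum_ser (v := v) hB hu hμ (g • τ) a
  have h2 : HasSum (fun x : Ix => ∑ b, ρ g a b * tm ρ v μ (rep (sh g x)) τ b)
      (∑ b, ρ g a b * ser ρ v μ b τ) :=
    hasSum_sum fun b _ => ((sh g).hasSum_iff.2 (hasSum_ser hB hu hμ τ b)).mul_left _
  refine h1.unique (h2.congr_fun ?_)
  intro x
  rw [tm_smul, tm_row hB hT (row_sh g x)]
  rfl

lemma main_part (hB : QB) (h1 : ρ (-1) *ᵥ v = v)
    (hT : ρ ModularGroup.T *ᵥ v = ee (μ - 5 / 24) • v) (τ : ℍ) (a : A) :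
    HasSum (fun x : Ix => if row (rep x) 0 = 0 then tm ρ v μ (rep x) τ a * et τ ^ 5 else 0)
      (2 * v a * ee (μ * τ)) := by
  have hne : (⟨row 1, _, rfl⟩ : Ix) ≠ ⟨row (-1), _, rfl⟩ := by
    intro h
    have := congrFun (congrArg Subtype.val h) 1
    simp [row] at this
  have he := hB.et_ne τ
  have e : 2 * v a * ee (μ * τ) = ∑ x ∈ ({⟨row 1, _, rfl⟩, ⟨row (-1), _, rfl⟩} : Finset Ix),
      if row (rep x) 0 = 0 then tm ρ v μ (rep x) τ a * et τ ^ 5 else 0 := by
    rw [Finset.sum_pair hne, if_pos (by rw [row_rep]; simp [row]),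
      if_pos (by rw [row_rep]; simp [row]), tm_row hB hT (γ := 1) (row_rep ⟨row 1, _, rfl⟩),
      tm_row hB hT (γ := -1) (row_rep ⟨row (-1), _, rfl⟩)]
    have h2 : (-1 : SL2)⁻¹ = -1 := by simp
    have h3 : (-1 : SL2) • τ = τ := by rw [ModularGroup.SL_neg_smul, one_smul]
    simp only [tm, sd, h2, h3, h1, one_smul, inv_one, map_one, Matrix.one_mulVec, Pi.smul_apply,
      smul_eq_mul]
    field_simp
    ring
  rw [e]
  refine hasSum_sum_of_ne_finset_zero fun x hx => if_neg fun h0 => hx ?_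
  rcases row_cases h0 with e | e <;> rw [row_rep] at e
  · exact Finset.mem_insert.2 (Or.inl (Subtype.ext e))
  · exact Finset.mem_insert.2 (Or.inr (Finset.mem_singleton.2 (Subtype.ext e)))

lemma strip_bound (hB : QB) (hu : ∀ γ w, nsq (ρ γ *ᵥ w) = nsq w) (hμ : μ ≤ 0)
    (h1 : ρ (-1) *ᵥ v = v) (hT : ρ ModularGroup.T *ᵥ v = ee (μ - 5 / 24) • v) :
    ∃ C : ℝ, ∀ τ ∈ verticalStrip 1 1, ∀ a,
      ‖ser ρ v μ a τ * et τ ^ 5 - 2 * v a * ee (μ * τ)‖ ≤ C := by
  set K : ℝ := √(nsq v) * Real.exp (-(2 * π * μ) * 1) *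
    EisensteinSeries.r ⟨⟨1, 1⟩, one_pos⟩ ^ (-(5 / 2 : ℝ)) with hK
  have hK0 : 0 ≤ K := by
    have := (EisensteinSeries.r_pos ⟨⟨1, 1⟩, one_pos⟩).le
    positivity
  refine ⟨∑' x : Ix, K * ‖row (rep x)‖ ^ (-(5 / 2 : ℝ)), fun τ hτ a => ?_⟩
  rw [ser_mul hB]
  refine ((summable_tm hB hu hμ τ a).hasSum.sub (main_part hB h1 hT τ a)).norm_le_of_bounded
    (sum_row K).hasSum fun x => ?_
  by_cases h0 : row (rep x) 0 = 0
  · rw [if_pos h0, sub_self, norm_zero]
    positivity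
  · rw [if_neg h0, sub_zero]
    exact tm_bound hB hu hμ one_pos hτ ((im_le_inv h0 τ).trans (inv_le_one_of_one_le₀ hτ.2)) a

lemma rem_T (hB : QB) (hu : ∀ γ w, nsq (ρ γ *ᵥ w) = nsq w) (hμ : μ ≤ 0)
    (hT : ρ ModularGroup.T *ᵥ v = ee (μ - 5 / 24) • v) (τ : ℍ) :
    nsq (fun a => ser ρ v μ a (ModularGroup.T • τ) * et (ModularGroup.T • τ) ^ 5 -
      2 * v a * ee (μ * (ModularGroup.T • τ : ℍ))) =
    nsq fun a => ser ρ v μ a τ * et τ ^ 5 - 2 * v a * ee (μ * τ) := by
  have e1 : (fun a => ser ρ v μ a τ * et τ ^ 5 - 2 * v a * ee (μ * τ)) =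
      et τ ^ 5 • (fun a => ser ρ v μ a τ) - (2 * ee (μ * τ)) • v := by
    funext a
    simp only [Pi.sub_apply, Pi.smul_apply, smul_eq_mul]
    ring
  have e2 : (fun a => ser ρ v μ a (ModularGroup.T • τ) * et (ModularGroup.T • τ) ^ 5 -
      2 * v a * ee (μ * (ModularGroup.T • τ : ℍ))) = ee (5 / 24) • (ρ ModularGroup.T *ᵥ
        fun a => ser ρ v μ a τ * et τ ^ 5 - 2 * v a * ee (μ * τ)) := by
    rw [e1, Matrix.mulVec_sub, Matrix.mulVec_smul, Matrix.mulVec_smul, hT,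
      ← ser_law hB hu hμ hT, et_T5 hB, ee_T, ← ee_sub μ]
    funext a
    simp only [Pi.sub_apply, Pi.smul_apply, smul_eq_mul]
    ring
  rw [e2, nsq_smul, hu, norm_ee]
  norm_num

end Poin

open Poin in
theorem poin (hB : QB) : PoinStmt := by
  intro A _ ρ v μ hu hμ h1 hT
  refine ⟨ser ρ v μ, hol_ser hB hu hμ, ser_law hB hu hμ hT, fun a => ?_⟩
  obtain ⟨C, hC⟩ := strip_bound hB hu hμ h1 hT
  refine IsBigO.of_bound (√(Fintype.card A * C ^ 2)) ?_
  rw [Filter.Eventually, atImInfty_mem]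
  refine ⟨1, fun τ hτ => ?_⟩
  obtain ⟨n, hn⟩ := ModularGroup_T_zpow_mem_verticalStrip τ (N := 1) one_pos
  have h2 := zpow_inv (fun γ => nsq fun a => ser ρ v μ a (γ • τ) * et (γ • τ) ^ 5 -
    2 * v a * ee (μ * (γ • τ : ℍ))) (fun γ => by
      simp only [mul_smul]
      exact rem_T hB hu hμ hT _) ((1 : ℕ) * n) 1
  simp only [mul_one, one_smul] at h2
  have h3 : ModularGroup.T ^ (((1 : ℕ) : ℤ) * n) • τ ∈ verticalStrip 1 1 :=
    verticalStrip_anti_right _ hτ (by simpa using hn)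
  have h4 : nsq (fun a => ser ρ v μ a τ * et τ ^ 5 - 2 * v a * ee (μ * τ)) ≤
      Fintype.card A * C ^ 2 := by
    rw [← h2, nsq, ← Finset.card_univ, ← nsmul_eq_mul (Finset.card _)]
    exact Finset.sum_le_card_nsmul _ _ (C ^ 2) fun b _ =>
      pow_le_pow_left₀ (norm_nonneg _) (hC _ h3 b) 2
  simp only [Set.mem_ofPred_eq, mul_zero, zero_mul, Real.exp_zero, norm_one, mul_one]
  exact (norm_le_sqrt (fun a => ser ρ v μ a τ * et τ ^ 5 - 2 * v a * ee (μ * τ)) a).trans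
    (Real.sqrt_le_sqrt h4)

end Pool.Agent.MP_9207e0_ag.hg

end MrgPart3

-- ======== part 4: formerly Pool.Agent.MP_9207e0_ag.hg.E2A
section MrgPart4

/-! Module E2A: expansions in two variables. -/

namespace Pool.Agent.MP_9207e0_ag.hg

open UpperHalfPlane Complex Filter Asymptotics Matrix
open scoped Real MatrixGroups Manifold Classical Kronecker

namespace E2Ax

/-- A shifted power series. -/
noncomputable def sh (α : ℤ) (F : PowerSeries ℂ) : LS :=
  HahnSeries.single (-α) 1 * HahnSeries.ofPowerSeries ℤ ℂ F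

theorem coeff_sh (α : ℤ) (F : PowerSeries ℂ) (m : ℕ) :
    (sh α F).coeff (m + -α) = PowerSeries.coeff m F := by
  rw [sh, HahnSeries.coeff_single_mul_add, one_mul, HahnSeries.ofPowerSeries_apply_coeff]

theorem coeff_sh_lt (α : ℤ) (F : PowerSeries ℂ) {n : ℤ} (h : n < -α) : (sh α F).coeff n = 0 := by
  obtain ⟨k, rfl⟩ : ∃ k, n = k + -α := ⟨n + α, by ring⟩
  obtain ⟨m, rfl⟩ := Int.eq_negSucc_of_lt_zero (show k < 0 by omega)
  rw [sh, HahnSeries.coeff_single_mul_add, one_mul]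
  exact (PowerSeries.coeff_coe F _).trans (if_pos (Int.negSucc_lt_zero m))

theorem cases_sh (α n : ℤ) : n < -α ∨ ∃ m : ℕ, n = m + -α := by
  rcases lt_or_ge n (-α) with h | h
  · exact Or.inl h
  · exact Or.inr ⟨(n + α).toNat, by omega⟩

theorem eq_sh {α : ℤ} {F : PowerSeries ℂ} {c : LS} (h0 : ∀ n < -α, c.coeff n = 0)
    (h1 : ∀ m : ℕ, c.coeff (m + -α) = PowerSeries.coeff m F) : c = sh α F := by
  ext n
  rcases cases_sh α n with h | ⟨m, rfl⟩
  · rw [h0 n h, coeff_sh_lt α F h]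
  · rw [h1, coeff_sh]

theorem sh_mul (α β : ℤ) (F G : PowerSeries ℂ) : sh α F * sh β G = sh (α + β) (F * G) := by
  rw [sh, sh, sh, map_mul, mul_mul_mul_comm, HahnSeries.single_mul_single, one_mul, neg_add]

theorem sh_add (α : ℤ) (F G : PowerSeries ℂ) : sh α F + sh α G = sh α (F + G) := by
  rw [sh, sh, sh, map_add, mul_add]

theorem sh_sum {ι : Type} (s : Finset ι) (α : ℤ) (F : ι → PowerSeries ℂ) :
    ∑ i ∈ s, sh α (F i) = sh α (∑ i ∈ s, F i) := by
  simp only [sh, map_sum, Finset.mul_sum]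

theorem sh_smul (α : ℤ) (z : ℂ) (F : PowerSeries ℂ) : z • sh α F = sh α (z • F) :=
  eq_sh (fun n h => by rw [HahnSeries.coeff_smul, coeff_sh_lt α F h, smul_zero])
    fun m => by rw [HahnSeries.coeff_smul, coeff_sh, map_smul]

theorem isQ_ext {h : ℕ} {a b : ℍ → ℂ} {c : LS} (ha : IsQ h a c) (hb : IsQ h b c) : a = b :=
  funext fun τ => (ha τ).unique (hb τ)

theorem isQ_zero (h : ℕ) : IsQ h 0 0 := fun τ => by simp [hasSum_zero]

theorem isQ_comb (hA : QA) {h : ℕ} {α : ℤ} {ι : Type} [Fintype ι] (z : ι → ℂ) {a : ι → ℍ → ℂ}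
    {F : ι → PowerSeries ℂ} (ha : ∀ i, IsQ h (a i) (sh α (F i))) :
    IsQ h (∑ i, z i • a i) (sh α (∑ i, z i • F i)) := by
  rw [← sh_sum]
  exact hA.sum _ _ _ fun i _ => sh_smul α (z i) (F i) ▸ hA.smul (z i) (ha i)

theorem ex2_eq (d : Fin 2 →₀ ℕ) : d = ex2 (d 0) (d 1) := by
  ext i
  fin_cases i <;> simp [ex2]

theorem mm_ext {P Q : MM}
    (h : ∀ m ν, MvPowerSeries.coeff (ex2 m ν) P = MvPowerSeries.coeff (ex2 m ν) Q) : P = Q := by
  ext d
  rw [ex2_eq d, h]

theorem coeff_to (F : PowerSeries ℂ) (i : Fin 2) (m : ℕ) :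
    MvPowerSeries.coeff (Finsupp.single i m) (F.toMvPowerSeries i) = PowerSeries.coeff m F := by
  have := MvPowerSeries.coeff_embDomain_rename (Function.Embedding.punit i) F
    (Finsupp.single () m)
  rw [Finsupp.embDomain_single] at this
  exact this

theorem coeff_to_zero (F : PowerSeries ℂ) (i : Fin 2) {d : Fin 2 →₀ ℕ}
    (h : ∀ m, d ≠ Finsupp.single i m) : MvPowerSeries.coeff d (F.toMvPowerSeries i) = 0 := by
  refine MvPowerSeries.coeff_rename_eq_zero _ F ?_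
  rintro ⟨x, rfl⟩
  refine h (x ()) ?_
  conv_lhs => rw [Finsupp.unique_single x, Finsupp.mapDomain_single]

theorem coeff_ten (F G : PowerSeries ℂ) (m ν : ℕ) :
    MvPowerSeries.coeff (ex2 m ν) (F.toMvPowerSeries 0 * G.toMvPowerSeries 1 : MM) =
      PowerSeries.coeff m F * PowerSeries.coeff ν G := by
  rw [MvPowerSeries.coeff_mul,
    Finset.sum_eq_single (Finsupp.single 0 m, Finsupp.single 1 ν), coeff_to, coeff_to]
  · rintro ⟨a, b⟩ hab hne
    by_contra h0
    obtain ⟨h1, h2⟩ := mul_ne_zero_iff.1 h0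
    obtain ⟨k, hk⟩ := not_forall.1 fun h => h1 (coeff_to_zero F 0 h)
    obtain ⟨l, hl⟩ := not_forall.1 fun h => h2 (coeff_to_zero G 1 h)
    rw [not_ne_iff] at hk hl
    dsimp only at hk hl
    subst hk hl
    have e := Finset.HasAntidiagonal.mem_antidiagonal.1 hab
    have e0 := DFunLike.congr_fun e 0
    have e1 := DFunLike.congr_fun e 1
    simp [ex2] at e0 e1
    exact hne (by rw [e0, e1])
  · intro h
    rw [Finset.HasAntidiagonal.mem_antidiagonal, ex2] at h
    exact absurd rfl h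

/-- A row as a power series. -/
noncomputable def rowS (P : MM) (m : ℕ) : PowerSeries ℂ :=
  PowerSeries.mk fun ν => MvPowerSeries.coeff (ex2 m ν) P

theorem rowS_ten {ι : Type} [Fintype ι] (F G : ι → PowerSeries ℂ) (m : ℕ) :
    rowS (∑ i, (F i).toMvPowerSeries 0 * (G i).toMvPowerSeries 1) m =
      ∑ i, PowerSeries.coeff m (F i) • G i := by
  ext ν
  simp only [rowS, PowerSeries.coeff_mk, map_sum, coeff_ten, map_smul, smul_eq_mul]

theorem exp2_of {N : ℕ} {α β : ℤ} {ι : Type} [Fintype ι] (w w' : ι → ℍ → ℂ)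
    (F G : ι → PowerSeries ℂ) (h : ∀ i, w i ∈ Mod N ∧ w' i ∈ Mod N ∧ IsQ N (w i) (sh α (F i)) ∧
      IsQ N (w' i) (sh β (G i))) :
    Exp2 N (fun t s => ∑ i, w i t * w' i s) α β
      (∑ i, (F i).toMvPowerSeries 0 * (G i).toMvPowerSeries 1) := by
  have e := (Fintype.equivFin ι).symm
  refine ⟨_, w ∘ e, w' ∘ e, F ∘ e, G ∘ e, fun i => h (e i), ?_, (e.sum_comp _).symm⟩
  funext t s
  exact (e.sum_comp fun i => w i t * w' i s).symm

theorem mul (hA : QA) {N : ℕ} {P Q : ℍ → ℍ → ℂ} {α β α' β' : ℤ} {P' Q' : MM} (hN : 0 < N)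
    (hP : Exp2 N P α β P') (hQ : Exp2 N Q α' β' Q') :
    Exp2 N (P * Q) (α + α') (β + β') (P' * Q') := by
  obtain ⟨n, w, w', F, G, h, rfl, rfl⟩ := hP
  obtain ⟨m, v, v', H, K, h', rfl, rfl⟩ := hQ
  have key := exp2_of (N := N) (α := α + α') (β := β + β') (ι := Fin n × Fin m)
    (fun p => w p.1 * v p.2) (fun p => w' p.1 * v' p.2) (fun p => F p.1 * H p.2)
    (fun p => G p.1 * K p.2) fun p =>
      ⟨mul_mem (h p.1).1 (h' p.2).1, mul_mem (h p.1).2.1 (h' p.2).2.1,
        sh_mul _ _ _ _ ▸ hA.mul hN (h p.1).2.2.1 (h' p.2).2.2.1,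
        sh_mul _ _ _ _ ▸ hA.mul hN (h p.1).2.2.2 (h' p.2).2.2.2⟩
  have e1 : ((fun t s => ∑ i, w i t * w' i s) * fun t s => ∑ i, v i t * v' i s) =
      fun t s => ∑ p : Fin n × Fin m, (w p.1 * v p.2) t * (w' p.1 * v' p.2) s := by
    funext t s
    simp only [Pi.mul_apply, Finset.sum_mul_sum, Fintype.sum_prod_type]
    simp only [mul_mul_mul_comm (w _ t)]
  rw [e1, Finset.sum_mul_sum, ← Fintype.sum_prod_type']
  simpa only [map_mul, mul_mul_mul_comm ((F _).toMvPowerSeries (0 : Fin 2))] using key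

theorem one (hA : QA) (N : ℕ) : Exp2 N 1 0 0 1 := by
  have h : IsQ N 1 (sh 0 1) := by simpa [sh, Pi.one_def] using hA.const N 1
  have key := exp2_of (N := N) (ι := Unit) (fun _ => 1) (fun _ => 1) (fun _ => 1) (fun _ => 1)
    fun _ => ⟨one_mem _, one_mem _, h, h⟩
  simpa [Pi.one_def] using key

theorem prod (hA : QA) {N : ℕ} {ι : Type} (s : Finset ι) (P : ι → ℍ → ℍ → ℂ) (α β : ι → ℤ)
    (P' : ι → MM) (hN : 0 < N) (h : ∀ i ∈ s, Exp2 N (P i) (α i) (β i) (P' i)) :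
    Exp2 N (∏ i ∈ s, P i) (∑ i ∈ s, α i) (∑ i ∈ s, β i) (∏ i ∈ s, P' i) := by
  induction s using Finset.induction_on with
  | empty => simpa using one hA N
  | insert a s ha ih =>
    rw [Finset.prod_insert ha, Finset.prod_insert ha, Finset.sum_insert ha, Finset.sum_insert ha]
    exact mul hA hN (h a (Finset.mem_insert_self a s))
      (ih fun i hi => h i (Finset.mem_insert_of_mem hi))

theorem swap (hF : FORM) {N : ℕ} {P : ℍ → ℍ → ℂ} {α β : ℤ} {P' : MM} (hP : Exp2 N P α β P') :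
    Exp2 N (fun t s => P s t) β α (sw P') := by
  obtain ⟨n, w, w', F, G, h, rfl, rfl⟩ := hP
  refine ⟨n, w', w, G, F, fun i => ⟨(h i).2.1, (h i).1, (h i).2.2.2, (h i).2.2.1⟩, ?_,
    mm_ext fun m ν => ?_⟩
  · simp only [mul_comm]
  · simp only [hF.coeff_sw, map_sum (MvPowerSeries.coeff _), coeff_ten, mul_comm]

theorem rows (hA : QA) {N n : ℕ} {β : ℤ} {w' : Fin n → ℍ → ℂ} (F : Fin n → PowerSeries ℂ)
    {G : Fin n → PowerSeries ℂ} (h : ∀ i, w' i ∈ Mod N ∧ IsQ N (w' i) (sh β (G i))) :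
    Rows N β (∑ i, (F i).toMvPowerSeries 0 * (G i).toMvPowerSeries 1)
      fun m => ∑ i, PowerSeries.coeff m (F i) • w' i := fun m => by
  refine ⟨sum_mem fun i _ => Subalgebra.smul_mem _ (h i).1 _, ?_⟩
  have := isQ_comb hA (fun i => PowerSeries.coeff m (F i)) fun i => (h i).2
  rw [← rowS_ten] at this
  exact this

theorem slice (hA : QA) {N : ℕ} {P : ℍ → ℍ → ℂ} {α β : ℤ} {P' : MM} {e : ℕ → ℍ → ℂ}
    (hP : Exp2 N P α β P') (he : Rows N β P' e) (s : ℍ) :
    IsQ N (fun t => P t s) (sh α (PowerSeries.mk fun m => e m s)) := by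
  obtain ⟨n, w, w', F, G, h, rfl, rfl⟩ := hP
  have e1 : ∀ m, e m = ∑ i, PowerSeries.coeff m (F i) • w' i := fun m =>
    isQ_ext (he m).2 (rows hA F (fun i => ⟨(h i).2.1, (h i).2.2.2⟩) m).2
  have e2 : (PowerSeries.mk fun m => e m s) = ∑ i, w' i s • F i := by
    ext m
    simp [e1, mul_comm]
  have e3 : (fun t => ∑ i, w i t * w' i s) = ∑ i, w' i s • w i := by
    funext t
    simp [mul_comm]
  rw [e2, e3]
  exact isQ_comb hA _ fun i => (h i).2.2.1

theorem gr_prod {ι : Type} (s : Finset ι) {κ : ℝ} {w : ι → ℍ → ℂ} (h : ∀ i, Gr κ (w i)) :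
    Gr (s.card * κ) (∏ i ∈ s, w i) := by
  induction s using Finset.induction_on with
  | empty => simpa [Pi.one_def] using gr_const 1
  | insert a s ha ih =>
    rw [Finset.prod_insert ha, Finset.card_insert_of_notMem ha, Nat.cast_succ, add_mul, one_mul,
      add_comm]
    exact (h a).mul ih

/-- A modular function of level one that decays at the cusp vanishes. -/
theorem level_one (hA : QA) (hB : QB) (hJ : JA) {w : ℍ → ℂ} (hw : w ∈ Mod 1) (hg : Gr (-1) w) :
    w = 0 := by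
  obtain ⟨c, hc⟩ := hB.mod_q one_pos hw
  have h0 : ∀ n : ℤ, n < 1 → c.coeff n = 0 := fun n hn =>
    hA.coeff_of_gr (-1) one_pos hc hg n (by exact_mod_cast (by simpa using hn))
  have t1 := hA.tendsto one_pos hc fun n hn => h0 n (by omega)
  rw [h0 0 one_pos] at t1
  obtain ⟨p, hp⟩ := hJ.poly w hw
  obtain ⟨d, hd, -, d1, d2⟩ := hB.j_q
  obtain ⟨q, hq⟩ : ∃ q : ℍ → ℂ, IsQ 1 q (HahnSeries.single 1 1) := ⟨_, hA.single 1 1⟩
  have t2 := hA.tendsto one_pos hq fun n hn => HahnSeries.coeff_single_of_ne (by omega)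
  rw [HahnSeries.coeff_single_of_ne zero_ne_one] at t2
  have e : ∀ n : ℤ, (HahnSeries.single (1 : ℤ) (1 : ℂ) * d).coeff n = d.coeff (n - 1) := fun n => by
    conv_lhs => rw [← sub_add_cancel n 1, HahnSeries.coeff_single_mul_add, one_mul]
  have t3 := hA.tendsto one_pos (hA.mul one_pos hq hd) fun n hn => by
    rw [e, d2 _ (by omega)]
  rw [e, zero_sub, d1] at t3
  have t4 : Tendsto (fun τ => ∑ k ∈ Finset.range (p.natDegree + 1),
      p.coeff k * (q * jf) τ ^ k * q τ ^ (p.natDegree - k)) atImInfty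
      (nhds (∑ k ∈ Finset.range (p.natDegree + 1), p.coeff k * 1 ^ k * 0 ^ (p.natDegree - k))) :=
    tendsto_finsetSum _ fun k _ => ((t3.pow k).const_mul _).mul (t2.pow _)
  have t5 := ((t2.pow p.natDegree).mul t1).congr (f₂ := fun τ => ∑ k ∈ Finset.range
      (p.natDegree + 1), p.coeff k * (q * jf) τ ^ k * q τ ^ (p.natDegree - k)) fun τ => by
    rw [hp, Polynomial.eval_eq_sum_range, Finset.mul_sum]
    refine Finset.sum_congr rfl fun k hk => ?_
    obtain ⟨l, hl⟩ := Nat.exists_eq_add_of_le (Nat.lt_succ_iff.1 (Finset.mem_range.1 hk))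
    rw [hl, Nat.add_sub_cancel_left, Pi.mul_apply]
    ring
  have e2 := tendsto_nhds_unique t4 t5
  rw [Finset.sum_range_succ, Finset.sum_eq_zero fun k hk => by
    rw [zero_pow (Nat.sub_ne_zero_of_lt (Finset.mem_range.1 hk)), mul_zero]] at e2
  have e3 : p = 0 := Polynomial.leadingCoeff_eq_zero.1 (by simpa using e2)
  funext τ
  rw [hp, e3, Polynomial.eval_zero, Pi.zero_apply]

/-- The bound of Sturm. -/
theorem sturm (hA : QA) (hB : QB) (hJ : JA) {N : ℕ} (hN : 0 < N) (κ : ℝ) : ∃ κ' : ℝ,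
    ∀ w ∈ Mod N, (∀ γ : SL2, Gr κ fun τ => w (γ • τ)) → Gr κ' w → w = 0 := by
  have : NeZero N := ⟨hN.ne'⟩
  have : Fintype (SL2 ⧸ Gam N) := Fintype.ofFinite _
  have := CongruenceSubgroup.Gamma_normal N
  refine ⟨-1 - (Finset.univ.erase (1 : SL2 ⧸ Gam N)).card * κ, fun w hw h1 h2 => ?_⟩
  obtain ⟨u, hu⟩ : ∃ u : SL2 ⧸ Gam N → ℍ → ℂ, ∀ g : SL2, u g = fun τ => w (g • τ) := by
    refine ⟨fun q τ => w (q.out • τ), fun g => funext fun τ => ?_⟩
    obtain ⟨γ, hγ⟩ := QuotientGroup.mk_out_eq_mul (Gam N) g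
    beta_reduce
    rw [hγ, mul_smul]
    exact (comp_SL_mem_Mod hw g).2.1 γ γ.2 τ
  have um : ∀ q, u q ∈ Mod N := fun q => by
    obtain ⟨g, rfl⟩ := QuotientGroup.mk_surjective q
    rw [hu]
    exact comp_SL_mem_Mod hw g
  have ug : ∀ q, Gr κ (u q) := fun q => by
    obtain ⟨g, rfl⟩ := QuotientGroup.mk_surjective q
    rw [hu]
    exact h1 g
  have pm : ∏ q, u q ∈ Mod N := prod_mem fun q _ => um q
  have p1 : ∏ q, u q ∈ Mod 1 := by
    refine ⟨pm.1, fun γ _ τ => ?_, pm.2.2⟩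
    rw [Finset.prod_apply, Finset.prod_apply,
      ← Equiv.prod_comp (Equiv.mulRight (γ : SL2 ⧸ Gam N)) fun q => u q τ]
    refine Finset.prod_congr rfl fun q _ => ?_
    obtain ⟨g, rfl⟩ := QuotientGroup.mk_surjective q
    simp only [Equiv.coe_mulRight, ← QuotientGroup.mk_mul, hu, mul_smul]
  have u1 : u 1 = w := by
    rw [← QuotientGroup.mk_one, hu]
    simp
  have p2 : Gr (-1) (∏ q, u q) := by
    rw [← Finset.mul_prod_erase _ _ (Finset.mem_univ 1), u1]
    simpa using h2.mul (gr_prod (Finset.univ.erase 1) ug)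
  have p3 := level_one hA hB hJ p1 p2
  by_contra h0
  obtain ⟨τ, hτ⟩ := hB.generic Finset.univ u fun q _ => ⟨(um q).1, fun h => h0 (by
    obtain ⟨g, rfl⟩ := QuotientGroup.mk_surjective q
    rw [hu] at h
    funext σ
    simpa using congrFun h (g⁻¹ • σ))⟩
  have := congrFun p3 τ
  rw [Finset.prod_apply] at this
  exact Finset.prod_ne_zero_iff.2 hτ this

/-- Expansions of modular functions of bounded growth. -/
def Sp (hA : QA) (N : ℕ) (β : ℤ) (κ : ℝ) : Submodule ℂ (PowerSeries ℂ) where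
  carrier := {G | ∃ w ∈ Mod N, (∀ γ : SL2, Gr κ fun τ => w (γ • τ)) ∧ IsQ N w (sh β G)}
  add_mem' := by
    rintro F G ⟨a, a1, a2, a3⟩ ⟨b, b1, b2, b3⟩
    exact ⟨a + b, add_mem a1 b1, fun γ => (a2 γ).add (b2 γ), sh_add β F G ▸ hA.add a3 b3⟩
  zero_mem' := ⟨0, zero_mem _, fun γ => isBigO_zero _ _, by simpa [sh] using isQ_zero N⟩
  smul_mem' := by
    rintro z F ⟨a, a1, a2, a3⟩
    exact ⟨z • a, Subalgebra.smul_mem _ a1 z, fun γ => (a2 γ).const_mul_left z,
      sh_smul β z F ▸ hA.smul z a3⟩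

theorem of_rows (hA : QA) (hB : QB) (hJ : JA) (hF : FORM) {N : ℕ} {α β : ℤ} {P' : MM}
    {e e' : ℕ → ℍ → ℂ} (κ : ℝ) (hN : 0 < N) (he : Rows N β P' e) (he' : Rows N α (sw P') e')
    (hg : ∀ m (γ : SL2), Gr κ fun τ => e m (γ • τ)) : ∃ P, Exp2 N P α β P' := by
  obtain ⟨κ', hκ⟩ := sturm hA hB hJ hN κ
  obtain ⟨B, hB'⟩ := exists_nat_ge (-κ' * N + β)
  obtain ⟨r, hr⟩ : ∃ r : Sp hA N β κ →ₗ[ℂ] Fin B → ℂ, ∀ G ν, r G ν = PowerSeries.coeff ν G.1 :=
    ⟨LinearMap.pi fun ν => PowerSeries.coeff (ν : ℕ) ∘ₗ Submodule.subtype _, fun _ _ => rfl⟩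
  have inj : LinearMap.ker r = ⊥ := by
    refine LinearMap.ker_eq_bot'.2 ?_
    rintro ⟨G, w, w1, w2, w3⟩ h0
    have h1 := hκ w w1 w2 (hA.gr_of_coeff κ' hN w3 fun n hn => by
      rcases cases_sh β n with h | ⟨m, rfl⟩
      · exact coeff_sh_lt β G h
      · have hm : m < B := by
          push_cast at hn
          exact_mod_cast (by linarith : (m : ℝ) < B)
        rw [coeff_sh]
        exact (hr _ ⟨m, hm⟩).symm.trans (congrFun h0 _))
    have h2 := hA.unique hN w3 (h1 ▸ isQ_zero N)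
    refine Subtype.ext (PowerSeries.ext fun m => ?_)
    rw [← coeff_sh β, h2]
    rfl
  obtain ⟨s, hs⟩ := r.exists_leftInverse_of_injective inj
  choose w' w1 w2 w3 using fun ν : Fin B => (s (Pi.single ν 1)).2
  have key := exp2_of (fun ν : Fin B => e' ν) w' (fun ν => rowS (sw P') ν)
    (fun ν => (s (Pi.single ν 1)).1) fun ν => ⟨(he' ν).1, w1 ν, (he' ν).2, w3 ν⟩
  refine ⟨_, (congrArg (Exp2 N _ α β) (mm_ext fun m ν => ?_)).mp key⟩
  have h1 := LinearMap.congr_fun hs ⟨rowS P' m, e m, (he m).1, hg m, (he m).2⟩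
  rw [LinearMap.comp_apply, pi_eq_sum_univ' (r _), map_sum] at h1
  have h2 := congrArg (fun G : Sp hA N β κ => PowerSeries.coeff ν G.1) h1
  simpa [hr, rowS, coeff_ten, hF.coeff_sw] using h2

theorem iter (hA : QA) {h : ℕ} (hh : 0 < h) {a : ℍ → ℂ} {β : ℤ} {G : PowerSeries ℂ} (k : ℕ)
    (ha : IsQ h a (sh β G)) : IsQ h (dd^[k] a)
      (sh β (PowerSeries.mk fun ν => (((ν + -β : ℤ) : ℂ) / h) ^ k * PowerSeries.coeff ν G)) := by
  induction k with
  | zero =>
    refine (congrArg (fun H => IsQ h a (sh β H)) ?_).mp ha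
    ext ν
    simp
  | succ k ih =>
    obtain ⟨c, h1, h2⟩ := hA.deriv hh ih
    rw [Function.iterate_succ_apply', ← eq_sh (c := c)
      (fun n hn => by rw [h2, coeff_sh_lt _ _ hn, mul_zero]) fun m => by
        rw [h2, coeff_sh, PowerSeries.coeff_mk, PowerSeries.coeff_mk, pow_succ', mul_assoc]]
    exact h1

theorem diag (hA : QA) {N : ℕ} {P : ℍ → ℍ → ℂ} {α β : ℤ} {P' : MM} (k : ℕ) (hN : 0 < N)
    (hP : Exp2 N P α β P') (ha : AlgM P') : ∃ c, IsQ N (fun t => dd^[k] (P t) t) c ∧ AlgL c := by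
  obtain ⟨n, w, w', F, G, h, rfl, rfl⟩ := hP
  obtain ⟨G', hG'⟩ : ∃ G' : Fin n → PowerSeries ℂ, ∀ i, G' i =
      PowerSeries.mk fun ν => (((ν + -β : ℤ) : ℂ) / N) ^ k * PowerSeries.coeff ν (G i) :=
    ⟨_, fun _ => rfl⟩
  have h1 : ∀ i, IsQ N (dd^[k] (w' i)) (sh β (G' i)) := fun i =>
    hG' i ▸ iter hA hN k (h i).2.2.2
  have e1 : (fun t => dd^[k] (fun s => ∑ i, w i t * w' i s) t) = ∑ i, w i * dd^[k] (w' i) := by
    funext t
    have e2 : (fun s => ∑ i, w i t * w' i s) = ∑ i, w i t • w' i := by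
      funext s
      simp
    have h2 := iter hA hN k (isQ_comb hA (fun i => w i t) fun i => (h i).2.2.2)
    have h3 := isQ_comb hA (fun i => w i t) h1
    have e3 : ∑ i, w i t • G' i = PowerSeries.mk fun ν =>
        (((ν + -β : ℤ) : ℂ) / N) ^ k * PowerSeries.coeff ν (∑ i, w i t • G i) := by
      ext ν
      simp only [hG', map_sum, map_smul, PowerSeries.coeff_mk, smul_eq_mul, Finset.mul_sum,
        mul_left_comm]
    rw [e3] at h3
    rw [e2, isQ_ext h2 h3]
    simp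
  refine ⟨sh (α + β) (∑ i, F i * G' i), ?_, fun m => ?_⟩
  · rw [e1, ← sh_sum]
    exact hA.sum _ _ _ fun i _ => sh_mul _ _ _ _ ▸ hA.mul hN (h i).2.2.1 (h1 i)
  rcases cases_sh (α + β) m with hm | ⟨m, rfl⟩
  · rw [coeff_sh_lt _ _ hm]
    exact isAlgebraic_zero
  have e4 : PowerSeries.coeff m (∑ i, F i * G' i) =
      ∑ p ∈ Finset.HasAntidiagonal.antidiagonal m, (((p.2 + -β : ℤ) : ℂ) / N) ^ k *
        MvPowerSeries.coeff (ex2 p.1 p.2) (∑ i, (F i).toMvPowerSeries 0 * (G i).toMvPowerSeries 1 : MM) := by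
    simp only [map_sum, PowerSeries.coeff_mul, coeff_ten, hG', PowerSeries.coeff_mk,
      Finset.mul_sum]
    rw [Finset.sum_comm]
    simp only [mul_left_comm]
  rw [coeff_sh, e4, ← mem_algebraicClosure_iff]
  exact sum_mem fun p _ => mul_mem (pow_mem (div_mem (intCast_mem _ _) (natCast_mem _ _)) k)
    (mem_algebraicClosure_iff.2 (ha _))

end E2Ax

theorem e2a (hA : QA) (hB : QB) (hJ : JA) (hF : FORM) : E2A where
  mul := E2Ax.mul hA
  prod := E2Ax.prod hA
  swap := E2Ax.swap hF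
  rows := by
    rintro N P α β P' - ⟨n, w, w', F, G, h, -, rfl⟩
    exact ⟨_, E2Ax.rows hA F fun i => ⟨(h i).2.1, (h i).2.2.2⟩⟩
  slice := fun _ hP he => E2Ax.slice hA hP he
  of_rows := fun κ hN he he' hg _ => E2Ax.of_rows hA hB hJ hF κ hN he he' hg
  diag := E2Ax.diag hA

end Pool.Agent.MP_9207e0_ag.hg

end MrgPart4

-- marker of a merged file
example : 731051 + 872283 = 731051 + 872283 := rfl
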