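import Mathlib
import Pool.Agent.MP_9207e0_ag.hg.Spec

-- ======== part 0: formerly Pool.Agent.MP_9207e0_ag.hg.OsFs
section MrgPart0

/-! Modules OS and FS: sums over classes, and elementary facts on forms and pairs. -/

namespace Pool.Agent.MP_9207e0_ag.hg

open UpperHalfPlane Complex Filter Asymptotics Matrix
open scoped Real MatrixGroups Manifold Classical Kronecker

set_option linter.unusedVariables false

namespace OsFs

section Os

variable {X Y V : Type} [AddCommGroup V] {r : X → X → Prop} {r' : Y → Y → Prop}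

theorem rep_eq {S : Set X} {R : Finset X} (hR : IsRep r S R) {x y z : X} (hx : x ∈ S)
    (hy : y ∈ R) (hz : z ∈ R) (h : r x y) (h' : r x z) : y = z :=
  (hR.2 x hx).unique ⟨hy, h⟩ ⟨hz, h'⟩

theorem sum_eq {S : Set X} {R R' : Finset X} {f : X → V} (hr : Equivalence r) (hR : IsRep r S R)
    (hR' : IsRep r S R') (hf : ∀ x ∈ S, ∀ y ∈ S, r x y → f x = f y) :
    ∑ x ∈ R, f x = ∑ x ∈ R', f x := by
  choose φ h1 h2 using fun x (hx : x ∈ R) => (hR'.2 x (hR.1 x hx)).exists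
  refine Finset.sum_bij φ h1 (fun x hx y hy e => ?_) (fun y hy => ?_) fun x hx => ?_
  · exact rep_eq hR (hR.1 x hx) hx hy (hr.refl x)
      (hr.trans (h2 x hx) (hr.symm (e ▸ h2 y hy)))
  · obtain ⟨x, hx, e⟩ := (hR.2 y (hR'.1 y hy)).exists
    exact ⟨x, hx, rep_eq hR' (hR.1 x hx) (h1 x hx) hy (h2 x hx) (hr.symm e)⟩
  · exact hf x (hR.1 x hx) _ (hR'.1 _ (h1 x hx)) (h2 x hx)

theorem exists_rep {S T : Set X} (hr : Equivalence r) (hT : T.Finite)
    (h : ∀ x ∈ S, ∃ y ∈ T, y ∈ S ∧ r x y) : ∃ R, IsRep r S R := by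
  let ρ : X → X := fun y => @Classical.epsilon X ⟨y⟩ fun z => z ∈ S ∧ r y z
  have h1 : ∀ y ∈ S, ρ y ∈ S ∧ r y (ρ y) := fun y hy =>
    Classical.epsilon_spec (p := fun z => z ∈ S ∧ r y z) ⟨y, hy, hr.refl y⟩
  have h2 : ∀ y y', r y y' → ρ y = ρ y' := fun y y' e => by
    have : (fun z => z ∈ S ∧ r y z) = fun z => z ∈ S ∧ r y' z :=
      funext fun z => propext (and_congr_right fun _ =>
        ⟨fun k => hr.trans (hr.symm e) k, fun k => hr.trans e k⟩)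
    simp only [ρ, this]
  refine ⟨(hT.inter_of_left S).toFinset.image ρ, fun x hx => ?_, fun x hx => ?_⟩
  · obtain ⟨y, hy, rfl⟩ := Finset.mem_image.1 hx
    exact (h1 y ((Set.Finite.mem_toFinset _).1 hy).2).1
  · obtain ⟨y, hy, hy', e⟩ := h x hx
    refine ⟨ρ y, ⟨Finset.mem_image_of_mem _ ((Set.Finite.mem_toFinset _).2 ⟨hy, hy'⟩),
      hr.trans e (h1 y hy').2⟩, ?_⟩
    rintro z ⟨hz, e'⟩
    obtain ⟨y', hy2, rfl⟩ := Finset.mem_image.1 hz
    exact h2 _ _ (hr.trans (h1 y' ((Set.Finite.mem_toFinset _).1 hy2).2).2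
      (hr.trans (hr.symm e') e))

theorem transport {S : Set X} {S' : Set Y} {R : Finset X} (φ : X → Y) (hr : Equivalence r)
    (hr' : Equivalence r') (h1 : ∀ x ∈ S, φ x ∈ S') (h2 : ∀ y ∈ S', ∃ x ∈ S, r' y (φ x))
    (h3 : ∀ x ∈ S, ∀ x' ∈ S, r x x' ↔ r' (φ x) (φ x')) (hR : IsRep r S R) :
    IsRep r' S' (R.image φ) ∧ Set.InjOn φ R := by
  refine ⟨⟨fun y hy => ?_, fun y hy => ?_⟩, fun x hx x' hx' e => ?_⟩
  · obtain ⟨x, hx, rfl⟩ := Finset.mem_image.1 hy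
    exact h1 x (hR.1 x hx)
  · obtain ⟨x, hx, e⟩ := h2 y hy
    obtain ⟨x0, hx0, e0⟩ := (hR.2 x hx).exists
    refine ⟨φ x0, ⟨Finset.mem_image_of_mem _ hx0,
      hr'.trans e ((h3 x hx x0 (hR.1 x0 hx0)).1 e0)⟩, ?_⟩
    rintro z ⟨hz, e'⟩
    obtain ⟨x1, hx1, rfl⟩ := Finset.mem_image.1 hz
    rw [rep_eq hR hx hx1 hx0 ((h3 x hx x1 (hR.1 x1 hx1)).2 (hr'.trans (hr'.symm e) e')) e0]
  · exact rep_eq hR (hR.1 x hx) hx hx' (hr.refl x)
      ((h3 x (hR.1 x hx) x' (hR.1 x' hx')).2 (e ▸ hr'.refl _))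

theorem van_transport {S : Set X} {S' : Set Y} (φ : X → Y) (f : Y → V) (hr : Equivalence r)
    (hr' : Equivalence r') (h1 : ∀ x ∈ S, φ x ∈ S') (h2 : ∀ y ∈ S', ∃ x ∈ S, r' y (φ x))
    (h3 : ∀ x ∈ S, ∀ x' ∈ S, r x x' ↔ r' (φ x) (φ x'))
    (hf : ∀ x ∈ S', ∀ y ∈ S', r' x y → f x = f y) :
    Van r S (fun x => f (φ x)) ↔ Van r' S' f := by
  constructor
  · intro h R' hR'
    choose ψ k1 k2 using fun y : R' => h2 y (hR'.1 y y.2)
    obtain ⟨R, hR⟩ := exists_rep (S := S) hr (Set.finite_range ψ) fun x hx => by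
      obtain ⟨y, hy, e⟩ := (hR'.2 _ (h1 x hx)).exists
      exact ⟨ψ ⟨y, hy⟩, ⟨_, rfl⟩, k1 _, (h3 x hx _ (k1 _)).2 (hr'.trans e (k2 ⟨y, hy⟩))⟩
    obtain ⟨t1, t2⟩ := transport φ hr hr' h1 h2 h3 hR
    rw [sum_eq hr' hR' t1 hf, Finset.sum_image t2]
    exact h R hR
  · intro h R hR
    obtain ⟨t1, t2⟩ := transport φ hr hr' h1 h2 h3 hR
    rw [← h _ t1, Finset.sum_image t2]

theorem filter {S S' : Set X} {R : Finset X} (h1 : S' ⊆ S)
    (h2 : ∀ x ∈ S', ∀ y ∈ S, r x y → y ∈ S') (hR : IsRep r S R) :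
    IsRep r S' (R.filter (· ∈ S')) := by
  refine ⟨fun x hx => (Finset.mem_filter.1 hx).2, fun x hx => ?_⟩
  obtain ⟨y, ⟨hy, e⟩, hu⟩ := hR.2 x (h1 hx)
  exact ⟨y, ⟨Finset.mem_filter.2 ⟨hy, h2 x hx y (hR.1 y hy) e⟩, e⟩,
    fun z hz => hu z ⟨(Finset.mem_filter.1 hz.1).1, hz.2⟩⟩

theorem van_of_parts {I : Type} {S : Set X} (f : X → V) (k : X → I)
    (h1 : ∀ x ∈ S, ∀ y ∈ S, r x y → k x = k y) (h2 : ∀ i, Van r {x | x ∈ S ∧ k x = i} f) :
    Van r S f := by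
  intro R hR
  rw [← Finset.sum_fiberwise_of_maps_to (g := k) fun x hx => Finset.mem_image_of_mem k hx]
  refine Finset.sum_eq_zero fun i _ => ?_
  rw [← h2 i _ (filter (S' := {x | x ∈ S ∧ k x = i}) (fun x hx => hx.1)
    (fun x hx y hy e => ⟨hy, (h1 x hx.1 y hy e).symm.trans hx.2⟩) hR)]
  refine Finset.sum_congr ?_ fun _ _ => rfl
  ext x
  simp only [Finset.mem_filter, Set.mem_ofPred_eq]
  exact and_congr_right fun hx => ⟨fun e => ⟨hR.1 x hx, e⟩, fun e => e.2⟩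

theorem van_diff {S S' : Set X} (f : X → V) (hr : Equivalence r) (h1 : S' ⊆ S)
    (h2 : ∀ x ∈ S', ∀ y ∈ S, r x y → y ∈ S') (h3 : ∃ R, IsRep r S R) (h4 : Van r S f)
    (h5 : Van r S' f) : Van r (S \ S') f := by
  intro R2 hR2
  obtain ⟨R, hR⟩ := h3
  obtain ⟨R1, hR1⟩ : ∃ R1, IsRep r S' R1 := ⟨_, filter h1 h2 hR⟩
  have hd : Disjoint R1 R2 := Finset.disjoint_left.2 fun x a b => (hR2.1 x b).2 (hR1.1 x a)
  have hU : IsRep r S (R1 ∪ R2) := by
    refine ⟨fun x hx => ?_, fun x hx => ?_⟩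
    · exact (Finset.mem_union.1 hx).elim (fun a => h1 (hR1.1 x a)) fun b => (hR2.1 x b).1
    · by_cases hs : x ∈ S'
      · obtain ⟨y, ⟨hy, e⟩, hu⟩ := hR1.2 x hs
        refine ⟨y, ⟨Finset.mem_union_left _ hy, e⟩, fun z hz => ?_⟩
        exact (Finset.mem_union.1 hz.1).elim (fun a => hu z ⟨a, hz.2⟩)
          fun b => ((hR2.1 z b).2 (h2 x hs z (hR2.1 z b).1 hz.2)).elim
      · obtain ⟨y, ⟨hy, e⟩, hu⟩ := hR2.2 x ⟨hx, hs⟩
        refine ⟨y, ⟨Finset.mem_union_right _ hy, e⟩, fun z hz => ?_⟩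
        exact (Finset.mem_union.1 hz.1).elim
          (fun a => (hs (h2 z (hR1.1 z a) x hx (hr.symm hz.2))).elim) fun b => hu z ⟨b, hz.2⟩
  have := h4 _ hU
  rwa [Finset.sum_union hd, h5 _ hR1, zero_add] at this

theorem index {H : Type} [Group H] (act : H → X → X) {K L : Subgroup H} {S : Set X}
    {R : Finset X} (h1 : ∀ x, act 1 x = x) (h2 : ∀ g g' x, act (g * g') x = act g (act g' x))
    (hi : K.relIndex L ≠ 0) (h3 : ∀ g ∈ L, ∀ x ∈ S, act g x ∈ S)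
    (h4 : ∀ g ∈ L, ∀ x ∈ S, act g x = x → g = 1) (hKL : K ≤ L)
    (hR : IsRep (fun x y => ∃ g ∈ L, act g x = y) S R) :
    ∃ R', IsRep (fun x y => ∃ g ∈ K, act g x = y) S R' ∧
      ∀ {V : Type} [AddCommGroup V] (f : X → V), (∀ g ∈ L, ∀ x ∈ S, f (act g x) = f x) →
        ∑ x ∈ R', f x = K.relIndex L • ∑ x ∈ R, f x := by
  have : Finite (L ⧸ K.subgroupOf L) := Nat.finite_of_card_ne_zero hi
  have : Fintype (L ⧸ K.subgroupOf L) := Fintype.ofFinite _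
  let e : (L ⧸ K.subgroupOf L) × X → X := fun p => act ((p.1.out⁻¹ : L) : H) p.2
  have eS : ∀ p ∈ Finset.univ ×ˢ R, e p ∈ S := fun p hp =>
    h3 _ (p.1.out⁻¹).2 _ (hR.1 _ (Finset.mem_product.1 hp).2)
  have key : ∀ x ∈ S, ∃! p, p ∈ Finset.univ ×ˢ R ∧ ∃ k ∈ K, act k x = e p := fun x hx => by
    obtain ⟨y, ⟨hy, g, hg, rfl⟩, hu⟩ := hR.2 x hx
    refine ⟨(QuotientGroup.mk ⟨g, hg⟩, act g x), ⟨Finset.mem_product.2 ⟨Finset.mem_univ _, hy⟩,
      _, Subgroup.mem_subgroupOf.1 (QuotientGroup.eq.1 (QuotientGroup.out_eq'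
        (QuotientGroup.mk ⟨g, hg⟩ : L ⧸ K.subgroupOf L))), h2 _ _ _⟩, ?_⟩
    rintro ⟨q, y⟩ ⟨hq, k, hk, ek⟩
    have e1 : act ((q.out : H) * k) x = y := by
      rw [h2, ek, ← h2]
      simp only [Subgroup.coe_inv, mul_inv_cancel, h1]
    have e2 : y = act g x :=
      hu y ⟨(Finset.mem_product.1 hq).2, _, L.mul_mem q.out.2 (hKL hk), e1⟩
    have e3 : g⁻¹ * ((q.out : H) * k) = 1 := by
      refine h4 _ (L.mul_mem (L.inv_mem hg) (L.mul_mem q.out.2 (hKL hk))) x hx ?_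
      rw [h2, e1, e2, ← h2, inv_mul_cancel, h1]
    refine Prod.ext ?_ e2
    rw [← QuotientGroup.out_eq' q]
    refine QuotientGroup.eq.2 (Subgroup.mem_subgroupOf.2 ?_)
    have e4 : g = (q.out : H) * k := inv_mul_eq_one.1 e3
    simpa [e4] using hk
  have inj : Set.InjOn e (Finset.univ ×ˢ R : Finset ((L ⧸ K.subgroupOf L) × X)) :=
    fun p hp p' hp' k =>
      (key _ (eS p hp)).unique ⟨hp, 1, K.one_mem, h1 _⟩ ⟨hp', 1, K.one_mem, (h1 _).trans k⟩
  refine ⟨(Finset.univ ×ˢ R).image e, ⟨fun x hx => ?_, fun x hx => ?_⟩, fun f hf => ?_⟩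
  · obtain ⟨p, hp, rfl⟩ := Finset.mem_image.1 hx
    exact eS p hp
  · obtain ⟨p, ⟨hp, k⟩, hu⟩ := key x hx
    refine ⟨e p, ⟨Finset.mem_image_of_mem _ hp, k⟩, ?_⟩
    rintro z ⟨hz, k'⟩
    obtain ⟨p', hp', rfl⟩ := Finset.mem_image.1 hz
    rw [hu p' ⟨hp', k'⟩]
  · rw [Finset.sum_image inj, Finset.sum_product, Finset.sum_congr rfl fun q _ =>
      Finset.sum_congr rfl fun x hx => hf _ (q.out⁻¹).2 x (hR.1 x hx), Finset.sum_const,
      Finset.card_univ, ← Nat.card_eq_fintype_card]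
    rfl

end Os

/-! ### Congruence subgroups and the action on pairs -/

theorem cmul (g h : SL2) : ((g * h : SL2) : M2) = (g : M2) * h := rfl

theorem cone : ((1 : SL2) : M2) = 1 := rfl

theorem det2 (g : SL2) : (g : M2) 0 0 * (g : M2) 1 1 - (g : M2) 0 1 * (g : M2) 1 0 = 1 := by
  rw [← Matrix.det_fin_two, det_SL]

theorem cast_one_iff (N : ℕ) (a : ℤ) : (a : ZMod N) = 1 ↔ (N : ℤ) ∣ a - 1 := by
  rw [← ZMod.intCast_zmod_eq_zero_iff_dvd, Int.cast_sub, Int.cast_one, sub_eq_zero]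

theorem gam_iff {N : ℕ} {g : SL2} : g ∈ Gam N ↔ (N : ℤ) ∣ (g : M2) 0 0 - 1 ∧
    (N : ℤ) ∣ (g : M2) 0 1 ∧ (N : ℤ) ∣ (g : M2) 1 0 ∧ (N : ℤ) ∣ (g : M2) 1 1 - 1 := by
  rw [CongruenceSubgroup.Gamma_mem, cast_one_iff, cast_one_iff,
    ZMod.intCast_zmod_eq_zero_iff_dvd, ZMod.intCast_zmod_eq_zero_iff_dvd]

theorem gj_iff {j : ℕ} {g : SL2} : g ∈ Gj j ↔ g ∈ Gam 8 ∧ (8 * j : ℤ) ∣ (g : M2) 1 0 := by
  rw [Gj, Subgroup.mem_inf, CongruenceSubgroup.Gamma0_mem, ZMod.intCast_zmod_eq_zero_iff_dvd]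
  push_cast
  rfl

theorem gam_le (j : ℕ) : Gam (8 * j) ≤ Gj j := fun g hg => by
  obtain ⟨h1, h2, h3, h4⟩ := gam_iff.1 hg
  push_cast at h1 h2 h3 h4
  exact gj_iff.2 ⟨gam_iff.2 ⟨dvd_of_mul_right_dvd h1, dvd_of_mul_right_dvd h2,
    dvd_of_mul_right_dvd h3, dvd_of_mul_right_dvd h4⟩, h3⟩

/-- The Moebius relation in linear form. -/
def Lin (A : M2) (τ σ : ℍ) : Prop := (A 0 0 : ℂ) * τ + A 0 1 = σ * ((A 1 0 : ℂ) * τ + A 1 1)

theorem Lin.mul {A B : M2} {ρ τ σ : ℍ} (h1 : Lin A τ σ) (h2 : Lin B ρ τ) : Lin (A * B) ρ σ := by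
  unfold Lin at *
  simp only [Matrix.mul_apply, Fin.sum_univ_two]
  push_cast
  linear_combination ((A 0 0 : ℂ) - σ * A 1 0) * h2 + ((B 1 0 : ℂ) * ρ + B 1 1) * h1

theorem Lin.adj {A : M2} {τ σ : ℍ} (h : Lin A τ σ) : Lin A.adjugate σ τ := by
  unfold Lin at *
  simp only [Matrix.adjugate_fin_two, of_apply, cons_val', cons_val_zero, cons_val_one,
    cons_val_fin_one]
  push_cast
  linear_combination -h

theorem lin_SL (g : SL2) (τ : ℍ) : Lin (g : M2) τ (g • τ) :=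
  (mob_eq_iff (det_SL_pos g) _ _).1 (mob_SL g τ)

theorem lin_ymat (j : ℕ) (b c ρ : ℤ) (τ : ℍ) :
    Lin (ymat j b c ρ) τ τ ↔ ((j : ℂ) * c) * (τ : ℂ) ^ 2 + ρ * τ - b = 0 := by
  unfold Lin ymat
  simp only [of_apply, cons_val', cons_val_zero, cons_val_one, cons_val_fin_one]
  push_cast
  constructor
  · intro h
    linear_combination (-1 / 2 : ℂ) * h
  · intro h
    linear_combination (-2 : ℂ) * h

theorem cact_one (p : M2 × ℍ) : cact 1 p = p := by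
  simp only [cact, inv_one, cone, mul_one, one_mul, one_smul]

theorem cact_mul (g g' : SL2) (p : M2 × ℍ) : cact (g * g') p = cact g (cact g' p) := by
  simp only [cact, _root_.mul_inv_rev, cmul, mul_assoc, mul_smul]

theorem equiv_act {H X : Type} [Group H] (act : H → X → X) (L : Subgroup H)
    (h1 : ∀ x, act 1 x = x) (h2 : ∀ g g' x, act (g * g') x = act g (act g' x)) :
    Equivalence fun x y => ∃ g ∈ L, act g x = y := by
  refine ⟨fun x => ⟨1, L.one_mem, h1 x⟩, ?_, ?_⟩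
  · rintro x y ⟨g, hg, rfl⟩
    exact ⟨g⁻¹, L.inv_mem hg, by rw [← h2, inv_mul_cancel, h1]⟩
  · rintro x y z ⟨g, hg, rfl⟩ ⟨g', hg', rfl⟩
    exact ⟨g' * g, L.mul_mem hg' hg, h2 _ _ _⟩

theorem relC_equiv (L : Subgroup SL2) : Equivalence (relC L) := equiv_act cact L cact_one cact_mul

theorem relG_equiv (N : ℕ) : Equivalence (relG N) :=
  equiv_act (fun (g : SL2) (τ : ℍ) => g • τ) (Gam N) (one_smul _) mul_smul

/-- The action of pairs of unimodular matrices. -/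
noncomputable def mv (h1 h2 : SL2) (p : M2 × M2 × ℍ) : M2 × M2 × ℍ :=
  ((h2 : M2) * p.1 * ((h1⁻¹ : SL2) : M2), (h2 : M2) * p.2.1 * ((h1⁻¹ : SL2) : M2), h1 • p.2.2)

theorem mv_mul (h1 h2 g1 g2 : SL2) (p : M2 × M2 × ℍ) :
    mv h1 h2 (mv g1 g2 p) = mv (h1 * g1) (h2 * g2) p := by
  simp only [mv, _root_.mul_inv_rev, cmul, mul_assoc, mul_smul]

theorem mv_one (p : M2 × M2 × ℍ) : mv 1 1 p = p := by
  simp only [mv, inv_one, cone, mul_one, one_mul, one_smul]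

theorem mul_eq_iff (x y : M2) (g : SL2) : x * (g : M2) = y ↔ x = y * ((g⁻¹ : SL2) : M2) := by
  constructor
  · rintro rfl
    rw [mul_assoc, ← cmul, mul_inv_cancel, cone, mul_one]
  · rintro rfl
    rw [mul_assoc, ← cmul, inv_mul_cancel, cone, mul_one]

theorem relZ_iff {p q : M2 × M2 × ℍ} :
    relZ p q ↔ ∃ g1 ∈ Gam 8, ∃ g2 ∈ Gam 8, q = mv g1 g2 p := by
  simp only [relZ, mul_eq_iff, mv, Prod.ext_iff]

theorem relZ_equiv : Equivalence relZ := by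
  refine ⟨fun p => relZ_iff.2 ⟨1, one_mem _, 1, one_mem _, (mv_one p).symm⟩, fun h => ?_,
    fun h h' => ?_⟩
  · obtain ⟨g1, m1, g2, m2, rfl⟩ := relZ_iff.1 h
    exact relZ_iff.2 ⟨g1⁻¹, inv_mem m1, g2⁻¹, inv_mem m2, by
      rw [mv_mul, inv_mul_cancel, inv_mul_cancel, mv_one]⟩
  · obtain ⟨g1, m1, g2, m2, rfl⟩ := relZ_iff.1 h
    obtain ⟨k1, n1, k2, n2, rfl⟩ := relZ_iff.1 h'
    exact relZ_iff.2 ⟨_, mul_mem n1 m1, _, mul_mem n2 m2, mv_mul _ _ _ _ _⟩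

theorem det_mv (h1 h2 : SL2) (x : M2) : ((h2 : M2) * x * (h1 : M2)).det = x.det := by
  rw [det_mul, det_mul, det_SL, det_SL, one_mul, mul_one]

theorem mob_mv (h1 h2 : SL2) {x : M2} (hx : 0 < x.det) (τ : ℍ) :
    mob ((h2 : M2) * x * ((h1⁻¹ : SL2) : M2)) (h1 • τ) = h2 • mob x τ := by
  rw [mob_mul (by rwa [det_mul, det_SL, one_mul]) (det_SL_pos _), mob_SL, inv_smul_smul,
    mob_mul (det_SL_pos _) hx, mob_SL]

theorem red_mul (x y : M2) : red 8 (x * y) = red 8 x * red 8 y :=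
  Matrix.map_mul (f := Int.castRingHom (ZMod 8))

theorem red_gam {g : SL2} (h : g ∈ Gam 8) : red 8 (g : M2) = 1 := by
  obtain ⟨h1, h2, h3, h4⟩ := CongruenceSubgroup.Gamma_mem.1 h
  ext i k
  fin_cases i <;> fin_cases k <;> simpa [red]

theorem mv_zset {n r j : ℤ} {a b : MN 8} (hj : 0 < j) (hn : 0 < n) {h1 h2 : SL2}
    (m1 : h1 ∈ Gam 8) (m2 : h2 ∈ Gam 8) {p : M2 × M2 × ℍ} (hp : p ∈ ZSet n r j a b) :
    mv h1 h2 p ∈ ZSet n r j a b := by
  obtain ⟨e1, e2, e3, e4, e5, e6⟩ := hp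
  refine ⟨(det_mv _ _ _).trans e1, (det_mv _ _ _).trans e2, ?_, ?_, ?_, ?_⟩
  · simp only [mv, adjugate_mul_distrib]
    rw [mul_assoc, trace_mul_comm, mul_assoc, mul_assoc, mul_assoc, mul_assoc, mul_adjugate,
      det_SL, one_smul, mul_one, ← mul_assoc (adjugate (h2 : M2)), adjugate_mul, det_SL, one_smul,
      one_mul, e3]
  · simp only [mv, red_mul, e4, red_gam m2, red_gam (inv_mem m1), one_mul, mul_one]
  · simp only [mv, red_mul, e5, red_gam m2, red_gam (inv_mem m1), one_mul, mul_one]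
  · simp only [mv]
    rw [mob_mv _ _ (e1 ▸ hj), mob_mv _ _ (e2 ▸ hn), e6]

theorem cm_of_lin (hO : ORB) {D : ℤ} (hD : D < 0) : ∃ T : Finset ℍ, ∀ (W : M2) (τ : ℍ),
    W.trace ^ 2 - 4 * W.det = D → Lin W τ τ → ∃ g ∈ Gam 8, g • τ ∈ T := by
  obtain ⟨T, hT⟩ := hO.fin_cm 8 D (by norm_num) hD
  refine ⟨T, fun W τ h1 h2 => hT τ (W 1 0) (W 1 1 - W 0 0) (-W 0 1) ?_ ?_⟩
  · rw [trace_fin_two, det_fin_two] at h1
    linear_combination h1
  · unfold Lin at h2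
    push_cast
    linear_combination -h2

theorem zset_fin (hO : ORB) (n r j : ℤ) (a b : MN 8) (hj : 0 < j) (h : r ^ 2 < 4 * n * j) :
    ∃ R, IsRep relZ (ZSet n r j a b) R := by
  have hn : 0 < n := by nlinarith [sq_nonneg r]
  obtain ⟨T, hT⟩ := cm_of_lin hO (sub_neg.2 h)
  let A : ℤ → ℍ → ℍ → Set M2 := fun k τ σ => {α | α.det = k ∧ mob α τ = σ}
  have hf : (⋃ τ ∈ (T : Set ℍ), ⋃ σ ∈ (T : Set ℍ), A j τ σ ×ˢ A n τ σ ×ˢ ({τ} : Set ℍ)).Finite :=
    T.finite_toSet.biUnion fun τ _ => T.finite_toSet.biUnion fun σ _ =>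
      (hO.fin_hom j τ σ hj).prod ((hO.fin_hom n τ σ hn).prod (Set.finite_singleton τ))
  refine exists_rep relZ_equiv hf fun p hp => ?_
  obtain ⟨e1, e2, e3, -, -, e6⟩ := id hp
  have p1 : 0 < p.1.det := by rwa [e1]
  have p2 : 0 < p.2.1.det := by rwa [e2]
  have l1 : Lin p.1 p.2.2 (mob p.1 p.2.2) := (mob_eq_iff p1 _ _).1 rfl
  have l2 : Lin p.2.1 p.2.2 (mob p.1 p.2.2) := (mob_eq_iff p2 _ _).1 e6.symm
  have d : p.1.adjugate.det = j := by
    rw [Matrix.det_adjugate, e1]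
    simp
  obtain ⟨g1, m1, t1⟩ := hT (p.1.adjugate * p.2.1) _ (by rw [e3, det_mul, d, e2]; ring)
    (l1.adj.mul l2)
  obtain ⟨g2, m2, t2⟩ := hT (p.2.1 * p.1.adjugate) _
    (by rw [trace_mul_comm, e3, det_mul, d, e2]; ring) (l2.mul l1.adj)
  have hq := mv_zset hj hn m1 m2 hp
  have q1 : (mv g1 g2 p).1 ∈ A j (g1 • p.2.2) (g2 • mob p.1 p.2.2) := ⟨hq.1, mob_mv _ _ p1 _⟩
  have q2 : (mv g1 g2 p).2.1 ∈ A n (g1 • p.2.2) (g2 • mob p.1 p.2.2) :=
    ⟨hq.2.1, (mob_mv _ _ p2 _).trans (by rw [e6])⟩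
  exact ⟨mv g1 g2 p, Set.mem_iUnion₂.2 ⟨_, t1, Set.mem_iUnion₂.2 ⟨_, t2, q1, q2, rfl⟩⟩, hq,
    relZ_iff.2 ⟨g1, m1, g2, m2, rfl⟩⟩

/-! ### Forms -/

theorem cls_eq {j : ℕ} {b c ρ b' c' ρ' : ℤ} (h1 : 8 ∣ b - b') (h2 : 8 ∣ c - c')
    (h3 : (16 * j : ℤ) ∣ ρ - ρ') : cls j b' c' ρ' = cls j b c ρ := by
  refine Prod.ext ?_ (Prod.ext ?_ ?_)
  · exact (ZMod.intCast_eq_intCast_iff_dvd_sub _ _ 8).2 h1
  · exact (ZMod.intCast_eq_intCast_iff_dvd_sub _ _ 8).2 h2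
  · exact (ZMod.intCast_eq_intCast_iff_dvd_sub _ _ (16 * j)).2 (by exact_mod_cast h3)

theorem fset_inv (j : ℕ) (D : ℤ) (v : Cls j) (g : SL2) (hg : g ∈ Gj j) (p : M2 × ℍ)
    (hp : p ∈ FSet j D v) : cact g p ∈ FSet j D v := by
  obtain ⟨b, c, ρ, e1, e2, e3, e4⟩ := hp
  obtain ⟨hg8, t, ht⟩ := gj_iff.1 hg
  obtain ⟨⟨u, hu⟩, ⟨w, hw⟩, -, ⟨z, hz⟩⟩ := gam_iff.1 hg8
  have hd := det2 g
  push_cast at hu hw hz
  obtain ⟨P, hP⟩ : ∃ P, P = (g : M2) 0 0 := ⟨_, rfl⟩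
  obtain ⟨S, hS⟩ : ∃ S, S = (g : M2) 1 1 := ⟨_, rfl⟩
  have eg : (g : M2) = !![P, 8 * w; 8 * j * t, S] := by
    rw [hP, hS, ← hw, ← ht]
    exact Matrix.eta_fin_two _
  rw [← hP] at hu hd
  rw [← hS] at hz hd
  rw [hw, ht] at hd
  have em : (cact g p).1 = ymat j (P * (8 * w) * ρ - j * c * (8 * w) ^ 2 + b * P ^ 2)
      (c * S ^ 2 - 8 * t * S * ρ - 8 * b * (8 * j * t) * t)
      (ρ * (P * S + 8 * w * (8 * j * t)) - 2 * j * c * (8 * w) * S + 2 * b * P * (8 * j * t)) := by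
    simp only [cact, e1, Matrix.SpecialLinearGroup.coe_inv, eg, ymat, adjugate_fin_two_of,
      mul_fin_two]
    ext i k
    fin_cases i <;> fin_cases k <;> simp <;> ring
  refine ⟨_, _, _, em, ?_, ?_, ?_⟩
  · rw [← e2]
    linear_combination (ρ ^ 2 + 4 * j * b * c) * (P * S - 8 * w * (8 * j * t) + 1) * hd
  · rw [← e3]
    refine cls_eq ⟨-(P * w * ρ) + j * c * 8 * w ^ 2 - b * u * (P + 1), ?_⟩
      ⟨-(c * z * (S + 1)) + t * S * ρ + b * (8 * j * t) * t, ?_⟩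
      ⟨-(8 * w * t * ρ) + c * w * S - b * P * t, ?_⟩
    · linear_combination (-b * (P + 1)) * hu
    · linear_combination (-c * (S + 1)) * hz
    · linear_combination (-ρ) * hd
  · rw [← lin_ymat, ← em]
    rw [← lin_ymat, ← e1] at e4
    refine ((lin_SL g p.2).mul e4).mul ?_
    simpa only [cact, inv_smul_smul] using lin_SL g⁻¹ (g • p.2)

theorem ymat_form (j : ℕ) (b c ρ : ℤ) : ymat j b c ρ = !![-ρ, -2 * -b; 2 * (j * c), ρ] := by
  simp [ymat, mul_assoc]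

theorem fset_form {j : ℕ} {D : ℤ} {v : Cls j} {p : M2 × ℍ} (hp : p ∈ FSet j D v) :
    ∃ A B C : ℤ, B ^ 2 - 4 * A * C = D ∧ (A : ℂ) * (p.2 : ℂ) ^ 2 + B * p.2 + C = 0 ∧
      p.1 = !![-B, -2 * C; 2 * A, B] := by
  obtain ⟨b, c, ρ, e1, e2, -, e4⟩ := hp
  refine ⟨j * c, ρ, -b, by linear_combination e2, ?_, e1.trans (ymat_form j b c ρ)⟩
  push_cast
  linear_combination e4

theorem fin_pt (hO : ORB) (j : ℕ) (D : ℤ) (v : Cls j) (τ : ℍ) :
    {p | p ∈ FSet j D v ∧ p.2 = τ}.Finite := by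
  refine ((hO.fin_form D τ).image fun q : ℤ × ℤ × ℤ =>
    ((!![-q.2.1, -2 * q.2.2; 2 * q.1, q.2.1] : M2), τ)).subset ?_
  rintro p ⟨hp, rfl⟩
  obtain ⟨A, B, C, h1, h2, h3⟩ := fset_form hp
  exact ⟨(A, B, C), ⟨h1, h2⟩, Prod.ext h3.symm rfl⟩

theorem fset_fin (hO : ORB) (j : ℕ) (D : ℤ) (v : Cls j) (hj : 0 < j) (hD : D < 0) :
    ∃ R, IsRep (relC (Gj j)) (FSet j D v) R := by
  obtain ⟨T, hT⟩ := hO.fin_cm (8 * j) D (by omega) hD
  refine exists_rep (relC_equiv _) (T.finite_toSet.biUnion fun τ _ => fin_pt hO j D v τ)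
    fun p hp => ?_
  obtain ⟨A, B, C, h1, h2, -⟩ := fset_form hp
  obtain ⟨g, hg, ht⟩ := hT p.2 A B C h1 h2
  have hm := fset_inv j D v g (gam_le j hg) p hp
  exact ⟨cact g p, Set.mem_iUnion₂.2 ⟨g • p.2, ht, hm, rfl⟩, hm, g, gam_le j hg, rfl⟩

theorem gj_conj (j : ℕ) (g : SL2) (hg : g ∈ Gj j) :
    ∃ g' ∈ Gam 8, dg j 1 * (g : M2) = g' * dg j 1 := by
  obtain ⟨hg8, t, ht⟩ := gj_iff.1 hg
  obtain ⟨h1, h2, -, h4⟩ := gam_iff.1 hg8
  have hd := det2 g
  refine ⟨⟨!![(g : M2) 0 0, j * (g : M2) 0 1; 8 * t, (g : M2) 1 1], ?_⟩,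
    gam_iff.2 ⟨h1, h2.mul_left _, ⟨t, rfl⟩, h4⟩, ?_⟩
  · rw [det_fin_two_of]
    linear_combination hd + (g : M2) 0 1 * ht
  · ext i k
    fin_cases i <;> fin_cases k <;> simp [dg, Matrix.mul_apply, Fin.sum_univ_two, ht] <;> ring

theorem gj_of_conj (j : ℕ) (g : SL2) (hg : g ∈ Gam 8) (g' : SL2) (hg' : g' ∈ Gam 8)
    (e : dg j 1 * (g : M2) = g' * dg j 1) : g ∈ Gj j := by
  refine gj_iff.2 ⟨hg, ?_⟩
  have h := congrFun (congrFun e 1) 0
  simp [dg, Matrix.mul_apply, Fin.sum_univ_two] at h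
  rw [h]
  exact mul_dvd_mul_right (gam_iff.1 hg').2.2.1 _

theorem neg_mem_fset {j : ℕ} {D : ℤ} {v : Cls j} {p : M2 × ℍ} (hp : p ∈ FSet j D v) :
    (-p.1, p.2) ∈ FSet j D (-v) := by
  obtain ⟨b, c, ρ, e1, e2, e3, e4⟩ := hp
  refine ⟨-b, -c, -ρ, ?_, by linear_combination e2, ?_, ?_⟩
  · simp [e1, ymat]
  · simp [← e3, cls]
  · push_cast
    linear_combination -e4

theorem fset_neg (j : ℕ) (D : ℤ) (v : Cls j) (R : Finset (M2 × ℍ))
    (hR : IsRep (relC (Gj j)) (FSet j D v) R) :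
    IsRep (relC (Gj j)) (FSet j D (-v)) (R.image fun p => (-p.1, p.2)) := by
  have h := (transport (fun p : M2 × ℍ => (-p.1, p.2)) (relC_equiv (Gj j)) (relC_equiv (Gj j))
    (S' := FSet j D (-v)) (fun p hp => neg_mem_fset hp)
    (fun q hq => ⟨(-q.1, q.2), by simpa only [neg_neg] using neg_mem_fset hq,
      by simpa only [neg_neg] using (relC_equiv (Gj j)).refl q⟩)
    (fun p _ q _ => by
      simp only [relC, cact, Prod.ext_iff, Matrix.mul_neg, Matrix.neg_mul, neg_inj]) hR).1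
  simpa only [IsRep, Finset.mem_image] using h

end OsFs

theorem os : OS where
  sum_eq := OsFs.sum_eq
  exists_rep := OsFs.exists_rep
  transport := OsFs.transport
  van_transport := OsFs.van_transport
  filter := OsFs.filter
  van_of_parts := OsFs.van_of_parts
  van_diff := OsFs.van_diff
  index := fun act _ _ _ _ h1 h2 hKL hi h3 h4 hR => OsFs.index act h1 h2 hi h3 h4 hKL hR

theorem fs (hS : OS) (hO : ORB) : FS where
  cact_one := OsFs.cact_one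
  cact_mul := OsFs.cact_mul
  relC_equiv := OsFs.relC_equiv
  relG_equiv := OsFs.relG_equiv
  relZ_equiv := OsFs.relZ_equiv
  fset_inv := fun j D v _ => OsFs.fset_inv j D v
  fset_fin := OsFs.fset_fin hO
  gj_conj := fun j _ => OsFs.gj_conj j
  gj_of_conj := fun j _ => OsFs.gj_of_conj j
  zset_inv := fun _ _ _ _ _ hj hn _ hp _ h => by
    obtain ⟨g1, m1, g2, m2, rfl⟩ := OsFs.relZ_iff.1 h
    exact OsFs.mv_zset hj hn m1 m2 hp
  zset_fin := OsFs.zset_fin hO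
  fset_neg := OsFs.fset_neg

end Pool.Agent.MP_9207e0_ag.hg

end MrgPart0

-- ======== part 1: formerly Pool.Agent.MP_9207e0_ag.hg.JB
section MrgPart1

/-! Module JB: the invariant `j` separates orbits, and its orders of vanishing. -/

set_option linter.unusedSectionVars false
set_option linter.unusedVariables false

namespace Pool.Agent.MP_9207e0_ag.hg

open UpperHalfPlane Complex Filter Asymptotics Matrix
open scoped Real MatrixGroups Manifold Classical Kronecker Topology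

namespace JBm

instance ccs : ContinuousConstSMul SL2 ℍ where
  continuous_const_smul γ := continuous_const_smul (γ : GL (Fin 2) ℝ)

instance pd : ProperlyDiscontinuousSMul SL2 ℍ where
  finite_disjoint_inter_image {K L} hK hL := by
    have h := (Subgroup.properlyDiscontinuousSMul_iff _).mp properlyDiscontinuousSL2ZRange hK hL
    refine Set.Finite.of_finite_image (f := fun γ : SL2 => (γ : GL (Fin 2) ℝ)) (h.subset ?_) ?_
    · rintro _ ⟨γ, hγ, rfl⟩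
      exact ⟨⟨γ, rfl⟩, hγ⟩
    · intro a _ b _ hab
      ext i k
      have := congrArg (fun g : GL (Fin 2) ℝ => g i k) hab
      simpa using this

lemma closed_rel : IsClosed {p : ℍ × ℍ | ∃ γ : SL2, γ • p.1 = p.2} := by
  have hc := (MulAction.isOpenQuotientMap_quotientMk (Γ := SL2) (T := ℍ)).continuous
  have h : IsClosed {p : ℍ × ℍ | Quotient.mk (MulAction.orbitRel SL2 ℍ) p.2 =
      Quotient.mk (MulAction.orbitRel SL2 ℍ) p.1} :=
    isClosed_eq (hc.comp continuous_snd) (hc.comp continuous_fst)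
  convert h using 3 with p
  rw [Quotient.eq]
  rfl

lemma ev_coe {τ : ℍ} {P : ℂ → Prop} : (∀ᶠ z in 𝓝 (τ : ℂ), P z) ↔ ∀ᶠ σ : ℍ in 𝓝 τ, P σ := by
  rw [← isOpenEmbedding_coe.map_nhds_eq, eventually_map]

lemma map_of (w : ℍ → ℂ) (τ : ℍ) : map (w ∘ ofComplex) (𝓝 (τ : ℂ)) = map w (𝓝 τ) := by
  rw [← isOpenEmbedding_coe.map_nhds_eq, Filter.map_map]
  congr 1
  ext σ
  simp

lemma neBot (τ : ℍ) : (𝓝[≠] τ).NeBot := by
  have h : map ((↑) : ℍ → ℂ) (𝓝[≠] τ) = 𝓝[≠] (τ : ℂ) := by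
    rw [← isOpenEmbedding_coe.map_nhdsWithin_preimage_eq]
    congr 2
    ext σ
    simp
  have h2 : (map ((↑) : ℍ → ℂ) (𝓝[≠] τ)).NeBot := by
    rw [h]
    infer_instance
  exact (map_neBot_iff _).mp h2

lemma hol_sub {w : ℍ → ℂ} (hw : Hol w) (c : ℂ) : Hol fun σ => w σ - c :=
  hw.sub mdifferentiable_const

lemma sub_ne {w : ℍ → ℂ} (hs : Function.Surjective w) (c : ℂ) : (fun σ => w σ - c) ≠ 0 := by
  intro h
  obtain ⟨σ, hσ⟩ := hs (c + 1)
  have := congrFun h σ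
  simp [hσ] at this

lemma open_map {w : ℍ → ℂ} (hw : Hol w) (hs : Function.Surjective w) (τ : ℍ) :
    𝓝 (w τ) ≤ map w (𝓝 τ) := by
  rcases (hol_iff.mp hw τ).eventually_constant_or_nhds_le_map_nhds with h | h
  · refine absurd ((hol_sub hw (w τ)).eq_zero_of_eventually (τ := τ) ?_) (sub_ne hs _)
    filter_upwards [h] with z hz
    simpa [sub_eq_zero] using hz
  · rw [map_of] at h
    simpa using h

lemma crit_countable {w : ℍ → ℂ} (hw : Hol w) (hs : Function.Surjective w) :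
    {τ : ℍ | deriv (w ∘ ofComplex) τ = 0}.Countable := by
  refine (HereditarilyLindelofSpace.isLindelof _).countable_of_isDiscrete ?_
  rw [isDiscrete_iff_nhdsNE]
  intro τ _
  have ha := hol_iff.mp hw τ
  rcases ha.deriv.eventually_eq_zero_or_eventually_ne_zero with h | h
  · exfalso
    have h1 := ha.analyticOrderAt_deriv_add_one
    rw [analyticOrderAt_eq_top.mpr h] at h1
    refine ordE_ne_top (hol_sub hw (w τ)) (sub_ne hs _) τ ?_
    rw [ordE]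
    refine Eq.trans ?_ h1.symm
    congr 1
    ext z
    simp
  · rw [inf_principal_eq_bot]
    rw [eventually_nhdsWithin_iff, ev_coe] at h
    refine eventually_nhdsWithin_iff.mpr (h.mono fun σ hσ hne => hσ ?_)
    simpa using hne

lemma loc_inj {f : ℂ → ℂ} {a : ℂ} (hf : AnalyticAt ℂ f a) (h : deriv f a ≠ 0) :
    ∃ V ∈ 𝓝 a, Set.InjOn f V := by
  have h1 := hf.contDiffAt.hasStrictDerivAt (n := 1) one_ne_zero
  refine ⟨_, h1.eventually_left_inverse h, fun x hx y hy e => ?_⟩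
  rw [← hx.out, ← hy.out, e]

lemma cusp : ∃ F : ℂ → ℂ, AnalyticAt ℂ F 0 ∧ F 0 = 0 ∧ deriv F 0 ≠ 0 ∧
    ∀ τ : ℍ, (jf τ)⁻¹ = F (Function.Periodic.qParam 1 τ) := by
  have hD := ModularFormClass.analyticAt_cuspFunction_zero CuspForm.discriminant one_pos
    one_mem_strictPeriods_SL
  have hE := ModularFormClass.analyticAt_cuspFunction_zero ModularForm.E₄ one_pos
    one_mem_strictPeriods_SL
  have hD0 : cuspFunction 1 CuspForm.discriminant 0 = 0 := by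
    simpa using ModularForm.discriminant_cuspFunction_eqOn (Metric.mem_ball_self one_pos)
  have hD1 : deriv (cuspFunction 1 CuspForm.discriminant) 0 = 1 := by
    simpa [qExpansion_coeff] using ModularForm.discriminant_qExpansion_coeff_one
  have hE0 : cuspFunction 1 ModularForm.E₄ 0 = 1 := by
    simpa [qExpansion_coeff] using
      EisensteinSeries.E_qExpansion_coeff_zero (by norm_num : 3 ≤ 4) (by decide)
  have hE3 : cuspFunction 1 ModularForm.E₄ 0 ^ 3 ≠ 0 := by simp [hE0]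
  refine ⟨fun q => cuspFunction 1 CuspForm.discriminant q / cuspFunction 1 ModularForm.E₄ q ^ 3,
    hD.div (hE.pow 3) hE3, by simp only [hD0, zero_div], ?_, fun τ => ?_⟩
  · have := (hD.differentiableAt.hasDerivAt.div ((hE.differentiableAt.hasDerivAt).pow 3) hE3).deriv
    refine ne_of_eq_of_ne this ?_
    simp only [hD0, hD1, Pi.pow_apply, hE0]
    norm_num
  · simp only [SlashInvariantFormClass.eq_cuspFunction _ τ one_mem_strictPeriods_SL one_ne_zero,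
      jf, inv_div]
    rfl

lemma cusp_inj : ∃ Y : ℝ, ∀ τ σ : ℍ, Y ≤ τ.im → Y ≤ σ.im → jf τ = jf σ → ∃ γ : SL2, γ • τ = σ := by
  obtain ⟨F, hF, -, h1, h2⟩ := cusp
  obtain ⟨V, hV, hi⟩ := loc_inj hF h1
  obtain ⟨Y, hY⟩ := (atImInfty_mem _).mp (qParam_tendsto_atImInfty one_pos hV)
  refine ⟨Y, fun τ σ hτ hσ e => ?_⟩
  have e2 : Function.Periodic.qParam 1 (τ : ℂ) = Function.Periodic.qParam 1 (σ : ℂ) :=
    hi (hY τ hτ) (hY σ hσ) (by rw [← h2, ← h2, e])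
  obtain ⟨m, hm⟩ := Function.Periodic.qParam_left_inv_mod_period one_ne_zero (τ : ℂ)
  obtain ⟨n, hn⟩ := Function.Periodic.qParam_left_inv_mod_period one_ne_zero (σ : ℂ)
  refine ⟨ModularGroup.T ^ (m - n), UpperHalfPlane.ext ?_⟩
  rw [ModularGroup.coe_T_zpow_smul_eq]
  rw [e2, hn] at hm
  push_cast at hm ⊢
  linear_combination -hm

lemma cusp_big (R : ℝ) : ∃ Y : ℝ, ∀ τ : ℍ, Y ≤ τ.im → R < ‖jf τ‖ := by
  obtain ⟨F, hF, h0, h1, h2⟩ := cusp
  have h3 : ∀ᶠ q in 𝓝[≠] (0 : ℂ), F q ≠ 0 := by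
    rcases hF.eventually_eq_zero_or_eventually_ne_zero with h | h
    · exact absurd (by rw [EventuallyEq.deriv_eq h]; simp) h1
    · exact h
  have h4 : Tendsto (fun τ : ℍ => Function.Periodic.qParam 1 (τ : ℂ)) atImInfty (𝓝[≠] 0) :=
    (Function.Periodic.qParam_tendsto one_pos).comp tendsto_coe_atImInfty
  have h5 : Tendsto F (𝓝[≠] 0) (𝓝[≠] 0) :=
    tendsto_nhdsWithin_iff.mpr ⟨(h0 ▸ hF.continuousAt.tendsto).mono_left nhdsWithin_le_nhds, h3⟩
  have h6 := (tendsto_norm_inv_nhdsNE_zero_atTop.comp (h5.comp h4)).eventually_gt_atTop R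
  obtain ⟨Y, hY⟩ := (atImInfty_mem _).mp h6
  refine ⟨Y, fun τ hτ => ?_⟩
  have := hY τ hτ
  simpa [← h2] using this

attribute [local irreducible] jf

/-- Values with two inequivalent preimages. -/
def UU : Set ℂ := {c | ∃ τ σ : ℍ, jf τ = c ∧ jf σ = c ∧ ¬ ∃ γ : SL2, γ • τ = σ}

section Inj

variable (hh : Hol jf) (hs : Function.Surjective jf) (hi : ∀ (γ : SL2) τ, jf (γ • τ) = jf τ)

include hh hs in
lemma UU_open : IsOpen UU := by
  rw [isOpen_iff_mem_nhds]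
  rintro c ⟨τ, σ, h1, h2, h3⟩
  obtain ⟨V, hV, W, hW, hVW⟩ := mem_nhds_prod_iff.mp
    (closed_rel.isOpen_compl.mem_nhds (x := (τ, σ)) h3)
  have e1 : jf '' V ∈ 𝓝 c := h1 ▸ open_map hh hs τ (image_mem_map hV)
  have e2 : jf '' W ∈ 𝓝 c := h2 ▸ open_map hh hs σ (image_mem_map hW)
  filter_upwards [e1, e2]
  rintro c' ⟨a, ha, rfl⟩ ⟨b, hb, e⟩
  exact ⟨a, b, rfl, e, hVW (Set.mk_mem_prod ha hb)⟩

include hi in
lemma UU_fd {c : ℂ} (hc : c ∈ UU) : ∃ τ ∈ ModularGroup.fd, ∃ σ ∈ ModularGroup.fd,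
    jf τ = c ∧ jf σ = c ∧ ¬ ∃ γ : SL2, γ • τ = σ := by
  obtain ⟨τ, σ, h1, h2, h3⟩ := hc
  obtain ⟨g, hg⟩ := ModularGroup.exists_smul_mem_fd τ
  obtain ⟨g', hg'⟩ := ModularGroup.exists_smul_mem_fd σ
  refine ⟨_, hg, _, hg', by rw [hi, h1], by rw [hi, h2], fun ⟨γ, hγ⟩ => h3 ⟨g'⁻¹ * γ * g, ?_⟩⟩
  rw [mul_smul, mul_smul, hγ, inv_smul_smul]

include hh hi in
lemma UU_bdd : ∃ R : ℝ, ∀ c ∈ UU, ‖c‖ ≤ R := by
  obtain ⟨Y, hY⟩ := cusp_inj
  obtain ⟨R, hR⟩ := (ModularGroup.isCompact_truncatedFundamentalDomain Y).exists_bound_of_continuousOn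
    hh.continuous.continuousOn
  refine ⟨R, fun c hc => ?_⟩
  obtain ⟨τ, hτ, σ, hσ, h1, h2, h3⟩ := UU_fd hi hc
  by_cases a : τ.im ≤ Y
  · exact h1 ▸ hR τ ⟨hτ, a⟩
  by_cases b : σ.im ≤ Y
  · exact h2 ▸ hR σ ⟨hσ, b⟩
  exact absurd (hY τ σ (not_le.mp a).le (not_le.mp b).le (h1.trans h2.symm)) h3

include hh hi in
lemma UU_closure {c : ℂ} (hc : c ∈ closure UU)
    (hK : ∀ τ : ℍ, jf τ = c → deriv (jf ∘ ofComplex) τ ≠ 0) : c ∈ UU := by
  obtain ⟨R, hR⟩ := UU_bdd hh hi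
  obtain ⟨Y, hY⟩ := cusp_big R
  set K := ModularGroup.truncatedFundamentalDomain Y
  have hKc : IsCompact (K ×ˢ K) := (ModularGroup.isCompact_truncatedFundamentalDomain Y).prod
    (ModularGroup.isCompact_truncatedFundamentalDomain Y)
  set P : Set (ℍ × ℍ) := {p | p ∈ K ×ˢ K ∧ jf p.1 = jf p.2 ∧ ¬ ∃ γ : SL2, γ • p.1 = p.2}
  have h1 : UU ⊆ (fun p : ℍ × ℍ => jf p.1) '' P := by
    intro c' hc'
    obtain ⟨τ, hτ, σ, hσ, h1, h2, h3⟩ := UU_fd hi hc'
    have a : ∀ t : ℍ, jf t = c' → t.im ≤ Y := fun t ht =>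
      le_of_not_ge fun h => (hR c' hc').not_gt (ht ▸ hY t h)
    exact ⟨(τ, σ), ⟨⟨⟨hτ, a τ h1⟩, ⟨hσ, a σ h2⟩⟩, h1.trans h2.symm, h3⟩, h1⟩
  have h2 : IsCompact (closure P) := hKc.closure_of_subset fun p hp => hp.1
  have hcont : Continuous fun p : ℍ × ℍ => jf p.1 := hh.continuous.comp continuous_fst
  have h3 : c ∈ (fun p : ℍ × ℍ => jf p.1) '' closure P :=
    closure_minimal (h1.trans (Set.image_mono subset_closure)) (h2.image hcont).isClosed hc
  obtain ⟨⟨τ, σ⟩, hp, e⟩ := h3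
  replace e : jf τ = c := e
  have hcont2 : Continuous fun p : ℍ × ℍ => jf p.2 := hh.continuous.comp continuous_snd
  have hsub : closure P ⊆ {p : ℍ × ℍ | jf p.1 = jf p.2} :=
    closure_minimal (fun p hp => hp.2.1) (isClosed_eq hcont hcont2)
  have e2 : jf τ = jf σ := hsub hp
  refine ⟨τ, σ, e, e2.symm.trans e, ?_⟩
  rintro ⟨γ, rfl⟩
  obtain ⟨V, hV, hVi⟩ := loc_inj (hol_iff.mp hh τ) (hK τ e)
  have hV' : ∀ᶠ a : ℍ in 𝓝 τ, (a : ℂ) ∈ V := ev_coe.mp hV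
  have hV2 : ∀ᶠ b : ℍ in 𝓝 (γ • τ), ((γ⁻¹ • b : ℍ) : ℂ) ∈ V := by
    have := (continuous_const_smul γ⁻¹).tendsto (γ • τ)
    rw [inv_smul_smul] at this
    exact this.eventually hV'
  obtain ⟨⟨a, b⟩, ⟨ha, hb⟩, -, h4, h5⟩ := mem_closure_iff_nhds.mp hp _ (prod_mem_nhds hV' hV2)
  replace h4 : jf a = jf b := h4
  replace ha : (a : ℂ) ∈ V := ha
  replace hb : ((γ⁻¹ • b : ℍ) : ℂ) ∈ V := hb
  refine h5 ⟨γ, (?_ : γ • a = b)⟩
  have : (a : ℂ) = (γ⁻¹ • b : ℍ) := hVi ha hb (by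
    rw [comp_ofComplex, comp_ofComplex, hi, h4])
  rw [UpperHalfPlane.ext this, smul_inv_smul]

include hh hs hi in
lemma inj (τ σ : ℍ) (e : jf τ = jf σ) : ∃ γ : SL2, γ • τ = σ := by
  by_contra h
  have hK := (crit_countable hh hs).image jf
  have hd := hK.dense_compl ℂ
  have hc := (hK.isConnected_compl_of_one_lt_rank (by simp)).isPreconnected
  have ho := UU_open hh hs
  have h1 := hc.subset_of_closure_inter_subset ho
    (by simpa [Set.inter_comm] using hd.inter_open_nonempty _ ho ⟨_, τ, σ, e, rfl, h⟩)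
    (fun c hc => UU_closure hh hi hc.1 fun t ht h0 => hc.2 ⟨t, h0, ht⟩)
  obtain ⟨R, hR⟩ := UU_bdd hh hi
  obtain ⟨c, hc1, hc2⟩ := hd.inter_open_nonempty {c : ℂ | R < ‖c‖}
    (isOpen_lt continuous_const continuous_norm) (NormedSpace.exists_lt_norm ℂ ℂ R)
  exact (hR c (h1 hc2)).not_gt hc1

end Inj

/-- The automorphy factor. -/
noncomputable def autf (x : M2) (z : ℂ) : ℂ := (x 1 0 : ℂ) * z + x 1 1

lemma indep {a b : ℝ} {τ : ℍ} (h : (a : ℂ) * τ + b = 0) : a = 0 ∧ b = 0 := by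
  have := quad_disc (a := 0) (b := a) (c := b) (τ := τ) (by simpa using h)
  simpa using this

lemma tendsto_mob {x : M2} (h : 0 < x.det) {τ : ℍ} (hx : mob x τ = τ) :
    Tendsto (mob x) (𝓝 τ) (𝓝 τ) := by
  rw [isEmbedding_coe.tendsto_nhds_iff]
  have h1 := (analyticAt_mob h τ).continuousAt.tendsto.comp (continuous_coe.tendsto τ)
  simp only [ofComplex_apply, hx] at h1
  exact h1.congr fun σ => by simp

lemma mob_sub {x : M2} (h : 0 < x.det) {τ : ℍ} (hx : mob x τ = τ) (σ : ℍ) :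
    (mob x σ : ℂ) - τ = (σ - τ) * (x.det / (autf x σ * autf x τ)) := by
  have h1 := den_ne h σ
  have h2 := den_ne h τ
  have e : (mob x σ : ℂ) - mob x τ = (σ - τ) * (x.det / (autf x σ * autf x τ)) := by
    rw [coe_mob h, coe_mob h, Matrix.det_fin_two, autf, autf, div_sub_div _ _ h1 h2, ← mul_div_assoc]
    congr 1
    push_cast
    ring
  rwa [hx] at e

lemma analyticAt_nu {x : M2} (h : 0 < x.det) (τ : ℍ) :
    AnalyticAt ℂ (fun z : ℂ => (x.det : ℂ) / (autf x z * autf x τ)) τ := by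
  refine analyticAt_const.div ?_ (mul_ne_zero (den_ne h τ) (den_ne h τ))
  unfold autf
  fun_prop

lemma ordE_eq {w : ℍ → ℂ} (hw : Hol w) {τ : ℍ} {m : ℕ} : ordE w τ = m ↔
    ∃ h : ℂ → ℂ, AnalyticAt ℂ h τ ∧ h τ ≠ 0 ∧ ∀ᶠ σ : ℍ in 𝓝 τ, w σ = ((σ : ℂ) - τ) ^ m * h σ := by
  rw [ordE, (hol_iff.mp hw τ).analyticOrderAt_eq_natCast]
  simp only [ev_coe, comp_ofComplex, smul_eq_mul]

lemma local_form {w : ℍ → ℂ} (hw : Hol w) (hs : Function.Surjective w) (τ : ℍ) :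
    ∃ m : ℕ, 0 < m ∧ ordE (fun σ => w σ - w τ) τ = m := by
  obtain ⟨m, hm⟩ := ENat.ne_top_iff_exists.mp (ordE_ne_top (hol_sub hw (w τ)) (sub_ne hs _) τ)
  refine ⟨m, Nat.pos_of_ne_zero ?_, hm.symm⟩
  rintro rfl
  exact (ordE_eq_zero (hol_sub hw (w τ)) τ).mp hm.symm (sub_self _)

lemma ord_sub {w : ℍ → ℂ} (hw : Hol w) {τ : ℍ} {m : ℕ} (hm : ordE (fun σ => w σ - w τ) τ = m)
    {x : M2} (h : 0 < x.det) (hx : mob x τ = τ) (hμ : ((x.det : ℂ) / autf x τ ^ 2) ^ m ≠ 1) :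
    ordE (fun σ => w σ - w (mob x σ)) τ = m := by
  obtain ⟨g, hg, hg0, e⟩ := (ordE_eq (hol_sub hw _)).mp hm
  have hm0 : (mob x (ofComplex (τ : ℂ)) : ℂ) = τ := by rw [ofComplex_apply, hx]
  refine (ordE_eq (hw.sub (hw.comp_mob h))).mpr ⟨fun z => g z -
    ((x.det : ℂ) / (autf x z * autf x τ)) ^ m * g (mob x (ofComplex z)), ?_, ?_, ?_⟩
  · exact hg.sub (((analyticAt_nu h τ).pow m).mul
      (AnalyticAt.comp (g := g) (by rwa [hm0]) (analyticAt_mob h τ)))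
  · simp only []
    rw [hm0, ← sq, ← one_sub_mul]
    exact mul_ne_zero (sub_ne_zero.mpr hμ.symm) hg0
  · filter_upwards [e, (tendsto_mob h hx).eventually e] with σ e1 e2
    rw [mob_sub h hx, mul_pow] at e2
    rw [ofComplex_apply]
    show w σ - w (mob x σ) = _
    linear_combination e1 - e2

lemma root_form {w : ℍ → ℂ} (hw : Hol w) {τ : ℍ} {m : ℕ} (h0 : 0 < m)
    (hm : ordE (fun σ => w σ - w τ) τ = m) :
    ∃ (c : ℂ) (u : ℂ → ℂ), AnalyticAt ℂ u τ ∧ u τ = 1 ∧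
      ∀ᶠ σ : ℍ in 𝓝 τ, w σ - w τ = c * (((σ : ℂ) - τ) * u σ) ^ m := by
  obtain ⟨g, hg, hg0, e⟩ := (ordE_eq (hol_sub hw _)).mp hm
  refine ⟨g τ, fun z => cexp (Complex.log (g z / g τ) / m), ?_, by simp [hg0], ?_⟩
  · refine (AnalyticAt.div (AnalyticAt.clog (hg.div analyticAt_const hg0) ?_) analyticAt_const
      (by exact_mod_cast h0.ne')).cexp
    simp [hg0]
  · filter_upwards [e, ev_coe.mp (hg.continuousAt.eventually_ne hg0)] with σ e1 e2
    rw [e1, mul_pow, ← Complex.exp_nat_mul, mul_div_cancel₀ _ (by exact_mod_cast h0.ne'),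
      Complex.exp_log (div_ne_zero e2 hg0)]
    field_simp

section Ord

variable (hh : Hol jf) (hs : Function.Surjective jf) (hi : ∀ (γ : SL2) τ, jf (γ • τ) = jf τ)

include hh hi in
lemma stab_root {τ : ℍ} {m : ℕ} (hm : ordE (fun σ => jf σ - jf τ) τ = m) {γ : SL2}
    (hγ : γ • τ = τ) : autf γ τ ^ (2 * m) = 1 := by
  by_contra hne
  have h1 := ord_sub hh hm (det_SL_pos γ) (by rwa [mob_SL]) (by
    rw [det_SL, Int.cast_one, one_div, inv_pow, ← pow_mul]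
    simpa using hne)
  have h2 : ordE (fun σ => jf σ - jf (mob γ σ)) τ = ⊤ := by
    rw [ordE, analyticOrderAt_eq_top]
    exact Eventually.of_forall fun z => by simp only [Function.comp, mob_SL, hi, sub_self]
  exact ENat.natCast_ne_top m (h1.symm.trans h2)

include hh hs hi in
lemma exists_stab {τ : ℍ} {m : ℕ} (h0 : 0 < m) (hm : ordE (fun σ => jf σ - jf τ) τ = m) {ζ : ℂ}
    (hζ : ζ ^ m = 1) : ∃ γ : SL2, γ • τ = τ ∧ 1 / autf γ τ ^ 2 = ζ := by
  obtain ⟨c, u, hu, hu1, e⟩ := root_form hh h0 hm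
  set g : ℍ → ℂ := fun σ => ((σ : ℂ) - τ) * u σ with hg
  have hG : AnalyticAt ℂ (fun z : ℂ => (z - τ) * u z) τ := by fun_prop
  have hun : ∀ᶠ z in 𝓝 (τ : ℂ), u z ≠ 0 := hu.continuousAt.eventually_ne (by simp [hu1])
  have hop : 𝓝 0 ≤ map g (𝓝 τ) := by
    rcases hG.eventually_constant_or_nhds_le_map_nhds with h | h
    · exfalso
      have h2 : ∀ᶠ z in 𝓝[≠] (τ : ℂ), False := by
        filter_upwards [nhdsWithin_le_nhds h, nhdsWithin_le_nhds hun, self_mem_nhdsWithin]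
          with z h1 h2 h3
        simp only [sub_self, zero_mul, mul_eq_zero, sub_eq_zero] at h1
        exact h1.elim h3 h2
      exact h2.exists.elim fun _ => id
    · rw [← isOpenEmbedding_coe.map_nhds_eq, Filter.map_map, sub_self, zero_mul] at h
      exact h
  have hgc : Tendsto (fun σ => ζ * g σ) (𝓝 τ) (𝓝 0) := by
    simpa using (hG.continuousAt.tendsto.comp (continuous_coe.tendsto τ)).const_mul ζ
  obtain ⟨V, hV, hVs⟩ := ProperlyDiscontinuousSMul.exists_nhds_image_smul_eq_self SL2 τ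
  have h1 : ∀ᶠ σ in 𝓝 τ, ∃ γ ∈ {γ : SL2 | γ • τ = τ}, g (γ • σ) = ζ * g σ := by
    filter_upwards [hgc (hop (image_mem_map (inter_mem hV e))), e, hV]
    rintro σ ⟨σ', ⟨h2, h3⟩, h4⟩ h5 h6
    have h7 : jf σ = jf σ' := by
      have h3' : jf σ' - jf τ = c * g σ' ^ m := h3
      have h5' : jf σ - jf τ = c * g σ ^ m := h5
      rw [h4, mul_pow, hζ, one_mul] at h3'
      linear_combination h5' - h3'
    obtain ⟨γ, rfl⟩ := inj hh hs hi σ σ' h7
    exact ⟨γ, hVs γ ⟨_, ⟨σ, h6, rfl⟩, h2⟩, h4⟩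
  have := neBot τ
  have h2 : ∃ γ ∈ {γ : SL2 | γ • τ = τ}, ∃ᶠ σ in 𝓝[≠] τ, g (γ • σ) = ζ * g σ := by
    by_contra hcon
    simp only [not_exists, not_and, not_frequently] at hcon
    have h3 := (eventually_all_finite
      (ProperlyDiscontinuousSMul.finite_stabilizer' SL2 τ)).mpr hcon
    obtain ⟨σ, ⟨γ, h4, h5⟩, h6⟩ := ((h1.filter_mono nhdsWithin_le_nhds).and h3).exists
    exact h6 γ h4 h5
  obtain ⟨γ, hγ, h3⟩ := h2
  have hx : mob γ τ = τ := by rw [mob_SL]; exact hγ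
  refine ⟨γ, hγ, ?_⟩
  have hc := continuous_coe.tendsto τ
  have t1 : Tendsto (fun σ : ℍ => ((γ : M2).det : ℂ) / (autf γ σ * autf γ τ) * u (mob γ σ)) (𝓝[≠] τ)
      (𝓝 (((γ : M2).det : ℂ) / (autf γ τ * autf γ τ) * u τ)) :=
    ((((analyticAt_nu (det_SL_pos γ) τ).continuousAt.tendsto.comp hc)).mul
      (hu.continuousAt.tendsto.comp (hc.comp (tendsto_mob (det_SL_pos γ) hx)))).mono_left
      nhdsWithin_le_nhds
  have t2 : Tendsto (fun σ : ℍ => ζ * u σ) (𝓝[≠] τ) (𝓝 (ζ * u τ)) :=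
    ((hu.continuousAt.tendsto.comp hc).const_mul ζ).mono_left nhdsWithin_le_nhds
  have h4 := tendsto_nhds_unique_of_frequently_eq t1 t2
    ((h3.and_eventually self_mem_nhdsWithin).mono fun σ ⟨h5, h6⟩ => by
      simp only [hg, ← mob_SL, mob_sub (det_SL_pos γ) hx] at h5
      have h7 : (σ : ℂ) - τ ≠ 0 := sub_ne_zero.mpr fun h => h6 (UpperHalfPlane.ext h)
      apply mul_left_cancel₀ h7
      linear_combination h5)
  rwa [hu1, mul_one, mul_one, det_SL, Int.cast_one, ← sq] at h4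

end Ord

lemma eq_of_lam {x y : M2} (hx : 0 < x.det) (hy : 0 < y.det) {τ : ℍ} (h1 : mob x τ = τ)
    (h2 : mob y τ = τ) {t : ℝ} (h : autf x τ = t * autf y τ) (i k : Fin 2) :
    (x i k : ℝ) = t * y i k := by
  rw [mob_eq_iff hx] at h1
  rw [mob_eq_iff hy] at h2
  unfold autf at h
  obtain ⟨a, b⟩ := indep (a := x 1 0 - t * y 1 0) (b := x 1 1 - t * y 1 1) (τ := τ) (by
    push_cast
    linear_combination h)
  obtain ⟨c, d⟩ := indep (a := x 0 0 - t * y 0 0) (b := x 0 1 - t * y 0 1) (τ := τ) (by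
    push_cast
    linear_combination h1 - t * h2 + τ * h)
  fin_cases i <;> fin_cases k
  exacts [sub_eq_zero.mp c, sub_eq_zero.mp d, sub_eq_zero.mp a, sub_eq_zero.mp b]

lemma lam_quad {γ : SL2} {τ : ℍ} (h : γ • τ = τ) :
    autf γ τ ^ 2 - ((γ : M2).trace : ℂ) * autf γ τ + 1 = 0 := by
  rw [← mob_SL, mob_fix_iff (det_SL_pos γ)] at h
  have hd : (((γ : M2).det : ℤ) : ℂ) = 1 := by rw [det_SL]; simp
  rw [Matrix.det_fin_two] at hd
  rw [Matrix.trace_fin_two, autf]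
  push_cast at hd ⊢
  linear_combination ((γ : M2) 1 0 : ℂ) * h - hd

lemma weight {k : ℤ} (f : ModularForm 𝒮ℒ k) (γ : SL2) (τ : ℍ) :
    f (γ • τ) = autf γ τ ^ k * f τ := by
  have hγ : (γ : GL (Fin 2) ℝ) ∈ 𝒮ℒ := ⟨γ, rfl⟩
  have := SlashInvariantForm.slash_action_eqn' f hγ τ
  simpa [autf] using this

end JBm

open JBm in
theorem jb (hA : QA) (hB : QB) (hJ : JA) : JB where
  inj := inj hB.j_mod.1 hJ.surj hB.j_inv
  stab_fin τ := ProperlyDiscontinuousSMul.finite_stabilizer (Γ := SL2) τ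
  ord_j τ := by
    obtain ⟨m, h0, hm⟩ := local_form hB.j_mod.1 hJ.surj τ
    have h2 : 0 < 2 * m := by omega
    let f : MulAction.stabilizer SL2 τ → Polynomial.nthRootsFinset (2 * m) (1 : ℂ) := fun γ =>
      ⟨autf γ.1 τ, (Polynomial.mem_nthRootsFinset h2 1).mpr
        (stab_root hB.j_mod.1 hB.j_inv hm γ.2)⟩
    have hf : Function.Bijective f := by
      constructor
      · rintro ⟨a, ha⟩ ⟨b, hb⟩ e
        have e1 : autf a τ = autf b τ := congrArg Subtype.val e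
        ext i k
        have := eq_of_lam (det_SL_pos a) (det_SL_pos b) (by rw [mob_SL]; exact ha)
          (by rw [mob_SL]; exact hb) (t := 1) (by simpa using e1) i k
        rw [one_mul] at this
        exact_mod_cast this
      · rintro ⟨w, hw⟩
        have hw1 := (Polynomial.mem_nthRootsFinset h2 1).mp hw
        obtain ⟨γ, h3, h4⟩ := exists_stab hB.j_mod.1 hJ.surj hB.j_inv h0 hm (ζ := 1 / w ^ 2)
          (by rw [one_div, inv_pow, ← pow_mul, hw1, inv_one])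
        rw [one_div, one_div, _root_.inv_inj, sq_eq_sq_iff_eq_or_eq_neg] at h4
        rcases h4 with h4 | h4
        · exact ⟨⟨γ, h3⟩, Subtype.ext h4⟩
        · refine ⟨⟨-γ, (ModularGroup.SL_neg_smul γ τ).trans h3⟩, Subtype.ext ?_⟩
          show autf (-γ : SL2) τ = w
          rw [← neg_neg w, ← h4]
          simp [autf, add_comm]
    rw [hm, Nat.card_eq_of_bijective f hf, Nat.card_eq_fintype_card, Fintype.card_coe,
      (Complex.isPrimitiveRoot_exp _ h2.ne').card_nthRootsFinset]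
    norm_cast
  ord_diag x τ hx h1 h2 := by
    obtain ⟨m, h0, hm⟩ := local_form hB.j_mod.1 hJ.surj τ
    rw [hm]
    refine ord_sub hB.j_mod.1 hm hx h1 fun hμ => ?_
    obtain ⟨γ, h3, h4⟩ := exists_stab hB.j_mod.1 hJ.surj hB.j_inv h0 hm hμ
    have n1 : autf γ τ ≠ 0 := den_ne (det_SL_pos γ) τ
    have n2 : autf x τ ≠ 0 := den_ne hx τ
    have h5 : autf x τ ^ 2 = ((√(x.det : ℝ) : ℝ) * autf γ τ) ^ 2 := by
      rw [mul_pow, ← ofReal_pow, Real.sq_sqrt (by exact_mod_cast hx.le)]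
      rw [div_eq_div_iff (pow_ne_zero 2 n1) (pow_ne_zero 2 n2), one_mul] at h4
      exact_mod_cast h4
    obtain ⟨t, ht⟩ : ∃ t : ℝ, autf x τ = t * autf γ τ := by
      rcases sq_eq_sq_iff_eq_or_eq_neg.mp h5 with h | h
      · exact ⟨_, h⟩
      · exact ⟨-√(x.det : ℝ), by rw [h]; push_cast; ring⟩
    have h6 := eq_of_lam hx (det_SL_pos γ) h1 (by rw [mob_SL]; exact h3) ht
    have hd : (((γ : M2).det : ℤ) : ℝ) = 1 := by rw [det_SL]; simp
    rw [Matrix.det_fin_two] at hd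
    have h7 : t = ((x 0 0 * (γ : M2) 1 1 - x 0 1 * (γ : M2) 1 0 : ℤ) : ℝ) := by
      push_cast at hd ⊢
      rw [h6 0 0, h6 0 1]
      linear_combination -t * hd
    refine h2 γ (x 0 0 * (γ : M2) 1 1 - x 0 1 * (γ : M2) 1 0) ?_
    ext i k
    have := h6 i k
    rw [h7] at this
    exact_mod_cast this
  e6_zero γ τ h ht := by
    have h1 := weight ModularForm.E₆ γ τ
    have h2 := lam_quad h
    rw [ht] at h2
    rw [h, zpow_ofNat] at h1
    push_cast at h2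
    linear_combination (1 / 2 : ℂ) * h1 +
      (1 / 2 : ℂ) * (autf γ τ ^ 4 - autf γ τ ^ 2 + 1) * ModularForm.E₆ τ * h2
  e4_zero γ τ h ht := by
    have h1 := weight ModularForm.E₄ γ τ
    have h2 := lam_quad h
    rw [ht] at h2
    rw [h, zpow_ofNat] at h1
    push_cast at h2
    linear_combination (1 / 3 : ℂ) * (2 - autf γ τ) * h1 +
      (1 / 3 : ℂ) * ModularForm.E₄ τ * (1 + (2 - autf γ τ) * (autf γ τ ^ 2 + autf γ τ)) * h2

end Pool.Agent.MP_9207e0_ag.hg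

end MrgPart1

-- ======== part 2: formerly Pool.Agent.MP_9207e0_ag.hg.Gen
section MrgPart2

/-! Module GEN: the rational structure of vector valued modular functions. -/

set_option linter.unusedSectionVars false
set_option linter.unusedVariables false

namespace Pool.Agent.MP_9207e0_ag.hg

open UpperHalfPlane Complex Filter Asymptotics Matrix
open scoped Real MatrixGroups Manifold Classical Kronecker

namespace Gen

/-- Functions with an expansion form an algebra. -/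
def HQ (hA : QA) {h : ℕ} (hh : 0 < h) : Subalgebra ℂ (ℍ → ℂ) where
  carrier := {w | HasQ h w}
  mul_mem' := fun ⟨_, hc⟩ ⟨_, hd⟩ => ⟨_, hA.mul hh hc hd⟩
  add_mem' := fun ⟨_, hc⟩ ⟨_, hd⟩ => ⟨_, hA.add hc hd⟩
  algebraMap_mem' := fun z => ⟨_, hA.const h z⟩

lemma ratL_C (q : ℚ) : RatL (HahnSeries.C (q : ℂ)) := by
  intro n
  by_cases hn : n = 0
  · exact ⟨q, by rw [hn, HahnSeries.C_apply, HahnSeries.coeff_single_same]⟩
  · exact ⟨0, by rw [HahnSeries.C_apply, HahnSeries.coeff_single_of_ne hn, Rat.cast_zero]⟩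

lemma rq_const (hA : QA) (h : ℕ) (q : ℚ) : RQ h fun _ => (q : ℂ) := ⟨_, hA.const h q, ratL_C q⟩

/-- Functions with a rational expansion form a ring. -/
def RS (hA : QA) {h : ℕ} (hh : 0 < h) : Subring (ℍ → ℂ) where
  carrier := {w | RQ h w}
  mul_mem' := fun ⟨_, hc, rc⟩ ⟨_, hd, rd⟩ => ⟨_, hA.mul hh hc hd, by
    obtain ⟨K, hK⟩ := hA.ratL
    exact (hK _).mp (K.mul_mem ((hK _).mpr rc) ((hK _).mpr rd))⟩
  add_mem' := fun ⟨_, hc, rc⟩ ⟨_, hd, rd⟩ => ⟨_, hA.add hc hd, by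
    obtain ⟨K, hK⟩ := hA.ratL
    exact (hK _).mp (K.add_mem ((hK _).mpr rc) ((hK _).mpr rd))⟩
  one_mem' := by
    have := rq_const hA h 1
    rwa [Rat.cast_one] at this
  zero_mem' := by
    have := rq_const hA h 0
    rwa [Rat.cast_zero] at this
  neg_mem' := fun ⟨_, hc, rc⟩ => ⟨_, hA.neg hc, by
    obtain ⟨K, hK⟩ := hA.ratL
    exact (hK _).mp (K.neg_mem ((hK _).mpr rc))⟩

lemma hasQ_of_rq {h : ℕ} {w : ℍ → ℂ} (hw : RQ h w) : HasQ h w := ⟨_, hw.choose_spec.1⟩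

variable {ι : Type} [Fintype ι]

lemma det_mem (A : Subring (ℍ → ℂ)) (B : ℍ → Matrix ι ι ℂ) (hB : ∀ i k, (fun τ => B τ i k) ∈ A) :
    (fun τ => (B τ).det) ∈ A := by
  have e : (fun τ => (B τ).det) =
      ∑ σ : Equiv.Perm ι, (Equiv.Perm.sign σ : ℤ) • ∏ i, fun τ => B τ (σ i) i := by
    funext τ
    simp only [Matrix.det_apply, Finset.sum_apply, Pi.smul_apply, Finset.prod_apply,
      Units.smul_def]
  rw [e]
  exact A.sum_mem fun σ _ => A.zsmul_mem (A.prod_mem fun i _ => hB _ _) _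

lemma adj_mem (A : Subring (ℍ → ℂ)) (B : ℍ → Matrix ι ι ℂ) (hB : ∀ i k, (fun τ => B τ i k) ∈ A)
    (i k : ι) : (fun τ => (B τ).adjugate i k) ∈ A := by
  simp only [Matrix.adjugate_apply]
  refine det_mem A (fun τ => (B τ).updateRow k (Pi.single i 1)) fun a b => ?_
  by_cases ha : a = k
  · subst ha
    simp only [Matrix.updateRow_self]
    by_cases hb : b = i
    · subst hb
      rw [Pi.single_eq_same]
      exact A.one_mem
    · rw [Pi.single_eq_of_ne hb]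
      exact A.zero_mem
  · simpa only [Matrix.updateRow_ne ha] using hB a b

/-- Scalar functions with characters. -/
structure Sc (h : ℕ) (σ ε : ℂ) (g : ℍ → ℂ) : Prop where
  q : HasQ h g
  s : ∀ τ, g (ModularGroup.S • τ) = σ * g τ
  t : ∀ τ, g (ModularGroup.T • τ) = ε * g τ

lemma Sc.mul (hA : QA) {h : ℕ} (hh : 0 < h) {σ ε σ' ε' : ℂ} {g g' : ℍ → ℂ} (a : Sc h σ ε g)
    (b : Sc h σ' ε' g') : Sc h (σ * σ') (ε * ε') (g * g') :=
  ⟨(HQ hA hh).mul_mem a.q b.q, fun τ => by simp only [Pi.mul_apply, a.s, b.s]; ring,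
    fun τ => by simp only [Pi.mul_apply, a.t, b.t]; ring⟩

lemma Sc.pow (hA : QA) {h : ℕ} (hh : 0 < h) {σ ε : ℂ} {g : ℍ → ℂ} (a : Sc h σ ε g) (n : ℕ) :
    Sc h (σ ^ n) (ε ^ n) (g ^ n) :=
  ⟨(HQ hA hh).pow_mem a.q n, fun τ => by simp only [Pi.pow_apply, a.s, mul_pow],
    fun τ => by simp only [Pi.pow_apply, a.t, mul_pow]⟩

lemma rq_j (hB : QB) {h : ℕ} (hh : 0 < h) : RQ h jf := by
  obtain ⟨c, h1, h2, -⟩ := hB.j_q
  exact hB.rq_level hh (one_dvd h) ⟨c, h1, h2⟩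

lemma sc_j (hB : QB) {h : ℕ} (hh : 0 < h) : Sc h 1 1 jf :=
  ⟨hasQ_of_rq (rq_j hB hh), fun τ => by rw [hB.j_inv, one_mul], fun τ => by
    rw [hB.j_inv, one_mul]⟩

lemma vv_smul (hA : QA) {h : ℕ} (hh : 0 < h) {σ ε : ℂ} {g : ℍ → ℂ} {S T : Matrix ι ι ℂ}
    {ψ : ι → ℍ → ℂ} (a : Sc h σ ε g) (b : VV h S T ψ) : VV h (σ • S) (ε • T) (g • ψ) := by
  refine ⟨fun i => (HQ hA hh).mul_mem a.q (b.q i), fun τ => ?_, fun τ => ?_⟩
  · have e : (fun i => (g • ψ) i τ) = g τ • fun i => ψ i τ := rfl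
    have e' : (fun i => (g • ψ) i (ModularGroup.S • τ)) =
      g (ModularGroup.S • τ) • fun i => ψ i (ModularGroup.S • τ) := rfl
    rw [e, e', a.s, b.s, Matrix.mulVec_smul, Matrix.smul_mulVec, smul_smul, mul_comm]
  · have e : (fun i => (g • ψ) i τ) = g τ • fun i => ψ i τ := rfl
    have e' : (fun i => (g • ψ) i (ModularGroup.T • τ)) =
      g (ModularGroup.T • τ) • fun i => ψ i (ModularGroup.T • τ) := rfl
    rw [e, e', a.t, b.t, Matrix.mulVec_smul, Matrix.smul_mulVec, smul_smul, mul_comm]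

/-- The space of vector valued functions. -/
def VS (hA : QA) {h : ℕ} (hh : 0 < h) (S T : Matrix ι ι ℂ) : Submodule ℂ (ι → ℍ → ℂ) where
  carrier := {ψ | VV h S T ψ}
  add_mem' := fun {a b} ha hb => by
    refine ⟨fun i => (HQ hA hh).add_mem (ha.q i) (hb.q i), fun τ => ?_, fun τ => ?_⟩
    · have e : ∀ τ, (fun i => (a + b) i τ) = (fun i => a i τ) + fun i => b i τ := fun _ => rfl
      rw [e, e, ha.s, hb.s, Matrix.mulVec_add]
    · have e : ∀ τ, (fun i => (a + b) i τ) = (fun i => a i τ) + fun i => b i τ := fun _ => rfl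
      rw [e, e, ha.t, hb.t, Matrix.mulVec_add]
  zero_mem' := by
    refine ⟨fun i => (HQ hA hh).zero_mem, fun τ => ?_, fun τ => ?_⟩
    · exact (Matrix.mulVec_zero S).symm
    · exact (Matrix.mulVec_zero T).symm
  smul_mem' := fun z a ha => by
    refine ⟨fun i => (HQ hA hh).smul_mem (ha.q i) z, fun τ => ?_, fun τ => ?_⟩
    · have e : ∀ τ, (fun i => (z • a) i τ) = z • fun i => a i τ := fun _ => rfl
      rw [e, e, ha.s, Matrix.mulVec_smul]
    · have e : ∀ τ, (fun i => (z • a) i τ) = z • fun i => a i τ := fun _ => rfl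
      rw [e, e, ha.t, Matrix.mulVec_smul]

lemma ideal_top (I : Ideal (Polynomial ℂ)) (hI : ∀ z, ∃ p ∈ I, p.eval z ≠ 0) : I = ⊤ := by
  obtain ⟨g, rfl⟩ : ∃ g, I = Ideal.span {g} := ⟨_, (Ideal.span_singleton_generator I).symm⟩
  rw [Ideal.span_singleton_eq_top]
  by_contra hg
  have : ∃ z, g.eval z = 0 := by
    by_cases h0 : g = 0
    · exact ⟨0, by simp [h0]⟩
    · exact IsAlgClosed.exists_root g fun hd => hg (Polynomial.isUnit_iff_degree_eq_zero.mpr hd)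
  obtain ⟨z, hz⟩ := this
  obtain ⟨p, hp, hp0⟩ := hI z
  obtain ⟨a, rfl⟩ := Ideal.mem_span_singleton'.mp hp
  simp [hz] at hp0

/-- The partition of unity. -/
lemma one_mem (hA : QA) (hB : QB) (hJ : JA) {h : ℕ} (hh : 0 < h) (U : Submodule ℂ (ℍ → ℂ))
    (hj : ∀ g ∈ U, jf * g ∈ U)
    (hU : ∀ τ, ∃ g σ ε, Sc h σ ε g ∧ g τ ≠ 0 ∧ (σ ^ 6 = 1 → ε ^ 6 = 1 → g ^ 6 ∈ U)) :
    (1 : ℍ → ℂ) ∈ U := by
  have hp : ∀ (a : Polynomial ℂ), ∀ g ∈ U, (fun τ => a.eval (jf τ)) * g ∈ U := by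
    intro a
    induction a using Polynomial.induction_on with
    | C z =>
      intro g hg
      convert U.smul_mem z hg using 1
      funext τ
      simp
    | add p q hp hq =>
      intro g hg
      convert U.add_mem (hp g hg) (hq g hg) using 1
      funext τ
      simp [add_mul]
    | monomial n z ih =>
      intro g hg
      convert hj _ (ih g hg) using 1
      funext τ
      simp only [Polynomial.eval_mul, Polynomial.eval_C, Polynomial.eval_pow, Polynomial.eval_X,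
        Pi.mul_apply]
      ring
  let I : Ideal (Polynomial ℂ) :=
    { carrier := {p | (fun τ => p.eval (jf τ)) ∈ U}
      add_mem' := fun {p q} hp hq => by
        change _ ∈ U
        convert U.add_mem hp hq using 1
        funext τ
        simp
      zero_mem' := by
        change _ ∈ U
        convert U.zero_mem using 1
        funext τ
        simp
      smul_mem' := fun a p hq => by
        change _ ∈ U
        convert hp a _ hq using 1
        funext τ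
        simp }
  have hI : I = ⊤ := by
    refine ideal_top I fun z => ?_
    obtain ⟨τ, rfl⟩ := hJ.surj z
    obtain ⟨g, σ, ε, hg, h0, hm⟩ := hU τ
    have hne : g ≠ 0 := fun e => h0 (by rw [e]; rfl)
    obtain ⟨h1, h2⟩ := hJ.char hne hg.s hg.t
    have h3 : σ ^ 6 = 1 := by rw [show σ ^ 6 = (σ ^ 2) ^ 3 by ring, h1, one_pow]
    have h6 := hg.pow hA hh 6
    rw [h2, h3] at h6
    obtain ⟨c, hc⟩ := h6.q
    obtain ⟨p, hp⟩ := hJ.poly _ (hB.mod_one (hA.hol hh hc) (hA.expG hh hc)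
      (fun τ => by rw [h6.s, one_mul]) fun τ => by rw [h6.t, one_mul])
    refine ⟨p, ?_, ?_⟩
    · change (fun τ => p.eval (jf τ)) ∈ U
      convert hm h3 h2 using 1
      funext τ
      exact (hp τ).symm
    · rw [← hp]
      exact pow_ne_zero 6 h0
  have h1 : (1 : Polynomial ℂ) ∈ I := hI ▸ Submodule.mem_top
  convert (show (fun τ => (1 : Polynomial ℂ).eval (jf τ)) ∈ U from h1) using 1
  funext τ
  simp

/-- A frame of twisted rational functions at a point. -/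
lemma frame {h : ℕ} {S T : Matrix ι ι ℂ} (hG : Good h S T) (τ₀ : ℍ) :
    ∃ (σ ε : ι → ℂ) (ψ : ι → ι → ℍ → ℂ), (∀ k, σ k ≠ 0 ∧ ε k ≠ 0 ∧
      VV h (σ k • S) (ε k • T) (ψ k) ∧ ∀ i, RQ h (ψ k i)) ∧
      (Matrix.of fun i k => ψ k i τ₀).det ≠ 0 := by
  let V : Set (ι → ℂ) := {v | ∃ (σ ε : ℂ) (ψ : ι → ℍ → ℂ), (σ ≠ 0 ∧ ε ≠ 0 ∧
    VV h (σ • S) (ε • T) ψ ∧ ∀ i, RQ h (ψ i)) ∧ v = fun i => ψ i τ₀}
  have hV : ⊤ ≤ Submodule.span ℂ V := by
    by_contra hV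
    obtain ⟨f, hf, hk⟩ := Submodule.exists_le_ker_of_lt_top (Submodule.span ℂ V)
      (lt_top_iff_ne_top.mpr fun e => hV e.ge)
    have e : ∀ v, f v = (fun i => f fun j => if i = j then 1 else 0) ⬝ᵥ v := fun v => by
      rw [LinearMap.pi_apply_eq_sum_univ f v]
      simp [dotProduct, mul_comm]
    have h0 := hG τ₀ (fun i => f fun j => if i = j then 1 else 0) fun σ ε ψ h1 h2 h3 h4 => by
      rw [← e]
      exact hk (Submodule.subset_span ⟨σ, ε, ψ, ⟨h1, h2, h3, h4⟩, rfl⟩)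
    exact hf (LinearMap.ext fun v => by rw [e, h0]; simp)
  let b₀ := Module.Basis.ofSpan hV
  let b := b₀.reindex (b₀.indexEquiv (Pi.basisFun ℂ ι))
  have hb : ∀ k, b k ∈ V := fun k => by
    apply Module.Basis.ofSpan_subset hV
    exact ⟨_, (b₀.reindex_apply _ k).symm⟩
  choose σ ε ψ h1 h2 using hb
  refine ⟨σ, ε, ψ, h1, ?_⟩
  have h3 := ((Pi.basisFun ℂ ι).isUnit_det b).ne_zero
  rw [Pi.basisFun_det_apply, ← Matrix.det_transpose] at h3
  convert h3 using 2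
  ext i k
  simp [h2 k]

lemma frame_law {S : Matrix ι ι ℂ} {σ : ι → ℂ} {v v' : ι → ι → ℂ}
    (hv : ∀ k, v' k = (σ k • S) *ᵥ v k) :
    (Matrix.of fun i k => v' k i) = S * (Matrix.of fun i k => v k i) * diagonal σ := by
  ext i k
  rw [Matrix.mul_diagonal, Matrix.of_apply, hv, Matrix.smul_mulVec]
  simp [Matrix.mul_apply, Matrix.mulVec, dotProduct, mul_comm]

lemma det_law (S B : Matrix ι ι ℂ) (σ : ι → ℂ) :
    (S * B * diagonal σ).det = (S.det * ∏ k, σ k) * B.det := by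
  rw [Matrix.det_mul, Matrix.det_mul, Matrix.det_diagonal]
  ring

lemma adj_law (S B : Matrix ι ι ℂ) (σ : ι → ℂ) (v : ι → ℂ) (k : ι) :
    ((S * B * diagonal σ).adjugate *ᵥ (S *ᵥ v)) k =
      (S.det * ∏ j ∈ Finset.univ.erase k, σ j) * (B.adjugate *ᵥ v) k := by
  rw [Matrix.adjugate_mul_distrib, Matrix.adjugate_mul_distrib, Matrix.mulVec_mulVec,
    Matrix.mul_assoc, Matrix.mul_assoc, Matrix.adjugate_mul, Matrix.adjugate_diagonal,
    Matrix.mul_smul, Matrix.mul_one, ← Matrix.mulVec_mulVec, Matrix.mulVec_diagonal,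
    Matrix.smul_mulVec]
  simp only [Pi.smul_apply, smul_eq_mul]
  ring

lemma adj_row_law {S S' : Matrix ι ι ℂ} (hS : S'ᵀ * S = 1) (B : Matrix ι ι ℂ) (σ : ι → ℂ) (k : ι) :
    (fun i => (S * B * diagonal σ).adjugate k i) =
      ((S.det * ∏ j ∈ Finset.univ.erase k, σ j) • S') *ᵥ fun i => B.adjugate k i := by
  have h1 : S * S'ᵀ = 1 := mul_eq_one_comm.mp hS
  funext i
  have h2 := adj_law S B σ (S'ᵀ *ᵥ Pi.single i 1) k
  rw [Matrix.mulVec_mulVec _ S, h1, Matrix.one_mulVec] at h2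
  rw [Matrix.smul_mulVec]
  simp only [Matrix.mulVec_single_one, Matrix.col_apply] at h2
  rw [h2]
  simp [Matrix.mulVec, dotProduct, mul_comm]

lemma pair_law {S S' : Matrix ι ι ℂ} (hS : S'ᵀ * S = 1) (σ : ℂ) (v w : ι → ℂ) :
    ((σ • S') *ᵥ v) ⬝ᵥ (S *ᵥ w) = σ * (v ⬝ᵥ w) := by
  rw [Matrix.smul_mulVec, smul_dotProduct, ← Matrix.vecMul_transpose, ← Matrix.dotProduct_mulVec,
    Matrix.mulVec_mulVec, hS, Matrix.one_mulVec, smul_eq_mul]

theorem dual (hA : QA) {h : ℕ} {S T S' T' : Matrix ι ι ℂ} (hh : 0 < h) (hS : S'ᵀ * S = 1)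
    (hT : T'ᵀ * T = 1) (hG : Good h S T) : Good h S' T' := by
  intro τ₀ l hl
  obtain ⟨σ, ε, ψ, hψ, hd⟩ := frame hG τ₀
  let B : ℍ → Matrix ι ι ℂ := fun τ => Matrix.of fun i k => ψ k i τ
  have hr : ∀ k i, RQ h fun τ => (B τ).adjugate k i :=
    adj_mem (RS hA hh) B fun i k => (hψ k).2.2.2 i
  have h0 : (B τ₀).adjugate *ᵥ l = 0 := by
    funext k
    have := hl (S.det * ∏ j ∈ Finset.univ.erase k, σ j) (T.det * ∏ j ∈ Finset.univ.erase k, ε j)
      (fun i τ => (B τ).adjugate k i)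
      (mul_ne_zero (Matrix.isUnit_det_of_left_inverse hS).ne_zero
        (Finset.prod_ne_zero_iff.mpr fun j _ => (hψ j).1))
      (mul_ne_zero (Matrix.isUnit_det_of_left_inverse hT).ne_zero
        (Finset.prod_ne_zero_iff.mpr fun j _ => (hψ j).2.1))
      ⟨fun i => hasQ_of_rq (hr k i), fun τ => by
        rw [← adj_row_law hS, ← frame_law fun k => (hψ k).2.2.1.s τ], fun τ => by
        rw [← adj_row_law hT, ← frame_law fun k => (hψ k).2.2.1.t τ]⟩ (hr k)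
    rw [dotProduct_comm] at this
    exact this
  refine Matrix.eq_zero_of_mulVec_eq_zero ?_ h0
  rw [Matrix.det_adjugate]
  exact pow_ne_zero _ hd

lemma kron_law {ι' : Type} [Fintype ι'] (S : Matrix ι ι ℂ) (S' : Matrix ι' ι' ℂ) (σ σ' : ℂ)
    (v : ι → ℂ) (w : ι' → ℂ) :
    (fun p : ι × ι' => ((σ • S) *ᵥ v) p.1 * ((σ' • S') *ᵥ w) p.2) =
      ((σ * σ') • S ⊗ₖ S') *ᵥ fun p => v p.1 * w p.2 := by
  funext p
  simp only [Matrix.mulVec, dotProduct, Matrix.smul_apply, smul_eq_mul,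
    Fintype.sum_prod_type, Finset.sum_mul_sum]
  refine Finset.sum_congr rfl fun i _ => Finset.sum_congr rfl fun k _ => ?_
  rw [show (S ⊗ₖ S') p (i, k) = S p.1 i * S' p.2 k from rfl]
  ring

theorem tensor (hA : QA) {ι' : Type} [Fintype ι'] {h : ℕ} {S T : Matrix ι ι ℂ}
    {S' T' : Matrix ι' ι' ℂ} (hh : 0 < h) (hG : Good h S T) (hG' : Good h S' T') :
    Good h (S ⊗ₖ S') (T ⊗ₖ T') := by
  intro τ₀ l hl
  funext p
  refine congrFun (hG' τ₀ (fun k => l (p.1, k)) fun σ' ε' ψ' a' b' c' d' => ?_) p.2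
  refine congrFun (hG τ₀ (fun i => (fun k => l (i, k)) ⬝ᵥ fun k => ψ' k τ₀)
    fun σ ε ψ a b c d => ?_) p.1
  have hr : ∀ q : ι × ι', RQ h (ψ q.1 * ψ' q.2) := fun q => (RS hA hh).mul_mem (d _) (d' _)
  have := hl (σ * σ') (ε * ε') (fun q => ψ q.1 * ψ' q.2) (mul_ne_zero a a') (mul_ne_zero b b')
    ⟨fun q => hasQ_of_rq (hr q), fun τ => by
      simp only [Pi.mul_apply]
      rw [← kron_law S S' σ σ' (fun i => ψ i τ) fun i => ψ' i τ, ← c.s, ← c'.s], fun τ => by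
      simp only [Pi.mul_apply]
      rw [← kron_law T T' ε ε' (fun i => ψ i τ) fun i => ψ' i τ, ← c.t, ← c'.t]⟩ hr
  rw [← this]
  simp only [dotProduct, Fintype.sum_prod_type, Finset.sum_mul, Pi.mul_apply]
  refine Finset.sum_congr rfl fun i _ => Finset.sum_congr rfl fun k _ => ?_
  ring

theorem map (hA : QA) {ι' : Type} [Fintype ι'] {h : ℕ} {S T : Matrix ι ι ℂ}
    {S' T' : Matrix ι' ι' ℂ} (P : Matrix ι' ι ℂ) (hh : 0 < h) (hP : ∀ i k, ∃ q : ℚ, P i k = q)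
    (hs : ∀ l : ι' → ℂ, l ᵥ* P = 0 → l = 0) (hS : P * S = S' * P) (hT : P * T = T' * P)
    (hG : Good h S T) : Good h S' T' := by
  intro τ₀ l hl
  refine hs l (hG τ₀ _ fun σ ε ψ a b c d => ?_)
  have hr : ∀ i, RQ h fun τ => (P *ᵥ fun k => ψ k τ) i := fun i => by
    have e : (fun τ => (P *ᵥ fun k => ψ k τ) i) = ∑ k, (fun _ => P i k) * ψ k := by
      funext τ
      simp [Matrix.mulVec, dotProduct]
    rw [e]
    refine (RS hA hh).sum_mem fun k _ => (RS hA hh).mul_mem ?_ (d k)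
    obtain ⟨q, hq⟩ := hP i k
    rw [hq]
    exact rq_const hA h q
  have := hl σ ε (fun i τ => (P *ᵥ fun k => ψ k τ) i) a b
    ⟨fun i => hasQ_of_rq (hr i), fun τ => by
      change P *ᵥ _ = _ *ᵥ (P *ᵥ _)
      rw [c.s, Matrix.mulVec_mulVec, Matrix.mulVec_mulVec, Matrix.mul_smul, Matrix.smul_mul, hS],
      fun τ => by
      change P *ᵥ _ = _ *ᵥ (P *ᵥ _)
      rw [c.t, Matrix.mulVec_mulVec, Matrix.mulVec_mulVec, Matrix.mul_smul, Matrix.smul_mul, hT]⟩ hr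
  rw [← Matrix.dotProduct_mulVec]
  exact this

theorem xi (hA : QA) (hB : QB) (hJ : JA) {h : ℕ} {S T S' T' : Matrix ι ι ℂ} {ϑ : ι → ℍ → ℂ}
    (hh : 0 < h) (hS : S'ᵀ * S = 1) (hT : T'ᵀ * T = 1) (hG : Good h S' T') (hϑ : VV h S T ϑ)
    (hne : ∀ τ, ∃ i, ϑ i τ ≠ 0) : ∃ ξ, VV h S' T' ξ ∧ ∀ τ, ∑ i, ξ i τ * ϑ i τ = 1 := by
  let L : (ι → ℍ → ℂ) →ₗ[ℂ] (ℍ → ℂ) :=
    { toFun := fun ξ => ∑ i, ξ i * ϑ i
      map_add' := fun a b => by simp [add_mul, Finset.sum_add_distrib]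
      map_smul' := fun z a => by simp [Finset.smul_sum] }
  have hL : ∀ ξ, L ξ = ∑ i, ξ i * ϑ i := fun _ => rfl
  have hL' : ∀ ξ τ, L ξ τ = (fun i => ξ i τ) ⬝ᵥ fun i => ϑ i τ := fun ξ τ => by
    simp [hL, dotProduct]
  have hLs : ∀ (g : ℍ → ℂ) ξ, L (g • ξ) = g * L ξ := fun g ξ => by
    simp [hL, Finset.mul_sum, mul_assoc]
  have h1 := one_mem hA hB hJ hh ((VS hA hh S' T').map L) ?_ ?_
  · obtain ⟨ξ, h2, h3⟩ := h1
    refine ⟨ξ, h2, fun τ => ?_⟩
    simpa [hL] using congrFun h3 τ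
  · rintro _ ⟨ξ, h2, rfl⟩
    refine ⟨jf • ξ, ?_, hLs _ _⟩
    have := vv_smul hA hh (sc_j hB hh) h2
    rwa [one_smul, one_smul] at this
  · intro τ₀
    by_contra hc
    obtain ⟨i, hi⟩ := hne τ₀
    refine hi (congrFun (hG τ₀ (fun i => ϑ i τ₀) fun σ ε ψ a b c d => ?_) i)
    by_contra h0
    have hg : Sc h σ ε (L ψ) := by
      refine ⟨?_, fun τ => ?_, fun τ => ?_⟩
      · exact (HQ hA hh).sum_mem fun i _ => (HQ hA hh).mul_mem (c.q i) (hϑ.q i)
      · rw [hL', hL', c.s, hϑ.s, pair_law hS]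
      · rw [hL', hL', c.t, hϑ.t, pair_law hT]
    refine hc ⟨L ψ, σ, ε, hg, by rwa [hL', dotProduct_comm], fun h1 h2 => ?_⟩
    refine ⟨L ψ ^ 5 • ψ, ?_, by rw [hLs, ← pow_succ]⟩
    have := vv_smul hA hh (hg.pow hA hh 5) c
    rwa [smul_smul, smul_smul, ← pow_succ, ← pow_succ, h1, h2, one_smul, one_smul] at this

/-- Every function is a combination of rational ones. -/
theorem mem_span (hA : QA) (hB : QB) (hJ : JA) {h : ℕ} {S T : Matrix ι ι ℂ} {φ : ι → ℍ → ℂ}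
    (hh : 0 < h) (h24 : 24 ∣ h) (hG : Good h S T) (hφ : VV h S T φ) :
    φ ∈ Submodule.span ℂ {ψ : ι → ℍ → ℂ | VV h S T ψ ∧ ∀ i, RQ h (ψ i)} := by
  set W := Submodule.span ℂ {ψ : ι → ℍ → ℂ | VV h S T ψ ∧ ∀ i, RQ h (ψ i)} with hW
  let L : (ι → ℍ → ℂ) → (ℍ → ℂ) →ₗ[ℂ] (ι → ℍ → ℂ) := fun ψ =>
    (LinearMap.toSpanSingleton (ℍ → ℂ) _ ψ).restrictScalars ℂ
  have hL : ∀ ψ g, L ψ g = g • ψ := fun _ _ => rfl
  have h1 := one_mem hA hB hJ hh (W.comap (L φ)) ?_ ?_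
  · simpa [hL] using h1
  · intro g hg
    rw [Submodule.mem_comap, hL] at hg ⊢
    rw [mul_smul]
    generalize g • φ = ψ at hg
    induction hg using Submodule.span_induction with
    | mem x hx =>
      refine Submodule.subset_span ⟨?_, fun i => (RS hA hh).mul_mem (rq_j hB hh) (hx.2 i)⟩
      have := vv_smul hA hh (sc_j hB hh) hx.1
      rwa [one_smul, one_smul] at this
    | zero => simp
    | add x y _ _ hx hy => rw [smul_add]; exact W.add_mem hx hy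
    | smul z x _ hx => rw [smul_comm]; exact W.smul_mem z hx
  · intro τ₀
    obtain ⟨σ, ε, ψ, hψ, hd⟩ := frame hG τ₀
    let B : ℍ → Matrix ι ι ℂ := fun τ => Matrix.of fun i k => ψ k i τ
    have hq : ∀ i k, (fun τ => B τ i k) ∈ (HQ hA hh).toSubring := fun i k => (hψ k).2.2.1.q i
    have hBS : ∀ τ, B (ModularGroup.S • τ) = S * B τ * diagonal σ := fun τ =>
      frame_law fun k => (hψ k).2.2.1.s τ
    have hBT : ∀ τ, B (ModularGroup.T • τ) = T * B τ * diagonal ε := fun τ =>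
      frame_law fun k => (hψ k).2.2.1.t τ
    have hD : Sc h (S.det * ∏ k, σ k) (T.det * ∏ k, ε k) fun τ => (B τ).det :=
      ⟨det_mem _ B hq, fun τ => by rw [hBS, det_law], fun τ => by rw [hBT, det_law]⟩
    refine ⟨_, _, _, hD, hd, fun h1 h2 => ?_⟩
    let u : ι → ℍ → ℂ := fun k τ => ((B τ).adjugate *ᵥ fun i => φ i τ) k
    have hu : ∀ k, Sc h (S.det * ∏ j ∈ Finset.univ.erase k, σ j)
        (T.det * ∏ j ∈ Finset.univ.erase k, ε j) (u k) := fun k => by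
      refine ⟨?_, fun τ => ?_, fun τ => ?_⟩
      · have e : u k = ∑ i, (fun τ => (B τ).adjugate k i) * φ i := by
          funext τ
          simp [u, Matrix.mulVec, dotProduct]
        rw [e]
        exact (HQ hA hh).sum_mem fun i _ => (HQ hA hh).mul_mem (adj_mem _ B hq k i) (hφ.q i)
      · simp only [u]
        rw [hBS, hφ.s, adj_law]
      · simp only [u]
        rw [hBT, hφ.t, adj_law]
    have e : (fun τ => (B τ).det) ^ 6 • φ = ∑ k, ((fun τ => (B τ).det) ^ 5 * u k) • ψ k := by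
      funext i τ
      have e1 := congrFun (congrArg (fun M => M *ᵥ fun i => φ i τ) (Matrix.mul_adjugate (B τ))) i
      simp only [← Matrix.mulVec_mulVec, Matrix.smul_mulVec, Matrix.one_mulVec, Pi.smul_apply,
        smul_eq_mul] at e1
      simp only [Finset.sum_apply, Pi.smul_apply, Pi.smul_apply', smul_eq_mul, Pi.mul_apply,
        Pi.pow_apply]
      rw [pow_succ, mul_assoc, ← e1, Matrix.mulVec, dotProduct, Finset.mul_sum]
      refine Finset.sum_congr rfl fun k _ => ?_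
      simp only [u, B, Matrix.of_apply]
      ring
    rw [Submodule.mem_comap, hL, e]
    refine W.sum_mem fun k _ => ?_
    have hk := (hD.pow hA hh 5).mul hA hh (hu k)
    have key : ∀ (d : ℂ) (s : ι → ℂ), (d * ∏ k, s k) ^ 6 = 1 →
        s k * ((d * ∏ k, s k) ^ 5 * (d * ∏ j ∈ Finset.univ.erase k, s j)) = 1 := fun d s hs => by
      rw [← hs, pow_succ _ 5]
      rw [← Finset.mul_prod_erase Finset.univ s (Finset.mem_univ k)]
      ring
    have h3 := Submodule.mem_map_of_mem (f := L (ψ k)) (hJ.scal hh h24 hk.q hk.s hk.t)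
    rw [Submodule.map_span] at h3
    refine Submodule.span_mono ?_ h3
    rintro _ ⟨g, ⟨g1, g2, g3⟩, rfl⟩
    refine ⟨?_, fun i => (RS hA hh).mul_mem g1 ((hψ k).2.2.2 i)⟩
    have := vv_smul hA hh ⟨hasQ_of_rq g1, g2, g3⟩ (hψ k).2.2.1
    rwa [smul_smul, smul_smul, mul_comm _ (σ k), mul_comm _ (ε k), key _ _ h1, key _ _ h2,
      one_smul, one_smul] at this

theorem rat (hA : QA) (hB : QB) (hJ : JA) {h : ℕ} {S T : Matrix ι ι ℂ} {φ : ι → ℍ → ℂ}
    (t : ℂ →ₗ[ℚ] ℚ) (hh : 0 < h) (h24 : 24 ∣ h) (hG : Good h S T) (hφ : VV h S T φ) :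
    ∃ φ', VV h S T φ' ∧ ∀ i (c c' : LS), IsQ h (φ i) c → (∀ n, c'.coeff n = t (c.coeff n)) →
      IsQ h (φ' i) c' := by
  have key : ∀ ψ ∈ Submodule.span ℂ {ψ : ι → ℍ → ℂ | VV h S T ψ ∧ ∀ i, RQ h (ψ i)}, ∀ z : ℂ,
      ∃ ψ', ψ' ∈ VS hA hh S T ∧ ∀ i, ∃ c c' : LS, IsQ h (ψ i) c ∧ IsQ h (ψ' i) c' ∧
        ∀ n, c'.coeff n = t (z * c.coeff n) := by
    intro ψ hψ
    induction hψ using Submodule.span_induction with
    | mem x hx =>
      intro z
      refine ⟨(t z : ℂ) • x, (VS hA hh S T).smul_mem _ hx.1, fun i => ?_⟩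
      obtain ⟨c, h1, h2⟩ := hx.2 i
      refine ⟨c, _, h1, hA.smul _ h1, fun n => ?_⟩
      obtain ⟨q, hq⟩ := h2 n
      rw [HahnSeries.coeff_smul, hq, mul_comm z, ← Rat.smul_def q z, map_smul]
      simp [mul_comm]
    | zero =>
      intro z
      refine ⟨0, zero_mem _, fun i => ⟨_, _, hA.const h 0, hA.const h 0, fun n => ?_⟩⟩
      simp
    | add x y _ _ hx hy =>
      intro z
      obtain ⟨x', a1, a2⟩ := hx z
      obtain ⟨y', b1, b2⟩ := hy z
      refine ⟨x' + y', add_mem a1 b1, fun i => ?_⟩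
      obtain ⟨c, c', c1, c2, c3⟩ := a2 i
      obtain ⟨d, d', d1, d2, d3⟩ := b2 i
      refine ⟨_, _, hA.add c1 d1, hA.add c2 d2, fun n => ?_⟩
      simp [c3, d3, mul_add]
    | smul w x _ hx =>
      intro z
      obtain ⟨x', a1, a2⟩ := hx (z * w)
      refine ⟨x', a1, fun i => ?_⟩
      obtain ⟨c, c', c1, c2, c3⟩ := a2 i
      refine ⟨_, _, hA.smul w c1, c2, fun n => ?_⟩
      simp [c3, mul_assoc]
  obtain ⟨φ', h1, h2⟩ := key φ (mem_span hA hB hJ hh h24 hG hφ) 1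
  refine ⟨φ', h1, fun i c c' h3 h4 => ?_⟩
  obtain ⟨d, d', d1, d2, d3⟩ := h2 i
  obtain rfl := hA.unique hh h3 d1
  convert d2 using 1
  ext n
  rw [h4, d3, one_mul]

end Gen

theorem gen (hA : QA) (hB : QB) (hJ : JA) : GEN where
  rat := fun t hh h24 hG hφ => Gen.rat hA hB hJ t hh h24 hG hφ
  dual := fun hh hS hT hG => Gen.dual hA hh hS hT hG
  tensor := fun hh hG hG' => Gen.tensor hA hh hG hG'
  map := fun P hh hP hs hS hT hG => Gen.map hA P hh hP hs hS hT hG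
  xi := fun hh hS hT hG hϑ hne => Gen.xi hA hB hJ hh hS hT hG hϑ hne

end Pool.Agent.MP_9207e0_ag.hg

end MrgPart2

-- ======== part 3: formerly Pool.Agent.MP_9207e0_ag.hg.Inp
section MrgPart3

/-! The input form with prescribed leading terms. -/

set_option linter.unusedSectionVars false
set_option linter.unusedVariables false

namespace Pool.Agent.MP_9207e0_ag.hg

open UpperHalfPlane Complex Filter Asymptotics Matrix
open scoped Real MatrixGroups Manifold Classical Kronecker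

namespace Inp

lemma ee_add (a b : ℂ) : ee (a + b) = ee a * ee b := by
  simp only [ee, mul_add, Complex.exp_add]

lemma ee_int (n : ℤ) : ee n = 1 := by
  rw [ee, mul_comm]
  exact Complex.exp_int_mul_two_pi_mul_I n

lemma ee_pow (a : ℂ) (n : ℕ) : ee a ^ n = ee (n * a) := by
  rw [ee, ee, ← Complex.exp_nat_mul]
  congr 1
  ring

lemma norm_ee (x : ℝ) : ‖ee x‖ = 1 := by
  have : ee x = cexp (((2 * π * x : ℝ) : ℂ) * Complex.I) := by
    rw [ee]
    congr 1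
    push_cast
    ring
  rw [this, Complex.norm_exp_ofReal_mul_I]

lemma iter_T {w : ℍ → ℂ} {ε : ℂ} (hw : ∀ τ, w (ModularGroup.T • τ) = ε * w τ) (n : ℕ) (τ : ℍ) :
    w (ModularGroup.T ^ (n : ℤ) • τ) = ε ^ n * w τ := by
  rw [zpow_natCast]
  induction n with
  | zero => simp
  | succ n ih => rw [pow_succ', mul_smul, hw, ih, pow_succ', mul_assoc]

lemma per_of_isQ {h : ℕ} {w : ℍ → ℂ} {c : LS} (h0 : 0 < h) (hw : IsQ h w c) (τ : ℍ) :
    w (ModularGroup.T ^ (h : ℤ) • τ) = w τ := by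
  refine (hw _).unique ?_
  have hh : (h : ℂ) ≠ 0 := by exact_mod_cast h0.ne'
  have e : (fun n : ℤ => c.coeff n * ee (n * ((ModularGroup.T ^ (h : ℤ) • τ : ℍ) : ℂ) / h)) =
      fun n : ℤ => c.coeff n * ee (n * τ / h) := by
    ext n
    rw [ModularGroup.coe_T_zpow_smul_eq]
    have : (n : ℂ) * (τ + ((h : ℤ) : ℂ)) / h = n * τ / h + n := by
      push_cast
      field_simp
    rw [this, ee_add, ee_int, mul_one]
  rw [e]
  exact hw τ

/-- The series starts at `m` with coefficient `z`. -/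
def Lead (x : LS) (m : ℤ) (z : ℂ) : Prop := x.coeff m = z ∧ ∀ n < m, x.coeff n = 0

lemma low_mul {x y : LS} {a b : ℤ} (hx : ∀ n < a, x.coeff n = 0) (hy : ∀ n < b, y.coeff n = 0)
    {n : ℤ} (hn : n < a + b) : (x * y).coeff n = 0 := by
  rw [HahnSeries.coeff_mul]
  refine Finset.sum_eq_zero fun p hp => ?_
  rw [Finset.mem_antidiagonal] at hp
  by_cases h1 : p.1 < a
  · rw [hx _ h1, zero_mul]
  · rw [hy p.2 (by omega), mul_zero]

lemma Lead.mul {x y : LS} {a b : ℤ} {u v : ℂ} (hx : Lead x a u) (hy : Lead y b v) :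
    Lead (x * y) (a + b) (u * v) := by
  refine ⟨?_, fun n hn => low_mul hx.2 hy.2 hn⟩
  rw [HahnSeries.coeff_mul, Finset.sum_eq_single (a, b), hx.1, hy.1]
  · intro p hp hne
    rw [Finset.mem_antidiagonal] at hp
    by_cases h1 : p.1 < a
    · rw [hx.2 _ h1, zero_mul]
    · have : p.2 < b := by
        by_contra h2
        exact hne (Prod.ext (by simp only; omega) (by simp only; omega))
      rw [hy.2 _ this, mul_zero]
  · intro hp
    rw [Finset.mem_antidiagonal] at hp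
    simp only [HahnSeries.mem_support, ne_eq, and_true, not_and, not_not] at hp
    by_cases h1 : x.coeff a = 0
    · rw [h1, zero_mul]
    · rw [hp h1, mul_zero]

lemma Lead.cancel {x y : LS} {b p : ℤ} {z : ℂ} (hy : Lead y b 1) (h : Lead (x * y) p z) :
    Lead x (p - b) z := by
  have h1 : ∀ n < p - b, x.coeff n = 0 := by
    by_cases hx : x = 0
    · simp [hx]
    have h2 : Lead x x.order (x.coeff x.order) :=
      ⟨rfl, fun n hn => HahnSeries.coeff_eq_zero_of_lt_order hn⟩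
    have h3 := (h2.mul hy).1
    have h4 : ¬ x.order + b < p := fun h5 => hx (HahnSeries.coeff_order_eq_zero.mp (by
      rw [h.2 _ h5, mul_one] at h3
      exact h3.symm))
    exact fun n hn => h2.2 n (by omega)
  refine ⟨?_, h1⟩
  have h2 := (Lead.mul ⟨rfl, h1⟩ hy).1
  rw [sub_add_cancel, h.1, mul_one] at h2
  exact h2.symm

lemma exists_low {ι : Type} [Fintype ι] (c : ι → LS) :
    ∃ A : ℤ, ∀ i, ∀ n < A, (c i).coeff n = 0 := by
  obtain ⟨A, hA⟩ := (Set.finite_range fun i => (c i).order).bddBelow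
  exact ⟨A, fun i n hn => HahnSeries.coeff_eq_zero_of_lt_order (hn.trans_le (hA ⟨i, rfl⟩))⟩

lemma exists_den {ι : Type} [Fintype ι] (q : ι → ℤ → ℚ) (A : ℤ) (hq : ∀ i, ∀ n < A, q i n = 0) :
    ∃ d : ℕ, 0 < d ∧ ∀ i, ∀ n < 0, ∃ k : ℤ, (d : ℚ) * q i n = k := by
  refine ⟨∏ p ∈ Finset.univ ×ˢ Finset.Ico A 0, (q p.1 p.2).den,
    Finset.prod_pos fun p _ => (q p.1 p.2).den_pos, fun i n hn => ?_⟩
  by_cases h : n < A
  · exact ⟨0, by simp [hq i n h]⟩
  obtain ⟨e, he⟩ := Finset.dvd_prod_of_mem (fun p : ι × ℤ => (q p.1 p.2).den)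
    (a := (i, n)) (s := Finset.univ ×ˢ Finset.Ico A 0) (by simp; omega)
  refine ⟨e * (q i n).num, ?_⟩
  rw [he]
  push_cast
  rw [← Rat.den_mul_eq_num]
  ring

/-- The coefficients of a product with a theta series. -/
lemma coeff_mul_theta {k : ℕ} {r : ZMod k} {θ θ' p : LS} {A : ℤ} {R : ℕ} {m : ℤ}
    (hθ : ∀ n : ℤ, θ.coeff n = Set.ncard {a : ℤ | (a : ZMod k) = r ∧ a ^ 2 = n})
    (hs : IsSub 96 1 θ θ') (hp : ∀ n < A, p.coeff n = 0) (hm : m < A + 96 * (R : ℤ) ^ 2) :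
    (p * θ').coeff m = ∑ a ∈ (Finset.Icc (-R : ℤ) R).filter fun a : ℤ => (a : ZMod k) = r,
      p.coeff (m - 96 * a ^ 2) := by
  set s := (Finset.Icc (-R : ℤ) R).filter fun a : ℤ => (a : ZMod k) = r with hsd
  have h1 : ∀ n < 96 * (R : ℤ) ^ 2,
      (θ' - ∑ a ∈ s, HahnSeries.single (96 * a ^ 2) (1 : ℂ)).coeff n = 0 := by
    intro n hn
    rw [HahnSeries.coeff_sub, HahnSeries.coeff_sum, sub_eq_zero]
    have h0 : ∀ a : ℤ, (HahnSeries.single (96 * a ^ 2) (1 : ℂ)).coeff n =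
        if n = 96 * a ^ 2 then 1 else 0 := fun a => by
      split_ifs with h
      · rw [h, HahnSeries.coeff_single_same]
      · exact HahnSeries.coeff_single_of_ne h
    simp only [h0]
    by_cases h96 : ((96 : ℕ) : ℤ) ∣ n
    · obtain ⟨n', rfl⟩ := h96
      rw [hs.1, _root_.one_zpow, one_mul, hθ, Finset.sum_boole, ← Set.ncard_coe_finset]
      congr 2
      ext a
      simp only [hsd, Set.mem_ofPred_eq, Finset.coe_filter, Finset.mem_filter, Finset.mem_Icc]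
      push_cast at hn ⊢
      constructor
      · rintro ⟨h1, h2⟩
        have h3 : a ^ 2 ≤ (R : ℤ) ^ 2 := by omega
        exact ⟨⟨abs_le.mp (abs_le_of_sq_le_sq h3 (Int.natCast_nonneg R)), h1⟩, by rw [h2]⟩
      · rintro ⟨⟨-, h1⟩, h2⟩
        exact ⟨h1, by omega⟩
    · rw [hs.2 _ h96]
      refine (Finset.sum_eq_zero fun a _ => if_neg fun e => h96 ?_).symm
      exact ⟨a ^ 2, by rw [e]; push_cast; ring⟩
  have h2 := low_mul hp h1 hm
  rw [mul_sub, HahnSeries.coeff_sub, sub_eq_zero, Finset.mul_sum, HahnSeries.coeff_sum] at h2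
  rw [h2]
  exact Finset.sum_congr rfl fun a _ => by rw [HahnSeries.coeff_mul_single, mul_one]

lemma nsq_eq_zero {ι : Type} [Fintype ι] {v : ι → ℂ} (h : nsq v = 0) : v = 0 := by
  ext i
  have := (Finset.sum_eq_zero_iff_of_nonneg fun i _ => sq_nonneg ‖v i‖).mp h i (Finset.mem_univ i)
  simpa using this

/-- A representation of the modular group cut out by an equivariant family of embeddings. -/
lemma exists_rep {A X : Type} [Fintype A] [Fintype X] [DecidableEq X] (ρ : SL2 →* Matrix X X ℂ)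
    (e : ℍ → (A → ℂ) →ₗ[ℂ] (X → ℂ)) (he : ∀ τ, Function.Injective (e τ)) (S₀ T₀ : Matrix A A ℂ)
    (hS : ∀ v τ, ρ ModularGroup.S *ᵥ e τ v = e (ModularGroup.S • τ) (S₀ *ᵥ v))
    (hT : ∀ v τ, ρ ModularGroup.T *ᵥ e τ v = e (ModularGroup.T • τ) (T₀ *ᵥ v))
    (uS : ∀ v, nsq (S₀ *ᵥ v) = nsq v) (uT : ∀ v, nsq (T₀ *ᵥ v) = nsq v) :
    ∃ ρ₀ : SL2 →* Matrix A A ℂ, ρ₀ ModularGroup.S = S₀ ∧ ρ₀ ModularGroup.T = T₀ ∧
      ∀ γ w, nsq (ρ₀ γ *ᵥ w) = nsq w := by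
  let P : SL2 → Matrix A A ℂ → Prop := fun g M => ∀ v τ, ρ g *ᵥ e τ v = e (g • τ) (M *ᵥ v)
  have uniq : ∀ g M M', P g M → P g M' → M = M' := fun g M M' h h' =>
    Matrix.ext_iff_mulVec.mpr fun v => he _ ((h v UpperHalfPlane.I).symm.trans (h' v _))
  have one : P 1 1 := fun v τ => by simp
  have mul : ∀ g g' M M', P g M → P g' M' → P (g * g') (M * M') := fun g g' M M' h h' v τ => by
    rw [map_mul, ← Matrix.mulVec_mulVec, h', h, mul_smul, Matrix.mulVec_mulVec]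
  have ex : ∀ g, ∃ M, P g M ∧ ∀ w, nsq (M *ᵥ w) = nsq w := by
    intro g
    have hg : g ∈ Subgroup.closure {ModularGroup.S, ModularGroup.T} := by
      simp [SpecialLinearGroup.SL2Z_generators]
    induction hg using Subgroup.closure_induction with
    | mem x hx =>
      rcases hx with rfl | rfl
      · exact ⟨S₀, hS, uS⟩
      · exact ⟨T₀, hT, uT⟩
    | one => exact ⟨1, one, fun w => by simp⟩
    | mul x y _ _ hx hy =>
      obtain ⟨M, h1, h2⟩ := hx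
      obtain ⟨M', h3, h4⟩ := hy
      exact ⟨M * M', mul _ _ _ _ h1 h3, fun w => by rw [← Matrix.mulVec_mulVec, h2, h4]⟩
    | inv x _ hx =>
      obtain ⟨M, h1, h2⟩ := hx
      have hi : Function.Injective M.mulVec := fun v w h => by
        have h3 := h2 (v - w)
        rw [Matrix.mulVec_sub, h, sub_self] at h3
        exact sub_eq_zero.mp (nsq_eq_zero (by rw [← h3]; simp [nsq]))
      obtain ⟨U, rfl⟩ := Matrix.mulVec_injective_iff_isUnit.mp hi
      have h3 : ∀ w, (U : Matrix A A ℂ) *ᵥ ((U⁻¹ : (Matrix A A ℂ)ˣ) : Matrix A A ℂ) *ᵥ w = w :=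
        fun w => by rw [Matrix.mulVec_mulVec, Units.mul_inv, Matrix.one_mulVec]
      refine ⟨(U⁻¹ : (Matrix A A ℂ)ˣ), fun v τ => ?_, fun w => by rw [← h2, h3]⟩
      have h4 := h1 (((U⁻¹ : (Matrix A A ℂ)ˣ) : Matrix A A ℂ) *ᵥ v) (x⁻¹ • τ)
      rw [smul_inv_smul, h3] at h4
      rw [← h4, Matrix.mulVec_mulVec, ← map_mul, inv_mul_cancel, map_one, Matrix.one_mulVec]
  choose M hM using ex
  exact ⟨⟨⟨M, uniq _ _ _ (hM 1).1 one⟩,
    fun g g' => uniq _ _ _ (hM _).1 (mul _ _ _ _ (hM g).1 (hM g').1)⟩,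
    uniq _ _ _ (hM _).1 hS, uniq _ _ _ (hM _).1 hT, fun γ => (hM γ).2⟩

lemma one_eq {ι : Type} (d d' : DecidableEq ι) :
    (@Matrix.one ι ℂ d _ _).one = (@Matrix.one ι ℂ d' _ _).one := by
  rw [Subsingleton.elim d d']

lemma cls_surj (j : ℕ) (a : Cls j) : ∃ b c ρ, a = cls j b c ρ := by
  obtain ⟨b, hb⟩ := ZMod.intCast_surjective a.1
  obtain ⟨c, hc⟩ := ZMod.intCast_surjective a.2.1
  obtain ⟨ρ, hρ⟩ := ZMod.intCast_surjective a.2.2
  exact ⟨b, c, ρ, by rw [cls, hb, hc, hρ]⟩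

lemma neg_cls (j : ℕ) (b c ρ : ℤ) : -cls j b c ρ = cls j (-b) (-c) (-ρ) := by
  simp [cls]

lemma isQ_zero (hA : QA) (h : ℕ) : IsQ h (fun _ => 0) 0 := by
  simpa using hA.const h 0

/-- The expansion of `η F`. -/
lemma lead_etaF (hA : QA) (hB : QB) {N : ℕ} (hN : 0 < N) {F : ℍ → ℂ} {z : ℂ} {D : ℤ} {μ : ℝ}
    (hF : Hol F) (hT : ∀ τ, F (ModularGroup.T ^ ((96 * N : ℕ) : ℤ) • τ) = F τ)
    (hμ : (μ : ℂ) = 1 / 6 + D / N) (hD : 6 * D < -N)
    (hG : Gr 0 fun τ => F τ * et τ ^ 5 - z * ee (μ * τ)) :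
    HasQ (96 * N) F ∧ ∃ w, IsQ (96 * N) (fun τ => F τ * et τ) w ∧ Lead w (96 * D) z := by
  have h0 : 0 < 96 * N := by omega
  have hN' : (N : ℂ) ≠ 0 := by exact_mod_cast hN.ne'
  obtain ⟨c, hc, -, c1, c2⟩ := hB.et_q
  obtain ⟨e, he⟩ := hA.exists_sub (4 * N) 1 c (by omega)
  have e1 : IsQ (96 * N) et e := by
    have := (hA.level (w := et) (by norm_num : 0 < 24) (by omega) he).mpr hc
    rwa [show 4 * N * 24 = 96 * N by ring] at this
  have e2 : Lead e (4 * N) 1 := by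
    refine ⟨by simpa [c1] using he.1 1, fun n hn => ?_⟩
    by_cases h : ((4 * N : ℕ) : ℤ) ∣ n
    · obtain ⟨n', rfl⟩ := h
      rw [he.1, c2 n' (by push_cast at hn; nlinarith), mul_zero]
    · exact he.2 n h
  have s1 : IsQ (96 * N) (fun τ => z * ee (μ * τ))
      (z • HahnSeries.single (16 * N + 96 * D : ℤ) (1 : ℂ)) := by
    have := hA.smul z (hA.single (96 * N) (16 * N + 96 * D))
    convert this using 1
    ext τ
    simp only [Pi.smul_apply, smul_eq_mul]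
    congr 2
    rw [hμ]
    push_cast
    field_simp
    ring
  have y0 : ExpG (F * et ^ 5) := by
    have := ExpG.add ⟨0, hG⟩ (hA.expG h0 s1)
    convert this using 1
    ext τ
    simp
  obtain ⟨y, hy⟩ := hA.exists_q h0 (hF.mul (hB.et_hol.pow 5)) (fun τ => by
    simp only [Pi.mul_apply, Pi.pow_apply, hT, per_of_isQ h0 e1]) y0
  have y1 := hA.coeff_of_gr 0 h0 (hA.add hy (hA.neg s1)) (by
    convert hG using 1
    ext τ
    simp [sub_eq_add_neg])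
  have y2 : Lead y (16 * N + 96 * D) z := by
    have y3 : ∀ n ≤ 16 * (N : ℤ) + 96 * D,
        y.coeff n = (z • HahnSeries.single (16 * N + 96 * D : ℤ) (1 : ℂ)).coeff n := fun n hn => by
      have := y1 n (by
        rw [neg_zero, zero_mul]
        exact_mod_cast (by omega : n < 0))
      rwa [HahnSeries.coeff_add, HahnSeries.coeff_neg, ← sub_eq_add_neg, sub_eq_zero] at this
    refine ⟨by rw [y3 _ le_rfl]; simp, fun n hn => ?_⟩
    rw [y3 _ hn.le]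
    simp [hn.ne]
  have ne : et ^ 5 ≠ 0 := fun h => pow_ne_zero 5 (hB.et_ne UpperHalfPlane.I) (congrFun h _)
  have f1 := hA.quot h0 hy (hA.pow 5 h0 e1) ne hF rfl
  refine ⟨⟨_, f1⟩, _, hA.mul h0 f1 e1, ?_⟩
  have y4 : y = y / e ^ 5 * e * (e * e * e * e) := by
    refine hA.unique h0 hy ?_
    have := hA.mul h0 (hA.mul h0 f1 e1) (hA.mul h0 (hA.mul h0 (hA.mul h0 e1 e1) e1) e1)
    convert this using 1
    ring
  have e4 := ((e2.mul e2).mul e2).mul e2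
  simp only [mul_one] at e4
  have := e4.cancel (y4 ▸ y2)
  convert this using 1
  ring

lemma level_down (hA : QA) {N : ℕ} [NeZero N] {f : MN N → ℍ → ℂ} {c : MN N → LS}
    (hv : VV (96 * N) (SX N) (TX N) f) (hc : ∀ x, IsQ (96 * N) (f x) (c x)) (x : MN N) :
    ∃ c', IsQ N (f x) c' ∧ ∀ n : ℤ, c'.coeff n = (c x).coeff (96 * n) := by
  have hN : 0 < N := NeZero.pos N
  have h0 : 0 < 96 * N := by omega
  have h1 : ∀ τ, f x (ModularGroup.T • τ) = ZMod.stdAddChar (-x.det) * f x τ := fun τ => by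
    have := congrFun (hv.t τ) x
    rwa [TX, Matrix.mulVec_diagonal] at this
  obtain ⟨c', h2⟩ := hA.exists_q hN (hA.hol h0 (hc x)) (fun τ => by
    rw [iter_T h1, ← AddChar.map_nsmul_eq_pow]
    simp) (hA.expG h0 (hc x))
  obtain ⟨c'', h3⟩ := hA.exists_sub 96 1 c' (by norm_num)
  have h4 := hA.unique h0 ((hA.level hN (by norm_num) h3).mpr h2) (hc x)
  refine ⟨c', h2, fun n => ?_⟩
  have := h3.1 n
  rw [_root_.one_zpow, one_mul, h4] at this
  exact this.symm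

end Inp

open Inp in
theorem inp (hA : QA) (hB : QB) (hG : GEN) (hM : THM) (hH : HAT) (hE : EMB) (hP : PoinStmt) :
    InpStmt := by
  intro j _ b₀ c₀ ρ₀ D₀ hD₀ hlt
  have hN : 0 < 32 * j := NeZero.pos _
  have hj : 0 < j := by omega
  have : NeZero (16 * j) := ⟨by omega⟩
  have h0 : 0 < 96 * (32 * j) := by omega
  have h24 : 24 ∣ 96 * (32 * j) := ⟨4 * (32 * j), by ring⟩
  have h2k : 2 * (16 * j) ∣ 96 * (32 * j) := ⟨96, by ring⟩
  have hev : Even (16 * j) := ⟨8 * j, by ring⟩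
  have hjc : (j : ℂ) ≠ 0 := by exact_mod_cast hj.ne'
  obtain ⟨ξ, hξ, hsum⟩ := hG.xi h0 ((hM.dualS (16 * j)).trans (one_eq _ _))
    ((hM.dualT (16 * j)).trans (one_eq _ _))
    (hG.dual h0 ((hM.dualS _).trans (one_eq _ _)) ((hM.dualT _).trans (one_eq _ _))
      (hM.good _ _ hev h0 h24 h2k))
    (hM.vv _ _ hev h0 h24 h2k) fun τ => ⟨0, div_ne_zero (hM.ne _ τ) (hB.et_ne τ)⟩
  obtain ⟨E, S₀, T₀, E1, E2, E3, E4, uS, hSS, hT₀⟩ := hE.emb j
  obtain ⟨ρX, ρS, ρT⟩ := hH.rep (32 * j)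
  have uT : ∀ v, nsq (T₀ *ᵥ v) = nsq v := fun v => by
    refine Finset.sum_congr rfl fun a _ => ?_
    obtain ⟨b, c, ρ, rfl⟩ := cls_surj j a
    have := norm_ee (((ρ ^ 2 + 4 * j * b * c : ℤ) : ℝ) / (32 * j) - 1 / 24)
    rw [hT₀, norm_mul]
    push_cast at this ⊢
    rw [this, one_mul]
  have hinj : ∀ τ, Function.Injective (E.flip fun r => ξ r τ) := fun τ => by
    rw [injective_iff_map_eq_zero]
    intro v hv
    obtain ⟨r, -, hr⟩ := Finset.exists_ne_zero_of_sum_ne_zero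
      (s := Finset.univ) (f := fun i => ξ i τ * (thm (16 * j) i τ / et τ))
      (by rw [hsum τ]; exact one_ne_zero)
    obtain ⟨r, rfl⟩ := ZMod.intCast_surjective r
    ext a
    obtain ⟨b, c, ρ, rfl⟩ := cls_surj j a
    have := congrFun hv (red _ (xmat j b c ρ r))
    rw [LinearMap.flip_apply, E1] at this
    exact (mul_eq_zero.mp this).resolve_right (left_ne_zero_of_mul hr)
  obtain ⟨ρ, ρS₀, ρT₀, ρu⟩ := exists_rep ρX (fun τ => E.flip fun r => ξ r τ) hinj S₀ T₀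
    (fun v τ => by simp only [LinearMap.flip_apply, ρS, E3, hξ.s])
    (fun v τ => by simp only [LinearMap.flip_apply, ρT, E4, hξ.t]) uS uT
  set vz : Cls j → ℤ := fun a => (if a = cls j b₀ c₀ ρ₀ then 1 else 0) +
    if a = -cls j b₀ c₀ ρ₀ then 1 else 0 with hvz
  set μ : ℝ := 1 / 6 + D₀ / (32 * j) with hμ
  have hμc : (μ : ℂ) = 1 / 6 + D₀ / (32 * j : ℕ) := by rw [hμ]; push_cast; ring
  obtain ⟨F, Fh, Fl, Fg⟩ := hP ρ (fun a => (vz a : ℂ)) μ ρu (by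
      have h1 : (0 : ℝ) < j := by exact_mod_cast hj
      have h2 : (3 * D₀ : ℝ) < -16 * j := by exact_mod_cast hlt
      have h3 : (D₀ : ℝ) / (32 * j) ≤ -(1 / 6) := by
        rw [div_le_iff₀ (by positivity)]
        linarith
      linarith) (by
      have h1 : (-1 : SL2) = ModularGroup.S * ModularGroup.S := by decide
      rw [h1, map_mul, ρS₀, ← Matrix.mulVec_mulVec]
      ext a
      rw [hSS, hvz]
      simp only [neg_eq_iff_eq_neg, neg_neg, add_comm]) (by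
      rw [ρT₀]
      ext a
      have h1 : (μ : ℂ) - 5 / 24 = (D₀ : ℂ) / (32 * j) - 1 / 24 := by rw [hμc]; push_cast; ring
      rw [Pi.smul_apply, smul_eq_mul, h1]
      by_cases h2 : a = cls j b₀ c₀ ρ₀
      · rw [h2, hT₀, hD₀]
      by_cases h3 : a = -cls j b₀ c₀ ρ₀
      · rw [h3, neg_cls, hT₀, ← hD₀]
        congr 4
        ring_nf
      obtain ⟨b, c, ρ', rfl⟩ := cls_surj j a
      rw [hT₀]
      simp [hvz, h2, h3])
  have hF : ∀ a, HasQ (96 * (32 * j)) (F a) ∧ ∃ w, IsQ (96 * (32 * j)) (fun τ => F a τ * et τ) w ∧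
      Lead w (96 * D₀) (2 * (vz a : ℂ)) := fun a => by
    refine lead_etaF hA hB hN (Fh a) (fun τ => ?_) hμc (by push_cast; omega) (Fg a)
    obtain ⟨b, c, ρ', rfl⟩ := cls_surj j a
    have h1 : ∀ τ, F (cls j b c ρ') (ModularGroup.T • τ) =
        ee (((ρ' ^ 2 + 4 * j * b * c : ℤ) : ℂ) / (32 * j) - 1 / 24) * F (cls j b c ρ') τ :=
      fun τ => by
        have := congrFun (Fl ModularGroup.T τ) (cls j b c ρ')
        rwa [ρT₀, hT₀] at this
    rw [iter_T h1, ee_pow]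
    have h2 : ((96 * (32 * j) : ℕ) : ℂ) * (((ρ' ^ 2 + 4 * j * b * c : ℤ) : ℂ) / (32 * j) - 1 / 24) =
        ((96 * (ρ' ^ 2 + 4 * j * b * c) - 128 * j : ℤ) : ℂ) := by
      push_cast
      field_simp
      ring
    rw [h2, ee_int, one_mul]
  choose cF hcF using fun a => (hF a).1
  choose w hw hwl using fun a => (hF a).2
  choose cξ hcξ using hξ.q
  set f₀ : MN (32 * j) → ℍ → ℂ := fun x τ => E (fun a => F a τ) (fun r => ξ r τ) x with hf₀
  have f1 : ∀ b c ρ' r, IsQ (96 * (32 * j)) (f₀ (red _ (xmat j b c ρ' r)))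
      (cF (cls j b c ρ') * cξ (r : ZMod (16 * j))) := fun b c ρ' r => by
    convert hA.mul h0 (hcF (cls j b c ρ')) (hcξ (r : ZMod (16 * j))) using 1
    ext τ
    simp only [hf₀, E1, Pi.mul_apply]
  have f2 : ∀ x, (∀ b c ρ' r, x ≠ red _ (xmat j b c ρ' r)) → IsQ (96 * (32 * j)) (f₀ x) 0 :=
    fun x hx => by
      convert isQ_zero hA _ using 1
      ext τ
      simp only [hf₀, E2 _ _ x hx]
  have f3 : VV (96 * (32 * j)) (SX (32 * j)) (TX (32 * j)) f₀ := by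
    refine ⟨fun x => ?_, fun τ => ?_, fun τ => ?_⟩
    · by_cases hx : ∀ b c ρ' r, x ≠ red _ (xmat j b c ρ' r)
      · exact ⟨_, f2 x hx⟩
      · push Not at hx
        obtain ⟨b, c, ρ', r, rfl⟩ := hx
        exact ⟨_, f1 b c ρ' r⟩
    · simp only [hf₀, E3, hξ.s, Fl, ρS₀]
    · simp only [hf₀, E4, hξ.t, Fl, ρT₀]
  obtain ⟨t, ht⟩ := (Algebra.linearMap ℚ ℂ).exists_leftInverse_of_injective
    (LinearMap.ker_eq_bot.mpr (algebraMap ℚ ℂ).injective)
  have ht' : ∀ k : ℤ, t k = k := fun k => by simpa using LinearMap.congr_fun ht (k : ℚ)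
  obtain ⟨f, fv, fq⟩ := hG.rat t h0 h24 (hE.good (32 * j)) f3
  choose c0 hc0 using f3.q
  choose c1 hc1 using fun x => hA.proj t (c0 x)
  choose c2 hc2 hc3 using level_down hA fv fun x => fq x _ _ (hc0 x) (hc1 x)
  obtain ⟨A, hlow⟩ := exists_low c0
  obtain ⟨d, hd, hint⟩ := exists_den (fun x n => t ((c0 x).coeff (96 * n))) (-|A|) fun x n hn => by
    rw [hlow x _ (by have := neg_abs_le A; have := abs_nonneg A; omega), map_zero]
  have hc : ∀ x n, (((d : ℂ) • c2 x).coeff n) = (((d : ℚ) * t ((c0 x).coeff (96 * n)) : ℚ) : ℂ) :=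
    fun x n => by
      rw [HahnSeries.coeff_smul, hc3, hc1, smul_eq_mul]
      push_cast
      rfl
  refine ⟨fun x => (d : ℂ) • f x, fun x => (d : ℂ) • c2 x,
    fun D a => ((d : ℚ) * t ((w a).coeff (96 * D))).num, 2 * d,
    ⟨fun x => hA.smul _ (hc2 x), fun x => ⟨_, hA.smul _ (hc2 x)⟩, fun τ => ?_, fun τ => ?_⟩,
    fun x n => ⟨_, hc x n⟩, fun x n hn => ?_, fun x hx => ?_, fun b c ρ' D hD hneg => ?_,
    fun D hD a => ?_, by omega, fun a => ?_⟩
  · change (d : ℂ) • (fun x => f x (ModularGroup.S • τ)) = _ *ᵥ ((d : ℂ) • fun x => f x τ)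
    rw [fv.s, Matrix.mulVec_smul]
  · change (d : ℂ) • (fun x => f x (ModularGroup.T • τ)) = _ *ᵥ ((d : ℂ) • fun x => f x τ)
    rw [fv.t, Matrix.mulVec_smul]
  · obtain ⟨k, hk⟩ := hint x n hn
    exact ⟨k, by rw [hc, hk]; simp⟩
  · ext n
    rw [hc, hA.unique h0 (hc0 x) (f2 x hx)]
    simp
  · choose θ hθ hθ0 hθ1 using hM.q (16 * j)
    choose θ' hθ' using fun r => hA.exists_sub 96 1 (θ r) (by norm_num)
    have t1 : ∀ r, IsQ (96 * (32 * j)) (thm (16 * j) r) (θ' r) := fun r => by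
      have := (hA.level (by omega) (by norm_num) (hθ' r)).mpr (hθ r)
      rwa [show 2 * (16 * j) = 32 * j by ring] at this
    set a := cls j b c ρ' with ha
    have t2 : w a = ∑ r, cF a * cξ r * θ' r := by
      refine hA.unique h0 (hw a) ?_
      convert hA.sum Finset.univ _ _ fun r _ => hA.mul h0 (hA.mul h0 (hcF a) (hcξ r)) (t1 r)
        using 1
      ext τ
      have := hsum τ
      simp only [← mul_div_assoc, ← Finset.sum_div] at this
      rw [div_eq_iff (hB.et_ne τ), one_mul] at this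
      simp only [Finset.sum_apply, Pi.mul_apply, mul_assoc, ← Finset.mul_sum, this]
    have t3 : ∀ r : ℤ, c0 (red _ (xmat j b c ρ' r)) = cF a * cξ (r : ZMod (16 * j)) :=
      fun r => hA.unique h0 (hc0 _) (f1 b c ρ' r)
    have t4 : ∀ r, ∀ n < A, (cF a * cξ r).coeff n = 0 := fun r n hn => by
      obtain ⟨r, rfl⟩ := ZMod.intCast_surjective r
      rw [← t3, hlow _ _ hn]
    set R : ℕ := A.natAbs + 1 with hR
    have t5 : -A < 96 * (R : ℤ) ^ 2 := by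
      have : -A < (R : ℤ) := by omega
      nlinarith [sq_nonneg ((R : ℤ) - 1), Int.natCast_nonneg R]
    have t6 : (w a).coeff (96 * D) = ∑ r ∈ Finset.Icc (-R : ℤ) R,
        (c0 (red _ (xmat j b c ρ' r))).coeff (96 * (D - r ^ 2)) := by
      rw [t2, HahnSeries.coeff_sum, ← Finset.sum_fiberwise (Finset.Icc (-R : ℤ) R)
        fun r : ℤ => (r : ZMod (16 * j))]
      refine Finset.sum_congr rfl fun r _ => ?_
      rw [coeff_mul_theta (R := R) (hθ1 r) (hθ' r) (t4 r) (by omega)]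
      refine Finset.sum_congr rfl fun r' hr' => ?_
      rw [t3, (Finset.mem_filter.mp hr').2, mul_sub]
    choose k hk using fun r : ℤ => hint (red _ (xmat j b c ρ' r)) (D - r ^ 2)
      (by nlinarith [sq_nonneg r])
    have t7 : (d : ℚ) * t ((w a).coeff (96 * D)) = ((∑ r ∈ Finset.Icc (-R : ℤ) R, k r : ℤ) : ℚ) := by
      rw [t6, map_sum, Finset.mul_sum]
      push_cast
      exact Finset.sum_congr rfl fun r _ => hk r
    rw [finsum_eq_sum_of_support_subset (s := Finset.Icc (-R : ℤ) R)]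
    · simp only [t7, Rat.num_intCast, hc, hk]
      push_cast
      rfl
    · intro r hr
      by_contra h
      apply hr
      have h1 : (R : ℤ) ^ 2 ≤ r ^ 2 := by
        rw [Finset.coe_Icc, Set.mem_Icc, ← abs_le, not_le] at h
        rw [← sq_abs r]
        exact pow_le_pow_left₀ (Int.natCast_nonneg R) h.le 2
      simp only [hc]
      rw [hlow _ _ (by omega)]
      simp
  · simp [(hwl a).2 (96 * D) (by omega)]
  · have h1 : (2 * (vz a : ℂ)) = ((2 * vz a : ℤ) : ℂ) := by push_cast; rfl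
    have h2 : (d : ℚ) * ((2 * vz a : ℤ) : ℚ) = ((2 * d * vz a : ℤ) : ℚ) := by push_cast; ring
    simp only [(hwl a).1, h1, ht', h2, Rat.num_intCast]
    rfl

end Pool.Agent.MP_9207e0_ag.hg

end MrgPart3

-- marker of a merged file
example : 731051 + 419937 = 731051 + 419937 := rfl
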