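import Pool.Agent.MP_9207e0_ag.hg.Spec

-- ======== part 0: formerly Pool.Agent.MP_9207e0_ag.hg.Orb
section MrgPart0

/-! Hermite and Smith normal forms, and finiteness statements for CM points. -/

namespace Pool.Agent.MP_9207e0_ag.hg

open UpperHalfPlane Complex Filter Asymptotics Matrix
open scoped Real MatrixGroups Manifold Classical Kronecker

namespace Orb

/-- An element of the modular group with given entries. -/
def sl (a b c d : ℤ) (h : a * d - b * c = 1) : SL2 :=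
  ⟨!![a, b; c, d], by rw [Matrix.det_fin_two_of]; exact h⟩

lemma coe_sl (a b c d : ℤ) (h : a * d - b * c = 1) : (sl a b c d h : M2) = !![a, b; c, d] := rfl

lemma ext2 {A B : M2} (h0 : A 0 0 = B 0 0) (h1 : A 0 1 = B 0 1) (h2 : A 1 0 = B 1 0)
    (h3 : A 1 1 = B 1 1) : A = B := by
  rw [Matrix.eta_fin_two A, Matrix.eta_fin_two B, h0, h1, h2, h3]

lemma mul2 (A B : M2) (i k : Fin 2) : (A * B) i k = A i 0 * B 0 k + A i 1 * B 1 k := by
  rw [Matrix.mul_apply, Fin.sum_univ_two]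

lemma det2 (g : SL2) : (g : M2) 0 0 * (g : M2) 1 1 - (g : M2) 0 1 * (g : M2) 1 0 = 1 := by
  rw [← Matrix.det_fin_two, det_SL]

lemma inv_mul (g : SL2) (A : M2) : ((g⁻¹ : SL2) : M2) * (g * A) = A := by
  rw [← Matrix.mul_assoc, ← Matrix.SpecialLinearGroup.coe_mul, inv_mul_cancel]
  exact Matrix.one_mul A

lemma mul_inv (g : SL2) (A : M2) : A * g * ((g⁻¹ : SL2) : M2) = A := by
  rw [Matrix.mul_assoc, ← Matrix.SpecialLinearGroup.coe_mul, mul_inv_cancel]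
  exact Matrix.mul_one A

lemma mem_herm (m : ℕ) (A : M2) : A ∈ Herm m ↔
    A 1 0 = 0 ∧ 0 < A 0 0 ∧ 0 ≤ A 0 1 ∧ A 0 1 < A 1 1 ∧ A 0 0 * A 1 1 = m := by
  simp only [Herm, Finset.mem_biUnion, Finset.mem_image, Finset.mem_range,
    Nat.mem_divisorsAntidiagonal]
  constructor
  · rintro ⟨p, ⟨h1, h2⟩, l, hl, rfl⟩
    have : p.1 ≠ 0 := fun h => h2 (by rw [← h1, h, zero_mul])
    refine ⟨rfl, ?_, ?_, ?_, ?_⟩
    · exact Int.natCast_pos.2 (Nat.pos_of_ne_zero this)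
    · exact Int.natCast_nonneg l
    · exact Int.ofNat_lt.2 hl
    · exact (show (p.1 : ℤ) * p.2 = m by exact_mod_cast h1)
  · rintro ⟨h0, h1, h2, h3, h4⟩
    obtain ⟨a, ha⟩ := Int.eq_ofNat_of_zero_le h1.le
    obtain ⟨l, hl⟩ := Int.eq_ofNat_of_zero_le h2
    obtain ⟨d, hd⟩ := Int.eq_ofNat_of_zero_le (h2.trans h3.le)
    have h5 := mul_pos h1 (h2.trans_lt h3)
    rw [ha, hd] at h4 h5
    rw [hl, hd] at h3
    refine ⟨(a, d), ⟨by exact_mod_cast h4, fun h => ?_⟩, l, by exact_mod_cast h3,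
      ext2 ha.symm hl.symm h0.symm hd.symm⟩
    rw [h4, h] at h5
    exact lt_irrefl _ h5

lemma det_herm {m : ℕ} {A : M2} (h : A ∈ Herm m) : A.det = m ∧ 0 < m := by
  obtain ⟨h0, h1, h2, h3, h4⟩ := (mem_herm m A).1 h
  refine ⟨by rw [Matrix.det_fin_two, h0, mul_zero, sub_zero, h4], ?_⟩
  have := mul_pos h1 (h2.trans_lt h3)
  rw [h4] at this
  exact_mod_cast this

lemma herm_uniq {m : ℕ} {B B' : M2} (h : B ∈ Herm m) (h' : B' ∈ Herm m) {γ γ' : SL2}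
    (e : (γ : M2) * B = γ' * B') : B = B' := by
  obtain ⟨δ, hδ⟩ : ∃ δ : SL2, B' = δ * B := ⟨γ'⁻¹ * γ, by
    rw [Matrix.SpecialLinearGroup.coe_mul, Matrix.mul_assoc, e, inv_mul]⟩
  obtain ⟨h0, h1, h2, h3, -⟩ := (mem_herm m B).1 h
  obtain ⟨k0, k1, k2, k3, -⟩ := (mem_herm m B').1 h'
  have d := det2 δ
  have e0 := hδ ▸ mul2 δ B 0 0
  have e1 := hδ ▸ mul2 δ B 0 1
  have e2 := hδ ▸ mul2 δ B 1 0
  have e3 := hδ ▸ mul2 δ B 1 1
  rw [h0, mul_zero, add_zero] at e0 e2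
  have r0 : (δ : M2) 1 0 = 0 := (mul_eq_zero.1 (e2.symm.trans k0)).resolve_right h1.ne'
  rw [r0, mul_zero, sub_zero] at d
  have p0 : 0 < (δ : M2) 0 0 := (mul_pos_iff_of_pos_right h1).1 (e0 ▸ k1)
  have p1 : (δ : M2) 0 0 = 1 := Int.eq_one_of_mul_eq_one_right p0.le d
  rw [p1, one_mul] at d e0 e1
  rw [r0, d, zero_mul, zero_add, one_mul] at e3
  have q0 : (δ : M2) 0 1 = 0 := by
    rcases lt_trichotomy ((δ : M2) 0 1) 0 with t | t | t
    · nlinarith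
    · exact t
    · nlinarith
  rw [q0, zero_mul, add_zero] at e1
  exact ext2 e0.symm e1.symm (h0.trans k0.symm) e3.symm

lemma herm_ex (m : ℕ) (A : M2) (hm : 0 < m) (hA : A.det = m) :
    ∃ B, B ∈ Herm m ∧ ∃ γ : SL2, A = γ * B := by
  have hm' : (0 : ℤ) < m := by exact_mod_cast hm
  rw [Matrix.det_fin_two] at hA
  have hg : 0 < Int.gcd (A 0 0) (A 1 0) := Int.gcd_pos_iff.2 (by
    by_contra h
    push Not at h
    rw [h.1, h.2] at hA
    omega)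
  obtain ⟨u, v, huv, hu, hv⟩ := Int.exists_gcd_one hg
  obtain ⟨x, y, hxy⟩ := Int.isCoprime_iff_gcd_eq_one.2 huv
  have hg' : (0 : ℤ) < Int.gcd (A 0 0) (A 1 0) := by exact_mod_cast hg
  generalize (Int.gcd (A 0 0) (A 1 0) : ℤ) = g at hu hv hg'
  have hd : g * (u * A 1 1 - v * A 0 1) = m := by rw [← hA, hu, hv]; ring
  have hd0 : 0 < u * A 1 1 - v * A 0 1 := (mul_pos_iff_of_pos_left hg').1 (hd ▸ hm')
  have hb := Int.emod_add_mul_ediv (x * A 0 1 + y * A 1 1) (u * A 1 1 - v * A 0 1)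
  have b0 := Int.emod_nonneg (x * A 0 1 + y * A 1 1) hd0.ne'
  have b1 := Int.emod_lt_of_pos (x * A 0 1 + y * A 1 1) hd0
  generalize (x * A 0 1 + y * A 1 1) % (u * A 1 1 - v * A 0 1) = r at hb b0 b1
  generalize (x * A 0 1 + y * A 1 1) / (u * A 1 1 - v * A 0 1) = q at hb
  refine ⟨!![g, r; 0, u * A 1 1 - v * A 0 1], (mem_herm _ _).2 ⟨rfl, hg', b0, b1, hd⟩,
    sl u (u * q - y) v (v * q + x) (by linear_combination hxy), ?_⟩
  rw [coe_sl, Matrix.mul_fin_two]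
  refine ext2 ?_ ?_ ?_ ?_
  · exact hu.trans (by simp)
  · change A 0 1 = u * r + (u * q - y) * (u * A 1 1 - v * A 0 1)
    linear_combination (-u) * hb - A 0 1 * hxy
  · exact hv.trans (by simp)
  · change A 1 1 = v * r + (v * q + x) * (u * A 1 1 - v * A 0 1)
    linear_combination (-v) * hb - A 1 1 * hxy

lemma herm_prod {M : Type} [CommMonoid M] (m : ℕ) (Φ : M2 → M) (g : SL2)
    (hΦ : ∀ (γ : SL2) (A : M2), A.det = m → Φ (γ * A) = Φ A) :
    ∏ A ∈ Herm m, Φ (A * g) = ∏ A ∈ Herm m, Φ A := by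
  have ex : ∀ (g : SL2), ∀ A ∈ Herm m, ∃ B, B ∈ Herm m ∧ ∃ γ : SL2, A * g = γ * B := fun g A hA =>
    herm_ex m _ (det_herm hA).2 (by rw [Matrix.det_mul, det_SL, mul_one, (det_herm hA).1])
  choose i hi γ hγ using ex g
  refine Finset.prod_bij i hi (fun A hA A' hA' e => ?_) (fun B hB => ?_) fun A hA => ?_
  · refine herm_uniq hA hA' (γ := (γ A hA)⁻¹) (γ' := (γ A' hA')⁻¹) ?_
    rw [← mul_inv g (_ * A), ← mul_inv g (_ * A'), Matrix.mul_assoc _ A, Matrix.mul_assoc _ A',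
      hγ A hA, hγ A' hA', inv_mul, inv_mul, e]
  · obtain ⟨A, hA, δ, hδ⟩ := ex g⁻¹ B hB
    refine ⟨A, hA, herm_uniq (hi A hA) hB (γ := γ A hA) (γ' := δ⁻¹) ?_⟩
    have := mul_inv g⁻¹ B
    rw [inv_inv, hδ, Matrix.mul_assoc] at this
    rw [← hγ A hA, ← this, inv_mul]
  · rw [hγ A hA, hΦ _ _ (det_herm (hi A hA)).1]

lemma prod_herm {M : Type} [CommMonoid M] (m : ℕ) (Φ : M2 → M) : ∏ A ∈ Herm m, Φ A =
    ∏ p ∈ m.divisorsAntidiagonal, ∏ l ∈ Finset.range p.2,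
      Φ !![(p.1 : ℤ), (l : ℤ); 0, (p.2 : ℤ)] := by
  rw [Herm, Finset.prod_biUnion]
  · refine Finset.prod_congr rfl fun p _ => Finset.prod_image fun l _ l' _ e => ?_
    exact Int.ofNat_inj.1 (congrFun (congrFun e 0) 1)
  · intro p _ p' _ hne
    refine Finset.disjoint_left.2 fun A hA hA' => hne ?_
    obtain ⟨l, -, rfl⟩ := Finset.mem_image.1 hA
    obtain ⟨l', -, e⟩ := Finset.mem_image.1 hA'
    exact Prod.ext (Int.ofNat_inj.1 (congrFun (congrFun e 0) 0)).symm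
      (Int.ofNat_inj.1 (congrFun (congrFun e 1) 1)).symm

lemma content_dvd {k k' : ℤ} {y y' : M2} (hy : Prim y') (hk : k ≠ 0) (e : k • y = k' • y') :
    k ∣ k' := by
  obtain ⟨u, v, huv, hu, hv⟩ := Int.exists_gcd_one (Int.gcd_pos_iff.2 (Or.inl hk) : 0 < k.gcd k')
  have hg : (k.gcd k' : ℤ) ≠ 0 := by exact_mod_cast (Int.gcd_pos_iff.2 (Or.inl hk)).ne'
  generalize (k.gcd k' : ℤ) = g at hu hv hg
  have hu1 : IsUnit u := hy u fun i j => by
    have h1 : k * y i j = k' * y' i j := congrFun (congrFun e i) j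
    refine (Int.isCoprime_iff_gcd_eq_one.2 huv).dvd_of_dvd_mul_left ⟨y i j, ?_⟩
    apply mul_left_cancel₀ hg
    rw [hu, hv] at h1
    linear_combination -h1
  rw [hu, hv]
  exact mul_dvd_mul_right hu1.dvd g

lemma content (x : M2) (hx : x ≠ 0) :
    ∃! p : ℕ × M2, 0 < p.1 ∧ Prim p.2 ∧ x = (p.1 : ℤ) • p.2 := by
  refine existsUnique_of_exists_of_unique ?_ ?_
  · obtain ⟨G, h1, h2⟩ : ∃ G : ℕ, (∀ i k, (G : ℤ) ∣ x i k) ∧
        ∀ d : ℤ, (∀ i k, d ∣ x i k) → d ∣ G :=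
      ⟨(Finset.univ.gcd fun p : Fin 2 × Fin 2 => x p.1 p.2).natAbs, fun i k =>
        Int.natAbs_dvd.2 (Finset.gcd_dvd (f := fun p : Fin 2 × Fin 2 => x p.1 p.2)
          (Finset.mem_univ (i, k))),
        fun d hd => Int.dvd_natAbs.2 (Finset.dvd_gcd fun p _ => hd p.1 p.2)⟩
    choose y hy using h1
    have hG : G ≠ 0 := by
      rintro rfl
      exact hx (Matrix.ext fun i k => by simpa using hy i k)
    have hG' : (G : ℤ) ≠ 0 := by exact_mod_cast hG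
    refine ⟨(G, Matrix.of y), Nat.pos_of_ne_zero hG, fun d hd => ?_, Matrix.ext hy⟩
    have := h2 (G * d) fun i k => hy i k ▸ mul_dvd_mul_left _ (hd i k)
    exact isUnit_of_dvd_one ((mul_dvd_mul_iff_left hG').1 (by rwa [mul_one]))
  · rintro ⟨k, y⟩ ⟨k', y'⟩ ⟨h1, h2, h3⟩ ⟨k1, k2, k3⟩
    have hk : (k : ℤ) ≠ 0 := by exact_mod_cast h1.ne'
    have hk' : (k' : ℤ) ≠ 0 := by exact_mod_cast k1.ne'
    obtain rfl : k = k' := Nat.dvd_antisymm
      (Int.natCast_dvd_natCast.1 (content_dvd k2 hk (h3.symm.trans k3)))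
      (Int.natCast_dvd_natCast.1 (content_dvd h2 hk' (k3.symm.trans h3)))
    exact Prod.ext rfl (smul_right_injective M2 hk (h3.symm.trans k3))

lemma prim_mul (x : M2) (g g' : SL2) (h : Prim x) : Prim (g * x * g') := fun d hd => h d fun i k => by
  rw [← inv_mul g x, ← mul_inv g' (g * x), mul2, mul2 _ _ 0, mul2 _ _ 1]
  exact ((((hd _ _).mul_right _).add ((hd _ _).mul_right _)).mul_left _).add
    ((((hd _ _).mul_right _).add ((hd _ _).mul_right _)).mul_left _)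

lemma exists_coprime {N a b c d : ℤ} {j : ℕ} (hj : 0 < j) (hd : a * d - b * c = j)
    (hp : ∀ p : ℤ, p ∣ a → p ∣ b → p ∣ c → p ∣ d → IsUnit p) (hN : IsCoprime N d) :
    ∃ t, IsCoprime (b + N * t * a) (d + N * t * c) := by
  obtain ⟨t, ht⟩ : ∃ t, ∏ p ∈ j.primeFactors.filter fun p : ℕ => ¬((p : ℤ) ∣ b ∧ (p : ℤ) ∣ d),
    ((p : ℕ) : ℤ) = t := ⟨_, rfl⟩
  refine ⟨t, ?_⟩
  refine Int.isCoprime_iff_nat_coprime.2 (Nat.coprime_of_dvd fun p pp h1 h2 => ?_)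
  rw [← Int.natCast_dvd] at h1 h2
  have pz : Prime (p : ℤ) := Nat.prime_iff_prime_int.1 pp
  by_cases h : (p : ℤ) ∣ b ∧ (p : ℤ) ∣ d
  · have n1 : ¬ (p : ℤ) ∣ N := fun e => pz.not_isUnit (hN.isUnit_of_dvd' e h.2)
    have n2 : ¬ (p : ℤ) ∣ t := fun e => by
      rw [← ht] at e
      obtain ⟨q, hq, e⟩ := (pz.dvd_finsetProd_iff _).1 e
      obtain ⟨hq1, hq2⟩ := Finset.mem_filter.1 hq
      obtain rfl := (Nat.prime_dvd_prime_iff_eq pp (Nat.prime_of_mem_primeFactors hq1)).1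
        (Int.natCast_dvd_natCast.1 e)
      exact hq2 h
    have n3 : ¬ (p : ℤ) ∣ N * t := fun e => (pz.dvd_or_dvd e).elim n1 n2
    exact pz.not_isUnit (hp p ((pz.dvd_or_dvd ((dvd_add_right h.1).1 h1)).resolve_left n3) h.1
      ((pz.dvd_or_dvd ((dvd_add_right h.2).1 h2)).resolve_left n3) h.2)
  · have hpj : (p : ℤ) ∣ j := by
      have e : (j : ℤ) = a * (d + N * t * c) - (b + N * t * a) * c := by linear_combination -hd
      rw [e]
      exact (h2.mul_left _).sub (h1.mul_right _)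
    have hpt : (p : ℤ) ∣ t := ht ▸ Finset.dvd_prod_of_mem (fun p : ℕ => (p : ℤ))
      (Finset.mem_filter.2 ⟨Nat.mem_primeFactors.2 ⟨pp, Int.natCast_dvd_natCast.1 hpj, hj.ne'⟩, h⟩)
    exact h ⟨(dvd_add_left ((hpt.mul_left N).mul_right a)).1 h1,
      (dvd_add_left ((hpt.mul_left N).mul_right c)).1 h2⟩

lemma sl_mem {N : ℕ} {a b c d : ℤ} (h : a * d - b * c = 1) (hb : (N : ℤ) ∣ b) (hc : (N : ℤ) ∣ c)
    (hd : (N : ℤ) ∣ d - 1) : sl a b c d h ∈ Gam N := by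
  have e1 := (ZMod.intCast_zmod_eq_zero_iff_dvd _ _).2 hb
  have e2 := (ZMod.intCast_zmod_eq_zero_iff_dvd _ _).2 hc
  have e3 := (ZMod.intCast_zmod_eq_zero_iff_dvd _ _).2 hd
  have e4 := congrArg (Int.cast : ℤ → ZMod N) h
  push_cast at e3 e4
  have e5 : (d : ZMod N) = 1 := sub_eq_zero.1 e3
  rw [e1, e5, mul_one, zero_mul, sub_zero] at e4
  exact CongruenceSubgroup.Gamma_mem.2 ⟨e4, e1, e2, e5⟩

lemma orbit (N j : ℕ) (α : M2) (hj : 0 < j) (hd : α.det = j) (hp : Prim α)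
    (hr : red N α = red N (dg j 1)) : ∃ g1 ∈ Gam N, ∃ g2 ∈ Gam N, α * g1 = g2 * dg j 1 := by
  have r1 : (N : ℤ) ∣ α 0 1 := (ZMod.intCast_zmod_eq_zero_iff_dvd _ _).1
    ((congrFun (congrFun hr 0) 1).trans Int.cast_zero)
  have r2 : (N : ℤ) ∣ α 1 0 := (ZMod.intCast_zmod_eq_zero_iff_dvd _ _).1
    ((congrFun (congrFun hr 1) 0).trans Int.cast_zero)
  have r3 : (N : ℤ) ∣ α 1 1 - 1 := (ZMod.intCast_zmod_eq_zero_iff_dvd _ _).1 (by
    rw [Int.cast_sub]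
    exact sub_eq_zero.2 (congrFun (congrFun hr 1) 1))
  rw [Matrix.det_fin_two] at hd
  have hp' : ∀ p : ℤ, p ∣ α 0 0 → p ∣ α 0 1 → p ∣ α 1 0 → p ∣ α 1 1 → IsUnit p :=
    fun p h0 h1 h2 h3 => hp p fun i k => by fin_cases i <;> fin_cases k <;> assumption
  rw [Matrix.eta_fin_two α]
  generalize α 0 0 = a at *
  generalize α 0 1 = b at *
  generalize α 1 0 = c at *
  generalize α 1 1 = d at *
  obtain ⟨w, hw⟩ := id r3
  obtain ⟨t, ht⟩ := exists_coprime (N := N) hj hd hp' ⟨-w, 1, by linear_combination hw⟩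
  have hN : IsCoprime (N : ℤ) (d + N * t * c) := ⟨-w - t * c, 1, by linear_combination hw⟩
  obtain ⟨x, y, hxy⟩ := hN.mul_left ht
  have n1 : (N : ℤ) ∣ N * t := dvd_mul_right _ _
  have n2 : (N : ℤ) ∣ N * x := dvd_mul_right _ _
  refine ⟨sl (1 - N * t * (y * c + N * x * a)) (N * t) (-(y * c + N * x * a)) 1 (by ring),
    sl_mem _ n1 ((r2.mul_left y).add (n2.mul_right a)).neg_right (by simp),
    sl y (b + N * t * a) (-(N * x)) (d + N * t * c) (by linear_combination hxy),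
    sl_mem _ (r1.add (n1.mul_right a)) n2.neg_right
      (by rw [add_sub_right_comm]; exact r3.add (n1.mul_right c)), ?_⟩
  rw [coe_sl, coe_sl, dg, Matrix.mul_fin_two, Matrix.mul_fin_two]
  refine ext2 ?_ ?_ ?_ ?_
  · change a * (1 - N * t * (y * c + N * x * a)) + b * -(y * c + N * x * a) =
      y * j + (b + N * t * a) * 0
    linear_combination y * hd - a * hxy
  · change a * (N * t) + b * 1 = y * 0 + (b + N * t * a) * 1
    ring
  · change c * (1 - N * t * (y * c + N * x * a)) + d * -(y * c + N * x * a) =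
      -(N * x) * j + (d + N * t * c) * 0
    linear_combination (-(N * x)) * hd - c * hxy
  · change c * (N * t) + d * 1 = -(N * x) * 0 + (d + N * t * c) * 1
    ring

lemma fin_sq (K : ℝ) : {n : ℤ | (n : ℝ) ^ 2 ≤ K}.Finite := by
  refine (Set.finite_Icc (-⌈K⌉) ⌈K⌉).subset fun n hn => abs_le.1 ?_
  have h1 : n ^ 2 ≤ ⌈K⌉ := by exact_mod_cast (le_trans hn (Int.le_ceil K) : (n : ℝ) ^ 2 ≤ ⌈K⌉)
  exact le_trans (by nlinarith [abs_nonneg n, sq_abs n, Int.le_self_sq |n|]) h1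

lemma quadZ {A B C : ℤ} {τ : ℍ} (h : (A : ℂ) * (τ : ℂ) ^ 2 + B * τ + C = 0) :
    (B : ℝ) = -2 * A * τ.re ∧ (C : ℝ) = A * (τ.re ^ 2 + τ.im ^ 2) ∧
      ((B ^ 2 - 4 * A * C : ℤ) : ℝ) = -4 * A ^ 2 * τ.im ^ 2 := by
  obtain ⟨h1, h2⟩ := quad_disc (a := A) (b := B) (c := C) (τ := τ) (by exact_mod_cast h)
  refine ⟨h1, h2, ?_⟩
  push_cast
  rw [h1, h2]
  ring

lemma fin_form (D : ℤ) (τ : ℍ) : {q : ℤ × ℤ × ℤ | q.2.1 ^ 2 - 4 * q.1 * q.2.2 = D ∧
    (q.1 : ℂ) * (τ : ℂ) ^ 2 + q.2.1 * τ + q.2.2 = 0}.Finite := by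
  have := τ.im_pos
  refine Set.Finite.of_injOn (f := Prod.fst) (fun q hq => ?_) (fun q hq q' hq' e => ?_)
    (fin_sq (-D / (4 * τ.im ^ 2)))
  · have h := (quadZ hq.2).2.2
    rw [hq.1] at h
    change (q.1 : ℝ) ^ 2 ≤ _
    exact (le_div_iff₀ (by positivity)).2 (by linarith)
  · obtain ⟨h1, h2, -⟩ := quadZ hq.2
    obtain ⟨k1, k2, -⟩ := quadZ hq'.2
    rw [e] at h1 h2
    exact Prod.ext e (Prod.ext (by exact_mod_cast h1.trans k1.symm)
      (by exact_mod_cast h2.trans k2.symm))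

lemma fin_cm (N : ℕ) (D : ℤ) (hN : 0 < N) (hD : D < 0) : ∃ T : Finset ℍ, ∀ (τ : ℍ) (A B C : ℤ),
    B ^ 2 - 4 * A * C = D → (A : ℂ) * (τ : ℂ) ^ 2 + B * τ + C = 0 → ∃ g ∈ Gam N, g • τ ∈ T := by
  have : NeZero N := ⟨hN.ne'⟩
  have hD' : (D : ℝ) < 0 := by exact_mod_cast hD
  let S : ℤ × ℤ → Set ℍ := fun p =>
    {σ | (p.2 : ℝ) = -2 * p.1 * σ.re ∧ (D : ℝ) = -4 * p.1 ^ 2 * σ.im ^ 2}
  have hS : ∀ p, (S p).Finite := fun p => Set.Subsingleton.finite fun σ h σ' h' => by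
    have hA : (p.1 : ℝ) ≠ 0 := fun e => by
      have := h.2
      rw [e] at this
      linarith
    refine UpperHalfPlane.ext_re_im
      (mul_left_cancel₀ (mul_ne_zero (by norm_num) hA) (h.1.symm.trans h'.1))
      ((pow_left_inj₀ σ.im_pos.le σ'.im_pos.le two_ne_zero).1
        (mul_left_cancel₀ (mul_ne_zero (by norm_num) (pow_ne_zero 2 hA)) (h.2.symm.trans h'.2)))
  have hT := ((fin_sq (-D)).prod (fin_sq (-D))).biUnion fun p _ => hS p
  have hU := Set.finite_iUnion fun r : SL2 ⧸ Gam N => hT.image fun σ => r.out⁻¹ • σ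
  refine ⟨hU.toFinset, fun τ A B C h1 h2 => ?_⟩
  obtain ⟨γ, hγ⟩ := ModularGroup.exists_smul_mem_fd τ
  obtain ⟨h, hh⟩ := QuotientGroup.mk_out_eq_mul (Gam N) γ
  refine ⟨(h : SL2)⁻¹, inv_mem h.2, hU.mem_toFinset.2 (Set.mem_iUnion.2 ⟨(γ : SL2 ⧸ Gam N), γ • τ, ?_,
    by simp only [hh, _root_.mul_inv_rev, mul_smul, inv_smul_smul]⟩)⟩
  have d := det2 γ
  have e := coe_mob (det_SL_pos γ) τ
  have n := den_ne (det_SL_pos γ) τ
  rw [mob_SL] at e
  generalize (γ : M2) 0 0 = p at d e n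
  generalize (γ : M2) 0 1 = q at d e n
  generalize (γ : M2) 1 0 = r at d e n
  generalize (γ : M2) 1 1 = s at d e n
  obtain ⟨k1, -, k3⟩ := quadZ (A := A * s ^ 2 - B * r * s + C * r ^ 2)
    (B := -2 * A * s * q + B * (p * s + q * r) - 2 * C * p * r)
    (C := A * q ^ 2 - B * p * q + C * p ^ 2) (τ := γ • τ) (by
      rw [e]
      push_cast
      field_simp
      linear_combination ((p : ℂ) * s - q * r) ^ 2 * h2)
  have k4 : (-2 * A * s * q + B * (p * s + q * r) - 2 * C * p * r) ^ 2 -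
      4 * (A * s ^ 2 - B * r * s + C * r ^ 2) * (A * q ^ 2 - B * p * q + C * p ^ 2) = D := by
    linear_combination (p * s - q * r) ^ 2 * h1 + D * (p * s - q * r + 1) * d
  rw [k4] at k3
  generalize A * s ^ 2 - B * r * s + C * r ^ 2 = A' at k1 k3
  generalize -2 * A * s * q + B * (p * s + q * r) - 2 * C * p * r = B' at k1
  have f1 := ModularGroup.three_le_four_mul_im_sq_of_mem_fd hγ
  have f2 : (γ • τ).re ^ 2 ≤ (1 / 2) ^ 2 := sq_le_sq' (abs_le.1 hγ.2).1 (abs_le.1 hγ.2).2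
  have f3 : (A' : ℝ) ^ 2 ≤ -D := by nlinarith [sq_nonneg (A' : ℝ)]
  have f4 : (B' : ℝ) ^ 2 ≤ -D := by rw [k1]; nlinarith [sq_nonneg (A' : ℝ)]
  exact Set.mem_biUnion (x := (A', B')) ⟨f3, f4⟩ ⟨k1, k3⟩

lemma fin_hom (j : ℤ) (τ σ : ℍ) (hj : 0 < j) : {α : M2 | α.det = j ∧ mob α τ = σ}.Finite := by
  have h1 := τ.im_pos
  have h2 := σ.im_pos
  refine Set.Finite.of_injOn (f := fun α => (α 1 0, α 1 1)) (fun α hα => ?_)
    (fun α hα β hβ e => ?_) ((fin_sq (j * τ.im / σ.im / τ.im ^ 2)).prod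
      (fin_sq (2 * (j * τ.im / σ.im) + 2 * (j * τ.im / σ.im / τ.im ^ 2 * τ.re ^ 2))))
  · have hd : 0 < α.det := hα.1 ▸ hj
    have e := im_mob hd τ
    rw [hα.2, hα.1, eq_div_iff (normSq_pos.2 (den_ne hd τ)).ne', mul_comm, ← eq_div_iff h2.ne',
      normSq_apply] at e
    simp only [add_im, mul_im, intCast_re, intCast_im, coe_im, coe_re, zero_mul, add_zero,
      add_re, mul_re, sub_zero] at e
    have a1 : (α 1 0 : ℝ) ^ 2 ≤ j * τ.im / σ.im / τ.im ^ 2 :=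
      (le_div_iff₀ (by positivity)).2 (by nlinarith [mul_self_nonneg (α 1 0 * τ.re + α 1 1)])
    refine ⟨a1, ?_⟩
    have a2 := mul_le_mul_of_nonneg_right a1 (sq_nonneg τ.re)
    change (α 1 1 : ℝ) ^ 2 ≤ _
    nlinarith [mul_self_nonneg (α 1 0 * τ.im), sq_nonneg (2 * (α 1 0 * τ.re) + α 1 1)]
  · obtain ⟨e1, e2⟩ := Prod.mk.inj e
    have a := (mob_eq_iff (hα.1 ▸ hj) τ σ).1 hα.2
    have b := (mob_eq_iff (hβ.1 ▸ hj) τ σ).1 hβ.2
    obtain ⟨k1, k2, -⟩ := quadZ (A := 0) (B := α 0 0 - β 0 0) (C := α 0 1 - β 0 1) (τ := τ) (by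
      rw [e1, e2] at a
      push_cast
      linear_combination a - b)
    simp only [Int.cast_zero, mul_zero, zero_mul, Int.cast_eq_zero, sub_eq_zero] at k1 k2
    exact ext2 k1 k2 e1 e2

lemma fix_det (t : ℍ) (x : M2) (h : x ∈ Fix t) : 0 < x.det := by
  obtain ⟨-, -, k⟩ := quadZ (A := x 1 0) (B := x 1 1 - x 0 0) (C := -x 0 1) (τ := t) (by
    push_cast
    linear_combination h.2)
  have h1 : (x 1 0 : ℝ) ≠ 0 := by exact_mod_cast h.1
  have h2 : 0 < (x 1 0 : ℝ) ^ 2 * t.im ^ 2 := mul_pos (by positivity) (pow_pos t.im_pos 2)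
  have h3 : (x 1 1 - x 0 0) ^ 2 - 4 * x 1 0 * -x 0 1 < 0 := by
    have : (((x 1 1 - x 0 0) ^ 2 - 4 * x 1 0 * -x 0 1 : ℤ) : ℝ) < 0 := by linarith
    exact_mod_cast this
  rw [Matrix.det_fin_two]
  nlinarith [sq_nonneg (x 0 0 + x 1 1)]

lemma fin_fix (t : ℍ) (M : ℤ) : {x | x ∈ Fix t ∧ x.det ≤ M}.Finite :=
  ((Set.finite_Ioc 0 M).biUnion fun j hj => fin_hom j t t hj.1).subset fun x hx =>
    Set.mem_biUnion (x := x.det) ⟨fix_det t x hx.1, hx.2⟩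
      ⟨rfl, (mob_fix_iff (fix_det t x hx.1) t).2 hx.1.2⟩

lemma free (N : ℕ) (g : SL2) (τ : ℍ) (hN : 3 ≤ N) (hg : g ∈ Gam N) (h : g • τ = τ) : g = 1 := by
  obtain ⟨g0, g1, g2, g3⟩ := CongruenceSubgroup.Gamma_mem.1 hg
  obtain ⟨a, ha⟩ : (N : ℤ) ∣ (g : M2) 0 0 - 1 := (ZMod.intCast_zmod_eq_zero_iff_dvd _ _).1 (by
    rw [Int.cast_sub, Int.cast_one]
    exact sub_eq_zero.2 g0)
  obtain ⟨d, hd⟩ : (N : ℤ) ∣ (g : M2) 1 1 - 1 := (ZMod.intCast_zmod_eq_zero_iff_dvd _ _).1 (by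
    rw [Int.cast_sub, Int.cast_one]
    exact sub_eq_zero.2 g3)
  obtain ⟨b, hb⟩ : (N : ℤ) ∣ (g : M2) 0 1 := (ZMod.intCast_zmod_eq_zero_iff_dvd _ _).1 g1
  obtain ⟨c, hc⟩ : (N : ℤ) ∣ (g : M2) 1 0 := (ZMod.intCast_zmod_eq_zero_iff_dvd _ _).1 g2
  have hN' : (3 : ℤ) ≤ N := by exact_mod_cast hN
  have e := det2 g
  rw [← mob_SL, mob_fix_iff (det_SL_pos g)] at h
  obtain ⟨k1, k2, k3⟩ := quadZ (A := (g : M2) 1 0) (B := (g : M2) 1 1 - (g : M2) 0 0)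
    (C := -(g : M2) 0 1) (τ := τ) (by
      push_cast
      linear_combination h)
  by_cases h0 : (g : M2) 1 0 = 0
  · rw [h0] at k1 k2 e
    simp only [Int.cast_zero, mul_zero, zero_mul, Int.cast_eq_zero, sub_eq_zero, neg_eq_zero]
      at k1 k2
    rw [k1, mul_zero, sub_zero] at e
    have h1 : (g : M2) 0 0 = 1 := by
      refine (Int.eq_one_or_neg_one_of_mul_eq_one e).resolve_right fun h1 => ?_
      rw [h1] at ha
      rcases le_or_gt 0 a with t | t <;> nlinarith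
    exact Subtype.ext (ext2 h1 k2 h0 (k1.trans h1))
  · exfalso
    have h1 : ((g : M2) 1 0 : ℝ) ≠ 0 := by exact_mod_cast h0
    have h2 : 0 < ((g : M2) 1 0 : ℝ) ^ 2 * τ.im ^ 2 := mul_pos (by positivity) (pow_pos τ.im_pos 2)
    have h3 : ((g : M2) 1 1 - (g : M2) 0 0) ^ 2 - 4 * (g : M2) 1 0 * -(g : M2) 0 1 < 0 := by
      have : ((((g : M2) 1 1 - (g : M2) 0 0) ^ 2 - 4 * (g : M2) 1 0 * -(g : M2) 0 1 : ℤ) : ℝ) < 0 := by
        linarith
      exact_mod_cast this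
    have h4 : (g : M2) 0 0 + (g : M2) 1 1 = 2 - N ^ 2 * (a * d - b * c) := by
      rw [sub_eq_iff_eq_add.1 ha, sub_eq_iff_eq_add.1 hd, hb, hc] at e
      rw [sub_eq_iff_eq_add.1 ha, sub_eq_iff_eq_add.1 hd]
      linear_combination e
    have h5 : ((g : M2) 0 0 + (g : M2) 1 1) ^ 2 < 2 ^ 2 := by nlinarith
    obtain ⟨h6, h7⟩ := abs_lt.1 (abs_lt_of_sq_lt_sq h5 (by norm_num))
    have h8 : (9 : ℤ) ≤ N ^ 2 := by nlinarith
    rcases le_or_gt (a * d - b * c) 0 with t | t <;> nlinarith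

end Orb

theorem orb : ORB where
  mem_herm := Orb.mem_herm
  herm m A hm hA := existsUnique_of_exists_of_unique (Orb.herm_ex m A hm hA)
    fun _ _ ⟨h, _, e⟩ ⟨h', _, e'⟩ => Orb.herm_uniq h h' (e.symm.trans e')
  herm_prod := Orb.herm_prod
  herm_sum {M} _ m Φ g h := Orb.herm_prod (M := Multiplicative M) m Φ g h
  sum_herm {M} _ m Φ := Orb.prod_herm (M := Multiplicative M) m Φ
  prod_herm := Orb.prod_herm
  content := Orb.content
  prim_mul := Orb.prim_mul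
  smith j α hj hd hp :=
    let ⟨g1, _, g2, _, e⟩ := Orb.orbit 1 j α hj hd hp (Matrix.ext fun _ _ => Subsingleton.elim _ _)
    ⟨g1, g2, e⟩
  one_orbit := Orb.orbit 8
  fin_cm := Orb.fin_cm
  fin_form := Orb.fin_form
  fin_hom := Orb.fin_hom
  fix_det := Orb.fix_det
  fin_fix := Orb.fin_fix
  free := Orb.free

end Pool.Agent.MP_9207e0_ag.hg

end MrgPart0

-- ======== part 1: formerly Pool.Agent.MP_9207e0_ag.hg.JC
section MrgPart1

/-! Module JC: integrality over `ℚ[j]`, algebraicity of singular moduli. -/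

set_option linter.unusedSectionVars false
set_option linter.unusedVariables false

namespace Pool.Agent.MP_9207e0_ag.hg

open UpperHalfPlane Complex Filter Asymptotics Matrix
open scoped Real MatrixGroups Manifold Classical Kronecker

namespace JCm

open Polynomial

/-- The ring `ℚ[j]`. -/
noncomputable abbrev RJ : Subalgebra ℚ (ℍ → ℂ) := Algebra.adjoin ℚ {(jf : ℍ → ℂ)}

/-- Composition with a self map of the upper half plane. -/
noncomputable def cmp (s : ℍ → ℍ) : (ℍ → ℂ) →+* (ℍ → ℂ) :=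
  RingHom.pi fun τ => Pi.evalRingHom (fun _ => ℂ) (s τ)

lemma cmp_apply (s : ℍ → ℍ) (w : ℍ → ℂ) : cmp s w = fun τ => w (s τ) := rfl

/-- Polynomials in `j`. -/
noncomputable def evj : ℂ[X] →+* (ℍ → ℂ) := RingHom.pi fun τ => evalRingHom (jf τ)

lemma int_of_rel {A B : Type} [CommRing A] [CommRing B] [Algebra A B] (w : B) (d : ℕ)
    (b : Fin d → B) (hb : ∀ i, IsIntegral A (b i)) (h : w ^ d + ∑ i, b i * w ^ (i : ℕ) = 0) :
    IsIntegral A w := by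
  refine isIntegral_trans (A := integralClosure A B) w
    ⟨X ^ d + ∑ i : Fin d, C (⟨b i, hb i⟩ : integralClosure A B) * X ^ (i : ℕ),
      monic_X_pow_add (degree_sum_fin_lt _), ?_⟩
  rw [eval₂_add, eval₂_X_pow, eval₂_finsetSum, ← h]
  simp only [eval₂_mul, eval₂_C, eval₂_X_pow]
  rfl

lemma transfer {A B : Type} [CommRing A] [CommRing B] [Algebra A B] (φ : (ℍ → ℂ) →+* B)
    (h1 : IsIntegral A (φ jf)) (h2 : ∀ q : ℚ, IsIntegral A (φ (algebraMap ℚ _ q))) {w : ℍ → ℂ}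
    (hw : IntJ w) : IsIntegral A (φ w) := by
  have key : ∀ r ∈ RJ, φ r ∈ integralClosure A B := fun r hr => by
    induction hr using Algebra.adjoin_induction with
    | mem x hx => rw [Set.mem_singleton_iff.1 hx]; exact h1
    | algebraMap q => exact h2 q
    | add x y _ _ hx hy => rw [map_add]; exact add_mem hx hy
    | mul x y _ _ hx hy => rw [map_mul]; exact mul_mem hx hy
  let ψ : RJ →+* integralClosure A B :=
    (φ.comp RJ.val.toRingHom).codRestrict (integralClosure A B) fun r => key r r.2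
  exact isIntegral_trans (A := integralClosure A B) _ (IsIntegral.map_of_comp_eq ψ φ rfl hw)

lemma intJ_jf : IntJ jf :=
  isIntegral_algebraMap (x := (⟨jf, Algebra.self_mem_adjoin_singleton ℚ _⟩ : RJ))

lemma intJ_rat (q : ℚ) : IntJ (algebraMap ℚ (ℍ → ℂ) q) :=
  isIntegral_algebraMap (x := (⟨_, RJ.algebraMap_mem q⟩ : RJ))

lemma intJ_const {z : ℂ} (hz : IsAlgebraic ℚ z) : IntJ fun _ => z := by
  have h : IsIntegral ℚ (fun _ : ℍ => z) :=
    hz.isIntegral.map (IsScalarTower.toAlgHom ℚ ℂ (ℍ → ℂ))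
  exact h.tower_top

/-- The translates of a modular function. -/
noncomputable def tr {N : ℕ} {w : ℍ → ℂ} (hw : w ∈ Mod N) (q : SL2 ⧸ Gam N) : Mod N :=
  ⟨fun τ => w (q.out⁻¹ • τ), comp_SL_mem_Mod hw _⟩

lemma tr_mk {N : ℕ} {w : ℍ → ℂ} (hw : w ∈ Mod N) (g : SL2) (τ : ℍ) :
    (tr hw (g : SL2 ⧸ Gam N) : ℍ → ℂ) τ = w (g⁻¹ • τ) := by
  obtain ⟨h, e⟩ := QuotientGroup.mk_out_eq_mul (Gam N) g
  change w ((g : SL2 ⧸ Gam N).out⁻¹ • τ) = _
  rw [e, _root_.mul_inv_rev, mul_smul, hw.2.1 _ ((Gam N).inv_mem h.2)]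

lemma tr_smul {N : ℕ} {w : ℍ → ℂ} (hw : w ∈ Mod N) (g : SL2) (q : SL2 ⧸ Gam N) :
    cmp (g • ·) (tr hw q) = tr hw (g⁻¹ • q) := by
  obtain ⟨a, rfl⟩ := QuotientGroup.mk_surjective q
  ext τ
  rw [MulAction.Quotient.smul_mk, tr_mk, smul_eq_mul, _root_.mul_inv_rev, inv_inv, mul_smul]
  exact tr_mk hw a _

lemma charpoly (hJ : JA) {N : ℕ} {w : ℍ → ℂ} (hN : 0 < N) (hw : w ∈ Mod N) :
    ∃ Φ : ℂ[X][X], Φ.Monic ∧ (Φ.map evj).eval w = 0 := by
  have : NeZero N := ⟨hN.ne'⟩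
  have : Fintype (SL2 ⧸ Gam N) := Fintype.ofFinite _
  let P' : (Mod N)[X] := ∏ q, (X - C (tr hw q))
  let P : (ℍ → ℂ)[X] := ∏ q, (X - C (tr hw q : ℍ → ℂ))
  have e1 : P'.map (Mod N).val.toRingHom = P := by
    simp only [P, P', Polynomial.map_prod, Polynomial.map_sub, map_X, map_C]
    rfl
  have e2 : ∀ g : SL2, P.map (cmp (g • ·)) = P := fun g => by
    simp only [P, Polynomial.map_prod, Polynomial.map_sub, map_X, map_C, tr_smul]
    exact Fintype.prod_equiv (MulAction.toPerm g⁻¹) _ _ fun _ => rfl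
  have hm : P.Monic := monic_prod_of_monic _ _ fun _ _ => monic_X_sub_C _
  have hl : P ∈ lifts evj := by
    rw [lifts_iff_coeff_lifts]
    intro k
    have h1 : P.coeff k ∈ Mod N := by
      rw [← e1, coeff_map]
      exact (P'.coeff k).2
    have h2 : P.coeff k ∈ Mod 1 := ⟨h1.1, fun γ _ τ => by
      have := congrFun (congrArg (·.coeff k) (e2 γ)) τ
      simpa only [coeff_map, cmp_apply] using this, h1.2.2⟩
    obtain ⟨p, hp⟩ := hJ.poly _ h2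
    exact ⟨p, funext fun τ => (hp τ).symm⟩
  obtain ⟨Φ, h1, -, h2⟩ := lifts_and_natDegree_eq_and_monic hl hm
  refine ⟨Φ, h2, ?_⟩
  rw [h1, eval_prod]
  refine Finset.prod_eq_zero (Finset.mem_univ ((1 : SL2) : SL2 ⧸ Gam N)) ?_
  rw [eval_sub, eval_X, eval_C, sub_eq_zero]
  ext τ
  rw [tr_mk, inv_one, one_smul]

lemma isQ_zero (h : ℕ) : IsQ h 0 0 := fun τ => by simp

lemma eq_zero_of_isQ {h : ℕ} {a : ℍ → ℂ} (ha : IsQ h a 0) : a = 0 :=
  funext fun τ => (ha τ).unique (isQ_zero h τ)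

/-- A retraction of the complex numbers onto the algebraic numbers. -/
lemma exists_retr : ∃ t : ℂ →+ ℂ, (∀ z, IsAlgebraic ℚ (t z)) ∧
    (∀ z s, IsAlgebraic ℚ s → t (z * s) = t z * s) ∧ t 1 = 1 := by
  let K := algebraicClosure ℚ ℂ
  obtain ⟨t, ht⟩ := (Algebra.linearMap K ℂ).exists_leftInverse_of_injective
    (LinearMap.ker_eq_bot.2 (algebraMap K ℂ).injective)
  refine ⟨((Algebra.linearMap K ℂ).comp t).toAddMonoidHom, fun z => ?_, fun z s hs => ?_, ?_⟩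
  · exact mem_algebraicClosure_iff.1 (t z).2
  · have := ((Algebra.linearMap K ℂ).comp t).map_smul
      (⟨s, mem_algebraicClosure_iff.2 hs⟩ : K) z
    rw [mul_comm z, mul_comm _ s]
    exact this
  · have := LinearMap.congr_fun ht 1
    simp only [LinearMap.comp_apply, Algebra.linearMap_apply, map_one, LinearMap.id_apply] at this
    change algebraMap K ℂ (t 1) = 1
    rw [this, map_one]

lemma algL_of_ratL {c : LS} (h : RatL c) : AlgL c := fun n => by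
  obtain ⟨q, hq⟩ := h n
  rw [hq]
  exact isAlgebraic_algebraMap q

lemma intJ (hA : QA) (hB : QB) (hJ : JA) {N : ℕ} {w : ℍ → ℂ} {c : LS} (hN : 0 < N)
    (hw : w ∈ Mod N) (hc : IsQ N w c) (ha : AlgL c) : IntJ w := by
  obtain ⟨Φ, hm, hΦ⟩ := charpoly hJ hN hw
  obtain ⟨J, hJq, hJr⟩ : RQ N jf := by
    obtain ⟨J, h1, h2, -⟩ := hB.j_q
    exact hB.rq_level hN (one_dvd N) ⟨J, h1, h2⟩
  obtain ⟨K, hK⟩ := hA.algL
  obtain ⟨t, t1, t2, t3⟩ := exists_retr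
  set d := Φ.natDegree
  set D := (Finset.range d).sup (fun i => (Φ.coeff i).natDegree) + 1
  let f : (Fin d × Fin D → ℂ) → ℍ → ℂ := fun a =>
    w ^ d + ∑ p : Fin d × Fin D, a p • (jf ^ (p.2 : ℕ) * w ^ (p.1 : ℕ))
  let s : (Fin d × Fin D → ℂ) → LS := fun a =>
    c ^ d + ∑ p : Fin d × Fin D, a p • (J ^ (p.2 : ℕ) * c ^ (p.1 : ℕ))
  have hq : ∀ a, IsQ N (f a) (s a) := fun a => hA.add (hA.pow d hN hc)
    (hA.sum _ _ _ fun p _ => hA.smul _ (hA.mul hN (hA.pow _ hN hJq) (hA.pow _ hN hc)))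
  have hf : ∀ a, f a = w ^ d + ∑ i : Fin d,
      (∑ k : Fin D, (fun _ => a (i, k)) * jf ^ (k : ℕ)) * w ^ (i : ℕ) := fun a => by
    simp only [f, Fintype.sum_prod_type, Finset.sum_mul, mul_assoc]
    rfl
  let a : Fin d × Fin D → ℂ := fun p => (Φ.coeff p.1).coeff p.2
  have h0 : f a = 0 := by
    rw [hf, ← hΦ, eval_map, eval₂_eq_sum_range, Finset.sum_range_succ, hm.coeff_natDegree,
      map_one, one_mul, add_comm, Finset.sum_range]
    congr 1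
    refine Finset.sum_congr rfl fun i _ => ?_
    congr 1
    ext τ
    have hd : (Φ.coeff i).natDegree < D := Nat.lt_succ_of_le
      (Finset.le_sup (f := fun i => (Φ.coeff i).natDegree) (Finset.mem_range.2 i.2))
    change _ = (Φ.coeff i).eval (jf τ)
    rw [eval_eq_sum_range' hd, Finset.sum_range, Finset.sum_apply]
    rfl
  have s0 : s a = 0 := hA.unique hN (hq a) (h0 ▸ isQ_zero N)
  have hcK : c ∈ K := (hK c).2 ha
  have hJK : J ∈ K := (hK J).2 (algL_of_ratL hJr)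
  have s1 : s (fun p => t (a p)) = 0 := by
    ext n
    have e := congrArg (fun x => t (x.coeff n)) s0
    simp only [s, HahnSeries.coeff_add, HahnSeries.coeff_sum, HahnSeries.coeff_smul, smul_eq_mul,
      HahnSeries.coeff_zero, map_add, map_sum, map_zero] at e ⊢
    rw [← e, ← one_mul ((c ^ d).coeff n), t2 1 _ ((hK _).1 (pow_mem hcK d) n), t3, one_mul]
    congr 1
    exact Finset.sum_congr rfl fun p _ =>
      (t2 _ _ ((hK _).1 (mul_mem (pow_mem hJK _) (pow_mem hcK _)) n)).symm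
  have h1 := eq_zero_of_isQ (s1 ▸ hq fun p => t (a p))
  rw [hf] at h1
  exact int_of_rel w d _ (fun i => IsIntegral.sum _ fun k _ =>
    (intJ_const (t1 _)).mul (intJ_jf.pow _)) h1

lemma ee_int (b : ℤ) : ee b = 1 := by
  rw [ee, mul_comm]
  exact exp_int_mul_two_pi_mul_I b

lemma ee_ne (z : ℂ) : ee z ≠ 0 := exp_ne_zero _

lemma alg_ee (b d : ℤ) (hd : 0 < d) : IsAlgebraic ℚ (ee (b / ((1 : ℕ) * d))) := by
  refine IsAlgebraic.of_pow (n := d.toNat) (by omega) ?_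
  have e : ee (b / ((1 : ℕ) * d)) ^ d.toNat = ee b := by
    have h1 : ((d.toNat : ℕ) : ℂ) = d := by exact_mod_cast Int.toNat_of_nonneg hd.le
    have h2 : (d : ℂ) ≠ 0 := by exact_mod_cast hd.ne'
    rw [ee, ee, ← exp_nat_mul, h1]
    congr 1
    field_simp
    simp
  rw [e, ee_int]
  exact isAlgebraic_one

lemma algL_sub {k : ℕ} {ω : ℂ} {c c' : LS} (h : IsSub k ω c c') (hω : IsAlgebraic ℚ ω)
    (hc : AlgL c) : AlgL c' := fun m => by
  by_cases hm : (k : ℤ) ∣ m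
  · obtain ⟨n, rfl⟩ := hm
    rw [h.1, ← mem_algebraicClosure_iff]
    exact mul_mem (zpow_mem (mem_algebraicClosure_iff.2 hω) n) (mem_algebraicClosure_iff.2 (hc n))
  · rw [h.2 m hm]
    exact isAlgebraic_zero

lemma sub_zero {k : ℕ} {ω : ℂ} {c c' : LS} (h : IsSub k ω c c') (hk : 0 < k)
    (hc : ∀ n < -1, c.coeff n = 0) (m : ℤ) (hm : m < -k) : c'.coeff m = 0 := by
  by_cases hd : (k : ℤ) ∣ m
  · obtain ⟨n, rfl⟩ := hd
    rw [h.1, hc n (by nlinarith), mul_zero]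
  · exact h.2 m hd

/-- The Hermite normal form and the expansion of `j ∘ A`. -/
lemma herm_q (hA : QA) (hB : QB) (hO : ORB) {A : M2} (h : 0 < A.det) {c : LS} (hc : IsQ 1 jf c) :
    ∃ (a b d : ℤ) (γ : SL2) (c' : LS), 0 < a ∧ 0 ≤ b ∧ b < d ∧ a * d = A.det ∧
      A = γ * !![a, b; 0, d] ∧ IsSub (a.toNat ^ 2) (ee (b / ((1 : ℕ) * d))) c c' ∧
      IsQ A.det.toNat (fun τ => jf (mob A τ)) c' := by
  have e : ((A.det.toNat : ℕ) : ℤ) = A.det := Int.toNat_of_nonneg h.le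
  obtain ⟨B, ⟨h1, γ, h2⟩, -⟩ := hO.herm A.det.toNat A (by omega) e.symm
  obtain ⟨k1, k2, k3, k4, k5⟩ := (hO.mem_herm _ _).1 h1
  have eB : B = !![B 0 0, B 0 1; 0, B 1 1] := by rw [← k1]; exact Matrix.eta_fin_two B
  obtain ⟨c', hs⟩ := hA.exists_sub ((B 0 0).toNat ^ 2) (ee (B 0 1 / ((1 : ℕ) * B 1 1))) c
    (pow_pos (by omega) 2)
  have hB0 : 0 < B.det := by
    rw [eB, Matrix.det_fin_two_of, mul_zero, _root_.sub_zero, k5, e]
    exact h
  refine ⟨B 0 0, B 0 1, B 1 1, γ, c', k2, k3, k4, k5.trans e, eB ▸ h2, hs, ?_⟩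
  have e2 : (fun τ => jf (mob A τ)) = fun τ => jf (mob !![B 0 0, B 0 1; 0, B 1 1] τ) := by
    ext τ
    rw [← eB, h2, mob_mul (det_SL_pos γ) hB0, mob_SL, hB.j_inv]
  rw [e2]
  refine hA.comp one_pos (by omega) k2 (by omega) ?_ hc hs
  rw [← k5]
  push_cast
  rw [Int.toNat_of_nonneg k2.le]
  ring

lemma intJ_mob (hA : QA) (hB : QB) (hJ : JA) (hO : ORB) {w : ℍ → ℂ} {A : M2} (h : 0 < A.det)
    (hw : IntJ w) : IntJ fun τ => w (mob A τ) := by
  refine transfer (cmp (mob A)) ?_ (fun q => intJ_rat q) hw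
  obtain ⟨c, h1, h2, -⟩ := hB.j_q
  obtain ⟨a, b, d, γ, c', k1, k2, k3, -, -, k6, k7⟩ := herm_q hA hB hO h h1
  have hm := hB.mod_mob h hB.j_mod
  rw [one_mul] at hm
  exact intJ hA hB hJ (by omega) hm k7 (algL_sub k6 (alg_ee b d (by omega)) (algL_of_ratL h2))

lemma alg_val {w : ℍ → ℂ} {τ : ℍ} (hw : IntJ w) (h : IsAlgebraic ℚ (jf τ)) :
    IsAlgebraic ℚ (w τ) :=
  (transfer (A := ℚ) (Pi.evalRingHom (fun _ => ℂ) τ) h.isIntegral
    (fun q => isIntegral_algebraMap (x := q)) hw).isAlgebraic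

/-- The ring of holomorphic functions. -/
def HolS : Subalgebra ℚ (ℍ → ℂ) where
  carrier := {w | Hol w}
  mul_mem' := fun ha hb => ha.mul hb
  add_mem' := fun ha hb => ha.add hb
  algebraMap_mem' := fun _ => mdifferentiable_const

lemma alg_zero (hB : QB) {w : ℍ → ℂ} {τ : ℍ} (hh : Hol w) (hw : IntJ w) (h0 : w ≠ 0)
    (hτ : w τ = 0) : IsAlgebraic ℚ (jf τ) := by
  obtain ⟨p, hm, hp⟩ := hw
  obtain ⟨q, e, hq⟩ := exists_eq_pow_rootMultiplicity_mul_and_not_dvd p hm.ne_zero 0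
  rw [C_0, _root_.sub_zero] at e hq
  rw [X_dvd_iff] at hq
  have le : RJ ≤ HolS := Algebra.adjoin_le (Set.singleton_subset_iff.2 hB.j_mod.1)
  have hw' : w ∈ HolS := hh
  have h1 : eval₂ (algebraMap RJ (ℍ → ℂ)) w q ∈ HolS := by
    rw [eval₂_eq_sum_range]
    exact sum_mem fun i _ => mul_mem (le (q.coeff i).2) (pow_mem hw' i)
  have h2 : ∀ k : ℕ, w ^ k ≠ 0 := fun k => by
    induction k with
    | zero => rw [pow_zero]; exact one_ne_zero
    | succ k ih => rw [pow_succ]; exact Hol.mul_ne_zero (pow_mem hw' k) hh ih h0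
  have h3 : eval₂ (algebraMap RJ (ℍ → ℂ)) w q = 0 := by
    by_contra h
    rw [e, eval₂_mul, eval₂_X_pow] at hp
    exact Hol.mul_ne_zero (pow_mem hw' _) h1 (h2 _) h hp
  have h4 : (q.coeff 0 : ℍ → ℂ) τ = 0 := by
    have := congrFun h3 τ
    rw [eval₂_eq_sum_range, Finset.sum_range_succ', Pi.add_apply, Finset.sum_apply,
      Finset.sum_eq_zero fun i _ => by simp [hτ]] at this
    simpa using this
  obtain ⟨r, hr⟩ : (q.coeff 0 : ℍ → ℂ) ∈ (aeval (jf : ℍ → ℂ) : ℚ[X] →ₐ[ℚ] _).range := by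
    rw [← Algebra.adjoin_singleton_eq_range_aeval]
    exact (q.coeff 0).2
  refine ⟨r, fun h => hq (Subtype.ext ?_), ?_⟩
  · rw [← hr, h]
    exact map_zero _
  · rw [← h4, ← hr]
    exact (aeval_algHom_apply (Pi.evalAlgHom ℚ (fun _ => ℂ) τ) jf r)

lemma j_ne (hA : QA) (hB : QB) (hO : ORB) {x : M2} (h : 1 < x.det) (hp : Prim x) :
    (jf - fun τ => jf (mob x τ)) ≠ 0 := by
  intro h0
  obtain ⟨c, h1, -, h2, h3⟩ := hB.j_q
  have hx0 : 0 < x.det := by omega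
  obtain ⟨a, b, d, γ, c', k1, k2, k3, k4, k5, k6, k7⟩ := herm_q hA hB hO hx0 h1
  have m0 : 0 < x.det.toNat := by omega
  obtain ⟨c₁, hs⟩ := hA.exists_sub x.det.toNat 1 c m0
  have q1 := (hA.level one_pos m0 hs).2 h1
  rw [mul_one] at q1
  rw [← sub_eq_zero.1 h0] at k7
  have ec : c₁ = c' := hA.unique m0 q1 k7
  rw [ec] at hs
  have e1 : ((x.det.toNat : ℕ) : ℤ) = a * d := by omega
  have e2 : ((a.toNat ^ 2 : ℕ) : ℤ) = a ^ 2 := by
    push_cast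
    rw [Int.toNat_of_nonneg k1.le]
  have v1 := hs.1 (-1)
  have v2 := k6.1 (-1)
  rw [h2, mul_one] at v1 v2
  rw [_root_.one_zpow, e1] at v1
  rw [e2] at v2
  have z1 := sub_zero hs m0 h3
  have z2 := sub_zero k6 (pow_pos (by omega) 2) h3
  rw [e1] at z1
  rw [e2] at z2
  rcases lt_trichotomy a d with hl | rfl | hl
  · rw [z2 _ (by nlinarith)] at v1
    exact zero_ne_one v1
  · rw [← sq, v2, _root_.zpow_neg_one, inv_eq_one, ee, exp_eq_one_iff] at v1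
    obtain ⟨n, hn⟩ := v1
    have a0 : (a : ℂ) ≠ 0 := by exact_mod_cast k1.ne'
    have hb : b = n * a := by
      have : (b : ℂ) = n * a := by
        have p0 := two_pi_I_ne_zero
        rw [mul_comm, mul_left_inj' p0] at hn
        field_simp at hn
        simpa [mul_comm] using hn
      exact_mod_cast this
    have n0 : n = 0 := by
      have : 0 ≤ n := by nlinarith
      have : n < 1 := by nlinarith
      omega
    have hu := hp a fun i k => by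
      rw [k5, hb, n0, Matrix.mul_apply, Fin.sum_univ_two]
      fin_cases k <;> simp
    rcases Int.isUnit_iff.1 hu with rfl | rfl <;> omega
  · rw [z1 _ (by nlinarith)] at v2
    exact zpow_ne_zero _ (ee_ne _) v2.symm

lemma alg_cm (hA : QA) (hB : QB) (hJ : JA) (hO : ORB) (A B C : ℤ) (τ : ℍ) (h0 : A ≠ 0)
    (h : (A : ℂ) * (τ : ℂ) ^ 2 + B * τ + C = 0) : IsAlgebraic ℚ (jf τ) := by
  obtain ⟨⟨g, y⟩, ⟨g0, hy, e⟩, -⟩ := hO.content !![0, -C; A, B] fun h => h0 (by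
    simpa using congrFun (congrFun h 1) 0)
  dsimp only at g0 hy e
  have e00 : y 0 0 = 0 := by
    have := congrFun (congrFun e 0) 0
    simp only [Matrix.smul_apply, smul_eq_mul, of_apply, cons_val_zero] at this
    exact (mul_eq_zero.1 this.symm).resolve_left (by omega)
  have e01 : -C = g * y 0 1 := by simpa using congrFun (congrFun e 0) 1
  have e10 : A = g * y 1 0 := by simpa using congrFun (congrFun e 1) 0
  have e11 : B = g * y 1 1 := by simpa using congrFun (congrFun e 1) 1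
  have hf : (y 1 0 : ℂ) * (τ : ℂ) ^ 2 + y 1 1 * τ - y 0 1 = 0 := by
    have g1 : (g : ℂ) ≠ 0 := by exact_mod_cast g0.ne'
    have e01' : C = -(g * y 0 1) := by linarith
    rw [e10, e11, e01'] at h
    push_cast at h
    refine mul_left_cancel₀ g1 ?_
    linear_combination h
  have hd := hO.fix_det τ y ⟨fun h => h0 (by rw [e10, h, mul_zero]), by
    rw [e00]; push_cast; linear_combination hf⟩
  rw [Matrix.det_fin_two, e00] at hd
  let k : ℤ := |y 1 1| + 1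
  let x : M2 := !![k, y 0 1; y 1 0, k + y 1 1]
  have hx : 1 < x.det := by
    have := neg_abs_le (y 1 1)
    have := abs_nonneg (y 1 1)
    rw [Matrix.det_fin_two_of]
    nlinarith
  have hp : Prim x := fun d hd => hy d fun i l => by
    have d1 := hd 0 0
    have d2 := hd 0 1
    have d3 := hd 1 0
    have d4 := (dvd_add_right d1).1 (hd 1 1)
    fin_cases i <;> fin_cases l
    · exact e00 ▸ dvd_zero d
    · exact d2
    · exact d3
    · exact d4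
  have hx0 : 0 < x.det := by omega
  have hm : mob x τ = τ := (mob_fix_iff hx0 τ).2 (by
    simp only [x, of_apply, cons_val', cons_val_zero, cons_val_one, cons_val_fin_one]
    push_cast
    linear_combination hf)
  refine alg_zero hB (τ := τ) (hB.j_mod.1.sub (hB.j_mod.1.comp_mob hx0))
    (intJ_jf.sub (intJ_mob hA hB hJ hO hx0 intJ_jf)) (j_ne hA hB hO hx hp) ?_
  rw [Pi.sub_apply, hm, sub_self]

end JCm

theorem jc (hA : QA) (hB : QB) (hJ : JA) (hO : ORB) : JC where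
  charpoly := fun {N w} hN hw => by
    obtain ⟨Φ, h1, h2⟩ := JCm.charpoly hJ hN hw
    refine ⟨Φ, h1, fun τ => ?_⟩
    have := congrArg (Pi.evalRingHom (fun _ : ℍ => ℂ) τ) h2
    rwa [Polynomial.eval_map, Polynomial.hom_eval₂, ← Polynomial.eval_map] at this
  intJ := JCm.intJ hA hB hJ
  intJ_mob := JCm.intJ_mob hA hB hJ hO
  alg_zero := JCm.alg_zero hB
  alg_val := JCm.alg_val
  alg_cm := JCm.alg_cm hA hB hJ hO

end Pool.Agent.MP_9207e0_ag.hg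

end MrgPart1

-- ======== part 2: formerly Pool.Agent.MP_9207e0_ag.hg.Zind
section MrgPart2

/-! Module ZIND: all special zero-cycles die, by induction on the determinant. -/

namespace Pool.Agent.MP_9207e0_ag.hg

open UpperHalfPlane Complex Filter Asymptotics Matrix
open scoped Real MatrixGroups Manifold Classical Kronecker

set_option linter.unusedSectionVars false

namespace Zind

/-- Pairs of matrices with a point. -/
abbrev X3 : Type := M2 × M2 × ℍ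

variable {V : Type} [AddCommGroup V] {s : ℍ → ℍ → V}

theorem van_zero {X : Type} {r : X → X → Prop} {S : Set X} {f : X → V} (h : ∀ x ∈ S, f x = 0) :
    Van r S f := fun _ hR => Finset.sum_eq_zero fun x hx => h x (hR.1 x hx)

theorem van_congr {X : Type} {r : X → X → Prop} {S : Set X} {f g : X → V} (hv : Van r S f)
    (h : ∀ x ∈ S, g x = f x) : Van r S g :=
  fun R hR => (Finset.sum_congr rfl fun x hx => h x (hR.1 x hx)).trans (hv R hR)

theorem cmul (g h : SL2) : ((g * h : SL2) : M2) = (g : M2) * h := rfl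

theorem cone : ((1 : SL2) : M2) = 1 := rfl

/-- The action of pairs of unimodular matrices. -/
noncomputable def mv (h1 h2 : SL2) (p : X3) : X3 :=
  ((h2 : M2) * p.1 * ((h1⁻¹ : SL2) : M2), (h2 : M2) * p.2.1 * ((h1⁻¹ : SL2) : M2), h1 • p.2.2)

/-- The summand. -/
noncomputable def fz (s : ℍ → ℍ → V) (γ1 γ2 : SL2) (p : X3) : V :=
  s (γ1 • p.2.2) (γ2 • mob p.1 p.2.2)

theorem mv_mul (h1 h2 g1 g2 : SL2) (p : X3) :
    mv h1 h2 (mv g1 g2 p) = mv (h1 * g1) (h2 * g2) p := by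
  simp only [mv, _root_.mul_inv_rev, cmul, mul_assoc, mul_smul]

theorem mv_one (p : X3) : mv 1 1 p = p := by
  simp only [mv, inv_one, cone, mul_one, one_mul, one_smul]

theorem mul_eq_iff (x y : M2) (g : SL2) : x * (g : M2) = y ↔ x = y * ((g⁻¹ : SL2) : M2) := by
  constructor
  · rintro rfl
    rw [mul_assoc, ← cmul, mul_inv_cancel, cone,
      mul_one]
  · rintro rfl
    rw [mul_assoc, ← cmul, inv_mul_cancel, cone,
      mul_one]

theorem relZ_iff {p q : X3} : relZ p q ↔ ∃ g1 ∈ Gam 8, ∃ g2 ∈ Gam 8, q = mv g1 g2 p := by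
  simp only [relZ, mul_eq_iff, mv, Prod.ext_iff]

theorem relZ_mv (h1 h2 : SL2) {p q : X3} (h : relZ p q) : relZ (mv h1 h2 p) (mv h1 h2 q) := by
  obtain ⟨g1, m1, g2, m2, rfl⟩ := relZ_iff.1 h
  refine relZ_iff.2 ⟨_, (CongruenceSubgroup.Gamma_normal 8).conj_mem g1 m1 h1, _,
    (CongruenceSubgroup.Gamma_normal 8).conj_mem g2 m2 h2, ?_⟩
  simp only [mv_mul, inv_mul_cancel_right]

theorem det_mv (h1 h2 : SL2) (x : M2) : ((h2 : M2) * x * (h1 : M2)).det = x.det := by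
  rw [det_mul, det_mul, det_SL, det_SL, one_mul, mul_one]

theorem mob_mv (h1 h2 : SL2) {x : M2} (hx : 0 < x.det) (τ : ℍ) :
    mob ((h2 : M2) * x * ((h1⁻¹ : SL2) : M2)) (h1 • τ) = h2 • mob x τ := by
  rw [mob_mul (by rwa [det_mul, det_SL, one_mul]) (det_SL_pos _), mob_SL, inv_smul_smul,
    mob_mul (det_SL_pos _) hx, mob_SL]

theorem fz_mv (γ1 γ2 h1 h2 : SL2) {p : X3} (hp : 0 < p.1.det) :
    fz s γ1 γ2 (mv h1 h2 p) = fz s (γ1 * h1) (γ2 * h2) p := by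
  simp only [fz, mv, mob_mv h1 h2 hp, mul_smul]

theorem fz_rel (hI : Inv8 s) (γ1 γ2 : SL2) {p q : X3} (hp : 0 < p.1.det) (h : relZ p q) :
    fz s γ1 γ2 p = fz s γ1 γ2 q := by
  obtain ⟨g1, m1, g2, m2, rfl⟩ := relZ_iff.1 h
  rw [fz_mv _ _ _ _ hp, fz, fz, ← hI _ ((CongruenceSubgroup.Gamma_normal 8).conj_mem g1 m1 γ1) _
    ((CongruenceSubgroup.Gamma_normal 8).conj_mem g2 m2 γ2)]
  simp only [mul_smul, inv_smul_smul]

theorem red_mul (x y : M2) : red 8 (x * y) = red 8 x * red 8 y :=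
  Matrix.map_mul (f := Int.castRingHom (ZMod 8))

theorem red_gam {g : SL2} (h : g ∈ Gam 8) : red 8 (g : M2) = 1 := by
  obtain ⟨h1, h2, h3, h4⟩ := CongruenceSubgroup.Gamma_mem.1 h
  ext i k
  fin_cases i <;> fin_cases k <;> simpa [red]

theorem red_inv (g : SL2) (a : MN 8) (h : SL2) :
    red 8 ((g⁻¹ : SL2) : M2) * (red 8 (g : M2) * a * red 8 ((h⁻¹ : SL2) : M2)) *
      red 8 ((h⁻¹⁻¹ : SL2) : M2) = a := by
  have e : ∀ g : SL2, red 8 ((g⁻¹ : SL2) : M2) * red 8 (g : M2) = 1 := fun g => by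
    rw [← red_mul, ← cmul, inv_mul_cancel, red_gam (one_mem _)]
  rw [inv_inv, mul_assoc, mul_assoc, e, mul_one, ← mul_assoc, e, one_mul]

theorem mv_zset {n r j : ℤ} {a b : MN 8} (hj : 0 < j) (hn : 0 < n) (h1 h2 : SL2) {p : X3}
    (hp : p ∈ ZSet n r j a b) :
    mv h1 h2 p ∈ ZSet n r j (red 8 (h2 : M2) * a * red 8 ((h1⁻¹ : SL2) : M2))
      (red 8 (h2 : M2) * b * red 8 ((h1⁻¹ : SL2) : M2)) := by
  obtain ⟨e1, e2, e3, e4, e5, e6⟩ := hp
  refine ⟨(det_mv _ _ _).trans e1, (det_mv _ _ _).trans e2, ?_, ?_, ?_, ?_⟩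
  · simp only [mv, adjugate_mul_distrib]
    rw [mul_assoc, trace_mul_comm, mul_assoc, mul_assoc, mul_assoc, mul_assoc, mul_adjugate,
      det_SL, one_smul, mul_one, ← mul_assoc (adjugate (h2 : M2)), adjugate_mul, det_SL, one_smul,
      one_mul, e3]
  · simp only [mv, red_mul, e4]
  · simp only [mv, red_mul, e5]
  · simp only [mv]
    rw [mob_mv _ _ (e1 ▸ hj), mob_mv _ _ (e2 ▸ hn), e6]

/-- The primitive part. -/
def PSet (n r j : ℤ) (a b : MN 8) : Set X3 := {p | p ∈ ZSet n r j a b ∧ Prim p.1}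

theorem pos_of {n r j : ℤ} (hj : 0 < j) (h : r ^ 2 < 4 * n * j) : 0 < n := by
  nlinarith [sq_nonneg r]

theorem van_mv (hS : OS) (hO : ORB) (hF : FS) (hI : Inv8 s) {n r j : ℤ} {a b : MN 8} (hj : 0 < j)
    (hn : 0 < n) (γ1 γ2 h1 h2 : SL2)
    (h : Van relZ (PSet n r j (red 8 (h2 : M2) * a * red 8 ((h1⁻¹ : SL2) : M2))
      (red 8 (h2 : M2) * b * red 8 ((h1⁻¹ : SL2) : M2))) (fz s γ1 γ2)) :
    Van relZ (PSet n r j a b) (fz s (γ1 * h1) (γ2 * h2)) := by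
  refine van_congr ((hS.van_transport (S := PSet n r j a b) (mv h1 h2) (fz s γ1 γ2) hF.relZ_equiv
    hF.relZ_equiv (fun p hp => ?_) (fun q hq => ?_) (fun p _ p' _ => ⟨relZ_mv h1 h2, fun k => ?_⟩)
    (fun p hp q _ => ?_)).2 h) fun p hp => (fz_mv _ _ _ _ (hp.1.1 ▸ hj)).symm
  · exact ⟨mv_zset hj hn h1 h2 hp.1, hO.prim_mul _ _ _ hp.2⟩
  · refine ⟨mv h1⁻¹ h2⁻¹ q, ⟨?_, hO.prim_mul _ _ _ hq.2⟩, ?_⟩
    · simpa only [red_inv] using mv_zset hj hn h1⁻¹ h2⁻¹ hq.1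
    · rw [mv_mul, mul_inv_cancel, mul_inv_cancel, mv_one]
      exact hF.relZ_equiv.refl q
  · simpa only [mv_mul, inv_mul_cancel, mv_one] using relZ_mv h1⁻¹ h2⁻¹ k
  · exact fz_rel hI _ _ (hp.1.1 ▸ hj)

theorem van_swap (hS : OS) (hF : FS) (hI : Inv8 s) {n r j : ℤ} {a b : MN 8} (hn : 0 < n)
    (γ1 γ2 : SL2) (h : Van relZ (ZSet j r n b a) (fz s γ1 γ2)) :
    Van relZ (ZSet n r j a b) (fz s γ1 γ2) := by
  have k : ∀ {n j : ℤ} {a b : MN 8} {p : X3}, p ∈ ZSet n r j a b →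
      (p.2.1, p.1, p.2.2) ∈ ZSet j r n b a := fun {n j a b p} ⟨e1, e2, e3, e4, e5, e6⟩ =>
    ⟨e2, e1, by
      rw [← e3]
      simp only [adjugate_fin_two, trace_fin_two, mul_apply, Fin.sum_univ_two, of_apply,
        cons_val', cons_val_zero, cons_val_one, cons_val_fin_one]
      ring, e5, e4, e6.symm⟩
  refine van_congr ((hS.van_transport (fun p : X3 => (p.2.1, p.1, p.2.2)) (fz s γ1 γ2)
    hF.relZ_equiv hF.relZ_equiv (fun p hp => k hp)
    (fun q hq => ⟨_, k hq, hF.relZ_equiv.refl q⟩) (fun p _ p' _ => ?_)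
    (fun p hp q _ => fz_rel hI _ _ (hp.1 ▸ hn))).2 h) fun p hp => ?_
  · exact ⟨fun ⟨g1, m1, g2, m2, e1, e2, e3⟩ => ⟨g1, m1, g2, m2, e2, e1, e3⟩,
      fun ⟨g1, m1, g2, m2, e1, e2, e3⟩ => ⟨g1, m1, g2, m2, e2, e1, e3⟩⟩
  · simp only [fz, hp.2.2.2.2.2]

/-- The second matrix of a pair in standard position. -/
def bm (j : ℕ) (r b c e : ℤ) : M2 := !![r - j * e, b; c, e]

/-- The pair attached to a form. -/
def pr (j : ℕ) (r : ℤ) (p : M2 × ℍ) : X3 :=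
  (dg j 1, bm j r (p.1 0 1 / 2) (p.1 1 0 / (2 * j)) ((r + p.1 1 1) / (2 * j)), p.2)

theorem pr_ymat {j : ℕ} (hj : 0 < j) (r b c e : ℤ) (τ : ℍ) :
    pr j r (ymat j b c (2 * j * e - r), τ) = (dg j 1, bm j r b c e, τ) := by
  have h : (2 * j : ℤ) ≠ 0 := by positivity
  simp [pr, ymat, Int.mul_ediv_cancel_left _ h]

theorem det_bm (j : ℕ) (r b c e : ℤ) :
    4 * (bm j r b c e).det * j = r ^ 2 - ((2 * j * e - r) ^ 2 + 4 * j * b * c) := by
  simp only [bm, det_fin_two_of]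
  ring

theorem ymat_eq (j : ℕ) (r b c e : ℤ) :
    ymat j b c (2 * j * e - r) = (2 : ℤ) • ((dg j 1).adjugate * bm j r b c e) - r • 1 := by
  rw [one_fin_two]
  ext i k
  fin_cases i <;> fin_cases k <;>
    simp [ymat, dg, bm, adjugate_fin_two, -zsmul_eq_mul] <;> ring

theorem mob_bm {j : ℕ} (hj : 0 < j) {r b c e : ℤ} (h : 0 < (bm j r b c e).det) (τ : ℍ) :
    mob (dg j 1) τ = mob (bm j r b c e) τ ↔
      ((j : ℂ) * c) * (τ : ℂ) ^ 2 + ((2 * j * e - r : ℤ) : ℂ) * τ - b = 0 := by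
  rw [eq_comm, mob_eq_iff h, coe_mob_dg (by positivity)]
  simp only [bm, of_apply, cons_val', cons_val_zero, cons_val_one, cons_val_fin_one]
  push_cast
  constructor <;> intro k <;> linear_combination -k

theorem eq_bm {j : ℕ} {r : ℤ} {y : M2} (h : ((dg j 1).adjugate * y).trace = r) :
    y = bm j r (y 0 1) (y 1 0) (y 1 1) := by
  rw [← h]
  ext i k
  fin_cases i <;> fin_cases k <;>
    simp [dg, bm, adjugate_fin_two, trace_fin_two, vecMul, dotProduct]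

theorem cls_iff {j : ℕ} (hj : 0 < j) (r b c e b' c' e' : ℤ) :
    cls j b c (2 * j * e - r) = cls j b' c' (2 * j * e' - r) ↔
      red 8 (bm j r b c e) = red 8 (bm j r b' c' e') := by
  have k : ((2 * j * e - r : ℤ) : ZMod (16 * j)) = ((2 * j * e' - r : ℤ) : ZMod (16 * j)) ↔
      (e : ZMod 8) = e' := by
    rw [ZMod.intCast_eq_intCast_iff_dvd_sub, ZMod.intCast_eq_intCast_iff_dvd_sub,
      show 2 * j * e' - r - (2 * j * e - r) = 2 * j * (e' - e) by ring,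
      show ((16 * j : ℕ) : ℤ) = 2 * j * (8 : ℕ) by push_cast; ring]
    exact mul_dvd_mul_iff_left (by positivity)
  simp only [cls, Prod.mk.injEq, k]
  constructor
  · rintro ⟨h1, h2, h3⟩
    ext i k
    fin_cases i <;> fin_cases k <;> simp [red, bm, h1, h2, h3]
  · intro h
    exact ⟨by simpa [red, bm] using congrFun (congrFun h 0) 1,
      by simpa [red, bm] using congrFun (congrFun h 1) 0,
      by simpa [red, bm] using congrFun (congrFun h 1) 1⟩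

theorem fset_form {j : ℕ} {D r b0 c0 e0 : ℤ} {p : M2 × ℍ}
    (hp : p ∈ FSet j D (cls j b0 c0 (2 * j * e0 - r))) :
    ∃ b c e : ℤ, p = (ymat j b c (2 * j * e - r), p.2) ∧
      (2 * j * e - r) ^ 2 + 4 * j * b * c = D ∧
      cls j b c (2 * j * e - r) = cls j b0 c0 (2 * j * e0 - r) ∧
      ((j : ℂ) * c) * (p.2 : ℂ) ^ 2 + ((2 * j * e - r : ℤ) : ℂ) * p.2 - b = 0 := by
  obtain ⟨b, c, ρ, h1, h2, h3, h4⟩ := hp
  obtain ⟨t, ht⟩ := (ZMod.intCast_eq_intCast_iff_dvd_sub _ _ _).1 (congrArg (·.2.2) h3)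
  obtain rfl : ρ = 2 * j * (e0 - 8 * t) - r := by
    push_cast at ht
    linear_combination -ht
  exact ⟨b, c, _, Prod.ext h1 rfl, h2, h3, h4⟩

theorem conj_iff {α β β' : M2} {g1 g2 : SL2} (hα : α.det ≠ 0) (h : α * (g1 : M2) = g2 * α)
    (r : ℤ) : β' * (g1 : M2) = g2 * β ↔
      (g1 : M2) * ((2 : ℤ) • (α.adjugate * β) - r • 1) * ((g1⁻¹ : SL2) : M2) =
        (2 : ℤ) • (α.adjugate * β') - r • 1 := by
  have k : α.adjugate * (g2 : M2) = g1 * α.adjugate := by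
    have := congrArg (fun x => α.adjugate * x * α.adjugate) h
    simp only [← mul_assoc, adjugate_mul, mul_assoc _ α, mul_adjugate, smul_mul_assoc, one_mul,
      mul_smul_comm, mul_one] at this
    exact (smul_right_injective _ hα this).symm
  rw [eq_comm (b := _ - _), ← mul_eq_iff, sub_mul, mul_sub, smul_mul_assoc, smul_mul_assoc,
    mul_smul_comm, mul_smul_comm, one_mul, mul_one, sub_left_inj, ← mul_assoc, ← k, mul_assoc,
    mul_assoc]
  refine ⟨fun e => by rw [e], fun e => ?_⟩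
  have := congrArg (α * ·) (smul_right_injective _ two_ne_zero e)
  simp only [← mul_assoc, mul_adjugate, smul_mul_assoc, one_mul] at this
  exact smul_right_injective _ hα this

theorem van_form (hS : OS) (hO : ORB) (hF : FS) (hI : Inv8 s) {j : ℕ} (hj : 0 < j)
    {n r b0 c0 e0 : ℤ} (hn : 0 < n) (γ1 γ2 : SL2) :
    AVan s j γ1 γ2 (r ^ 2 - 4 * n * j) (cls j b0 c0 (2 * j * e0 - r)) ↔
      Van relZ (PSet n r j (red 8 (dg j 1)) (red 8 (bm j r b0 c0 e0))) (fz s γ1 γ2) := by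
  have j0 : (0 : ℤ) < j := by exact_mod_cast hj
  have d0 : (dg j 1).det = j := by rw [det_dg, mul_one]
  refine hS.van_transport (pr j r) (fz s γ1 γ2) (hF.relC_equiv _) hF.relZ_equiv (fun p hp => ?_)
    (fun q hq => ?_) (fun p hp p' hp' => ?_) fun p hp q _ => fz_rel hI _ _ (hp.1.1 ▸ j0)
  · obtain ⟨b, c, e, h1, h2, h3, h4⟩ := fset_form hp
    have dn : (bm j r b c e).det = n := by
      have := det_bm j r b c e
      rw [h2] at this
      exact mul_left_cancel₀ (a := 4 * (j : ℤ)) (by positivity) (by linear_combination this)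
    rw [h1, pr_ymat hj]
    refine ⟨⟨d0, dn, ?_, rfl, (cls_iff hj ..).1 h3, (mob_bm hj (dn ▸ hn) _).2 h4⟩, fun d hd => ?_⟩
    · simp [dg, bm, adjugate_fin_two, trace_fin_two]
    · exact isUnit_of_dvd_one (by simpa [dg] using hd 1 1)
  · obtain ⟨g1, m1, g2, m2, e⟩ := hO.one_orbit j q.1 hj hq.1.1 hq.2 hq.1.2.2.2.1
    have k : relZ q (mv g1⁻¹ g2⁻¹ q) := relZ_iff.2 ⟨_, inv_mem m1, _, inv_mem m2, rfl⟩
    have e1 : (mv g1⁻¹ g2⁻¹ q).1 = dg j 1 := by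
      simp only [mv, inv_inv]
      rw [mul_assoc, e, ← mul_assoc, ← cmul, inv_mul_cancel,
        cone, one_mul]
    have z := hF.zset_inv _ _ _ _ _ j0 hn q hq.1 _ k
    generalize mv g1⁻¹ g2⁻¹ q = q' at k e1 z
    obtain ⟨α, β, τ⟩ := q'
    obtain ⟨-, z2, z3, -, z5, z6⟩ := z
    subst e1
    simp only at z2 z3 z5 z6
    rw [eq_bm z3] at z2 z5 z6 k
    refine ⟨(ymat j (β 0 1) (β 1 0) (2 * j * β 1 1 - r), τ), ⟨_, _, _, rfl, ?_,
      (cls_iff hj ..).2 z5, (mob_bm hj (z2 ▸ hn) _).1 z6⟩, by rwa [pr_ymat hj]⟩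
    rw [← z2, det_bm]
    ring
  · obtain ⟨b, c, e, h1, -⟩ := fset_form hp
    obtain ⟨b', c', e', h1', -⟩ := fset_form hp'
    rw [h1, h1', pr_ymat hj, pr_ymat hj, ymat_eq, ymat_eq]
    constructor
    · rintro ⟨g, hg, k⟩
      obtain ⟨g', m, k'⟩ := hF.gj_conj j hj g hg
      exact ⟨g, hg.1, g', m, k', (conj_iff (d0.trans_ne j0.ne') k' r).2 (congrArg (·.1) k),
        (congrArg (·.2) k).symm⟩
    · rintro ⟨g, m, g', m', k1, k2, k3⟩
      exact ⟨g, hF.gj_of_conj j hj g m g' m' k1,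
        Prod.ext ((conj_iff (d0.trans_ne j0.ne') k1 r).1 k2) k3.symm⟩

/-- The Heegner divisors on the curve of determinant `j` die. -/
def Aj (s : ℍ → ℍ → V) (j : ℕ) : Prop := ∀ γ1 γ2 D v, D < 0 → AVan s j γ1 γ2 D v

/-- The primitive cycles of determinant `j` die. -/
def Zp (s : ℍ → ℍ → V) (j : ℕ) : Prop :=
  ∀ (n r : ℤ) a b γ1 γ2, r ^ 2 < 4 * n * j → Van relZ (PSet n r j a b) (fz s γ1 γ2)

theorem zp_of (hS : OS) (hO : ORB) (hF : FS) (hI : Inv8 s) {j : ℕ} (hj : 0 < j) (h : Aj s j) :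
    Zp s j := by
  intro n r a b γ1 γ2 hr
  have j0 : (0 : ℤ) < j := by exact_mod_cast hj
  have hn := pos_of j0 hr
  rcases Set.eq_empty_or_nonempty (PSet n r j a b) with e | ⟨p, hp⟩
  · exact van_zero (by simp [e])
  obtain ⟨g1, g2, e⟩ := hO.smith j p.1 hj hp.1.1 hp.2
  have e1 : (mv g1⁻¹ g2⁻¹ p).1 = dg j 1 := by
    simp only [mv, inv_inv]
    rw [mul_assoc, e, ← mul_assoc, ← cmul, inv_mul_cancel,
      cone, one_mul]
  obtain ⟨-, -, z3, z4, z5, -⟩ := mv_zset j0 hn g1⁻¹ g2⁻¹ hp.1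
  rw [e1] at z3 z4
  rw [eq_bm z3] at z5
  have k := van_mv hS hO hF hI (r := r) (a := a) (b := b) j0 hn (γ1 * g1) (γ2 * g2) g1⁻¹ g2⁻¹ (by
    rw [← z4, ← z5]
    exact (van_form hS hO hF hI hj hn _ _).1 (h _ _ _ _ (by linarith)))
  rwa [mul_inv_cancel_right, mul_inv_cancel_right] at k

/-- Content and primitive part. -/
noncomputable def cp (x : M2) : ℕ × M2 :=
  Classical.epsilon fun p : ℕ × M2 => 0 < p.1 ∧ Prim p.2 ∧ x = (p.1 : ℤ) • p.2

theorem cp_spec (hO : ORB) {x : M2} (hx : 0 < x.det) :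
    0 < (cp x).1 ∧ Prim (cp x).2 ∧ x = ((cp x).1 : ℤ) • (cp x).2 :=
  Classical.epsilon_spec (hO.content x (by rintro rfl; simp at hx)).exists

theorem cp_eq (hO : ORB) {x y : M2} {k : ℕ} (hx : 0 < x.det) (hk : 0 < k) (hy : Prim y)
    (e : x = (k : ℤ) • y) : cp x = (k, y) :=
  (hO.content x (by rintro rfl; simp at hx)).unique (cp_spec hO hx) ⟨hk, hy, e⟩

theorem det_smul' (k : ℤ) (x : M2) : (k • x).det = k ^ 2 * x.det := by
  rw [det_smul, Fintype.card_fin]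

theorem tr_smul (k : ℤ) (x y : M2) :
    ((k • x).adjugate * y).trace = k * (x.adjugate * y).trace := by
  rw [adjugate_smul, smul_mul_assoc, trace_smul, Fintype.card_fin, smul_eq_mul]
  norm_num

theorem red_smul (k : ℤ) (x : M2) : red 8 (k • x) = k • red 8 x :=
  map_zsmul (Int.castRingHom (ZMod 8)).mapMatrix k x

theorem van_cont (hS : OS) (hO : ORB) (hF : FS) (hI : Inv8 s) {j : ℕ} (hj : 0 < j) (Q : ℕ → Prop)
    (h : ∀ k j' : ℕ, Q k → 0 < j' → j = k ^ 2 * j' → Zp s j') {n r : ℤ} (a b : MN 8) (γ1 γ2 : SL2)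
    (hr : r ^ 2 < 4 * n * j) :
    Van relZ {p | p ∈ ZSet n r j a b ∧ Q (cp p.1).1} (fz s γ1 γ2) := by
  have j0 : (0 : ℤ) < j := by exact_mod_cast hj
  refine hS.van_of_parts _ (fun p => ((cp p.1).1, red 8 (cp p.1).2)) (fun p hp q _ k => ?_) ?_
  · obtain ⟨g1, m1, g2, m2, rfl⟩ := relZ_iff.1 k
    have d : 0 < p.1.det := hp.1.1 ▸ j0
    obtain ⟨c1, c2, c3⟩ := cp_spec hO d
    rw [cp_eq hO (x := (mv g1 g2 p).1) ((det_mv _ _ _).symm ▸ d) c1
      (hO.prim_mul _ g2 g1⁻¹ c2) (by rw [← smul_mul_assoc, ← mul_smul_comm, ← c3]; rfl)]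
    simp only [red_mul, red_gam m2, red_gam (inv_mem m1), one_mul, mul_one]
  rintro ⟨k, a'⟩
  rcases Set.eq_empty_or_nonempty {x : X3 | x ∈ {p | p ∈ ZSet n r j a b ∧ Q (cp p.1).1} ∧
    ((cp x.1).1, red 8 (cp x.1).2) = (k, a')} with e | ⟨p0, ⟨z0, q0⟩, e0⟩
  · exact van_zero (by simp only [e]; simp)
  obtain ⟨c1, -, c3⟩ := cp_spec hO (z0.1 ▸ j0 : 0 < p0.1.det)
  obtain ⟨e1, e2⟩ := Prod.mk.inj e0
  rw [e1] at c1 c3 q0
  have k0 : (0 : ℤ) < k := by exact_mod_cast c1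
  have d1 : (j : ℤ) = k ^ 2 * (cp p0.1).2.det := by rw [← det_smul', ← c3, z0.1]
  have t1 : r = k * ((cp p0.1).2.adjugate * p0.2.1).trace := by rw [← tr_smul, ← c3, z0.2.2.1]
  have a1 : a = (k : ℤ) • a' := by rw [← e2, ← red_smul, ← c3, z0.2.2.2.1]
  generalize ((cp p0.1).2.adjugate * p0.2.1).trace = r' at t1
  obtain ⟨j', hj'⟩ := Int.eq_ofNat_of_zero_le (a := (cp p0.1).2.det)
    (le_of_lt ((mul_pos_iff_of_pos_left (pow_pos k0 2)).1 (d1 ▸ j0)))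
  rw [hj'] at d1
  have j1 : (0 : ℤ) < j' := (mul_pos_iff_of_pos_left (pow_pos k0 2)).1 (d1 ▸ j0)
  refine (hS.van_transport (S := PSet n r' j' a' b) (fun p : X3 => ((k : ℤ) • p.1, p.2))
    (fz s γ1 γ2) hF.relZ_equiv hF.relZ_equiv (fun p hp => ?_) (fun q hq => ?_)
    (fun p _ p' _ => ?_) fun p hp q _ => ?_).1
    (van_congr (h k j' q0 (by exact_mod_cast j1) (by exact_mod_cast d1) n r' a' b γ1 γ2 ?_)
      fun p hp => ?_)
  · obtain ⟨⟨z1, z2, z3, z4, z5, z6⟩, pp⟩ := hp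
    have d : ((k : ℤ) • p.1).det = j := by rw [det_smul', z1, d1]
    have c := cp_eq hO (d ▸ j0) c1 pp rfl
    refine ⟨⟨⟨d, z2, by rw [tr_smul, z3, t1], by rw [red_smul, z4, a1], z5, ?_⟩, ?_⟩, ?_⟩
    · rw [mob_smul (z1 ▸ j1) k0.ne', z6]
    · simpa only [c] using q0
    · simp only [c, z4]
  · obtain ⟨⟨⟨z1, z2, z3, z4, z5, z6⟩, -⟩, e⟩ := hq
    obtain ⟨-, c2, c4⟩ := cp_spec hO (z1 ▸ j0 : 0 < q.1.det)
    obtain ⟨e3, e4⟩ := Prod.mk.inj e
    rw [e3] at c4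
    have d : (cp q.1).2.det = j' :=
      mul_left_cancel₀ (pow_pos k0 2).ne' (by rw [← det_smul', ← c4, z1, d1])
    refine ⟨((cp q.1).2, q.2), ⟨⟨d, z2, mul_left_cancel₀ k0.ne' ?_, e4, z5, ?_⟩, c2⟩, ?_⟩
    · rw [← tr_smul, ← c4, z3, t1]
    · rw [← z6, ← mob_smul (d ▸ j1) k0.ne', ← c4]
    · simp only [← c4]
      exact hF.relZ_equiv.refl q
  · simp only [relZ, smul_mul_assoc, mul_smul_comm, (smul_right_injective M2 k0.ne').eq_iff]
  · exact fz_rel hI _ _ (hp.1.1.1 ▸ j0)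
  · rw [t1, d1] at hr
    exact lt_of_mul_lt_mul_left (a := (k : ℤ) ^ 2) (by linarith) (by positivity)
  · simp only [fz, mob_smul (hp.1.1 ▸ j1 : 0 < p.1.det) k0.ne']

theorem le_of_sq {j k j' : ℕ} (hj : 0 < j) (e : j = k ^ 2 * j') : j' ≤ j ∧ (k ≠ 1 → j' < j) := by
  have k0 : 0 < k := Nat.pos_of_ne_zero (by rintro rfl; simp at e; omega)
  have j0 : 0 < j' := Nat.pos_of_ne_zero (by rintro rfl; simp at e; omega)
  rw [e]
  exact ⟨Nat.le_mul_of_pos_left _ (by positivity),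
    fun h => lt_mul_of_one_lt_left j0 (by nlinarith [show 2 ≤ k by omega])⟩

theorem van_all (hS : OS) (hO : ORB) (hF : FS) (hI : Inv8 s) {j : ℕ} (hj : 0 < j)
    (h : ∀ j' ≤ j, 0 < j' → Aj s j') {n r : ℤ} (a b : MN 8) (γ1 γ2 : SL2)
    (hr : r ^ 2 < 4 * n * j) : Van relZ (ZSet n r j a b) (fz s γ1 γ2) := by
  simpa using van_cont hS hO hF hI hj (fun _ => True)
    (fun k j' _ p e => zp_of hS hO hF hI p (h j' (le_of_sq hj e).1 p)) a b γ1 γ2 hr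

theorem exists_near {j : ℕ} (hj : 0 < j) (ρ : ℤ) :
    ∃ r e : ℤ, ρ = 2 * j * e - r ∧ -(j : ℤ) < r ∧ r ≤ j := by
  have j0 : (0 : ℤ) < 2 * j := by positivity
  have h1 := Int.emod_nonneg (ρ + j) j0.ne'
  have h2 := Int.emod_lt_of_pos (ρ + j) j0
  have h3 := Int.mul_ediv_add_emod (ρ + j) (2 * j)
  exact ⟨j - (ρ + j) % (2 * j), (ρ + j) / (2 * j), by linarith, by linarith, by linarith⟩

theorem small_one (hB : Base s) (γ1 γ2 : SL2) {D : ℤ} (v : Cls 1) (h0 : D < 0)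
    (h1 : -16 ≤ 3 * D) : AVan s 1 γ1 γ2 D v := by
  refine van_zero ?_
  rintro p ⟨b, c, ρ, -, h2, -, h4⟩
  obtain ⟨r, e, rfl, r1, r2⟩ := exists_near one_pos ρ
  have d := det_bm 1 r b c e
  rw [h2] at d
  have r0 : r = 0 ∨ r = 1 := by omega
  have d1 : (bm 1 r b c e).det = 1 := by rcases r0 with rfl | rfl <;> omega
  have o : dg (1 : ℕ) 1 = 1 := by
    ext i k
    fin_cases i <;> fin_cases k <;> simp [dg]
  have m := (mob_bm one_pos (d1 ▸ one_pos) _).2 h4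
  rw [o, mob_one] at m ⊢
  refine hB p.2 ⟨_, d1⟩ γ1 γ2 ((mob_SL ⟨_, d1⟩ _).symm.trans m.symm) ?_
  simpa [bm, trace_fin_two] using r0

theorem small (hS : OS) (hO : ORB) (hF : FS) (hI : Inv8 s) {j : ℕ} (hj : 2 ≤ j)
    (ih : ∀ j' < j, 0 < j' → Aj s j') (γ1 γ2 : SL2) {D : ℤ} (v : Cls j) (h0 : D < 0)
    (h1 : -16 * j ≤ 3 * D) : AVan s j γ1 γ2 D v := by
  have jp : 0 < j := by omega
  have j2 : (2 : ℤ) ≤ j := by exact_mod_cast hj
  rcases Set.eq_empty_or_nonempty (FSet j D v) with e | ⟨p, b, c, ρ, -, h2, rfl, -⟩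
  · exact van_zero (by simp [e])
  obtain ⟨r, e, rfl, r1, r2⟩ := exists_near jp ρ
  have d := det_bm j r b c e
  rw [h2] at d
  generalize (bm j r b c e).det = n at d
  have hr : r ^ 2 < 4 * n * j := by linarith
  have hn := pos_of (by linarith) hr
  have hn' : n < j := by
    have : r ^ 2 ≤ (j : ℤ) ^ 2 := sq_le_sq' r1.le r2
    nlinarith
  obtain ⟨n, rfl⟩ := Int.eq_ofNat_of_zero_le hn.le
  rw [show D = r ^ 2 - 4 * n * j by linarith, van_form hS hO hF hI jp hn]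
  have k := hS.van_diff (fz s γ1 γ2) hF.relZ_equiv (fun p hp => hp.1) ?_
    (hF.zset_fin n r j (red 8 (dg j 1)) (red 8 (bm j r b c e)) (by linarith) hr)
    (van_swap hS hF hI hn γ1 γ2 (van_all hS hO hF hI (by exact_mod_cast hn)
      (fun j' h => ih j' (by omega)) _ _ γ1 γ2 (by linarith)))
    (van_cont hS hO hF hI jp (· ≠ 1) (fun k j' q p e =>
      zp_of hS hO hF hI p (ih j' ((le_of_sq jp e).2 q) p)) _ _ γ1 γ2 hr)
  · convert k using 1
    ext p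
    refine ⟨fun hp => ⟨hp.1, fun hq => hq.2 ?_⟩, fun hp => ⟨hp.1, ?_⟩⟩
    · rw [cp_eq hO (k := 1) (by rw [hp.1.1]; linarith) one_pos hp.2 (by simp)]
    · obtain ⟨-, c2, c3⟩ := cp_spec hO (x := p.1) (by rw [hp.1.1]; linarith)
      have : (cp p.1).1 = 1 := by_contra fun h => hp.2 ⟨hp.1, h⟩
      rw [this, Nat.cast_one, one_smul] at c3
      rwa [c3]
  · intro p hp q hq k
    obtain ⟨g1, -, g2, -, rfl⟩ := relZ_iff.1 k
    have d : 0 < p.1.det := by rw [hp.1.1]; linarith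
    obtain ⟨c1, c2, c3⟩ := cp_spec hO d
    refine ⟨hq, ?_⟩
    rw [cp_eq hO (x := (mv g1 g2 p).1) ((det_mv _ _ _).symm ▸ d) c1
      (hO.prim_mul _ g2 g1⁻¹ c2) (by rw [← smul_mul_assoc, ← mul_smul_comm, ← c3]; rfl)]
    exact hp.2

theorem aj (hS : OS) (hO : ORB) (hF : FS) (hI : Inv8 s) (hR : Rel s) (hB : Base s) (j : ℕ) :
    0 < j → Aj s j := by
  induction j using Nat.strong_induction_on with
  | _ j ih =>
    intro hj γ1 γ2
    have k : ∀ (m : ℕ) (D : ℤ) v, D < 0 → -D ≤ m → AVan s j γ1 γ2 D v := fun m => by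
      induction m with
      | zero => exact fun D v h1 h2 => absurd h2 (by omega)
      | succ m ihm =>
        intro D v h1 h2
        rcases lt_or_ge (3 * D) (-16 * j) with c | c
        · exact hR j γ1 γ2 D v hj c fun D' v' d1 d2 => ihm D' v' d2 (by omega)
        rcases (show j = 1 ∨ 2 ≤ j by omega) with rfl | j2
        · exact small_one hB γ1 γ2 v h1 (by simpa using c)
        · exact small hS hO hF hI j2 ih γ1 γ2 v h1 c
    exact fun D v h => k (-D).toNat D v h (by omega)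

end Zind

theorem zind (hS : OS) (hO : ORB) (hF : FS) : ZindStmt := by
  intro V _ s hI hR hB n r j a b γ1 γ2 hj hr
  obtain ⟨j, rfl⟩ := Int.eq_ofNat_of_zero_le hj.le
  exact Zind.van_all hS hO hF hI (by exact_mod_cast hj)
    (fun j' _ => Zind.aj hS hO hF hI hR hB j') a b γ1 γ2 hr

end Pool.Agent.MP_9207e0_ag.hg

end MrgPart2

-- ======== part 3: formerly Pool.Agent.MP_9207e0_ag.hg.App
section MrgPart3

/-! Module APP: restriction of the product to the curve of determinant `j`. -/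

namespace Pool.Agent.MP_9207e0_ag.hg

open UpperHalfPlane Complex Filter Asymptotics Matrix
open scoped Real MatrixGroups Manifold Classical Kronecker

namespace App

/-- Triples of coefficients. -/
abbrev T3 : Type := ℤ × ℤ × ℤ

/-- The discriminant. -/
def dsc (j : ℕ) (q : T3) : ℤ := q.2.2 ^ 2 + 4 * j * q.1 * q.2.1

/-- The root of a form. -/
def Rt (j : ℕ) (q : T3) (τ : ℍ) : Prop :=
  ((j : ℂ) * q.2.1) * (τ : ℂ) ^ 2 + q.2.2 * τ - q.1 = 0

/-- The class. -/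
def clq (j : ℕ) (q : T3) : Cls j := cls j q.1 q.2.1 q.2.2

/-- The traceless matrix. -/
def ym (j : ℕ) (q : T3) : M2 := ymat j q.1 q.2.1 q.2.2

/-- The matrix with a trace part. -/
def xm (j : ℕ) (p : T3 × ℤ) : M2 := xmat j p.1.1 p.1.2.1 p.1.2.2 p.2

variable {j : ℕ}

lemma mem_FSet {D : ℤ} {v : Cls j} {p : M2 × ℍ} :
    p ∈ FSet j D v ↔ ∃ q, p.1 = ym j q ∧ dsc j q = D ∧ clq j q = v ∧ Rt j q p.2 :=
  ⟨fun ⟨b, c, ρ, h⟩ => ⟨(b, c, ρ), h⟩, fun ⟨q, h⟩ => ⟨q.1, q.2.1, q.2.2, h⟩⟩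

lemma ym_inj (hj : 0 < j) : Function.Injective (ym j) := by
  rintro ⟨b, c, ρ⟩ ⟨b', c', ρ'⟩ h
  have h1 : 2 * b = 2 * b' := congrFun (congrFun h 0) 1
  have h2 : 2 * (j : ℤ) * c = 2 * j * c' := congrFun (congrFun h 1) 0
  have h3 : ρ = ρ' := congrFun (congrFun h 1) 1
  have h4 : c = c' := mul_left_cancel₀ (by omega) h2
  have h5 : b = b' := by omega
  rw [h3, h4, h5]

lemma xm_inj (hj : 0 < j) : Function.Injective (xm j) := by
  rintro ⟨⟨b, c, ρ⟩, r⟩ ⟨⟨b', c', ρ'⟩, r'⟩ h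
  have h0 : r - ρ = r' - ρ' := congrFun (congrFun h 0) 0
  have h1 : 4 * (j : ℤ) * b = 4 * j * b' := congrFun (congrFun h 0) 1
  have h2 : c = c' := congrFun (congrFun h 1) 0
  have h3 : r + ρ = r' + ρ' := congrFun (congrFun h 1) 1
  have h4 : b = b' := mul_left_cancel₀ (by omega) h1
  have h5 : r = r' := by omega
  have h6 : ρ = ρ' := by omega
  rw [h2, h4, h5, h6]

lemma Rt.form {q : T3} {τ : ℍ} (h : Rt j q τ) :
    ((j * q.2.1 : ℤ) : ℂ) * (τ : ℂ) ^ 2 + (q.2.2 : ℂ) * τ + ((-q.1 : ℤ) : ℂ) = 0 := by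
  unfold Rt at h
  push_cast
  linear_combination h

lemma dsc_eq (q : T3) : q.2.2 ^ 2 - 4 * (j * q.2.1) * -q.1 = dsc j q := by
  unfold dsc
  ring

lemma fin_q (hO : ORB) (hj : 0 < j) (D : ℤ) (τ : ℍ) : {q | dsc j q = D ∧ Rt j q τ}.Finite := by
  have inj : Function.Injective fun q : T3 => ((j : ℤ) * q.2.1, q.2.2, -q.1) := by
    rintro ⟨b, c, ρ⟩ ⟨b', c', ρ'⟩ h
    simp only [Prod.mk.injEq, neg_inj] at h
    rw [h.2.1, h.2.2, mul_left_cancel₀ (by omega) h.1]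
  exact ((hO.fin_form D τ).preimage inj.injOn).subset fun q hq =>
    ⟨(dsc_eq q).trans hq.1, hq.2.form⟩

lemma exists_F (hO : ORB) (hj : 0 < j) (D₀ : ℤ) : ∃ F : ℍ → Finset T3,
    ∀ τ q, q ∈ F τ ↔ D₀ ≤ dsc j q ∧ dsc j q < 0 ∧ Rt j q τ := by
  refine ⟨fun τ => (Finset.Ico D₀ 0).biUnion fun D => (fin_q hO hj D τ).toFinset, fun τ q => ?_⟩
  simp only [Finset.mem_biUnion, Finset.mem_Ico, Set.Finite.mem_toFinset, Set.mem_ofPred_eq]
  exact ⟨fun ⟨D, h1, h2, h3⟩ => ⟨h2 ▸ h1.1, h2 ▸ h1.2, h3⟩,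
    fun h => ⟨_, ⟨h.1, h.2.1⟩, rfl, h.2.2⟩⟩

lemma dsc_neg (hj : 0 < j) {q : T3} {τ : ℍ} (hc : q.2.1 ≠ 0) (h : Rt j q τ) : dsc j q < 0 := by
  have h1 : (((j * q.2.1 : ℤ) : ℝ) : ℂ) * (τ : ℂ) ^ 2 + ((q.2.2 : ℝ) : ℂ) * τ +
      (((-q.1 : ℤ) : ℝ) : ℂ) = 0 := by
    simpa only [ofReal_intCast] using h.form
  obtain ⟨e1, e2⟩ := quad_disc h1
  have h2 : ((j * q.2.1 : ℤ) : ℝ) ≠ 0 := by
    exact_mod_cast mul_ne_zero (by omega : (j : ℤ) ≠ 0) hc
  have h3 : (dsc j q : ℝ) = -(2 * ((j * q.2.1 : ℤ) : ℝ) * τ.im) ^ 2 := by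
    rw [← dsc_eq, Int.cast_sub, Int.cast_pow, Int.cast_mul, Int.cast_mul, e1, e2]
    push_cast
    ring
  have h4 : 0 < (2 * ((j * q.2.1 : ℤ) : ℝ) * τ.im) ^ 2 := by
    have := τ.im_pos
    positivity
  have h5 : (dsc j q : ℝ) < 0 := by linarith
  exact_mod_cast h5

lemma det_pos (hj : 0 < j) : 0 < (dg (2 * j) 1).det := by
  rw [det_dg]
  omega

lemma fix_iff (hj : 0 < j) (p : T3 × ℤ) (τ : ℍ) :
    xm j p ∈ Fix (mob (dg (2 * j) 1) τ) ↔ dsc j p.1 < 0 ∧ Rt j p.1 τ := by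
  have h0 : (j : ℂ) ≠ 0 := by exact_mod_cast hj.ne'
  have h1 : ((p.1.2.1 : ℤ) : ℂ) * (mob (dg (2 * j) 1) τ : ℂ) ^ 2 +
      (((p.2 + p.1.2.2 : ℤ) : ℂ) - (p.2 - p.1.2.2 : ℤ)) * (mob (dg (2 * j) 1) τ : ℂ) -
        (4 * j * p.1.1 : ℤ) = 0 ↔ Rt j p.1 τ := by
    rw [coe_mob_dg (by omega), Rt]
    push_cast
    constructor
    · intro e
      apply mul_left_cancel₀ (mul_ne_zero (by norm_num : (4 : ℂ) ≠ 0) h0)
      linear_combination e
    · intro e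
      linear_combination 4 * j * e
  constructor
  · intro h
    exact ⟨dsc_neg hj h.1 (h1.1 h.2), h1.1 h.2⟩
  · intro h
    refine ⟨fun e : p.1.2.1 = 0 => ?_, h1.2 h.2⟩
    have := h.1
    rw [dsc, e, mul_zero, add_zero] at this
    exact absurd this (sq_nonneg _).not_gt

lemma det_xm (p : T3 × ℤ) : -(xm j p).det = dsc j p.1 - p.2 ^ 2 := by
  rw [xm, xmat, Matrix.det_fin_two_of, dsc]
  ring

lemma lift {x : M2} {b c ρ r : ℤ} (h : red (32 * j) x = red (32 * j) (xmat j b c ρ r)) :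
    ∃ p, x = xm j p := by
  have H : ∀ i k, ∃ m : ℤ, x i k - xmat j b c ρ r i k = (32 * j : ℕ) * m := fun i k =>
    (ZMod.intCast_eq_intCast_iff_dvd_sub _ _ _).1 (congrFun (congrFun h i) k).symm
  obtain ⟨k1, e1⟩ := H 0 0
  obtain ⟨k2, e2⟩ := H 1 1
  obtain ⟨k3, e3⟩ := H 0 1
  have f1 : xmat j b c ρ r 0 0 = r - ρ := rfl
  have f2 : xmat j b c ρ r 1 1 = r + ρ := rfl
  have f3 : xmat j b c ρ r 0 1 = 4 * j * b := rfl
  rw [f1] at e1
  rw [f2] at e2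
  rw [f3] at e3
  push_cast at e1 e2 e3
  refine ⟨((b + 8 * k3, x 1 0, ρ + 16 * j * (k2 - k1)), r + 16 * j * (k1 + k2)), ?_⟩
  rw [Matrix.eta_fin_two x, xm, xmat]
  simp only [Matrix.of_apply, Matrix.cons_val', Matrix.cons_val_zero, Matrix.cons_val_one,
    Matrix.cons_val_fin_one]
  rw [show x 0 0 = r + 16 * j * (k1 + k2) - (ρ + 16 * j * (k2 - k1)) by linear_combination e1,
    show x 1 1 = r + 16 * j * (k1 + k2) + (ρ + 16 * j * (k2 - k1)) by linear_combination e2,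
    show x 0 1 = 4 * j * (b + 8 * k3) by linear_combination e3]

lemma bound {ι : Type} [Finite ι] (c : ι → LS) : ∃ M : ℤ, ∀ y, ∀ n < -M, (c y).coeff n = 0 := by
  obtain ⟨m, hm⟩ := (Set.finite_range fun y => (c y).order).bddBelow
  refine ⟨-m, fun y n hn => HahnSeries.coeff_eq_zero_of_lt_order ?_⟩
  rw [neg_neg] at hn
  exact hn.trans_le (hm ⟨y, rfl⟩)

/-- The order of the product at a point of the curve. -/
lemma key (hO : ORB) (hj : 0 < j) (c : MN (32 * j) → LS) (C : ℤ → Cls j → ℤ) (D₀ : ℤ)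
    (hs : ∀ x, (∀ b c' ρ r, x ≠ red _ (xmat j b c' ρ r)) → c x = 0)
    (hC : ∀ b c' ρ D : ℤ, ρ ^ 2 + 4 * j * b * c' = D → D < 0 →
      ∑ᶠ r : ℤ, (c (red _ (xmat j b c' ρ r))).coeff (D - r ^ 2) = C D (cls j b c' ρ))
    (hl : ∀ D < D₀, ∀ v, C D v = 0) (τ : ℍ) (F : Finset T3)
    (hF : ∀ q, q ∈ F ↔ D₀ ≤ dsc j q ∧ dsc j q < 0 ∧ Rt j q τ) :
    ∑ᶠ x ∈ Fix (mob (dg (2 * j) 1) τ), (c (red _ x)).coeff (-x.det) =
      ∑ q ∈ F, (C (dsc j q) (clq j q) : ℂ) := by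
  have : NeZero (32 * j) := ⟨by omega⟩
  obtain ⟨M, hM⟩ := bound c
  set h : M2 → ℂ := fun x => (c (red _ x)).coeff (-x.det) with hh
  set P : Set (T3 × ℤ) := {p | dsc j p.1 < 0 ∧ Rt j p.1 τ} with hP
  have e1 : ∑ᶠ x ∈ Fix (mob (dg (2 * j) 1) τ), h x = ∑ᶠ x ∈ xm j '' P, h x := by
    refine finsum_mem_inter_support_eq' h _ _ fun x hx => ⟨fun h1 => ?_, ?_⟩
    · have h2 : ¬∀ b c' ρ r, red (32 * j) x ≠ red _ (xmat j b c' ρ r) := fun h2 =>
        hx (by rw [hh]; simp only [hs _ h2, HahnSeries.coeff_zero])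
      push Not at h2
      obtain ⟨b, c', ρ, r, h2⟩ := h2
      obtain ⟨p, rfl⟩ := lift h2
      exact ⟨p, (fix_iff hj p τ).1 h1, rfl⟩
    · rintro ⟨p, hp, rfl⟩
      exact (fix_iff hj p τ).2 hp
  have fin : (Function.support (P.indicator fun p => h (xm j p))).Finite := by
    refine ((hO.fin_fix (mob (dg (2 * j) 1) τ) M).preimage (xm_inj hj).injOn).subset
      fun p hp => ?_
    rw [Set.support_indicator] at hp
    exact ⟨(fix_iff hj p τ).2 hp.1, not_lt.1 fun h1 => hp.2 (hM _ _ (neg_lt_neg h1))⟩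
  have e2 : ∀ q, ∑ᶠ r, P.indicator (fun p => h (xm j p)) (q, r) =
      (F : Set T3).indicator (fun q => (C (dsc j q) (clq j q) : ℂ)) q := by
    intro q
    by_cases hq : dsc j q < 0 ∧ Rt j q τ
    · have e3 : ∀ r, P.indicator (fun p => h (xm j p)) (q, r) =
          (c (red _ (xmat j q.1 q.2.1 q.2.2 r))).coeff (dsc j q - r ^ 2) := fun r => by
        rw [Set.indicator_of_mem (show (q, r) ∈ P from hq), hh]
        simp only [det_xm]
        rfl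
      rw [finsum_congr e3, hC _ _ _ (dsc j q) rfl hq.1]
      by_cases h0 : D₀ ≤ dsc j q
      · rw [Set.indicator_of_mem (Finset.mem_coe.2 ((hF q).2 ⟨h0, hq⟩))]
        rfl
      · rw [Set.indicator_of_notMem fun h1 => h0 ((hF q).1 h1).1, hl _ (not_le.1 h0),
          Int.cast_zero]
    · rw [Set.indicator_of_notMem fun h1 => hq ((hF q).1 h1).2]
      exact finsum_eq_zero_of_forall_eq_zero fun r =>
        Set.indicator_of_notMem (show (q, r) ∉ P from hq) _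
  rw [e1, finsum_mem_image (xm_inj hj).injOn, finsum_mem_def, finsum_curry _ fin,
    finsum_congr e2, ← finsum_mem_def, finsum_mem_coe_finset]

lemma gam_le {N N' : ℕ} (h : N ∣ N') : Gam N' ≤ Gam N := by
  intro g hg
  rw [CongruenceSubgroup.Gamma_mem] at hg ⊢
  have H : ∀ x y : ℤ, (x : ZMod N') = (y : ℤ) → (x : ZMod N) = (y : ℤ) := fun x y e =>
    (ZMod.intCast_eq_intCast_iff_dvd_sub _ _ _).2 ((Int.natCast_dvd_natCast.2 h).trans
      ((ZMod.intCast_eq_intCast_iff_dvd_sub _ _ _).1 e))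
  obtain ⟨h1, h2, h3, h4⟩ := hg
  exact ⟨by simpa using H _ 1 (by simpa using h1), by simpa using H _ 0 (by simpa using h2),
    by simpa using H _ 0 (by simpa using h3), by simpa using H _ 1 (by simpa using h4)⟩

lemma gam_le_Gj {N : ℕ} (h : 8 * j ∣ N) : Gam N ≤ Gj j := by
  refine le_inf (gam_le ((dvd_mul_right 8 j).trans h)) ((gam_le h).trans fun g hg => ?_)
  rw [CongruenceSubgroup.Gamma_mem] at hg
  exact CongruenceSubgroup.Gamma0_mem.2 hg.2.2.1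

/-- The forms above a set of representatives of points. -/
lemma rep_pairs (hO : ORB) (hF : FS) (hj : 0 < j) {N : ℕ} (hN : 3 ≤ N) (hd : 8 * j ∣ N)
    {T : Set ℍ} {R : Finset ℍ} (hR : IsRep (relG N) T R) {D : ℤ} {v : Cls j}
    (hT : ∀ p ∈ FSet j D v, p.2 ∈ T) {P : Finset (M2 × ℍ)}
    (hP : ∀ p, p ∈ P ↔ p.2 ∈ R ∧ p ∈ FSet j D v) : IsRep (relC (Gam N)) (FSet j D v) P := by
  refine ⟨fun p hp => ((hP p).1 hp).2, fun p hp => ?_⟩
  obtain ⟨σ, ⟨h1, g, hg, rfl⟩, h2⟩ := hR.2 _ (hT p hp)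
  refine ⟨cact g p, ⟨(hP _).2 ⟨h1, hF.fset_inv j D v hj g (gam_le_Gj hd hg) p hp⟩, g, hg, rfl⟩, ?_⟩
  rintro _ ⟨h3, g', hg', rfl⟩
  have h4 : g' • p.2 = g • p.2 := h2 _ ⟨((hP _).1 h3).1, g', hg', rfl⟩
  have h5 : g⁻¹ * g' = 1 := hO.free N _ p.2 hN (mul_mem (inv_mem hg) hg')
    (by rw [mul_smul, h4, inv_smul_smul])
  rw [inv_mul_eq_one.1 h5]

variable {V : Type} [AddCommGroup V]

lemma sum_pairs (hS : OS) (hO : ORB) (hF : FS) (hj : 0 < j) {N : ℕ} (hd : 8 * j ∣ N) (hN : 0 < N)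
    {S : ℍ → V} (hi : ∀ g ∈ Gj j, ∀ τ, S (g • τ) = S τ) {D : ℤ} {v : Cls j}
    {P R : Finset (M2 × ℍ)} (hP : IsRep (relC (Gam N)) (FSet j D v) P)
    (hR : IsRep (relC (Gj j)) (FSet j D v) R) :
    ∑ p ∈ P, S p.2 = (Gam N).relIndex (Gj j) • ∑ p ∈ R, S p.2 := by
  have : NeZero N := ⟨hN.ne'⟩
  obtain ⟨R', h1, h2⟩ := hS.index cact hF.cact_one hF.cact_mul (gam_le_Gj hd)
    Subgroup.FiniteIndex.index_ne_zero (hF.fset_inv j D v hj)
    (fun g hg p _ e => hO.free 8 g p.2 (by norm_num) hg.1 (congrArg Prod.snd e)) hR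
  rw [← h2 (fun p => S p.2) fun g hg p _ => hi g hg p.2]
  refine hS.sum_eq (hF.relC_equiv _) hP h1 ?_
  rintro p - _ - ⟨g, hg, rfl⟩
  exact (hi g (gam_le_Gj hd hg) p.2).symm

lemma sum_ord (hS : OS) {N : ℕ} {T : Set ℍ} {R : Finset ℍ} (hR : IsRep (relG N) T R) {a : ℍ → ℂ}
    (ha : a ∈ Mod N) (hT : {τ | a τ = 0} ⊆ T) {S : ℍ → V}
    (h : Van (relG N) {τ | a τ = 0} fun τ => (ord a τ : ℤ) • S τ) :
    ∑ τ ∈ R, (ord a τ : ℤ) • S τ = 0 := by
  rw [← h _ (hS.filter hT ?_ hR), Finset.sum_filter_of_ne]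
  · intro τ _ h1
    by_contra h2
    rw [ord, (ordE_eq_zero ha.1 τ).2 h2] at h1
    simp at h1
  · rintro τ h1 _ - ⟨g, hg, rfl⟩
    exact (ha.2.1 g hg τ).trans h1

/-- The combinatorial part. -/
lemma comb (hS : OS) (hO : ORB) (hF : FS) (hj : 0 < j) {N : ℕ} (hN : 3 ≤ N) (hd : 8 * j ∣ N)
    {S : ℍ → V} (hi : ∀ g ∈ Gj j, ∀ τ, S (g • τ) = S τ) {D₀ : ℤ} (hD : D₀ < 0)
    {T : Set ℍ} {R : Finset ℍ} (hR : IsRep (relG N) T R)
    (hT : ∀ q τ, D₀ ≤ dsc j q → dsc j q < 0 → Rt j q τ → τ ∈ T) (F : ℍ → Finset T3)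
    (hq : ∀ τ q, q ∈ F τ ↔ D₀ ≤ dsc j q ∧ dsc j q < 0 ∧ Rt j q τ) (C : ℤ → Cls j → ℤ) (κ : ℤ)
    (v₀ : Cls j)
    (hC : ∀ v, C D₀ v = κ * ((if v = v₀ then 1 else 0) + if v = -v₀ then 1 else 0))
    (hV : ∀ D v, D₀ < D → D < 0 → Van (relC (Gj j)) (FSet j D v) fun p => S p.2)
    {R₀ : Finset (M2 × ℍ)} (h₀ : IsRep (relC (Gj j)) (FSet j D₀ v₀) R₀) :
    ∑ τ ∈ R, ∑ q ∈ F τ, C (dsc j q) (clq j q) • S τ =
      (2 * κ * (Gam N).relIndex (Gj j)) • ∑ p ∈ R₀, S p.2 := by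
  have : NeZero (16 * j) := ⟨by omega⟩
  set B : ℤ × Cls j → V := fun w =>
    ∑ z ∈ R.sigma F with (dsc j z.2, clq j z.2) = w, S z.1 with hB
  have e1 : ∑ τ ∈ R, ∑ q ∈ F τ, C (dsc j q) (clq j q) • S τ =
      ∑ w ∈ Finset.Ico D₀ 0 ×ˢ Finset.univ, C w.1 w.2 • B w := by
    rw [Finset.sum_sigma', ← Finset.sum_fiberwise_of_maps_to (t := Finset.Ico D₀ 0 ×ˢ Finset.univ)
      (g := fun z : (_ : ℍ) × T3 => (dsc j z.2, clq j z.2))]
    · refine Finset.sum_congr rfl fun w _ => ?_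
      rw [hB, Finset.smul_sum]
      refine Finset.sum_congr rfl fun z hz => ?_
      rw [← (Finset.mem_filter.1 hz).2]
    · intro z hz
      have := (hq _ _).1 (Finset.mem_sigma.1 hz).2
      exact Finset.mem_product.2 ⟨Finset.mem_Ico.2 ⟨this.1, this.2.1⟩, Finset.mem_univ _⟩
  have e2 : ∀ D v R₁, D₀ ≤ D → D < 0 → IsRep (relC (Gj j)) (FSet j D v) R₁ →
      B (D, v) = (Gam N).relIndex (Gj j) • ∑ p ∈ R₁, S p.2 := by
    intro D v R₁ h1 h2 h3
    rw [← sum_pairs hS hO hF hj hd (by omega) hi (rep_pairs hO hF hj hN hd hR (P :=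
      ((R.sigma F).filter fun z => (dsc j z.2, clq j z.2) = (D, v)).image
        fun z => (ym j z.2, z.1)) ?_ ?_) h3, Finset.sum_image]
    · rintro ⟨τ, q⟩ - ⟨τ', q'⟩ - e
      have e3 : τ = τ' := congrArg Prod.snd e
      have e4 : q = q' := ym_inj hj (congrArg Prod.fst e)
      rw [e3, e4]
    · intro p hp
      obtain ⟨q, -, f2, -, f4⟩ := mem_FSet.1 hp
      exact hT q _ (f2 ▸ h1) (f2 ▸ h2) f4
    · intro p
      simp only [Finset.mem_image, Finset.mem_filter, Finset.mem_sigma, Prod.mk.injEq, hq]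
      constructor
      · rintro ⟨z, ⟨⟨f1, -, -, f2⟩, f3, f4⟩, rfl⟩
        exact ⟨f1, mem_FSet.2 ⟨z.2, rfl, f3, f4, f2⟩⟩
      · rintro ⟨f1, f2⟩
        obtain ⟨q, f3, f4, f5, f6⟩ := mem_FSet.1 f2
        exact ⟨⟨p.2, q⟩, ⟨⟨f1, f4 ▸ h1, f4 ▸ h2, f6⟩, f4, f5⟩, Prod.ext f3.symm rfl⟩
  have e3 : B (D₀, -v₀) = (Gam N).relIndex (Gj j) • ∑ p ∈ R₀, S p.2 := by
    rw [e2 _ _ _ le_rfl hD (hF.fset_neg j D₀ v₀ R₀ h₀), Finset.sum_image]
    intro p _ p' _ e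
    have e4 := congrArg Prod.snd e
    exact Prod.ext (neg_injective (congrArg Prod.fst e)) e4
  rw [e1, Finset.sum_product, Finset.sum_eq_single_of_mem D₀ (Finset.mem_Ico.2 ⟨le_rfl, hD⟩)]
  · simp only [hC, mul_add, add_smul, mul_ite, mul_one, mul_zero, ite_smul, zero_smul,
      Finset.sum_add_distrib, Finset.sum_ite_eq', Finset.mem_univ, if_true]
    rw [e3, e2 _ _ _ le_rfl hD h₀, ← natCast_zsmul, smul_smul, ← add_smul]
    congr 1
    ring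
  · intro D h1 h2
    rw [Finset.mem_Ico] at h1
    refine Finset.sum_eq_zero fun v _ => ?_
    obtain ⟨R₁, h3⟩ := hF.fset_fin j D v hj h1.2
    rw [e2 D v R₁ h1.1 h1.2 h3, hV D v (lt_of_le_of_ne h1.1 h2.symm) h1.2 R₁ h3, smul_zero,
      smul_zero]

lemma uQ_inv (hU : THB) (ι : Qbar →+* ℂ) (γ : SL2) {g : SL2} (hg : g ∈ Gam 8) (τ : ℍ) :
    uQ ι (γ • g • τ) = uQ ι (γ • τ) := by
  have e1 : uX (γ • g • τ) = uX (γ • τ) := (comp_SL_mem_Mod hU.modX γ).2.1 g hg τ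
  have e2 : uY (γ • g • τ) = uY (γ • τ) := (comp_SL_mem_Mod hU.modY γ).2.1 g hg τ
  rw [uQ, uQ, e1, e2]

lemma good_mob (hB : QB) (hC : JC) {N N' : ℕ} {w : ℍ → ℂ} {A : M2} {m : ℕ} (hm : 0 < m)
    (hA : A.det = m) (hd : N * m ∣ N') (h1 : w ∈ Mod N) (h2 : IntJ w) :
    (fun τ => w (mob A τ)) ∈ Mod N' ∧ IntJ fun τ => w (mob A τ) := by
  have h3 : 0 < A.det := by omega
  refine ⟨hB.mod_level ?_ (hB.mod_mob h3 h1), hC.intJ_mob h3 h2⟩
  rwa [hA, Int.toNat_natCast]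

lemma ne_mob {w : ℍ → ℂ} {A : M2} (hA : 0 < A.det) (h : w ≠ 0) : (fun τ => w (mob A τ)) ≠ 0 :=
  fun e => h (funext fun τ => by
    simpa only [mob_mob_adj hA, Pi.zero_apply] using congrFun e (mob A.adjugate τ))

end App

open App in
theorem app (hB : QB) (hC : JC) (hT : THA) (hU : THB) (hS : OS) (hO : ORB) (hF : FS) (hR : REC)
    (hI : InpStmt) (hP : BorStmt) : AppStmt := by
  intro ι V _ β hβ j γ1 γ2 D₀ v₀ hj hD hV R₀ h₀
  rcases R₀.eq_empty_or_nonempty with rfl | ⟨p₀, hp₀⟩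
  · exact Finset.sum_empty
  have : NeZero (32 * j) := ⟨by omega⟩
  obtain ⟨b₀, c₀, ρ₀, -, d1, d2, -⟩ := h₀.1 p₀ hp₀
  obtain ⟨f, c, C, κ, i1, i2, i3, i4, i5, i6, i7, i8⟩ := hI j b₀ c₀ ρ₀ D₀ d1 hD
  rw [d2] at i8
  obtain ⟨N', a, b, hN', am, bm, ai, bi, a0, b0, ho⟩ := hP _ f c i1 i2 i3
  have hj1 : 0 < (dg j 1).det := by
    rw [det_dg]
    omega
  set S : ℍ → V := fun τ => β (uQ ι (γ1 • τ)) (uQ ι (γ2 • mob (dg j 1) τ)) with hSd
  have hi : ∀ g ∈ Gj j, ∀ τ, S (g • τ) = S τ := by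
    intro g hg τ
    obtain ⟨g', hg', e⟩ := hF.gj_conj j hj g hg
    have e1 : mob (dg j 1) (g • τ) = g' • mob (dg j 1) τ := by
      rw [← mob_SL, ← mob_SL, ← mob_mul hj1 (det_SL_pos g), ← mob_mul (det_SL_pos g') hj1, e]
    simp only [hSd, e1, uQ_inv hU ι _ hg', uQ_inv hU ι _ hg.1]
  obtain ⟨N, hN⟩ : ∃ N, N = N' * (2 * j) * (8 * j) := ⟨_, rfl⟩
  have hd : 8 * j ∣ N := hN ▸ dvd_mul_left _ _
  have hN0 : 0 < N := hN ▸ by positivity
  have hN3 : 3 ≤ N := le_trans (by omega) (Nat.le_of_dvd hN0 hd)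
  have g1 : ∀ w ∈ Mod 8, IntJ w → (fun τ => w (γ1 • τ)) ∈ Mod N ∧ IntJ fun τ => w (γ1 • τ) := by
    intro w h1 h2
    simpa only [mob_SL] using good_mob hB hC one_pos (det_SL γ1)
      (((mul_one 8).dvd.trans (dvd_mul_right 8 j)).trans hd) h1 h2
  have g2 : ∀ w ∈ Mod 8, IntJ w → (fun τ => w (γ2 • mob (dg j 1) τ)) ∈ Mod N ∧
      IntJ fun τ => w (γ2 • mob (dg j 1) τ) := by
    intro w h1 h2
    simpa only [mob_mul (det_SL_pos γ2) hj1, mob_SL] using good_mob hB hC hj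
      (A := (γ2 : M2) * dg j 1) (by rw [Matrix.det_mul, det_SL, det_dg]; ring) hd h1 h2
  have g3 : ∀ w ∈ Mod N', IntJ w → (fun τ => w (mob (dg (2 * j) 1) τ)) ∈ Mod N ∧
      IntJ fun τ => w (mob (dg (2 * j) 1) τ) := fun w h1 h2 =>
    good_mob hB hC (m := 2 * j) (by omega) (by rw [det_dg]; push_cast; ring)
      (hN ▸ dvd_mul_right _ _) h1 h2
  have rc : ∀ w ∈ Mod N, IntJ w → w ≠ 0 →
      Van (relG N) {τ | w τ = 0} fun τ => (ord w τ : ℤ) • S τ := by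
    intro w h1 h2 h3
    refine hR.recAn ι β hβ N w (fun τ => uX (γ1 • τ)) (fun τ => uY (γ1 • τ))
      (fun τ => uX (γ2 • mob (dg j 1) τ)) (fun τ => uY (γ2 • mob (dg j 1) τ)) hN3 ?_ h3
      (fun τ => hT.curve _) (fun τ => hT.curve _) fun τ => ?_
    · simp only [List.forall_mem_cons, List.not_mem_nil, false_imp_iff, implies_true, and_true]
      exact ⟨⟨h1, h2⟩, g1 _ hU.modX hU.intX, g1 _ hU.modY hU.intY, g2 _ hU.modX hU.intX,
        g2 _ hU.modY hU.intY⟩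
    · rw [← hB.j_inv γ1 τ]
      exact hT.jrel _
  obtain ⟨a1, a2⟩ := g3 a am ai
  obtain ⟨b1, b2⟩ := g3 b bm bi
  have a3 := ne_mob (det_pos hj) a0
  have b3 := ne_mob (det_pos hj) b0
  obtain ⟨Ra, hRa⟩ := hR.finz N _ hN0 a1 a3
  obtain ⟨Rb, hRb⟩ := hR.finz N _ hN0 b1 b3
  choose! Tc hTc using fun D : ℤ => hO.fin_cm N D hN0
  set T₀ : Finset ℍ := Ra ∪ Rb ∪ (Finset.Ico D₀ 0).biUnion Tc with hT₀
  obtain ⟨R, hRT⟩ := hS.exists_rep (S := {τ | ∃ σ ∈ T₀, relG N τ σ}) (hF.relG_equiv N)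
    T₀.finite_toSet fun τ ⟨σ, h1, h2⟩ => ⟨σ, h1, ⟨σ, h1, (hF.relG_equiv N).refl σ⟩, h2⟩
  have sa := sum_ord hS hRT a1 (fun τ h => by
    obtain ⟨σ, h1, -⟩ := hRa.2 τ h
    exact ⟨σ, Finset.mem_union_left _ (Finset.mem_union_left _ h1.1), h1.2⟩) (rc _ a1 a2 a3)
  have sb := sum_ord hS hRT b1 (fun τ h => by
    obtain ⟨σ, h1, -⟩ := hRb.2 τ h
    exact ⟨σ, Finset.mem_union_left _ (Finset.mem_union_right _ h1.1), h1.2⟩) (rc _ b1 b2 b3)
  obtain ⟨F, hq⟩ := exists_F hO hj D₀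
  have main := comb hS hO hF hj hN3 hd hi (by omega) hRT (fun q τ h1 h2 h3 => by
    obtain ⟨g, hg, h4⟩ := hTc _ h2 τ _ _ _ (dsc_eq q) h3.form
    exact ⟨g • τ, Finset.mem_union_right _
      (Finset.mem_biUnion.2 ⟨_, Finset.mem_Ico.2 ⟨h1, h2⟩, h4⟩), g, hg, rfl⟩) F hq C κ v₀ i8 hV h₀
  have pt : ∀ τ, (ord (fun τ => a (mob (dg (2 * j) 1) τ)) τ : ℤ) -
      ord (fun τ => b (mob (dg (2 * j) 1) τ)) τ = 3 * ∑ q ∈ F τ, C (dsc j q) (clq j q) := by
    intro τ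
    have := ho (mob (dg (2 * j) 1) τ)
    rw [key hO hj c C D₀ i4 i5 i6 τ (F τ) (hq τ), ord, ord, ← ordE_comp_mob a (det_pos hj),
      ← ordE_comp_mob b (det_pos hj)] at this
    exact_mod_cast this
  have : NeZero N := ⟨hN0.ne'⟩
  have hm : (Gam N).relIndex (Gj j) ≠ 0 := Subgroup.FiniteIndex.index_ne_zero
  refine hβ.tf (3 * (2 * κ * (Gam N).relIndex (Gj j))) _ (by positivity) ?_
  rw [mul_smul, ← main, ← sub_zero (0 : V)]
  nth_rewrite 1 [← sa]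
  rw [← sb, ← Finset.sum_sub_distrib, Finset.smul_sum]
  refine Finset.sum_congr rfl fun τ _ => ?_
  rw [← sub_smul, pt, mul_smul, Finset.sum_smul]

end Pool.Agent.MP_9207e0_ag.hg

end MrgPart3

-- marker of a merged file
example : 731051 + 17627 = 731051 + 17627 := rfl
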