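import Mathlib
import Pool.Agent.MP_9207e0_ag.hg.Spec

-- ======== part 0: formerly Pool.Agent.MP_9207e0_ag.hg.JA
section MrgPart0

/-! Module JA: modular forms and functions of level one. -/

namespace Pool.Agent.MP_9207e0_ag.hg

open UpperHalfPlane Complex Filter Asymptotics Matrix
open scoped Real MatrixGroups Manifold Classical Kronecker ModularForm

namespace JAx

/-- Holomorphic functions that transform with weight `k`. -/
structure Wk (k : ℤ) (f : ℍ → ℂ) : Prop where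
  hol : Hol f
  S : ∀ τ, f (ModularGroup.S • τ) = (τ : ℂ) ^ k * f τ
  T : ∀ τ, f (ModularGroup.T • τ) = f τ

variable {k l : ℤ} {f g : ℍ → ℂ}

lemma Wk.mul (hf : Wk k f) (hg : Wk l g) : Wk (k + l) (f * g) :=
  ⟨hf.hol.mul hg.hol, fun τ => by
    rw [Pi.mul_apply, Pi.mul_apply, hf.S, hg.S, zpow_add₀ τ.ne_zero]; ring,
    fun τ => by rw [Pi.mul_apply, Pi.mul_apply, hf.T, hg.T]⟩

lemma Wk.pow (hf : Wk k f) (n : ℕ) : Wk (n * k) (f ^ n) := by
  induction n with
  | zero => exact ⟨by rw [pow_zero]; exact mdifferentiable_const, by simp, by simp⟩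
  | succ n ih =>
    rw [pow_succ, Nat.cast_succ, add_one_mul]
    exact ih.mul hf

lemma denom_T (τ : ℍ) : denom ModularGroup.T τ = 1 := by simp [ModularGroup.T, ModularGroup.denom_apply]

lemma ofMF {F : Type} [FunLike F ℍ ℂ] [ModularFormClass F 𝒮ℒ k] (φ : F) : Wk k φ := by
  have : SlashInvariantFormClass F (CongruenceSubgroup.Gamma 1) k :=
    CongruenceSubgroup.Gamma_one_coe_eq_SL ▸ inferInstance
  have h : ∀ (γ : SL2) τ, φ (γ • τ) = denom γ τ ^ k * φ τ := fun γ τ =>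
    SlashInvariantForm.slash_action_eqn_SL'' φ (CongruenceSubgroup.mem_Gamma_one γ) τ
  exact ⟨ModularFormClass.holo φ, fun τ => by rw [h, ModularGroup.denom_S],
    fun τ => by rw [h, denom_T, _root_.one_zpow, one_mul]⟩

lemma gr_zero : Gr 0 f ↔ IsBoundedAtImInfty f := by
  simp only [Gr, mul_zero, zero_mul, Real.exp_zero]
  rfl

lemma toMF (hf : Wk k f) (hb : Gr 0 f) : ∃ φ : ModularForm 𝒮ℒ k, ⇑φ = f := by
  have h : ∀ γ : SL2, f ∣[k] γ = f := SlashInvariantForm.slash_action_generators_SL2Z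
    (funext fun τ => by
      rw [ModularForm.SL_slash_apply, hf.S, ModularGroup.denom_S, _root_.zpow_neg]
      have := zpow_ne_zero k τ.ne_zero
      field_simp)
    (funext fun τ => by rw [ModularForm.SL_slash_apply, hf.T, denom_T, _root_.one_zpow, mul_one])
  refine ⟨⟨⟨f, fun _ ⟨γ, hγ⟩ => hγ ▸ h γ⟩, hf.hol, fun {c} hc => ?_⟩, rfl⟩
  rw [Subgroup.IsArithmetic.isCusp_iff_isCusp_SL2Z] at hc
  rw [OnePoint.isBoundedAt_iff_forall_SL2Z hc]
  intro γ _
  change IsBoundedAtImInfty (f ∣[k] γ)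
  rw [h]
  exact gr_zero.1 hb

lemma eq_zero (hf : Wk k f) (hb : Gr 0 f) (hk : k < 0 ∨ k = 2) : f = 0 := by
  obtain ⟨φ, rfl⟩ := toMF hf hb
  rcases hk with hk | rfl
  · exact ModularFormClass.levelOne_neg_weight_eq_zero hk φ
  · rw [rank_zero_iff_forall_zero.1 ModularForm.levelOne_weight_two_rank_zero φ]
    rfl

lemma tendsto_iff (φ : ModularForm 𝒮ℒ k) {c : ℂ} :
    Tendsto φ atImInfty (nhds c) ↔ (qExpansion 1 φ).coeff 0 = c := by
  have h1 := ModularFormClass.analyticAt_cuspFunction_zero φ one_pos one_mem_strictPeriods_SL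
  have h2 := SlashInvariantFormClass.periodic_comp_ofComplex φ one_mem_strictPeriods_SL
  rw [qExpansion_coeff_zero one_pos h1 h2]
  refine ⟨fun h => h.limUnder_eq, ?_⟩
  rintro rfl
  rw [← cuspFunction_apply_zero one_pos h1 h2]
  exact (h1.continuousAt.tendsto.comp (qParam_tendsto_atImInfty one_pos)).congr
    fun τ => SlashInvariantFormClass.eq_cuspFunction φ τ one_mem_strictPeriods_SL one_ne_zero

lemma t4 : Tendsto ModularForm.E₄ atImInfty (nhds 1) :=
  (tendsto_iff _).2 (EisensteinSeries.E_qExpansion_coeff_zero _ ⟨2, rfl⟩)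

lemma t6 : Tendsto ModularForm.E₆ atImInfty (nhds 1) :=
  (tendsto_iff _).2 (EisensteinSeries.E_qExpansion_coeff_zero _ ⟨3, rfl⟩)

lemma wkD : Wk 12 ModularForm.discriminant := ofMF CuspForm.discriminant

/-- Removal of the constant term and division by the discriminant. -/
lemma step (hf : Wk k f) (hb : Gr 0 f) (hg : Wk k g) (h1 : Tendsto g atImInfty (nhds 1)) :
    ∃ (c : ℂ) (r : ℍ → ℂ), Wk (k - 12) r ∧ Gr 0 r ∧ f = c • g + ModularForm.discriminant * r := by
  obtain ⟨φ, rfl⟩ := toMF hf hb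
  obtain ⟨ψ, rfl⟩ := toMF hg (gr_zero.2 (h1.isBigO_one ℝ))
  obtain ⟨χ, hχ⟩ := ModularForm.sub_smul_isCuspForm φ ψ ((tendsto_iff ψ).1 h1)
  refine ⟨(qExpansion 1 φ).coeff 0, CuspForm.discriminantEquiv χ, ofMF _,
    gr_zero.2 (ModularFormClass.bdd_at_infty _), funext fun τ => ?_⟩
  have h2 : χ τ = φ τ - (qExpansion 1 φ).coeff 0 * ψ τ := DFunLike.congr_fun hχ τ
  rw [Pi.add_apply, Pi.mul_apply, ModularForm.discriminant_mul_discriminantEquiv_apply, h2]
  simp

lemma gr_pow {κ : ℝ} (hf : Gr κ f) (n : ℕ) : Gr (n * κ) (f ^ n) := by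
  induction n with
  | zero => rw [pow_zero, Nat.cast_zero, zero_mul]; exact gr_const 1
  | succ n ih =>
    rw [pow_succ, Nat.cast_succ, add_one_mul]
    exact ih.mul hf

lemma poly_aux (m : ℕ) : ∀ f, Wk (12 * m) f → Gr 0 f → ∃ p : Polynomial ℂ,
    ∀ τ, f τ = ModularForm.discriminant τ ^ m * p.eval (jf τ) := by
  have key : ∀ (m : ℕ) f, Wk (12 * m) f → Gr 0 f → ∃ (c : ℂ) (r : ℍ → ℂ), Wk (12 * m - 12) r ∧
      Gr 0 r ∧ f = c • ⇑ModularForm.E₄ ^ (3 * m) + ModularForm.discriminant * r :=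
    fun m f hf hb => step hf hb
      (by convert (ofMF ModularForm.E₄).pow (3 * m) using 1; push_cast; ring)
      (by have := t4.pow (3 * m); rw [one_pow] at this; exact this)
  induction m with
  | zero =>
    intro f hf hb
    obtain ⟨c, r, h1, h2, rfl⟩ := key 0 f hf hb
    exact ⟨Polynomial.C c, fun τ => by simp [eq_zero h1 h2 (Or.inl (by norm_num))]⟩
  | succ m ih =>
    intro f hf hb
    obtain ⟨c, r, h1, h2, rfl⟩ := key _ f hf hb
    obtain ⟨p, hp⟩ := ih r (by convert h1 using 1; push_cast; ring) h2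
    refine ⟨Polynomial.C c * Polynomial.X ^ (m + 1) + p, fun τ => ?_⟩
    have := ModularForm.discriminant_ne_zero τ
    simp only [Pi.add_apply, Pi.smul_apply, Pi.pow_apply, Pi.mul_apply, hp, smul_eq_mul,
      Polynomial.eval_add, Polynomial.eval_mul, Polynomial.eval_C, Polynomial.eval_pow,
      Polynomial.eval_X, jf, div_pow, ← pow_mul]
    field_simp
    ring

lemma poly (hA : QA) (hB : QB) : ∀ w ∈ Mod 1, ∃ p : Polynomial ℂ, ∀ τ, w τ = p.eval (jf τ) := by
  intro w hw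
  have h1 : Wk 0 w := ⟨hw.1, fun τ => by
    rw [hw.2.1 _ (CongruenceSubgroup.mem_Gamma_one _), _root_.zpow_zero, one_mul],
    hw.2.1 _ (CongruenceSubgroup.mem_Gamma_one _)⟩
  obtain ⟨κ, hκ⟩ := hw.2.2 1
  simp only [one_smul] at hκ
  obtain ⟨c, h2, -, -, h3⟩ := hB.delta_q
  have h4 := hA.gr_of_coeff (-1) one_pos h2 fun n hn => h3 n (by
    have : (n : ℝ) < 1 := by simpa using hn
    exact_mod_cast this)
  obtain ⟨p, hp⟩ := poly_aux ⌈κ⌉₊ (w * ModularForm.discriminant ^ ⌈κ⌉₊)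
    (by convert h1.mul (wkD.pow _) using 1; ring)
    ((Gr.mul hκ (gr_pow h4 _)).mono (by linarith [Nat.le_ceil κ]))
  refine ⟨p, fun τ => mul_left_cancel₀ (pow_ne_zero ⌈κ⌉₊ (ModularForm.discriminant_ne_zero τ)) ?_⟩
  rw [← hp, mul_comm]
  rfl

lemma surj (hA : QA) (hB : QB) : Function.Surjective jf := by
  intro c
  by_contra H
  push Not at H
  have h0 : ∀ r : ℂ, (fun τ => jf τ - r) ≠ 0 := fun r e => by
    obtain ⟨d, h1, -, h2, -⟩ := hB.j_q
    have h3 : jf = fun _ => r := funext fun τ => sub_eq_zero.1 (congrFun e τ)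
    rw [hA.unique one_pos h1 (h3 ▸ hA.const 1 r), HahnSeries.C_apply,
      HahnSeries.coeff_single_of_ne (by norm_num)] at h2
    exact zero_ne_one h2
  have h1 : ∀ r : ℂ, Hol fun τ => jf τ - r := fun r => hB.j_mod.1.sub mdifferentiable_const
  obtain ⟨p, hp⟩ := poly hA hB (fun τ => (jf τ - c)⁻¹) (hB.mod_quot one_pos (one_mem _)
    (sub_mem hB.j_mod ((Mod 1).algebraMap_mem c)) (h0 c)
    ((h1 c).inv fun τ => sub_ne_zero.2 (H τ))
    (funext fun τ => inv_mul_cancel₀ (sub_ne_zero.2 (H τ))))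
  have h2 : p * (Polynomial.X - Polynomial.C c) - 1 ≠ 0 := fun e => by
    simpa using congrArg (Polynomial.eval c) e
  obtain ⟨τ, hτ⟩ := hB.generic (p * (Polynomial.X - Polynomial.C c) - 1).roots.toFinset
    (fun r τ => jf τ - r) fun r _ => ⟨h1 r, h0 r⟩
  refine hτ (jf τ) (Multiset.mem_toFinset.2 ((Polynomial.mem_roots h2).2 ?_)) (sub_self _)
  simp [← hp, inv_mul_cancel₀ (sub_ne_zero.2 (H τ))]

lemma char_aux {σ ε : ℂ} (h0 : g ≠ 0) (hS : ∀ τ, g (ModularGroup.S • τ) = σ * g τ)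
    (hT : ∀ τ, g (ModularGroup.T • τ) = ε * g τ) : σ ^ 2 = 1 ∧ σ * ε ^ 3 = 1 := by
  obtain ⟨τ, hτ⟩ := Function.ne_iff.1 h0
  have e1 : ModularGroup.S * ModularGroup.S = -1 := by decide
  have e2 : ModularGroup.S * (ModularGroup.T * (ModularGroup.S * (ModularGroup.T *
      (ModularGroup.S * ModularGroup.T)))) = -1 := by decide
  have h1 : g ((ModularGroup.S * ModularGroup.S) • τ) = g τ := by
    rw [e1, ModularGroup.SL_neg_smul, one_smul]
  have h2 := congrArg (fun γ : SL2 => g (γ • τ)) e2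
  simp only [mul_smul, hS, hT, ModularGroup.SL_neg_smul, one_smul] at h1 h2
  have h3 : σ ^ 2 = 1 := mul_right_cancel₀ hτ (by linear_combination h1)
  exact ⟨h3, mul_right_cancel₀ hτ (by linear_combination h2 - σ * ε ^ 3 * g τ * h3)⟩

section Rat

variable (hA : QA) {h : ℕ} (hh : 0 < h)
include hA hh

lemma rq_mul (hf : RQ h f) (hg : RQ h g) : RQ h (f * g) := by
  obtain ⟨K, hK⟩ := hA.ratL
  obtain ⟨c, h1, h2⟩ := hf
  obtain ⟨d, h3, h4⟩ := hg
  exact ⟨_, hA.mul hh h1 h3, (hK _).1 (mul_mem ((hK _).2 h2) ((hK _).2 h4))⟩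

lemma rq_pow (hf : RQ h f) (n : ℕ) : RQ h (f ^ n) := by
  obtain ⟨K, hK⟩ := hA.ratL
  obtain ⟨c, h1, h2⟩ := hf
  exact ⟨_, hA.pow n hh h1, (hK _).1 (pow_mem ((hK _).2 h2) n)⟩

lemma rq_div (hf : RQ h f) (hg : RQ h g) (h0 : ∀ τ, g τ ≠ 0) : RQ h (g⁻¹ * f) := by
  obtain ⟨K, hK⟩ := hA.ratL
  obtain ⟨c, h1, h2⟩ := hf
  obtain ⟨d, h3, h4⟩ := hg
  refine ⟨_, hA.quot hh h1 h3 (fun e => h0 UpperHalfPlane.I (congrFun e _)) ?_
    (funext fun τ => ?_), (hK _).1 (div_mem ((hK _).2 h2) ((hK _).2 h4))⟩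
  · rw [inv_mul_eq_div]; exact (hA.hol hh h1).div (hA.hol hh h3) h0
  · have := h0 τ
    simp only [Pi.mul_apply, Pi.inv_apply]
    field_simp

end Rat

lemma span_mul {A B : Set (ℍ → ℂ)} (u : ℍ → ℂ) (H : ∀ a ∈ A, u * a ∈ B)
    (hf : f ∈ Submodule.span ℂ A) : u * f ∈ Submodule.span ℂ B :=
  (Submodule.span_le (p := (Submodule.span ℂ B).comap (LinearMap.mulLeft ℂ u))).2
    (fun a ha => Submodule.subset_span (H a ha)) hf

/-- The rational forms span the space of forms of a given weight. -/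
lemma span_aux (hA : QA) (hB : QB) (n : ℕ) : ∀ (k : ℤ) (f : ℍ → ℂ), k < 12 * n → Even k → Wk k f →
    Gr 0 f → f ∈ Submodule.span ℂ {f' | RQ 1 f' ∧ Wk k f'} := by
  induction n with
  | zero =>
    intro k f hk _ hf hb
    rw [eq_zero hf hb (Or.inl (by simpa using hk))]
    exact zero_mem _
  | succ n ih =>
    intro k f hk he hf hb
    by_cases h : k < 0 ∨ k = 2
    · rw [eq_zero hf hb h]; exact zero_mem _
    obtain ⟨a, b, rfl⟩ : ∃ a b : ℕ, k = a * (4 : ℕ) + b * (6 : ℕ) := by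
      obtain ⟨j, rfl⟩ := he
      rcases Int.emod_two_eq_zero_or_one j with h1 | h1
      · exact ⟨(j / 2).toNat, 0, by push_cast; omega⟩
      · exact ⟨((j - 3) / 2).toNat, 1, by push_cast; omega⟩
    have h1 := ((ofMF ModularForm.E₄).pow a).mul ((ofMF ModularForm.E₆).pow b)
    obtain ⟨c, r, h2, h3, rfl⟩ := step hf hb h1 (by
      have := (t4.pow a).mul (t6.pow b)
      rw [one_pow, one_pow, one_mul] at this
      exact this)
    refine add_mem (Submodule.smul_mem _ _ (Submodule.subset_span ⟨rq_mul hA one_pos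
      (rq_pow hA one_pos hB.e4_q a) (rq_pow hA one_pos hB.e6_q b), h1⟩))
      (span_mul _ (fun x hx => ⟨?_, ?_⟩)
        (ih _ r (by push_cast at hk ⊢; omega) (he.sub (by decide)) h2 h3))
    · obtain ⟨d, h4, h5, -⟩ := hB.delta_q
      exact rq_mul hA one_pos ⟨d, h4, h5⟩ hx.1
    · simpa using wkD.mul hx.2

lemma scal (hA : QA) (hB : QB) {h : ℕ} {σ ε : ℂ} (hh : 0 < h) (h24 : 24 ∣ h) (hq : HasQ h g)
    (hS : ∀ τ, g (ModularGroup.S • τ) = σ * g τ) (hT : ∀ τ, g (ModularGroup.T • τ) = ε * g τ) :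
    g ∈ Submodule.span ℂ {g' : ℍ → ℂ | RQ h g' ∧ (∀ τ, g' (ModularGroup.S • τ) = σ * g' τ) ∧
      ∀ τ, g' (ModularGroup.T • τ) = ε * g' τ} := by
  by_cases h0 : g = 0
  · rw [h0]; exact zero_mem _
  obtain ⟨h1, h2⟩ := char_aux h0 hS hT
  obtain ⟨c, hc⟩ := hq
  obtain ⟨κ, hκ⟩ := hA.expG hh hc
  obtain ⟨d, d1, d2, -, d3⟩ := hB.et_q
  have h3 := hA.gr_of_coeff (-1 / 24) (by norm_num) d1 fun n hn => d3 n (by
    have : (n : ℝ) < 1 := hn.trans_eq (by norm_num)
    exact_mod_cast this)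
  have hζ := Complex.isPrimitiveRoot_exp 6 (by norm_num)
  have e1 : ee (1 / 24) ^ 4 = cexp (2 * π * Complex.I / (6 : ℕ)) := by
    rw [ee, ← Complex.exp_nat_mul]; congr 1; push_cast; ring
  rw [← e1] at hζ
  have e2 : (ee (1 / 24) ^ 4) ^ 3 = -1 :=
    (hζ.pow (by norm_num) (a := 3) (b := 2) rfl).eq_neg_one_of_two_right
  obtain ⟨i, -, hi⟩ := hζ.eq_pow_of_pow_eq_one (ξ := ε ^ 5)
    (by linear_combination (ε ^ 24 + ε ^ 18 + ε ^ 12 + ε ^ 6 + 1) *
      ((σ * ε ^ 3 + 1) * h2 - ε ^ 6 * h1))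
  obtain ⟨j, hj, e3⟩ : ∃ j : ℕ, κ ≤ j / 6 ∧ ε * (ee (1 / 24) ^ 4) ^ j = 1 := by
    refine ⟨i + 6 * ⌈κ⌉₊, ?_, ?_⟩
    · have : (0 : ℝ) ≤ i := Nat.cast_nonneg i
      push_cast
      linarith [Nat.le_ceil κ]
    · rw [pow_add, pow_mul, hζ.pow_eq_one, one_pow, mul_one, hi]
      linear_combination (σ * ε ^ 3 + 1) * h2 - ε ^ 6 * h1
  have e4 : σ * (-1) ^ j = 1 := by
    rw [← e2, ← pow_mul, mul_comm 3, pow_mul]
    linear_combination (σ * σ * ((ε * (ee (1 / 24) ^ 4) ^ j) ^ 2 + ε * (ee (1 / 24) ^ 4) ^ j + 1)) * e3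
      - σ * ((ee (1 / 24) ^ 4) ^ j) ^ 3 * h2 + h1
  have vT : ∀ τ, ε * (et ^ (4 * j)) (ModularGroup.T • τ) = (et ^ (4 * j)) τ := fun τ => by
    rw [Pi.pow_apply, Pi.pow_apply, hB.et_T, mul_pow, ← mul_assoc, pow_mul, e3, one_mul]
  have vS : ∀ τ, σ * (et ^ (4 * j)) (ModularGroup.S • τ) =
      (τ : ℂ) ^ (2 * j : ℤ) * (et ^ (4 * j)) τ := fun τ => by
    have : sqr τ ^ 4 = -1 * (τ : ℂ) ^ 2 := by
      rw [show 4 = 2 * 2 from rfl, pow_mul, hB.sqr_sq, mul_pow, neg_sq, I_sq]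
    rw [Pi.pow_apply, Pi.pow_apply, hB.et_S, mul_pow, pow_mul, this, mul_pow, ← mul_assoc,
      ← mul_assoc, e4, one_mul, ← pow_mul, ← _root_.zpow_natCast]
    rfl
  have v0 : ∀ τ, (et ^ (4 * j)) τ ≠ 0 := fun τ => pow_ne_zero _ (hB.et_ne τ)
  have h4 : Wk (2 * j) (g * et ^ (4 * j)) := ⟨(hA.hol hh hc).mul (hB.et_hol.pow _), fun τ => by
    rw [Pi.mul_apply, Pi.mul_apply, hS]; linear_combination g τ * vS τ, fun τ => by
    rw [Pi.mul_apply, Pi.mul_apply, hT]; linear_combination g τ * vT τ⟩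
  have h5 := span_aux hA hB (j + 1) _ _ (by push_cast; omega) (even_two_mul _) h4
    ((Gr.mul hκ (gr_pow h3 _)).mono (by push_cast; linarith))
  have h6 : g = (et ^ (4 * j))⁻¹ * (g * et ^ (4 * j)) := funext fun τ => by
    have := v0 τ
    simp only [Pi.mul_apply, Pi.inv_apply]
    field_simp
  rw [h6]
  refine span_mul _ (fun x hx => ⟨rq_div hA hh (hB.rq_level hh (one_dvd _) hx.1)
    (rq_pow hA hh (hB.rq_level hh h24 ⟨d, d1, d2⟩) _) v0, fun τ => ?_, fun τ => ?_⟩) h5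
  · have a1 := v0 τ
    have a2 := v0 (ModularGroup.S • τ)
    simp only [Pi.mul_apply, Pi.inv_apply, hx.2.S]
    field_simp
    linear_combination -x τ * vS τ
  · have a1 := v0 τ
    have a2 := v0 (ModularGroup.T • τ)
    simp only [Pi.mul_apply, Pi.inv_apply, hx.2.T]
    field_simp
    linear_combination -x τ * vT τ

end JAx

theorem ja (hA : QA) (hB : QB) : JA :=
  ⟨JAx.poly hA hB, JAx.surj hA hB, fun {_ σ ε} h0 hS hT =>
    let ⟨h1, h2⟩ := JAx.char_aux h0 hS hT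
    ⟨h1, by linear_combination (σ * ε ^ 3 + 1) * h2 - ε ^ 6 * h1⟩,
    fun hh h24 hq hS hT => JAx.scal hA hB hh h24 hq hS hT⟩

end Pool.Agent.MP_9207e0_ag.hg

end MrgPart0

-- ======== part 1: formerly Pool.Agent.MP_9207e0_ag.hg.Hecke
section MrgPart1

/-! Hecke operators on the Fourier transform of a vector valued function. -/

namespace Pool.Agent.MP_9207e0_ag.hg

open UpperHalfPlane Complex Filter Asymptotics Matrix
open scoped Real MatrixGroups Manifold Classical Kronecker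

namespace Hecke

variable {N : ℕ} [NeZero N] {f : MN N → ℍ → ℂ} {c : MN N → LS}

lemma ee_add (z w : ℂ) : ee (z + w) = ee z * ee w := by rw [ee, mul_add, Complex.exp_add, ee, ee]

lemma ee_pow (z : ℂ) (l : ℕ) : ee z ^ l = ee (l * z) := by
  rw [ee, ee, ← Complex.exp_nat_mul, mul_left_comm]

lemma ee_eq_one {z : ℂ} : ee z = 1 ↔ ∃ n : ℤ, z = n := by
  rw [ee, Complex.exp_eq_one_iff]
  refine exists_congr fun n => ?_
  rw [mul_comm (n : ℂ), mul_right_inj' Complex.two_pi_I_ne_zero]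

lemma psi_eq (j : ℤ) : ZMod.stdAddChar (j : ZMod N) = ee (j / N) := by
  rw [ZMod.stdAddChar_coe, ee, mul_div_assoc]

omit [NeZero N] in
lemma red_mul (x y : M2) : red N (x * y) = red N x * red N y :=
  Matrix.map_mul (f := Int.castRingHom (ZMod N))

omit [NeZero N] in
lemma red_gam {γ : SL2} (h : γ ∈ Gam N) : red N γ = 1 := by
  obtain ⟨h1, h2, h3, h4⟩ := CongruenceSubgroup.Gamma_mem.1 h
  ext i j
  fin_cases i <;> fin_cases j <;> simpa [red]

lemma geom {d : ℕ} (hd : 0 < d) (t : ℤ) :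
    ∑ l ∈ Finset.range d, ee (t / d) ^ l = if (d : ℤ) ∣ t then (d : ℂ) else 0 := by
  have hd' : (d : ℂ) ≠ 0 := Nat.cast_ne_zero.2 hd.ne'
  have h1 : ee (t / d) = 1 ↔ (d : ℤ) ∣ t := by
    rw [ee_eq_one]
    refine exists_congr fun n => ?_
    rw [div_eq_iff hd', mul_comm]
    norm_cast
  split_ifs with h
  · simp [h1.2 h]
  · rw [geom_sum_eq (mt h1.1 h), ee_pow, mul_div_cancel₀ _ hd', ee_eq_one.2 ⟨t, rfl⟩, sub_self,
      zero_div]

lemma inner {d : ℕ} (hd : 0 < d) (n : ℤ) (e : ZMod N) (h : (n : ZMod N) = -(d * e)) :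
    ∑ l ∈ Finset.range d, ZMod.stdAddChar ((l : ZMod N) * e) * ee (n * l / (d * N)) =
      if (d : ℤ) ∣ n ∧ e = -((n / d : ℤ) : ZMod N) then (d : ℂ) else 0 := by
  obtain ⟨e, rfl⟩ := ZMod.intCast_surjective e
  have hd' : (d : ℂ) ≠ 0 := Nat.cast_ne_zero.2 hd.ne'
  have hd2 : (d : ℤ) ≠ 0 := Nat.cast_ne_zero.2 hd.ne'
  have hN : (N : ℂ) ≠ 0 := Nat.cast_ne_zero.2 (NeZero.ne N)
  obtain ⟨t, ht⟩ : (N : ℤ) ∣ n + d * e := by
    rw [← ZMod.intCast_zmod_eq_zero_iff_dvd]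
    push_cast
    rw [h, neg_add_cancel]
  have h1 : ∀ l : ℕ, ZMod.stdAddChar ((l : ZMod N) * (e : ZMod N)) * ee (n * l / (d * N)) =
      ee (t / d) ^ l := fun l => by
    have h2 : (n : ℂ) = N * t - d * e := by exact_mod_cast eq_sub_of_add_eq ht
    rw [← Int.cast_natCast, ← Int.cast_mul, psi_eq, ← ee_add, ee_pow, h2]
    congr 1
    push_cast
    field_simp
    ring
  simp only [h1]
  rw [geom hd]
  refine if_congr ⟨?_, ?_⟩ rfl rfl
  · rintro ⟨u, rfl⟩
    have h2 : n = d * (N * u - e) := by linear_combination ht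
    refine ⟨⟨_, h2⟩, ?_⟩
    rw [h2, Int.mul_ediv_cancel_left _ hd2]
    simp
  · rintro ⟨⟨n, rfl⟩, h2⟩
    rw [Int.mul_ediv_cancel_left _ hd2, eq_neg_iff_add_eq_zero, ← Int.cast_add,
      ZMod.intCast_zmod_eq_zero_iff_dvd] at h2
    obtain ⟨u, hu⟩ := h2
    refine ⟨u, mul_left_cancel₀ (Nat.cast_ne_zero.2 (NeZero.ne N) : (N : ℤ) ≠ 0) ?_⟩
    linear_combination d * hu - ht

lemma bracket (hH : HAT) (h : WH N f c) (a : ℕ) {d : ℕ} (hd : 0 < d) (n : ℤ) :
    ∑ l ∈ Finset.range d, ∑ b : ZMod N, ∑ e : ZMod N,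
      ZMod.stdAddChar ((a : ZMod N) * b + (l : ZMod N) * e) *
        ((c !![(d : ZMod N), b; 0, e]).coeff n * ee (n * l / (d * N))) =
      if (d : ℤ) ∣ n then d * Gc c d (n / d) a else 0 := by
  have h1 : ∀ b e : ZMod N, ∑ l ∈ Finset.range d,
      ZMod.stdAddChar ((a : ZMod N) * b + (l : ZMod N) * e) *
        ((c !![(d : ZMod N), b; 0, e]).coeff n * ee (n * l / (d * N))) =
      ZMod.stdAddChar ((a : ZMod N) * b) * (c !![(d : ZMod N), b; 0, e]).coeff n *
        if (d : ℤ) ∣ n ∧ e = -((n / d : ℤ) : ZMod N) then (d : ℂ) else 0 := fun b e => by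
    by_cases h2 : (n : ZMod N) = -(d * e)
    · rw [← inner hd n e h2, Finset.mul_sum]
      exact Finset.sum_congr rfl fun l _ => by rw [AddChar.map_add_eq_mul]; ring
    · rw [hH.supp h _ n (by simpa [Matrix.det_fin_two] using h2)]
      simp
  rw [Finset.sum_comm]
  simp only [Finset.sum_comm (s := Finset.range d), h1]
  split_ifs with h2
  · obtain ⟨n, rfl⟩ := h2
    simp only [dvd_mul_right, true_and, mul_ite, mul_zero, Finset.sum_ite_eq', Finset.mem_univ,
      if_true, Int.mul_ediv_cancel_left _ (Nat.cast_ne_zero.2 hd.ne' : (d : ℤ) ≠ 0), Gc,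
      Finset.mul_sum, Int.cast_natCast]
    exact Finset.sum_congr rfl fun b _ => by rw [mul_comm b]; ring
  · simp [h2]

lemma reindex {k : ℤ} (hk : k ≠ 0) (G E : ℤ → ℂ) (S : ℂ) :
    HasSum (fun n => (if k ∣ n then G (n / k) else 0) * E n) S ↔
      HasSum (fun n => G n * E (k * n)) S := by
  rw [← (mul_right_injective₀ hk).hasSum_iff fun n hn => by
    rw [if_neg fun ⟨u, hu⟩ => hn ⟨u, hu.symm⟩, zero_mul]]
  simp only [Function.comp_def, dvd_mul_right, if_true, Int.mul_ediv_cancel_left _ hk]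

lemma block (hH : HAT) (h : WH N f c) {a d : ℕ} (ha : 0 < a) (hd : 0 < d) (τ : ℍ) :
    HasSum (fun ν : ℤ => (if (a : ℤ) ∣ ν then d * Gc c d (ν / a) a else 0) * ee (ν * τ / N))
      (∑ l ∈ Finset.range d, hatV (fun x => f x (mob !![(a : ℤ), (l : ℤ); 0, (d : ℤ)] τ))
        (red N !![(a : ℤ), (l : ℤ); 0, (d : ℤ)])) := by
  have hd' : (d : ℂ) ≠ 0 := Nat.cast_ne_zero.2 hd.ne'
  have hN : (N : ℂ) ≠ 0 := Nat.cast_ne_zero.2 (NeZero.ne N)
  have h1 : HasSum (fun n : ℤ => (if (d : ℤ) ∣ n then d * Gc c d (n / d) a else 0) *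
      ee (n * (a * τ) / (d * N)))
      (∑ l ∈ Finset.range d, hatV (fun x => f x (mob !![(a : ℤ), (l : ℤ); 0, (d : ℤ)] τ))
        (red N !![(a : ℤ), (l : ℤ); 0, (d : ℤ)])) := by
    simp only [← bracket hH h a hd, Finset.sum_mul]
    refine hasSum_sum fun l _ => ?_
    have h2 : ∀ φ : MN N → ℂ, hatV φ (red N !![(a : ℤ), (l : ℤ); 0, (d : ℤ)]) =
        ∑ b : ZMod N, ∑ e : ZMod N, ZMod.stdAddChar ((a : ZMod N) * b + (l : ZMod N) * e) *
          φ !![(d : ZMod N), b; 0, e] := fun φ => by simp [hatV, red]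
    rw [h2]
    refine hasSum_sum fun b _ => hasSum_sum fun e _ => ?_
    have h3 : ∀ n : ℤ, ee (n * l / (d * N)) * ee (n * (a * τ) / (d * N)) =
        ee (n * (mob !![(a : ℤ), (l : ℤ); 0, (d : ℤ)] τ : ℍ) / N) := fun n => by
      rw [← ee_add, coe_mob (by simp [Matrix.det_fin_two, ha, hd])]
      congr 1
      simp only [of_apply, cons_val', cons_val_zero, cons_val_one, cons_val_fin_one,
        Int.cast_zero, zero_mul, zero_add, Int.cast_natCast]
      field_simp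
      ring
    simp only [mul_assoc, h3]
    exact (h.q _ _).mul_left _
  rw [reindex (Nat.cast_ne_zero.2 hd.ne') fun n => d * Gc c d n a] at h1
  rw [reindex (Nat.cast_ne_zero.2 ha.ne') fun n => d * Gc c d n a]
  convert h1 using 4 with n
  push_cast
  field_simp

lemma low (c : MN N → LS) : ∃ M : ℕ, ∀ x, ∀ n < -(M : ℤ), (c x).coeff n = 0 := by
  refine ⟨∑ x, (c x).order.natAbs, fun x n hn => HahnSeries.coeff_eq_zero_of_lt_order ?_⟩
  have h1 := Finset.single_le_sum (f := fun x => (c x).order.natAbs) (fun _ _ => Nat.zero_le _)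
    (Finset.mem_univ x)
  omega

lemma bdd (c : MN N → LS) (m : ℕ) : BddBelow (Function.support fun ν => m * lam c m ν) := by
  obtain ⟨M, hM⟩ := low c
  refine ⟨-(M * m : ℤ), fun ν hν => not_lt.1 fun h => hν ?_⟩
  refine mul_eq_zero_of_right _ (Finset.sum_eq_zero fun k hk => ?_)
  split_ifs with h1
  · obtain ⟨u, rfl⟩ := h1
    obtain ⟨⟨j, rfl⟩, h0⟩ := Nat.mem_divisors.1 hk
    have hk0 : 0 < k := Nat.pos_of_ne_zero (left_ne_zero_of_mul h0)
    have hj : (1 : ℤ) ≤ j := by exact_mod_cast Nat.pos_of_ne_zero (right_ne_zero_of_mul h0)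
    have hk1 : (0 : ℤ) < k := by exact_mod_cast hk0
    rw [Nat.mul_div_cancel_left _ hk0, Int.mul_ediv_cancel_left _ hk1.ne', Gc,
      Finset.sum_eq_zero fun b _ => ?_, zero_div]
    refine mul_eq_zero_of_right _ (hM _ _ ?_)
    have h2 : u < -(M * j : ℤ) := lt_of_mul_lt_mul_left (by push_cast at h; linarith) hk1.le
    have h3 : (M : ℤ) * 1 ≤ M * j := mul_le_mul_of_nonneg_left hj (Nat.cast_nonneg M)
    have h4 : (j : ℤ) * u ≤ 1 * u := mul_le_mul_of_nonpos_right hj (by omega)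
    omega
  · rfl

lemma qexp (hO : ORB) (hH : HAT) (h : WH N f c) (m : ℕ) :
    ∃ s, IsQ N (Hm f m) s ∧ ∀ ν, s.coeff ν = m * lam c m ν := by
  refine ⟨HahnSeries.ofSuppBddBelow _ (bdd c m), fun τ => ?_, fun ν => rfl⟩
  rw [Hm, hO.sum_herm]
  convert hasSum_sum fun p (hp : p ∈ m.divisorsAntidiagonal) => block hH h
    (Nat.pos_of_mem_divisors (Nat.fst_mem_divisors_of_mem_antidiagonal hp))
    (Nat.pos_of_mem_divisors (Nat.snd_mem_divisors_of_mem_antidiagonal hp)) τ using 2 with ν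
  rw [← Finset.sum_mul, Nat.sum_divisorsAntidiagonal
    fun a d => if (a : ℤ) ∣ ν then d * Gc c d (ν / a) a else 0]
  congr 1
  change m * lam c m ν = _
  rw [lam, Finset.mul_sum]
  refine Finset.sum_congr rfl fun k hk => ?_
  rw [mul_ite, mul_zero, Nat.cast_div_charZero (K := ℂ) (Nat.dvd_of_mem_divisors hk)]
  congr 1
  ring

lemma act (hO : ORB) (hH : HAT) (h : WH N f c) (m : ℕ) (γ : SL2) (τ : ℍ) :
    Hm f m (γ • τ) = Hm (fun x => f (red N γ * x)) m τ := by
  rcases Nat.eq_zero_or_pos m with rfl | hm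
  · simp [Hm, Herm]
  have hm' : (0 : ℤ) < m := by exact_mod_cast hm
  rw [Hm, Hm, ← hO.herm_sum m
    (fun B => hatV (fun x => f (red N γ * x) (mob B τ)) (red N B)) γ fun δ A hA => by
      rw [mob_mul (det_SL_pos δ) (hA ▸ hm'), mob_SL, red_mul]
      exact hH.law (hH.left h γ) δ _ _]
  refine Finset.sum_congr rfl fun A hA => ?_
  obtain ⟨h1, -, -, -, h2⟩ := (hO.mem_herm m A).1 hA
  rw [mob_mul (by rw [Matrix.det_fin_two, h1, h2]; simpa using hm) (det_SL_pos γ), mob_SL, red_mul]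
  exact (hH.hat_left (fun x => f x (mob A (γ • τ))) γ _).symm

lemma gc_adj (hH : HAT) (h : WH N f c) (a d k : ℤ) :
    Gc (fun x => c x.adjugate) a d k = Gc c d a k := by
  refine Finset.sum_congr rfl fun b _ => ?_
  beta_reduce
  rw [← hH.par h, mul_comm a, adjugate_fin_two_of]
  congr 3
  ext i j
  fin_cases i <;> fin_cases j <;> simp

lemma symm (hH : HAT) (h : WH N f c) (m ν : ℕ) (hm : 0 < m) (hν : 0 < ν) :
    lam (fun x => c x.adjugate) m ν = lam c ν m := by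
  simp only [lam, gc_adj hH h, Int.natCast_dvd_natCast, Int.natCast_div, ← Finset.sum_filter]
  refine Finset.sum_congr ?_ fun _ _ => rfl
  ext k
  simp only [Finset.mem_filter, Nat.mem_divisors, ne_eq, hm.ne', hν.ne', not_false_eq_true,
    and_true]
  exact and_comm

end Hecke

theorem hecke (hA : QA) (hO : ORB) (hH : HAT) : HECKE where
  md {N} _ {f c} h m := by
    obtain ⟨s, hs, -⟩ := Hecke.qexp hO hH h m
    refine ⟨hA.hol (NeZero.pos N) hs, fun γ hγ τ => ?_, fun γ => ?_⟩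
    · simp only [Hecke.act hO hH h, Hecke.red_gam hγ, one_mul]
    · obtain ⟨s', hs', -⟩ := Hecke.qexp hO hH (hH.left h γ) m
      simp only [Hecke.act hO hH h]
      exact hA.expG (NeZero.pos N) hs'
  q h := Hecke.qexp hO hH h
  act h := Hecke.act hO hH h
  symm h := Hecke.symm hH h

end Pool.Agent.MP_9207e0_ag.hg

end MrgPart1

-- ======== part 2: formerly Pool.Agent.MP_9207e0_ag.hg.Den
section MrgPart2

/-! The common denominator. -/

set_option linter.unusedSectionVars false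
set_option linter.unusedVariables false

namespace Pool.Agent.MP_9207e0_ag.hg

open UpperHalfPlane Complex Filter Asymptotics Matrix
open scoped Real MatrixGroups Manifold Classical Kronecker

namespace DenA

lemma coeff_toMv (F : PowerSeries ℂ) (i : Fin 2) (s : Fin 2 →₀ ℕ) :
    MvPowerSeries.coeff s (F.toMvPowerSeries i : MM) =
      if s = Finsupp.single i (s i) then PowerSeries.coeff (s i) F else 0 := by
  split_ifs with h
  · have k := MvPowerSeries.coeff_embDomain_rename (R := ℂ) (Function.Embedding.punit i) F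
      (Finsupp.single () (s i))
    rw [Finsupp.embDomain_single] at k
    conv_lhs => rw [h]
    exact k
  · refine MvPowerSeries.coeff_rename_eq_zero _ F ?_
    rintro ⟨x, rfl⟩
    apply h
    rw [Finsupp.unique_single x, Finsupp.mapDomain_single, Finsupp.single_eq_same]

lemma coeff_toMv0 (F : PowerSeries ℂ) (s : Fin 2 →₀ ℕ) :
    MvPowerSeries.coeff s (F.toMvPowerSeries 0 : MM) =
      if s 1 = 0 then PowerSeries.coeff (s 0) F else 0 := by
  rw [coeff_toMv]
  refine if_congr ?_ rfl rfl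
  rw [Finsupp.ext_iff, Fin.forall_fin_two]
  simp

lemma coeff_toMv1 (F : PowerSeries ℂ) (s : Fin 2 →₀ ℕ) :
    MvPowerSeries.coeff s (F.toMvPowerSeries 1 : MM) =
      if s 0 = 0 then PowerSeries.coeff (s 1) F else 0 := by
  rw [coeff_toMv]
  refine if_congr ?_ rfl rfl
  rw [Finsupp.ext_iff, Fin.forall_fin_two]
  simp

lemma algM_toMv {F : PowerSeries ℂ} (h : ∀ n, IsAlgebraic ℚ (PowerSeries.coeff n F)) (i : Fin 2) :
    AlgM (F.toMvPowerSeries i) := fun s => by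
  rw [coeff_toMv]
  split_ifs
  · exact h _
  · exact isAlgebraic_zero

/-- The series `f (ω X ^ k)`. -/
noncomputable def sb (f : ℕ → ℂ) (k : ℕ) (ω : ℂ) : PowerSeries ℂ :=
  PowerSeries.mk fun n => if k ∣ n then ω ^ (n / k) * f (n / k) else 0

lemma coeff_X_pow_mul (i : Fin 2) (k : ℕ) (Q : MM) (s : Fin 2 →₀ ℕ) :
    MvPowerSeries.coeff s (MvPowerSeries.X i ^ k * Q) =
      if k ≤ s i then MvPowerSeries.coeff (s - Finsupp.single i k) Q else 0 := by
  rw [MvPowerSeries.X_pow_eq, MvPowerSeries.coeff_monomial_mul, one_mul]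
  exact if_congr Finsupp.single_le_iff rfl rfl

lemma sb_dvd (f : ℕ → ℂ) {h k : ℕ} (hh : 0 < h) (hk : 0 < k) (ω : ℂ) :
    ∃ Q : MM, (sb f h 1).toMvPowerSeries 1 - (sb f k ω).toMvPowerSeries 0 =
      (MvPowerSeries.X 1 ^ h - MvPowerSeries.C ω * MvPowerSeries.X 0 ^ k) * Q := by
  let q : ℕ → ℕ → ℂ := fun i j =>
    if k ∣ i ∧ h ∣ j then ω ^ (i / k) * f (i / k + j / h + 1) else 0
  refine ⟨fun s => q (s 0) (s 1), ?_⟩
  ext s
  have e : ∀ t : Fin 2 →₀ ℕ, MvPowerSeries.coeff t (fun s => q (s 0) (s 1) : MM) = q (t 0) (t 1) :=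
    fun _ => rfl
  rw [sub_mul, mul_assoc, map_sub, map_sub, MvPowerSeries.coeff_C_mul, coeff_X_pow_mul,
    coeff_X_pow_mul, coeff_toMv0, coeff_toMv1, e, e]
  simp only [sb, PowerSeries.coeff_mk, Finsupp.tsub_apply, Finsupp.single_eq_same, one_pow,
    one_mul]
  rw [Finsupp.single_eq_of_ne (by decide), Finsupp.single_eq_of_ne (by decide), tsub_zero,
    tsub_zero]
  generalize s 0 = i
  generalize s 1 = j
  by_cases h1 : k ∣ i
  · by_cases h2 : h ∣ j
    · obtain ⟨a, rfl⟩ := h1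
      obtain ⟨b, rfl⟩ := h2
      have e1 : ∀ a b, q (k * a) (h * b) = ω ^ a * f (a + b + 1) := fun a b => by
        simp only [q, dvd_mul_right, and_self, if_true, Nat.mul_div_cancel_left _ hk,
          Nat.mul_div_cancel_left _ hh]
      simp only [dvd_mul_right, if_true, Nat.mul_div_cancel_left _ hk,
        Nat.mul_div_cancel_left _ hh]
      rcases a with _ | a <;> rcases b with _ | b
      · simp [hh.ne', hk.ne']
      · have := e1 0 b
        simp only [mul_zero] at this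
        simp [hh.ne', hk.ne', mul_add, this]
      · have := e1 a 0
        simp only [mul_zero] at this
        simp only [mul_add, mul_one, Nat.add_sub_cancel, mul_zero, this, le_add_iff_nonneg_left,
          zero_le, if_true, nonpos_iff_eq_zero, hh.ne', if_false, Nat.add_eq_zero_iff, hk.ne',
          and_false]
        ring_nf
      · have e2 := e1 (a + 1) b
        have e3 := e1 a (b + 1)
        simp only [mul_add, mul_one] at e2 e3
        simp only [mul_add, mul_one, Nat.add_sub_cancel, e2, e3, le_add_iff_nonneg_left,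
          zero_le, if_true, hh.ne', if_false, Nat.add_eq_zero_iff, hk.ne', and_false]
        ring_nf
    · have j0 : j ≠ 0 := fun e => h2 (e ▸ dvd_zero h)
      have h3 : h ≤ j → ¬ h ∣ j - h := fun l d => h2 ((Nat.dvd_sub_iff_left l dvd_rfl).1 d)
      by_cases l : h ≤ j
      · simp [q, h2, j0, h3 l]
      · simp [q, h2, j0, l]
  · have i0 : i ≠ 0 := fun e => h1 (e ▸ dvd_zero k)
    have h3 : k ≤ i → ¬ k ∣ i - k := fun l d => h1 ((Nat.dvd_sub_iff_left l dvd_rfl).1 d)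
    by_cases l : k ≤ i
    · simp [q, h1, i0, h3 l]
    · simp [q, h1, i0, l]

lemma sub_eq {c c' : LS} {k : ℕ} (hk : 0 < k) {ω : ℂ} (hω : ω ≠ 0)
    (h0 : ∀ n < -1, c.coeff n = 0) (h : IsSub k ω c c') :
    c' = HahnSeries.single (-(k : ℤ)) 1 * HahnSeries.ofPowerSeries ℤ ℂ
      (PowerSeries.C ω⁻¹ * sb (fun n => c.coeff (n - 1)) k ω) := by
  ext m
  rw [HahnSeries.coeff_single_mul, one_mul, sub_neg_eq_add, PowerSeries.coeff_coe]
  have k0 : (0 : ℤ) < k := by exact_mod_cast hk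
  by_cases d : (k : ℤ) ∣ m
  · obtain ⟨n, rfl⟩ := d
    rw [h.1]
    split_ifs with l
    · rw [h0 n (by nlinarith), mul_zero]
    · obtain ⟨p, hp⟩ := Int.eq_ofNat_of_zero_le (show 0 ≤ n + 1 by nlinarith)
      have e : ((k : ℤ) * n + k).natAbs = k * p := by
        rw [← mul_add_one, hp, ← Nat.cast_mul, Int.natAbs_natCast]
      rw [e, PowerSeries.coeff_C_mul, sb, PowerSeries.coeff_mk, if_pos (dvd_mul_right _ _),
        Nat.mul_div_cancel_left _ hk, show n = (p : ℤ) - 1 by omega, zpow_sub_one₀ hω,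
        zpow_natCast]
      ring
  · rw [h.2 m d]
    split_ifs with l
    · rfl
    · rw [PowerSeries.coeff_C_mul, sb, PowerSeries.coeff_mk, if_neg, mul_zero]
      intro d'
      exact d ((dvd_add_left dvd_rfl).1 (Int.natCast_dvd.2 d'))

lemma ee_pow (z : ℂ) (n : ℕ) : ee z ^ n = ee (n * z) := by
  rw [ee, ee, ← Complex.exp_nat_mul]
  congr 1
  ring

lemma ee_alg (l : ℕ) {d : ℕ} (hd : 0 < d) : IsAlgebraic ℚ (ee (l / d)) := by
  refine IsAlgebraic.of_pow hd ?_
  have : (d : ℂ) ≠ 0 := by exact_mod_cast hd.ne'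
  rw [ee_pow, mul_div_cancel₀ _ this, ee, mul_comm, Complex.exp_nat_mul_two_pi_mul_I]
  exact isAlgebraic_one

lemma prod_root {n : ℕ} (hn : 0 < n) (x y : MM) :
    ∏ b ∈ Finset.range n, (x - MvPowerSeries.C (ee (b / n)) * y) = x ^ n - y ^ n := by
  have p : IsPrimitiveRoot (MvPowerSeries.C (ee (1 / n)) : MM) n := by
    have := Complex.isPrimitiveRoot_exp n hn.ne'
    rw [show 2 * π * Complex.I / n = 2 * π * Complex.I * (1 / n) by ring] at this
    exact this.map_of_injective MvPowerSeries.C_injective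
  have : IsDomain MM := NoZeroDivisors.to_isDomain _
  have k := congrArg (Polynomial.eval x) (X_pow_sub_C_eq_prod p (α := y) hn rfl)
  simp only [Polynomial.eval_sub, Polynomial.eval_pow, Polynomial.eval_X, Polynomial.eval_C,
    Polynomial.eval_prod] at k
  rw [k]
  refine Finset.prod_congr rfl fun b _ => ?_
  rw [← map_pow, ee_pow, mul_one_div]

lemma sb_alg {f : ℕ → ℂ} (hf : ∀ n, IsAlgebraic ℚ (f n)) (k : ℕ) {ω : ℂ}
    (hω : IsAlgebraic ℚ ω) (n : ℕ) :
    IsAlgebraic ℚ (PowerSeries.coeff n (PowerSeries.C ω⁻¹ * sb f k ω)) := by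
  rw [PowerSeries.coeff_C_mul, sb, PowerSeries.coeff_mk]
  split_ifs
  · exact hω.inv.mul ((hω.pow _).mul (hf _))
  · rw [mul_zero]
    exact isAlgebraic_zero

lemma X_pow_alg (k n : ℕ) :
    IsAlgebraic ℚ (PowerSeries.coeff n (PowerSeries.X ^ k : PowerSeries ℂ)) := by
  rw [PowerSeries.coeff_X_pow]
  split_ifs
  · exact isAlgebraic_one
  · exact isAlgebraic_zero

/-- Functions with an algebraic expansion that is a multiple of `e`. -/
def Gd (h : ℕ) (P : ℍ → ℍ → ℂ) (e : MM) : Prop :=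
  ∃ (α β : ℤ) (D' C' : MM), Exp2 h P α β D' ∧ AlgM D' ∧ D' = C' * e

lemma gd_prod (hF : FORM) (hE : E2A) {h : ℕ} (hh : 0 < h) {ι : Type} (s : Finset ι)
    (P : ι → ℍ → ℍ → ℂ) (e : ι → MM) (H : ∀ i ∈ s, Gd h (P i) (e i)) :
    Gd h (∏ i ∈ s, P i) (∏ i ∈ s, e i) := by
  obtain ⟨K, hK⟩ := hF.algM
  choose! α β D C h1 h2 h3 using H
  refine ⟨_, _, _, ∏ i ∈ s, C i, hE.prod s P α β D hh h1,
    (hK _).1 (K.prod_mem fun i hi => (hK _).2 (h2 i hi)), ?_⟩
  rw [← Finset.prod_mul_distrib]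
  exact Finset.prod_congr rfl h3

lemma gd_pow (hF : FORM) (hE : E2A) {h : ℕ} (hh : 0 < h) {P : ℍ → ℍ → ℂ} {e : MM}
    (H : Gd h P e) (K : ℕ) : Gd h (P ^ K) (e ^ K) := by
  simpa only [Finset.prod_const, Finset.card_range] using
    gd_prod hF hE hh (Finset.range K) (fun _ => P) (fun _ => e) fun _ _ => H

lemma isQ_one (hA : QA) (h k : ℕ) : IsQ h (1 : ℍ → ℂ) (HahnSeries.single (-(k : ℤ)) 1 *
    HahnSeries.ofPowerSeries ℤ ℂ (PowerSeries.X ^ k)) := by
  rw [HahnSeries.ofPowerSeries_X_pow, HahnSeries.single_mul_single, neg_add_cancel, mul_one]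
  exact hA.const h 1

lemma gd_one (hA : QA) (hB : QB) (hF : FORM) {h k a d : ℕ} (l : ℕ) (hh : 0 < h) (ha : 0 < a)
    (hd : 0 < d) (hk : a * h = k * d) (hm : a * d ∣ h) :
    Gd h (fun t s => jf s - jf (mob !![(a : ℤ), (l : ℤ); 0, (d : ℤ)] t))
      (MvPowerSeries.X 1 ^ h - MvPowerSeries.C (ee (l / d)) * MvPowerSeries.X 0 ^ k) := by
  obtain ⟨K, hK⟩ := hF.algM
  obtain ⟨c, c1, c2, -, c3⟩ := hB.j_q
  have k0 : 0 < k := Nat.pos_of_mul_pos_right (hk ▸ Nat.mul_pos ha hh)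
  set ω := ee (l / d) with hω
  have ω0 : ω ≠ 0 := Complex.exp_ne_zero _
  set f : ℕ → ℂ := fun n => c.coeff (n - 1) with hf
  have fa : ∀ n, IsAlgebraic ℚ (f n) := fun n => by
    obtain ⟨q, hq⟩ := c2 ((n : ℤ) - 1)
    simp only [hf, hq]
    exact isAlgebraic_ratCast ℚ q
  obtain ⟨c', s1⟩ := hA.exists_sub h 1 c hh
  obtain ⟨c'', s2⟩ := hA.exists_sub k ω c k0
  have q1 : IsQ h jf c' := by simpa using (hA.level one_pos hh s1).2 c1
  have q2 : IsQ h (fun t => jf (mob !![(a : ℤ), (l : ℤ); 0, (d : ℤ)] t)) c'' :=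
    hA.comp (k := k) one_pos hh (by exact_mod_cast ha) (by exact_mod_cast hd)
      (by rw [Nat.cast_one, one_mul]; exact_mod_cast hk) c1 (by simpa using s2)
  rw [sub_eq hh one_ne_zero c3 s1] at q1
  rw [sub_eq k0 ω0 c3 s2] at q2
  have m1 : jf ∈ Mod h := hB.mod_level (one_dvd h) hB.j_mod
  have dt : (!![(a : ℤ), (l : ℤ); 0, (d : ℤ)] : M2).det = (a * d : ℕ) := by
    simp [Matrix.det_fin_two]
  have m2 : (fun t => jf (mob !![(a : ℤ), (l : ℤ); 0, (d : ℤ)] t)) ∈ Mod h := by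
    refine hB.mod_level ?_ (hB.mod_mob (by rw [dt]; exact_mod_cast Nat.mul_pos ha hd) hB.j_mod)
    rwa [dt, Int.toNat_natCast, one_mul]
  obtain ⟨Q, hQ⟩ := sb_dvd f hh k0 ω
  refine ⟨k, h, (PowerSeries.X ^ k : PowerSeries ℂ).toMvPowerSeries 0 *
      (PowerSeries.C 1⁻¹ * sb f h 1).toMvPowerSeries 1 +
      (-(PowerSeries.C ω⁻¹ * sb f k ω)).toMvPowerSeries 0 *
      (PowerSeries.X ^ h : PowerSeries ℂ).toMvPowerSeries 1,
    MvPowerSeries.X 0 ^ k * Q - MvPowerSeries.C ω⁻¹ * (sb f k ω).toMvPowerSeries 0, ?_, ?_, ?_⟩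
  · refine ⟨2, ![1, -fun t => jf (mob !![(a : ℤ), (l : ℤ); 0, (d : ℤ)] t)], ![jf, 1],
      ![PowerSeries.X ^ k, -(PowerSeries.C ω⁻¹ * sb f k ω)],
      ![PowerSeries.C 1⁻¹ * sb f h 1, PowerSeries.X ^ h], ?_, ?_, ?_⟩
    · rw [Fin.forall_fin_two]
      refine ⟨⟨one_mem _, m1, isQ_one hA h k, q1⟩, neg_mem m2, one_mem _, ?_, isQ_one hA h h⟩
      have e : HahnSeries.single (-(k : ℤ)) (1 : ℂ) * HahnSeries.ofPowerSeries ℤ ℂ
          (-(PowerSeries.C ω⁻¹ * sb f k ω)) = -(HahnSeries.single (-(k : ℤ)) 1 *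
          HahnSeries.ofPowerSeries ℤ ℂ (PowerSeries.C ω⁻¹ * sb f k ω)) := by
        rw [map_neg]
        ring
      exact e ▸ hA.neg q2
    · funext t s
      simp [Fin.sum_univ_two, sub_eq_add_neg]
    · simp only [Fin.sum_univ_two, Matrix.cons_val_zero, Matrix.cons_val_one]
  · rw [map_neg]
    exact (hK _).1 (K.add_mem
      (K.mul_mem ((hK _).2 (algM_toMv (X_pow_alg k) 0))
        ((hK _).2 (algM_toMv (sb_alg fa h isAlgebraic_one) 1)))
      (K.mul_mem (K.neg_mem ((hK _).2 (algM_toMv (sb_alg fa k (ee_alg l hd)) 0)))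
        ((hK _).2 (algM_toMv (X_pow_alg h) 1))))
  · have e : (MvPowerSeries.C ω⁻¹ : MM) * MvPowerSeries.C ω = 1 := by
      rw [← map_mul, inv_mul_cancel₀ ω0, map_one]
    simp only [map_neg, map_mul, map_pow, PowerSeries.toMvPowerSeries_X,
      PowerSeries.toMvPowerSeries_C, inv_one, map_one, one_mul]
    linear_combination (MvPowerSeries.X 0 ^ k) * hQ -
      (MvPowerSeries.X 0 ^ k * (sb f k ω).toMvPowerSeries 0) * e

lemma prod_Ix (N M : ℕ) (g : ℕ × ℕ × ℕ → MM) :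
    ∏ m ∈ Finset.Icc 1 M, ∏ p ∈ m.divisorsAntidiagonal, ∏ b ∈ Finset.range N, g (p.1, b, p.2) =
      ∏ i ∈ Ix N M, g i := by
  rw [← Finset.prod_fiberwise_of_maps_to (s := Ix N M) (t := Finset.Icc 1 M)
    (g := fun i => i.1 * i.2.2)]
  · refine Finset.prod_congr rfl fun m hm => ?_
    rw [Finset.mem_Icc] at hm
    rw [← Finset.prod_product']
    refine Finset.prod_nbij' (fun x => (x.1.1, x.2, x.1.2)) (fun i => ((i.1, i.2.2), i.2.1))
      ?_ ?_ (fun _ _ => rfl) (fun _ _ => rfl) fun _ _ => rfl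
    · rintro ⟨⟨a, d⟩, b⟩ hx
      simp only [Finset.mem_product, Nat.mem_divisorsAntidiagonal, Finset.mem_range] at hx
      obtain ⟨⟨rfl, h0⟩, hb⟩ := hx
      have a0 : 0 < a := Nat.pos_of_ne_zero (left_ne_zero_of_mul h0)
      have d0 : 0 < d := Nat.pos_of_ne_zero (right_ne_zero_of_mul h0)
      simp only [Ix, Finset.mem_filter, Finset.mem_product, Finset.mem_Icc, Finset.mem_range]
      exact ⟨⟨⟨⟨a0, (Nat.le_mul_of_pos_right a d0).trans hm.2⟩, hb, d0,
        (Nat.le_mul_of_pos_left d a0).trans hm.2⟩, hm.2⟩, trivial⟩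
    · rintro ⟨a, b, d⟩ hx
      simp only [Ix, Finset.mem_filter, Finset.mem_product, Finset.mem_Icc, Finset.mem_range] at hx
      simp only [Finset.mem_product, Nat.mem_divisorsAntidiagonal, Finset.mem_range]
      exact ⟨⟨hx.2, by omega⟩, hx.1.1.2.1⟩
  · rintro ⟨a, b, d⟩ hx
    simp only [Ix, Finset.mem_filter, Finset.mem_product, Finset.mem_Icc, Finset.mem_range] at hx
    exact Finset.mem_Icc.2 ⟨Nat.mul_pos hx.1.1.1 hx.1.2.2.1, hx.2⟩

end DenA

open DenA in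
theorem den (hA : QA) (hB : QB) (hJ : JA) (hO : ORB) (hF : FORM) (hE : E2A) : DEN where
  inv1 M K γ t s := by
    refine Finset.prod_congr rfl fun m hm => ?_
    have m0 : (0 : ℤ) < m := by exact_mod_cast (Finset.mem_Icc.1 hm).1
    rw [← hO.herm_prod m (fun A => (jf s - jf (mob A t)) ^ K) γ fun g A hd => by
      rw [mob_mul (det_SL_pos g) (hd ▸ m0), mob_SL, hB.j_inv]]
    refine Finset.prod_congr rfl fun A h => ?_
    obtain ⟨h1, -, -, -, h2⟩ := (hO.mem_herm m A).1 h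
    rw [mob_mul (by rw [Matrix.det_fin_two, h1, mul_zero, sub_zero, h2]; exact m0)
      (det_SL_pos γ), mob_SL]
  inv2 M K γ t s := by simp only [Den, hB.j_inv]
  ne M K h := by
    obtain ⟨z, hz⟩ := Infinite.exists_notMem_finset
      (((Finset.Icc 1 M).biUnion Herm).image fun A => jf (mob A UpperHalfPlane.I))
    obtain ⟨s, rfl⟩ := hJ.surj z
    refine Finset.prod_ne_zero_iff.2 (fun m hm => Finset.prod_ne_zero_iff.2 fun A h =>
      pow_ne_zero K (sub_ne_zero.2 fun e => hz ?_)) (congrFun (congrFun h UpperHalfPlane.I) s)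
    exact Finset.mem_image.2 ⟨A, Finset.mem_biUnion.2 ⟨m, hm, h⟩, e.symm⟩
  exp N L M K hN hL hd := by
    have hh : 0 < N * L := Nat.mul_pos hN hL
    have e : Den M K = ∏ m ∈ Finset.Icc 1 M, ∏ p ∈ m.divisorsAntidiagonal,
        ∏ l ∈ Finset.range p.2,
          (fun t s => jf s - jf (mob !![(p.1 : ℤ), (l : ℤ); 0, (p.2 : ℤ)] t)) ^ K := by
      funext t s
      simp only [Den, hO.prod_herm, Finset.prod_apply, Pi.pow_apply]
    change Gd (N * L) (Den M K) _
    rw [e, ← prod_Ix]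
    refine gd_prod hF hE hh _ _ _ fun m hm => gd_prod hF hE hh _ _ _ ?_
    rintro ⟨a, d⟩ hp
    rw [Finset.mem_Icc] at hm
    obtain ⟨rfl, h0⟩ : a * d = m ∧ m ≠ 0 := Nat.mem_divisorsAntidiagonal.1 hp
    have a0 : 0 < a := Nat.pos_of_ne_zero (left_ne_zero_of_mul h0)
    have d0 : 0 < d := Nat.pos_of_ne_zero (right_ne_zero_of_mul h0)
    obtain ⟨r, hr⟩ := hd d d0 ((Nat.le_mul_of_pos_left d a0).trans hm.2)
    have k := gd_prod hF hE hh (Finset.range d) _ _ fun l _ =>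
      gd_pow hF hE hh (gd_one hA hB hF (k := a * N * r) l hh a0 d0 (by rw [hr]; ring)
        ((hd _ hm.1 hm.2).mul_left N)) K
    have e2 : ∏ l ∈ Finset.range d, ((MvPowerSeries.X 1 : MM) ^ (N * L) -
        MvPowerSeries.C (ee (l / d)) * MvPowerSeries.X 0 ^ (a * N * r)) ^ K =
        ∏ b ∈ Finset.range N, ell N L (a, b, d) ^ K := by
      simp only [ell]
      rw [Finset.prod_pow, Finset.prod_pow, prod_root d0, prod_root hN, ← pow_mul, ← pow_mul,
        ← pow_mul, ← pow_mul, show N * L * d = L * d * N by ring,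
        show a * N * r * d = L * a * N by rw [hr]; ring]
    rwa [e2] at k

end Pool.Agent.MP_9207e0_ag.hg

end MrgPart2

-- ======== part 3: formerly Pool.Agent.MP_9207e0_ag.hg.Denu
section MrgPart3

/-! Module DENU: the order of the leading coefficient of the denominator. -/

set_option linter.unusedSectionVars false
set_option linter.unusedVariables false

namespace Pool.Agent.MP_9207e0_ag.hg

open UpperHalfPlane Complex Filter Asymptotics Matrix
open scoped Real MatrixGroups Manifold Classical Kronecker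

namespace Denu

/-- One factor of the denominator. -/
noncomputable def Pf (A : M2) (t s : ℍ) : ℂ := jf s - jf (mob A t)

/-- The inequality for one function. -/
def Good (N : ℕ) (t : ℍ) (X : Finset M2) (P : ℍ → ℍ → ℂ) : Prop :=
  Ten N P ∧ P ≠ 0 ∧ ordE (lead P) t ≤ ∑ x ∈ X, ordC x P

lemma ordE_zero (τ : ℍ) : ordE 0 τ = ⊤ := by
  rw [ordE, analyticOrderAt_eq_top]
  exact Eventually.of_forall fun _ => rfl

lemma ordE_of_ne {a : ℍ → ℂ} {τ : ℍ} (h : a τ ≠ 0) : ordE a τ = 0 := by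
  rw [ordE, analyticOrderAt_eq_zero]
  exact Or.inr (by simpa using h)

lemma lead_of_ne {P : ℍ → ℍ → ℂ} {τ : ℍ} (h : P τ τ ≠ 0) : lead P = fun t => P t t := by
  have e : ordC 1 P = 0 := nonpos_iff_eq_zero.mp
    ((iInf_le _ τ).trans (by rw [mob_one, ordE_of_ne h]))
  ext t
  rw [lead, e]
  rfl

lemma good_one (N : ℕ) (t : ℍ) (X : Finset M2) : Good N t X 1 := by
  refine ⟨⟨1, fun _ => 1, fun _ => 1, fun _ => ⟨one_mem _, one_mem _⟩, ?_⟩, one_ne_zero, ?_⟩
  · ext a b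
    simp
  · rw [lead_of_ne (τ := t) one_ne_zero, ordE_of_ne one_ne_zero]
    exact bot_le

lemma Good.mul (hL : LEAD) {N : ℕ} {t : ℍ} {X : Finset M2} (hX : ∀ x ∈ X, 0 < x.det)
    {P Q : ℍ → ℍ → ℂ} (h : Good N t X P) (h' : Good N t X Q) : Good N t X (P * Q) := by
  refine ⟨hL.ten_mul h.1 h'.1, fun e => ?_, ?_⟩
  · have k := hL.ordC_mul 1 (by simp) h.1 h'.1
    have k2 : ordC 1 (P * Q) = ⊤ := by
      rw [e, ordC, iInf_eq_top]
      exact fun τ => ordE_zero _
    rw [k2] at k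
    exact WithTop.add_ne_top.mpr ⟨hL.ne_top 1 (by simp) h.1 h.2.1,
      hL.ne_top 1 (by simp) h'.1 h'.2.1⟩ k.symm
  · rw [hL.ord_mul t h.1 h'.1 h.2.1 h'.2.1,
      Finset.sum_congr rfl fun x hx => hL.ordC_mul x (hX x hx) h.1 h'.1, Finset.sum_add_distrib]
    exact add_le_add h.2.2 h'.2.2

lemma Pf_SL (hB : QB) (γ : SL2) {A : M2} (h : 0 < A.det) : Pf (γ * A) = Pf A := by
  ext t s
  rw [Pf, Pf, mob_mul (det_SL_pos γ) h, mob_SL, hB.j_inv]

lemma Pf_smul {A : M2} (h : 0 < A.det) {k : ℤ} (hk : k ≠ 0) : Pf (k • A) = Pf A := by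
  ext t s
  rw [Pf, Pf, mob_smul h hk]

lemma Pf_ne (hJ : JA) (A : M2) : Pf A ≠ 0 := fun e => by
  obtain ⟨a, ha⟩ := hJ.surj 0
  obtain ⟨b, hb⟩ := hJ.surj 1
  have h1 : jf a - jf (mob A a) = 0 := congrFun (congrFun e a) a
  have h2 : jf b - jf (mob A a) = 0 := congrFun (congrFun e a) b
  rw [ha] at h1
  rw [hb] at h2
  exact one_ne_zero (α := ℂ) (by linear_combination h2 - h1)

lemma Pf_ten (hB : QB) {N : ℕ} {A : M2} (h : 0 < A.det) (hd : A.det.toNat ∣ N) : Ten N (Pf A) := by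
  refine ⟨2, ![1, -fun τ => jf (mob A τ)], ![jf, 1], fun i => ?_, ?_⟩
  · fin_cases i
    · exact ⟨one_mem _, hB.mod_level (one_dvd N) hB.j_mod⟩
    · exact ⟨neg_mem (hB.mod_level (by rwa [one_mul]) (hB.mod_mob h hB.j_mod)), one_mem _⟩
  · ext t s
    simp [Pf, sub_eq_add_neg]

lemma ord_dd (hB : QB) (τ : ℍ) : ordE (dd jf) τ + 1 = ordE (fun σ => jf σ - jf τ) τ := by
  have a := hol_iff.mp hB.j_mod.1 τ
  have e : dd jf ∘ ofComplex =ᶠ[nhds (τ : ℂ)]
      (fun _ => (2 * π * Complex.I : ℂ)⁻¹) * deriv (jf ∘ ofComplex) := by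
    filter_upwards [isOpen_upperHalfPlaneSet.mem_nhds τ.im_pos] with z hz
    rw [Function.comp_apply, ofComplex_apply_of_im_pos hz]
    rfl
  have c : analyticOrderAt (fun _ : ℂ => (2 * π * Complex.I : ℂ)⁻¹) τ = 0 :=
    analyticOrderAt_eq_zero.mpr (Or.inr (inv_ne_zero two_pi_I_ne_zero))
  rw [ordE, analyticOrderAt_congr e, analyticOrderAt_mul analyticAt_const a.deriv, c, zero_add,
    a.analyticOrderAt_deriv_add_one, ordE]
  simp only [Function.comp_apply, ofComplex_apply]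
  rfl

lemma w_ne_top (hI : JB) (τ : ℍ) : ordE (fun σ => jf σ - jf τ) τ ≠ ⊤ := fun e => by
  have := hI.ord_j τ
  rw [e] at this
  exact ENat.natCast_ne_top _ (this.symm.trans (by simp))

lemma lead_one (hB : QB) (hI : JB) : lead (Pf 1) = dd jf := by
  have e0 : ∀ τ, ordE (Pf 1 τ) (mob 1 τ) = ordE (dd jf) τ + 1 := fun τ => by
    rw [ord_dd hB, mob_one]
    unfold Pf
    rw [mob_one]
  obtain ⟨τ, hτ⟩ : ∃ τ, dd jf τ ≠ 0 := by
    by_contra hn
    have : dd jf = 0 := funext fun τ => not_not.mp fun h => hn ⟨τ, h⟩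
    refine w_ne_top hI UpperHalfPlane.I ?_
    rw [← ord_dd hB, this, ordE_zero, top_add]
  have e : ordC 1 (Pf 1) = 1 := le_antisymm
    ((iInf_le _ τ).trans (by rw [e0, ordE_of_ne hτ, zero_add]))
    (le_iInf fun σ => by
      rw [e0]
      exact le_add_self)
  ext t
  rw [lead, e]
  exact congrArg _ (deriv_sub_const (f := jf ∘ ofComplex) _)

lemma scalar {y : M2} {t : ℍ} (h : 0 < y.det) (hf : mob y t = t) (h0 : y 1 0 = 0) :
    y = y 0 0 • (1 : M2) := by
  rw [mob_fix_iff h, h0] at hf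
  have h1 := congrArg Complex.im hf
  have h2 := congrArg Complex.re hf
  simp only [Int.cast_zero, zero_mul, zero_add, sub_im, mul_im, sub_re, intCast_re, intCast_im,
    coe_im, coe_re, sub_self, add_zero, sub_zero, zero_im, mul_re, zero_re] at h1 h2
  have h3 : (y 1 1 : ℝ) - y 0 0 = 0 := (mul_eq_zero.mp h1).resolve_right t.im_pos.ne'
  rw [h3, zero_mul, zero_sub, neg_eq_zero] at h2
  have h4 : y 1 1 = y 0 0 := by exact_mod_cast sub_eq_zero.mp h3
  have h5 : y 0 1 = 0 := by exact_mod_cast h2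
  ext i k
  fin_cases i <;> fin_cases k <;> simp [h0, h4, h5]

lemma count (hB : QB) (hI : JB) (hO : ORB) {M : ℕ} {t : ℍ} {X : Finset M2}
    (hX : ∀ x, x ∈ X ↔ x ∈ PFix t M) {x : M2} (h : 0 < x.det) (hM : x.det ≤ M) (hp : Prim x)
    (hf : mob x t = t) (T0 : Finset SL2)
    (h0 : ∀ (σ : SL2) (k : ℤ), σ * x = k • (1 : M2) → σ ∈ T0) :
    ∃ n w : ℕ, ordE (fun σ => jf σ - jf t) t = w ∧ 2 * w ≤ 2 * n + T0.card ∧
      (n : ℕ∞) ≤ ∑ y ∈ X, ordC y (Pf x) := by
  have := hI.stab_fin t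
  obtain ⟨T, hT⟩ := (Set.toFinite (MulAction.stabilizer SL2 t : Set SL2)).exists_finset
  have hc : Nat.card (MulAction.stabilizer SL2 t) = T.card := Nat.subtype_card T hT
  obtain ⟨w, hw⟩ := ENat.ne_top_iff_exists.mp (w_ne_top hI t)
  have k1 := hI.ord_j t
  rw [← hw, hc] at k1
  have k2 : 2 * w = T.card := by exact_mod_cast k1
  have hd : ∀ σ : SL2, (σ * x : M2).det = x.det := fun σ => by
    rw [Matrix.det_mul, det_SL, one_mul]
  have hs : ∀ σ ∈ T, mob (σ * x) t = t := fun σ hσ => by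
    rw [mob_mul (det_SL_pos σ) h, hf, mob_SL]
    exact (hT σ).mp hσ
  refine ⟨(T.filter fun σ : SL2 => 0 < (σ * x : M2) 1 0).card, w, hw.symm, ?_, ?_⟩
  · have k3 : T ⊆ (T.filter fun σ : SL2 => 0 < (σ * x : M2) 1 0) ∪
        (T.filter fun σ : SL2 => 0 < (σ * x : M2) 1 0).image (fun σ => -σ) ∪ T0 := fun σ hσ => by
      simp only [Finset.mem_union, Finset.mem_image, Finset.mem_filter]
      rcases lt_trichotomy 0 ((σ * x : M2) 1 0) with h1 | h1 | h1
      · exact Or.inl (Or.inl ⟨hσ, h1⟩)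
      · exact Or.inr (h0 σ _ (scalar ((hd σ).symm ▸ h) (hs σ hσ) h1.symm))
      · refine Or.inl (Or.inr ⟨-σ, ⟨(hT _).mpr ?_, ?_⟩, neg_neg σ⟩)
        · exact (ModularGroup.SL_neg_smul σ t).trans ((hT σ).mp hσ)
        · rw [Matrix.SpecialLinearGroup.coe_neg, neg_mul, Matrix.neg_apply]
          exact neg_pos.mpr h1
    have k4 := (Finset.card_le_card k3).trans ((Finset.card_union_le _ _).trans
      (Nat.add_le_add_right ((Finset.card_union_le _ _).trans
        (Nat.add_le_add_left Finset.card_image_le _)) _))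
    omega
  · have inj : Function.Injective fun σ : SL2 => (σ * x : M2) := fun σ σ' e => by
      have e2 : (σ : M2) * (x * x.adjugate) = σ' * (x * x.adjugate) := by
        rw [← mul_assoc, ← mul_assoc]
        exact congrArg (· * x.adjugate) e
      rw [Matrix.mul_adjugate, Matrix.mul_smul, Matrix.mul_smul, mul_one, mul_one] at e2
      exact Subtype.ext (smul_right_injective _ h.ne' e2)
    rw [← Finset.card_image_of_injective _ inj]
    refine le_trans ?_ (Finset.sum_le_sum_of_subset (s := (T.filter fun σ : SL2 =>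
      0 < (σ * x : M2) 1 0).image fun σ : SL2 => (σ * x : M2)) fun y hy => ?_)
    · rw [Finset.card_eq_sum_ones, Nat.cast_sum]
      refine Finset.sum_le_sum fun y hy => le_iInf fun τ => ?_
      obtain ⟨σ, _, rfl⟩ := Finset.mem_image.mp hy
      rw [Nat.cast_one, Order.one_le_iff_ne_zero]
      refine fun e => (ordE_eq_zero (hB.j_mod.1.sub mdifferentiable_const) _).mp e ?_
      change Pf x τ (mob (σ * x) τ) = 0
      rw [← Pf_SL hB σ h]
      exact sub_self _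
    · obtain ⟨σ, hσ, rfl⟩ := Finset.mem_image.mp hy
      obtain ⟨h1, h2⟩ := Finset.mem_filter.mp hσ
      refine (hX _).mpr ⟨⟨h2.ne', (mob_fix_iff ((hd σ).symm ▸ h) t).mp (hs σ h1)⟩, ?_, h2,
        (hd σ).symm ▸ hM⟩
      simpa using hO.prim_mul x σ 1 hp

lemma prim_one : Prim (1 : M2) := fun d hd => isUnit_of_dvd_one (by simpa using hd 0 0)

lemma le_prim (hB : QB) (hI : JB) (hO : ORB) {M : ℕ} {t : ℍ} {X : Finset M2}
    (hX : ∀ x, x ∈ X ↔ x ∈ PFix t M) {A : M2} (h : 0 < A.det) (hM : A.det ≤ M) (hp : Prim A) :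
    ordE (lead (Pf A)) t ≤ ∑ y ∈ X, ordC y (Pf A) := by
  by_cases hs : ∃ (γ : SL2) (k : ℤ), A = k • (γ : M2)
  · obtain ⟨γ, k, rfl⟩ := hs
    have hk : k ≠ 0 := by
      rintro rfl
      simp at h
    obtain ⟨n, w, e1, e2, e3⟩ := count hB hI hO hX (x := 1) (by simp)
      (by rw [Matrix.det_one]; omega) prim_one (mob_one t) {1, -1} fun σ k e => by
        have e4 := det_SL σ
        rw [mul_one] at e
        rw [e, Matrix.det_smul, Matrix.det_one, mul_one, Fintype.card_fin] at e4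
        rw [Finset.mem_insert, Finset.mem_singleton]
        rcases sq_eq_one_iff.mp e4 with rfl | rfl
        · exact Or.inl (Subtype.ext (by simpa using e))
        · exact Or.inr (Subtype.ext (by simpa using e))
    have e5 : Pf (k • (γ : M2)) = Pf 1 := by
      rw [Pf_smul (det_SL_pos γ) hk, ← Pf_SL hB γ (A := 1) (by simp), mul_one]
    have e6 : ({1, -1} : Finset SL2).card ≤ 2 := Finset.card_le_two
    have e7 := ord_dd hB t
    rw [e5, lead_one hB hI]
    refine le_trans ?_ e3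
    rw [e1] at e7
    refine (ENat.add_le_add_iff_right ENat.one_ne_top).mp (e7.le.trans ?_)
    exact_mod_cast (by omega : w ≤ n + 1)
  · by_cases h0 : Pf A t t = 0
    · obtain ⟨γ, hγ⟩ := hI.inj _ _ (sub_eq_zero.mp h0).symm
      have hd : (γ * A : M2).det = A.det := by rw [Matrix.det_mul, det_SL, one_mul]
      have hf : mob (γ * A) t = t := by rw [mob_mul (det_SL_pos γ) h, mob_SL, hγ]
      have hn : ∀ (σ : SL2) (k : ℤ), (γ * A : M2) ≠ k • (σ : M2) := fun σ k e =>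
        hs ⟨γ⁻¹ * σ, k, by
          rw [Matrix.SpecialLinearGroup.coe_mul, ← Matrix.mul_smul, ← e, ← mul_assoc,
            ← Matrix.SpecialLinearGroup.coe_mul, inv_mul_cancel, Matrix.SpecialLinearGroup.coe_one,
            one_mul]⟩
      obtain ⟨n, w, e1, e2, e3⟩ := count hB hI hO hX (hd ▸ h) (hd ▸ hM)
        (by simpa using hO.prim_mul A γ 1 hp) hf ∅ fun σ k e => (hn σ⁻¹ k (by
          rw [← mul_one ((σ⁻¹ : SL2) : M2), ← Matrix.mul_smul, ← e, ← mul_assoc,
            ← Matrix.SpecialLinearGroup.coe_mul, inv_mul_cancel, Matrix.SpecialLinearGroup.coe_one,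
            one_mul])).elim
      have e4 := hI.ord_diag _ t (hd ▸ h) hf hn
      obtain ⟨τ, hτ⟩ : ∃ τ, Pf (γ * A) τ τ ≠ 0 := by
        by_contra hz
        have : (fun σ => jf σ - jf (mob (γ * A) σ)) = 0 :=
          funext fun τ => not_not.mp fun h => hz ⟨τ, h⟩
        rw [this, ordE_zero] at e4
        exact w_ne_top hI t e4.symm
      rw [← Pf_SL hB γ h, lead_of_ne hτ]
      refine (e4.trans e1).le.trans (le_trans ?_ e3)
      rw [Finset.card_empty] at e2
      exact_mod_cast (by omega : w ≤ n)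
    · rw [lead_of_ne h0, ordE_of_ne (a := fun t => Pf A t t) h0]
      exact bot_le

lemma good_Pf (hB : QB) (hJ : JA) (hI : JB) (hO : ORB) {M : ℕ} {t : ℍ} {X : Finset M2}
    (hX : ∀ x, x ∈ X ↔ x ∈ PFix t M) {A : M2} (h : 0 < A.det) (hM : A.det ≤ M) :
    Good M.factorial t X (Pf A) := by
  refine ⟨Pf_ten hB h (Nat.dvd_factorial (by omega) (by omega)), Pf_ne hJ A, ?_⟩
  obtain ⟨⟨k, B⟩, ⟨h1, h2, rfl⟩, -⟩ := hO.content A (by
    rintro rfl
    simp at h)
  have k0 : (1 : ℤ) ≤ k := by exact_mod_cast h1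
  dsimp only at h hM h2 ⊢
  rw [Matrix.det_smul, Fintype.card_fin] at h hM
  have k1 : (1 : ℤ) ≤ (k : ℤ) ^ 2 := one_le_pow₀ k0
  have hB0 : 0 < B.det := (mul_pos_iff_of_pos_left (by omega)).mp h
  rw [Pf_smul hB0 (by omega)]
  exact le_prim hB hI hO hX hB0 ((le_mul_of_one_le_left hB0.le k1).trans hM) h2

end Denu

theorem denu (hB : QB) (hJ : JA) (hI : JB) (hO : ORB) (hL : LEAD) : DenuStmt := by
  intro M K t X hX
  have hd : ∀ x ∈ X, 0 < x.det := fun x hx => hO.fix_det t x ((hX x).mp hx).1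
  have e : Den M K = ∏ m ∈ Finset.Icc 1 M, ∏ A ∈ Herm m, Denu.Pf A ^ K := by
    ext a b
    simp only [Den, Finset.prod_apply, Pi.pow_apply, Denu.Pf]
  rw [e]
  refine (Finset.prod_induction _ (Denu.Good M.factorial t X) (fun a b => Denu.Good.mul hL hd)
    (Denu.good_one _ t X) fun m hm => Finset.prod_induction _ (Denu.Good M.factorial t X)
      (fun a b => Denu.Good.mul hL hd) (Denu.good_one _ t X) fun A hA => ?_).2.2
  obtain ⟨m1, m2⟩ := Finset.mem_Icc.mp hm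
  obtain ⟨a1, -, -, -, a2⟩ := (hO.mem_herm m A).mp hA
  have a3 : A.det = m := by rw [Matrix.det_fin_two, a1, mul_zero, sub_zero, a2]
  have g := Denu.good_Pf hB hJ hI hO hX (A := A) (by omega) (by omega)
  clear e
  induction K with
  | zero => exact Denu.good_one _ t X
  | succ K ih =>
    rw [pow_succ]
    exact Denu.Good.mul hL hd ih g

end Pool.Agent.MP_9207e0_ag.hg

end MrgPart3

-- ======== part 4: formerly Pool.Agent.MP_9207e0_ag.hg.Prodb
section MrgPart4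

/-! Module PRODB: the orders of the product along graphs. -/

set_option linter.unusedSectionVars false
set_option linter.unusedVariables false

namespace Pool.Agent.MP_9207e0_ag.hg

open UpperHalfPlane Complex Filter Asymptotics Matrix
open scoped Real MatrixGroups Manifold Classical Kronecker

namespace Prodb

lemma isQ_ext {h : ℕ} {a b : ℍ → ℂ} {c : LS} (ha : IsQ h a c) (hb : IsQ h b c) : a = b :=
  funext fun τ => (ha τ).unique (hb τ)

lemma isQ_zero (h : ℕ) : IsQ h 0 0 := fun τ => by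
  simp

lemma ten_of_exp {N : ℕ} {P : ℍ → ℍ → ℂ} {α β : ℤ} {P' : MM} (h : Exp2 N P α β P') : Ten N P := by
  obtain ⟨n, w, w', F, G, h1, h2, -⟩ := h
  exact ⟨n, w, w', fun i => ⟨(h1 i).1, (h1 i).2.1⟩, h2⟩

lemma ten_comp {N : ℕ} {P : ℍ → ℍ → ℂ} (h : Ten N P) (γ : SL2) :
    Ten N fun t s => P t (γ • s) := by
  obtain ⟨n, w, w', h1, rfl⟩ := h
  exact ⟨n, w, fun i s => w' i (γ • s), fun i => ⟨(h1 i).1, comp_SL_mem_Mod (h1 i).2 γ⟩, rfl⟩

lemma ten_slice {N : ℕ} {P : ℍ → ℍ → ℂ} (h : Ten N P) (s₀ : ℍ) : Ten N fun t _ => P t s₀ := by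
  obtain ⟨n, w, w', h1, rfl⟩ := h
  exact ⟨n, w, fun i _ => w' i s₀, fun i => ⟨(h1 i).1, (Mod N).algebraMap_mem (w' i s₀)⟩, rfl⟩

lemma ordC_const (x : M2) {u : ℍ → ℂ} (hu : u ≠ 0) : ordC x (fun t _ => u t) = 0 := by
  obtain ⟨t, ht⟩ := Function.ne_iff.mp hu
  refine le_antisymm ((iInf_le _ t).trans (le_of_eq ?_)) bot_le
  exact (ordE_eq_zero mdifferentiable_const _).mpr ht

lemma ordC_SL_mul (γ : SL2) {B : M2} (hB : 0 < B.det) (P : ℍ → ℍ → ℂ) :
    ordC (γ * B) P = ordC B fun t s => P t (γ • s) := by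
  unfold ordC
  refine iInf_congr fun t => ?_
  rw [mob_mul (det_SL_pos γ) hB, ← ordE_comp_mob (P t) (det_SL_pos γ)]
  simp only [mob_SL]

section

variable {N L M K : ℕ} [NeZero N] {f : MN N → ℍ → ℂ} {c : MN N → LS} {z : MN N → ℤ → ℤ}

lemma adm_neg (hH : HAT) (h : Adm N L M K f c z) :
    Adm N L M K (fun x => -f x) (fun x => -c x) fun x n => -z x n where
  wh := hH.neg h.wh
  rat := fun x n => by
    obtain ⟨q, hq⟩ := h.rat x n
    exact ⟨-q, by simp [hq]⟩
  int := fun x n hn => by simp [h.int x n hn]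
  bd := fun x n => by simpa using h.bd x n
  pole := fun x n hn => by simp [h.pole x n hn]
  pos := h.pos
  dvd := h.dvd

lemma adm_left (hH : HAT) (h : Adm N L M K f c z) (γ : SL2) :
    Adm N L M K (fun x => f (red N γ * x)) (fun x => c (red N γ * x))
      fun x => z (red N γ * x) where
  wh := hH.left h.wh γ
  rat := fun x => h.rat _
  int := fun x => h.int _
  bd := fun x => h.bd _
  pole := fun x => h.pole _
  pos := h.pos
  dvd := h.dvd

lemma Hm_neg (f : MN N → ℍ → ℂ) (m : ℕ) (s : ℍ) : Hm (fun x => -f x) m s = -Hm f m s := by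
  simp [Hm, hatV, Finset.sum_neg_distrib]

lemma lam_neg (c : MN N → LS) (m : ℕ) (ν : ℤ) : lam (fun x => -c x) m ν = -lam c m ν := by
  unfold lam
  rw [← Finset.sum_neg_distrib]
  refine Finset.sum_congr rfl fun k _ => ?_
  split_ifs
  · simp [Gc, Finset.sum_neg_distrib, neg_div]
  · simp

lemma Lam_neg (L : ℕ) (f : MN N → ℍ → ℂ) (c : MN N → LS) (s : ℍ) :
    Lam L f c s + Lam L (fun x => -f x) (fun x => -c x) s = 0 := by
  ext m
  simp only [Lam, map_add, PowerSeries.coeff_mk, Hm_neg, lam_neg, map_zero]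
  split_ifs
  · ring
  · simp

lemma Lam_const (L : ℕ) (f : MN N → ℍ → ℂ) (c : MN N → LS) (s : ℍ) :
    PowerSeries.constantCoeff (Lam L f c s) = 0 := by
  rw [← PowerSeries.coeff_zero_eq_constantCoeff_apply]
  simp [Lam, Hm, Herm]

lemma Lam_cross (hK : HECKE) (h : WH N f c) (L : ℕ) (γ : SL2) (s s₀ : ℍ) :
    Lam L f c (γ • s) + Lam L (fun x => f (red N γ * x)) (fun x => c (red N γ * x)) s₀ =
      Lam L (fun x => f (red N γ * x)) (fun x => c (red N γ * x)) s + Lam L f c (γ • s₀) := by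
  ext m
  simp only [Lam, map_add, PowerSeries.coeff_mk, hK.act h]
  split_ifs
  · ring
  · simp

lemma level_pos (h : Adm N L M K f c z) : 0 < N * L := Nat.mul_pos (NeZero.pos N) h.pos

lemma prod_mul (hA : QA) (hF : FORM) (h : Adm N L M K f c z) {P Q : ℍ → ℍ → ℂ}
    (hP : IsProd N L M K f c z P)
    (hQ : IsProd N L M K (fun x => -f x) (fun x => -c x) (fun x n => -z x n) Q) :
    P * Q = Den M K * Den M K := by
  have h0 := level_pos h
  have key : ∀ s, (fun t => P t s) * (fun t => Q t s) =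
      (fun t => Den M K t s) * fun t => Den M K t s := by
    intro s
    obtain ⟨E, d, e1, e2, e3⟩ := hP.slice s
    obtain ⟨E', d', e1', e2', e3'⟩ := hQ.slice s
    obtain rfl : d = d' := hA.unique h0 e2 e2'
    have hE : E * E' = 1 := by
      have h1 := hF.exp_mul e1 e1'
      rw [Lam_neg] at h1
      exact hF.exp_unique (by simp) h1 ⟨by simp, by simp⟩
    refine isQ_ext (hA.mul h0 e3 e3') ?_
    convert hA.mul h0 e2 e2 using 1
    have hs : (∑ i ∈ Ix N M, ((L * i.1 : ℕ) : ℤ) * cfz (fun x n => -z x n) i) =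
        -∑ i ∈ Ix N M, ((L * i.1 : ℕ) : ℤ) * cfz z i := by
      rw [← Finset.sum_neg_distrib]
      exact Finset.sum_congr rfl fun i _ => by simp [cfz]
    rw [hs, neg_neg]
    have h2 : HahnSeries.ofPowerSeries ℤ ℂ E * HahnSeries.ofPowerSeries ℤ ℂ E' = 1 := by
      rw [← map_mul, hE, map_one]
    have h3 : (HahnSeries.single (-∑ i ∈ Ix N M, ((L * i.1 : ℕ) : ℤ) * cfz z i) (1 : ℂ) : LS) *
        HahnSeries.single (∑ i ∈ Ix N M, ((L * i.1 : ℕ) : ℤ) * cfz z i) (1 : ℂ) = 1 := by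
      rw [HahnSeries.single_mul_single]
      simp
    linear_combination (d * d * HahnSeries.ofPowerSeries ℤ ℂ E *
      HahnSeries.ofPowerSeries ℤ ℂ E') * h3 + d * d * h2
  ext t s
  exact congrFun (key s) t

lemma slice_ne (hA : QA) (h : Adm N L M K f c z) {P : ℍ → ℍ → ℂ} (hP : IsProd N L M K f c z P)
    {s : ℍ} (hs : (fun t => Den M K t s) ≠ 0) : (fun t => P t s) ≠ 0 := by
  intro h1
  obtain ⟨E, d, e1, e2, e3⟩ := hP.slice s
  rw [h1] at e3
  have h2 := hA.unique (level_pos h) e3 (isQ_zero _)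
  rcases mul_eq_zero.mp h2 with h3 | h3
  · rcases mul_eq_zero.mp h3 with h4 | h4
    · exact HahnSeries.single_ne_zero one_ne_zero h4
    · have h5 : E = 0 := HahnSeries.ofPowerSeries_injective (by rw [h4, map_zero])
      have h6 := e1.1
      rw [h5] at h6
      simp at h6
  · rw [h3] at e2
    exact hs (isQ_ext e2 (isQ_zero _))

lemma cross (hA : QA) (hK : HECKE) (hF : FORM) (hD : DEN) (h : Adm N L M K f c z) (γ : SL2)
    {P G : ℍ → ℍ → ℂ} (hP : IsProd N L M K f c z P)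
    (hG : IsProd N L M K (fun x => f (red N γ * x)) (fun x => c (red N γ * x))
      (fun x => z (red N γ * x)) G) (s₀ : ℍ) :
    ((fun t s => P t (γ • s)) * fun t _ => G t s₀) = G * fun t _ => P t (γ • s₀) := by
  have h0 := level_pos h
  have key : ∀ s, (fun t => P t (γ • s)) * (fun t => G t s₀) =
      (fun t => G t s) * fun t => P t (γ • s₀) := by
    intro s
    obtain ⟨E1, d1, a1, b1, c1⟩ := hP.slice (γ • s)
    obtain ⟨E2, d2, a2, b2, c2⟩ := hG.slice s₀
    obtain ⟨E3, d3, a3, b3, c3⟩ := hG.slice s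
    obtain ⟨E4, d4, a4, b4, c4⟩ := hP.slice (γ • s₀)
    simp only [hD.inv2] at b1 b4
    obtain rfl : d1 = d3 := hA.unique h0 b1 b3
    obtain rfl : d2 = d4 := hA.unique h0 b2 b4
    have hE : E1 * E2 = E3 * E4 := by
      have h1 := hF.exp_mul a1 a2
      have h2 := hF.exp_mul a3 a4
      rw [← Lam_cross hK h.wh] at h2
      exact hF.exp_unique (by simp [Lam_const]) h1 h2
    refine isQ_ext (hA.mul h0 c1 c2) ?_
    convert hA.mul h0 c3 c4 using 1
    have h2 : HahnSeries.ofPowerSeries ℤ ℂ E1 * HahnSeries.ofPowerSeries ℤ ℂ E2 =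
        HahnSeries.ofPowerSeries ℤ ℂ E3 * HahnSeries.ofPowerSeries ℤ ℂ E4 := by
      rw [← map_mul, hE, map_mul]
    generalize (HahnSeries.single (-∑ i ∈ Ix N M, ((L * i.1 : ℕ) : ℤ) * cfz z i) (1 : ℂ) : LS) = u
    generalize (HahnSeries.single (-∑ i ∈ Ix N M, ((L * i.1 : ℕ) : ℤ) *
      cfz (fun x => z (red N γ * x)) i) (1 : ℂ) : LS) = v
    linear_combination (u * v * d1 * d2) * h2
  ext t s
  exact congrFun (key s) t

lemma ten_prod {P : ℍ → ℍ → ℂ} (hP : IsProd N L M K f c z P) : Ten (N * L) P := by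
  obtain ⟨α, β, α', β', P', D', υ, h1, -⟩ := hP.exp
  exact ten_of_exp h1

lemma den_slice (hD : DEN) (M K : ℕ) : ∃ s, (fun t => Den M K t s) ≠ 0 := by
  by_contra h
  push Not at h
  exact hD.ne M K (funext fun t => funext fun s => congrFun (h s) t)

lemma ord_left (hA : QA) (hK : HECKE) (hF : FORM) (hL : LEAD) (hD : DEN) (h : Adm N L M K f c z)
    (γ : SL2) (h' : Adm N L M K (fun x => f (red N γ * x)) (fun x => c (red N γ * x))
      fun x => z (red N γ * x)) {P G : ℍ → ℍ → ℂ} (hP : IsProd N L M K f c z P)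
    (hG : IsProd N L M K (fun x => f (red N γ * x)) (fun x => c (red N γ * x))
      (fun x => z (red N γ * x)) G) {B : M2} (hB : 0 < B.det) :
    ordC (γ * B) P = ordC B G := by
  obtain ⟨s₀, hs⟩ := den_slice hD M K
  have h1 := slice_ne hA h' hG hs
  have h2 : (fun t => P t (γ • s₀)) ≠ 0 := slice_ne hA h hP (by simpa only [hD.inv2] using hs)
  have h3 := congrArg (ordC B) (cross hA hK hF hD h γ hP hG s₀)
  rw [hL.ordC_mul B hB (ten_comp (ten_prod hP) γ) (ten_slice (ten_prod hG) s₀),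
    hL.ordC_mul B hB (ten_prod hG) (ten_slice (ten_prod hP) (γ • s₀)), ordC_const B h1,
    ordC_const B h2, add_zero, add_zero] at h3
  rw [ordC_SL_mul γ hB, h3]

lemma mem_Ix {N M : ℕ} {i : ℕ × ℕ × ℕ} :
    i ∈ Ix N M ↔ 1 ≤ i.1 ∧ i.2.1 < N ∧ 1 ≤ i.2.2 ∧ i.1 * i.2.2 ≤ M := by
  simp only [Ix, Finset.mem_filter, Finset.mem_product, Finset.mem_Icc, Finset.mem_range]
  constructor
  · rintro ⟨⟨⟨h1, -⟩, h2, h3, -⟩, h4⟩
    exact ⟨h1, h2, h3, h4⟩
  · rintro ⟨h1, h2, h3, h4⟩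
    exact ⟨⟨⟨h1, by nlinarith⟩, h2, h3, by nlinarith⟩, h4⟩

lemma red_herm (N : ℕ) (k a b d : ℤ) :
    red N (k • !![a, b; 0, d]) =
      !![((k * a : ℤ) : ZMod N), ((k * b : ℤ) : ZMod N); 0, ((k * d : ℤ) : ZMod N)] := by
  ext i j
  fin_cases i <;> fin_cases j <;> simp [red]

lemma det_herm (k a b d : ℤ) : (k • !![a, b; 0, d] : M2).det = k * a * (k * d) := by
  simp [Matrix.det_fin_two]

lemma sum_cf (h : Adm N L M K f c z) {a b d : ℤ} (ha : 0 < a) (hd : 0 < d) :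
    ((∑ i ∈ Ix N M, if ∃ k : ℤ, (i.1 : ℤ) = k * a ∧ (i.2.2 : ℤ) = k * d ∧
        ((i.2.1 : ℤ) : ZMod N) = (k * b : ℤ) then cfz z i else 0 : ℤ) : ℂ) =
      ∑ k ∈ Finset.Icc (1 : ℤ) M,
        (c (red N (k • !![a, b; 0, d]))).coeff (-(k • !![a, b; 0, d] : M2).det) := by
  rw [← Finset.sum_filter, Int.cast_sum,
    ← Finset.sum_filter_of_ne (s := Finset.Icc (1 : ℤ) M) (p := fun k => k * a * (k * d) ≤ M)]
  · symm
    refine Finset.sum_bij (fun k _ => ((k * a).toNat, ((k * b : ℤ) : ZMod N).val, (k * d).toNat))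
      ?_ ?_ ?_ ?_
    · intro k hk
      simp only [Finset.mem_filter, Finset.mem_Icc] at hk
      obtain ⟨⟨h1, h2⟩, h3⟩ := hk
      have h4 : 0 < k * a := mul_pos h1 ha
      have h5 : 0 < k * d := mul_pos h1 hd
      have h6 : (((k * a).toNat : ℕ) : ℤ) = k * a := Int.toNat_of_nonneg h4.le
      have h7 : (((k * d).toNat : ℕ) : ℤ) = k * d := Int.toNat_of_nonneg h5.le
      rw [Finset.mem_filter, mem_Ix]
      refine ⟨⟨by dsimp only; omega, ZMod.val_lt _, by dsimp only; omega, ?_⟩, k, h6, h7, by simp⟩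
      zify
      rw [h6, h7]
      exact h3
    · intro k hk k' hk' e
      simp only [Finset.mem_filter, Finset.mem_Icc] at hk hk'
      have h4 : 0 < k * a := mul_pos hk.1.1 ha
      have h5 : 0 < k' * a := mul_pos hk'.1.1 ha
      have h6 : (k * a).toNat = (k' * a).toNat := congrArg Prod.fst e
      exact mul_right_cancel₀ ha.ne' (by omega : k * a = k' * a)
    · intro i hi
      rw [Finset.mem_filter, mem_Ix] at hi
      obtain ⟨⟨h1, h2, h3, h4⟩, k, h5, h6, h7⟩ := hi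
      have h8 : 0 < k := by
        by_contra h9
        have : k * a ≤ 0 := mul_nonpos_of_nonpos_of_nonneg (not_lt.mp h9) ha.le
        omega
      have h9 : k * a * (k * d) ≤ M := by
        rw [← h5, ← h6]
        exact_mod_cast h4
      refine ⟨k, ?_, ?_⟩
      · simp only [Finset.mem_filter, Finset.mem_Icc]
        refine ⟨⟨h8, ?_⟩, h9⟩
        have h10 : 0 < k * d := mul_pos h8 hd
        nlinarith
      · refine Prod.ext ?_ (Prod.ext ?_ ?_)
        · simp [← h5]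
        · simp only [← h7, Int.cast_natCast]
          exact ZMod.val_cast_of_lt h2
        · simp [← h6]
    · intro k hk
      simp only [Finset.mem_filter, Finset.mem_Icc] at hk
      obtain ⟨⟨h1, h2⟩, h3⟩ := hk
      have h4 : 0 < k * a := mul_pos h1 ha
      have h5 : 0 < k * d := mul_pos h1 hd
      have h6 : (((k * a).toNat : ℕ) : ℤ) = k * a := Int.toNat_of_nonneg h4.le
      have h7 : (((k * d).toNat : ℕ) : ℤ) = k * d := Int.toNat_of_nonneg h5.le
      have h8 : (((k * a).toNat : ℕ) : ZMod N) = (k * a : ℤ) := by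
        rw [← Int.cast_natCast, h6]
      have h9 : (((k * d).toNat : ℕ) : ZMod N) = (k * d : ℤ) := by
        rw [← Int.cast_natCast, h7]
      rw [red_herm, det_herm, h.int _ _ (neg_neg_of_pos (mul_pos h4 h5))]
      simp only [cfz, h8, h9, ZMod.natCast_zmod_val, Nat.cast_mul, h6, h7]
  · intro k hk hne
    by_contra h1
    exact hne (h.pole _ _ (by rw [det_herm]; omega))

lemma nat_ord {ι : Type} {s : Finset ι} {C : ι → Prop} {g : ι → ℤ} {p q : ℕ}
    (h : (p : ℕ∞) + ((∑ i ∈ s, if C i then (-g i).toNat else 0 : ℕ) : ℕ∞) =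
      q + ((∑ i ∈ s, if C i then (g i).toNat else 0 : ℕ) : ℕ∞)) :
    (p : ℤ) = q + ∑ i ∈ s, if C i then g i else 0 := by
  rw [← Nat.cast_add, ← Nat.cast_add, Nat.cast_inj] at h
  have h6 := congrArg (fun n : ℕ => (n : ℤ)) h
  simp only [Nat.cast_add, Nat.cast_sum] at h6
  rw [eq_sub_of_add_eq h6, add_sub_assoc, ← Finset.sum_sub_distrib]
  congr 1
  refine Finset.sum_congr rfl fun i _ => ?_
  split_ifs
  · exact Int.toNat_sub_toNat_neg _
  · simp

lemma ord_herm (hA : QA) (hL : LEAD) (hD : DEN) (hR : OrdfStmt) (h : Adm N L M K f c z)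
    {P : ℍ → ℍ → ℂ} (hP : IsProd N L M K f c z P) {a b d : ℤ} (ha : 0 < a) (hd : 0 < d)
    (hp : Prim !![a, b; 0, d]) :
    (((ordC !![a, b; 0, d] P).toNat : ℤ) : ℂ) = (ordC !![a, b; 0, d] (Den M K)).toNat +
      ∑ k ∈ Finset.Icc (1 : ℤ) M,
        (c (red N (k • !![a, b; 0, d]))).coeff (-(k • !![a, b; 0, d] : M2).det) := by
  obtain ⟨α, β, α', β', P', D', υ, h1, -, h2, h3, h4⟩ := hP.exp
  have h5 := hR N L M P (Den M K) α β α' β' P' D' υ _ _ a b d (NeZero.pos N) h.pos h1 h2 h3 h4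
    ha hd hp
  have hdet : 0 < (!![a, b; 0, d] : M2).det := by
    simpa [Matrix.det_fin_two] using mul_pos ha hd
  obtain ⟨s₀, hs⟩ := den_slice hD M K
  have hP0 : P ≠ 0 := fun e => slice_ne hA h hP hs (by rw [e]; rfl)
  obtain ⟨p, hp'⟩ := ENat.ne_top_iff_exists.mp (hL.ne_top _ hdet (ten_of_exp h1) hP0)
  obtain ⟨q, hq⟩ := ENat.ne_top_iff_exists.mp (hL.ne_top _ hdet (ten_of_exp h2) (hD.ne M K))
  rw [← hp', ← hq] at h5 ⊢
  rw [← sum_cf h ha hd, ENat.toNat_natCast, ENat.toNat_natCast, nat_ord h5]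
  push_cast
  rfl

end

lemma red_mul (N : ℕ) (x y : M2) : red N (x * y) = red N x * red N y :=
  Matrix.map_mul (f := Int.castRingHom (ZMod N))

end Prodb

open Prodb in
theorem prodb (hA : QA) (hB : QB) (hO : ORB) (hH : HAT) (hK : HECKE) (hF : FORM) (hL : LEAD)
    (hD : DEN) (hR : OrdfStmt) (hP : ProdaStmt) : ProdbStmt := by
  intro N L M K _ f c z h
  obtain ⟨P, h1⟩ := hP N L M K f c z h
  obtain ⟨Q, h2⟩ := hP N L M K _ _ _ (adm_neg hH h)
  refine ⟨P, Q, ten_prod h1, ten_prod h2, prod_mul hA hF h h1 h2, ?_, fun x hx hp => ?_⟩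
  · obtain ⟨α, β, α', β', P', D', υ, e1, e2, -⟩ := h1.exp
    exact ⟨α, β, P', e1, e2⟩
  have hm : x.det = (x.det.toNat : ℕ) := (Int.toNat_of_nonneg hx.le).symm
  obtain ⟨B, ⟨hB1, γ, rfl⟩, -⟩ := hO.herm x.det.toNat x (by omega) hm
  obtain ⟨e1, e2, e3, e4, -⟩ := (hO.mem_herm _ B).mp hB1
  obtain ⟨a, b, d, rfl⟩ : ∃ a b d, B = !![a, b; 0, d] :=
    ⟨B 0 0, B 0 1, B 1 1, by rw [← e1]; exact Matrix.eta_fin_two B⟩
  have ha : 0 < a := by simpa using e2
  have hd : 0 < d := by simpa using e3.trans_lt e4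
  have hdet : 0 < (!![a, b; 0, d] : M2).det := by
    simpa [Matrix.det_fin_two] using mul_pos ha hd
  have hp' : Prim !![a, b; 0, d] := by
    have := hO.prim_mul _ γ⁻¹ 1 hp
    rwa [← Matrix.mul_assoc, ← Matrix.SpecialLinearGroup.coe_mul, inv_mul_cancel,
      Matrix.SpecialLinearGroup.coe_one, Matrix.one_mul, Matrix.mul_one] at this
  have h' := adm_left hH h γ
  obtain ⟨G, h3⟩ := hP N L M K _ _ _ h'
  rw [ord_left hA hK hF hL hD h γ h' h1 h3 hdet, ord_herm hA hL hD hR h' h3 ha hd hp',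
    ordC_SL_mul γ hdet]
  simp only [hD.inv2]
  congr 1
  refine Finset.sum_congr rfl fun k _ => ?_
  rw [← Matrix.mul_smul, red_mul, Matrix.det_mul, det_SL, one_mul]

end Pool.Agent.MP_9207e0_ag.hg

end MrgPart4

-- ======== part 5: formerly Pool.Agent.MP_9207e0_ag.hg.Bor
section MrgPart5

/-! Module BOR: the divisor of the Borcherds product on the diagonal. -/

set_option linter.unusedSectionVars false
set_option linter.unusedVariables false

namespace Pool.Agent.MP_9207e0_ag.hg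

open UpperHalfPlane Complex Filter Asymptotics Matrix
open scoped Real MatrixGroups Manifold Classical Kronecker

namespace Bor

/-- The data attached to an input exist. -/
lemma exists_adm (N : ℕ) [NeZero N] (f : MN N → ℍ → ℂ) (c : MN N → LS) (hw : WH N f c)
    (hr : ∀ x, RatL (c x)) (hi : ∀ x, ∀ n < 0, ∃ k : ℤ, (c x).coeff n = k) :
    ∃ (L M K : ℕ) (z : MN N → ℤ → ℤ), Adm N L M K f c z := by
  set M : ℕ := Finset.univ.sup fun x : MN N => (-(c x).order).toNat with hM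
  have hpole : ∀ x, ∀ n < -(M : ℤ), (c x).coeff n = 0 := by
    intro x n hn
    apply HahnSeries.coeff_eq_zero_of_lt_order
    have h1 : (-(c x).order).toNat ≤ M :=
      Finset.le_sup (f := fun x : MN N => (-(c x).order).toNat) (Finset.mem_univ x)
    omega
  let z : MN N → ℤ → ℤ := fun x n => if h : n < 0 then (hi x n h).choose else 0
  have hz : ∀ x, ∀ n < 0, (c x).coeff n = z x n := by
    intro x n hn
    simp only [z, dif_pos hn]
    exact (hi x n hn).choose_spec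
  set K : ℕ := (Finset.univ ×ˢ Finset.Icc (-(M : ℤ)) 0).sup
    fun p : MN N × ℤ => (z p.1 p.2).natAbs with hK
  refine ⟨M.factorial, M, K, z, hw, hr, hz, fun x n => ?_, hpole, Nat.factorial_pos M,
    fun d h1 h2 => Nat.dvd_factorial h1 h2⟩
  by_cases h0 : n < 0
  · by_cases h1 : n < -(M : ℤ)
    · have h2 : ((z x n : ℤ) : ℂ) = 0 := by rw [← hz x n h0, hpole x n h1]
      have h3 : z x n = 0 := by exact_mod_cast h2
      rw [h3]
      simp
    · have h2 : (z x n).natAbs ≤ K :=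
        Finset.le_sup (f := fun p : MN N × ℤ => (z p.1 p.2).natAbs) (b := (x, n))
          (Finset.mem_product.mpr ⟨Finset.mem_univ _, Finset.mem_Icc.mpr ⟨by omega, by omega⟩⟩)
      rw [Int.abs_eq_natAbs]
      exact_mod_cast h2
  · have h3 : z x n = 0 := by simp only [z, dif_neg h0]
    rw [h3]
    simp

lemma ten_of_exp2 {N : ℕ} {P : ℍ → ℍ → ℂ} {α β : ℤ} {P' : MM} (h : Exp2 N P α β P') :
    Ten N P := by
  obtain ⟨n, w, w', F, G, h1, h2, -⟩ := h
  exact ⟨n, w, w', fun i => ⟨(h1 i).1, (h1 i).2.1⟩, h2⟩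

lemma algL_of_ratL {c : LS} (h : RatL c) : AlgL c := by
  intro n
  obtain ⟨q, hq⟩ := h n
  rw [hq]
  exact isAlgebraic_algebraMap q

lemma ordE_pow {a : ℍ → ℂ} (ha : Hol a) (k : ℕ) (τ : ℍ) : ordE (a ^ k) τ = k • ordE a τ :=
  analyticOrderAt_pow (hol_iff.mp ha τ) k

/-- The weight zero normalisation of the leading coefficient. -/
lemma norm_lead (hA : QA) (hB : QB) (hC : JC) (hE : E2A) (hL : LEAD) {N : ℕ} (hN : 0 < N)
    {P : ℍ → ℍ → ℂ} {α β : ℤ} {P' : MM} (h : Exp2 N P α β P') (halg : AlgM P') (h0 : P ≠ 0) :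
    ∃ a ∈ Mod N, IntJ a ∧ a ≠ 0 ∧ ∀ t, ord a t = 6 * ord (lead P) t := by
  have hT := ten_of_exp2 h
  set e := (ordC 1 P).toNat with he
  set a : ℍ → ℂ := fun t => lead P t ^ 6 / ModularForm.discriminant t ^ e with ha
  have hm : a ∈ Mod N := hL.md hN hT h0
  obtain ⟨d1, hd1, hr1, -⟩ := hB.delta_q
  obtain ⟨d, hd, hdr⟩ := hB.rq_level hN (one_dvd N) ⟨d1, hd1, hr1⟩
  have hΔ : Hol ModularForm.discriminant := hA.hol hN hd
  have hmul : a * ModularForm.discriminant ^ e = lead P ^ 6 := by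
    ext t
    simp only [ha, Pi.mul_apply, Pi.pow_apply]
    exact div_mul_cancel₀ _ (pow_ne_zero _ (ModularForm.discriminant_ne_zero t))
  have hne : (ModularForm.discriminant ^ e : ℍ → ℂ) ≠ 0 := by
    intro h1
    have h2 := congrFun h1 UpperHalfPlane.I
    exact pow_ne_zero e (ModularForm.discriminant_ne_zero _) h2
  obtain ⟨c, hc, hca⟩ := hE.diag e hN h halg
  have hc' : IsQ N (lead P) c := hc
  have hq := hA.quot hN (hA.pow 6 hN hc') (hA.pow e hN hd) hne hm.1 hmul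
  obtain ⟨K, hK⟩ := hA.algL
  have hqa : AlgL (c ^ 6 / d ^ e) := by
    rw [← hK]
    exact K.div_mem (K.pow_mem ((hK _).mpr hca) 6)
      (K.pow_mem ((hK _).mpr (algL_of_ratL hdr)) e)
  have hord : ∀ t, ordE a t = 6 • ordE (lead P) t := by
    intro t
    have h1 := ordE_mul hm.1 (hΔ.pow e) t
    have h2 : ordE (ModularForm.discriminant ^ e) t = 0 :=
      (ordE_eq_zero (hΔ.pow e) t).mpr (pow_ne_zero e (ModularForm.discriminant_ne_zero t))
    rw [hmul, h2, add_zero, ordE_pow (hL.hol hT)] at h1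
    exact h1.symm
  refine ⟨a, hm, hC.intJ hN hm hq hqa, ?_, fun t => ?_⟩
  · intro h1
    rw [h1, zero_mul] at hmul
    exact hL.ne hT h0 (by
      ext t
      have h2 := congrFun hmul t
      simp only [Pi.zero_apply, Pi.pow_apply] at h2
      exact pow_eq_zero_iff (by norm_num) |>.mp h2.symm)
  · obtain ⟨n, hn⟩ := ENat.ne_top_iff_exists.mp (ordE_ne_top (hL.hol hT) (hL.ne hT h0) t)
    rw [ord, ord, hord t, ← hn, nsmul_eq_mul]
    norm_cast

/-- Primitive matrices are determined by their action, up to sign. -/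
lemma eq_of_mob_eq (hO : ORB) {x y : M2} (hx : 0 < x.det) (hy : 0 < y.det) (px : Prim x)
    (py : Prim y) (sx : 0 < x 1 0) (sy : 0 < y 1 0) (h : mob x = mob y) : x = y := by
  have hA : 0 < (y.adjugate * x).det := by
    rw [Matrix.det_mul]; exact mul_pos (det_adj_pos hy) hx
  have hfix : ∀ τ, mob (y.adjugate * x) τ = τ := by
    intro τ
    rw [mob_mul (det_adj_pos hy) hx, h, mob_adj_mob hy]
  set A := y.adjugate * x with hAdef
  have hq : ∀ τ : ℍ, ((A 1 1 : ℝ) - A 0 0) = -2 * (A 1 0 : ℝ) * τ.re ∧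
      (-(A 0 1 : ℝ)) = (A 1 0 : ℝ) * (τ.re ^ 2 + τ.im ^ 2) := by
    intro τ
    apply quad_disc
    have := (mob_fix_iff hA τ).mp (hfix τ)
    push_cast
    linear_combination this
  obtain ⟨e1, e2⟩ := hq UpperHalfPlane.I
  obtain ⟨-, e3⟩ := hq ⟨2 * Complex.I, by simp⟩
  simp only [UpperHalfPlane.I_re, UpperHalfPlane.I_im] at e1 e2
  have e4 : (-(A 0 1 : ℝ)) = (A 1 0 : ℝ) * 4 := by
    rw [e3]
    simp [UpperHalfPlane.re, UpperHalfPlane.im]
    norm_num
  have a10 : A 1 0 = 0 := by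
    have : (A 1 0 : ℝ) = 0 := by linarith
    exact_mod_cast this
  have a01 : A 0 1 = 0 := by
    have : (A 0 1 : ℝ) = 0 := by
      have h1 : (A 1 0 : ℝ) = 0 := by exact_mod_cast a10
      linarith
    exact_mod_cast this
  have a11 : A 1 1 = A 0 0 := by
    have : (A 1 1 : ℝ) = A 0 0 := by linarith
    exact_mod_cast this
  have hs : A = A 0 0 • (1 : M2) := by
    ext i k
    fin_cases i <;> fin_cases k <;> simp [a10, a01, a11]
  have hxy : y.det • x = A 0 0 • y := by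
    have h1 : y * A = y.det • x := by
      rw [hAdef, ← Matrix.mul_assoc, Matrix.mul_adjugate, Matrix.smul_mul, Matrix.one_mul]
    rw [← h1]
    conv_lhs => rw [hs]
    rw [Matrix.mul_smul, Matrix.mul_one]
  have hl : 0 < A 0 0 := by
    have h1 := congrFun (congrFun hxy 1) 0
    simp only [Matrix.smul_apply, smul_eq_mul] at h1
    have h2 : 0 < A 0 0 * y 1 0 := h1 ▸ mul_pos hy sx
    exact pos_of_mul_pos_left h2 sy.le
  have hne : y.det • x ≠ 0 := by
    intro h1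
    have h2 := congrFun (congrFun h1 1) 0
    simp only [Matrix.smul_apply, smul_eq_mul, Matrix.zero_apply] at h2
    exact (mul_pos hy sx).ne' h2
  obtain ⟨p, -, hp⟩ := hO.content _ hne
  have h1 := hp (y.det.toNat, x) ⟨by simpa using hy, px, by simp [Int.toNat_of_nonneg hy.le]⟩
  have h2 := hp ((A 0 0).toNat, y)
    ⟨by simpa using hl, py, by simp only [Int.toNat_of_nonneg hl.le]; exact hxy⟩
  exact (Prod.ext_iff.mp (h1.trans h2.symm)).2

lemma smul_mem_fix {t : ℍ} {x : M2} {k : ℤ} (hk : k ≠ 0) : k • x ∈ Fix t ↔ x ∈ Fix t := by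
  have hk' : (k : ℂ) ≠ 0 := by exact_mod_cast hk
  simp only [Fix, Set.mem_ofPred_eq, Matrix.smul_apply, smul_eq_mul, mul_ne_zero_iff]
  push_cast
  constructor
  · rintro ⟨⟨-, h1⟩, h2⟩
    refine ⟨h1, mul_left_cancel₀ hk' ?_⟩
    linear_combination h2
  · rintro ⟨h1, h2⟩
    exact ⟨⟨hk, h1⟩, by linear_combination k * h2⟩

lemma neg_mem_fix {t : ℍ} {x : M2} : -x ∈ Fix t ↔ x ∈ Fix t := by
  have := smul_mem_fix (t := t) (x := x) (k := -1) (by norm_num)
  simpa using this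

/-- The sum over the matrices that fix `t`, by content and sign. -/
lemma finsum_fix (hO : ORB) (t : ℍ) (M : ℕ) (X : Finset M2) (hX : ∀ x, x ∈ X ↔ x ∈ PFix t M)
    (F : M2 → ℂ) (hneg : ∀ x, F (-x) = F x) (hvan : ∀ x : M2, (M : ℤ) < x.det → F x = 0) :
    ∑ᶠ x ∈ Fix t, F x = 2 * ∑ x ∈ X, ∑ k ∈ Finset.Icc (1 : ℤ) M, F (k • x) := by
  set T : Finset M2 := (X ×ˢ Finset.Icc (1 : ℤ) M).image fun p => p.2 • p.1 with hT
  have hTmem : ∀ x ∈ T, x ∈ Fix t ∧ 0 < x 1 0 := by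
    intro x hx
    obtain ⟨⟨y, k⟩, hp, rfl⟩ := Finset.mem_image.mp hx
    obtain ⟨hy, hk⟩ := Finset.mem_product.mp hp
    obtain ⟨h1, -, h3, -⟩ := (hX y).mp hy
    have hk1 : 0 < k := (Finset.mem_Icc.mp hk).1
    refine ⟨(smul_mem_fix hk1.ne').mpr h1, ?_⟩
    simp only [Matrix.smul_apply, smul_eq_mul]
    exact mul_pos hk1 h3
  have hmemT : ∀ x ∈ Fix t, 0 < x 1 0 → x.det ≤ M → x ∈ T := by
    intro x hx h0 hd
    have hne : x ≠ 0 := by
      rintro rfl
      simp at h0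
    obtain ⟨⟨k, y⟩, ⟨hk, hy, hxy⟩, -⟩ := hO.content x hne
    simp only at hk hy hxy
    have hk' : (0 : ℤ) < k := by exact_mod_cast hk
    have hyf : y ∈ Fix t := (smul_mem_fix hk'.ne').mp (hxy ▸ hx)
    have hdy := hO.fix_det t y hyf
    have hdet : x.det = (k : ℤ) ^ 2 * y.det := by
      rw [hxy, Matrix.det_smul]
      simp
    have hy0 : 0 < y 1 0 := by
      rw [hxy] at h0
      simp only [Matrix.smul_apply, smul_eq_mul] at h0
      exact (mul_pos_iff_of_pos_left hk').mp h0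
    refine Finset.mem_image.mpr ⟨(y, k), Finset.mem_product.mpr
      ⟨(hX y).mpr ⟨hyf, hy, hy0, ?_⟩, Finset.mem_Icc.mpr ⟨hk', ?_⟩⟩, hxy.symm⟩
    · nlinarith [sq_nonneg ((k : ℤ) - 1)]
    · nlinarith [sq_nonneg ((k : ℤ) - 1)]
  have hdisj : Disjoint T (T.image fun x => -x) := by
    rw [Finset.disjoint_left]
    intro x h1 h2
    obtain ⟨y, hy, rfl⟩ := Finset.mem_image.mp h2
    have h3 := (hTmem _ h1).2
    have h4 := (hTmem _ hy).2
    simp only [Matrix.neg_apply] at h3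
    omega
  have hsupp : Fix t ∩ Function.support F =
      ↑(T ∪ T.image fun x => -x) ∩ Function.support F := by
    ext x
    simp only [Set.mem_inter_iff, Finset.mem_coe, Finset.mem_union, Function.mem_support]
    constructor
    · rintro ⟨h1, h2⟩
      refine ⟨?_, h2⟩
      have hd : x.det ≤ M := not_lt.mp fun h => h2 (hvan x h)
      rcases lt_or_gt_of_ne h1.1 with h3 | h3
      · right
        refine Finset.mem_image.mpr ⟨-x, hmemT _ (neg_mem_fix.mpr h1) ?_ ?_, neg_neg x⟩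
        · simp only [Matrix.neg_apply]
          omega
        · rw [Matrix.det_neg]
          simpa using hd
      · exact Or.inl (hmemT x h1 h3 hd)
    · rintro ⟨h1 | h1, h2⟩
      · exact ⟨(hTmem x h1).1, h2⟩
      · obtain ⟨y, hy, rfl⟩ := Finset.mem_image.mp h1
        exact ⟨neg_mem_fix.mpr (hTmem y hy).1, h2⟩
  have hsumT : ∑ x ∈ T, F x = ∑ x ∈ X, ∑ k ∈ Finset.Icc (1 : ℤ) M, F (k • x) := by
    rw [hT, Finset.sum_image, Finset.sum_product]
    rintro ⟨y, k⟩ hp ⟨y', k'⟩ hp' he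
    obtain ⟨hy, hk⟩ := Finset.mem_product.mp hp
    obtain ⟨hy', hk'⟩ := Finset.mem_product.mp hp'
    obtain ⟨-, h2, h3, -⟩ := (hX y).mp hy
    obtain ⟨-, h2', -, -⟩ := (hX y').mp hy'
    have hk1 : 0 < k := (Finset.mem_Icc.mp hk).1
    have hk1' : 0 < k' := (Finset.mem_Icc.mp hk').1
    simp only at he hy hk hy' hk' h2 h3 h2'
    have hne : k • y ≠ 0 := by
      intro h1
      have h4 := congrFun (congrFun h1 1) 0
      simp only [Matrix.smul_apply, smul_eq_mul, Matrix.zero_apply] at h4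
      exact (mul_pos hk1 h3).ne' h4
    obtain ⟨p, -, hq⟩ := hO.content _ hne
    have e1 := hq (k.toNat, y) ⟨by simpa using hk1, h2, by simp [Int.toNat_of_nonneg hk1.le]⟩
    have e2 := hq (k'.toNat, y')
      ⟨by simpa using hk1', h2', by simp only [Int.toNat_of_nonneg hk1'.le]; exact he⟩
    obtain ⟨e3, e4⟩ := Prod.ext_iff.mp (e1.trans e2.symm)
    simp only at e3 e4
    exact Prod.ext e4 (by simp only; omega)
  rw [finsum_mem_eq_sum_of_inter_support_eq F hsupp, Finset.sum_union hdisj,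
    Finset.sum_image (fun x _ y _ h => neg_injective h)]
  simp only [hneg]
  rw [hsumT, two_mul]

/-- The order of the leading coefficient is the sum of the orders along the graphs. -/
lemma ord_lead (hO : ORB) (hL : LEAD) {N : ℕ} {P Q D : ℍ → ℍ → ℂ} (hP : Ten N P) (hQ : Ten N Q)
    (hD : Ten N D) (hD0 : D ≠ 0) (hP0 : P ≠ 0) (hQ0 : Q ≠ 0) (hPQ : P * Q = D * D) (t : ℍ)
    (M : ℕ) (X : Finset M2) (hX : ∀ x, x ∈ X ↔ x ∈ PFix t M)
    (hU : ordE (lead D) t ≤ ∑ x ∈ X, ordC x D) :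
    ord (lead P) t = ∑ x ∈ X, (ordC x P).toNat ∧ ord (lead D) t = ∑ x ∈ X, (ordC x D).toNat := by
  have hf : ∀ x ∈ X, x ∈ Fix t := fun x hx => ((hX x).mp hx).1
  have hdet : ∀ x ∈ X, 0 < x.det := fun x hx => hO.fix_det t x (hf x hx)
  have hinj : ∀ x ∈ X, ∀ y ∈ X, mob x = mob y → x = y := fun x hx y hy h =>
    eq_of_mob_eq hO (hdet x hx) (hdet y hy) ((hX x).mp hx).2.1 ((hX y).mp hy).2.1
      ((hX x).mp hx).2.2.1 ((hX y).mp hy).2.2.1 h
  have hcast : ∀ {R : ℍ → ℍ → ℂ}, Ten N R → R ≠ 0 →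
      ∑ x ∈ X, ordC x R = ((∑ x ∈ X, (ordC x R).toNat : ℕ) : ℕ∞) := by
    intro R hR h0
    rw [Nat.cast_sum]
    exact Finset.sum_congr rfl fun x hx => (ENat.natCast_toNat (hL.ne_top x (hdet x hx) hR h0)).symm
  have hcast' : ∀ {R : ℍ → ℍ → ℂ}, Ten N R → R ≠ 0 →
      ordE (lead R) t = (ord (lead R) t : ℕ∞) := fun hR h0 =>
    (ENat.natCast_toNat (ordE_ne_top (hL.hol hR) (hL.ne hR h0) t)).symm
  have i1 := hL.ineq t X hP hP0 hf hinj
  have i2 := hL.ineq t X hQ hQ0 hf hinj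
  have i3 := hL.ineq t X hD hD0 hf hinj
  have m1 := hL.ord_mul t hP hQ hP0 hQ0
  have m2 := hL.ord_mul t hD hD hD0 hD0
  have m3 : ∑ x ∈ X, ordC x P + ∑ x ∈ X, ordC x Q = ∑ x ∈ X, ordC x D + ∑ x ∈ X, ordC x D := by
    rw [← Finset.sum_add_distrib, ← Finset.sum_add_distrib]
    refine Finset.sum_congr rfl fun x hx => ?_
    rw [← hL.ordC_mul x (hdet x hx) hP hQ, ← hL.ordC_mul x (hdet x hx) hD hD, hPQ]
  rw [hPQ, m2, hcast' hP hP0, hcast' hQ hQ0, hcast' hD hD0] at m1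
  rw [hcast hP hP0, hcast hQ hQ0, hcast hD hD0] at m3
  rw [hcast hP hP0, hcast' hP hP0] at i1
  rw [hcast hQ hQ0, hcast' hQ hQ0] at i2
  rw [hcast hD hD0, hcast' hD hD0] at i3 hU
  norm_cast at i1 i2 i3 hU m1 m3
  omega

end Bor

open Bor in
theorem bor (hA : QA) (hB : QB) (hC : JC) (hO : ORB) (hH : HAT) (hE : E2A) (hL : LEAD) (hD : DEN)
    (hU : DenuStmt) (hP : ProdbStmt) : BorStmt := by
  intro N _ f c hw hr hi
  obtain ⟨L, M, K, z, hadm⟩ := exists_adm N f c hw hr hi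
  have hN : 0 < N := Nat.pos_of_ne_zero (NeZero.ne N)
  have hNL : 0 < N * L := Nat.mul_pos hN hadm.pos
  obtain ⟨P, Q, tP, tQ, hPQ, ⟨α, β, P', eP, aP⟩, hord⟩ := hP N L M K f c z hadm
  obtain ⟨α', β', D', C', eD, aD, -⟩ := hD.exp N L M K hN hadm.pos hadm.dvd
  have tD := ten_of_exp2 eD
  have hD0 := hD.ne M K
  have hDD : Den M K * Den M K ≠ 0 := by
    intro h
    apply hD0
    ext t s
    have h1 := congrFun (congrFun h t) s
    simp only [Pi.mul_apply, Pi.zero_apply, mul_self_eq_zero] at h1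
    exact h1
  have hP0 : P ≠ 0 := by
    rintro rfl
    exact hDD (by rw [← hPQ, zero_mul])
  have hQ0 : Q ≠ 0 := by
    rintro rfl
    exact hDD (by rw [← hPQ, mul_zero])
  obtain ⟨a, ha, ia, a0, oa⟩ := norm_lead hA hB hC hE hL hNL eP aP hP0
  obtain ⟨b, hb, ib, b0, ob⟩ := norm_lead hA hB hC hE hL hNL eD aD hD0
  refine ⟨N * L, a, b, hNL, ha, hb, ia, ib, a0, b0, fun t => ?_⟩
  have hfin : (PFix t M).Finite :=
    (hO.fin_fix t M).subset fun x hx => ⟨hx.1, hx.2.2.2⟩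
  have hX : ∀ x, x ∈ hfin.toFinset ↔ x ∈ PFix t M := fun x => hfin.mem_toFinset
  obtain ⟨e1, e2⟩ := ord_lead hO hL tP tQ tD hD0 hP0 hQ0 hPQ t M _ hX (hU M K t _ hX)
  have hneg : ∀ x : M2, (c (red N (-x))).coeff (-(-x).det) = (c (red N x)).coeff (-x.det) := by
    intro x
    have h1 : red N (-x) = -red N x := by
      ext i k
      simp [red]
    have h2 : (-x).det = x.det := by
      rw [Matrix.det_neg]
      simp
    rw [h1, h2, hH.par hw]
  rw [finsum_fix hO t M _ hX (fun x => (c (red N x)).coeff (-x.det)) hneg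
    (fun x hx => hadm.pole _ _ (by omega)), oa, ob, e1, e2]
  have hsum : ∑ x ∈ hfin.toFinset, (((ordC x P).toNat : ℕ) : ℂ) =
      ∑ x ∈ hfin.toFinset, (((ordC x (Den M K)).toNat : ℕ) : ℂ) +
        ∑ x ∈ hfin.toFinset, ∑ k ∈ Finset.Icc (1 : ℤ) M,
          (c (red N (k • x))).coeff (-(k • x).det) := by
    rw [← Finset.sum_add_distrib]
    refine Finset.sum_congr rfl fun x hx => ?_
    have h1 := (hX x).mp hx
    have h2 := hord x (hO.fix_det t x h1.1) h1.2.1
    rw [Int.cast_natCast] at h2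
    exact h2
  push_cast
  rw [hsum]
  ring

end Pool.Agent.MP_9207e0_ag.hg

end MrgPart5

-- ======== part 6: formerly Pool.Agent.MP_9207e0_ag.hg.Main
section MrgPart6

/-! Assembly: the symbol vanishes on Heegner points. -/

set_option linter.unusedSectionVars false
set_option linter.unusedVariables false

namespace Pool.Agent.MP_9207e0_ag.hg

open UpperHalfPlane Complex Filter Asymptotics Matrix AlgebraicGeometry CategoryTheory
open scoped Real MatrixGroups Manifold Classical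

/-- The Heegner point attached to a set of representatives. -/
noncomputable def yH (ι : Qbar →+* ℂ) (R : Finset (ℤ × ℍ)) (γ : SL2) : EQ :=
  ∑ p ∈ R, (ZMod.χ₄ (p.1 : ZMod 4) : ℤ) • uQ ι (γ • p.2)

lemma uQ_inv (hU : THB) (ι : Qbar →+* ℂ) : ∀ g ∈ Gam 8, ∀ τ, uQ ι (g • τ) = uQ ι τ := by
  intro g hg τ
  rw [uQ, uQ, hU.modX.2.1 g hg, hU.modY.2.1 g hg]

lemma sym_yH (hU : THB) (hR : REC) (hZ : ZindStmt) (hH : HeegStmt) (hA : AppStmt)
    (ι : Qbar →+* ℂ) {V : Type} [AddCommGroup V] {β : EQ →+ EQ →+ V} (hβ : Sym β) {n : ℕ}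
    (hn : Squarefree n) (h8 : n % 8 = 7) {R : Finset (ℤ × ℍ)} (hr : IsHeegnerReps n R)
    (γ1 γ2 : SL2) : β (yH ι R γ1) (yH ι R γ2) = 0 := by
  refine hH β (uQ ι) hβ.tf (uQ_inv hU ι) (hZ _ ?_ (hA ι β hβ) (hR.base ι β hβ)) n R hn h8 hr γ1 γ2
  intro g1 h1 g2 h2 τ σ
  simp only [uQ_inv hU ι g1 h1, uQ_inv hU ι g2 h2]

lemma sym_sat {V : Type} [AddCommGroup V] {β : EQ →+ EQ →+ V} (hβ : Sym β) {S : Set EQ}
    (h : ∀ a ∈ S, ∀ b ∈ S, β a b = 0) {a b : EQ} {k l : ℤ} (hk : k ≠ 0) (hl : l ≠ 0)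
    (ha : k • a ∈ AddSubgroup.closure S) (hb : l • b ∈ AddSubgroup.closure S) : β a b = 0 := by
  have h1 : ∀ a ∈ S, β a (l • b) = 0 := fun a ha =>
    ((AddSubgroup.closure_le (β a).ker).mpr fun b hb => h a ha b hb) hb
  have h2 : β (k • a) (l • b) = 0 :=
    ((AddSubgroup.closure_le (β.flip (l • b)).ker).mpr fun a ha => h1 a ha) ha
  rw [map_zsmul, map_zsmul, AddMonoidHom.zsmul_apply] at h2
  exact hβ.tf k _ hk (hβ.tf l _ hl h2)

lemma uQ_heeg (hB : QB) (hC : JC) (hR : REC) (ι : Qbar →+* ℂ) {n : ℕ} {B : ℤ} {τ : ℍ} (γ : SL2)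
    (h : IsHeegner n B τ) :
    ∃ x y h, uQ ι (γ • τ) = .some x y h ∧ ι x = uX (γ • τ) ∧ ι y = uY (γ • τ) := by
  obtain ⟨A, C, h0, -, -, -, e⟩ := h
  exact hR.uQ_spec ι _ (by rw [hB.j_inv]; exact hC.alg_cm A B C τ h0.ne' e)

/-- The symbol of a proper model, with values in the Chow group modulo torsion. -/
theorem exists_sym (hK : KumStmt) {X : Scheme.{0}} (s : X ⟶ Spec (CommRingCat.of Qbar))
    [IsProper s] (j : Spec (CommRingCat.of (KummerRing (-1) (-1))) ⟶ X)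
    (hj : j ≫ s = Spec.map (CommRingCat.ofHom (algebraMap Qbar (KummerRing (-1) (-1))))) :
    ∃ (V : Type) (_ : AddCommGroup V) (β : EQ →+ EQ →+ V), Sym β ∧
      ∀ (x y u w : Qbar) (h : (legendre (-1 : Qbar)).Nonsingular x y)
        (h' : (legendre (-1 : Qbar)).Nonsingular u w), β (.some x y h) (.some u w h') = 0 →
        ∀ P Q : KummerRing (-1) (-1) →ₐ[Qbar] Qbar, coord P 0 = x → coord P 1 = u →
          coord P 2 = y * w → coord Q 0 = coord Q 1 →
          ∃ k : ℤ, k ≠ 0 ∧ k • (Finsupp.single (j (closedPt P)) (1 : ℤ) -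
            Finsupp.single (j (closedPt Q)) 1) ∈ AddSubgroup.closure {D | PrincipalCycle s D} := by
  let T := AddCommGroup.torsion (Chow s)
  let pr : Chow s →+ Chow s ⧸ T := QuotientAddGroup.mk' T
  have hT : ∀ c : Chow s, pr c = 0 ↔ ∃ k : ℤ, k ≠ 0 ∧ k • c = 0 := by
    intro c
    rw [QuotientAddGroup.mk'_apply, QuotientAddGroup.eq_zero_iff, AddCommGroup.mem_torsion,
      isOfFinAddOrder_iff_zsmul_eq_zero]
  have tf : ∀ (k : ℤ) (v : Chow s ⧸ T), k ≠ 0 → k • v = 0 → v = 0 := by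
    intro k v hk hv
    obtain ⟨c, rfl⟩ := QuotientAddGroup.mk'_surjective T v
    rw [← map_zsmul] at hv
    obtain ⟨l, hl, e⟩ := (hT _).mp hv
    exact (hT _).mpr ⟨l * k, mul_ne_zero hl hk, by rw [mul_smul, e]⟩
  have hγ : CurveRel (-1) (-1) fun x u r => pr (cl s j x u r) := by
    intro F _ _ hF x u r h e hr hh n V hinj hV hW a b c ha hb hc hc0
    have := congrArg pr (curveRel_cl s j hj F hF x u r h e hr hh n V hinj hV hW a b c ha hb hc hc0)
    simpa only [map_sum, map_zsmul, map_zero] using this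
  obtain ⟨κ, β, hβ, h1, h2⟩ := hK _ _ tf hγ
  refine ⟨_, inferInstance, β, hβ, fun x y u w h h' h0 P Q p0 p1 p2 q => ?_⟩
  have e : coord Q 2 ^ 2 = fl (-1) (coord Q 0) * fl (-1) (coord Q 1) := hom_eq1 Q
  have e1 : pr (cl s j (coord P 0) (coord P 1) (coord P 2)) = κ := by
    rw [p0, p1, p2, h1 x y u w h h' (p2 ▸ hom_ne P), h0, add_zero]
  have e2 : pr (cl s j (coord Q 0) (coord Q 1) (coord Q 2)) = κ := by
    rw [q] at e ⊢
    exact h2 _ _ e (hom_ne Q)
  rw [cl_hom] at e1 e2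
  obtain ⟨k, hk, e3⟩ := (hT _).mp (by rw [map_sub, e1, e2, sub_self] :
    pr (QuotientAddGroup.mk (Finsupp.single (j (closedPt P)) (1 : ℤ)) -
      QuotientAddGroup.mk (Finsupp.single (j (closedPt Q)) 1)) = 0)
  refine ⟨k, hk, (QuotientAddGroup.eq_zero_iff _).mp ?_⟩
  rw [QuotientAddGroup.mk_zsmul, QuotientAddGroup.mk_sub, e3]

end Pool.Agent.MP_9207e0_ag.hg

end MrgPart6

-- marker of a merged file
example : 731051 + 877728 = 731051 + 877728 := rfl
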