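import Pool.Agent.MP_9207e0_ag.hg.Spec

/-! Reciprocity on modular curves and the vanishing of the symbol at elliptic points. -/

set_option linter.unusedSectionVars false
set_option linter.unusedVariables false

namespace Pool.Agent.MP_9207e0_ag.hg

open UpperHalfPlane Complex Filter Asymptotics Matrix
open scoped Real MatrixGroups Manifold Classical Kronecker

namespace Rec

lemma qv_spec (ι : Qbar →+* ℂ) (z : ℂ) (hz : IsAlgebraic ℚ z) : ι (qv ι z) = z := by
  obtain ⟨p, hp, hz⟩ := hz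
  have h : ∃ x, ι x = z := by
    have e : (p.map (algebraMap ℚ Qbar)).map ι = p.map (algebraMap ℚ ℂ) := by
      rw [Polynomial.map_map]
      congr 1
      exact Subsingleton.elim _ _
    refine (IsAlgClosed.splits (p.map (algebraMap ℚ Qbar))).mem_range_of_isRoot
      (Polynomial.map_ne_zero hp) (i := ι) ?_
    rw [e, Polynomial.IsRoot.def, Polynomial.eval_map_algebraMap, hz]
  rw [qv, dif_pos h]
  exact h.choose_spec

lemma ns_iff (x y : Qbar) : (legendre (-1 : Qbar)).Nonsingular x y ↔ y ^ 2 = x ^ 3 - x := by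
  have hΔ : (legendre (-1 : Qbar)).Δ ≠ 0 := by
    simp only [legendre, WeierstrassCurve.Δ, WeierstrassCurve.b₂, WeierstrassCurve.b₄,
      WeierstrassCurve.b₆, WeierstrassCurve.b₈]
    norm_num
  rw [← WeierstrassCurve.Affine.equation_iff_nonsingular_of_Δ_ne_zero hΔ,
    WeierstrassCurve.Affine.equation_iff]
  simp only [legendre]
  constructor <;> intro h <;> linear_combination h

lemma ptq_eq {x y : Qbar} (h : (legendre (-1 : Qbar)).Nonsingular x y) :
    ptq x y = .some x y h := dif_pos h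

lemma uQ_spec (hC : JC) (hT : THA) (hU : THB) (ι : Qbar →+* ℂ) (τ : ℍ)
    (hτ : IsAlgebraic ℚ (jf τ)) : ∃ x y h, uQ ι τ = .some x y h ∧ ι x = uX τ ∧ ι y = uY τ := by
  have e1 := qv_spec ι _ (hC.alg_val hU.intX hτ)
  have e2 := qv_spec ι _ (hC.alg_val hU.intY hτ)
  have h : (legendre (-1 : Qbar)).Nonsingular (qv ι (uX τ)) (qv ι (uY τ)) := by
    rw [ns_iff]
    apply ι.injective
    rw [map_pow, map_sub, map_pow, e1, e2, hT.curve]
  exact ⟨_, _, h, ptq_eq h, e1, e2⟩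

lemma two_tors {x y : Qbar} (h : (legendre (-1 : Qbar)).Nonsingular x y) (hx : x = 0) :
    (WeierstrassCurve.Affine.Point.some x y h : EQ) + .some x y h = 0 := by
  have e := (ns_iff x y).1 h
  have hy : y = 0 := by
    rw [hx] at e
    exact pow_eq_zero_iff two_ne_zero |>.1 (by linear_combination e)
  refine WeierstrassCurve.Affine.Point.add_self_of_Y_eq ?_
  simp [WeierstrassCurve.Affine.negY, legendre, hy]

lemma four_tors {x y : Qbar} (h : (legendre (-1 : Qbar)).Nonsingular x y) (hx : x ^ 2 + 1 = 0) :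
    (4 : ℤ) • (WeierstrassCurve.Affine.Point.some x y h : EQ) = 0 := by
  have e := (ns_iff x y).1 h
  have x0 : x ≠ 0 := by
    rintro rfl
    norm_num at hx
  have y0 : y ≠ 0 := by
    rintro rfl
    exact x0 (by linear_combination (1 / 2 : Qbar) * e + (x / 2) * hx)
  have n : (legendre (-1 : Qbar)).negY x y = -y := by
    simp [WeierstrassCurve.Affine.negY, legendre]
  have hy : y ≠ (legendre (-1 : Qbar)).negY x y := by
    rw [n]
    intro h2
    exact y0 (by linear_combination (1 / 2 : Qbar) * h2)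
  have k : (4 : ℤ) • (WeierstrassCurve.Affine.Point.some x y h : EQ) =
      (.some x y h + .some x y h) + (.some x y h + .some x y h) := by
    generalize (WeierstrassCurve.Affine.Point.some x y h : EQ) = P
    module
  rw [k, WeierstrassCurve.Affine.Point.add_self_of_Y_ne hy]
  refine two_tors _ ?_
  rw [WeierstrassCurve.Affine.slope_of_Y_ne rfl hy, n]
  simp only [WeierstrassCurve.Affine.addX, legendre]
  have y2 : y - -y ≠ 0 := fun h2 => y0 (by linear_combination (1 / 2 : Qbar) * h2)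
  field_simp
  linear_combination (-8 * x) * e + (x ^ 2 + 1) * hx

section Symb

variable {V : Type} [AddCommGroup V] {β : EQ →+ EQ →+ V}

lemma pm (hβ : Sym β) {x y u w : Qbar} (h : (legendre (-1 : Qbar)).Nonsingular x y)
    (h' : (legendre (-1 : Qbar)).Nonsingular u w) (e : u ^ 2 = x ^ 2) :
    β (.some x y h) (.some u w h') = 0 := by
  rw [← ptq_eq h, ← ptq_eq h']
  rcases sq_eq_sq_iff_eq_or_eq_neg.1 e with e | e <;> rw [e]
  · exact hβ.same x y w
  · exact hβ.opp x y w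

lemma rel (hβ : Sym β) {x y u w : Qbar} (h : (legendre (-1 : Qbar)).Nonsingular x y)
    (h' : (legendre (-1 : Qbar)).Nonsingular u w) (e : u ^ 2 = x ^ 2 ∨ u ^ 2 * x ^ 2 = 1) :
    β (.some x y h) (.some u w h') = 0 := by
  rcases e with e | e
  · exact pm hβ h h' e
  have x0 : x ≠ 0 := by
    rintro rfl
    norm_num at e
  have h0 : (legendre (-1 : Qbar)).Nonsingular 0 0 := (ns_iff 0 0).2 (by norm_num)
  have t : β (.some 0 0 h0) (.some u w h') = 0 := by
    refine hβ.tf 2 _ two_ne_zero ?_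
    rw [two_zsmul, ← AddMonoidHom.add_apply, ← map_add, two_tors h0 rfl, map_zero,
      AddMonoidHom.zero_apply]
  have s : β (.some x y h + .some 0 0 h0) (.some u w h') = 0 := by
    rw [WeierstrassCurve.Affine.Point.add_of_X_ne x0]
    refine pm hβ _ h' ?_
    have c := (ns_iff x y).1 h
    have k : (legendre (-1 : Qbar)).addX x 0 ((legendre (-1 : Qbar)).slope x 0 y 0) = -x⁻¹ := by
      rw [WeierstrassCurve.Affine.slope_of_X_ne x0]
      simp only [WeierstrassCurve.Affine.addX, legendre, sub_zero]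
      field_simp
      linear_combination c
    rw [k]
    field_simp
    linear_combination e
  rwa [map_add, AddMonoidHom.add_apply, t, add_zero] at s

lemma six (hβ : Sym β) {x y u w : Qbar} (h : (legendre (-1 : Qbar)).Nonsingular x y)
    (h' : (legendre (-1 : Qbar)).Nonsingular u w)
    (e : (x ^ 2 + 1) * (2 * x ^ 2 - 1) * (x ^ 2 - 2) = 0)
    (e' : (u ^ 2 + 1) * (2 * u ^ 2 - 1) * (u ^ 2 - 2) = 0) :
    β (.some x y h) (.some u w h') = 0 := by
  by_cases hx : x ^ 2 + 1 = 0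
  · refine hβ.tf 4 _ (by norm_num) ?_
    rw [← AddMonoidHom.smul_apply, ← map_zsmul, four_tors h hx, map_zero, AddMonoidHom.zero_apply]
  by_cases hu : u ^ 2 + 1 = 0
  · refine hβ.tf 4 _ (by norm_num) ?_
    rw [← map_zsmul, four_tors h' hu, map_zero]
  rw [mul_assoc] at e e'
  refine rel hβ h h' ?_
  rcases mul_eq_zero.1 ((mul_eq_zero.1 e).resolve_left hx) with a | a <;>
    rcases mul_eq_zero.1 ((mul_eq_zero.1 e').resolve_left hu) with b | b
  · exact Or.inl (by linear_combination (1 / 2 : Qbar) * b - (1 / 2 : Qbar) * a)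
  · exact Or.inr (by linear_combination x ^ 2 * b + a)
  · exact Or.inr (by linear_combination u ^ 2 * a + b)
  · exact Or.inl (by linear_combination b - a)

lemma base (hB : QB) (hC : JC) (hI : JB) (hT : THA) (hU : THB) (ι : Qbar →+* ℂ) (hβ : Sym β)
    (τ : ℍ) (g γ1 γ2 : SL2) (hg : g • τ = τ) (ht : (g : M2).trace = 0 ∨ (g : M2).trace = 1) :
    β (uQ ι (γ1 • τ)) (uQ ι (γ2 • τ)) = 0 := by
  have c0 : (g : M2) 1 0 ≠ 0 := by
    intro h0
    have d := det_SL g
    rw [Matrix.det_fin_two, h0, mul_zero, sub_zero] at d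
    rw [Matrix.trace_fin_two] at ht
    rcases Int.eq_one_or_neg_one_of_mul_eq_one' d with ⟨a, b⟩ | ⟨a, b⟩ <;>
      rw [a, b] at ht <;> omega
  have al : IsAlgebraic ℚ (jf τ) := by
    refine hC.alg_cm ((g : M2) 1 0) ((g : M2) 1 1 - (g : M2) 0 0) (-(g : M2) 0 1) τ c0 ?_
    have := (mob_fix_iff (det_SL_pos g) τ).1 (by rw [mob_SL, hg])
    push_cast
    linear_combination this
  have fx : ∀ γ : SL2, (γ * g * γ⁻¹) • γ • τ = γ • τ := fun γ => by
    rw [mul_smul, mul_smul, inv_smul_smul, hg]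
  have tr : ∀ γ : SL2, ((γ * g * γ⁻¹ : SL2) : M2).trace = (g : M2).trace := fun γ => by
    rw [Matrix.SpecialLinearGroup.coe_mul, Matrix.trace_mul_comm,
      ← Matrix.SpecialLinearGroup.coe_mul, ← mul_assoc, inv_mul_cancel, one_mul]
  obtain ⟨x, y, h, e1, ex, -⟩ := uQ_spec hC hT hU ι (γ1 • τ) (by rwa [hB.j_inv])
  obtain ⟨u, w, h', e2, eu, -⟩ := uQ_spec hC hT hU ι (γ2 • τ) (by rwa [hB.j_inv])
  rw [e1, e2]
  rcases ht with ht | ht
  · have a := hT.e6 _ (hI.e6_zero _ _ (fx γ1) (by rw [tr, ht]))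
    have b := hT.e6 _ (hI.e6_zero _ _ (fx γ2) (by rw [tr, ht]))
    refine six hβ h h' (ι.injective ?_) (ι.injective ?_)
    · simpa only [map_mul, map_add, map_sub, map_pow, map_one, map_ofNat, map_zero, ex] using a
    · simpa only [map_mul, map_add, map_sub, map_pow, map_one, map_ofNat, map_zero, eu] using b
  · have a := hT.e4 _ (hI.e4_zero _ _ (fx γ1) (by rw [tr, ht]))
    have b := hT.e4 _ (hI.e4_zero _ _ (fx γ2) (by rw [tr, ht]))
    have a' : x ^ 4 - x ^ 2 + 1 = 0 := ι.injective (by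
      simpa only [map_add, map_sub, map_pow, map_one, map_zero, ex] using a)
    have b' : u ^ 4 - u ^ 2 + 1 = 0 := ι.injective (by
      simpa only [map_add, map_sub, map_pow, map_one, map_zero, eu] using b)
    refine rel hβ h h' ?_
    have k : (u ^ 2 - x ^ 2) * (u ^ 2 * x ^ 2 - 1) = 0 := by
      linear_combination x ^ 2 * b' - u ^ 2 * a'
    rcases mul_eq_zero.1 k with k | k
    · exact Or.inl (sub_eq_zero.1 k)
    · exact Or.inr (sub_eq_zero.1 k)

end Symb

lemma hol_poly {w : ℍ → ℂ} (hw : Hol w) (p : Polynomial ℂ) : Hol fun τ => p.eval (w τ) := by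
  induction p using Polynomial.induction_on' with
  | add p q hp hq =>
    simp only [Polynomial.eval_add]
    exact hp.add hq
  | monomial n c =>
    simp only [Polynomial.eval_monomial]
    exact (mdifferentiable_const (c := c)).mul (hw.pow n)

lemma hol_poly2 {w a : ℍ → ℂ} (hw : Hol w) (ha : Hol a) (Φ : Polynomial (Polynomial ℂ)) :
    Hol fun τ => (Φ.map (Polynomial.evalRingHom (w τ))).eval (a τ) := by
  induction Φ using Polynomial.induction_on' with
  | add p q hp hq =>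
    simp only [Polynomial.map_add, Polynomial.eval_add]
    exact hp.add hq
  | monomial n c =>
    simp only [Polynomial.map_monomial, Polynomial.eval_monomial, Polynomial.coe_evalRingHom]
    exact (hol_poly hw c).mul (ha.pow n)

lemma relG_equiv (N : ℕ) : Equivalence (relG N) :=
  ⟨fun τ => ⟨1, one_mem _, one_smul _ _⟩,
    fun ⟨γ, h, e⟩ => ⟨γ⁻¹, inv_mem h, by rw [← e, inv_smul_smul]⟩,
    fun ⟨γ, h, e⟩ ⟨δ, h', e'⟩ => ⟨δ * γ, mul_mem h' h, by rw [mul_smul, e, e']⟩⟩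

lemma finz (hB : QB) (hJ : JA) (hC : JC) (hI : JB) (hS : OS) (N : ℕ) (a : ℍ → ℂ) (hN : 0 < N)
    (ha : a ∈ Mod N) (a0 : a ≠ 0) : ∃ R, IsRep (relG N) {τ | a τ = 0} R := by
  have : NeZero N := ⟨hN.ne'⟩
  obtain ⟨Φ, hm, hΦ⟩ := hC.charpoly hN ha
  obtain ⟨Ψ, e, hΨ⟩ := Polynomial.exists_eq_pow_rootMultiplicity_mul_and_not_dvd Φ hm.ne_zero 0
  generalize Φ.rootMultiplicity 0 = k at e
  rw [map_zero, sub_zero] at e hΨ
  rw [Polynomial.X_dvd_iff] at hΨ
  have hb := hol_poly2 hB.j_mod.1 ha.1 Ψ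
  have ak : ∀ k : ℕ, a ^ k ≠ 0 := fun k => by
    induction k with
    | zero => exact one_ne_zero
    | succ k ih => rw [pow_succ]; exact Hol.mul_ne_zero (ha.1.pow k) ha.1 ih a0
  have b0 : (fun τ => (Ψ.map (Polynomial.evalRingHom (jf τ))).eval (a τ)) = 0 := by
    by_contra h
    refine Hol.mul_ne_zero (ha.1.pow k) hb (ak k) h (funext fun τ => ?_)
    have := hΦ τ
    rw [e, Polynomial.map_mul, Polynomial.map_pow, Polynomial.map_X, Polynomial.eval_mul,
      Polynomial.eval_pow, Polynomial.eval_X] at this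
    exact this
  choose s hs using hJ.surj
  have fin : ((fun p : ℂ × (SL2 ⧸ Gam N) => p.2.out⁻¹ • s p.1) ''
      ({c | (Ψ.coeff 0).IsRoot c} ×ˢ Set.univ)).Finite :=
    ((Polynomial.finite_setOfPred_isRoot hΨ).prod Set.finite_univ).image _
  refine hS.exists_rep (relG_equiv N) fin fun x hx => ?_
  have r : (Ψ.coeff 0).IsRoot (jf x) := by
    have := congrFun b0 x
    rw [show a x = 0 from hx, ← Polynomial.coeff_zero_eq_eval_zero, Polynomial.coeff_map] at this
    exact this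
  obtain ⟨γ, hγ⟩ := hI.inj (s (jf x)) x (hs _)
  obtain ⟨h, eh⟩ := QuotientGroup.mk_out_eq_mul (Gam N) γ⁻¹
  have k2 : (QuotientGroup.mk γ⁻¹ : SL2 ⧸ Gam N).out⁻¹ • s (jf x) = (h : SL2)⁻¹ • x := by
    rw [eh, _root_.mul_inv_rev, inv_inv, mul_smul, hγ]
  refine ⟨(h : SL2)⁻¹ • x, ⟨(jf x, QuotientGroup.mk γ⁻¹), ⟨r, trivial⟩, k2⟩, ?_,
    (h : SL2)⁻¹, inv_mem h.2, rfl⟩
  exact (ha.2.1 _ (inv_mem h.2) x).trans hx

lemma cusp {F : Type} [Field F] [Algebra Qbar F] {W : ValuationSubring F} {j x y : F}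
    (hj : j ∉ W) (hx : x ∈ W) (e1 : y ^ 2 = x ^ 3 - x)
    (e2 : j * (x ^ 4 * (x ^ 2 - 1) ^ 2) = 256 * (x ^ 4 - x ^ 2 + 1) ^ 3) : Sp W y 0 := by
  rw [Sp.zero_iff]
  have m1 : x ^ 2 - 1 ∈ W := sub_mem (pow_mem hx 2) W.one_mem
  have m2 : 256 * (x ^ 4 - x ^ 2 + 1) ^ 3 * (x ^ 2 - 1) ^ 2 ∈ W :=
    mul_mem (mul_mem (ofNat_mem W 256) (pow_mem (add_mem (sub_mem (pow_mem hx 4) (pow_mem hx 2))
      W.one_mem) 3)) (pow_mem m1 2)
  have e3 : j * y ^ 8 = 256 * (x ^ 4 - x ^ 2 + 1) ^ 3 * (x ^ 2 - 1) ^ 2 := by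
    rw [← e2, show y ^ 8 = (y ^ 2) ^ 4 by ring, e1]
    ring
  rw [← e3, ← W.valuation_le_one_iff, map_mul, map_pow] at m2
  by_contra h
  have h1 : 1 ≤ W.valuation y ^ 8 := one_le_pow₀ (not_lt.1 h)
  refine hj ((W.valuation_le_one_iff j).1 ?_)
  exact le_trans (le_mul_of_one_le_right' h1) m2

lemma recAn (hB : QB) (hC : JC) (hM : ModfStmt) (ι : Qbar →+* ℂ) {V : Type} [AddCommGroup V]
    (β : EQ →+ EQ →+ V) (hβ : Sym β) : RecAn ι β := by
  intro N a x1 y1 x2 y2 hN hw a0 c1 c2 jr R hR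
  obtain ⟨F, _, _, A, φ, P, κ, hF, hA, hφ, hκ, hP, hW, hK⟩ := hM ι N hN
  let aA : A := ⟨a, (hA _).2 (hw _ (by simp))⟩
  let X1 : A := ⟨x1, (hA _).2 (hw _ (by simp))⟩
  let Y1 : A := ⟨y1, (hA _).2 (hw _ (by simp))⟩
  let X2 : A := ⟨x2, (hA _).2 (hw _ (by simp))⟩
  let Y2 : A := ⟨y2, (hA _).2 (hw _ (by simp))⟩
  have ij : IntJ jf :=
    isIntegral_algebraMap (R := Algebra.adjoin ℚ {(jf : ℍ → ℂ)})
      (x := ⟨jf, Algebra.self_mem_adjoin_singleton ℚ _⟩)
  let J : A := ⟨jf, (hA _).2 ⟨hB.mod_level (one_dvd N) hB.j_mod, ij⟩⟩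
  have a0' : aA ≠ 0 := fun h => a0 (congrArg Subtype.val h)
  have al : ∀ τ ∈ R, IsAlgebraic ℚ (jf τ) := fun τ hτ =>
    hC.alg_zero (hw a (by simp)).1.1 (hw a (by simp)).2 a0 (hR.1 τ hτ)
  have d1 : φ Y1 ^ 2 = φ X1 ^ 3 - φ X1 := by
    rw [← map_pow, ← map_pow, ← map_sub]
    exact congrArg φ (Subtype.ext (funext c1))
  have d2 : φ Y2 ^ 2 = φ X2 ^ 3 - φ X2 := by
    rw [← map_pow, ← map_pow, ← map_sub]
    exact congrArg φ (Subtype.ext (funext c2))
  have d3 : φ J * (φ X1 ^ 4 * (φ X1 ^ 2 - 1) ^ 2) = 256 * (φ X1 ^ 4 - φ X1 ^ 2 + 1) ^ 3 := by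
    have : J * (X1 ^ 4 * (X1 ^ 2 - 1) ^ 2) = 256 * (X1 ^ 4 - X1 ^ 2 + 1) ^ 3 :=
      Subtype.ext (funext jr)
    simpa only [map_mul, map_add, map_sub, map_pow, map_one, map_ofNat] using congrArg φ this
  have ch : ∀ W : ValuationSubring F, ∃ τ : ℍ, W ∈ R.image P → τ ∈ R ∧ P τ = W := fun W => by
    by_cases h : W ∈ R.image P
    · obtain ⟨τ, h1, h2⟩ := Finset.mem_image.1 h
      exact ⟨τ, fun _ => ⟨h1, h2⟩⟩
    · exact ⟨UpperHalfPlane.I, fun h' => absurd h' h⟩
  choose t ht using ch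
  have key := hβ.recip F hF (φ X1) (φ Y1) (φ X2) (φ Y2) (φ aA) d1 d2
    ((map_ne_zero_iff φ hφ).2 a0') (R.image P) (fun W => qv ι (x1 (t W)))
    (fun W => qv ι (y1 (t W))) (fun W => qv ι (x2 (t W))) (fun W => qv ι (y2 (t W)))
    (fun W hW' => by
      obtain ⟨h1, h2⟩ := ht W hW'
      obtain ⟨p1, p2⟩ := hP _ (al _ h1)
      rw [h2] at p1 p2
      exact ⟨p1, p2 X1, p2 Y1, p2 X2, p2 Y2⟩)
    (fun W pW hW' ho => by
      by_cases hj : φ J ∈ W
      · obtain ⟨τ, aτ, rfl⟩ := hW W pW fun w hw => by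
          rwa [show w = J from Subtype.ext hw]
        have := hK aA R τ a0' hR aτ
        rw [Finset.sum_eq_zero fun σ hσ => absurd (Finset.mem_image.2
          ⟨σ, (Finset.mem_filter.1 hσ).1, (Finset.mem_filter.1 hσ).2⟩) hW', mul_zero] at this
        exact absurd this (mul_ne_zero (by exact_mod_cast hκ.ne') ho)
      · by_cases hx : φ X1 ∈ W
        · exact Or.inr (cusp hj hx d1 d3)
        · exact Or.inl hx)
  refine hβ.tf 2 _ two_ne_zero ?_
  rw [← Finset.sum_fiberwise_of_maps_to (s := R) (t := R.image P) (g := P)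
    fun τ hτ => Finset.mem_image_of_mem P hτ, ← smul_zero (κ : ℤ), ← key, Finset.smul_sum,
    Finset.smul_sum]
  refine Finset.sum_congr rfl fun W hW' => ?_
  obtain ⟨h1, h2⟩ := ht W hW'
  have k := hK aA R (t W) a0' hR (al _ h1)
  rw [h2] at k
  rw [smul_smul, k, mul_smul, Finset.sum_smul]
  congr 1
  refine Finset.sum_congr rfl fun τ hτ => ?_
  obtain ⟨m1, m2⟩ := Finset.mem_filter.1 hτ
  obtain ⟨p1, p2⟩ := hP _ (al _ h1)
  obtain ⟨-, q2⟩ := hP _ (al _ m1)
  rw [h2] at p1 p2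
  rw [m2] at q2
  have u : ∀ w : A, qv ι (w.1 τ) = qv ι (w.1 (t W)) := fun w => Sp.unique p1 (q2 w) (p2 w)
  rw [ptc, ptc, u X1, u Y1, u X2, u Y2]

end Rec

theorem recip (hB : QB) (hJ : JA) (hC : JC) (hI : JB) (hT : THA) (hU : THB) (hS : OS)
    (hM : ModfStmt) : REC where
  recAn := fun ι _ _ β hβ => Rec.recAn hB hC hM ι β hβ
  finz := Rec.finz hB hJ hC hI hS
  qv_spec := Rec.qv_spec
  uQ_spec := Rec.uQ_spec hC hT hU
  base := fun ι _ _ _ hβ => Rec.base hB hC hI hT hU ι hβ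

end Pool.Agent.MP_9207e0_ag.hg
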