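import Pool.Agent.MP_9207e0_ag.hg.Spec

/-! The quotients of theta constants are modular functions of level eight. -/

namespace Pool.Agent.MP_9207e0_ag.hg

open UpperHalfPlane Complex Filter Asymptotics Matrix
open scoped Real MatrixGroups Manifold Classical Kronecker

namespace Thb

/-- First coordinate of the transformed characteristic. -/
def cm (a b c d i : ℕ) : ℕ := (a * (i / 2 + 7 * c * d) + c * (i % 2 + 7 * a * b)) % 8

/-- Second coordinate of the transformed characteristic. -/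
def cn (a b c d i : ℕ) : ℕ := (b * (i / 2 + 7 * c * d) + d * (i % 2 + 7 * a * b)) % 8

/-- The permutation of the theta constants. -/
def sg (a b c d : ZMod 8) (i : Fin 3) : Fin 3 :=
  Fin.ofNat 3 (2 * (cm a.val b.val c.val d.val i % 2) + cn a.val b.val c.val d.val i % 2)

/-- The exponent in the formula of Igusa. -/
def ig (a b c d m n : ℕ) : ℕ :=
  4 * m * (n / 2) + 7 * m * m * b * d + 2 * m * n * b * c + 7 * n * n * a * c +
    2 * a * b * (d * m + 7 * c * n)

/-- The exponent of the eighth root of unity. -/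
def ex (a b c d : ZMod 8) (i : Fin 3) : ZMod 8 :=
  (ig a.val b.val c.val d.val (cm a.val b.val c.val d.val i) (cn a.val b.val c.val d.val i) : ℕ)

theorem chk : ∀ a b c d : ZMod 8, a * d - b * c = 1 → ∀ i,
    (sg b (-a) d (-c) i = ![0, 2, 1] (sg a b c d i) ∧
      ex b (-a) d (-c) i = ex a b c d i + 0 + (ex b (-a) d (-c) 0 - ex a b c d 0)) ∧
    sg a (a + b) c (c + d) i = ![1, 0, 2] (sg a b c d i) ∧
      ex a (a + b) c (c + d) i = ex a b c d i + ![0, 0, 1] (sg a b c d i) +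
        (ex a (a + b) c (c + d) 0 - ex a b c d 0 - ![0, 0, 1] (sg a b c d 0)) := by
  decide +kernel

theorem chk1 : ∀ i, sg 1 0 0 1 i = i ∧ ex 1 0 0 1 i = 0 := by decide +kernel

/-- The three theta constants. -/
noncomputable def th : Fin 3 → ℍ → ℂ := ![th00, th01, th10]

lemma ee_pow : ee (1 / 8) ^ 8 = 1 := by
  rw [ee, ← Complex.exp_nat_mul]
  refine Eq.trans (congrArg cexp ?_) Complex.exp_two_pi_mul_I
  push_cast
  ring

/-- The character of order eight. -/
noncomputable def ch : AddChar (ZMod 8) ℂ := AddChar.zmodChar 8 ee_pow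

/-- The permutation attached to a matrix. -/
def sG (g : SL2) : Fin 3 → Fin 3 := sg (g 0 0) (g 0 1) (g 1 0) (g 1 1)

/-- The exponents attached to a matrix. -/
def eG (g : SL2) : Fin 3 → ZMod 8 := ex (g 0 0) (g 0 1) (g 1 0) (g 1 1)

/-- The transformation law. -/
def Law (g : SL2) : Prop := ∀ τ, ∃ ν : ℂ, ∀ i, th i (g • τ) = ν * ch (eG g i) * th (sG g i) τ

lemma step {g h : SL2} {p : Fin 3 → Fin 3} {δ : Fin 3 → ZMod 8}
    (hh : ∀ τ, ∃ μ : ℂ, μ ≠ 0 ∧ ∀ j, th j (h • τ) = μ * ch (δ j) * th (p j) τ)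
    (ht : ∃ k, ∀ i, sG (g * h) i = p (sG g i) ∧ eG (g * h) i = eG g i + δ (sG g i) + k) :
    Law g ↔ Law (g * h) := by
  obtain ⟨k, ht⟩ := ht
  have hk : ch k * ch (-k) = 1 := by
    rw [← AddChar.map_add_eq_mul, add_neg_cancel, AddChar.map_zero_eq_one]
  constructor
  · intro H τ
    obtain ⟨ν, h1⟩ := H (h • τ)
    obtain ⟨μ, -, h2⟩ := hh τ
    refine ⟨ν * μ * ch (-k), fun i => ?_⟩
    rw [mul_smul, h1, h2, (ht i).1, (ht i).2, AddChar.map_add_eq_mul, AddChar.map_add_eq_mul]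
    linear_combination (-(ν * μ * ch (eG g i) * ch (δ (sG g i)) * th (p (sG g i)) τ)) * hk
  · intro H τ
    obtain ⟨τ, rfl⟩ : ∃ σ, τ = h • σ := ⟨h⁻¹ • τ, (smul_inv_smul h τ).symm⟩
    obtain ⟨ν, h1⟩ := H τ
    obtain ⟨μ, h0, h2⟩ := hh τ
    refine ⟨ν * ch k / μ, fun i => ?_⟩
    rw [← mul_smul, h1, h2, (ht i).1, (ht i).2, AddChar.map_add_eq_mul, AddChar.map_add_eq_mul]
    field_simp

lemma det8 (g : SL2) : (g 0 0 : ZMod 8) * g 1 1 - g 0 1 * g 1 0 = 1 := by
  have := congrArg (Int.cast : ℤ → ZMod 8) ((Matrix.det_fin_two _).symm.trans g.2)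
  simpa using this

lemma law (hB : QB) (hT : THA) (g : SL2) : Law g := by
  have hS : ∀ g : SL2, Law g ↔ Law (g * ModularGroup.S) := fun g => by
    refine step (p := ![0, 2, 1]) (δ := 0) (fun τ => ⟨sqr τ, fun e => ?_, fun j => ?_⟩) ?_
    · have := hB.sqr_sq τ
      rw [e] at this
      simp [τ.ne_zero] at this
    · obtain ⟨h1, h2, h3⟩ := hT.lawS τ
      generalize ModularGroup.S • τ = σ at h1 h2 h3
      fin_cases j <;> simp [th, h1, h2, h3]
    · exact ⟨_, fun i => by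
        simpa [sG, eG, ModularGroup.S, Matrix.mul_apply] using (chk _ _ _ _ (det8 g) i).1⟩
  have hT' : ∀ g : SL2, Law g ↔ Law (g * ModularGroup.T) := fun g => by
    refine step (p := ![1, 0, 2]) (δ := ![0, 0, 1]) (fun τ => ⟨1, one_ne_zero, fun j => ?_⟩) ?_
    · obtain ⟨h1, h2, h3⟩ := hT.lawT τ
      generalize ModularGroup.T • τ = σ at h1 h2 h3
      have h4 : ch 1 = ee (1 / 8) := pow_one _
      fin_cases j <;> simp [th, h1, h2, h3, h4]
    · exact ⟨_, fun i => by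
        simpa [sG, eG, ModularGroup.T, Matrix.mul_apply] using (chk _ _ _ _ (det8 g) i).2⟩
  have hg : g ∈ Subgroup.closure {ModularGroup.S, ModularGroup.T} :=
    SpecialLinearGroup.SL2Z_generators ▸ Subgroup.mem_top g
  induction hg using Subgroup.closure_induction_right with
  | one => exact fun τ => ⟨1, fun i => by simp [sG, eG, chk1 i]⟩
  | mul_right x _ y hy ih =>
    rcases hy with rfl | rfl
    · exact (hS x).1 ih
    · exact (hT' x).1 ih
  | mul_inv_cancel x _ y hy ih =>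
    rcases hy with rfl | rfl
    · exact (hS _).2 (by rwa [inv_mul_cancel_right])
    · exact (hT' _).2 (by rwa [inv_mul_cancel_right])

lemma quot_mem (hA : QA) (hB : QB) (hT : THA) (i : Fin 3) :
    (fun τ => th i τ / th 2 τ) ∈ Mod 8 := by
  have h0 : ∀ i τ, th i τ ≠ 0 := fun i τ => by
    obtain ⟨h1, h2, h3⟩ := hT.ne τ
    fin_cases i <;> assumption
  have h1 : ∀ i, Hol (th i) := fun i => by
    obtain ⟨h1, h2, h3⟩ := hT.hol
    fin_cases i <;> assumption
  have h2 : ∀ i, HasQ 8 (th i) := fun i => by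
    obtain ⟨h1, h2, h3⟩ := hT.hasQ
    fin_cases i <;> assumption
  have h3 : ∀ i j, Hol fun τ => th i τ / th j τ := fun i j => hol_iff.2 fun τ =>
    (hol_iff.1 (h1 i) τ).div (hol_iff.1 (h1 j) τ) (by simpa using h0 j τ)
  have h4 : ∀ (g : SL2) τ, th i (g • τ) / th 2 (g • τ) =
      ch (eG g i) / ch (eG g 2) * (th (sG g i) τ / th (sG g 2) τ) := fun g τ => by
    obtain ⟨ν, h⟩ := law hB hT g τ
    have h5 : ν ≠ 0 := fun e => h0 2 (g • τ) (by rw [h, e, zero_mul, zero_mul])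
    rw [h, h]
    field_simp
  refine ⟨h3 _ _, fun g hg τ => ?_, fun g => ?_⟩
  · obtain ⟨a, b, c, d⟩ := CongruenceSubgroup.Gamma_mem.1 hg
    simp only [h4, sG, eG, a, b, c, d, chk1, AddChar.map_zero_eq_one, div_one, one_mul]
  · obtain ⟨c, hc⟩ := h2 (sG g i)
    obtain ⟨d, hd⟩ := h2 (sG g 2)
    simp only [h4]
    exact ExpG.mul ⟨0, gr_const _⟩ (hA.expG (by norm_num) (hA.quot (by norm_num) hc hd
      (fun e => h0 _ UpperHalfPlane.I (congrFun e _)) (h3 _ _)
      (funext fun τ => div_mul_cancel₀ _ (h0 _ τ))))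

end Thb

open Thb Polynomial in
theorem thb (hA : QA) (hB : QB) (hT : THA) : THB := by
  have hX : IntJ uX := by
    let J : Algebra.adjoin ℚ {(jf : ℍ → ℂ)} :=
      (256 : ℚ)⁻¹ • ⟨jf, Algebra.self_mem_adjoin_singleton ℚ _⟩
    refine ⟨(X ^ 4 - X ^ 2 + 1) ^ 3 - C J * (X ^ 4 * (X ^ 2 - 1) ^ 2), by monicity!, ?_⟩
    funext τ
    simp only [eval₂_sub, eval₂_add, eval₂_mul, eval₂_pow, eval₂_X, eval₂_C, eval₂_one]
    change (uX τ ^ 4 - uX τ ^ 2 + 1) ^ 3 - (256 : ℚ)⁻¹ • jf τ * (uX τ ^ 4 * (uX τ ^ 2 - 1) ^ 2) = 0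
    rw [smul_mul_assoc, hT.jrel, Rat.smul_def]
    push_cast
    ring
  refine ⟨?_, ?_, hX, IsIntegral.of_pow two_pos ?_⟩
  · have := pow_mem (quot_mem hA hB hT 0) 2
    rwa [show (fun τ => th 0 τ / th 2 τ) ^ 2 = uX from 
      funext fun τ => div_pow (th00 τ) (th10 τ) 2] at this
  · have := mul_mem (quot_mem hA hB hT 0) (pow_mem (quot_mem hA hB hT 1) 2)
    rwa [show (fun τ => th 0 τ / th 2 τ) * (fun τ => th 1 τ / th 2 τ) ^ 2 = uY from
      funext fun τ => by
        change th00 τ / th10 τ * (th01 τ / th10 τ) ^ 2 = th00 τ * th01 τ ^ 2 / th10 τ ^ 3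
        ring] at this
  · rw [show uY ^ 2 = uX ^ 3 - uX from funext hT.curve]
    exact (hX.pow 3).sub hX

end Pool.Agent.MP_9207e0_ag.hg
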