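import Pool.Agent.MP_9207e0_ag.hg.Spec

-- ======== part 0: formerly Pool.Agent.MP_9207e0_ag.hg.ModfA
section MrgPart0

/-! Places of a Galois cover of the line: conjugacy and the order of the decomposition group. -/

set_option linter.unusedSectionVars false
set_option linter.unusedVariables false

namespace Pool.Agent.MP_9207e0_ag.hg.Modf

open Polynomial
open scoped Classical Pointwise

variable {F : Type} [Field F] [Algebra Qbar F] {V W : ValuationSubring F} {π : F}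

lemma val_lt_iff (V : ValuationSubring F) (x : F) : V.valuation x < 1 ↔ x = 0 ∨ x⁻¹ ∉ V := by
  rw [← ValuationSubring.mem_nonunits_iff, ValuationSubring.mem_nonunits_iff_or]

lemma val_eq_iff (V : ValuationSubring F) (x : F) :
    V.valuation x = 1 ↔ x ∈ V ∧ x ≠ 0 ∧ x⁻¹ ∈ V := by
  rw [le_antisymm_iff, V.valuation_le_one_iff, ← not_lt, val_lt_iff]
  tauto

lemma val_le_iff (V : ValuationSubring F) (x : F) {y : F} (hy : y ≠ 0) :
    V.valuation x ≤ V.valuation y ↔ x / y ∈ V := by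
  rw [← V.valuation_le_one_iff, map_div₀, div_le_one₀ (zero_lt_iff.mpr (by simpa using hy))]

/-- A discrete place with its uniformiser. -/
structure DV (V : ValuationSubring F) (π : F) : Prop where
  pl : IsPlace V
  un : IsUnif V π
  pw : ∀ x, x ≠ 0 → ∃ n : ℤ, V.valuation x = V.valuation π ^ n

lemma DV.pos (h : DV V π) : 0 < V.valuation π := zero_lt_iff.mpr (by simpa using h.un.1)

lemma DV.ord_nat (h : DV V π) {x : F} {k : ℕ} (hx : V.valuation x = V.valuation π ^ k) :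
    ordAt V x = k := by
  rcases Nat.eq_zero_or_pos k with rfl | hk
  · simpa using ordAt_of_val_eq_one (by simpa using hx)
  have m1 : π ∈ V := (V.valuation_le_one_iff _).mp h.un.2.1.le
  have hlt : V.valuation x < 1 := by rw [hx]; exact pow_lt_one₀ zero_le h.un.2.1 hk.ne'
  have mx : x ∈ V := (V.valuation_le_one_iff _).mp hlt.le
  have hx0 : x ≠ 0 := by
    rintro rfl
    rw [map_zero] at hx
    exact (pow_pos h.pos k).ne hx
  have nx : x⁻¹ ∉ V := ((val_lt_iff V x).mp hlt).resolve_left hx0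
  have np : π⁻¹ ∉ V := ((val_lt_iff V π).mp h.un.2.1).resolve_left h.un.1
  have e1 : Ring.ord V ⟨π, m1⟩ = 1 := by
    have := h.un.ordAt
    simp only [ordAt, zeroOrd, m1, np, dif_pos, dif_neg, not_false_eq_true, Nat.cast_zero,
      sub_zero, Nat.cast_eq_one] at this
    exact (ENat.toNat_eq_iff one_ne_zero).mp this
  rw [← map_pow, V.valuation_eq_iff] at hx
  obtain ⟨a, ha⟩ := hx
  have e2 : (⟨x, mx⟩ : V) = a * ⟨π, m1⟩ ^ k := Subtype.ext (by simpa using ha.symm)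
  have hnz : (⟨π, m1⟩ : V) ∈ nonZeroDivisors V :=
    mem_nonZeroDivisors_of_ne_zero fun e => h.un.1 (congrArg Subtype.val e)
  simp only [ordAt, zeroOrd, mx, nx, dif_pos, dif_neg, not_false_eq_true, Nat.cast_zero, sub_zero]
  rw [e2, Ring.ord_mul_of_isUnit_left a.isUnit, Ring.ord_pow hnz, e1]
  simp

lemma DV.ord_eq (h : DV V π) {x : F} {n : ℤ} (hx : V.valuation x = V.valuation π ^ n) :
    ordAt V x = n := by
  obtain ⟨k, rfl | rfl⟩ := Int.eq_nat_or_neg n
  · exact h.ord_nat (by simpa using hx)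
  · have := h.ord_nat (x := x⁻¹) (k := k) (by rw [map_inv₀, hx]; simp)
    rw [ordAt_inv] at this
    omega

lemma DV.val_eq (h : DV V π) {x : F} (hx : x ≠ 0) :
    V.valuation x = V.valuation π ^ ordAt V x := by
  obtain ⟨n, hn⟩ := h.pw x hx
  rw [h.ord_eq hn, hn]

lemma DV.maximal (h : DV V π) (hle : V ≤ W) (hW : W ≠ ⊤) : V = W := by
  refine le_antisymm hle fun y hy => ?_
  by_contra hn
  have hy0 : y ≠ 0 := by
    rintro rfl
    exact hn V.zero_mem
  have h1 : V.valuation y⁻¹ < 1 := (val_lt_iff V _).mpr (Or.inr (by rwa [inv_inv]))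
  have h2 := (val_le_iff V _ h.un.1).mp (h.un.2.2 _ h1)
  have h3 : π⁻¹ ∈ W := by
    have := W.mul_mem _ _ hy (hle h2)
    rwa [div_eq_mul_inv, mul_inv_cancel_left₀ hy0] at this
  have h4 : π ∈ W := hle ((V.valuation_le_one_iff _).mp h.un.2.1.le)
  refine hW (top_le_iff.mp fun x _ => ?_)
  by_cases hx : x = 0
  · rw [hx]; exact W.zero_mem
  obtain ⟨n, hn⟩ := h.pw x hx
  rw [← map_zpow₀, V.valuation_eq_iff] at hn
  obtain ⟨a, rfl⟩ := hn
  refine W.mul_mem _ _ (hle (a : V).2) ?_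
  obtain ⟨k, rfl | rfl⟩ := Int.eq_nat_or_neg n
  · simpa using pow_mem h4 k
  · simpa using pow_mem h3 k

/-- A valuation with integer values gives a discrete place. -/
lemma exists_DV (v : Valuation F (WithZero (Multiplicative ℤ)))
    (hk : ∀ c, v (algebraMap Qbar F c) ≤ 1) {t : F} (h0 : t ≠ 0) (ht : v t < 1) :
    ∃ (π : F) (e : ℕ), DV v.valuationSubring π ∧
      ∀ x, x ≠ 0 → v x = WithZero.exp (-(e * ordAt v.valuationSubring x)) := by
  have hex : ∃ e : ℕ, 0 < e ∧ ∃ x, v x = WithZero.exp (-(e : ℤ)) := by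
    have h1 : v t ≠ 0 := by simpa using h0
    have h2 : WithZero.log (v t) < 0 := by
      rwa [← WithZero.exp_log h1, ← WithZero.exp_zero, WithZero.exp_lt_exp] at ht
    refine ⟨(-WithZero.log (v t)).toNat, by omega, t, ?_⟩
    rw [Int.toNat_of_nonneg (by omega), neg_neg, WithZero.exp_log h1]
  obtain ⟨he, π, hπ⟩ := Nat.find_spec hex
  have hmin : ∀ m : ℕ, m < Nat.find hex → ¬ (0 < m ∧ ∃ x, v x = WithZero.exp (-(m : ℤ))) :=
    fun m => Nat.find_min hex
  generalize Nat.find hex = e at he hπ hmin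
  have hπ0 : π ≠ 0 := by
    rintro rfl
    rw [map_zero] at hπ
    exact WithZero.exp_ne_zero hπ.symm
  have key : ∀ x, x ≠ 0 → ∃ n : ℤ, v x = WithZero.exp (-(e * n)) := by
    intro x hx
    have h1 : v x ≠ 0 := by simpa using hx
    set m := -WithZero.log (v x) with hm
    have h2 : v x = WithZero.exp (-m) := by rw [hm, neg_neg, WithZero.exp_log h1]
    have h3 : 0 ≤ m % e := Int.emod_nonneg _ (by omega)
    have h4 : m % e < e := Int.emod_lt_of_pos _ (by omega)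
    have h5 := Int.emod_add_mul_ediv m e
    have h6 : m % e = 0 := by
      by_contra hne
      refine hmin (m % e).toNat (by omega) ⟨by omega, x / π ^ (m / e), ?_⟩
      rw [map_div₀, map_zpow₀, h2, hπ, ← WithZero.exp_zsmul, ← WithZero.exp_sub,
        Int.toNat_of_nonneg h3]
      congr 1
      rw [smul_eq_mul]
      linear_combination h5
    exact ⟨m / e, by rw [h2]; congr 1; linear_combination h5 - h6⟩
  have eqv := v.isEquiv_valuation_valuationSubring
  have hpw : ∀ x (n : ℤ), v x = WithZero.exp (-(e * n)) →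
      v.valuationSubring.valuation x = v.valuationSubring.valuation π ^ n := by
    intro x n hn
    rw [← map_zpow₀, ← eqv.eq_iff, map_zpow₀, hn, hπ, ← WithZero.exp_zsmul]
    congr 1
    rw [smul_eq_mul]
    ring
  have hlt : v π < 1 := by
    rw [hπ, ← WithZero.exp_zero, WithZero.exp_lt_exp]; omega
  have hD : DV v.valuationSubring π := by
    refine ⟨⟨fun htop => ?_, hk⟩, ⟨hπ0, eqv.lt_one_iff_lt_one.mp hlt, fun z hz => ?_⟩,
      fun x hx => (key x hx).imp fun n => hpw x n⟩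
    · have : π⁻¹ ∈ v.valuationSubring := by rw [htop]; trivial
      exact ((val_lt_iff _ π).mp (eqv.lt_one_iff_lt_one.mp hlt)).resolve_left hπ0 this
    · by_cases hz0 : z = 0
      · simp [hz0]
      obtain ⟨n, hn⟩ := key z hz0
      rw [← eqv.lt_one_iff_lt_one, hn, ← WithZero.exp_zero, WithZero.exp_lt_exp] at hz
      rw [← eqv, hn, hπ, WithZero.exp_le_exp]
      have : 0 < n := by
        by_contra hle
        nlinarith
      nlinarith
  refine ⟨π, e, hD, fun x hx => ?_⟩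
  obtain ⟨n, hn⟩ := key x hx
  rw [hD.ord_eq (hpw x n hn), hn]

lemma exists_avoid {I : Type} (T : Finset I) (bad : I → Qbar → Prop)
    (h : ∀ i ∈ T, ∀ c c', bad i c → bad i c' → c = c') : ∃ c, ∀ i ∈ T, ¬ bad i c := by
  have : (⋃ i ∈ T, {c | bad i c}).Finite :=
    T.finite_toSet.biUnion fun i hi => Set.Subsingleton.finite fun c hc c' hc' => h i hi c c' hc hc'
  obtain ⟨c, hc⟩ := this.exists_notMem
  exact ⟨c, fun i hi hb => hc (Set.mem_biUnion hi hb)⟩

lemma exists_inv_sub (T : Finset (ValuationSubring F)) (hT : ∀ U ∈ T, IsPlace U) (x : F) :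
    ∃ c : Qbar, ∀ U ∈ T, x - algebraMap Qbar F c ≠ 0 ∧ (x - algebraMap Qbar F c)⁻¹ ∈ U := by
  obtain ⟨c, hc⟩ := exists_avoid T (fun U c => Sp U x c) fun U hU c c' => Sp.unique (hT U hU)
  refine ⟨c, fun U hU => ?_⟩
  have := hc U hU
  rw [Sp, val_lt_iff] at this
  tauto

lemma exists_comb (T : Finset (ValuationSubring F)) (hT : ∀ U ∈ T, IsPlace U) {y z : F}
    (hy : ∀ U ∈ T, y ∈ U) (hz : ∀ U ∈ T, z ∈ U)
    (h : ∀ U ∈ T, U.valuation y = 1 ∨ U.valuation z = 1) :
    ∃ c : Qbar, ∀ U ∈ T, U.valuation (y + algebraMap Qbar F c * z) = 1 := by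
  obtain ⟨c, hc⟩ := exists_avoid T (fun U c => U.valuation (y + algebraMap Qbar F c * z) < 1) (by
    intro U hU c c' h1 h2
    by_contra hne
    have h3 := U.valuation.map_sub_lt h1 h2
    have e : y + algebraMap Qbar F c * z - (y + algebraMap Qbar F c' * z) =
        algebraMap Qbar F (c - c') * z := by rw [map_sub]; ring
    rw [e, map_mul, (hT U hU).val_eq (sub_ne_zero.mpr hne), one_mul] at h3
    have h4 : U.valuation (algebraMap Qbar F c * z) < 1 := by
      rw [map_mul, mul_comm]; exact mul_lt_one_of_lt_of_le h3 ((hT U hU).val_le c)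
    have h5 := U.valuation.map_sub_lt h1 h4
    rw [add_sub_cancel_right] at h5
    rcases h U hU with h6 | h6
    · exact h5.ne h6
    · exact h3.ne h6)
  refine ⟨c, fun U hU => le_antisymm ?_ (not_lt.mp (hc U hU))⟩
  exact (U.valuation_le_one_iff _).mpr (add_mem (hy U hU) (mul_mem ((hT U hU).2 c) (hz U hU)))

/-- Approximation. -/
lemma exists_unit (T : Finset (ValuationSubring F)) (hT : ∀ U ∈ T, IsPlace U) (hW : IsPlace W)
    (T' : Finset (ValuationSubring F)) (hs : T' ⊆ T) (hn : ∀ U ∈ T', ¬ U ≤ W) :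
    ∃ z, W.valuation z < 1 ∧ (∀ U ∈ T, z ∈ U) ∧ ∀ U ∈ T', U.valuation z = 1 := by
  induction T' using Finset.induction_on with
  | empty => exact ⟨0, by simp, fun U _ => U.zero_mem, by simp⟩
  | insert U₁ T' _ ih =>
    obtain ⟨y, h1, h2, h3⟩ := ih (fun U hU => hs (Finset.mem_insert_of_mem hU))
      fun U hU => hn U (Finset.mem_insert_of_mem hU)
    have hU₁ := hs (Finset.mem_insert_self _ _)
    obtain ⟨x, hx1, hx2⟩ := SetLike.not_le_iff_exists.mp (hn U₁ (Finset.mem_insert_self _ _))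
    obtain ⟨c, hc⟩ := exists_inv_sub T hT x
    have z1 : W.valuation (x - algebraMap Qbar F c)⁻¹ < 1 := by
      refine (val_lt_iff W _).mpr (Or.inr fun hm => hx2 ?_)
      rw [inv_inv] at hm
      simpa using add_mem hm (hW.2 c)
    have z2 : U₁.valuation (x - algebraMap Qbar F c)⁻¹ = 1 :=
      (val_eq_iff _ _).mpr ⟨(hc _ hU₁).2, inv_ne_zero (hc _ hU₁).1, by
        rw [inv_inv]; exact sub_mem hx1 ((hT _ hU₁).2 c)⟩
    obtain ⟨c', hc'⟩ := exists_comb (insert U₁ T') (fun U hU => hT U (hs hU))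
      (fun U hU => h2 U (hs hU)) (fun U hU => (hc U (hs hU)).2) (by
        intro U hU
        rcases Finset.mem_insert.mp hU with rfl | hU
        · exact Or.inr z2
        · exact Or.inl (h3 U hU))
    refine ⟨_, W.valuation.map_add_lt h1 ?_, fun U hU =>
      add_mem (h2 U hU) (mul_mem ((hT U hU).2 c') (hc U hU).2), hc'⟩
    rw [map_mul, mul_comm]
    exact mul_lt_one_of_lt_of_le z1 (hW.val_le c')

lemma sp_of_val_lt (hW : IsPlace W) {x : F} {f : Qbar[X]} (hf : f ≠ 0)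
    (h : W.valuation (aeval x f) < 1) : ∃ r, Sp W x r := by
  by_contra hn
  push Not at hn
  refine absurd h (not_lt.mpr ?_)
  rw [(IsAlgClosed.splits f).eq_prod_roots, map_mul, map_mul, aeval_C,
    hW.val_eq (leadingCoeff_ne_zero.mpr hf), one_mul, map_multiset_prod, map_multiset_prod]
  refine Multiset.one_le_prod_of_one_le fun a ha => ?_
  simp only [Multiset.map_map, Multiset.mem_map, Function.comp_apply] at ha
  obtain ⟨r, -, rfl⟩ := ha
  simpa [Sp] using hn r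

lemma sp_zpow (hV : IsPlace V) {g : F} {c : Qbar} (h : Sp V g c) (hc : c ≠ 0) (n : ℤ) :
    Sp V (g ^ n) (c ^ n) := by
  obtain ⟨k, rfl | rfl⟩ := Int.eq_nat_or_neg n
  · simpa using h.pow hV k
  · simpa using (h.pow hV k).inv hV (pow_ne_zero k hc)

lemma mem_of_monic {Φ : F[X]} (hm : Φ.Monic) (hc : ∀ n, Φ.coeff n ∈ W) {x : F}
    (hx : Φ.eval x = 0) : x ∈ W := by
  have h1 : Φ ∈ Polynomial.lifts (algebraMap W F) :=
    Φ.lifts_iff_coeff_lifts.mpr fun n => ⟨⟨_, hc n⟩, rfl⟩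
  obtain ⟨p, hp1, -, hp2⟩ := Polynomial.lifts_and_natDegree_eq_and_monic h1 hm
  obtain ⟨y, rfl⟩ := IsIntegrallyClosed.isIntegral_iff.mp
    (⟨p, hp2, by rw [← eval_map, hp1, hx]⟩ : IsIntegral W x)
  exact y.2

/-- A Galois cover of the line with coordinate `u`. -/
structure Cov (G : Type) [Group G] [MulSemiringAction G F] (u : F) : Prop where
  cst : ∀ (g : G) c, g • algebraMap Qbar F c = algebraMap Qbar F c
  fu : ∀ g : G, g • u = u
  tr : Transcendental Qbar u
  fix : ∀ x : F, (∀ g : G, g • x = x) → ∃ p q : Qbar[X], q ≠ 0 ∧ x * aeval u q = aeval u p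

variable {G : Type} [Group G] [Fintype G] [MulSemiringAction G F] {u : F} {c : Qbar}

lemma smul_lt (g : G) (x : F) : (g⁻¹ • V).valuation x < 1 ↔ V.valuation (g • x) < 1 := by
  rw [val_lt_iff, val_lt_iff, ValuationSubring.mem_inv_pointwise_smul_iff, smul_inv'',
    smul_eq_zero_iff_eq]

lemma smul_eq (g : G) (x : F) : (g⁻¹ • V).valuation x = 1 ↔ V.valuation (g • x) = 1 := by
  rw [val_eq_iff, val_eq_iff, ValuationSubring.mem_inv_pointwise_smul_iff,
    ValuationSubring.mem_inv_pointwise_smul_iff, smul_inv'', smul_ne_zero_iff_ne]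

lemma Cov.place (h : Cov G u) (hV : IsPlace V) (g : G) : IsPlace (g • V) := by
  refine ⟨fun e => hV.1 (top_le_iff.mp fun x _ => ?_), fun c => ?_⟩
  · rw [← ValuationSubring.smul_mem_pointwise_smul_iff (g := g), e]; trivial
  · rw [ValuationSubring.mem_pointwise_smul_iff_inv_smul_mem, h.cst]; exact hV.2 c

lemma Cov.sp_smul (h : Cov G u) (g : G) (x : F) (r : Qbar) :
    Sp (g⁻¹ • V) x r ↔ Sp V (g • x) r := by
  rw [Sp, Sp, smul_lt, smul_sub, h.cst]

lemma Cov.aeval_ne (h : Cov G u) {p : Qbar[X]} (hp : p ≠ 0) : aeval u p ≠ 0 :=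
  fun e => h.tr ⟨p, hp, e⟩

lemma Cov.t_ne (h : Cov G u) (c : Qbar) : u - algebraMap Qbar F c ≠ 0 := by
  simpa using h.aeval_ne (X_sub_C_ne_zero c)

lemma Cov.poly_fac (h : Cov G u) (c : Qbar) {p : Qbar[X]} (hp : p ≠ 0) :
    ∃ (m : ℕ) (r : Qbar), r ≠ 0 ∧ ∀ W : ValuationSubring F, IsPlace W → Sp W u c →
      Sp W (aeval u p / (u - algebraMap Qbar F c) ^ m) r := by
  obtain ⟨q, e, hq⟩ := exists_eq_pow_rootMultiplicity_mul_and_not_dvd p hp c
  refine ⟨p.rootMultiplicity c, q.eval c, fun h0 => hq (dvd_iff_isRoot.mpr h0), fun W hW hs => ?_⟩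
  have : aeval u p / (u - algebraMap Qbar F c) ^ p.rootMultiplicity c = aeval u q := by
    rw [div_eq_iff (pow_ne_zero _ (h.t_ne c))]
    conv_lhs => rw [e]
    simp [mul_comm]
  rw [this]
  exact hs.aeval hW q

lemma Cov.fix_fac (h : Cov G u) (c : Qbar) {y : F} (hy : y ≠ 0) (hf : ∀ g : G, g • y = y) :
    ∃ (m : ℤ) (r : Qbar), r ≠ 0 ∧ ∀ W : ValuationSubring F, IsPlace W → Sp W u c →
      Sp W (y / (u - algebraMap Qbar F c) ^ m) r := by
  obtain ⟨p, q, hq, e⟩ := h.fix y hf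
  have hq' := h.aeval_ne hq
  have hp : p ≠ 0 := by
    rintro rfl
    exact mul_ne_zero hy hq' (by simpa using e)
  obtain ⟨m, r, hr, h1⟩ := h.poly_fac c hp
  obtain ⟨m', r', hr', h2⟩ := h.poly_fac c hq
  refine ⟨m - m', r / r', div_ne_zero hr hr', fun W hW hs => ?_⟩
  convert (h1 W hW hs).div hW (h2 W hW hs) hr' using 1
  have := h.t_ne c
  rw [← e, zpow_sub₀ this, zpow_natCast, zpow_natCast]
  field_simp

lemma Cov.sp_of_fix (h : Cov G u) (hV : IsPlace V) (hs : Sp V u c) {y : F}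
    (hf : ∀ g : G, g • y = y) (hm : y ∈ V) :
    ∃ r, ∀ W : ValuationSubring F, IsPlace W → Sp W u c → Sp W y r := by
  by_cases hy : y = 0
  · exact ⟨0, fun W _ _ => by simp [hy, Sp]⟩
  obtain ⟨m, r, hr, h1⟩ := h.fix_fac c hy hf
  have ht := h.t_ne c
  have h0 : 0 < V.valuation (u - algebraMap Qbar F c) := zero_lt_iff.mpr (by simpa using ht)
  have h2 := (h1 V hV hs).val_eq hV hr
  rw [map_div₀, map_zpow₀, div_eq_one_iff_eq (zpow_pos h0 m).ne'] at h2
  have h3 := (V.valuation_le_one_iff y).mpr hm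
  rw [h2, zpow_le_one_iff_right_of_lt_one₀ h0 hs] at h3
  lift m to ℕ using h3
  refine ⟨r * 0 ^ m, fun W hW hs' => ?_⟩
  have h4 : Sp W (u - algebraMap Qbar F c) 0 := Sp.zero_iff.mpr hs'
  convert (h1 W hW hs').mul hW (h4.pow hW m) using 1
  rw [zpow_natCast, div_mul_cancel₀ _ (pow_ne_zero _ ht)]

lemma coeff_mem {x : F} (hx : ∀ g : G, g • x ∈ V) (n : ℕ) :
    (MulSemiringAction.charpoly G x).coeff n ∈ V := by
  have : MulSemiringAction.charpoly G x ∈ Polynomial.lifts (algebraMap V F) :=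
    prod_mem fun g _ => ⟨X - C ⟨_, hx g⟩, by simp⟩
  obtain ⟨y, hy⟩ := (lifts_iff_coeff_lifts _).mp this n
  rw [← hy]
  exact y.2

lemma Cov.mem_of_all (h : Cov G u) (hV : IsPlace V) (hs : Sp V u c) (hW : IsPlace W)
    (hs' : Sp W u c) {x : F} (hx : ∀ g : G, g • x ∈ V) : x ∈ W := by
  refine mem_of_monic (MulSemiringAction.monic_charpoly G x) (fun n => ?_)
    (MulSemiringAction.eval_charpoly G x)
  obtain ⟨r, hr⟩ := h.sp_of_fix hV hs (MulSemiringAction.smul_coeff_charpoly x n) (coeff_mem hx n)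
  exact (hr W hW hs').mem hW

lemma Cov.sp_of_all (h : Cov G u) (hV : IsPlace V) (hs : Sp V u c) {x : F}
    (hx : ∀ g : G, g • x ∈ V) : ∃ r, Sp V x r := by
  choose r hr using fun n =>
    h.sp_of_fix hV hs (MulSemiringAction.smul_coeff_charpoly x n) (coeff_mem hx n)
  set Φ := MulSemiringAction.charpoly G x with hΦ
  have hm : Φ.Monic := MulSemiringAction.monic_charpoly G x
  have h1 : r Φ.natDegree = 1 := by
    have := hr Φ.natDegree V hV hs
    rw [hm.coeff_natDegree] at this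
    exact this.unique hV (Sp.one V)
  refine sp_of_val_lt hV (f := ∑ i ∈ Finset.range (Φ.natDegree + 1), monomial i (r i)) ?_ ?_
  · intro e
    have := congrArg (fun f => Polynomial.coeff f Φ.natDegree) e
    simp [coeff_monomial, h1] at this
  · have e0 : Φ.eval x = 0 := MulSemiringAction.eval_charpoly G x
    rw [← Valuation.map_neg, ← zero_add (-_), ← e0, eval_eq_sum_range, map_sum, ← sub_eq_add_neg,
      ← Finset.sum_sub_distrib]
    refine Valuation.map_sum_lt _ one_ne_zero fun i _ => ?_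
    rw [aeval_monomial, ← sub_mul, map_mul]
    exact mul_lt_one_of_lt_of_le (hr i V hV hs)
      ((V.valuation_le_one_iff _).mpr (pow_mem (by simpa using hx 1) i))

/-- The conjugates of a place. -/
noncomputable def cj (G : Type) [Group G] [Fintype G] [MulSemiringAction G F]
    (V : ValuationSubring F) : Finset (ValuationSubring F) :=
  Finset.univ.image fun g : G => g⁻¹ • V

lemma mem_cj (g : G) : g⁻¹ • V ∈ cj G V := Finset.mem_image_of_mem _ (Finset.mem_univ g)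

lemma Cov.cj_place (h : Cov G u) (hV : IsPlace V) : ∀ U ∈ cj G V, IsPlace U := by
  intro U hU
  obtain ⟨g, -, rfl⟩ := Finset.mem_image.mp hU
  exact h.place hV _

lemma Cov.sp_of_mem (h : Cov G u) (hV : IsPlace V) (hs : Sp V u c) {x : F} (hx : x ∈ V) :
    ∃ r, Sp V x r := by
  obtain ⟨c', hc⟩ := exists_inv_sub (cj G V) (h.cj_place hV) x
  obtain ⟨r, hr⟩ := h.sp_of_all hV hs fun g =>
    ValuationSubring.mem_inv_pointwise_smul_iff.mp (hc _ (mem_cj g)).2
  have hr0 : r ≠ 0 := by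
    rintro rfl
    rw [Sp.zero_iff, val_lt_iff, inv_inv, inv_eq_zero] at hr
    exact hr.elim (hc _ (mem_cj 1)).1 fun hn => hn (sub_mem hx (hV.2 c'))
  exact ⟨_, by simpa using (hr.inv hV hr0).add (Sp.const V c')⟩

/-- The places above a point are conjugate. -/
lemma Cov.conj (h : Cov G u) (hV : DV V π) (hs : Sp V u c) (hW : IsPlace W) (hs' : Sp W u c) :
    ∃ g : G, W = g⁻¹ • V := by
  by_contra hn
  push Not at hn
  obtain ⟨z, h1, -, h3⟩ := exists_unit (cj G V) (h.cj_place hV.pl) hW _ subset_rfl (by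
    intro U hU hle
    obtain ⟨g, -, rfl⟩ := Finset.mem_image.mp hU
    rw [ValuationSubring.pointwise_smul_subset_iff, inv_inv] at hle
    refine hn g ?_
    rw [hV.maximal hle (h.place hW g).1, inv_smul_smul])
  have h4 := fun g : G => (val_eq_iff _ _).mp (h3 _ (mem_cj g))
  exact ((val_lt_iff W z).mp h1).elim (h4 1).2.1 fun hm => hm <|
    h.mem_of_all hV.pl hs hW hs' fun g =>
      ValuationSubring.mem_inv_pointwise_smul_iff.mp (h4 g).2.2

lemma Cov.exists_sp (h : Cov G u) (hW : IsPlace W) (hu : u ∈ W) : ∃ c, Sp W u c := by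
  by_contra hn
  refine hW.1 (top_le_iff.mp fun x _ => mem_of_monic (MulSemiringAction.monic_charpoly G x)
    (fun n => ?_) (MulSemiringAction.eval_charpoly G x))
  obtain ⟨p, q, hq, e⟩ := h.fix _ (MulSemiringAction.smul_coeff_charpoly (G := G) x n)
  have h1 : ¬ W.valuation (aeval u q) < 1 := fun hl => hn (sp_of_val_lt hW hq hl)
  rw [val_lt_iff, not_or, not_not] at h1
  rw [← eq_mul_inv_iff_mul_eq₀ h1.1] at e
  rw [e, aeval_eq_sum_range]
  refine mul_mem (sum_mem fun i _ => ?_) h1.2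
  rw [Algebra.smul_def]
  exact mul_mem (hW.2 _) (pow_mem hu i)

lemma smul_div' (g : G) (x y : F) : g • (x / y) = g • x / g • y := by
  rw [div_eq_mul_inv, smul_mul', smul_inv'', div_eq_mul_inv]

lemma smul_zpow' (g : G) (x : F) (n : ℤ) : g • x ^ n = (g • x) ^ n :=
  map_zpow₀ (MulSemiringAction.toRingHom G F g) x n

lemma DV.val_smul (hV : DV V π) {g : G} (hg : g • V = V) (x : F) :
    V.valuation (g • x) = V.valuation x := by
  have hg' : g⁻¹ • V = V := by rw [inv_smul_eq_iff, hg]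
  have h1 : V.valuation (g • π) = V.valuation π := by
    refine le_antisymm (hV.un.2.2 _ ((smul_lt g π).mp (by rw [hg']; exact hV.un.2.1))) ?_
    have := hV.un.2.2 _ ((smul_lt g⁻¹ π).mp (by rw [inv_inv, hg]; exact hV.un.2.1))
    rw [val_le_iff V _ hV.un.1, ← hg', ValuationSubring.mem_inv_pointwise_smul_iff, smul_div',
      smul_inv_smul] at this
    exact (val_le_iff V _ ((smul_ne_zero_iff_ne g).mpr hV.un.1)).mpr this
  by_cases hx : x = 0
  · simp [hx]
  obtain ⟨n, hn⟩ := hV.pw x hx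
  have h2 : V.valuation (x / π ^ n) = 1 := by
    rw [map_div₀, map_zpow₀, hn, div_self (zpow_pos hV.pos n).ne']
  rw [← hg', smul_eq, smul_div', smul_zpow', map_div₀, map_zpow₀, h1,
    div_eq_one_iff_eq (zpow_pos hV.pos n).ne'] at h2
  rw [h2, hn]

lemma Cov.sp_stab (h : Cov G u) {g : G} (hg : g • V = V) {x : F} {r : Qbar} (hx : Sp V x r) :
    Sp V (g • x) r := by
  rw [← h.sp_smul, inv_smul_eq_iff.mpr hg.symm]
  exact hx

lemma Cov.chi (h : Cov G u) (hV : DV V π) (hs : Sp V u c) {g : G} (hg : g • V = V) :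
    ∃ χ, χ ≠ 0 ∧ Sp V (g • π / π) χ := by
  have h1 : V.valuation (g • π / π) = 1 := by
    rw [map_div₀, hV.val_smul hg, div_self hV.pos.ne']
  obtain ⟨χ, hχ⟩ := h.sp_of_mem hV.pl hs ((V.valuation_le_one_iff _).mp h1.le)
  refine ⟨χ, ?_, hχ⟩
  rintro rfl
  exact (Sp.zero_iff.mp hχ).ne h1

lemma Cov.sp_ratio (h : Cov G u) (hV : DV V π) (hs : Sp V u c) {g : G} (hg : g • V = V)
    {χ : Qbar} (h0 : χ ≠ 0) (hχ : Sp V (g • π / π) χ) {y : F} (hy : y ≠ 0) :
    Sp V (g • y / y) (χ ^ ordAt V y) := by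
  have h2 : V.valuation (y / π ^ ordAt V y) = 1 := by
    rw [map_div₀, map_zpow₀, ← hV.val_eq hy, div_self (by simpa using hy)]
  obtain ⟨r, hr⟩ := h.sp_of_mem hV.pl hs ((V.valuation_le_one_iff _).mp h2.le)
  have hr0 : r ≠ 0 := by
    rintro rfl
    exact (Sp.zero_iff.mp hr).ne h2
  have := (sp_zpow hV.pl hχ h0 (ordAt V y)).mul hV.pl ((h.sp_stab hg hr).div hV.pl hr hr0)
  rw [div_self hr0, mul_one] at this
  convert this using 1
  have h3 := zpow_ne_zero (ordAt V y) hV.un.1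
  have h4 := zpow_ne_zero (ordAt V y) ((smul_ne_zero_iff_ne g).mpr hV.un.1)
  rw [smul_div', smul_zpow', div_zpow]
  field_simp

lemma Cov.eq_one [FaithfulSMul G F] (h : Cov G u) (hV : DV V π) (hs : Sp V u c) {g : G}
    (hg : g • V = V) (hχ : Sp V (g • π / π) 1) : g = 1 := by
  refine FaithfulSMul.eq_of_smul_eq_smul (α := F) fun x => ?_
  rw [one_smul]
  by_contra hne
  have hy : g • x - x ≠ 0 := sub_ne_zero.mpr hne
  have h1 : ∀ i : ℕ, Sp V (g ^ i • (g • x - x) / (g • x - x)) 1 := by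
    intro i
    induction i with
    | zero => simpa [hy] using Sp.one V
    | succ i ih =>
      have h2 := (smul_ne_zero_iff_ne (g ^ i)).mpr hy
      have := (h.sp_ratio hV hs hg one_ne_zero hχ h2).mul hV.pl ih
      rw [one_zpow, mul_one, div_mul_div_cancel₀ h2] at this
      rwa [pow_succ', mul_smul]
  have h2 : ∀ n : ℕ, Sp V ((g ^ n • x - x) / (g • x - x)) n := by
    intro n
    induction n with
    | zero => simp [Sp]
    | succ n ih =>
      convert ih.add (h1 n) using 1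
      · rw [pow_succ, mul_smul, smul_sub]; ring
      · simp
  have h3 := h2 (orderOf g)
  rw [pow_orderOf_eq_one, one_smul, sub_self, zero_div] at h3
  exact h3.ne_zero hV.pl (Nat.cast_ne_zero.mpr (orderOf_pos g).ne') rfl

lemma Cov.ord_pos (h : Cov G u) (hV : DV V π) (hs : Sp V u c) :
    0 < ordAt V (u - algebraMap Qbar F c) := by
  rwa [Sp, hV.val_eq (h.t_ne c), zpow_lt_one_iff_right_of_lt_one₀ hV.pos hV.un.2.1] at hs

lemma Cov.card_le [FaithfulSMul G F] (h : Cov G u) (hV : DV V π) (hs : Sp V u c) :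
    (Nat.card (MulAction.stabilizer G V) : ℤ) ≤ ordAt V (u - algebraMap Qbar F c) := by
  choose χ h0 hχ using fun g : MulAction.stabilizer G V => h.chi hV hs g.2
  have hp := h.ord_pos hV hs
  obtain ⟨n, hn⟩ := Int.eq_ofNat_of_zero_le hp.le
  have hn0 : 0 < n := by omega
  have h1 : ∀ g, χ g ∈ (nthRoots n (1 : Qbar)).toFinset := by
    intro g
    have := h.sp_ratio hV hs g.2 (h0 g) (hχ g) (h.t_ne c)
    rw [smul_sub, h.fu, h.cst, div_self (h.t_ne c), hn, zpow_natCast] at this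
    rw [Multiset.mem_toFinset, mem_nthRoots hn0]
    exact this.unique hV.pl (Sp.one V)
  have h2 : Function.Injective fun g => (⟨χ g, h1 g⟩ : (nthRoots n (1 : Qbar)).toFinset) := by
    intro g g' e
    have e' : χ g = χ g' := congrArg Subtype.val e
    have h3 := h.sp_stab (g'⁻¹).2 ((hχ g).div hV.pl (hχ g') (h0 g'))
    rw [e', div_self (h0 g'), div_div_div_cancel_right₀ hV.un.1, smul_div', ← mul_smul,
      ← mul_smul, Subgroup.coe_inv, inv_mul_cancel, one_smul] at h3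
    have h4 := h.eq_one hV hs (g'⁻¹ * g).2 h3
    exact Subtype.ext (inv_mul_eq_one.mp h4).symm
  have h3 := Nat.card_le_card_of_injective _ h2
  rw [Nat.card_eq_finsetCard] at h3
  rw [hn]
  exact_mod_cast h3.trans ((Multiset.toFinset_card_le _).trans (card_nthRoots n 1))

lemma Cov.card_dvd (h : Cov G u) (hV : DV V π) (hs : Sp V u c) :
    ordAt V (u - algebraMap Qbar F c) ∣ (Nat.card (MulAction.stabilizer G V) : ℤ) := by
  have hT := h.cj_place hV.pl
  have hE : ∀ U ∈ (cj G V).erase V, IsPlace U := fun U hU => hT U (Finset.mem_of_mem_erase hU)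
  have hV1 : V ∈ cj G V := by simpa using mem_cj (V := V) (1 : G)
  obtain ⟨z, z1, z2, z3⟩ := exists_unit (cj G V) hT hV.pl _ (Finset.erase_subset V _) (by
    intro U hU hle
    obtain ⟨hne, hU⟩ := Finset.mem_erase.mp hU
    obtain ⟨g, -, rfl⟩ := Finset.mem_image.mp hU
    rw [ValuationSubring.pointwise_smul_subset_iff, inv_inv] at hle
    refine hne ?_
    rw [inv_smul_eq_iff]
    exact hV.maximal hle (h.place hV.pl g).1)
  obtain ⟨c', hc⟩ := exists_inv_sub (cj G V) hT π⁻¹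
  have h1 : V.valuation (π⁻¹ - algebraMap Qbar F c')⁻¹ = V.valuation π := by
    rw [map_inv₀, Valuation.map_sub_eq_of_lt_left, map_inv₀, inv_inv]
    rw [map_inv₀]
    exact (hV.pl.val_le c').trans_lt (one_lt_inv_iff₀.mpr ⟨hV.pos, hV.un.2.1⟩)
  obtain ⟨c'', hx⟩ := exists_comb _ hE (fun U hU => (hc U (Finset.mem_of_mem_erase hU)).2)
    (z := z * z) (fun U hU => mul_mem (z2 U (Finset.mem_of_mem_erase hU))
      (z2 U (Finset.mem_of_mem_erase hU))) fun U hU => Or.inr (by rw [map_mul, z3 U hU, one_mul])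
  set x := (π⁻¹ - algebraMap Qbar F c')⁻¹ + algebraMap Qbar F c'' * (z * z) with hxd
  have h2 : V.valuation x = V.valuation π := by
    rw [hxd, Valuation.map_add_eq_of_lt_left, h1]
    rw [h1, map_mul, map_mul]
    calc _ ≤ 1 * (V.valuation z * V.valuation π) := by
          gcongr
          · exact hV.pl.val_le c''
          · exact hV.un.2.2 z z1
      _ < V.valuation π := by rw [one_mul]; exact mul_lt_of_lt_one_left hV.pos z1
  have hx0 : x ≠ 0 := by
    intro e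
    rw [e, map_zero] at h2
    exact hV.pos.ne h2
  have h3 : V.valuation (∏ g : G, g • x) =
      V.valuation π ^ (Nat.card (MulAction.stabilizer G V) : ℤ) := by
    rw [map_prod, zpow_natCast, Nat.card_eq_fintype_card, Fintype.card_subtype,
      ← Finset.prod_const, Finset.prod_filter]
    refine Finset.prod_congr rfl fun g _ => ?_
    split_ifs with hg
    · rw [hV.val_smul hg, h2]
    · rw [← smul_eq]
      refine hx _ (Finset.mem_erase.mpr ⟨fun e => hg ?_, mem_cj g⟩)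
      exact (inv_smul_eq_iff.mp e).symm
  have hy0 : ∏ g : G, g • x ≠ 0 :=
    Finset.prod_ne_zero_iff.mpr fun g _ => (smul_ne_zero_iff_ne g).mpr hx0
  obtain ⟨m, r, hr, h4⟩ := h.fix_fac c hy0 fun g : G => Finset.smul_prod_perm x g
  have h5 := (h4 V hV.pl hs).val_eq hV.pl hr
  rw [map_div₀, map_zpow₀, hV.val_eq (h.t_ne c), ← zpow_mul,
    div_eq_one_iff_eq (zpow_pos hV.pos _).ne'] at h5
  exact ⟨m, (hV.ord_eq h3).symm.trans (hV.ord_eq h5)⟩

/-- The order of the decomposition group is the ramification index. -/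
lemma Cov.card_stab [FaithfulSMul G F] (h : Cov G u) (hV : DV V π) (hs : Sp V u c) :
    (Nat.card (MulAction.stabilizer G V) : ℤ) = ordAt V (u - algebraMap Qbar F c) :=
  le_antisymm (h.card_le hV hs) (Int.le_of_dvd (by exact_mod_cast Nat.card_pos) (h.card_dvd hV hs))

lemma Cov.curve (h : Cov G u) : IsCurveField F := by
  refine ⟨u, h.tr, ?_⟩
  have hle : ∀ x : FixedPoints.subfield G F, (x : F) ∈ IntermediateField.adjoin Qbar {u} := by
    intro x
    obtain ⟨p, q, hq, e⟩ := h.fix x x.2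
    rw [IntermediateField.mem_adjoin_simple_iff]
    exact ⟨p, q, by rw [eq_div_iff (h.aeval_ne hq), e]⟩
  let _ : Algebra (FixedPoints.subfield G F) (IntermediateField.adjoin Qbar {u}) :=
    ((FixedPoints.subfield G F).subtype.codRestrict _ hle).toAlgebra
  have : IsScalarTower (FixedPoints.subfield G F) (IntermediateField.adjoin Qbar {u}) F :=
    IsScalarTower.of_algebraMap_eq fun _ => rfl
  exact Module.Finite.of_restrictScalars_finite (FixedPoints.subfield G F) _ F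

end Pool.Agent.MP_9207e0_ag.hg.Modf

end MrgPart0

-- ======== part 1: formerly Pool.Agent.MP_9207e0_ag.hg.Modf
section MrgPart1

/-! The function field of the modular curve over the algebraic numbers. -/

set_option linter.unusedSectionVars false
set_option linter.unusedVariables false

namespace Pool.Agent.MP_9207e0_ag.hg

open UpperHalfPlane Complex Filter Asymptotics Matrix
open scoped Real MatrixGroups Manifold Classical Kronecker Pointwise

namespace Modf

/-- Modular functions that are integral over `ℚ[j]`. -/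
def AA (N : ℕ) : Subring (ℍ → ℂ) where
  carrier := {w | w ∈ Mod N ∧ IntJ w}
  mul_mem' := fun ha hb => ⟨mul_mem ha.1 hb.1, IsIntegral.mul ha.2 hb.2⟩
  one_mem' := ⟨one_mem _, isIntegral_one⟩
  add_mem' := fun ha hb => ⟨add_mem ha.1 hb.1, IsIntegral.add ha.2 hb.2⟩
  zero_mem' := ⟨zero_mem _, isIntegral_zero⟩
  neg_mem' := fun ha => ⟨neg_mem ha.1, IsIntegral.neg ha.2⟩

variable {N : ℕ}

lemma hol (a : AA N) : Hol a.1 := a.2.1.1

lemma val_ne {a : AA N} (ha : a ≠ 0) : a.1 ≠ 0 := fun e => ha (Subtype.ext e)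

instance (N : ℕ) : IsDomain (AA N) := by
  have : NoZeroDivisors (AA N) := ⟨fun {a b} e => by
    by_contra hn
    rw [not_or] at hn
    exact (hol a).mul_ne_zero (hol b) (val_ne hn.1) (val_ne hn.2) (congrArg Subtype.val e)⟩
  exact NoZeroDivisors.to_isDomain _

lemma alg_iota (ι : Qbar →+* ℂ) (c : Qbar) : IsAlgebraic ℚ (ι c) := by
  have h : (DivisionRing.toRatAlgebra : Algebra ℚ Qbar) = AlgebraicClosure.instAlgebra ℚ :=
    Subsingleton.elim _ _
  have k := AlgebraicClosure.isAlgebraic ℚ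
  rw [← h] at k
  exact (k.isAlgebraic c).algHom ι.toRatAlgHom

lemma qv_spec (ι : Qbar →+* ℂ) {z : ℂ} (hz : IsAlgebraic ℚ z) : ι (qv ι z) = z := by
  have : ∃ x, ι x = z := by
    obtain ⟨p, hp, e⟩ := hz
    refine (IsAlgClosed.splits (p.map (Rat.castHom Qbar))).mem_range_of_isRoot
      (Polynomial.map_ne_zero hp) ?_
    rw [Polynomial.map_map, Polynomial.IsRoot, Polynomial.eval_map,
      Subsingleton.elim (ι.comp (Rat.castHom Qbar)) (algebraMap ℚ ℂ)]
    exact e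
  rw [qv, dif_pos this]
  exact this.choose_spec

/-- The constants. -/
noncomputable def cst (ι : Qbar →+* ℂ) (N : ℕ) : Qbar →+* AA N :=
  ((algebraMap ℂ (ℍ → ℂ)).comp ι).codRestrict _ fun c =>
    ⟨(Mod N).algebraMap_mem _, IsIntegral.tower_top (R := ℚ)
      ((alg_iota ι c).isIntegral.map (IsScalarTower.toAlgHom ℚ ℂ (ℍ → ℂ)))⟩

@[simp] lemma cst_apply (ι : Qbar →+* ℂ) (c : Qbar) (τ : ℍ) : (cst ι N c).1 τ = ι c := rfl

/-- The modular invariant. -/
noncomputable def jA (hB : QB) (N : ℕ) : AA N :=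
  ⟨jf, hB.mod_level (one_dvd N) hB.j_mod,
    isIntegral_algebraMap (x := (⟨jf, Algebra.self_mem_adjoin_singleton ℚ jf⟩ :
      Algebra.adjoin ℚ {(jf : ℍ → ℂ)}))⟩

lemma eval_jA (hB : QB) (ι : Qbar →+* ℂ) (p : Polynomial Qbar) (τ : ℍ) :
    (p.eval₂ (cst ι N) (jA hB N)).1 τ = (p.map ι).eval (jf τ) := by
  rw [Polynomial.eval_map]
  exact Polynomial.hom_eval₂ p (cst ι N)
    ((Pi.evalRingHom (fun _ : ℍ => ℂ) τ).comp (AA N).subtype) (jA hB N)

lemma comp_mem (hC : JC) (w : AA N) (g : SL2) : (fun τ => w.1 (g • τ)) ∈ AA N :=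
  ⟨comp_SL_mem_Mod w.2.1 g, by simpa only [mob_SL] using hC.intJ_mob (det_SL_pos g) w.2.2⟩

/-- The action of the modular group. -/
noncomputable def act (hC : JC) (N : ℕ) : SL2 →* (AA N ≃+* AA N) where
  toFun g :=
    { toFun := fun w => ⟨fun τ => w.1 (g⁻¹ • τ), comp_mem hC w g⁻¹⟩
      invFun := fun w => ⟨fun τ => w.1 (g • τ), comp_mem hC w g⟩
      left_inv := fun w => Subtype.ext (funext fun τ => by simp)
      right_inv := fun w => Subtype.ext (funext fun τ => by simp)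
      map_mul' := fun _ _ => rfl
      map_add' := fun _ _ => rfl }
  map_one' := RingEquiv.ext fun w => Subtype.ext (funext fun τ => by
    change w.1 (1⁻¹ • τ) = w.1 τ
    simp)
  map_mul' g g' := RingEquiv.ext fun w => Subtype.ext (funext fun τ => by
    change w.1 ((g * g')⁻¹ • τ) = w.1 (g'⁻¹ • g⁻¹ • τ)
    rw [_root_.mul_inv_rev, mul_smul])

lemma act_apply (hC : JC) (g : SL2) (w : AA N) (τ : ℍ) : (act hC N g w).1 τ = w.1 (g⁻¹ • τ) := rfl

lemma inv_poly (hB : QB) (hJ : JA) (hC : JC) (ι : Qbar →+* ℂ) (w : AA N)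
    (hw : ∀ g, act hC N g w = w) : ∃ p : Polynomial Qbar, w = p.eval₂ (cst ι N) (jA hB N) := by
  obtain ⟨P, hP⟩ := hJ.poly w.1 ⟨hol w, fun γ _ τ => by
    rw [← congrArg (fun x : AA N => x.1 τ) (hw γ⁻¹), act_apply, inv_inv], w.2.1.2.2⟩
  have h1 : ∀ n : ℕ, IsAlgebraic ℚ (P.eval (n : ℂ)) := by
    intro n
    obtain ⟨τ, hτ⟩ := hJ.surj n
    rw [← hτ, ← hP]
    exact hC.alg_val w.2.2 (by rw [hτ]; exact isAlgebraic_natCast n)
  let s := Finset.range (P.natDegree + 1)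
  have hi : Set.InjOn (fun n : ℕ => (n : Qbar)) s := Nat.cast_injective.injOn
  have hi' : Set.InjOn (fun n : ℕ => (n : ℂ)) s := Nat.cast_injective.injOn
  refine ⟨Lagrange.interpolate s (fun n : ℕ => (n : Qbar)) fun n => qv ι (P.eval (n : ℂ)),
    Subtype.ext (funext fun τ => ?_)⟩
  rw [eval_jA, hP]
  congr 1
  refine Polynomial.eq_of_degrees_lt_of_eval_index_eq s hi' ?_ ?_ fun n hn => ?_
  · refine Polynomial.degree_le_natDegree.trans_lt ?_
    rw [Finset.card_range]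
    exact_mod_cast Nat.lt_succ_self _
  · exact Polynomial.degree_map_le.trans_lt (Lagrange.degree_interpolate_lt _ hi)
  · rw [← map_natCast ι n, Polynomial.eval_map, Polynomial.eval₂_at_apply,
      Lagrange.eval_interpolate_at_node _ hi hn, qv_spec ι (h1 n), map_natCast]

lemma coe_ord {a : AA N} (ha : a ≠ 0) (τ : ℍ) : (ord a.1 τ : ℕ∞) = ordE a.1 τ :=
  ENat.natCast_toNat (ordE_ne_top (hol a) (val_ne ha) τ)

lemma ord_eq_zero {a : AA N} (ha : a ≠ 0) (τ : ℍ) : ord a.1 τ = 0 ↔ a.1 τ ≠ 0 := by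
  rw [← ordE_eq_zero (hol a), ← coe_ord ha, Nat.cast_eq_zero]

/-- The valuation at a point. -/
noncomputable def valA (N : ℕ) (τ : ℍ) : Valuation (AA N) (WithZero (Multiplicative ℤ)) where
  toFun a := if a = 0 then 0 else WithZero.exp (-(ord a.1 τ : ℤ))
  map_zero' := if_pos rfl
  map_one' := by
    rw [if_neg one_ne_zero, (ord_eq_zero (N := N) one_ne_zero τ).mpr (one_ne_zero (α := ℂ))]
    simp
  map_mul' a b := by
    by_cases ha : a = 0
    · simp [ha]
    by_cases hb : b = 0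
    · simp [hb]
    have h : ord (a * b).1 τ = ord a.1 τ + ord b.1 τ := by
      have := ordE_mul (hol a) (hol b) τ
      rw [← coe_ord ha, ← coe_ord hb] at this
      exact_mod_cast (coe_ord (mul_ne_zero ha hb) τ).trans this
    rw [if_neg ha, if_neg hb, if_neg (mul_ne_zero ha hb), h, ← WithZero.exp_add]
    congr 1
    push_cast
    ring
  map_add_le_max' a b := by
    by_cases ha : a = 0
    · simp [ha]
    by_cases hb : b = 0
    · simp [hb]
    by_cases hab : a + b = 0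
    · simp [hab]
    have h : min (ordE a.1 τ) (ordE b.1 τ) ≤ ordE (a + b).1 τ := le_analyticOrderAt_add
    rw [← coe_ord ha, ← coe_ord hb, ← coe_ord hab, min_le_iff, Nat.cast_le, Nat.cast_le] at h
    simp only [if_neg ha, if_neg hb, if_neg hab, le_max_iff, WithZero.exp_le_exp]
    omega

lemma valA_ne {a : AA N} (ha : a ≠ 0) (τ : ℍ) : valA N τ a = WithZero.exp (-(ord a.1 τ : ℤ)) :=
  if_neg ha

lemma valA_le (a : AA N) (τ : ℍ) : valA N τ a ≤ 1 := by
  by_cases ha : a = 0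
  · simp [ha]
  rw [valA_ne ha, ← WithZero.exp_zero, WithZero.exp_le_exp]
  omega

lemma valA_lt (a : AA N) (τ : ℍ) : valA N τ a < 1 ↔ a.1 τ = 0 := by
  by_cases ha : a = 0
  · simp [ha]
  rw [valA_ne ha, ← WithZero.exp_zero, WithZero.exp_lt_exp, ← not_ne_iff,
    ← ord_eq_zero ha]
  omega

lemma ord_act (hC : JC) (g : SL2) (a : AA N) (τ : ℍ) :
    ord (act hC N g a).1 τ = ord a.1 (g⁻¹ • τ) := by
  have := ordE_comp_mob a.1 (det_SL_pos g⁻¹) τ
  simp only [mob_SL] at this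
  exact congrArg ENat.toNat this

lemma valA_act (hC : JC) (g : SL2) (a : AA N) (τ : ℍ) :
    valA N τ (act hC N g a) = valA N (g⁻¹ • τ) a := by
  by_cases ha : a = 0
  · simp [ha]
  rw [valA_ne ha, valA_ne (by simpa using ha), ord_act]

lemma count (hO : ORB) (hN : 3 ≤ N) (D : Subgroup SL2) (τ₀ : ℍ)
    (hst : MulAction.stabilizer SL2 τ₀ ≤ D) (R : Finset ℍ) (h1 : ∀ τ ∈ R, ∃ g ∈ D, g • τ₀ = τ)
    (h2 : ∀ g ∈ D, ∃! τ, τ ∈ R ∧ relG N (g • τ₀) τ) :
    R.card * Nat.card (MulAction.stabilizer SL2 τ₀) = (Gam N).relIndex D := by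
  choose! g hg e using h1
  have nm := CongruenceSubgroup.Gamma_normal N
  rw [← Nat.card_eq_finsetCard, ← Nat.card_prod]
  refine Nat.card_congr (Equiv.ofBijective (fun p : R × MulAction.stabilizer SL2 τ₀ =>
    (QuotientGroup.mk ⟨g p.1 * p.2, mul_mem (hg _ p.1.2) (hst p.2.2)⟩ :
      D ⧸ (Gam N).subgroupOf D)) ⟨?_, ?_⟩)
  · rintro ⟨⟨τ, hτ⟩, ⟨s, hs⟩⟩ ⟨⟨τ', hτ'⟩, ⟨s', hs'⟩⟩ h
    rw [QuotientGroup.eq, Subgroup.mem_subgroupOf] at h
    have h3 : (g τ * s)⁻¹ * (g τ' * s') ∈ Gam N := h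
    rw [MulAction.mem_stabilizer_iff] at hs hs'
    obtain rfl : τ = τ' := by
      refine (h2 _ (hg τ hτ)).unique ⟨hτ, 1, one_mem _, by rw [one_smul, e τ hτ]⟩
        ⟨hτ', _, nm.conj_mem _ h3 (g τ * s), ?_⟩
      conv_lhs => rw [← hs]
      rw [← mul_smul, ← mul_smul, mul_inv_cancel_left, mul_assoc (g τ' * s' * _),
        inv_mul_cancel_right, mul_smul, hs', e τ' hτ']
    have h4 := hO.free N _ τ₀ hN h3 (by
      rw [mul_smul, inv_smul_eq_iff, mul_smul, mul_smul, hs, hs'])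
    obtain rfl : s = s' := mul_left_cancel (inv_mul_eq_one.mp h4)
    rfl
  · intro q
    obtain ⟨⟨d, hd⟩, rfl⟩ := QuotientGroup.mk_surjective q
    obtain ⟨τ, ⟨hτ, γ, hγ, e'⟩, -⟩ := h2 d hd
    refine ⟨(⟨τ, hτ⟩, ⟨(g τ)⁻¹ * (γ * d), ?_⟩), ?_⟩
    · rw [MulAction.mem_stabilizer_iff, mul_smul, inv_smul_eq_iff, mul_smul, e', e τ hτ]
    · rw [QuotientGroup.eq, Subgroup.mem_subgroupOf]
      change (g τ * ((g τ)⁻¹ * (γ * d)))⁻¹ * d ∈ Gam N
      simpa [mul_assoc] using nm.conj_mem _ (inv_mem hγ) d⁻¹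

variable (F : Type) [Field F] [Algebra (AA N) F] [IsFractionRing (AA N) F]

/-- The valuation at a point on the function field. -/
noncomputable def valF (τ : ℍ) : Valuation F (WithZero (Multiplicative ℤ)) :=
  (valA N τ).extendToLocalization (S := nonZeroDivisors (AA N)) (fun a ha => by
    rw [Ideal.mem_primeCompl_iff, Valuation.mem_supp_iff, valA_ne (nonZeroDivisors.ne_zero ha)]
    exact WithZero.exp_ne_zero) F

lemma valF_map (τ : ℍ) (a : AA N) : valF (N := N) F τ (algebraMap (AA N) F a) = valA N τ a :=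
  Valuation.extendToLocalization_apply_map_apply _ _ _ _

/-- The place attached to a point. -/
noncomputable def plc (τ : ℍ) : ValuationSubring F := (valF (N := N) F τ).valuationSubring

lemma plc_lt (τ : ℍ) (a : AA N) :
    (plc (N := N) F τ).valuation (algebraMap (AA N) F a) < 1 ↔ a.1 τ = 0 := by
  rw [plc, ← (valF (N := N) F τ).isEquiv_valuation_valuationSubring.lt_one_iff_lt_one, valF_map,
    valA_lt]

lemma plc_mem (τ : ℍ) (a : AA N) : algebraMap (AA N) F a ∈ plc (N := N) F τ := by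
  rw [plc, Valuation.mem_valuationSubring_iff, valF_map]
  exact valA_le a τ

/-- The action on the function field. -/
noncomputable def rho (hC : JC) : SL2 →* (F ≃+* F) :=
  (IsFractionRing.ringEquivOfRingEquivHom (AA N) F).comp (act hC N)

/-- The action through the Galois group. -/
noncomputable abbrev rr (hC : JC) : SL2 →* (rho (N := N) F hC).range := (rho F hC).rangeRestrict

lemma rr_map (hC : JC) (g : SL2) (a : AA N) :
    rr (N := N) F hC g • algebraMap (AA N) F a = algebraMap (AA N) F (act hC N g a) :=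
  IsFractionRing.ringEquivOfRingEquiv_algebraMap _ a

lemma rr_plc (hC : JC) (g : SL2) (τ : ℍ) :
    rr (N := N) F hC g • plc (N := N) F τ = plc (N := N) F (g • τ) := by
  ext x
  obtain ⟨a, b, -, rfl⟩ := IsFractionRing.div_surjective (AA N) x
  rw [ValuationSubring.mem_pointwise_smul_iff_inv_smul_mem, ← map_inv, div_eq_mul_inv, smul_mul',
    smul_inv'', rr_map, rr_map]
  simp only [plc, Valuation.mem_valuationSubring_iff, map_mul, map_inv₀, valF_map, valA_act,
    inv_inv]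

lemma gam_le (hC : JC) : Gam N ≤ (rr (N := N) F hC).ker := by
  intro g hg
  have : act hC N g = 1 :=
    RingEquiv.ext fun w => Subtype.ext (funext fun τ => w.2.1.2.1 _ (inv_mem hg) τ)
  rw [MonoidHom.ker_rangeRestrict, MonoidHom.mem_ker, rho, MonoidHom.comp_apply, this, map_one]

lemma fin_range (hC : JC) [NeZero N] : Finite (rho (N := N) F hC).range := by
  have := Subgroup.finiteIndex_of_le (gam_le (N := N) F hC)
  refine Nat.finite_of_card_ne_zero ?_
  rw [← Subgroup.index_ker, ← MonoidHom.ker_rangeRestrict]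
  exact this.index_ne_zero

variable {F} [Algebra Qbar F] {ι : Qbar →+* ℂ}
  (hc : ∀ c, algebraMap Qbar F c = algebraMap (AA N) F (cst ι N c))

include hc

lemma aeval_jA (hB : QB) (p : Polynomial Qbar) :
    Polynomial.aeval (algebraMap (AA N) F (jA hB N)) p =
      algebraMap (AA N) F (p.eval₂ (cst ι N) (jA hB N)) := by
  rw [Polynomial.hom_eval₂, Polynomial.aeval_def]
  congr 1
  exact RingHom.ext hc

lemma cov (hB : QB) (hJ : JA) (hC : JC) [Fintype (rho (N := N) F hC).range] :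
    Cov (rho (N := N) F hC).range (algebraMap (AA N) F (jA hB N)) := by
  have sj := (rho (N := N) F hC).rangeRestrict_surjective
  have inj := IsFractionRing.injective (AA N) F
  have key : ∀ y ∈ (algebraMap (AA N) F).range, (∀ σ : (rho (N := N) F hC).range, σ • y = y) →
      ∃ p : Polynomial Qbar, y = Polynomial.aeval (algebraMap (AA N) F (jA hB N)) p := by
    rintro _ ⟨w, rfl⟩ hw
    obtain ⟨p, rfl⟩ := inv_poly hB hJ hC ι w fun g => inj ((rr_map F hC g w).symm.trans (hw _))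
    exact ⟨p, (aeval_jA hc hB p).symm⟩
  have hm : ∀ (σ : (rho (N := N) F hC).range) (b : AA N),
      σ • algebraMap (AA N) F b ∈ (algebraMap (AA N) F).range := by
    intro σ b
    obtain ⟨g, rfl⟩ := sj σ
    exact ⟨_, (rr_map F hC g b).symm⟩
  refine ⟨fun σ c => ?_, fun σ => ?_, ?_, fun x hx => ?_⟩
  · obtain ⟨g, rfl⟩ := sj σ
    rw [hc]
    exact rr_map F hC g _
  · obtain ⟨g, rfl⟩ := sj σ
    refine (rr_map F hC g _).trans (congrArg _ (Subtype.ext (funext fun τ => hB.j_inv _ τ)))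
  · rintro ⟨p, hp, e⟩
    rw [aeval_jA hc hB, map_eq_zero_iff _ inj] at e
    refine Polynomial.map_ne_zero (f := ι) hp (Polynomial.funext fun z => ?_)
    obtain ⟨τ, rfl⟩ := hJ.surj z
    rw [← eval_jA (N := N) hB, e]
    simp
  · obtain ⟨a, b, hb, rfl⟩ := IsFractionRing.div_surjective (AA N) x
    have hb0 : algebraMap (AA N) F b ≠ 0 := by simpa using nonZeroDivisors.ne_zero hb
    have h1 := Finset.smul_prod_perm (G := (rho (N := N) F hC).range) (algebraMap (AA N) F b)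
    obtain ⟨q, hq⟩ := key _ (prod_mem fun σ _ => hm σ b) h1
    obtain ⟨p, hp⟩ := key (algebraMap (AA N) F a / algebraMap (AA N) F b *
        ∏ σ : (rho (N := N) F hC).range, σ • algebraMap (AA N) F b) (by
      rw [← Finset.mul_prod_erase _ _ (Finset.mem_univ 1), one_smul, ← mul_assoc,
        div_mul_cancel₀ _ hb0]
      exact mul_mem ⟨a, rfl⟩ (prod_mem fun σ _ => hm σ b)) fun σ => by rw [smul_mul', hx, h1]
    refine ⟨p, q, ?_, by rw [← hq, ← hp]⟩
    rintro rfl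
    rw [map_zero] at hq
    exact Finset.prod_ne_zero_iff.mpr (fun σ _ => (smul_ne_zero_iff_ne σ).mpr hb0) hq

lemma sp_plc (hC : JC) {τ : ℍ} (hτ : IsAlgebraic ℚ (jf τ)) (w : AA N) :
    Sp (plc (N := N) F τ) (algebraMap (AA N) F w) (qv ι (w.1 τ)) := by
  rw [Sp, hc, ← map_sub, plc_lt]
  exact sub_eq_zero.mpr (qv_spec ι (hC.alg_val w.2.2 hτ)).symm

lemma dv_plc (hC : JC) {u : AA N} {G : Type} [Group G] [Fintype G] [MulSemiringAction G F]
    (h : Cov G (algebraMap (AA N) F u)) {τ : ℍ} (hτ : IsAlgebraic ℚ (jf τ)) :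
    ∃ (p : F) (e : ℕ), DV (plc (N := N) F τ) p ∧
      ∀ a : AA N, a ≠ 0 → (ord a.1 τ : ℤ) = e * ordAt (plc (N := N) F τ) (algebraMap _ F a) := by
  obtain ⟨p, e, h1, h2⟩ := exists_DV (valF (N := N) F τ)
    (fun c => by rw [hc]; exact plc_mem F τ _) (h.t_ne (qv ι (u.1 τ)))
    ((valF (N := N) F τ).isEquiv_valuation_valuationSubring.lt_one_iff_lt_one.mpr
      (sp_plc hc hC hτ u))
  refine ⟨p, e, h1, fun a ha => ?_⟩
  have := h2 (algebraMap _ F a) (by simpa using ha)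
  rw [valF_map, valA_ne ha, WithZero.exp_inj, neg_inj] at this
  exact this

lemma main_count (hB : QB) (hJ : JA) (hC : JC) (hI : JB) (hO : ORB) (hN : 3 ≤ N)
    [Fintype (rho (N := N) F hC).range] (a : AA N) (R : Finset ℍ) (τ₀ : ℍ) (ha : a ≠ 0)
    (hR : IsRep (relG N) {τ | a.1 τ = 0} R) (hτ : IsAlgebraic ℚ (jf τ₀)) :
    ((Gam N).relIndex (rr (N := N) F hC).ker : ℤ) * ordAt (plc (N := N) F τ₀) (algebraMap _ F a) =
      2 * ∑ τ ∈ R with plc (N := N) F τ = plc (N := N) F τ₀, (ord a.1 τ : ℤ) := by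
  have h := cov hc hB hJ hC
  obtain ⟨p, e, hV, he⟩ := dv_plc hc hC h hτ
  have hz : ∀ (b : AA N) τ, plc (N := N) F τ = plc (N := N) F τ₀ → (b.1 τ = 0 ↔ b.1 τ₀ = 0) :=
    fun b τ e => by rw [← plc_lt F, e, plc_lt]
  by_cases h0 : a.1 τ₀ = 0
  swap
  · rw [ordAt_of_val_eq_one (le_antisymm ((ValuationSubring.valuation_le_one_iff _ _).mpr
      (plc_mem F τ₀ a)) (not_lt.mp (mt (plc_lt F τ₀ a).mp h0))), Finset.sum_eq_zero]
    · simp
    · intro τ hm
      rw [Finset.mem_filter] at hm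
      exact absurd ((hz a τ hm.2).mp (hR.1 τ hm.1)) h0
  have hs := sp_plc hc hC hτ (jA hB N)
  set c := qv ι ((jA hB N).1 τ₀) with hcd
  have ht : (jA hB N - cst ι N c).1 = fun σ => jf σ - jf τ₀ :=
    funext fun σ => congrArg (jf σ - ·) (qv_spec ι hτ)
  let D := (MulAction.stabilizer (rho (N := N) F hC).range (plc (N := N) F τ₀)).comap (rr F hC)
  have hD : ∀ g, g ∈ D ↔ plc (N := N) F (g • τ₀) = plc (N := N) F τ₀ := fun g => by
    rw [← rr_plc F hC]
    rfl
  have hk : (rr (N := N) F hC).ker ≤ D := fun g hg => by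
    rw [Subgroup.mem_comap, MonoidHom.mem_ker.mp hg]
    exact one_mem _
  have h1 : ∀ τ ∈ R.filter fun τ => plc (N := N) F τ = plc (N := N) F τ₀, ∃ g ∈ D, g • τ₀ = τ := by
    intro τ hm
    rw [Finset.mem_filter] at hm
    have := (hz (jA hB N - cst ι N c) τ hm.2).mpr (by rw [ht]; exact sub_self _)
    rw [ht] at this
    obtain ⟨g, rfl⟩ := hI.inj τ₀ τ (sub_eq_zero.mp this).symm
    exact ⟨g, (hD g).mpr hm.2, rfl⟩
  have h2 := count hO hN D τ₀ (fun g hg => (hD g).mpr (by rw [hg])) _ h1 (by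
    intro g hg
    obtain ⟨τ, ⟨hτ, γ, hγ, rfl⟩, hu⟩ := hR.2 (g • τ₀) ((hz a _ ((hD g).mp hg)).mpr h0)
    refine ⟨_, ⟨Finset.mem_filter.mpr ⟨hτ, ?_⟩, γ, hγ, rfl⟩,
      fun σ hσ => hu σ ⟨(Finset.mem_filter.mp hσ.1).1, hσ.2⟩⟩
    rw [← mul_smul]
    exact (hD _).mp (mul_mem (hk (gam_le F hC hγ)) hg))
  rw [← Subgroup.relIndex_mul_relIndex _ _ _ (gam_le F hC) hk, Subgroup.relIndex_ker,
    Subgroup.map_comap_eq_self_of_surjective (rho (N := N) F hC).rangeRestrict_surjective] at h2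
  have h3 : (Nat.card (MulAction.stabilizer (rho (N := N) F hC).range (plc (N := N) F τ₀)) : ℤ) =
      _ := h.card_stab hV hs
  have h4 := h.ord_pos hV hs
  have ht0 : jA hB N - cst ι N c ≠ 0 := fun e => h.t_ne c (by rw [hc, ← map_sub, e, map_zero])
  have h5 := hI.ord_j τ₀
  rw [← ht, ← coe_ord ht0] at h5
  have h6 := he _ ht0
  rw [map_sub, ← hc] at h6
  have h7 : ∀ τ ∈ R.filter fun τ => plc (N := N) F τ = plc (N := N) F τ₀,
      (ord a.1 τ : ℤ) = e * ordAt (plc (N := N) F τ₀) (algebraMap _ F a) := by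
    intro τ hm
    obtain ⟨g, hg, rfl⟩ := h1 τ hm
    have e1 := ord_act hC g⁻¹ a τ₀
    rw [inv_inv] at e1
    rw [← e1, he _ (by simpa using ha), ← rr_map, hV.ord_eq ((hV.val_smul (inv_mem hg) _).trans
      (hV.val_eq (by simpa using ha)))]
  rw [Finset.sum_congr rfl h7, Finset.sum_const, nsmul_eq_mul]
  have h8 : (2 * ord (jA hB N - cst ι N c).1 τ₀ : ℤ) = Nat.card (MulAction.stabilizer SL2 τ₀) := by
    exact_mod_cast h5
  have h9 := congrArg (Nat.cast : ℕ → ℤ) h2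
  rw [Nat.cast_mul, Nat.cast_mul, ← h8, h6, h3] at h9
  apply mul_right_cancel₀ h4.ne'
  linear_combination (-ordAt (plc (N := N) F τ₀) (algebraMap _ F a)) * h9

end Modf

open Modf in
theorem modf (hA : QA) (hB : QB) (hJ : JA) (hC : JC) (hI : JB) (hO : ORB) (hS : OS) :
    ModfStmt := by
  intro ι N hN
  have : NeZero N := ⟨by omega⟩
  let F := FractionRing (AA N)
  let _ : Algebra Qbar F := ((algebraMap (AA N) F).comp (cst ι N)).toAlgebra
  have hc : ∀ c, algebraMap Qbar F c = algebraMap (AA N) F (cst ι N c) := fun _ => rfl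
  have := fin_range (N := N) F hC
  have := Fintype.ofFinite (rho (N := N) F hC).range
  have h := cov hc hB hJ hC
  refine ⟨F, inferInstance, inferInstance, AA N, algebraMap _ F, plc (N := N) F,
    (Gam N).relIndex (rr (N := N) F hC).ker, h.curve, fun _ => Iff.rfl,
    IsFractionRing.injective _ _, Nat.pos_of_ne_zero Subgroup.FiniteIndex.index_ne_zero,
    fun τ hτ => ⟨?_, sp_plc hc hC hτ⟩, fun W hW hj => ?_,
    fun a R τ₀ ha hR hτ => main_count hc hB hJ hC hI hO hN a R τ₀ ha hR hτ⟩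
  · obtain ⟨p, e, hV, -⟩ := dv_plc hc hC h hτ
    exact hV.pl
  · obtain ⟨c, hs⟩ := h.exists_sp hW (hj _ rfl)
    obtain ⟨τ, hτ⟩ := hJ.surj (ι c)
    have h1 : IsAlgebraic ℚ (jf τ) := hτ ▸ alg_iota ι c
    obtain ⟨p, e, hV, -⟩ := dv_plc hc hC h h1
    have h2 := sp_plc hc hC h1 (jA hB N)
    have h3 : qv ι ((jA hB N).1 τ) = c := ι.injective ((qv_spec ι h1).trans hτ)
    rw [h3] at h2
    obtain ⟨σ, rfl⟩ := h.conj hV h2 hW hs
    obtain ⟨g, hg⟩ := (rho (N := N) F hC).rangeRestrict_surjective σ⁻¹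
    exact ⟨g • τ, by rwa [hB.j_inv], by rw [← hg, rr_plc]⟩

end Pool.Agent.MP_9207e0_ag.hg

end MrgPart1

-- ======== part 2: formerly Pool.Agent.MP_9207e0_ag.hg.Thm
section MrgPart2

/-! Unary theta series: expansions, transformation laws, and the spanning property. -/

set_option linter.unusedSectionVars false
set_option linter.unusedVariables false

namespace Pool.Agent.MP_9207e0_ag.hg

open UpperHalfPlane Complex Filter Asymptotics Matrix
open scoped Real MatrixGroups Manifold Classical Kronecker Topology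

namespace Thm

lemma ee_add (x y : ℂ) : ee (x + y) = ee x * ee y := by
  rw [ee, ee, ee, ← Complex.exp_add]
  congr 1
  ring

lemma ee_ne (x : ℂ) : ee x ≠ 0 := Complex.exp_ne_zero _

lemma ee_zero : ee 0 = 1 := by simp [ee]

lemma ee_int (m : ℤ) : ee m = 1 := by
  rw [ee, mul_comm]
  exact Complex.exp_int_mul_two_pi_mul_I m

lemma norm_ee_real (x : ℝ) : ‖ee x‖ = 1 := by
  rw [ee, show 2 * π * Complex.I * x = ((2 * π * x : ℝ) : ℂ) * Complex.I by push_cast; ring]
  exact Complex.norm_exp_ofReal_mul_I _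

lemma tpi_ne : (2 * π * Complex.I : ℂ) ≠ 0 := Complex.two_pi_I_ne_zero

lemma coe_T (τ : ℍ) : ((ModularGroup.T • τ : ℍ) : ℂ) = τ + 1 := by
  rw [UpperHalfPlane.modular_T_smul, UpperHalfPlane.coe_vadd]
  push_cast
  ring

lemma coe_S (τ : ℍ) : ((ModularGroup.S • τ : ℍ) : ℂ) = -1 / τ := by
  rw [UpperHalfPlane.modular_S_smul]
  simp [neg_div, inv_neg]

variable {k : ℕ} [NeZero k]

lemma k_ne : (k : ℂ) ≠ 0 := Nat.cast_ne_zero.mpr (NeZero.ne k)

lemma k_pos : (0 : ℝ) < k := Nat.cast_pos.mpr (Nat.pos_of_ne_zero (NeZero.ne k))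

lemma im_div {z : ℂ} (hz : 0 < z.im) : 0 < (z / k).im := by
  rw [show (k : ℂ) = ((k : ℝ) : ℂ) by simp, Complex.div_ofReal_im]
  exact div_pos hz k_pos

lemma im_mul {z : ℂ} (hz : 0 < z.im) : 0 < ((k : ℂ) * z).im := by
  rw [show (k : ℂ) = ((k : ℝ) : ℂ) by simp, Complex.im_ofReal_mul]
  exact mul_pos k_pos hz

/-- Orthogonality of characters. -/
lemma orth (x : ℤ) : ∑ s : ZMod k, ee (x * s.val / k) =
    if (x : ZMod k) = 0 then (k : ℂ) else 0 := by
  have h := AddChar.sum_mulShift (x : ZMod k) (ZMod.isPrimitive_stdAddChar k)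
  rw [ZMod.card] at h
  have e : ∀ s : ZMod k, ee (x * s.val / k) = ZMod.stdAddChar (s * (x : ZMod k)) := fun s => by
    have : s * (x : ZMod k) = ((x * s.val : ℤ) : ZMod k) := by
      push_cast
      rw [ZMod.natCast_zmod_val, mul_comm]
    rw [this, ZMod.stdAddChar_coe, ee]
    congr 1
    push_cast
    ring
  rw [Finset.sum_congr rfl fun s _ => e s, h]
  split_ifs <;> simp

/-- The terms of the series. -/
noncomputable def tm (k w : ℕ) (z : ℂ) (a : ℤ) : ℂ := (a : ℂ) ^ w * ee (a ^ 2 * z / (2 * k))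

/-- Weighted theta series. -/
noncomputable def HH (k w : ℕ) (u : ℤ → ℂ) (z : ℂ) : ℂ := ∑' a : ℤ, u a * tm k w z a

lemma term0 (y z : ℂ) (a : ℤ) :
    jacobiTheta₂_term a y (z / k) = ee (a * y) * tm k 0 z a := by
  rw [jacobiTheta₂_term, tm, pow_zero, one_mul, ← ee_add, ee]
  congr 1
  have := k_ne (k := k)
  field_simp

lemma term1 (y z : ℂ) (a : ℤ) :
    jacobiTheta₂'_term a y (z / k) = 2 * π * Complex.I * (ee (a * y) * tm k 1 z a) := by
  rw [jacobiTheta₂'_term, term0, tm, tm]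
  ring

lemma sum_tm {w : ℕ} (hw : w ≤ 1) {z : ℂ} (hz : 0 < z.im) : Summable (tm k w z) := by
  obtain rfl | rfl : w = 0 ∨ w = 1 := by omega
  · refine (hasSum_jacobiTheta₂_term 0 (im_div (k := k) hz)).summable.congr fun a => ?_
    rw [term0, mul_zero, ee_zero, one_mul]
  · refine ((hasSum_jacobiTheta₂'_term 0 (im_div (k := k) hz)).summable.mul_left
      (2 * π * Complex.I)⁻¹).congr fun a => ?_
    rw [term1, mul_zero, ee_zero, one_mul, inv_mul_cancel_left₀ tpi_ne]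

lemma sum_HH {w : ℕ} (hw : w ≤ 1) {z : ℂ} (hz : 0 < z.im) {u : ℤ → ℂ} {C : ℝ}
    (hu : ∀ a, ‖u a‖ ≤ C) : Summable fun a => u a * tm k w z a := by
  refine Summable.of_norm_bounded ((sum_tm (k := k) hw hz).norm.mul_left C) fun a => ?_
  rw [norm_mul]
  exact mul_le_mul_of_nonneg_right (hu a) (norm_nonneg _)

/-- The indicator of a residue class. -/
noncomputable def ind (r : ZMod k) (a : ℤ) : ℂ := if (a : ZMod k) = r then 1 else 0

lemma norm_ind (r : ZMod k) (a : ℤ) : ‖ind r a‖ ≤ 1 := by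
  unfold ind
  split_ifs <;> simp

/-- The theta series with weight `a ^ w`. -/
noncomputable def th (w : ℕ) (r : ZMod k) (τ : ℍ) : ℂ := HH k w (ind r) τ

lemma thm_eq (r : ZMod k) : thm k r = th 0 r := by
  funext τ
  refine tsum_congr fun a => ?_
  unfold ind tm
  split_ifs <;> simp

lemma HH_sum {w : ℕ} (hw : w ≤ 1) {z : ℂ} (hz : 0 < z.im) (c : ZMod k → ℂ)
    (u : ZMod k → ℤ → ℂ) (hu : ∀ s a, ‖u s a‖ ≤ 1) :
    HH k w (fun a => ∑ s, c s * u s a) z = ∑ s, c s * HH k w (u s) z := by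
  have h : HasSum (fun a => ∑ s, c s * (u s a * tm k w z a)) (∑ s, c s * HH k w (u s) z) :=
    hasSum_sum fun s _ => (sum_HH hw hz (hu s)).hasSum.mul_left _
  rw [← h.tsum_eq, HH]
  refine tsum_congr fun a => ?_
  rw [Finset.sum_mul]
  exact Finset.sum_congr rfl fun s _ => mul_assoc _ _ _

lemma ind_eq (r : ZMod k) (a : ℤ) : ind r a =
    ∑ s : ZMod k, ((k : ℂ)⁻¹ * ee (-(r.val * s.val) / k)) * ee (a * (s.val / k)) := by
  have h := orth (k := k) (a - r.val)
  have e : ∀ s : ZMod k, ((k : ℂ)⁻¹ * ee (-(r.val * s.val) / k)) * ee (a * (s.val / k)) =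
      (k : ℂ)⁻¹ * ee ((a - r.val : ℤ) * s.val / k) := fun s => by
    rw [mul_assoc, ← ee_add]
    congr 2
    push_cast
    ring
  rw [Finset.sum_congr rfl fun s _ => e s, ← Finset.mul_sum, h, ind]
  have : ((a - r.val : ℤ) : ZMod k) = 0 ↔ (a : ZMod k) = r := by
    push_cast
    rw [ZMod.natCast_zmod_val, sub_eq_zero]
  by_cases hh : (a : ZMod k) = r
  · rw [if_pos hh, if_pos (this.mpr hh), inv_mul_cancel₀ k_ne]
  · rw [if_neg hh, if_neg (fun q => hh (this.mp q)), mul_zero]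

lemma norm_ch (s : ZMod k) (a : ℤ) : ‖ee (a * (s.val / k))‖ ≤ 1 := by
  have := norm_ee_real (a * (s.val / k))
  push_cast at this
  exact this.le

/-- First form: a finite Fourier sum. -/
lemma HH_ind {w : ℕ} (hw : w ≤ 1) {z : ℂ} (hz : 0 < z.im) (r : ZMod k) :
    HH k w (ind r) z = ∑ s : ZMod k, ((k : ℂ)⁻¹ * ee (-(r.val * s.val) / k)) *
      HH k w (fun a => ee (a * (s.val / k))) z := by
  rw [← HH_sum hw hz _ _ norm_ch]
  congr 1
  funext a
  exact ind_eq r a

lemma HH_ch0 (y z : ℂ) : HH k 0 (fun a => ee (a * y)) z = jacobiTheta₂ y (z / k) :=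
  tsum_congr fun a => (term0 y z a).symm

lemma HH_ch1 (y z : ℂ) :
    2 * π * Complex.I * HH k 1 (fun a => ee (a * y)) z = jacobiTheta₂' y (z / k) := by
  rw [HH, ← tsum_mul_left]
  exact tsum_congr fun a => (term1 y z a).symm

lemma mem_cls (r : ZMod k) (a : ℤ) : (a : ZMod k) = r ↔ ∃ m : ℤ, (r.val : ℤ) + k * m = a := by
  constructor
  · intro h
    have : ((a - r.val : ℤ) : ZMod k) = 0 := by
      push_cast
      rw [ZMod.natCast_zmod_val, h, sub_self]
    obtain ⟨m, hm⟩ := (ZMod.intCast_zmod_eq_zero_iff_dvd _ _).mp this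
    exact ⟨m, by linarith⟩
  · rintro ⟨m, rfl⟩
    push_cast
    rw [ZMod.natCast_zmod_val, ZMod.natCast_self, zero_mul, add_zero]

/-- Second form: a sum over the class. -/
lemma HH_cls (w : ℕ) (z : ℂ) (r : ZMod k) :
    HH k w (ind r) z = ∑' m : ℤ, tm k w z (r.val + k * m) := by
  have inj : Function.Injective fun m : ℤ => (r.val : ℤ) + k * m := fun m m' h => by
    have h0 : (k : ℤ) ≠ 0 := Int.natCast_ne_zero.mpr (NeZero.ne k)
    exact mul_left_cancel₀ h0 (add_left_cancel h)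
  rw [HH, ← inj.tsum_eq]
  · refine tsum_congr fun m => ?_
    rw [ind, if_pos ((mem_cls r _).mpr ⟨m, rfl⟩), one_mul]
  · intro a ha
    by_contra hh
    refine ha ?_
    show ind r a * _ = 0
    rw [ind, if_neg (fun q => hh ((mem_cls r a).mp q)), zero_mul]

lemma cls_term (z : ℂ) (s : ℕ) (m : ℤ) : ee (((s + k * m : ℤ) : ℂ) ^ 2 * z / (2 * k)) =
    cexp (π * Complex.I * s ^ 2 * z / k) * jacobiTheta₂_term m (s * z) (k * z) := by
  rw [jacobiTheta₂_term, ← Complex.exp_add, ee]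
  congr 1
  have := k_ne (k := k)
  push_cast
  field_simp
  ring

lemma cls0 (z : ℂ) (r : ZMod k) : HH k 0 (ind r) z =
    cexp (π * Complex.I * r.val ^ 2 * z / k) * jacobiTheta₂ (r.val * z) (k * z) := by
  rw [HH_cls, jacobiTheta₂, ← tsum_mul_left]
  refine tsum_congr fun m => ?_
  rw [tm, pow_zero, one_mul, cls_term]

lemma cls1 {z : ℂ} (hz : 0 < z.im) (r : ZMod k) : 2 * π * Complex.I * HH k 1 (ind r) z =
    cexp (π * Complex.I * r.val ^ 2 * z / k) *
      (2 * π * Complex.I * r.val * jacobiTheta₂ (r.val * z) (k * z) +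
        k * jacobiTheta₂' (r.val * z) (k * z)) := by
  have h := ((((hasSum_jacobiTheta₂_term (r.val * z) (im_mul (k := k) hz)).mul_left
    (2 * π * Complex.I * r.val)).add
    ((hasSum_jacobiTheta₂'_term (r.val * z) (im_mul (k := k) hz)).mul_left (k : ℂ))).mul_left
    (cexp (π * Complex.I * r.val ^ 2 * z / k))).tsum_eq
  rw [← h, HH_cls, ← tsum_mul_left]
  refine tsum_congr fun m => ?_
  rw [tm, cls_term, jacobiTheta₂'_term]
  push_cast
  ring

lemma root_eq (τ : ℍ) : (-Complex.I * (k * τ)) ^ (1 / 2 : ℂ) = (Real.sqrt k : ℂ) * sqr τ := by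
  have h0 : -Complex.I * (τ : ℂ) ≠ 0 := mul_ne_zero (neg_ne_zero.mpr Complex.I_ne_zero) τ.ne_zero
  have h1 : ((k : ℝ) : ℂ) ≠ 0 := Complex.ofReal_ne_zero.mpr (k_pos (k := k)).ne'
  rw [show -Complex.I * (k * τ) = ((k : ℝ) : ℂ) * (-Complex.I * τ) by push_cast; ring,
    Complex.cpow_def_of_ne_zero (mul_ne_zero h1 h0), Complex.log_ofReal_mul k_pos h0, add_mul,
    Complex.exp_add, sqr, Complex.cpow_def_of_ne_zero h0, Real.sqrt_eq_rpow,
    Real.rpow_def_of_pos k_pos, Complex.ofReal_exp]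
  congr 2
  push_cast
  ring

lemma sqrt_ne : (Real.sqrt k : ℂ) ≠ 0 :=
  Complex.ofReal_ne_zero.mpr (Real.sqrt_pos.mpr k_pos).ne'

lemma sqrt_sq : (Real.sqrt k : ℂ) * Real.sqrt k = k := by
  rw [← Complex.ofReal_mul, Real.mul_self_sqrt (k_pos (k := k)).le, Complex.ofReal_natCast]

lemma sqr_ne (τ : ℍ) : sqr τ ≠ 0 := by
  have h0 : -Complex.I * (τ : ℂ) ≠ 0 := mul_ne_zero (neg_ne_zero.mpr Complex.I_ne_zero) τ.ne_zero
  rw [sqr, Complex.cpow_def_of_ne_zero h0]
  exact Complex.exp_ne_zero _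

lemma fe_args (τ : ℍ) (s : ℕ) : (s : ℂ) * τ / (k * τ) = s / k ∧
    (-1 : ℂ) / (k * τ) = -1 / τ / k ∧
    cexp (π * Complex.I * s ^ 2 * τ / k) * cexp (-π * Complex.I * (s * τ) ^ 2 / (k * τ)) = 1 := by
  have h1 := k_ne (k := k)
  have h2 := τ.ne_zero
  refine ⟨by field_simp, by field_simp, ?_⟩
  rw [← Complex.exp_add, ← Complex.exp_zero]
  congr 1
  field_simp
  ring

lemma fe0 (τ : ℍ) (s : ZMod k) : jacobiTheta₂ (s.val / k) (-1 / τ / k) =
    Real.sqrt k * sqr τ * th 0 s τ := by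
  obtain ⟨e1, e2, e3⟩ := fe_args (k := k) τ s.val
  have h1 := sqrt_ne (k := k)
  have h2 := sqr_ne τ
  rw [th, cls0, jacobiTheta₂_functional_equation (s.val * τ) (k * τ), root_eq, e1, e2]
  generalize cexp (π * Complex.I * s.val ^ 2 * τ / k) = A at *
  generalize cexp (-π * Complex.I * (s.val * τ) ^ 2 / (k * τ)) = B at *
  generalize jacobiTheta₂ (s.val / k) (-1 / τ / k) = Y
  field_simp
  linear_combination (-Y) * e3

lemma fe1 (τ : ℍ) (s : ZMod k) : jacobiTheta₂' (s.val / k) (-1 / τ / k) =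
    Real.sqrt k * sqr τ * τ * (2 * π * Complex.I * th 1 s τ) := by
  obtain ⟨e1, e2, e3⟩ := fe_args (k := k) τ s.val
  have h1 := sqrt_ne (k := k)
  have h2 := sqr_ne τ
  have h3 := k_ne (k := k)
  have h4 := τ.ne_zero
  rw [th, cls1 τ.im_pos, jacobiTheta₂'_functional_equation (s.val * τ) (k * τ),
    jacobiTheta₂_functional_equation (s.val * τ) (k * τ), root_eq, e1, e2]
  generalize cexp (π * Complex.I * s.val ^ 2 * τ / k) = A at *
  generalize cexp (-π * Complex.I * (s.val * τ) ^ 2 / (k * τ)) = B at *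
  generalize jacobiTheta₂' (s.val / k) (-1 / τ / k) = X
  generalize jacobiTheta₂ (s.val / k) (-1 / τ / k) = Y
  field_simp
  linear_combination (-X) * e3

lemma Sm_one (r s : ZMod k) :
    Sm k 1 r s = Real.sqrt k * ((k : ℂ)⁻¹ * ee (-(r.val * s.val) / k)) := by
  have h1 := sqrt_ne (k := k)
  have h2 : (Real.sqrt k : ℂ)⁻¹ = Real.sqrt k * (k : ℂ)⁻¹ := by
    have h3 := sqrt_sq (k := k)
    have h4 := k_ne (k := k)
    field_simp
    linear_combination -h3
  have h3 : (-((1 : ℤ) : ℂ) * (r.val * s.val) / k : ℂ) = -(r.val * s.val) / k := by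
    push_cast
    ring
  rw [Sm, h3, h2, mul_assoc]

lemma lawS0 (τ : ℍ) (r : ZMod k) :
    th 0 r (ModularGroup.S • τ) = sqr τ * ∑ s, Sm k 1 r s * th 0 s τ := by
  rw [th, HH_ind zero_le_one (ModularGroup.S • τ).im_pos, Finset.mul_sum]
  refine Finset.sum_congr rfl fun s _ => ?_
  rw [HH_ch0, coe_S, fe0, Sm_one]
  ring

lemma lawS1 (τ : ℍ) (r : ZMod k) :
    th 1 r (ModularGroup.S • τ) = sqr τ * τ * ∑ s, Sm k 1 r s * th 1 s τ := by
  rw [th, HH_ind le_rfl (ModularGroup.S • τ).im_pos, Finset.mul_sum]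
  refine Finset.sum_congr rfl fun s _ => mul_left_cancel₀ tpi_ne ?_
  rw [mul_left_comm, HH_ch1, coe_S, fe1, Sm_one]
  ring

lemma lawT (hk : Even k) (w : ℕ) (τ : ℍ) (r : ZMod k) :
    th w r (ModularGroup.T • τ) = ee (r.val ^ 2 / (2 * k)) * th w r τ := by
  obtain ⟨j, hj⟩ := hk
  rw [th, th, HH_cls, HH_cls, ← tsum_mul_left, coe_T]
  refine tsum_congr fun m => ?_
  have h1 := k_ne (k := k)
  have h2 : (k : ℂ) = j + j := by exact_mod_cast hj
  have e : ((r.val + k * m : ℤ) : ℂ) ^ 2 * (τ + 1) / (2 * k) =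
      r.val ^ 2 / (2 * k) + ((r.val + k * m : ℤ) : ℂ) ^ 2 * τ / (2 * k) +
        ((r.val * m + j * m ^ 2 : ℤ) : ℂ) := by
    push_cast
    field_simp
    linear_combination (m ^ 2 * k : ℂ) * h2
  rw [tm, tm, e, ee_add, ee_add, ee_int]
  ring

/-- The coefficients of the expansion. -/
noncomputable def cf (w : ℕ) (u : ℤ → ℂ) (n : ℤ) : ℂ :=
  ∑ a ∈ Finset.Icc (-n) n, if a ^ 2 = n then u a * (a : ℂ) ^ w else 0

lemma cf_neg (w : ℕ) (u : ℤ → ℂ) {n : ℤ} (hn : n < 0) : cf w u n = 0 := by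
  rw [cf, Finset.Icc_eq_empty (by omega), Finset.sum_empty]

lemma mem_Icc_sq {a n : ℤ} (h : a ^ 2 = n) : a ∈ Finset.Icc (-n) n := by
  rw [Finset.mem_Icc, ← h]
  constructor <;> nlinarith [sq_nonneg (2 * a - 1), sq_nonneg (2 * a + 1), sq_nonneg a,
    Int.le_self_sq a, Int.le_self_sq (-a)]

/-- The expansion. -/
noncomputable def ser (w : ℕ) (u : ℤ → ℂ) : LS :=
  HahnSeries.ofSuppBddBelow (cf w u) ⟨0, fun n hn => not_lt.mp fun h => hn (cf_neg w u h)⟩

lemma ser_coeff (w : ℕ) (u : ℤ → ℂ) (n : ℤ) : (ser w u).coeff n = cf w u n := rfl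

lemma isQ_HH {w : ℕ} (hw : w ≤ 1) {u : ℤ → ℂ} {C : ℝ} (hu : ∀ a, ‖u a‖ ≤ C) :
    IsQ (2 * k) (fun τ => HH k w u τ) (ser w u) := by
  intro τ
  have inj : Function.Injective fun a : ℤ => (a ^ 2, a) := fun a b h => (Prod.ext_iff.mp h).2
  have h1 : HasSum (fun p : ℤ × ℤ => if p.2 ^ 2 = p.1 then u p.2 * tm k w τ p.2 else 0)
      (HH k w u τ) := by
    rw [← inj.hasSum_iff]
    · have e : (fun p : ℤ × ℤ => if p.2 ^ 2 = p.1 then u p.2 * tm k w τ p.2 else 0) ∘
          (fun a : ℤ => (a ^ 2, a)) = fun a => u a * tm k w τ a := by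
        funext a
        exact if_pos rfl
      rw [e]
      exact (sum_HH hw τ.im_pos hu).hasSum
    · rintro ⟨n, a⟩ hp
      refine if_neg fun h => hp ⟨a, ?_⟩
      exact Prod.ext h rfl
  refine h1.prod_fiberwise fun n => ?_
  have h2 : HasSum (fun a : ℤ => if a ^ 2 = n then u a * tm k w τ a else 0)
      (∑ a ∈ Finset.Icc (-n) n, if a ^ 2 = n then u a * tm k w τ a else 0) :=
    hasSum_sum_of_ne_finset_zero fun a ha => if_neg fun h => ha (mem_Icc_sq h)
  have e : (ser w u).coeff n * ee (n * τ / (2 * k : ℕ)) =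
      ∑ a ∈ Finset.Icc (-n) n, if a ^ 2 = n then u a * tm k w τ a else 0 := by
    rw [ser_coeff, cf, Finset.sum_mul]
    refine Finset.sum_congr rfl fun a _ => ?_
    split_ifs with h
    · rw [tm, mul_assoc, ← h]
      push_cast
      rfl
    · rw [zero_mul]
  rw [e]
  exact h2

lemma isQ_th {w : ℕ} (hw : w ≤ 1) (r : ZMod k) : IsQ (2 * k) (th w r) (ser w (ind r)) :=
  isQ_HH hw (norm_ind r)

lemma rq_th {w : ℕ} (hw : w ≤ 1) (r : ZMod k) : RQ (2 * k) (th w r) := by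
  refine ⟨_, isQ_th hw r, fun n => ⟨∑ a ∈ Finset.Icc (-n) n,
    if a ^ 2 = n then (if (a : ZMod k) = r then 1 else 0) * (a : ℚ) ^ w else 0, ?_⟩⟩
  rw [ser_coeff, cf]
  push_cast
  refine Finset.sum_congr rfl fun a _ => ?_
  unfold ind
  split_ifs <;> simp

/-! ### Rational expansions and the differential operator -/

lemma ev_up (τ : ℍ) : ∀ᶠ z in 𝓝 (τ : ℂ), 0 < z.im := isOpen_upperHalfPlaneSet.mem_nhds τ.im_pos

lemma coe_of {z : ℂ} (hz : 0 < z.im) : ((ofComplex z : ℍ) : ℂ) = z := by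
  rw [ofComplex_apply_of_im_pos hz]

lemma hol_div {a b : ℍ → ℂ} (ha : Hol a) (hb : Hol b) (h : ∀ τ, b τ ≠ 0) :
    Hol fun τ => a τ / b τ := by
  rw [hol_iff] at ha hb ⊢
  intro τ
  exact (ha τ).div (hb τ) (by rw [ofComplex_apply]; exact h τ)

lemma hol_lin {ι : Type} [Fintype ι] (l : ι → ℂ) {ψ : ι → ℍ → ℂ} (h : ∀ i, Hol (ψ i)) :
    Hol fun τ => ∑ i, l i * ψ i τ := by
  simp only [hol_iff] at h ⊢
  intro τ
  exact Finset.analyticAt_fun_sum _ fun i _ => analyticAt_const.mul (h i τ)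

lemma dd_lin {ι : Type} [Fintype ι] (l : ι → ℂ) {ψ : ι → ℍ → ℂ} (h : ∀ i, Hol (ψ i)) (τ : ℍ) :
    dd (fun σ => ∑ i, l i * ψ i σ) τ = ∑ i, l i * dd (ψ i) τ := by
  have e : HasDerivAt ((fun σ => ∑ i, l i * ψ i σ) ∘ ofComplex)
      (∑ i, l i * deriv (ψ i ∘ ofComplex) τ) τ :=
    HasDerivAt.fun_sum fun i _ =>
      (hol_iff.mp (h i) τ).differentiableAt.hasDerivAt.const_mul (l i)
  rw [dd, e.deriv, Finset.mul_sum]
  refine Finset.sum_congr rfl fun i _ => ?_
  rw [dd]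
  ring

lemma dd_SL {w : ℍ → ℂ} (hw : Hol w) (g : SL2) (τ : ℍ) :
    dd (fun σ => w (g • σ)) τ =
      1 / (((g : M2) 1 0 : ℂ) * τ + (g : M2) 1 1) ^ 2 * dd w (g • τ) := by
  have h1 := hasDerivAt_mob (det_SL_pos g) τ
  have h2 : HasDerivAt (w ∘ ofComplex) (deriv (w ∘ ofComplex) (g • τ : ℍ))
      ((fun z : ℂ => (mob (g : M2) (ofComplex z) : ℂ)) τ) := by
    simp only [ofComplex_apply, mob_SL]
    exact (hol_iff.mp hw _).differentiableAt.hasDerivAt
  have h3 := h2.comp (τ : ℂ) h1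
  rw [← comp_mob_eq, det_SL] at h3
  simp only [mob_SL] at h3
  rw [dd, h3.deriv, dd]
  push_cast
  ring

section Op

variable (hA : QA) (hB : QB) {h : ℕ} (h0 : 0 < h) (h24 : 24 ∣ h)

include hA hB h0 h24

lemma rq_div {a : ℍ → ℂ} (ha : RQ h a) (m : ℕ) : RQ h fun τ => a τ / et τ ^ m := by
  obtain ⟨K, hK⟩ := hA.ratL
  obtain ⟨c, hc, rc⟩ := ha
  obtain ⟨d0, hd0, rd0, -⟩ := hB.et_q
  obtain ⟨d, hd, rd⟩ := hB.rq_level h0 h24 ⟨d0, hd0, rd0⟩
  have hm := hA.pow m h0 hd
  have ne : ∀ τ, (et ^ m) τ ≠ 0 := fun τ => pow_ne_zero _ (hB.et_ne τ)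
  refine ⟨c / d ^ m, hA.quot h0 hc hm (fun q => ne UpperHalfPlane.I (congrFun q _))
    (hol_div (hA.hol h0 hc) (hA.hol h0 hm) ne) ?_,
    (hK _).mp (K.div_mem ((hK _).mpr rc) (K.pow_mem ((hK _).mpr rd) m))⟩
  funext τ
  exact div_mul_cancel₀ _ (ne τ)

lemma rq_dd {a : ℍ → ℂ} (ha : RQ h a) : RQ h (dd a) := by
  obtain ⟨c, hc, rc⟩ := ha
  obtain ⟨c', hc', e⟩ := hA.deriv h0 hc
  refine ⟨c', hc', fun n => ?_⟩
  obtain ⟨q, hq⟩ := rc n
  exact ⟨n / h * q, by rw [e, hq]; push_cast; rfl⟩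

lemma rq_hol {a : ℍ → ℂ} (ha : RQ h a) : Hol a := by
  obtain ⟨c, hc, -⟩ := ha
  exact hA.hol h0 hc

lemma vv_op {ι : Type} [Fintype ι] {S T : Matrix ι ι ℂ} {σ ε : ℂ} {ψ : ι → ℍ → ℂ}
    (hψ : VV h (σ • S) (ε • T) ψ) (hr : ∀ i, RQ h (ψ i)) :
    VV h ((-σ) • S) ((ε * ee (-1 / 6)) • T) fun i τ => dd (ψ i) τ / et τ ^ 4 := by
  have hol := fun i => rq_hol hA hB h0 h24 (hr i)
  have key : ∀ (g : SL2) (M : Matrix ι ι ℂ),
      (∀ τ, (fun i => ψ i (g • τ)) = M *ᵥ fun i => ψ i τ) → ∀ i τ, dd (ψ i) (g • τ) =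
        (((g : M2) 1 0 : ℂ) * τ + (g : M2) 1 1) ^ 2 * ∑ j, M i j * dd (ψ j) τ := by
    intro g M hM i τ
    have e : (fun σ => ψ i (g • σ)) = fun σ => ∑ j, M i j * ψ j σ :=
      funext fun σ => congrFun (hM σ) i
    have d := den_ne (det_SL_pos g) τ
    rw [← dd_lin _ hol, ← e, dd_SL (hol i)]
    field_simp
  refine ⟨fun i => ?_, fun τ => funext fun i => ?_, fun τ => funext fun i => ?_⟩
  · obtain ⟨c, hc, -⟩ := rq_div hA hB h0 h24 (rq_dd hA hB h0 h24 (hr i)) 4
    exact ⟨c, hc⟩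
  · have e1 := hB.et_ne τ
    have e2 := τ.ne_zero
    have e3 : sqr τ ^ 4 = -(τ : ℂ) ^ 2 := by
      rw [show sqr τ ^ 4 = (sqr τ ^ 2) ^ 2 by ring, hB.sqr_sq, mul_pow, neg_sq, Complex.I_sq]
      ring
    show dd (ψ i) (ModularGroup.S • τ) / et (ModularGroup.S • τ) ^ 4 =
      ∑ j, ((-σ) • S) i j * (dd (ψ j) τ / et τ ^ 4)
    rw [key _ _ hψ.s, hB.et_S, mul_pow, e3, Finset.mul_sum, Finset.sum_div]
    refine Finset.sum_congr rfl fun j _ => ?_
    simp only [ModularGroup.S, Matrix.smul_apply, smul_eq_mul]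
    simp
    field_simp
  · have e1 := hB.et_ne τ
    have e3 : ee (1 / 24) ^ 4 * ee (-1 / 6) = 1 := by
      rw [show ee (1 / 24) ^ 4 = ee (1 / 24) * ee (1 / 24) * ee (1 / 24) * ee (1 / 24) by ring,
        ← ee_add, ← ee_add, ← ee_add, ← ee_add]
      exact (congrArg ee (by norm_num)).trans ee_zero
    have e4 := ee_ne (1 / 24)
    show dd (ψ i) (ModularGroup.T • τ) / et (ModularGroup.T • τ) ^ 4 =
      ∑ j, ((ε * ee (-1 / 6)) • T) i j * (dd (ψ j) τ / et τ ^ 4)
    rw [key _ _ hψ.t, hB.et_T, mul_pow, Finset.mul_sum, Finset.sum_div]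
    refine Finset.sum_congr rfl fun j _ => ?_
    simp only [ModularGroup.T, Matrix.smul_apply, smul_eq_mul]
    simp
    field_simp
    rw [mul_assoc _ (ee _ ^ 4), ← neg_div, e3, mul_one]

/-- A functional that kills all twisted rational functions at one point kills them everywhere. -/
lemma kill {ι : Type} [Fintype ι] {S T : Matrix ι ι ℂ} {τ : ℍ} {l : ι → ℂ}
    (hl : ∀ (σ ε : ℂ) (ψ : ι → ℍ → ℂ), σ ≠ 0 → ε ≠ 0 → VV h (σ • S) (ε • T) ψ →
      (∀ i, RQ h (ψ i)) → l ⬝ᵥ (fun i => ψ i τ) = 0)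
    {σ ε : ℂ} {ψ : ι → ℍ → ℂ} (h1 : σ ≠ 0) (h2 : ε ≠ 0) (hψ : VV h (σ • S) (ε • T) ψ)
    (hr : ∀ i, RQ h (ψ i)) (t : ℍ) : ∑ i, l i * ψ i t = 0 := by
  have main : ∀ (n : ℕ) (σ ε : ℂ) (ψ : ι → ℍ → ℂ), σ ≠ 0 → ε ≠ 0 → VV h (σ • S) (ε • T) ψ →
      (∀ i, RQ h (ψ i)) → (n : ℕ∞) ≤ ordE (fun t => ∑ i, l i * ψ i t) τ := by
    intro n
    induction n with
    | zero => intros; exact bot_le
    | succ n ih =>
      intro σ ε ψ h1 h2 hψ hr
      have hol := fun i => rq_hol hA hB h0 h24 (hr i)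
      have hr' := fun i => rq_div hA hB h0 h24 (rq_dd hA hB h0 h24 (hr i)) 4
      have i1 := ih _ _ _ (neg_ne_zero.mpr h1) (mul_ne_zero h2 (ee_ne _))
        (vv_op hA hB h0 h24 hψ hr) hr'
      have g1 := hol_lin l hol
      have g2 := hol_lin l fun i => rq_hol hA hB h0 h24 (hr' i)
      have g3 : Hol fun t => 2 * π * Complex.I * et t ^ 4 :=
        mdifferentiable_const.mul (hB.et_hol.pow 4)
      have z0 : ((fun t => ∑ i, l i * ψ i t) ∘ ofComplex) τ = 0 := by
        rw [Function.comp_apply, ofComplex_apply]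
        exact hl σ ε ψ h1 h2 hψ hr
      rw [Nat.cast_add_one, ordE, ← analyticOrderAt_deriv_ge_iff (hol_iff.mp g1 τ) z0]
      have e : deriv ((fun t => ∑ i, l i * ψ i t) ∘ ofComplex) =ᶠ[𝓝 (τ : ℂ)]
          ((fun t => 2 * π * Complex.I * et t ^ 4) *
            fun t => ∑ i, l i * (dd (ψ i) t / et t ^ 4)) ∘ ofComplex := by
        filter_upwards [ev_up τ] with z hz
        have e1 := dd_lin l hol (ofComplex z)
        rw [dd, coe_of hz] at e1
        have e2 := hB.et_ne (ofComplex z)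
        rw [Function.comp_apply, Pi.mul_apply, ← mul_inv_cancel_left₀ tpi_ne (deriv _ z), e1,
          mul_assoc _ (et _ ^ 4), Finset.mul_sum (a := et _ ^ 4)]
        congr 1
        refine Finset.sum_congr rfl fun i _ => ?_
        field_simp
      rw [analyticOrderAt_congr e]
      show (n : ℕ∞) ≤ ordE _ τ
      rw [ordE_mul g3 g2]
      exact le_add_left i1
  have g1 := hol_lin l fun i => rq_hol hA hB h0 h24 (hr i)
  by_contra hne
  refine ordE_ne_top g1 (fun q => hne (congrFun q t)) τ ?_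
  exact ENat.eq_top_iff_forall_ge.mpr fun n => main n σ ε ψ h1 h2 hψ hr

variable (hk : Even k) (h2k : 2 * k ∣ h)

include hk h2k

lemma rq_q {w : ℕ} (hw : w ≤ 1) (m : ℕ) (r : ZMod k) : RQ h fun τ => th w r τ / et τ ^ m :=
  rq_div hA hB h0 h24 (hB.rq_level h0 h2k (rq_th hw r)) m

lemma Tm_mul (v : ZMod k → ℂ) (r : ZMod k) :
    (Tm k 1 *ᵥ v) r = ee (r.val ^ 2 / (2 * k) - 1 / 24) * v r := by
  rw [Tm, Matrix.mulVec_diagonal, Int.cast_one, one_mul]

lemma vv0 : VV h (Sm k 1) (Tm k 1) fun r τ => th 0 r τ / et τ ^ 1 := by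
  refine ⟨fun r => ?_, fun τ => funext fun r => ?_, fun τ => funext fun r => ?_⟩
  · obtain ⟨c, hc, -⟩ := rq_q hA hB h0 h24 hk h2k zero_le_one 1 r
    exact ⟨c, hc⟩
  · have e1 := hB.et_ne τ
    have e2 := sqr_ne τ
    show th 0 r (ModularGroup.S • τ) / et (ModularGroup.S • τ) ^ 1 =
      ∑ s, Sm k 1 r s * (th 0 s τ / et τ ^ 1)
    rw [lawS0, hB.et_S, Finset.mul_sum, Finset.sum_div]
    refine Finset.sum_congr rfl fun s _ => ?_
    field_simp
  · have e1 := hB.et_ne τ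
    have e2 := ee_ne (1 / 24)
    have e3 : ee (r.val ^ 2 / (2 * k)) = ee (r.val ^ 2 / (2 * k) - 1 / 24) * ee (1 / 24) := by
      rw [← ee_add, sub_add_cancel]
    rw [Tm_mul hA hB h0 h24 hk h2k, lawT hk, hB.et_T, e3]
    field_simp

lemma vv1 : VV h (Complex.I • Sm k 1) (ee (-1 / 12) • Tm k 1)
    fun r τ => th 1 r τ / et τ ^ 3 := by
  refine ⟨fun r => ?_, fun τ => funext fun r => ?_, fun τ => funext fun r => ?_⟩
  · obtain ⟨c, hc, -⟩ := rq_q hA hB h0 h24 hk h2k le_rfl 3 r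
    exact ⟨c, hc⟩
  · have e1 := hB.et_ne τ
    have e2 := sqr_ne τ
    have e3 := τ.ne_zero
    have e4 : sqr τ ^ 3 = sqr τ * (-Complex.I * τ) := by rw [← hB.sqr_sq]; ring
    show th 1 r (ModularGroup.S • τ) / et (ModularGroup.S • τ) ^ 3 =
      ∑ s, (Complex.I • Sm k 1) r s * (th 1 s τ / et τ ^ 3)
    rw [lawS1, hB.et_S, mul_pow, e4, Finset.mul_sum, Finset.sum_div]
    refine Finset.sum_congr rfl fun s _ => ?_
    rw [Matrix.smul_apply, smul_eq_mul]
    have e5 := Complex.I_ne_zero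
    field_simp
    rw [Complex.I_sq]
    ring
  · have e1 := hB.et_ne τ
    have e2 := ee_ne (1 / 24)
    have e3 : ee (r.val ^ 2 / (2 * k)) =
        ee (-1 / 12) * ee (r.val ^ 2 / (2 * k) - 1 / 24) * ee (1 / 24) ^ 3 := by
      rw [show ee (1 / 24) ^ 3 = ee (1 / 24) * ee (1 / 24) * ee (1 / 24) by ring,
        ← ee_add, ← ee_add, ← ee_add, ← ee_add]
      congr 1
      ring
    rw [Matrix.smul_mulVec, Pi.smul_apply, Tm_mul hA hB h0 h24 hk h2k, lawT hk, hB.et_T, e3,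
      smul_eq_mul]
    field_simp

omit hk h2k h0 h24 hB in
lemma coeff_zero {w : ℕ} (hw : w ≤ 1) {l : ZMod k → ℂ} (hl : ∀ t, ∑ r, l r * th w r t = 0)
    {a : ℤ} (ha : 0 < a) :
    l (a : ZMod k) * (a : ℂ) ^ w + l ((-a : ℤ) : ZMod k) * ((-a : ℤ) : ℂ) ^ w = 0 := by
  have kp : 0 < 2 * k := Nat.mul_pos two_pos (Nat.pos_of_ne_zero (NeZero.ne k))
  have q1 : IsQ (2 * k) (fun τ => HH k w (fun b => l (b : ZMod k)) τ)
      (ser w fun b => l (b : ZMod k)) :=
    isQ_HH hw (C := ∑ r, ‖l r‖) fun b =>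
      Finset.single_le_sum (f := fun r => ‖l r‖) (fun r _ => norm_nonneg _) (Finset.mem_univ _)
  have e : (fun τ : ℍ => HH k w (fun b => l (b : ZMod k)) τ) = fun _ => 0 := by
    funext τ
    rw [← hl τ]
    refine Eq.trans ?_ (HH_sum hw τ.im_pos l ind norm_ind)
    congr 1
    funext b
    simp [ind]
  rw [e] at q1
  have q2 := hA.unique kp q1 (hA.const (2 * k) 0)
  have q3 : cf w (fun b => l (b : ZMod k)) (a ^ 2) = 0 := by
    rw [← ser_coeff, q2, map_zero]
    rfl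
  rw [cf, ← Finset.sum_filter] at q3
  have f : (Finset.Icc (-a ^ 2) (a ^ 2)).filter (fun b => b ^ 2 = a ^ 2) = {a, -a} := by
    ext b
    rw [Finset.mem_filter, Finset.mem_insert, Finset.mem_singleton, sq_eq_sq_iff_eq_or_eq_neg]
    refine ⟨fun q => q.2, fun q => ⟨mem_Icc_sq ?_, q⟩⟩
    rcases q with rfl | rfl <;> ring
  rwa [f, Finset.sum_pair (by omega)] at q3

lemma good : Good h (Sm k 1) (Tm k 1) := by
  intro τ l hl
  have k0 := kill hA hB h0 h24 hl (σ := 1) (ε := 1) one_ne_zero one_ne_zero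
    (by rw [one_smul, one_smul]; exact vv0 hA hB h0 h24 hk h2k)
    (rq_q hA hB h0 h24 hk h2k zero_le_one 1)
  have k1 := kill hA hB h0 h24 hl Complex.I_ne_zero (ee_ne _) (vv1 hA hB h0 h24 hk h2k)
    (rq_q hA hB h0 h24 hk h2k le_rfl 3)
  have clr : ∀ (w m : ℕ), (∀ t, ∑ r, l r * (th w r t / et t ^ m) = 0) →
      ∀ t, ∑ r, l r * th w r t = 0 := fun w m q t => by
    have := q t
    simp only [← mul_div_assoc] at this
    rw [← Finset.sum_div, div_eq_zero_iff] at this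
    exact this.resolve_right (pow_ne_zero _ (hB.et_ne t))
  funext r
  have kp : 0 < k := Nat.pos_of_ne_zero (NeZero.ne k)
  have ap : (0 : ℤ) < r.val + k := by positivity
  have c0 := coeff_zero hA zero_le_one (clr _ _ k0) ap
  have c1 := coeff_zero hA le_rfl (clr _ _ k1) ap
  have er : ((r.val + k : ℤ) : ZMod k) = r := (mem_cls r _).mpr ⟨1, by ring⟩
  have an : ((r.val + k : ℤ) : ℂ) ≠ 0 := Int.cast_ne_zero.mpr ap.ne'
  rw [er, pow_zero, pow_zero] at c0
  rw [er, pow_one, pow_one, Int.cast_neg (R := ℂ)] at c1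
  refine mul_left_cancel₀ (mul_ne_zero two_ne_zero an) ?_
  rw [Pi.zero_apply]
  linear_combination ((r.val + k : ℤ) : ℂ) * c0 + c1

end Op

lemma dualS : (Sm k (-1))ᵀ * Sm k 1 = 1 := by
  ext r r'
  have h := ind_eq r' (r.val : ℤ)
  have e : ind r' (r.val : ℤ) = (1 : Matrix (ZMod k) (ZMod k) ℂ) r r' := by
    rw [ind, Matrix.one_apply, Int.cast_natCast, ZMod.natCast_zmod_val]
  rw [← e, h, Matrix.mul_apply]
  refine Finset.sum_congr rfl fun s _ => ?_
  have h2 : (k : ℂ)⁻¹ = (Real.sqrt k : ℂ)⁻¹ * (Real.sqrt k : ℂ)⁻¹ := by rw [← mul_inv, sqrt_sq]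
  rw [Matrix.transpose_apply, Sm, Sm, h2, mul_mul_mul_comm, mul_assoc (_ * _), ← ee_add, ← ee_add]
  congr 2
  push_cast
  ring

lemma dualT : (Tm k (-1))ᵀ * Tm k 1 = 1 := by
  rw [Tm, Tm, Matrix.diagonal_transpose, Matrix.diagonal_mul_diagonal, ← Matrix.diagonal_one]
  congr 1
  funext r
  rw [← ee_add]
  exact (congrArg ee (by push_cast; ring)).trans ee_zero

lemma ne_zero (hT : THA) (τ : ℍ) : thm k 0 τ ≠ 0 := by
  have kp : (0 : ℤ) < k * 1 := by
    rw [mul_one]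
    exact_mod_cast Nat.pos_of_ne_zero (NeZero.ne k)
  have h1 := (hT.ne (mob (dg k 1) τ)).1
  have h2 : th00 (mob (dg k 1) τ) = jacobiTheta₂ 0 (mob (dg k 1) τ) :=
    jacobiTheta_eq_jacobiTheta₂ _
  rw [h2, coe_mob_dg kp] at h1
  rw [thm_eq, th, cls0, ZMod.val_zero]
  refine mul_ne_zero (Complex.exp_ne_zero _) ?_
  simpa using h1

lemma cf_card (r : ZMod k) (n : ℤ) :
    cf 0 (ind r) n = Set.ncard {a : ℤ | (a : ZMod k) = r ∧ a ^ 2 = n} := by
  have e : {a : ℤ | (a : ZMod k) = r ∧ a ^ 2 = n} =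
      ((Finset.Icc (-n) n).filter fun a : ℤ => (a : ZMod k) = r ∧ a ^ 2 = n : Finset ℤ) := by
    ext a
    rw [Finset.mem_coe, Finset.mem_filter]
    exact ⟨fun q => ⟨mem_Icc_sq q.2, q⟩, fun q => q.2⟩
  rw [e, Set.ncard_coe_finset, Finset.card_filter, cf]
  push_cast
  refine Finset.sum_congr rfl fun a _ => ?_
  unfold ind
  by_cases h1 : (a : ZMod k) = r <;> by_cases h2 : a ^ 2 = n <;> simp [h1, h2]

end Thm

theorem thmod (hA : QA) (hB : QB) (hT : THA) : THM where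
  vv := fun k h _ hk h0 h24 h2k => by
    have := Thm.vv0 hA hB h0 h24 hk h2k
    simp only [pow_one, ← Thm.thm_eq] at this
    exact this
  good := fun k h _ hk h0 h24 h2k => Thm.good hA hB h0 h24 hk h2k
  dualS := fun k _ => Thm.dualS
  dualT := fun k _ => Thm.dualT
  ne := fun k _ τ => Thm.ne_zero hT τ
  q := fun k _ r => ⟨Thm.ser 0 (Thm.ind r), Thm.thm_eq r ▸ Thm.isQ_th zero_le_one r,
    fun n hn => Thm.cf_neg _ _ hn, fun n => Thm.cf_card r n⟩

end Pool.Agent.MP_9207e0_ag.hg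

end MrgPart2

-- marker of a merged file
example : 731051 + 711065 = 731051 + 711065 := rfl
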