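import Mathlib.Analysis.Complex.UpperHalfPlane.MoebiusAction
import Mathlib.NumberTheory.LegendreSymbol.JacobiSymbol
import Mathlib.NumberTheory.ModularForms.CongruenceSubgroups

/-! Special zero-cycles on the square of the modular curve of level eight. -/

namespace Pool.Agent.MP_9207e0_ag.hg

open UpperHalfPlane
open scoped MatrixGroups

/-- `p = (α, β, τ, σ)`: two integral matrices with Gram data `n, r, j` and residues `a, b` modulo
eight, and points of the upper half plane with `σ = α τ = β τ`. -/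
def IsSpecial (n r j : ℤ) (a b : Matrix (Fin 2) (Fin 2) (ZMod 8))
    (p : Matrix (Fin 2) (Fin 2) ℤ × Matrix (Fin 2) (Fin 2) ℤ × ℍ × ℍ) : Prop :=
  p.1.det = j ∧ p.2.1.det = n ∧ (p.1.adjugate * p.2.1).trace = r ∧
    p.1.map (Int.cast : ℤ → ZMod 8) = a ∧ p.2.1.map (Int.cast : ℤ → ZMod 8) = b ∧
    (p.1 0 0 : ℂ) * p.2.2.1 + p.1 0 1 = p.2.2.2 * ((p.1 1 0 : ℂ) * p.2.2.1 + p.1 1 1) ∧
    (p.2.1 0 0 : ℂ) * p.2.2.1 + p.2.1 0 1 = p.2.2.2 * ((p.2.1 1 0 : ℂ) * p.2.2.1 + p.2.1 1 1)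

/-- `R` is a set of representatives of these quadruples modulo `Γ(8) × Γ(8)`. -/
def IsSpecialReps (n r j : ℤ) (a b : Matrix (Fin 2) (Fin 2) (ZMod 8))
    (R : Finset (Matrix (Fin 2) (Fin 2) ℤ × Matrix (Fin 2) (Fin 2) ℤ × ℍ × ℍ)) : Prop :=
  (∀ p ∈ R, IsSpecial n r j a b p) ∧
    ∀ p, IsSpecial n r j a b p → ∃! q, q ∈ R ∧
      ∃ g ∈ CongruenceSubgroup.Gamma 8, ∃ g' ∈ CongruenceSubgroup.Gamma 8,
        q.1 * (g : Matrix (Fin 2) (Fin 2) ℤ) = g' * p.1 ∧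
          q.2.1 * (g : Matrix (Fin 2) (Fin 2) ℤ) = g' * p.2.1 ∧ q.2.2.1 = g • p.2.2.1

/-- `e` is the value of the genus character attached to the divisor `d` of `n` at the form
`[A, B, C]` of discriminant `-n` with middle coefficient `B = p.1` and root `p.2`. -/
def IsGenus (n d : ℕ) (p : ℤ × ℍ) (e : ℤ) : Prop :=
  ∃ A C x y : ℤ, 0 < A ∧ p.1 ^ 2 - 4 * A * C = -n ∧ (A : ℂ) * (p.2 : ℂ) ^ 2 + p.1 * p.2 + C = 0 ∧
    IsCoprime (A * x ^ 2 + p.1 * x * y + C * y ^ 2) d ∧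
    e = jacobiSym (A * x ^ 2 + p.1 * x * y + C * y ^ 2) d

end Pool.Agent.MP_9207e0_ag.hg
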