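import Pool.Agent.MP_9207e0_ag.hg.Spec

/-! The formal order of vanishing along the graph of an upper triangular matrix. -/

namespace Pool.Agent.MP_9207e0_ag.hg

open UpperHalfPlane Complex Filter Asymptotics Matrix
open scoped Real MatrixGroups Manifold Classical Kronecker

namespace Ordf

/-- Divided powers of the Euler operator in the second variable. -/
noncomputable def E (h : ℂ) (k : ℕ) (f : MM) : MM :=
  fun s => ((s 1 : ℂ) / h) ^ k / k.factorial * MvPowerSeries.coeff s f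

lemma coeff_E (h : ℂ) (k : ℕ) (f : MM) (s : Fin 2 →₀ ℕ) :
    MvPowerSeries.coeff s (E h k f) =
      ((s 1 : ℂ) / h) ^ k / k.factorial * MvPowerSeries.coeff s f := rfl

lemma E_zero (h : ℂ) (f : MM) : E h 0 f = f := by
  ext s
  simp [coeff_E]

lemma pow_div_fact (x y : ℂ) (n : ℕ) : (x + y) ^ n / n.factorial =
    ∑ p ∈ Finset.HasAntidiagonal.antidiagonal n, x ^ p.1 / p.1.factorial * (y ^ p.2 / p.2.factorial) := by
  rw [(Commute.all x y).add_pow', Finset.sum_div]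
  refine Finset.sum_congr rfl fun p hp => ?_
  rw [Finset.HasAntidiagonal.mem_antidiagonal] at hp
  subst hp
  have h1 : (p.1.factorial : ℂ) ≠ 0 := Nat.cast_ne_zero.2 (Nat.factorial_ne_zero _)
  have h2 : (p.2.factorial : ℂ) ≠ 0 := Nat.cast_ne_zero.2 (Nat.factorial_ne_zero _)
  have h3 : ((p.1 + p.2).factorial : ℂ) ≠ 0 := Nat.cast_ne_zero.2 (Nat.factorial_ne_zero _)
  rw [nsmul_eq_mul, Nat.cast_add_choose]
  field_simp

lemma E_mul (h : ℂ) (n : ℕ) (f g : MM) :
    E h n (f * g) = ∑ p ∈ Finset.HasAntidiagonal.antidiagonal n, E h p.1 f * E h p.2 g := by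
  ext s
  simp only [coeff_E, map_sum, MvPowerSeries.coeff_mul, Finset.mul_sum]
  rw [Finset.sum_comm]
  refine Finset.sum_congr rfl fun q hq => ?_
  rw [Finset.HasAntidiagonal.mem_antidiagonal] at hq
  subst hq
  rw [Finsupp.add_apply, Nat.cast_add, add_div, pow_div_fact, Finset.sum_mul]
  exact Finset.sum_congr rfl fun p _ => by ring

lemma E_add (h : ℂ) (k : ℕ) (f g : MM) : E h k (f + g) = E h k f + E h k g := by
  ext s
  simp only [coeff_E, map_add, mul_add]

/-- Powers of the Euler operator in one variable. -/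
noncomputable def D1 (h : ℂ) (k : ℕ) : PowerSeries ℂ →ₗ[ℂ] PowerSeries ℂ where
  toFun G := PowerSeries.mk fun n => ((n : ℂ) / h) ^ k * PowerSeries.coeff n G
  map_add' F G := by ext n; simp [mul_add]
  map_smul' c G := by ext n; simp [mul_left_comm]

lemma coeff_D1 (h : ℂ) (k n : ℕ) (G : PowerSeries ℂ) :
    PowerSeries.coeff n (D1 h k G) = ((n : ℂ) / h) ^ k * PowerSeries.coeff n G := by
  simp [D1]

lemma coeff_toMv (G : PowerSeries ℂ) (i : Fin 2) (s : Fin 2 →₀ ℕ) :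
    MvPowerSeries.coeff s (G.toMvPowerSeries i) =
      if s = Finsupp.single i (s i) then PowerSeries.coeff (s i) G else 0 := by
  rw [PowerSeries.toMvPowerSeries_eq_subst, PowerSeries.coeff_subst_single]

lemma E_toMv_zero (h : ℂ) (k : ℕ) (F : PowerSeries ℂ) :
    E h (k + 1) (F.toMvPowerSeries 0) = 0 := by
  ext s
  rw [coeff_E, coeff_toMv]
  split_ifs with hs
  · have : s 1 = 0 := by rw [hs]; simp
    simp [this]
  · simp

lemma E_toMv_one (h : ℂ) (k : ℕ) (G : PowerSeries ℂ) :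
    E h k (G.toMvPowerSeries 1) = ((k.factorial : ℂ)⁻¹ • D1 h k G).toMvPowerSeries 1 := by
  ext s
  rw [coeff_E, coeff_toMv, coeff_toMv]
  split_ifs with hs
  · rw [map_smul, coeff_D1, smul_eq_mul]
    ring
  · simp

/-- The Taylor expansion in the direction of the second variable. -/
noncomputable def TT (h : ℂ) (Ψ : MM →ₐ[ℂ] PowerSeries ℂ) :
    MM →+* PowerSeries (PowerSeries ℂ) where
  toFun f := PowerSeries.mk fun k => Ψ (E h k f)
  map_one' := by
    ext1 k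
    rw [PowerSeries.coeff_mk, PowerSeries.coeff_one]
    cases k with
    | zero => simp [E_zero]
    | succ k =>
      have := E_toMv_zero h k 1
      rw [map_one] at this
      simp [this]
  map_mul' f g := by
    ext1 k
    simp only [PowerSeries.coeff_mk, PowerSeries.coeff_mul, E_mul, map_sum, map_mul]
  map_zero' := by
    ext1 k
    have : E h k 0 = 0 := by ext s; simp [coeff_E]
    simp [this]
  map_add' f g := by
    ext1 k
    simp only [PowerSeries.coeff_mk, E_add, map_add]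

lemma coeff_TT (h : ℂ) (Ψ : MM →ₐ[ℂ] PowerSeries ℂ) (k : ℕ) (f : MM) :
    PowerSeries.coeff k (TT h Ψ f) = Ψ (E h k f) :=
  PowerSeries.coeff_mk k fun k => Ψ (E h k f)

lemma TT_toMv_zero (h : ℂ) (Ψ : MM →ₐ[ℂ] PowerSeries ℂ) (F : PowerSeries ℂ) :
    TT h Ψ (F.toMvPowerSeries 0) = PowerSeries.C (Ψ (F.toMvPowerSeries 0)) := by
  ext1 k
  rw [coeff_TT, PowerSeries.coeff_C]
  cases k with
  | zero => simp [E_zero]
  | succ k => simp [E_toMv_zero]

lemma coeff_TT_sum (h : ℂ) (Ψ : MM →ₐ[ℂ] PowerSeries ℂ) {n : ℕ} (F G : Fin n → PowerSeries ℂ)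
    (k : ℕ) :
    PowerSeries.coeff k (TT h Ψ (∑ i, (F i).toMvPowerSeries 0 * (G i).toMvPowerSeries 1)) =
      (k.factorial : ℂ)⁻¹ •
        ∑ i, Ψ ((F i).toMvPowerSeries 0) * Ψ ((D1 h k (G i)).toMvPowerSeries 1) := by
  simp only [map_sum, map_mul, TT_toMv_zero, PowerSeries.coeff_C_mul, coeff_TT, E_toMv_one,
    map_smul, Finset.smul_sum, mul_smul_comm]

/-- The monomial that is substituted. -/
noncomputable def mon (k : ℕ) (ω : ℂ) : PowerSeries ℂ := PowerSeries.C ω * PowerSeries.X ^ k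

lemma mon_const {k : ℕ} (hk : 0 < k) (ω : ℂ) : PowerSeries.constantCoeff (mon k ω) = 0 := by
  simp [mon, hk.ne']

lemma mon_pow (k m : ℕ) (ω : ℂ) : mon k ω ^ m = mon (k * m) (ω ^ m) := by
  simp [mon, mul_pow, pow_mul]

lemma coeff_mon (k m : ℕ) (ω : ℂ) : PowerSeries.coeff m (mon k ω) = if m = k then ω else 0 := by
  simp [mon, PowerSeries.coeff_X_pow]

lemma hasSubst {a d : ℕ} (ha : 0 < a) (hd : 0 < d) (ω : ℂ) :
    MvPowerSeries.HasSubst (![mon d 1, mon a ω] : Fin 2 → PowerSeries ℂ) :=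
  MvPowerSeries.hasSubst_of_constantCoeff_zero fun i => by
    fin_cases i
    · exact mon_const hd 1
    · exact mon_const ha ω

/-- Restriction to the graph. -/
noncomputable def Ψ {a d : ℕ} (ha : 0 < a) (hd : 0 < d) (ω : ℂ) : MM →ₐ[ℂ] PowerSeries ℂ :=
  MvPowerSeries.substAlgHom (hasSubst ha hd ω)

lemma Ψ_zero {a d : ℕ} (ha : 0 < a) (hd : 0 < d) (ω : ℂ) (F : PowerSeries ℂ) :
    Ψ ha hd ω (F.toMvPowerSeries 0) = F.subst (mon d 1) := by
  rw [Ψ, MvPowerSeries.substAlgHom_apply, PowerSeries.subst_toMvPowerSeries (hasSubst ha hd ω)]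
  rfl

lemma Ψ_one {a d : ℕ} (ha : 0 < a) (hd : 0 < d) (ω : ℂ) (F : PowerSeries ℂ) :
    Ψ ha hd ω (F.toMvPowerSeries 1) = F.subst (mon a ω) := by
  rw [Ψ, MvPowerSeries.substAlgHom_apply, PowerSeries.subst_toMvPowerSeries (hasSubst ha hd ω)]
  rfl

lemma Ψ_X0 {a d : ℕ} (ha : 0 < a) (hd : 0 < d) (ω : ℂ) :
    Ψ ha hd ω (MvPowerSeries.X 0) = mon d 1 :=
  MvPowerSeries.substAlgHom_X (hasSubst ha hd ω) 0

lemma Ψ_X1 {a d : ℕ} (ha : 0 < a) (hd : 0 < d) (ω : ℂ) :
    Ψ ha hd ω (MvPowerSeries.X 1) = mon a ω :=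
  MvPowerSeries.substAlgHom_X (hasSubst ha hd ω) 1

lemma coeff_subst_mon {k : ℕ} (hk : 0 < k) (ω : ℂ) (G : PowerSeries ℂ) (m : ℕ) :
    PowerSeries.coeff m (G.subst (mon k ω) : PowerSeries ℂ) =
      if k ∣ m then ω ^ (m / k) * PowerSeries.coeff (m / k) G else 0 := by
  rw [PowerSeries.coeff_subst' (PowerSeries.HasSubst.of_constantCoeff_zero' (mon_const hk ω))]
  simp only [mon_pow, coeff_mon]
  split_ifs with h
  · obtain ⟨j, rfl⟩ := h
    rw [finsum_eq_single _ j, Nat.mul_div_cancel_left j hk]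
    · simp [mul_comm]
    · intro i hi
      rw [if_neg, smul_zero]
      exact fun e => hi (Nat.eq_of_mul_eq_mul_left hk e).symm
  · refine finsum_eq_zero_of_forall_eq_zero fun j => ?_
    rw [if_neg, smul_zero]
    exact fun e => h ⟨j, e⟩

lemma coeff_ofPS (G : PowerSeries ℂ) (n : ℤ) : (HahnSeries.ofPowerSeries ℤ ℂ G).coeff n =
    if n < 0 then 0 else PowerSeries.coeff n.natAbs G := PowerSeries.coeff_coe G n

lemma isSub {k : ℕ} (hk : 0 < k) (ω : ℂ) (G : PowerSeries ℂ) :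
    IsSub k ω (HahnSeries.ofPowerSeries ℤ ℂ G)
      (HahnSeries.ofPowerSeries ℤ ℂ (G.subst (mon k ω))) := by
  constructor
  · intro n
    rcases lt_or_ge n 0 with hn | hn
    · have : (k : ℤ) * n < 0 := mul_neg_of_pos_of_neg (by exact_mod_cast hk) hn
      rw [coeff_ofPS, coeff_ofPS, if_pos this, if_pos hn, mul_zero]
    · lift n to ℕ using hn
      rw [← Nat.cast_mul, HahnSeries.ofPowerSeries_apply_coeff,
        HahnSeries.ofPowerSeries_apply_coeff, coeff_subst_mon hk, if_pos (dvd_mul_right k n),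
        Nat.mul_div_cancel_left n hk, zpow_natCast]
  · intro m hm
    rcases lt_or_ge m 0 with hn | hn
    · rw [coeff_ofPS, if_pos hn]
    · lift m to ℕ using hn
      rw [HahnSeries.ofPowerSeries_apply_coeff, coeff_subst_mon hk, if_neg]
      exact fun e => hm (Int.natCast_dvd_natCast.2 e)

lemma eq_of_isQ {h : ℕ} {a b : ℍ → ℂ} {c : LS} (ha : IsQ h a c) (hb : IsQ h b c) : a = b :=
  funext fun τ => (ha τ).unique (hb τ)

lemma isQ_zero (h : ℕ) : IsQ h 0 0 := fun τ => by simp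

lemma isQ_iter (hA : QA) {h : ℕ} (hh : 0 < h) {w : ℍ → ℂ} {G : PowerSeries ℂ}
    (hw : IsQ h w (HahnSeries.ofPowerSeries ℤ ℂ G)) (k : ℕ) :
    IsQ h (dd^[k] w) (HahnSeries.ofPowerSeries ℤ ℂ (D1 h k G)) := by
  induction k with
  | zero =>
    have : D1 h 0 G = G := by ext n; simp [coeff_D1]
    rwa [this]
  | succ k ih =>
    obtain ⟨c', h1, h2⟩ := hA.deriv hh ih
    rw [Function.iterate_succ_apply']
    convert h1
    ext n
    rw [h2, coeff_ofPS, coeff_ofPS]
    split_ifs with hn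
    · simp
    · lift n to ℕ using not_lt.1 hn
      simp only [coeff_D1, Int.natAbs_natCast, Int.cast_natCast]
      ring

lemma iteratedDeriv_eq (k : ℕ) (w : ℍ → ℂ) (τ : ℍ) :
    iteratedDeriv k (w ∘ ofComplex) τ = (2 * π * Complex.I) ^ k * dd^[k] w τ := by
  induction k generalizing w with
  | zero => simp
  | succ k ih =>
    have h1 : deriv (w ∘ ofComplex) =ᶠ[nhds (τ : ℂ)]
        fun z => (2 * π * Complex.I) * (dd w ∘ ofComplex) z := by
      filter_upwards [isOpen_upperHalfPlaneSet.mem_nhds τ.im_pos] with z hz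
      rw [Function.comp_apply, ofComplex_apply_of_im_pos hz, dd, ← mul_assoc,
        mul_inv_cancel₀ two_pi_I_ne_zero, one_mul]
    rw [iteratedDeriv_succ', h1.iteratedDeriv_eq, iteratedDeriv_const_mul_field, ih,
      Function.iterate_succ_apply]
    ring

lemma le_ordE {w : ℍ → ℂ} (hw : Hol w) (τ : ℍ) (n : ℕ) :
    (n : ℕ∞) ≤ ordE w τ ↔ ∀ k < n, dd^[k] w τ = 0 := by
  rw [ordE, natCast_le_analyticOrderAt_iff_iteratedDeriv_eq_zero (hol_iff.1 hw τ)]
  refine forall₂_congr fun k _ => ?_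
  rw [iteratedDeriv_eq, mul_eq_zero, or_iff_right (pow_ne_zero _ two_pi_I_ne_zero)]

lemma isQ_shift (hA : QA) {h : ℕ} (hh : 0 < h) {w : ℍ → ℂ} {α : ℤ} {c : LS}
    (hw : IsQ h w (HahnSeries.single (-α) 1 * c)) : IsQ h (w * fun τ : ℍ => ee (α * τ / h)) c := by
  have := hA.mul hh hw (hA.single h α)
  rwa [mul_right_comm, HahnSeries.single_mul_single, neg_add_cancel, one_mul,
    HahnSeries.single_zero_one, one_mul] at this

lemma ofPS_smul (z : ℂ) (G : PowerSeries ℂ) :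
    HahnSeries.ofPowerSeries ℤ ℂ (z • G) = z • HahnSeries.ofPowerSeries ℤ ℂ G := by
  ext n
  rw [HahnSeries.coeff_smul, coeff_ofPS, coeff_ofPS]
  split_ifs <;> simp

lemma isQ_comb (hA : QA) {h n : ℕ} (z : Fin n → ℂ) {w : Fin n → ℍ → ℂ}
    {G : Fin n → PowerSeries ℂ} (hw : ∀ i, IsQ h (w i) (HahnSeries.ofPowerSeries ℤ ℂ (G i))) :
    IsQ h (∑ i, z i • w i) (HahnSeries.ofPowerSeries ℤ ℂ (∑ i, z i • G i)) := by
  simp only [map_sum, ofPS_smul]
  exact hA.sum _ _ _ fun i _ => hA.smul _ (hw i)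

/-- The analytic order along the graph is the formal order. -/
lemma ordC_eq (hA : QA) {h a d : ℕ} (hh : 0 < h) (ha : 0 < a) (hd : 0 < d) (b : ℤ)
    {P : ℍ → ℍ → ℂ} {α β : ℤ} {P' : MM} (hP : Exp2 h P α β P') :
    ordC !![(a : ℤ), b; 0, (d : ℤ)] P =
      (TT h (Ψ ha hd (ee (b / (h * (d : ℤ))))) P').order := by
  obtain ⟨n, w, w', F, G, hw, rfl, rfl⟩ := hP
  set x : M2 := !![(a : ℤ), b; 0, (d : ℤ)] with hx
  set ω := ee (b / (h * (d : ℤ))) with hω
  set u : Fin n → ℍ → ℂ := fun i => w i * fun τ : ℍ => ee (α * τ / h) with hu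
  set u' : Fin n → ℍ → ℂ := fun i => w' i * fun τ : ℍ => ee (β * τ / h) with hu'
  have h1 : ∀ i, IsQ h (u i) (HahnSeries.ofPowerSeries ℤ ℂ (F i)) := fun i =>
    isQ_shift hA hh (hw i).2.2.1
  have h2 : ∀ i, IsQ h (u' i) (HahnSeries.ofPowerSeries ℤ ℂ (G i)) := fun i =>
    isQ_shift hA hh (hw i).2.2.2
  have h3 : ∀ t s, ordE (fun s => ∑ i, w i t * w' i s) s = ordE (∑ i, u i t • u' i) s := by
    intro t s
    have e1 : (∑ i, u i t • u' i) = (∑ i, w i t • w' i) *
        (ee (α * t / h) • fun τ : ℍ => ee (β * τ / h)) := by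
      funext σ
      simp only [hu, hu', Finset.sum_apply, Pi.smul_apply, Pi.mul_apply, smul_eq_mul,
        Finset.sum_mul]
      exact Finset.sum_congr rfl fun i _ => by ring
    have e2 : (fun s => ∑ i, w i t * w' i s) = ∑ i, w i t • w' i := by
      funext σ
      simp only [Finset.sum_apply, Pi.smul_apply, smul_eq_mul]
    have e3 : Hol (∑ i, w i t • w' i) :=
      hA.hol hh (hA.sum _ _ _ fun i _ => hA.smul (w i t) (hw i).2.2.2)
    have e4 : Hol (ee (α * t / h) • fun τ : ℍ => ee (β * τ / h)) :=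
      hA.hol hh (hA.smul _ (hA.single h β))
    rw [e1, e2, ordE_mul e3 e4, (ordE_eq_zero e4 s).2, add_zero]
    exact mul_ne_zero (exp_ne_zero _) (exp_ne_zero _)
  have h4 : ∀ k t, dd^[k] (∑ i, u i t • u' i) = ∑ i, u i t • dd^[k] (u' i) := by
    intro k t
    refine eq_of_isQ (isQ_iter hA hh (isQ_comb hA _ h2) k) ?_
    simp only [map_sum (D1 h k), map_smul]
    exact isQ_comb hA _ fun i => isQ_iter hA hh (h2 i) k
  have h5 : ∀ k, IsQ (d * h) (∑ i, u i * fun t => dd^[k] (u' i) (mob x t))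
      (HahnSeries.ofPowerSeries ℤ ℂ (∑ i, Ψ ha hd ω ((F i).toMvPowerSeries 0) *
        Ψ ha hd ω ((D1 h k (G i)).toMvPowerSeries 1))) := by
    intro k
    simp only [map_sum, map_mul, Ψ_zero, Ψ_one]
    refine hA.sum _ _ _ fun i _ => hA.mul (Nat.mul_pos hd hh) ?_ ?_
    · exact (hA.level hh hd (isSub hd 1 _)).2 (h1 i)
    · refine hA.comp (k := a) hh (Nat.mul_pos hd hh) (by exact_mod_cast ha) (by exact_mod_cast hd)
        (by push_cast; ring) (isQ_iter hA hh (h2 i) k) (isSub ha ω _)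
  refine ENat.eq_of_forall_natCast_le_iff fun m => ?_
  have h6 : (m : ℕ∞) ≤ ordC x (fun t s => ∑ i, w i t * w' i s) ↔
      ∀ k < m, (∑ i, u i * fun t => dd^[k] (u' i) (mob x t)) = 0 := by
    simp only [ordC, le_iInf_iff, h3, le_ordE (hA.hol hh (isQ_comb hA _ h2)), h4, funext_iff,
      Finset.sum_apply, Pi.smul_apply, Pi.mul_apply, smul_eq_mul, Pi.zero_apply]
    exact ⟨fun H k hk t => H t k hk, fun H t k hk => H k hk t⟩
  rw [h6]
  constructor
  · intro H
    refine PowerSeries.nat_le_order _ _ fun k hk => ?_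
    have h7 := h5 k
    rw [H k hk] at h7
    have h8 := hA.unique (Nat.mul_pos hd hh) h7 (isQ_zero _)
    rw [map_eq_zero_iff _ HahnSeries.ofPowerSeries_injective] at h8
    rw [coeff_TT_sum, h8, smul_zero]
  · intro H k hk
    have h7 := PowerSeries.coeff_of_lt_order k (lt_of_lt_of_le (by exact_mod_cast hk) H)
    rw [coeff_TT_sum, smul_eq_zero, or_iff_right
      (inv_ne_zero (Nat.cast_ne_zero.2 (Nat.factorial_ne_zero k)))] at h7
    have h8 := h5 k
    rw [h7, map_zero] at h8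
    exact eq_of_isQ h8 (isQ_zero _)

lemma dvd_of_prim {a b d e : ℤ} (hp : Prim !![a, b; 0, d]) (h1 : d ∣ a * e) (h2 : d ∣ b * e) :
    d ∣ e := by
  have h3 : IsUnit (gcd a (gcd b d)) := hp _ fun i k => by
    fin_cases i <;> fin_cases k
    · exact gcd_dvd_left _ _
    · exact (gcd_dvd_right _ _).trans (gcd_dvd_left _ _)
    · exact dvd_zero _
    · exact (gcd_dvd_right _ _).trans (gcd_dvd_right _ _)
  obtain ⟨x, y, hxy⟩ := exists_gcd_eq_mul_add_mul a (gcd b d)
  obtain ⟨z, t, hzt⟩ := exists_gcd_eq_mul_add_mul b d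
  refine (h3.dvd_mul_left).1 ?_
  rw [hxy, hzt]
  have : (a * x + (b * z + d * t) * y) * e = a * e * x + b * e * (z * y) + d * (t * y * e) := by
    ring
  rw [this]
  exact dvd_add (dvd_add (h1.mul_right _) (h2.mul_right _)) (dvd_mul_right _ _)

lemma ee_eq_iff (x y : ℂ) : ee x = ee y ↔ ∃ n : ℤ, x = y + n := by
  rw [ee, ee, exp_eq_exp_iff_exists_int]
  refine exists_congr fun n => ⟨fun h => mul_left_cancel₀ two_pi_I_ne_zero ?_, fun h => ?_⟩
  · rw [h]; ring
  · rw [h]; ring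

lemma ee_ne (x : ℂ) : ee x ≠ 0 := exp_ne_zero _

lemma ee_pow (x : ℂ) (n : ℕ) : ee x ^ n = ee (n * x) := by
  rw [ee, ee, ← exp_nat_mul]
  ring_nf

lemma Ψ_ell {a d : ℕ} (ha : 0 < a) (hd : 0 < d) (ω : ℂ) (N L : ℕ) (i : ℕ × ℕ × ℕ) :
    Ψ ha hd ω (ell N L i) =
      mon (a * (L * i.2.2)) (ω ^ (L * i.2.2)) - mon (d * (L * i.1)) (ee (i.2.1 / N)) := by
  have h1 : (MvPowerSeries.C (ee (i.2.1 / N)) : MM) = algebraMap ℂ MM (ee (i.2.1 / N)) := rfl
  rw [ell, map_sub, map_mul, map_pow, map_pow, Ψ_X0, Ψ_X1, mon_pow, mon_pow, h1, AlgHom.commutes]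
  simp [mon]

lemma Ψ_ell_eq_zero {a d N L : ℕ} (ha : 0 < a) (hd : 0 < d) (hN : 0 < N) (hL : 0 < L) {b : ℤ}
    (hp : Prim !![(a : ℤ), b; 0, (d : ℤ)]) (i : ℕ × ℕ × ℕ) :
    Ψ ha hd (ee (b / ((N * L : ℕ) * (d : ℤ)))) (ell N L i) = 0 ↔
      ∃ k : ℤ, (i.1 : ℤ) = k * a ∧ (i.2.2 : ℤ) = k * d ∧ ((i.2.1 : ℤ) : ZMod N) = (k * b : ℤ) := by
  obtain ⟨a', b', d'⟩ := i
  have hN' : (N : ℂ) ≠ 0 := Nat.cast_ne_zero.2 hN.ne'
  have hL' : (L : ℂ) ≠ 0 := Nat.cast_ne_zero.2 hL.ne'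
  have hd' : (d : ℂ) ≠ 0 := Nat.cast_ne_zero.2 hd.ne'
  have hdz : (d : ℤ) ≠ 0 := Nat.cast_ne_zero.2 hd.ne'
  rw [Ψ_ell, sub_eq_zero, ee_pow]
  dsimp only
  constructor
  · intro h
    have h1 := congrArg (PowerSeries.coeff (d * (L * a'))) h
    rw [coeff_mon, coeff_mon, if_pos rfl] at h1
    split_ifs at h1 with h2
    · obtain ⟨n, hn⟩ := (ee_eq_iff _ _).1 h1
      have h3 : (d : ℤ) * a' = a * d' := by
        have : L * (d * a') = L * (a * d') := by linarith
        exact_mod_cast Nat.eq_of_mul_eq_mul_left hL this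
      have h4 : b * d' = d * (b' + n * N) := by
        push_cast at hn
        field_simp at hn
        have : (b : ℂ) * d' = d * (b' + n * N) := by linear_combination hn
        exact_mod_cast this
      obtain ⟨k, hk⟩ := dvd_of_prim hp ⟨_, h3.symm⟩ ⟨_, h4⟩
      refine ⟨k, mul_left_cancel₀ hdz ?_, by rw [hk, mul_comm], ?_⟩
      · rw [h3, hk]; ring
      · have h5 : k * b = b' + n * N := by
          refine mul_left_cancel₀ hdz ?_
          rw [← h4, hk]; ring
        rw [h5]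
        simp
    · exact absurd h1.symm (exp_ne_zero _)
  · rintro ⟨k, h1, h2, h3⟩
    obtain ⟨n, hn⟩ := (ZMod.intCast_eq_intCast_iff_dvd_sub _ _ _).1 h3
    have h4 : a * (L * d') = d * (L * a') := by
      have : (a : ℤ) * (L * d') = d * (L * a') := by rw [h1, h2]; ring
      exact_mod_cast this
    rw [h4]
    congr 1
    refine (ee_eq_iff _ _).2 ⟨n, ?_⟩
    have h5 : (d' : ℂ) = k * d := by exact_mod_cast h2
    have h6 : (k : ℂ) * b - b' = N * n := by exact_mod_cast hn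
    push_cast
    rw [h5]
    field_simp
    linear_combination h6

lemma order_ell {a d N L : ℕ} (ha : 0 < a) (hd : 0 < d) (hL : 0 < L) {h ω : ℂ} (hh : h ≠ 0)
    (hω : ω ≠ 0) (i : ℕ × ℕ × ℕ) (hi : 0 < i.2.2) :
    (TT h (Ψ ha hd ω) (ell N L i)).order = if Ψ ha hd ω (ell N L i) = 0 then 1 else 0 := by
  split_ifs with h0
  · refine (PowerSeries.order_eq_nat (n := 1)).2 ⟨?_, fun j hj => ?_⟩
    · have h1 : ell N L i = (PowerSeries.X ^ (L * i.2.2) : PowerSeries ℂ).toMvPowerSeries 1 -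
          (PowerSeries.C (ee (i.2.1 / N)) * PowerSeries.X ^ (L * i.1) :
            PowerSeries ℂ).toMvPowerSeries 0 := by
        simp [ell]
      have h2 : D1 h 1 (PowerSeries.X ^ (L * i.2.2)) =
          (((L * i.2.2 : ℕ) : ℂ) / h) • PowerSeries.X ^ (L * i.2.2) := by
        ext n
        rw [coeff_D1, map_smul, PowerSeries.coeff_X_pow]
        split_ifs with hn
        · rw [hn]; simp
        · simp
      rw [h1, map_sub, map_sub, TT_toMv_zero, PowerSeries.coeff_C, if_neg one_ne_zero, sub_zero,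
        coeff_TT, E_toMv_one, h2]
      simp only [map_smul, map_pow, PowerSeries.toMvPowerSeries_X, Ψ_X1, Nat.factorial_one,
        Nat.cast_one, inv_one, one_smul]
      refine smul_ne_zero (div_ne_zero (Nat.cast_ne_zero.2 (Nat.mul_pos hL hi).ne') hh)
        (pow_ne_zero _ fun e => hω ?_)
      simpa [coeff_mon] using congrArg (PowerSeries.coeff a) e
    · obtain rfl : j = 0 := by omega
      rw [coeff_TT, E_zero, h0]
  · refine (PowerSeries.order_eq_nat (n := 0)).2 ⟨?_, fun j hj => absurd hj (Nat.not_lt_zero j)⟩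
    rwa [coeff_TT, E_zero]

end Ordf

open Ordf in
theorem ordf (hA : QA) (_hB : QB) : OrdfStmt := by
  intro N L M P Q α β α' β' P' Q' υ u v a b d hN hL hP hQ hυ heq ha hd hp
  lift a to ℕ using ha.le
  lift d to ℕ using hd.le
  have ha' : 0 < a := by exact_mod_cast ha
  have hd' : 0 < d := by exact_mod_cast hd
  have hh : 0 < N * L := Nat.mul_pos hN hL
  rw [ordC_eq hA hh ha' hd' b hP, ordC_eq hA hh ha' hd' b hQ]
  set T := TT ((N * L : ℕ) : ℂ) (Ψ ha' hd' (ee (b / ((N * L : ℕ) * (d : ℤ))))) with hT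
  have h1 : ∀ e : ℕ × ℕ × ℕ → ℕ, (T (∏ i ∈ Ix N M, ell N L i ^ e i)).order =
      ((∑ i ∈ Ix N M, if ∃ k : ℤ, (i.1 : ℤ) = k * a ∧ (i.2.2 : ℤ) = k * d ∧
        ((i.2.1 : ℤ) : ZMod N) = (k * b : ℤ) then e i else 0 : ℕ) : ℕ∞) := by
    intro e
    rw [map_prod, PowerSeries.order_prod, Nat.cast_sum]
    refine Finset.sum_congr rfl fun i hi => ?_
    have hi' : 0 < i.2.2 := by
      simp only [Ix, Finset.mem_filter, Finset.mem_product, Finset.mem_Icc] at hi
      omega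
    rw [map_pow, PowerSeries.order_pow, hT, order_ell ha' hd' hL (Nat.cast_ne_zero.2 hh.ne')
      (ee_ne _) i hi']
    simp only [Ψ_ell_eq_zero ha' hd' hN hL hp]
    split_ifs <;> simp
  have h2 : (T υ).order = 0 :=
    PowerSeries.order_zero_of_unit
      ((MvPowerSeries.isUnit_iff_constantCoeff.2 (hυ ▸ isUnit_one)).map T)
  have h3 := congrArg (fun f => (T f).order) heq
  simp only [map_mul, PowerSeries.order_mul, h1, h2, zero_add] at h3
  exact h3

end Pool.Agent.MP_9207e0_ag.hg
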