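import Pool.Agent.MP_9207e0_ag.hg.Main
import Pool.Agent.MP_9207e0_ag.hg.Defs2
import Pool.Agent.MP_9207e0_ag.hg.E2A
import Pool.Agent.MP_9207e0_ag.hg.App
import Pool.Agent.MP_9207e0_ag.hg.Inp
import Pool.Agent.MP_9207e0_ag.hg.Form
import Pool.Agent.MP_9207e0_ag.hg.ThB
import Pool.Agent.MP_9207e0_ag.hg.Thm
import Pool.Agent.MP_9207e0_ag.hg.Rec
import Pool.Agent.MP_9207e0_ag.hg.Heeg
import Pool.Agent.MP_9207e0_ag.hg.Proda
import Pool.Agent.MP_9207e0_ag.hg.Ordf

-- ======== part 0: formerly Pool.Agent.MP_9207e0_ag.hg.Reps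
section MrgPart0

/-! Existence of representatives of the Heegner forms. -/

namespace Pool.Agent.MP_9207e0_ag.hg

open UpperHalfPlane
open scoped MatrixGroups Classical

theorem exists_reps (hS : OS) (hO : ORB) (hF : FS) {n : ℕ} (hn : 0 < n) :
    ∃ R, IsHeegnerReps n R := by
  obtain ⟨T, hT⟩ := hO.fin_cm 8 (-n) (by norm_num) (by omega)
  have he := hF.relG_equiv 8
  let S : Set (ℤ × ℍ) := {p | IsHeegner n p.1 p.2}
  have ch : ∀ t : ℍ, ∃ y : ℤ × ℍ, (∃ x ∈ S, relG 8 x.2 t) → y ∈ S ∧ relG 8 y.2 t := by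
    intro t
    by_cases h : ∃ x ∈ S, relG 8 x.2 t
    · obtain ⟨x, hx⟩ := h
      exact ⟨x, fun _ => hx⟩
    · exact ⟨(0, t), fun h' => absurd h' h⟩
  choose c hc using ch
  obtain ⟨R, h1, h2⟩ := hS.exists_rep (r := fun p q : ℤ × ℍ => relG 8 p.2 q.2) (S := S)
    (T := c '' T) ⟨fun p => he.refl _, fun h => he.symm h, fun h h' => he.trans h h'⟩
    (T.finite_toSet.image c) (by
      intro x hx
      obtain ⟨A, C, -, -, -, e1, e2⟩ := id hx
      obtain ⟨g, hg, ht⟩ := hT x.2 A x.1 C e1 e2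
      obtain ⟨k1, k2⟩ := hc (g • x.2) ⟨x, hx, g, hg, rfl⟩
      exact ⟨c (g • x.2), ⟨_, ht, rfl⟩, k1, he.trans ⟨g, hg, rfl⟩ (he.symm k2)⟩)
  exact ⟨R, h1, fun B τ h => h2 (B, τ) h⟩

end Pool.Agent.MP_9207e0_ag.hg

end MrgPart0

-- ======== part 1: formerly Pool.Agent.MP_9207e0_ag.hg.Spc
section MrgPart1

/-! Assembly: the symbol vanishes on special cycles. -/

set_option linter.unusedSectionVars false
set_option linter.unusedVariables false

namespace Pool.Agent.MP_9207e0_ag.hg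

open UpperHalfPlane Complex Filter Asymptotics Matrix AlgebraicGeometry CategoryTheory
open scoped Real MatrixGroups Manifold Classical TensorProduct

lemma pos_of_gram {n r j : ℤ} (hj : 0 < j) (h : r ^ 2 < 4 * n * j) : 0 < n := by
  by_contra h0
  nlinarith [sq_nonneg r, mul_nonneg (neg_nonneg.mpr (not_lt.mp h0)) hj.le]

lemma special_iff {n r j : ℤ} {a b : MN 8} (hj : 0 < j) (h : r ^ 2 < 4 * n * j)
    (p : M2 × M2 × ℍ × ℍ) : IsSpecial n r j a b p ↔
      (p.1, p.2.1, p.2.2.1) ∈ ZSet n r j a b ∧ p.2.2.2 = mob p.1 p.2.2.1 := by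
  have hn := pos_of_gram hj h
  constructor
  · rintro ⟨h1, h2, h3, h4, h5, h6, h7⟩
    have e1 := (mob_eq_iff (A := p.1) (h1 ▸ hj) _ _).mpr h6
    have e2 := (mob_eq_iff (A := p.2.1) (h2 ▸ hn) _ _).mpr h7
    exact ⟨⟨h1, h2, h3, h4, h5, e1.trans e2.symm⟩, e1.symm⟩
  · rintro ⟨⟨h1, h2, h3, h4, h5, h6⟩, h7⟩
    exact ⟨h1, h2, h3, h4, h5, (mob_eq_iff (A := p.1) (h1 ▸ hj) _ _).mp h7.symm,
      (mob_eq_iff (A := p.2.1) (h2 ▸ hn) _ _).mp (h7.trans h6).symm⟩

lemma alg_of_fix (hC : JC) {x : M2} {τ : ℍ} (hx : x.trace ^ 2 < 4 * x.det) (h : mob x τ = τ) :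
    IsAlgebraic ℚ (jf τ) := by
  have h0 : 0 < x.det := by nlinarith [sq_nonneg x.trace]
  rw [mob_fix_iff h0] at h
  refine hC.alg_cm (x 1 0) (x 1 1 - x 0 0) (-x 0 1) τ (fun e => ?_)
    (by push_cast; linear_combination h)
  rw [Matrix.det_fin_two, Matrix.trace_fin_two, e] at hx
  nlinarith [sq_nonneg (x 0 0 - x 1 1)]

lemma special_alg (hC : JC) {n r j : ℤ} {a b : MN 8} (hj : 0 < j) (h : r ^ 2 < 4 * n * j)
    {p : M2 × M2 × ℍ × ℍ} (hp : IsSpecial n r j a b p) :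
    IsAlgebraic ℚ (jf p.2.2.1) ∧ IsAlgebraic ℚ (jf p.2.2.2) := by
  have hn := pos_of_gram hj h
  obtain ⟨⟨h1, h2, h3, -, -, h6⟩, h7⟩ := (special_iff hj h p).mp hp
  simp only at h1 h2 h3 h6
  have d1 : 0 < p.1.det := h1 ▸ hj
  have d2 : 0 < p.2.1.det := h2 ▸ hn
  have da : p.1.adjugate.det = j := by rw [Matrix.det_adjugate]; simpa using h1
  constructor
  · refine alg_of_fix hC (x := p.1.adjugate * p.2.1) ?_ ?_
    · rw [h3, Matrix.det_mul, da, h2]; linarith
    · rw [mob_mul (det_adj_pos d1) d2, ← h6, mob_adj_mob d1]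
  · refine alg_of_fix hC (x := p.2.1 * p.1.adjugate) ?_ ?_
    · rw [Matrix.trace_mul_comm, h3, Matrix.det_mul, da, h2]; linarith
    · rw [mob_mul d2 (det_adj_pos d1), h7, mob_adj_mob d1, h6]

lemma exists_special (hF : FS) {n r j : ℤ} (a b : MN 8) (hj : 0 < j) (h : r ^ 2 < 4 * n * j) :
    ∃ R, IsSpecialReps n r j a b R := by
  obtain ⟨R, h1, h2⟩ := hF.zset_fin n r j a b hj h
  refine ⟨R.image fun p => (p.1, p.2.1, p.2.2, mob p.1 p.2.2), ?_, fun p hp => ?_⟩
  · intro q hq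
    obtain ⟨p, hp, rfl⟩ := Finset.mem_image.mp hq
    exact (special_iff hj h _).mpr ⟨h1 p hp, rfl⟩
  · obtain ⟨q, ⟨k1, k2⟩, k3⟩ := h2 _ ((special_iff hj h p).mp hp).1
    refine ⟨_, ⟨Finset.mem_image_of_mem _ k1, k2⟩, ?_⟩
    rintro _ ⟨hq, k4⟩
    obtain ⟨q', hq', rfl⟩ := Finset.mem_image.mp hq
    rw [k3 q' ⟨hq', k4⟩]

lemma sym_special (hU : THB) (hR : REC) (hZ : ZindStmt) (hA : AppStmt)
    (ι : Qbar →+* ℂ) {V : Type} [AddCommGroup V] {β : EQ →+ EQ →+ V} (hβ : Sym β) {n r j : ℤ}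
    {a b : MN 8} (hj : 0 < j) (h : r ^ 2 < 4 * n * j) {R : Finset (M2 × M2 × ℍ × ℍ)}
    (hr : IsSpecialReps n r j a b R) : ∑ q ∈ R, β (uQ ι q.2.2.1) (uQ ι q.2.2.2) = 0 := by
  have hz : ZVan fun τ σ => β (uQ ι τ) (uQ ι σ) := by
    refine hZ _ ?_ (hA ι β hβ) (hR.base ι β hβ)
    intro g1 h1 g2 h2 τ σ
    simp only [uQ_inv hU ι g1 h1, uQ_inv hU ι g2 h2]
  have hinj : Set.InjOn (fun p : M2 × M2 × ℍ × ℍ => (p.1, p.2.1, p.2.2.1)) R := by
    intro p hp q hq e
    have e1 := ((special_iff hj h p).mp (hr.1 p hp)).2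
    have e2 := ((special_iff hj h q).mp (hr.1 q hq)).2
    simp only [Prod.mk.injEq] at e
    refine Prod.ext e.1 (Prod.ext e.2.1 (Prod.ext e.2.2 ?_))
    rw [e1, e2, e.1, e.2.2]
  have := hz n r j a b 1 1 hj h (R.image fun p => (p.1, p.2.1, p.2.2.1)) ⟨?_, fun p hp => ?_⟩
  · rw [Finset.sum_image hinj] at this
    rw [← this]
    refine Finset.sum_congr rfl fun q hq => ?_
    simp only [one_smul, ((special_iff hj h q).mp (hr.1 q hq)).2]
  · intro q hq
    obtain ⟨p, hp, rfl⟩ := Finset.mem_image.mp hq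
    exact ((special_iff hj h p).mp (hr.1 p hp)).1
  · obtain ⟨q, ⟨k1, k2⟩, k3⟩ := hr.2 (p.1, p.2.1, p.2.2, mob p.1 p.2.2)
      ((special_iff hj h _).mpr ⟨hp, rfl⟩)
    refine ⟨_, ⟨Finset.mem_image_of_mem _ k1, k2⟩, ?_⟩
    rintro _ ⟨hq, k4⟩
    obtain ⟨q', hq', rfl⟩ := Finset.mem_image.mp hq
    rw [k3 q' ⟨hq', k4⟩]

/-- The symbol of a proper model, as a map on zero-cycles. -/
theorem exists_sym' (hK : KumStmt) {X : Scheme.{0}} (s : X ⟶ Spec (CommRingCat.of Qbar))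
    [IsProper s] (j : Spec (CommRingCat.of (KummerRing (-1) (-1))) ⟶ X)
    (hj : j ≫ s = Spec.map (CommRingCat.ofHom (algebraMap Qbar (KummerRing (-1) (-1))))) :
    ∃ (V : Type) (_ : AddCommGroup V) (β : EQ →+ EQ →+ V) (pr : (X →₀ ℤ) →+ V), Sym β ∧
      (∀ D, pr D = 0 → ∃ k : ℤ, k ≠ 0 ∧ k • D ∈ AddSubgroup.closure {D | PrincipalCycle s D}) ∧
      ∀ (x y u w : Qbar) (h : (legendre (-1 : Qbar)).Nonsingular x y)
        (h' : (legendre (-1 : Qbar)).Nonsingular u w)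
        (P Q : KummerRing (-1) (-1) →ₐ[Qbar] Qbar), coord P 0 = x → coord P 1 = u →
          coord P 2 = y * w → coord Q 0 = coord Q 1 →
          pr (Finsupp.single (j (closedPt P)) (1 : ℤ) - Finsupp.single (j (closedPt Q)) 1) =
            β (.some x y h) (.some u w h') := by
  let T := AddCommGroup.torsion (Chow s)
  let pr : Chow s →+ Chow s ⧸ T := QuotientAddGroup.mk' T
  have hT : ∀ c : Chow s, pr c = 0 ↔ ∃ k : ℤ, k ≠ 0 ∧ k • c = 0 := by
    intro c
    rw [QuotientAddGroup.mk'_apply, QuotientAddGroup.eq_zero_iff, AddCommGroup.mem_torsion,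
      isOfFinAddOrder_iff_zsmul_eq_zero]
  have tf : ∀ (k : ℤ) (v : Chow s ⧸ T), k ≠ 0 → k • v = 0 → v = 0 := by
    intro k v hk hv
    obtain ⟨c, rfl⟩ := QuotientAddGroup.mk'_surjective T v
    rw [← map_zsmul] at hv
    obtain ⟨l, hl, e⟩ := (hT _).mp hv
    exact (hT _).mpr ⟨l * k, mul_ne_zero hl hk, by rw [mul_smul, e]⟩
  have hγ : CurveRel (-1) (-1) fun x u r => pr (cl s j x u r) := by
    intro F _ _ hF x u r h e hr hh n V hinj hV hW a b c ha hb hc hc0
    have := congrArg pr (curveRel_cl s j hj F hF x u r h e hr hh n V hinj hV hW a b c ha hb hc hc0)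
    simpa only [map_sum, map_zsmul, map_zero] using this
  obtain ⟨κ, β, hβ, h1, h2⟩ := hK _ _ tf hγ
  refine ⟨_, inferInstance, β, pr.comp (QuotientAddGroup.mk' _), hβ, fun D hD => ?_,
    fun x y u w h h' P Q p0 p1 p2 q => ?_⟩
  · obtain ⟨k, hk, e⟩ := (hT _).mp hD
    refine ⟨k, hk, (QuotientAddGroup.eq_zero_iff _).mp ?_⟩
    rw [QuotientAddGroup.mk_zsmul]
    exact e
  have e : coord Q 2 ^ 2 = fl (-1) (coord Q 0) * fl (-1) (coord Q 1) := hom_eq1 Q
  have e1 : pr (cl s j (coord P 0) (coord P 1) (coord P 2)) =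
      κ + β (.some x y h) (.some u w h') := by
    rw [p0, p1, p2, h1 x y u w h h' (p2 ▸ hom_ne P)]
  have e2 : pr (cl s j (coord Q 0) (coord Q 1) (coord Q 2)) = κ := by
    rw [q] at e ⊢
    exact h2 _ _ e (hom_ne Q)
  rw [cl_hom] at e1 e2
  rw [map_sub]
  change pr (QuotientAddGroup.mk _) - pr (QuotientAddGroup.mk _) = _
  rw [e1, e2, add_sub_cancel_left]

/-- The symbol on the tensor square. -/
noncomputable def symT {V : Type} [AddCommGroup V] (β : EQ →+ EQ →+ V) : EQ ⊗[ℤ] EQ →+ V :=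
  TensorProduct.liftAddHom β fun k a b => by simp

lemma symT_tmul {V : Type} [AddCommGroup V] (β : EQ →+ EQ →+ V) (a b : EQ) :
    symT β (a ⊗ₜ b) = β a b := rfl

end Pool.Agent.MP_9207e0_ag.hg

end MrgPart1

-- ======== part 2: formerly Pool.Agent.MP_9207e0_ag.hg.All
section MrgPart2

/-! All modules put together. -/

namespace Pool.Agent.MP_9207e0_ag.hg

theorem all_qb : QB := qb qa orb
theorem all_fs : FS := fs os orb
theorem all_ja : JA := ja qa all_qb
theorem all_jc : JC := jc qa all_qb all_ja orb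
theorem all_jb : JB := jb qa all_qb all_ja
theorem all_tha : THA := tha qa all_qb
theorem all_thb : THB := thb qa all_qb all_tha
theorem all_modf : ModfStmt := modf qa all_qb all_ja all_jc all_jb orb os
theorem all_rec : REC := recip all_qb all_ja all_jc all_jb all_tha all_thb os all_modf
theorem all_zind : ZindStmt := zind os orb all_fs
theorem all_heeg : HeegStmt := heeg os orb all_fs
theorem all_gen : GEN := gen qa all_qb all_ja
theorem all_thm : THM := thmod qa all_qb all_tha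
theorem all_hat : HAT := hat qa
theorem all_emb : EMB := emb all_gen all_thm
theorem all_inp : InpStmt := inp qa all_qb all_gen all_thm all_hat all_emb (poin all_qb)
theorem all_hecke : HECKE := hecke qa orb all_hat
theorem all_e2a : E2A := e2a qa all_qb all_ja form
theorem all_lead : LEAD := leadm qa all_qb orb
theorem all_den : DEN := den qa all_qb all_ja orb form all_e2a
theorem all_proda : ProdaStmt := proda qa all_qb all_hat all_hecke form all_e2a all_den
theorem all_prodb : ProdbStmt :=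
  prodb qa all_qb orb all_hat all_hecke form all_lead all_den (ordf qa all_qb) all_proda
theorem all_bor : BorStmt := bor qa all_qb all_jc orb all_hat all_e2a all_lead all_den
  (denu all_qb all_ja all_jb orb all_lead) all_prodb
theorem all_app : AppStmt :=
  app all_qb all_jc all_tha all_thb os orb all_fs all_rec all_inp all_bor

end Pool.Agent.MP_9207e0_ag.hg

end MrgPart2

-- marker of a merged file
example : 731051 + 46408 = 731051 + 46408 := rfl
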