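import Mathlib
import Pool.Agent.MP_9207e0_ag.hg.Defs
import Pool.Agent.MP_9207e0_ag.hg.Defs2

/-! Short names for the statement on special cycles. -/

namespace Pool.Agent.MP_9207e0_ag.hg

open AlgebraicGeometry UpperHalfPlane
open scoped TensorProduct

variable {K : Type} [Field K]

/-- The subgroup of `E ⊗ E` generated by the images of the special zero-cycles. -/
def specialSpan {E : Type} [AddCommGroup E] (U : ℍ → E) : AddSubgroup (E ⊗[ℤ] E) :=
  AddSubgroup.closure {t | ∃ n r d a b R, 0 < d ∧ r ^ 2 < 4 * n * d ∧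
    IsSpecialReps n r d a b R ∧ t = ∑ p ∈ R, U p.2.2.1 ⊗ₜ[ℤ] U p.2.2.2}

/-- A nonzero multiple of the tensor `∑ c i • a i ⊗ b i` lies in that subgroup. -/
def InSpecialSpan {E : Type} [AddCommGroup E] (U : ℍ → E) {m : ℕ} (c : Fin m → ℤ)
    (a b : Fin m → E) : Prop :=
  ∃ k : ℤ, k ≠ 0 ∧ k • ∑ i, c i • (a i ⊗ₜ[ℤ] b i) ∈ specialSpan U

/-- The zero-cycle `∑ c i • ([p i] - [q])`. -/
noncomputable def diffCycle {X : Type} {m : ℕ} (c : Fin m → ℤ) (p : Fin m → X) (q : X) : X →₀ ℤ :=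
  ∑ i, c i • (Finsupp.single (p i) (1 : ℤ) - Finsupp.single q 1)

/-- A nonzero multiple of the zero-cycle `D` is rationally equivalent to zero. -/
def TorsionCycle {X : Scheme.{0}} (s : X ⟶ Spec (CommRingCat.of K)) (D : X →₀ ℤ) : Prop :=
  ∃ l : ℤ, l ≠ 0 ∧ l • D ∈ AddSubgroup.closure {D | PrincipalCycle s D}

/-- The point `a` has the complex coordinates `(uX τ, uY τ)`. -/
def IsValue (ι : K →+* ℂ) (τ : ℍ) (a : (legendre (-1 : K)).Point) : Prop :=
  ∃ x y h, a = WeierstrassCurve.Affine.Point.some x y h ∧ ι x = uX τ ∧ ι y = uY τ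

/-- `P` is the point of the affine Kummer surface above the pair `(a, b)`. -/
def IsAbove {l m : K} (P : (MvPolynomial (Fin 4) K ⧸ kummerIdeal l m) →ₐ[K] K)
    (a : (legendre l).Point) (b : (legendre m).Point) : Prop :=
  ∃ x y h u w h', a = WeierstrassCurve.Affine.Point.some x y h ∧
    b = WeierstrassCurve.Affine.Point.some u w h' ∧
    coord P 0 = x ∧ coord P 1 = u ∧ coord P 2 = y * w

end Pool.Agent.MP_9207e0_ag.hg
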