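import Pool.Agent.MP_9207e0_ag.hg.Heeg
import Pool.Agent.MP_9207e0_ag.hg.Defs2

/-! Pairs of Heegner points twisted by a genus character. -/

set_option linter.unusedVariables false

namespace Pool.Agent.MP_9207e0_ag.hg

open UpperHalfPlane Complex Filter Asymptotics Matrix
open scoped Real MatrixGroups Manifold Classical Kronecker

namespace Heeg

variable {n d : ℕ} {m : ℤ} {W W1 W2 α β α' β' : M2} {τ τ1 τ2 : ℍ} {f : ℤ × ℤ × ℤ}

/-- The form of a generator. -/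
def Qf (W : M2) (x y : ℤ) : ℤ := W 1 0 * x ^ 2 + (W 1 1 - W 0 0) * x * y - W 0 1 * y ^ 2

/-- The value of the genus character at a point. -/
def Gen (m : ℤ) (d : ℕ) (τ : ℍ) (e : ℤ) : Prop :=
  ∃ W x y, XW m W τ ∧ 0 < W 1 0 ∧ IsCoprime (Qf W x y) d ∧ e = jacobiSym (Qf W x y) d

/-- The genus character as a function. -/
noncomputable def wt (m : ℤ) (d : ℕ) (τ : ℍ) : ℤ := Classical.epsilon (Gen m d τ)

lemma jac_sq {a : ℤ} (h : IsCoprime a d) : jacobiSym a d * jacobiSym a d = 1 := by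
  rw [← sq]
  exact jacobiSym.sq_one (Int.isCoprime_iff_gcd_eq_one.1 h)

lemma jac_eq (ho : Odd d) {a b c k : ℤ} (ha : IsCoprime a d) (hb : IsCoprime b d)
    (h : 4 * (a * b) = c ^ 2 + d * k) : jacobiSym a d = jacobiSym b d := by
  have h4 : IsCoprime (4 : ℤ) d := by
    obtain ⟨t, rfl⟩ := ho
    exact ⟨t ^ 2, 1 - 2 * t, by push_cast; ring⟩
  have hc : IsCoprime (c ^ 2) (d : ℤ) := by
    have := h4.mul_left (ha.mul_left hb)
    rw [h] at this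
    exact this.of_add_mul_left_left
  have e : jacobiSym a d * jacobiSym b d = 1 := by
    have k1 := jacobiSym.sq_one'
      (Int.isCoprime_iff_gcd_eq_one.1 (IsCoprime.pow_left_iff two_pos |>.1 hc))
    rwa [← jacobiSym.mod_left' (a₁ := c ^ 2 + d * k) (by simp), ← h, jacobiSym.mul_left,
      jacobiSym.at_four ho, one_mul, jacobiSym.mul_left] at k1
  rw [← mul_one (jacobiSym a d), ← jac_sq hb, ← mul_assoc, e, one_mul]

lemma Gen.wt_eq (hm : 4 * m = n + 1) (h8 : n % 8 = 7) (hd : d ∣ n) {e : ℤ} (h : Gen m d τ e) :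
    wt m d τ = e := by
  obtain ⟨W', x', y', a', p', c', e'⟩ := Classical.epsilon_spec (p := Gen m d τ) ⟨e, h⟩
  obtain ⟨W, x, y, a, p, c, rfl⟩ := h
  obtain rfl := eq_of_same hm (by omega) a a' (mul_pos p p')
  obtain ⟨k, hk⟩ := hd
  have hk' : (n : ℤ) = d * k := by exact_mod_cast hk
  refine e'.trans (jac_eq (Odd.of_dvd_nat (Nat.odd_iff.2 (by omega)) ⟨k, hk⟩) c' c
    (c := 2 * W 1 0 * x * x' + (W 1 1 - W 0 0) * (x * y' + x' * y) - 2 * W 0 1 * y * y')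
    (k := k * (x * y' - x' * y) ^ 2) ?_)
  unfold Qf
  linear_combination -(x * y' - x' * y) ^ 2 * a.disc hm + (x * y' - x' * y) ^ 2 * hk'

lemma XW.cop (hs : Squarefree n) (hm : 4 * m = n + 1) (hd : d ∣ n) (h : XW m W τ) :
    ∃ x y, IsCoprime (Qf W x y) d := by
  obtain ⟨a, b, c, hb⟩ := bez hs (h.disc hm)
  obtain ⟨x, y, -, hc⟩ := rep_cop (A := W 1 0) (B := W 1 1 - W 0 0) (C := W 0 1) (a := a) (b := b)
    (c := -c) (N := d) (by linear_combination hb)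
    (by exact_mod_cast ne_zero_of_dvd_ne_zero hs.ne_zero hd)
  exact ⟨x, y, hc.symm⟩

lemma Qf_hom {a : M2} (h : a * W1 = W2 * a) (x y : ℤ) :
    Qf W2 (a 0 0 * x + a 0 1 * y) (a 1 0 * x + a 1 1 * y) = a.det * Qf W1 x y := by
  have e0 := congrFun (congrFun h 0) 0
  have e1 := congrFun (congrFun h 0) 1
  have e2 := congrFun (congrFun h 1) 0
  have e3 := congrFun (congrFun h 1) 1
  simp only [Matrix.mul_apply, Fin.sum_univ_two] at e0 e1 e2 e3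
  rw [Matrix.det_fin_two]
  unfold Qf
  linear_combination (a 1 0 * x + a 1 1 * y) * (x * e0 + y * e1) -
    (a 0 0 * x + a 0 1 * y) * (x * e2 + y * e3)

lemma wt_pos (hs : Squarefree n) (hm : 4 * m = n + 1) (h8 : n % 8 = 7) (hd : d ∣ n)
    (h1 : XW m W1 τ1) (h2 : XW m W2 τ2) (p1 : 0 < W1 1 0) (p2 : 0 < W2 1 0) {a : M2}
    (h : a * W1 = W2 * a) (hc : IsCoprime a.det d) :
    wt m d τ2 = jacobiSym a.det d * wt m d τ1 ∧ wt m d τ1 * wt m d τ1 = 1 := by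
  obtain ⟨x, y, c⟩ := h1.cop hs hm hd
  rw [Gen.wt_eq hm h8 hd ⟨W1, x, y, h1, p1, c, rfl⟩, Gen.wt_eq hm h8 hd
    ⟨W2, _, _, h2, p2, (Qf_hom h x y).symm ▸ hc.mul_left c, rfl⟩, Qf_hom h, jacobiSym.mul_left]
  exact ⟨rfl, jac_sq c⟩

lemma wt_hom (hs : Squarefree n) (hm : 4 * m = n + 1) (h8 : n % 8 = 7) (hd : d ∣ n)
    (h1 : XW m W1 τ1) (h2 : XW m W2 τ2) (p : 0 < W1 1 0 * W2 1 0) {a : M2}
    (h : a * W1 = W2 * a) (hc : IsCoprime a.det d) :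
    wt m d τ2 = jacobiSym a.det d * wt m d τ1 ∧ wt m d τ1 * wt m d τ1 = 1 := by
  rcases pos_and_pos_or_neg_and_neg_of_mul_pos p with p | p
  · exact wt_pos hs hm h8 hd h1 h2 p.1 p.2 h hc
  · refine wt_pos hs hm h8 hd h1.flip h2.flip (by simpa [Matrix.adjugate_fin_two] using p.1)
      (by simpa [Matrix.adjugate_fin_two] using p.2) ?_ hc
    have e1 := adj_tr h1.tr 0
    have e2 := adj_tr h2.tr 0
    rw [zero_smul, add_zero, add_zero, one_smul] at e1 e2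
    rw [e1, e2, Matrix.mul_sub, Matrix.sub_mul, h, Matrix.mul_one, Matrix.one_mul]

lemma wt_smul (hs : Squarefree n) (hm : 4 * m = n + 1) (h8 : n % 8 = 7) (hd : d ∣ n) {e : ℤ}
    (h : Sg m e τ) (g : SL2) : wt m d (g • τ) = wt m d τ := by
  obtain ⟨W, a, -, -⟩ := h
  have k := (wt_hom hs hm h8 hd a (a.conj g) (sign_eq (det_SL_pos g) (conj_hom g W) (lin_SL g τ)
    a.lin (mul_self_pos.2 (a.ne hm (by omega)))) (conj_hom g W)
    (by rw [det_SL]; exact isCoprime_one_left)).1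
  rwa [det_SL, jacobiSym.one_left, one_mul] at k

lemma Bas.wt_mul (hs : Squarefree n) (hm : 4 * m = n + 1) (h8 : n % 8 = 7) (hd : d ∣ n) {x : ℍ × ℍ}
    (h : Bas m x f α β) {p q : ℤ}
    (hc : IsCoprime (p ^ 2 * f.1 + p * q * (2 * f.2.1 + 1) + q ^ 2 * f.2.2) (d : ℤ)) :
    wt m d x.1 * wt m d x.2 =
      jacobiSym (p ^ 2 * f.1 + p * q * (2 * f.2.1 + 1) + q ^ 2 * f.2.2) d := by
  obtain ⟨W1, W2, a1, -, a2, -, h⟩ := h
  rw [← h.det_comb a1.tr] at hc ⊢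
  obtain ⟨k1, k2⟩ := wt_hom hs hm h8 hd a1 a2 (sign_eq (h.da ▸ h.pos) h.hom_a h.la a1.lin
    (mul_self_pos.2 (a1.ne hm (by omega)))) (a := p • α + q • β) (by
      rw [Matrix.add_mul, Matrix.mul_add, Matrix.smul_mul, Matrix.smul_mul, Matrix.mul_smul,
        Matrix.mul_smul, h.hom_a, h.hom_b]) hc
  rw [k1, mul_left_comm, k2, mul_one]

lemma Bas.wt_eq (hs : Squarefree n) (hm : 4 * m = n + 1) (h8 : n % 8 = 7) (hd : d ∣ n)
    {x y : ℍ × ℍ} (h : Bas m x f α β) (h' : Bas m y f α' β') :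
    wt m d x.1 * wt m d x.2 = wt m d y.1 * wt m d y.2 := by
  obtain ⟨a, b, c, hb⟩ := bez hs (h.disc hm)
  obtain ⟨p, q, -, hc⟩ := rep_cop (A := f.1) (B := 2 * f.2.1 + 1) (C := -f.2.2) (a := b) (b := a)
    (c := c) (N := d) (by linear_combination hb)
    (by exact_mod_cast ne_zero_of_dvd_ne_zero hs.ne_zero hd)
  have k : IsCoprime (p ^ 2 * f.1 + p * q * (2 * f.2.1 + 1) + q ^ 2 * f.2.2) (d : ℤ) := by
    convert hc.symm using 1
    ring
  rw [h.wt_mul hs hm h8 hd k, h'.wt_mul hs hm h8 hd k]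

lemma xw_form (hm : 4 * m = n + 1) (h8 : n % 8 = 7) {A B C : ℤ} (hd : B ^ 2 - 4 * A * C = -n)
    (hτ : (A : ℂ) * (τ : ℂ) ^ 2 + B * τ + C = 0) :
    ∃ w, B = 1 - 2 * w ∧ XW m !![w, -C; A, 1 - w] τ := by
  obtain ⟨w, rfl⟩ : ∃ w, B = 1 - 2 * w := by
    rcases Int.even_or_odd' B with ⟨w, rfl | rfl⟩
    · exfalso
      have : 4 * (w ^ 2 - A * C) = -n := by linear_combination hd
      omega
    · exact ⟨-w, by ring⟩
  refine ⟨w, rfl, by simp, ?_, ?_⟩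
  · rw [Matrix.det_fin_two_of]
    linarith
  · simp only [Lin, of_apply, cons_val', cons_val_zero, cons_val_one, cons_val_fin_one]
    push_cast at hτ ⊢
    linear_combination -hτ

lemma wt_genus (hm : 4 * m = n + 1) (h8 : n % 8 = 7) (hd : d ∣ n) {p : ℤ × ℍ} {e : ℤ}
    (h : IsGenus n d p e) : wt m d p.2 = e := by
  obtain ⟨A, C, x, y, hA, h1, h2, hc, he⟩ := h
  obtain ⟨w, hw, k⟩ := xw_form hm h8 h1 h2
  have e1 : Qf !![w, -C; A, 1 - w] x y = A * x ^ 2 + p.1 * x * y + C * y ^ 2 := by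
    simp only [Qf, hw, of_apply, cons_val', cons_val_zero, cons_val_one, cons_val_fin_one]
    ring
  exact Gen.wt_eq hm h8 hd ⟨_, x, y, k, by simpa using hA, e1 ▸ hc, e1 ▸ he⟩

variable {V : Type} [AddCommGroup V] {s : ℍ → ℍ → V}

lemma van_psG (hS : OS) (hF : FS) (hI : Inv8 s) (hZ : ZVan s) (hs : Squarefree n)
    (hm : 4 * m = n + 1) (hn : 7 ≤ n) (γ1 γ2 : SL2) (c : ℍ × ℍ → ℤ)
    (hc : ∀ x y f α β α' β', Bas m x f α β → Bas m y f α' β' → c x = c y) :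
    Van relP (PS m) fun x => c x • s (γ1 • x.1) (γ2 • x.2) := by
  refine hS.van_of_parts _ (fun x => {f | ∃ α β, Bas m x f α β}) ?_ fun i => ?_
  · intro x _ y _ hr
    ext f
    exact ⟨fun ⟨_, _, h⟩ => h.rel hr, fun ⟨_, _, h⟩ => h.rel ((relP_equiv hF).symm hr)⟩
  · by_cases h : ∃ x, x ∈ PS m ∧ {f | ∃ α β, Bas m x f α β} = i
    · obtain ⟨x0, ⟨e, ⟨W1, a1, d1, s1⟩, W2, a2, d2, s2⟩, rfl⟩ := h
      obtain ⟨f, α, β, h⟩ := exists_RB hs hm a1 a2 (same_sign s1 s2)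
      have h0 : Bas m x0 f α β := ⟨W1, W2, a1, d1, a2, d2, h⟩
      have k : Van relP {x | ∃ α β, Bas m x f α β} fun x => c x • s (γ1 • x.1) (γ2 • x.2) := by
        intro R hR
        rw [← smul_zero (c x0), ← van_f hS hF hI hZ hs hm hn γ1 γ2 f R hR, Finset.smul_sum]
        refine Finset.sum_congr rfl fun x hx => ?_
        obtain ⟨_, _, k⟩ := hR.1 x hx
        rw [← hc _ _ _ _ _ _ _ k h0]
      convert k using 1
      ext x
      constructor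
      · rintro ⟨-, e⟩
        exact (Set.ext_iff.1 e f).2 ⟨_, _, h0⟩
      · rintro ⟨a, b, k⟩
        refine ⟨k.ps hm (by omega), Set.ext fun f' => ⟨fun ⟨_, _, k'⟩ => k.trans hs hm k' h0,
          fun ⟨_, _, k'⟩ => h0.trans hs hm k' k⟩⟩
    · exact fun R hR => Finset.sum_eq_zero fun z hz => absurd ⟨z, hR.1 z hz⟩ h

lemma halfG (hF : FS) (hm : 4 * m = n + 1) (h8 : n % 8 = 7) {R : Finset (ℤ × ℍ)}
    (hR : IsHeegnerReps n R) (δ : SL2) (e : ℤ) (he : e = 1 ∨ e = -1)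
    (h1 : ∀ m c τ, Sg m c τ → Sg m (e * c) (δ • τ)) (h2 : ∀ τ : ℍ, δ • δ • τ = τ)
    {F : ℍ × ℍ → V} (hv : Van relP (PS m) F) :
    ∑ x ∈ R ×ˢ R with ch x.1 * ch x.2 = e, F (x.1.2, δ • x.2.2) = 0 := by
  have n0 : 0 < n := by omega
  have E := relP_equiv hF
  have i1 : ∀ p ∈ R, ∀ q ∈ R, relG 8 p.2 q.2 → p = q := fun p hp q hq h =>
    (hR.2 _ _ (hR.1 p hp)).unique ⟨hp, (hF.relG_equiv 8).refl _⟩ ⟨hq, h⟩
  have inj : ∀ x ∈ R ×ˢ R, ∀ y ∈ R ×ˢ R, relP (x.1.2, δ • x.2.2) (y.1.2, δ • y.2.2) → x = y := by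
    intro x hx y hy h
    rw [Finset.mem_product] at hx hy
    exact Prod.ext (i1 _ hx.1 _ hy.1 h.1) (i1 _ hx.2 _ hy.2 (by
      simpa only [h2] using relG_smul δ h.2))
  have k := hv
    (((R ×ˢ R).filter fun x => ch x.1 * ch x.2 = e).image fun x => (x.1.2, δ • x.2.2)) ⟨?_, ?_⟩
  · rwa [Finset.sum_image fun x hx y hy h => inj x (Finset.mem_filter.1 hx).1 y
      (Finset.mem_filter.1 hy).1 (by rw [h]; exact E.refl _)] at k
  · simp only [Finset.mem_image, Finset.mem_filter, Finset.mem_product]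
    rintro _ ⟨x, ⟨hx, c⟩, rfl⟩
    obtain ⟨c1, s1⟩ := sg_of hm h8 (hR.1 _ hx.1)
    obtain ⟨c2, s2⟩ := sg_of hm h8 (hR.1 _ hx.2)
    refine ⟨_, s1, ?_⟩
    convert h1 _ _ _ s2 using 1
    rw [← c]
    rcases c2 with c2 | c2 <;> simp [c2]
  · rintro y ⟨c, s1, s2⟩
    obtain ⟨B1, b1⟩ := s1.heeg hm
    obtain ⟨B2, b2⟩ := (h1 _ _ _ s2).heeg hm
    obtain ⟨p, hp, r1⟩ := (hR.2 _ _ b1).exists
    obtain ⟨q, hq, r2⟩ := (hR.2 _ _ b2).exists
    obtain ⟨c1, t1⟩ := sg_of hm h8 (hR.1 _ hp)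
    obtain ⟨c2, t2⟩ := sg_of hm h8 (hR.1 _ hq)
    have u1 := t1.same hm n0 (s1.rel r1)
    have u2 := t2.same hm n0 ((h1 _ _ _ s2).rel r2)
    have r : relP y (p.2, δ • q.2) := ⟨r1, by simpa only [h2] using relG_smul δ r2⟩
    refine ⟨(p.2, δ • q.2), ⟨Finset.mem_image.2 ⟨(p, q), Finset.mem_filter.2
      ⟨Finset.mem_product.2 ⟨hp, hq⟩, ?_⟩, rfl⟩, r⟩, ?_⟩
    · dsimp only
      rcases c1 with c1 | c1 <;> rcases c2 with c2 | c2 <;> rcases he with rfl | rfl <;>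
        rw [c1] at u1 ⊢ <;> rw [c2] at u2 ⊢ <;> omega
    · rintro _ ⟨hz, r'⟩
      obtain ⟨x, hx, rfl⟩ := Finset.mem_image.1 hz
      rw [inj x (Finset.mem_filter.1 hx).1 (p, q) (Finset.mem_product.2 ⟨hp, hq⟩)
        (E.trans (E.symm r') r)]

end Heeg

open Heeg in
theorem exists_genus {n d : ℕ} (hs : Squarefree n) (hd : d ∣ n) {p : ℤ × ℍ}
    (h : IsHeegner n p.1 p.2) : ∃ e, IsGenus n d p e := by
  obtain ⟨A, C, hA, -, -, h1, h2⟩ := h
  obtain ⟨a, b, c, hb⟩ := bez hs (x := A) (y := -C) (z := p.1) (by linear_combination h1)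
  obtain ⟨x, y, -, hc⟩ := rep_cop (A := A) (B := p.1) (C := -C) (a := b) (b := a) (c := c) (N := d)
    (by linear_combination hb) (by exact_mod_cast ne_zero_of_dvd_ne_zero hs.ne_zero hd)
  rw [neg_mul, sub_neg_eq_add] at hc
  exact ⟨_, A, C, x, y, hA, h1, h2, hc.symm, rfl⟩

open Heeg in
theorem heegG (hS : OS) (hO : ORB) (hF : FS) {E V : Type} [AddCommGroup E] [AddCommGroup V]
    (β : E →+ E →+ V) (U : ℍ → E) (hU : ∀ g ∈ Gam 8, ∀ τ, U (g • τ) = U τ)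
    (hZ : ZVan fun τ σ => β (U τ) (U σ)) {n d : ℕ} {R : Finset (ℤ × ℍ)} {om : ℤ × ℍ → ℤ}
    (hs : Squarefree n) (h8 : n % 8 = 7) (hd : d ∣ n) (hR : IsHeegnerReps n R)
    (ho : ∀ p ∈ R, IsGenus n d p (om p)) (γ1 γ2 : SL2) :
    β (∑ p ∈ R, (om p * (ZMod.χ₄ (p.1 : ZMod 4) : ℤ)) • U (γ1 • p.2))
      (∑ p ∈ R, (om p * (ZMod.χ₄ (p.1 : ZMod 4) : ℤ)) • U (γ2 • p.2)) = 0 := by
  obtain ⟨m, hm⟩ : ∃ m : ℤ, 4 * m = n + 1 := ⟨(n + 1) / 4, by omega⟩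
  have hI : Inv8 fun τ σ => β (U τ) (U σ) := fun g1 h1 g2 h2 τ σ => by
    simp only [hU _ h1, hU _ h2]
  have hv := fun γ => van_psG hS hF hI hZ hs hm (by omega) γ1 γ
    (fun x => wt m d x.1 * wt m d x.2) fun x y f a b a' b' h h' => h.wt_eq hs hm h8 hd h'
  have k1 := halfG hF hm h8 hR 1 1 (.inl rfl) (fun m c τ h => by simpa using h) (by simp) (hv γ2)
  have k2 := halfG hF hm h8 hR ModularGroup.S (-1) (.inr rfl) (fun m c τ h => h.flip)
    (fun τ => by rw [← ModularGroup.SL_neg_smul, ← ModularGroup.S_inv, inv_smul_smul])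
    (hv (γ2 * ModularGroup.S⁻¹))
  simp only [one_smul, mul_smul γ2, inv_smul_smul] at k1 k2
  have k := sub_eq_zero.2 (k1.trans k2.symm)
  rw [Finset.sum_filter, Finset.sum_filter, ← Finset.sum_sub_distrib, Finset.sum_product] at k
  rw [map_sum β, AddMonoidHom.finsetSum_apply, ← k]
  simp only [map_sum, map_zsmul, AddMonoidHom.zsmul_apply]
  refine Finset.sum_congr rfl fun p hp => Finset.sum_congr rfl fun q hq => ?_
  obtain ⟨c1, -⟩ := sg_of hm h8 (hR.1 _ hp)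
  obtain ⟨c2, s2⟩ := sg_of hm h8 (hR.1 _ hq)
  rw [wt_smul hs hm h8 hd s2, wt_genus hm h8 hd (ho p hp), wt_genus hm h8 hd (ho q hq), smul_smul]
  rcases c1 with c1 | c1 <;> rcases c2 with c2 | c2 <;> simp [c1, c2, mul_comm]

end Pool.Agent.MP_9207e0_ag.hg
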